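import Pool.Agent.RTP.ACard

/-!
# A7: infinite sets (over `Env`)
-/

set_option autoImplicit false

namespace RT22P

open Env

variable {M : Type} [Env M] {Γ Δ Θ : Type} [Enc M Γ] [Enc M Δ] [Enc M Θ]

/-- `X` is an infinite set of the model -/
structure IS (X : Set M) : Prop where
  comp : Comp M (fun x => x ∈ X)
  unb : Unb X

theorem mem_S_iff {X : Set M} : X ∈ Arith.S (M := M) ↔ Comp M (fun x => x ∈ X) := by
  exact ⟨fun h => Env0.c_mem h, fun h => Env0.c_set h⟩

theorem is_univ : IS (Set.univ : Set M) := by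
  refine ⟨?_, fun a => ⟨a + 1, Set.mem_univ _, lt_self_succ a⟩⟩
  have e : (fun x : M => x ∈ (Set.univ : Set M)) = fun _ => True := by
    funext x; exact propext ⟨fun _ => trivial, fun _ => Set.mem_univ _⟩
  rw [e]
  exact comp_constP True

private theorem ainf_id_le {e : M → M} (he : Comp M e) (hm : ∀ n, e n < e (n + 1)) (i : M) :
    i ≤ e i := by
  refine cind (P := fun i => i ≤ e i) (comp_le _ _ comp_id he) (zero_le' _) (fun x hx => ?_) i
  exact succ_le_iff.mpr (lt_of_le_of_lt hx (hm x))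

private theorem ainf_range {e : M → M} (he : Comp M e) (hm : ∀ n, e n < e (n + 1)) :
    IS (Set.range e) ∧ ∀ i j, i < j → e i < e j := by
  refine ⟨⟨?_, fun a => ?_⟩, fun i j => ?_⟩
  · have h : (fun x : M => x ∈ Set.range e) = fun x => ∃ n, n ≤ x ∧ e n = x := by
      funext x
      refine propext ⟨?_, ?_⟩
      · rintro ⟨n, rfl⟩
        exact ⟨n, ainf_id_le he hm n, rfl⟩
      · rintro ⟨n, -, h⟩
        exact ⟨n, h⟩
    rw [h]
    exact comp_bexle (fun x => x) (fun x n => e n = x) comp_id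
      (comp_eq _ _ (comp_comp _ _ he (comp_snd _ comp_id)) (comp_fst _ comp_id))
  · exact ⟨e (a + 1), ⟨a + 1, rfl⟩, lt_of_lt_of_le (lt_self_succ a) (ainf_id_le he hm _)⟩
  · refine cind (P := fun j => i < j → e i < e j) ?_ (fun h => absurd h (not_lt_zero' _))
      (fun x ih hx => ?_) j
    · exact comp_imp _ _ (comp_lt _ _ (comp_const i) comp_id) (comp_lt _ _ (comp_const _) he)
    · rcases lt_or_eq_of_le (lt_succ.mp hx) with h | h
      · exact (ih h).trans (hm x)
      · rw [h]; exact hm x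

/-- every unbounded `Σ₁` class contains an infinite set -/
theorem inf_of_sig {P : M → Prop} (hP : Sig M P) (h : ∀ b, ∃ x, b < x ∧ P x) :
    ∃ X : Set M, IS X ∧ ∀ x ∈ X, P x := by
  obtain ⟨F, hF, -, hR⟩ := iterS (0 : M) (I := fun _ _ => True)
    (R := fun _ x y : M => x < y ∧ P y) (comp_constP True)
    (sig_and (sig_of_comp (comp_lt _ _ (comp_fst _ (comp_snd _ comp_id))
      (comp_snd _ (comp_snd _ comp_id)))) (sig_comp hP (comp_snd _ (comp_snd _ comp_id)))) trivial
    (fun _ x _ => h x) (fun _ _ _ _ _ => trivial)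
  have he : Comp M (fun n => F (n + 1)) := comp_comp _ _ hF (comp_add _ _ comp_id (comp_const 1))
  refine ⟨Set.range (fun n => F (n + 1)), (ainf_range he fun n => ((hR (n + 1)).2).1).1, ?_⟩
  rintro x ⟨n, rfl⟩
  exact (hR n).2.2

/-- the range of a strictly increasing computable function -/
theorem is_range {e : M → M} (he : Comp M e) (hm : ∀ n, e n < e (n + 1)) :
    IS (Set.range e) ∧ ∀ i j, i < j → e i < e j := by
  exact ainf_range he hm

/-- the increasing enumeration of an infinite set -/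
theorem enum {X : Set M} (hX : IS X) : ∃ e : M → M, Comp M e ∧ (∀ i j, i < j → e i < e j) ∧
    (∀ i, i ≤ e i) ∧ (∀ n, e n ∈ X) ∧ ∀ x ∈ X, ∃ n, e n = x := by
  obtain ⟨f, hf, hfm⟩ := search_min (P := fun y x : M => y ≤ x ∧ x ∈ X)
    (comp_and _ _ (comp_le _ _ (comp_fst _ comp_id) (comp_snd _ comp_id))
      (comp_comp (fun x : M => x ∈ X) _ hX.comp (comp_snd _ comp_id)))
    (fun y => by
      obtain ⟨x, hx, hyx⟩ := hX.unb y
      exact ⟨x, hyx.le, hx⟩)
  obtain ⟨e, he, he0, hes⟩ := iter (f 0) (h := fun _ y : M => f (y + 1))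
    (comp_comp _ _ hf (comp_add _ _ (comp_snd _ comp_id) (comp_const 1)))
  have hstep : ∀ n, e n < e (n + 1) := by
    intro n
    rw [hes]
    exact succ_le_iff.mp (hfm _).1.1
  refine ⟨e, he, (ainf_range he hstep).2, ainf_id_le he hstep, fun n => ?_, fun x hx => ?_⟩
  · rcases zero_or_succ n with rfl | ⟨m, rfl⟩
    · rw [he0]; exact (hfm _).1.2
    · rw [hes]; exact (hfm _).1.2
  · obtain ⟨n, hn, hmin⟩ := leastC (P := fun n => x < e n) (comp_lt _ _ (comp_const x) he)
      ⟨x + 1, lt_of_lt_of_le (lt_self_succ x) (ainf_id_le he hstep _)⟩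
    rcases zero_or_succ n with rfl | ⟨m, rfl⟩
    · exfalso
      rw [he0] at hn
      exact (hfm _).2 x hn ⟨zero_le' _, hx⟩
    · refine ⟨m, ?_⟩
      have h1 : e m ≤ x := not_lt.mp (hmin m (lt_self_succ m))
      by_contra hne
      have h2 : e m < x := lt_of_le_of_ne h1 hne
      rw [hes] at hn
      exact (hfm _).2 x hn ⟨succ_le_iff.mpr h2, hx⟩

/-- a strictly increasing function is at least the identity -/
theorem id_le {e : M → M} (he : Comp M e) (hm : ∀ i j, i < j → e i < e j) (i : M) : i ≤ e i := by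
  exact ainf_id_le he (fun n => hm _ _ (lt_self_succ n)) i

theorem is_sep {X : Set M} (hX : IS X) {P : M → Prop} (hP : Comp M P)
    (h : ∀ b, ∃ x ∈ X, b < x ∧ P x) : IS {x | x ∈ X ∧ P x} := by
  refine ⟨comp_and _ _ hX.comp hP, fun b => ?_⟩
  obtain ⟨x, hx, hbx, hPx⟩ := h b
  exact ⟨x, ⟨hx, hPx⟩, hbx⟩

theorem is_above {X : Set M} (hX : IS X) (b : M) : IS {x | x ∈ X ∧ b < x} := by
  refine is_sep hX (comp_lt _ _ (comp_const b) comp_id) fun b' => ?_
  obtain ⟨x, hx, h⟩ := hX.unb (max b' b)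
  exact ⟨x, hx, lt_of_le_of_lt (le_max_left _ _) h, lt_of_le_of_lt (le_max_right _ _) h⟩

/-- the image of an infinite set under a strictly increasing function -/
theorem is_image {X : Set M} (hX : IS X) {e : M → M} (he : Comp M e)
    (hm : ∀ i j, i < j → e i < e j) : IS (e '' X) := by
  have hle : ∀ i, i ≤ e i := ainf_id_le he (fun n => hm _ _ (lt_self_succ n))
  refine ⟨?_, fun a => ?_⟩
  · have h : (fun y : M => y ∈ e '' X) = fun y => ∃ x, x ≤ y ∧ (x ∈ X ∧ e x = y) := by
      funext y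
      refine propext ⟨?_, ?_⟩
      · rintro ⟨x, hx, rfl⟩
        exact ⟨x, hle x, hx, rfl⟩
      · rintro ⟨x, -, hx, h⟩
        exact ⟨x, hx, h⟩
    rw [h]
    exact comp_bexle (fun x => x) (fun y x => x ∈ X ∧ e x = y) comp_id
      (comp_and _ _ (comp_comp (fun x : M => x ∈ X) _ hX.comp (comp_snd _ comp_id))
        (comp_eq _ _ (comp_comp _ _ he (comp_snd _ comp_id)) (comp_fst _ comp_id)))
  · obtain ⟨x, hx, hax⟩ := hX.unb a
    exact ⟨e x, ⟨x, hx, rfl⟩, lt_of_lt_of_le hax (hle x)⟩

/-- a finite subset of `X` -/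
def FS (a : M) (X : Set M) : Prop := ∀ x, el x a → x ∈ X

theorem comp_FS {X : Set M} (hX : Comp M (fun x => x ∈ X)) (f : Γ → M) (hf : Comp M f) :
    Comp M (fun v => FS (f v) X) := by
  exact comp_allel f (fun _ x => x ∈ X) hf
    (comp_comp (fun x : M => x ∈ X) _ hX (comp_snd _ comp_id))

/-- the initial segment of a set of the model -/
theorem exists_seg {X : Set M} (hX : Comp M (fun x => x ∈ X)) : ∃ s : M → M, Comp M s ∧
    ∀ b x, el x (s b) ↔ x ∈ X ∧ x < b := by
  obtain ⟨F, hF, h⟩ := Env.c_code (M := M) (Γ := M) (b := fun b => b) (P := fun q => q.2 ∈ X) comp_id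
    (comp_comp (fun x : M => x ∈ X) _ hX (comp_snd _ comp_id))
  exact ⟨F, hF, fun b x => (h b x).trans and_comm⟩

/-- infinite sets have finite subsets of every size above every bound -/
theorem exists_fin {X : Set M} (hX : IS X) (b k : M) :
    ∃ a, FS a X ∧ card a = k ∧ ∀ x, el x a → b < x := by
  obtain ⟨e, he, hm, -, hX', -⟩ := enum (is_above hX b)
  obtain ⟨a, ha, hc⟩ := exists_image he (ivl 0 k)
  have hk : card (ivl (0 : M) k) = k := by
    have h := card_ivl (zero_le' k)
    rwa [add_zero] at h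
  refine ⟨a, fun y hy => ?_, le_antisymm (hc.trans hk.le) ?_, fun y hy => ?_⟩
  · obtain ⟨x, -, rfl⟩ := (ha y).mp hy
    exact (hX' x).1
  · refine hk.ge.trans ?_
    refine card_le_of_inj he (fun x hx => (ha _).mpr ⟨x, hx, rfl⟩)
      (fun x y _ _ hxy => ?_)
    rcases lt_trichotomy x y with h | h | h
    · exact absurd hxy (hm _ _ h).ne
    · exact h
    · exact absurd hxy (hm _ _ h).ne'
  · obtain ⟨x, -, rfl⟩ := (ha y).mp hy
    exact (hX' x).2

/-- greedy construction of an infinite subset: every finite set which satisfies the condition can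
be continued above every bound -/
theorem greedy {P : M → M → Prop} (hP : Comp M (fun q : M × M => P q.1 q.2))
    (h : ∀ a, (∀ x, el x a → P (blw a x) x) → ∀ b, ∃ x, b < x ∧ (∀ y, el y a → y < x) ∧ P a x) :
    ∃ X : Set M, IS X ∧ ∀ x ∈ X, ∀ a, (∀ y, el y a ↔ y ∈ X ∧ y < x) → P a x := by
  have hP' : ∀ {Γ : Type} [Enc M Γ] (f g : Γ → M), Comp M f → Comp M g →
      Comp M (fun v => P (f v) (g v)) := fun f g hf hg =>
    comp_comp (fun q : M × M => P q.1 q.2) _ hP (comp_prod _ _ hf hg)
  obtain ⟨F, hF, hF0, hFR⟩ := iterS (emp M)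
    (I := fun _ a : M => ∀ x, el x a → P (blw a x) x)
    (R := fun n a a' : M => ∃ x : M, n < x ∧ (∀ y, el y a → y < x) ∧ P a x ∧ a' = un a (sg x))
    (comp_allel (fun q : M × M => q.2) (fun q x => P (blw q.2 x) x) (comp_snd _ comp_id)
      (hP' _ _ (comp_blw _ _ (comp_snd _ (comp_fst _ comp_id)) (comp_snd _ comp_id))
        (comp_snd _ comp_id)))
    (sig_ex (sig_of_comp (comp_and _ _ (by fun_prop) (comp_and _ _ (by fun_prop) (comp_and _ _
      (hP' _ _ (by fun_prop) (by fun_prop)) (by fun_prop))))))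
    (fun x hx => absurd hx el_emp)
    (fun n a ha => by
      obtain ⟨x, h1, h2, h3⟩ := h a ha n
      exact ⟨_, x, h1, h2, h3, rfl⟩)
    (fun n a a' ha => by
      rintro ⟨x, -, h2, h3, rfl⟩ z hz
      rcases el_un.mp hz with hz' | hz'
      · have hzx := h2 z hz'
        have e : blw (un a (sg x)) z = blw a z := by
          apply fext
          intro y
          rw [el_blw, el_blw, el_un, el_sg]
          constructor
          · rintro ⟨h4 | h4, h5⟩
            · exact ⟨h4, h5⟩
            · rw [h4] at h5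
              exact absurd (h5.trans hzx) (lt_irrefl _)
          · rintro ⟨h4, h5⟩
            exact ⟨Or.inl h4, h5⟩
        rw [e]
        exact ha z hz'
      · have hzx := el_sg.mp hz'
        rw [hzx]
        have e : blw (un a (sg x)) x = a := by
          apply fext
          intro y
          rw [el_blw, el_un, el_sg]
          constructor
          · rintro ⟨h4 | h4, h5⟩
            · exact h4
            · rw [h4] at h5
              exact absurd h5 (lt_irrefl _)
          · intro h4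
            exact ⟨Or.inl h4, h2 y h4⟩
        rw [e]
        exact h3)
  -- the sets increase
  have hmono : ∀ n m, n ≤ m → Sub (F n) (F m) := by
    intro n m
    refine cind (P := fun m => n ≤ m → Sub (F n) (F m)) ?_ ?_ ?_ m
    · exact comp_imp _ _ (comp_le _ _ (comp_const n) comp_id) (comp_Sub _ _ (comp_const _) hF)
    · intro hn
      rw [le_antisymm hn (zero_le' n)]
      exact Sub.refl _
    · intro m ih hn
      rcases lt_or_eq_of_le hn with h1 | h1
      · obtain ⟨x, -, -, -, h2⟩ := (hFR m).2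
        intro y hy
        rw [h2, el_un]
        exact Or.inl (ih (lt_succ.mp h1) y hy)
      · rw [h1]
        exact Sub.refl _
  -- small elements are there early
  have hearly : ∀ x n m, x ≤ n → n ≤ m → el x (F m) → el x (F n) := by
    intro x n m hxn
    refine cind (P := fun m => n ≤ m → el x (F m) → el x (F n)) ?_ ?_ ?_ m
    · exact comp_imp _ _ (comp_le _ _ (comp_const n) comp_id)
        (comp_imp _ _ (comp_el (comp_const x) hF) (comp_constP _))
    · intro hn
      rw [le_antisymm hn (zero_le' n)]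
      exact id
    · intro m ih hn hx
      rcases lt_or_eq_of_le hn with h1 | h1
      · obtain ⟨y, hy, -, -, h2⟩ := (hFR m).2
        rw [h2, el_un, el_sg] at hx
        rcases hx with hx | hx
        · exact ih (lt_succ.mp h1) hx
        · exfalso
          have h3 : x ≤ m := hxn.trans (lt_succ.mp h1)
          rw [hx] at h3
          exact absurd (lt_of_lt_of_le hy h3) (lt_irrefl _)
      · rw [h1]
        exact hx
  refine ⟨{x | el x (F x)}, ⟨comp_el comp_id hF, fun a => ?_⟩, fun x hx a ha => ?_⟩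
  · obtain ⟨x, hx, -, -, h2⟩ := (hFR a).2
    refine ⟨x, ?_, hx⟩
    show el x (F x)
    apply hmono (a + 1) x (succ_le_iff.mpr hx)
    rw [h2, el_un, el_sg]
    exact Or.inr rfl
  · have h1 := (hFR x).1 x hx
    have e : a = blw (F x) x := by
      apply fext
      intro y
      rw [ha, el_blw]
      constructor
      · rintro ⟨h2, h3⟩
        exact ⟨hmono y x h3.le y h2, h3⟩
      · rintro ⟨h2, h3⟩
        exact ⟨hearly y y x le_rfl h3.le h2, h3⟩
    rw [e]
    exact h1

/-- greedy construction for a symmetric condition on pairs -/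
theorem greedy2 {X : Set M} (hX : IS X) {R : M → M → Prop}
    (hR : Comp M (fun q : M × M => R q.1 q.2))
    (h : ∀ a, FS a X → ∀ b, ∃ y ∈ X, b < y ∧ ∀ x, el x a → R x y) :
    ∃ Y : Set M, IS Y ∧ Y ⊆ X ∧ ∀ x ∈ Y, ∀ y ∈ Y, x < y → R x y := by
  obtain ⟨Y, hY, hYP⟩ := greedy (P := fun a y : M => y ∈ X ∧ ∀ x, el x a → R x y)
    (comp_and _ _ (comp_comp (fun x : M => x ∈ X) _ hX.comp (comp_snd _ comp_id))
      (comp_allel (fun q : M × M => q.1) (fun q x => R x q.2) (comp_fst _ comp_id)
        (comp_comp (fun q : M × M => R q.1 q.2) _ hR (comp_prod _ _ (comp_snd _ comp_id)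
          (comp_snd _ (comp_fst _ comp_id))))))
    (fun a ha b => by
      obtain ⟨y, hy, hby, hr⟩ := h a (fun x hx => (ha x hx).1) (max b a)
      exact ⟨y, lt_of_le_of_lt (le_max_left _ _) hby, fun z hz =>
        (Env.el_lt hz).trans (lt_of_le_of_lt (le_max_right _ _) hby), hy, hr⟩)
  obtain ⟨s, -, hs⟩ := exists_seg hY.comp
  exact ⟨Y, hY, fun y hy => (hYP y hy (s y) (fun z => hs y z)).1, fun x hx y hy hxy =>
    (hYP y hy (s y) (fun z => hs y z)).2 x ((hs y x).mpr ⟨hx, hxy⟩)⟩

/-- sequences of finite sets `E 0 < E 1 < ...` -/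
structure Blk (E : M → M) : Prop where
  comp : Comp M E
  ne : ∀ k, ∃ x, el x (E k)
  lt : ∀ k l, k < l → ∀ x y, el x (E k) → el y (E l) → x < y

/-- construction of a sequence of blocks -/
theorem exists_blk {P : M → M → Prop} (hP : Sig M (fun q : M × M => P q.1 q.2))
    (h : ∀ k b, ∃ a, P k a ∧ (∃ x, el x a) ∧ ∀ x, el x a → b < x) :
    ∃ E : M → M, Blk E ∧ ∀ k, P k (E k) := by
  obtain ⟨F, hF, -, hFR⟩ := iterS (emp M) (I := fun _ _ => True)
    (R := fun n a a' : M => P n a' ∧ (∃ x, el x a') ∧ ∀ x, el x a' → a < x) (comp_constP True)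
    (sig_and (sig_comp hP (comp_prod _ _ (comp_fst _ comp_id) (comp_snd _ (comp_snd _ comp_id))))
      (sig_of_comp (comp_and _ _ (by
        have h1 : (fun q : M × M × M => ∃ x, el x q.2.2) = fun q => ∃ x, el x q.2.2 ∧ True := by
          funext q
          exact propext ⟨fun ⟨x, hx⟩ => ⟨x, hx, trivial⟩, fun ⟨x, hx, _⟩ => ⟨x, hx⟩⟩
        rw [h1]
        exact comp_exel (fun q : M × M × M => q.2.2) (fun _ _ => True)
          (comp_snd _ (comp_snd _ comp_id)) (comp_constP True)) (by fun_prop)))) trivial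
    (fun n a _ => h n a) (fun _ _ _ _ _ => trivial)
  have hE : Comp M (fun n => F (n + 1)) := comp_comp _ _ hF (comp_add _ _ comp_id (comp_const 1))
  have hlt : ∀ k l, k < l → ∀ y, el y (F (l + 1)) → F (k + 1) < y := by
    intro k l
    refine cind (P := fun l => k < l → ∀ y, el y (F (l + 1)) → F (k + 1) < y) ?_
      (fun h => absurd h (not_lt_zero' _)) ?_ l
    · exact comp_imp _ _ (comp_lt _ _ (comp_const k) comp_id) (comp_allel (fun l => F (l + 1))
        (fun _ y => F (k + 1) < y) hE (comp_lt _ _ (comp_const _) (comp_snd _ comp_id)))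
    · intro l ih hk y hy
      have h1 := (hFR (l + 1)).2.2.2 y hy
      rcases lt_or_eq_of_le (lt_succ.mp hk) with h2 | h2
      · obtain ⟨z, hz⟩ := (hFR l).2.2.1
        exact ((ih h2 z hz).trans (Env.el_lt hz)).trans h1
      · rw [h2]
        exact h1
  refine ⟨fun n => F (n + 1), ⟨hE, fun k => (hFR k).2.2.1, fun k l hkl x y hx hy => ?_⟩,
    fun k => (hFR k).2.1⟩
  exact (Env.el_lt hx).trans (hlt k l hkl y hy)

/-- subsequences of blocks -/
theorem Blk.sub {E : M → M} (hE : Blk E) {Z : Set M} (hZ : IS Z) :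
    ∃ e : M → M, Comp M e ∧ (∀ i j, i < j → e i < e j) ∧ (∀ n, e n ∈ Z) ∧
      Blk (fun k => E (e k)) := by
  obtain ⟨e, he, hm, -, heZ, -⟩ := enum hZ
  exact ⟨e, he, hm, heZ, ⟨comp_comp _ _ hE.comp he, fun k => hE.ne _, fun k l hkl x y hx hy =>
    hE.lt _ _ (hm _ _ hkl) x y hx hy⟩⟩

theorem Blk.le {E : M → M} (hE : Blk E) {k x : M} (hx : el x (E k)) : k ≤ x := by
  refine cind (P := fun k => ∀ x, el x (E k) → k ≤ x) ?_ (fun x _ => zero_le' x) ?_ k x hx
  · exact comp_allel (fun k => E k) (fun k x => k ≤ x) hE.comp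
      (comp_le _ _ (comp_fst _ comp_id) (comp_snd _ comp_id))
  · intro k ih x hx
    obtain ⟨y, hy⟩ := hE.ne k
    exact succ_le_iff.mpr (lt_of_le_of_lt (ih y hy) (hE.lt k (k + 1) (lt_self_succ k) y x hy hx))

end RT22P
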