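import Pool.Agent.RTP.Core

/-!
# B5: the `β` function with the extension property

`β s i = c mod (1 + (i + 1) d)` where `s` is the code of `(c, d)`.
* division with remainder (`Env0.sind` or least number), `Comp` of `mod` by `Env0.c_search`;
* for every `n, b` there is `d ≥ b` divisible by all `j` with `0 < j ≤ n` (induction on `n`);
* for `i < j ≤ n`, `a = 1 + (i+1) d`, `b = 1 + (j+1) d`, `e = j - i`, `d = e f`:
  `(j+1) a = e + (i+1) b`, hence `1 + (j+1)^2 f a = b (1 + (j+1) (i+1) f)`, so `a` is invertible modulo `b`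
  (and `b` modulo `a`);
* for `k ≤ n + 1` there is `m` divisible by all `1 + (i+1) d`, `i < k`, and invertible modulo all
  `1 + (j+1) d`, `k ≤ j ≤ n` (induction on `k`, `Σ₁`);
* Chinese remainder: for `k ≤ n + 1` there is `c` with the prescribed remainders for `i < k`
  (induction on `k`, `Σ₁`).
-/

set_option autoImplicit false

namespace RT22P

section bbeta

variable {M : Type} [Env0 M]

private theorem bbeta_ind {Q : M → M → Prop} (hQ : Comp M (fun q : M × M => Q q.1 q.2))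
    (h0 : ∃ y, Q 0 y) (hs : ∀ x, (∃ y, Q x y) → ∃ y, Q (x + 1) y) : ∀ x, ∃ y, Q x y :=
  Env0.sind (P := fun x => ∃ y, Q x y) ⟨fun q => Q q.1 q.2, hQ, fun _ => Iff.rfl⟩ h0 hs

private theorem bbeta_indC {Q : M → Prop} (hQ : Comp M (fun q : M => Q q))
    (h0 : Q 0) (hs : ∀ x, Q x → Q (x + 1)) : ∀ x, Q x := by
  refine Env0.sind (P := Q) ⟨fun q => Q q.1, ?_, fun v => ⟨fun h => ⟨0, h⟩, fun ⟨_, h⟩ => h⟩⟩ h0 hs
  exact comp_comp (fun q : M => Q q) (fun q : M × M => q.1) hQ Env0.c_fst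

private theorem bbeta_lt_succ {x y : M} : x < y + 1 ↔ x ≤ y := by
  constructor
  · intro h
    by_contra hc
    exact absurd (lt_of_lt_of_le h (Arith.succ_le (not_le.1 hc))) (lt_irrefl _)
  · intro h
    exact lt_of_le_of_lt h (lt_add_one _)

/-- Division with remainder. -/
private theorem bbeta_div (m : M) (hm : 0 < m) :
    ∀ c : M, ∃ q, q ≤ c ∧ ∃ r, r < m ∧ c = m * q + r := by
  refine bbeta_indC (Q := fun c => ∃ q, q ≤ c ∧ ∃ r, r < m ∧ c = m * q + r) ?_ ?_ ?_
  · fun_prop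
  · exact ⟨0, le_refl _, 0, hm, by simp⟩
  · rintro c ⟨q, hq, r, hr, hc⟩
    have h1 : r + 1 ≤ m := Arith.succ_le hr
    rcases lt_or_eq_of_le h1 with h2 | h2
    · exact ⟨q, hq.trans (le_of_lt (lt_add_one _)), r + 1, h2, by rw [hc, add_assoc]⟩
    · refine ⟨q + 1, add_le_add_left hq 1, 0, hm, ?_⟩
      rw [hc, mul_add, mul_one, add_zero, add_assoc, h2]

private theorem bbeta_uniq_aux {m q r q' r' : M} (h : m * q + r = m * q' + r')
    (hr : r < m) (hq : q < q') : False := by
  have h1 : q + 1 ≤ q' := Arith.succ_le hq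
  have h2 : m * (q + 1) ≤ m * q' := mul_le_mul_right h1 m
  have h3 : m * q + r < m * (q + 1) := by
    rw [mul_add, mul_one]
    exact add_lt_add_right hr _
  have h4 : m * q' ≤ m * q' + r' := le_self_add
  exact absurd (lt_of_lt_of_le h3 (h2.trans (h4.trans h.symm.le))) (lt_irrefl _)

private theorem bbeta_uniq {m q r q' r' : M} (h : m * q + r = m * q' + r')
    (hr : r < m) (hr' : r' < m) : r = r' := by
  rcases lt_trichotomy q q' with hq | hq | hq
  · exact (bbeta_uniq_aux h hr hq).elim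
  · subst hq
    exact add_left_cancel h
  · exact (bbeta_uniq_aux h.symm hr' hq).elim

/-- The inverse can be reduced. -/
private theorem bbeta_red {a b : M} (hb : 1 < b) (h : ∃ u v, a * u = 1 + b * v) :
    ∃ u, u < b ∧ ∃ v, v ≤ a * b ∧ a * u = 1 + b * v := by
  obtain ⟨u, v, huv⟩ := h
  obtain ⟨q, -, r, hr, hu⟩ := bbeta_div b (lt_trans zero_lt_one hb) u
  have h1 : a * q ≤ v := by
    by_contra hc
    have hc' : v + 1 ≤ a * q := Arith.succ_le (not_le.1 hc)
    have h2 : b * (v + 1) ≤ b * (a * q) := mul_le_mul_right hc' b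
    have h3 : b * (a * q) ≤ a * u := by
      rw [hu]
      calc b * (a * q) = a * (b * q) := by ring
        _ ≤ a * (b * q) + a * r := le_self_add
        _ = a * (b * q + r) := by ring
    have h4 : 1 + b * v < b * (v + 1) := by
      calc 1 + b * v < b + b * v := add_lt_add_left hb _
        _ = b * (v + 1) := by ring
    rw [huv] at h3
    exact absurd (lt_of_lt_of_le h4 (h2.trans h3)) (lt_irrefl _)
  obtain ⟨w, hw⟩ := le_iff_exists_add.1 h1
  have h5 : a * r = 1 + b * w := by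
    have : b * (a * q) + a * r = b * (a * q) + (1 + b * w) := by
      calc b * (a * q) + a * r = a * (b * q + r) := by ring
        _ = a * u := by rw [hu]
        _ = 1 + b * v := huv
        _ = b * (a * q) + (1 + b * w) := by rw [hw]; ring
    exact add_left_cancel this
  refine ⟨r, hr, w, ?_, h5⟩
  calc w = 1 * w := by ring
    _ ≤ b * w := mul_le_mul_left hb.le w
    _ ≤ 1 + b * w := le_add_self
    _ = a * r := h5.symm
    _ ≤ a * b := mul_le_mul_right hr.le a

/-- Common multiples. -/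
private theorem bbeta_mult (b : M) :
    ∀ n : M, ∃ d, b ≤ d ∧ ∀ j, j ≤ n → 0 < j → ∃ f, f ≤ d ∧ d = j * f := by
  refine bbeta_ind (Q := fun n d => b ≤ d ∧ ∀ j, j ≤ n → 0 < j → ∃ f, f ≤ d ∧ d = j * f)
    ?_ ?_ ?_
  · fun_prop
  · exact ⟨b, le_refl _, fun j hj hj' => absurd (lt_of_lt_of_le hj' hj) (lt_irrefl _)⟩
  · rintro n ⟨d, hb, hd⟩
    have h1 : (1 : M) ≤ n + 1 := le_add_self
    have h2 : d ≤ d * (n + 1) := by
      calc d = d * 1 := (mul_one d).symm
        _ ≤ d * (n + 1) := mul_le_mul_right h1 d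
    refine ⟨d * (n + 1), hb.trans h2, fun j hj hj' => ?_⟩
    rcases lt_or_eq_of_le hj with h | h
    · obtain ⟨f, hf, hdf⟩ := hd j (bbeta_lt_succ.1 h) hj'
      refine ⟨f * (n + 1), mul_le_mul_left hf _, ?_⟩
      rw [hdf]; ring
    · refine ⟨d, h2, ?_⟩
      rw [h]; ring

/-- Invertibility. -/
private theorem bbeta_inv {i j d e f : M} (hd : 0 < d) (he : j = i + e) (hf : d = e * f) :
    ∃ u v, (1 + (i + 1) * d) * u = 1 + (1 + (j + 1) * d) * v := by
  have h1 : (0 : M) < (j + 1) * d * (1 + (j + 1) * (i + 1) * f) := by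
    have a1 : (0 : M) < j + 1 := lt_of_lt_of_le zero_lt_one le_add_self
    have a2 : (0 : M) < 1 + (j + 1) * (i + 1) * f := lt_of_lt_of_le zero_lt_one le_self_add
    exact mul_pos (mul_pos a1 hd) a2
  have h2 : (1 : M) ≤ (j + 1) * d * (1 + (j + 1) * (i + 1) * f) := by
    have := Arith.succ_le h1
    rwa [zero_add] at this
  obtain ⟨v, hv⟩ := le_iff_exists_add.1 h2
  refine ⟨(j + 1) * d * ((j + 1) * (j + 1) * f), v, ?_⟩
  have h3 : (1 + (i + 1) * d) * ((j + 1) * d * ((j + 1) * (j + 1) * f)) + (j + 1) * d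
      = 1 + (1 + (j + 1) * d) * v + (j + 1) * d := by
    calc (1 + (i + 1) * d) * ((j + 1) * d * ((j + 1) * (j + 1) * f)) + (j + 1) * d
        = (j + 1) * d * (1 + (j + 1) * f * ((j + 1) * (1 + (i + 1) * d))) := by ring
      _ = (j + 1) * d * (1 + (j + 1) * f * (e + (i + 1) * (1 + (j + 1) * d))) := by
          rw [he]; ring
      _ = (j + 1) * d * (1 + (j + 1) * (e * f) + (j + 1) * (i + 1) * f * (1 + (j + 1) * d)) := by
          ring
      _ = (j + 1) * d * (1 + (j + 1) * d + (j + 1) * (i + 1) * f * (1 + (j + 1) * d)) := by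
          rw [← hf]
      _ = (1 + (j + 1) * d) * ((j + 1) * d * (1 + (j + 1) * (i + 1) * f)) := by ring
      _ = (1 + (j + 1) * d) * (1 + v) := by rw [hv]
      _ = 1 + (1 + (j + 1) * d) * v + (j + 1) * d := by ring
  exact add_right_cancel h3

private theorem bbeta_invmul {a a' b : M} (h : ∃ u v, a * u = 1 + b * v)
    (h' : ∃ u v, a' * u = 1 + b * v) : ∃ u v, a * a' * u = 1 + b * v := by
  obtain ⟨u, v, h⟩ := h
  obtain ⟨u', v', h'⟩ := h'
  refine ⟨u * u', v + v' + b * v * v', ?_⟩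
  calc a * a' * (u * u') = (a * u) * (a' * u') := by ring
    _ = (1 + b * v) * (1 + b * v') := by rw [h, h']
    _ = 1 + b * (v + v' + b * v * v') := by ring

private theorem bbeta_one_lt {d j : M} (hd : 0 < d) : 1 < 1 + (j + 1) * d := by
  have a1 : (0 : M) < j + 1 := lt_of_lt_of_le zero_lt_one le_add_self
  exact lt_add_of_pos_right 1 (mul_pos a1 hd)

/-- Products of the moduli. -/
private theorem bbeta_prod {n d : M} (hd : 0 < d)
    (hdiv : ∀ j, j ≤ n → 0 < j → ∃ f, f ≤ d ∧ d = j * f) :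
    ∀ k : M, ∃ m, k ≤ n + 1 → (∀ i, i < k → ∃ e, e ≤ m ∧ m = (1 + (i + 1) * d) * e) ∧
      (∀ j, j ≤ n → k ≤ j → ∃ u, u < 1 + (j + 1) * d ∧ ∃ v, v ≤ m * (1 + (j + 1) * d) ∧
        m * u = 1 + (1 + (j + 1) * d) * v) := by
  refine bbeta_ind (Q := fun k m => k ≤ n + 1 →
      (∀ i, i < k → ∃ e, e ≤ m ∧ m = (1 + (i + 1) * d) * e) ∧
      (∀ j, j ≤ n → k ≤ j → ∃ u, u < 1 + (j + 1) * d ∧ ∃ v, v ≤ m * (1 + (j + 1) * d) ∧
        m * u = 1 + (1 + (j + 1) * d) * v)) ?_ ?_ ?_
  · fun_prop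
  · refine ⟨1, fun _ => ⟨fun i hi => absurd (lt_of_lt_of_le hi zero_le) (lt_irrefl _),
      fun j hj _ => ⟨1, bbeta_one_lt hd, 0, zero_le, by ring⟩⟩⟩
  · rintro k ⟨m, hm⟩
    refine ⟨m * (1 + (k + 1) * d), fun hk => ?_⟩
    have hk' : k ≤ n + 1 := (le_of_lt (lt_add_one k)).trans hk
    have hkn : k ≤ n := bbeta_lt_succ.1 (lt_of_lt_of_le (lt_add_one k) hk)
    obtain ⟨h1, h2⟩ := hm hk'
    have hle : m ≤ m * (1 + (k + 1) * d) := by
      calc m = m * 1 := (mul_one m).symm
        _ ≤ m * (1 + (k + 1) * d) := mul_le_mul_right (bbeta_one_lt hd).le m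
    refine ⟨fun i hi => ?_, fun j hj hkj => ?_⟩
    · rcases lt_or_eq_of_le (bbeta_lt_succ.1 hi) with h | h
      · obtain ⟨e, he, hme⟩ := h1 i h
        refine ⟨e * (1 + (k + 1) * d), mul_le_mul_left he _, ?_⟩
        calc m * (1 + (k + 1) * d) = (1 + (i + 1) * d) * e * (1 + (k + 1) * d) := by
              rw [← hme]
          _ = (1 + (i + 1) * d) * (e * (1 + (k + 1) * d)) := by ring
      · refine ⟨m, hle, ?_⟩
        rw [h]; ring
    · have hkj' : k ≤ j := (le_of_lt (lt_add_one k)).trans hkj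
      obtain ⟨u, _, v, _, huv⟩ := h2 j hj hkj'
      obtain ⟨e, he⟩ := le_iff_exists_add.1 hkj'
      have he0 : 0 < e := by
        rcases eq_or_lt_of_le (zero_le (a := e)) with h | h
        · exfalso
          rw [← h, add_zero] at he
          rw [he] at hkj
          exact absurd (lt_of_lt_of_le (lt_add_one k) hkj) (lt_irrefl _)
        · exact h
      have hej : e ≤ n := by
        refine le_trans ?_ hj
        rw [he]
        exact le_add_self
      obtain ⟨f, _, hf⟩ := hdiv e hej he0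
      exact bbeta_red (bbeta_one_lt hd) (bbeta_invmul ⟨u, v, huv⟩ (bbeta_inv hd he hf))

/-- Chinese remainder theorem. -/
private theorem bbeta_crt {n d : M} (hd : 0 < d)
    (hdiv : ∀ j, j ≤ n → 0 < j → ∃ f, f ≤ d ∧ d = j * f) (a : M → M)
    (ha : Comp M (fun i : M => a i)) :
    ∀ k : M, ∃ c, k ≤ n + 1 → ∀ i, i < k → ∃ q, q ≤ c ∧ c = (1 + (i + 1) * d) * q + a i := by
  refine bbeta_ind (Q := fun k c => k ≤ n + 1 →
    ∀ i, i < k → ∃ q, q ≤ c ∧ c = (1 + (i + 1) * d) * q + a i) ?_ ?_ ?_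
  · fun_prop
  · exact ⟨0, fun _ i hi => absurd (lt_of_lt_of_le hi zero_le) (lt_irrefl _)⟩
  · rintro k ⟨c, hc⟩
    by_cases hk : k + 1 ≤ n + 1
    · have hk' : k ≤ n + 1 := (le_of_lt (lt_add_one k)).trans hk
      have hkn : k ≤ n := bbeta_lt_succ.1 (lt_of_lt_of_le (lt_add_one k) hk)
      obtain ⟨m, hm⟩ := bbeta_prod hd hdiv k
      obtain ⟨h1, h2⟩ := hm hk'
      obtain ⟨u, _, v, _, huv⟩ := h2 k hkn (le_refl _)
      obtain ⟨q, _, r, hr, hq⟩ := bbeta_div (1 + (k + 1) * d)
        (lt_trans zero_lt_one (bbeta_one_lt hd)) c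
      obtain ⟨r', hr'⟩ := le_iff_exists_add.1 hr.le
      refine ⟨c + m * u * (a k + r'), fun _ i hi => ?_⟩
      have key : ∃ q', c + m * u * (a k + r') = (1 + (i + 1) * d) * q' + a i := by
        rcases lt_or_eq_of_le (bbeta_lt_succ.1 hi) with h | h
        · obtain ⟨e, _, he⟩ := h1 i h
          obtain ⟨q0, _, hq0⟩ := hc hk' i h
          refine ⟨q0 + e * u * (a k + r'), ?_⟩
          calc c + m * u * (a k + r')
              = ((1 + (i + 1) * d) * q0 + a i) + (1 + (i + 1) * d) * e * u * (a k + r') := by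
                rw [← he, ← hq0]
            _ = (1 + (i + 1) * d) * (q0 + e * u * (a k + r')) + a i := by ring
        · refine ⟨q + 1 + v * (a k + r'), ?_⟩
          rw [h]
          calc c + m * u * (a k + r')
              = (1 + (k + 1) * d) * q + r + (1 + (1 + (k + 1) * d) * v) * (a k + r') := by
                rw [← huv, ← hq]
            _ = (1 + (k + 1) * d) * q + (r + r') + (1 + (k + 1) * d) * v * (a k + r') + a k := by
                ring
            _ = (1 + (k + 1) * d) * q + (1 + (k + 1) * d)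
                + (1 + (k + 1) * d) * v * (a k + r') + a k := by rw [← hr']
            _ = (1 + (k + 1) * d) * (q + 1 + v * (a k + r')) + a k := by ring
      obtain ⟨q', hq'⟩ := key
      refine ⟨q', ?_, hq'⟩
      rw [hq']
      calc q' = 1 * q' := (one_mul _).symm
        _ ≤ (1 + (i + 1) * d) * q' := mul_le_mul_left (bbeta_one_lt hd).le q'
        _ ≤ (1 + (i + 1) * d) * q' + a i := le_self_add
    · exact ⟨0, fun h => absurd h hk⟩

end bbeta

theorem exists_beta (M : Type) [Env0 M] : ∃ β : M → M → M,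
    Comp M (fun q : M × M => β q.1 q.2) ∧
    ∀ s n y : M, ∃ s', (∀ i, i < n → β s' i = β s i) ∧ β s' n = y := by
  obtain ⟨f, hf, hf'⟩ := Env0.c_search (M := M) (Γ := M × M)
    (P := fun q => q.2 < 1 + (q.1.2 + 1) * ((Pre.cp (M := M)).symm q.1.1).2 ∧
      ∃ t, t ≤ ((Pre.cp (M := M)).symm q.1.1).1 ∧ ((Pre.cp (M := M)).symm q.1.1).1 =
        (1 + (q.1.2 + 1) * ((Pre.cp (M := M)).symm q.1.1).2) * t + q.2)
    (by
      have h1 : Comp M (fun q : (M × M) × M => (Pre.cp (M := M)).symm q.1.1) :=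
        comp_comp (fun x : M => ((Pre.cp (M := M)).symm x : M × M))
          (fun q : (M × M) × M => q.1.1) Env0.c_cpsymm (by fun_prop)
      have h2 : Comp M (fun q : ((M × M) × M) × M => (Pre.cp (M := M)).symm q.1.1.1) :=
        comp_comp (fun x : M => ((Pre.cp (M := M)).symm x : M × M))
          (fun q : ((M × M) × M) × M => q.1.1.1) Env0.c_cpsymm (by fun_prop)
      fun_prop)
    (by
      rintro ⟨s, i⟩
      obtain ⟨t, ht, r, hr, h⟩ := bbeta_div
        (1 + (i + 1) * ((Pre.cp (M := M)).symm s).2)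
        (lt_of_lt_of_le zero_lt_one le_self_add) ((Pre.cp (M := M)).symm s).1
      exact ⟨r, hr, t, ht, h⟩)
  have hmod : ∀ c d i r t : M, r < 1 + (i + 1) * d → c = (1 + (i + 1) * d) * t + r →
      f (Pre.cp (c, d), i) = r := by
    intro c d i r t hr hc
    obtain ⟨h1, t', _, h2⟩ := (hf' (Pre.cp (c, d), i)).1
    simp only [Equiv.symm_apply_apply] at h1 h2
    exact bbeta_uniq (h2.symm.trans hc) h1 hr
  refine ⟨fun s i => f (s, i), hf, fun s n y => ?_⟩
  have hle : ∀ i, f (s, i) ≤ ((Pre.cp (M := M)).symm s).1 := by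
    intro i
    obtain ⟨_, t', _, h2⟩ := (hf' (s, i)).1
    rw [h2]
    exact le_add_self
  obtain ⟨a, ha, ha'⟩ := Env0.c_search (M := M) (Γ := M)
    (P := fun q => (q.1 < n → q.2 = f (s, q.1)) ∧ (¬ q.1 < n → q.2 = y))
    (by
      have h1 : Comp M (fun q : M × M => f (s, q.1)) :=
        comp_comp f (fun q : M × M => (s, q.1)) hf (by fun_prop)
      fun_prop)
    (by
      intro i
      by_cases h : i < n
      · exact ⟨f (s, i), fun _ => rfl, fun h' => absurd h h'⟩
      · exact ⟨y, fun h' => absurd h' h, fun _ => rfl⟩)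
  obtain ⟨d, hd, hdiv⟩ := bbeta_mult (((Pre.cp (M := M)).symm s).1 + y + 1) n
  have hd0 : 0 < d := lt_of_lt_of_le zero_lt_one (le_trans le_add_self hd)
  have had : ∀ i, a i < 1 + (i + 1) * d := by
    intro i
    have h1 : a i ≤ ((Pre.cp (M := M)).symm s).1 + y := by
      by_cases h : i < n
      · have h3 : a i = f (s, i) := (ha' i).1.1 h
        rw [h3]
        exact (hle i).trans le_self_add
      · have h3 : a i = y := (ha' i).1.2 h
        rw [h3]
        exact le_add_self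
    have h2 : a i < d := lt_of_lt_of_le (bbeta_lt_succ.2 h1) hd
    refine lt_of_lt_of_le h2 ?_
    calc d = 1 * d := (one_mul d).symm
      _ ≤ (i + 1) * d := mul_le_mul_left le_add_self d
      _ ≤ 1 + (i + 1) * d := le_add_self
  obtain ⟨c, hc⟩ := bbeta_crt hd0 hdiv a ha (n + 1)
  refine ⟨Pre.cp (c, d), fun i hi => ?_, ?_⟩
  · obtain ⟨q, _, hq⟩ := hc (le_refl _) i (lt_trans hi (lt_add_one n))
    show f (Pre.cp (c, d), i) = f (s, i)
    rw [hmod c d i (a i) q (had i) hq]
    exact (ha' i).1.1 hi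
  · obtain ⟨q, _, hq⟩ := hc (le_refl _) n (lt_add_one n)
    show f (Pre.cp (c, d), n) = y
    rw [hmod c d n (a n) q (had n) hq]
    exact (ha' n).1.2 (lt_irrefl _)

end RT22P
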