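import Pool.Agent.RTP.AFin
import Pool.Agent.RTP.BBeta

/-!
# Coded sequences

`bt s i` is the `i`-th term of the sequence coded by `s` (Goedel's `β` function, module `BBeta`).
-/

set_option autoImplicit false

namespace RT22P

open Env

variable {M : Type} [Env M] {Γ Δ Θ : Type} [Enc M Γ] [Enc M Δ] [Enc M Θ]

/-- the `i`-th term of the sequence coded by `s` -/
noncomputable def bt (s i : M) : M := (exists_beta M).choose s i

@[fun_prop] theorem comp_bt (f g : Γ → M) (hf : Comp M f) (hg : Comp M g) :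
    Comp M (fun x => bt (f x) (g x)) :=
  Env0.c_comp (f := fun q : M × M => bt q.1 q.2) (exists_beta M).choose_spec.1
    (Env0.c_prod hf hg)

private theorem aseq_ext (s n y : M) : ∃ s' : M, (∀ i, i < n → bt s' i = bt s i) ∧ bt s' n = y :=
  (exists_beta M).choose_spec.2 s n y

/-- every computable function has codes for its restrictions to `[0, n)` -/
theorem exists_seq {F : M → M} (hF : Comp M F) (n : M) : ∃ s : M, ∀ i, i < n → bt s i = F i := by
  refine Env0.sind (P := fun n : M => ∃ s : M, ∀ i, i < n → bt s i = F i) ?_ ?_ ?_ n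
  · refine ⟨fun q => ∀ i, i < q.1 → bt q.2 i = F i, ?_, fun v => Iff.rfl⟩
    fun_prop
  · exact ⟨0, fun i hi => absurd hi (not_lt_zero' i)⟩
  · rintro k ⟨s, hs⟩
    obtain ⟨s', h1, h2⟩ := aseq_ext s k (F k)
    refine ⟨s', fun i hi => ?_⟩
    rcases lt_or_eq_of_le (lt_succ.1 hi) with h3 | h3
    · rw [h1 i h3, hs i h3]
    · rw [h3, h2]

/-- the same, uniformly and computably in a parameter -/
theorem exists_seqf {F : Γ → M → M} (hF : Comp M (fun q : Γ × M => F q.1 q.2)) {n : Γ → M}
    (hn : Comp M n) : ∃ c : Γ → M, Comp M c ∧ ∀ v i, i < n v → bt (c v) i = F v i := by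
  have hP : Comp M (fun q : Γ × M => ∀ i, i < n q.1 → bt q.2 i = F q.1 i) := by
    refine comp_ball (fun q : Γ × M => n q.1) (fun q i => bt q.2 i = F q.1 i) (by fun_prop) ?_
    refine comp_eq _ _ (by fun_prop) ?_
    exact comp_comp (fun q : Γ × M => F q.1 q.2) (fun q : (Γ × M) × M => (q.1.1, q.2)) hF
      (by fun_prop)
  obtain ⟨c, hc, h⟩ := Env0.c_search (P := fun q : Γ × M => ∀ i, i < n q.1 → bt q.2 i = F q.1 i)
    hP (fun v => exists_seq (F := fun i => F v i)
      (comp_comp (fun q : Γ × M => F q.1 q.2) (fun i : M => (v, i)) hF (by fun_prop)) (n v))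
  exact ⟨c, hc, fun v i hi => (h v).1 i hi⟩

end RT22P
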