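import Pool.Agent.RTP.Core

/-!
# B1: from a model of `RCA₀` to a discretely ordered semiring

All algebraic laws are proved by induction (`IsRCA0.ind`) for predicates given by bounded formulas
(`D0.eq`, `D0.lt`, `D0.bex`, ...; a `Δ⁰₀` relation of `![x]` is `Sigma1` by adding a dummy variable).
Order of proofs: `0 + x = x`, `(x + 1) + y = (x + y) + 1`, commutativity, associativity, distributivity,
commutativity and associativity of `*`, cancellation, the order (`x < y ↔ ∃ z, (z + 1) + x = y` gives
irreflexivity, transitivity, totality by induction, compatibility with `+` and `*`), `x < y → x + 1 ≤ y`,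
`x ≤ y ↔ ∃ z, y = x + z`.
The instance must use the given operations (`zero := 0`, `add := (· + ·)`, `lt := (· < ·)`, ...), so that
`arithOf_*` below are `rfl`.
-/

set_option autoImplicit false

namespace RT22P

variable {M : Type} [i0 : Zero M] [i1 : One M] [ia : Add M] [im : Mul M] [il : LT M]

theorem bArith_ind {S : Set (Set M)} (h : IsRCA0 S) {P : M → Prop} {Q : (Fin 2 → M) → Prop}
    (hQ : D0 S 2 Q) (e : ∀ x y, Q ![x, y] ↔ P x) (h0 : P 0) (h1 : ∀ x, P x → P (x + 1)) :
    ∀ x, P x :=
  h.ind P ⟨Q, hQ, fun x => ⟨fun hp => ⟨0, (e x 0).2 hp⟩, fun ⟨y, hy⟩ => (e x y).1 hy⟩⟩ h0 h1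

theorem bArith_zero_add {S : Set (Set M)} (h : IsRCA0 S) : ∀ x : M, 0 + x = x := by
  refine bArith_ind h (D0.eq (.add .zero (.var 0)) (.var 0)) (fun x y => Iff.rfl) (h.add_zero 0) ?_
  intro x hx
  rw [h.add_succ, hx]

theorem bArith_succ_add {S : Set (Set M)} (h : IsRCA0 S) (x : M) :
    ∀ y : M, (x + 1) + y = (x + y) + 1 := by
  refine bArith_ind h (D0.eq (.add (.add (.par x) .one) (.var 0))
    (.add (.add (.par x) (.var 0)) .one)) (fun x y => Iff.rfl) ?_ ?_
  · rw [h.add_zero, h.add_zero]
  · intro y hy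
    rw [h.add_succ, hy, h.add_succ]

theorem bArith_add_comm {S : Set (Set M)} (h : IsRCA0 S) (x : M) : ∀ y : M, x + y = y + x := by
  refine bArith_ind h (D0.eq (.add (.par x) (.var 0)) (.add (.var 0) (.par x)))
    (fun x y => Iff.rfl) ?_ ?_
  · rw [h.add_zero, bArith_zero_add h]
  · intro y hy
    rw [h.add_succ, hy, bArith_succ_add h]

theorem bArith_add_assoc {S : Set (Set M)} (h : IsRCA0 S) (x y : M) :
    ∀ z : M, (x + y) + z = x + (y + z) := by
  refine bArith_ind h (D0.eq (.add (.add (.par x) (.par y)) (.var 0))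
    (.add (.par x) (.add (.par y) (.var 0)))) (fun x y => Iff.rfl) ?_ ?_
  · rw [h.add_zero, h.add_zero]
  · intro z hz
    rw [h.add_succ, hz, h.add_succ, h.add_succ]

theorem bArith_zero_mul {S : Set (Set M)} (h : IsRCA0 S) : ∀ x : M, 0 * x = 0 := by
  refine bArith_ind h (D0.eq (.mul .zero (.var 0)) .zero) (fun x y => Iff.rfl) (h.mul_zero 0) ?_
  intro x hx
  rw [h.mul_succ, hx, h.add_zero]

theorem bArith_succ_mul {S : Set (Set M)} (h : IsRCA0 S) (x : M) :
    ∀ y : M, (x + 1) * y = x * y + y := by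
  refine bArith_ind h (D0.eq (.mul (.add (.par x) .one) (.var 0))
    (.add (.mul (.par x) (.var 0)) (.var 0))) (fun x y => Iff.rfl) ?_ ?_
  · rw [h.mul_zero, h.mul_zero, h.add_zero]
  · intro y hy
    rw [h.mul_succ, hy, h.mul_succ, bArith_add_assoc h, bArith_add_assoc h, h.add_succ, h.add_succ,
      bArith_add_comm h y x, h.add_succ x y, h.add_succ]

theorem bArith_mul_comm {S : Set (Set M)} (h : IsRCA0 S) (x : M) : ∀ y : M, x * y = y * x := by
  refine bArith_ind h (D0.eq (.mul (.par x) (.var 0)) (.mul (.var 0) (.par x)))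
    (fun x y => Iff.rfl) ?_ ?_
  · rw [h.mul_zero, bArith_zero_mul h]
  · intro y hy
    rw [h.mul_succ, hy, bArith_succ_mul h]

theorem bArith_mul_add {S : Set (Set M)} (h : IsRCA0 S) (x y : M) :
    ∀ z : M, x * (y + z) = x * y + x * z := by
  refine bArith_ind h (D0.eq (.mul (.par x) (.add (.par y) (.var 0)))
    (.add (.mul (.par x) (.par y)) (.mul (.par x) (.var 0)))) (fun x y => Iff.rfl) ?_ ?_
  · rw [h.mul_zero, h.add_zero, h.add_zero]
  · intro z hz
    rw [h.add_succ, h.mul_succ, hz, h.mul_succ, bArith_add_assoc h]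

theorem bArith_mul_assoc {S : Set (Set M)} (h : IsRCA0 S) (x y : M) :
    ∀ z : M, (x * y) * z = x * (y * z) := by
  refine bArith_ind h (D0.eq (.mul (.mul (.par x) (.par y)) (.var 0))
    (.mul (.par x) (.mul (.par y) (.var 0)))) (fun x y => Iff.rfl) ?_ ?_
  · rw [h.mul_zero, h.mul_zero, h.mul_zero]
  · intro z hz
    rw [h.mul_succ, hz, h.mul_succ, bArith_mul_add h]

theorem bArith_mul_one {S : Set (Set M)} (h : IsRCA0 S) (x : M) : x * 1 = x := by
  have h1 : (1 : M) = 0 + 1 := (bArith_zero_add h 1).symm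
  rw [h1, h.mul_succ, h.mul_zero, bArith_zero_add h]

theorem bArith_cancel {S : Set (Set M)} (h : IsRCA0 S) (x y z : M) (he : x + z = y + z) :
    x = y := by
  by_contra hne
  have key : ∀ z : M, ¬ (x + z = y + z) := by
    refine bArith_ind h (D0.not (D0.eq (.add (.par x) (.var 0)) (.add (.par y) (.var 0))))
      (fun x y => Iff.rfl) ?_ ?_
    · rw [h.add_zero, h.add_zero]; exact hne
    · intro w hw hc
      rw [h.add_succ, h.add_succ] at hc
      exact hw (h.succ_inj _ _ hc)
  exact key z he

theorem bArith_lt_irrefl {S : Set (Set M)} (h : IsRCA0 S) (x : M) : ¬ x < x := by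
  rw [h.lt_iff]
  rintro ⟨z, hz⟩
  have h1 : (z + 1) + x = 0 + x := by rw [hz, bArith_zero_add h]
  exact h.succ_ne_zero z (bArith_cancel h _ _ _ h1)

theorem bArith_lt_trans {S : Set (Set M)} (h : IsRCA0 S) (x y u : M) (h1 : x < y) (h2 : y < u) :
    x < u := by
  rw [h.lt_iff] at h1 h2 ⊢
  obtain ⟨z, rfl⟩ := h1
  obtain ⟨w, rfl⟩ := h2
  refine ⟨(w + 1) + z, ?_⟩
  rw [← bArith_add_assoc h, h.add_succ]

theorem bArith_total {S : Set (Set M)} (h : IsRCA0 S) (y : M) :
    ∀ x : M, ∃ z, x + z = y ∨ y + z = x := by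
  refine h.ind _ ⟨_, D0.not (D0.and (D0.not (D0.eq (.add (.var 0) (.var 1)) (.par y)))
    (D0.not (D0.eq (.add (.par y) (.var 1)) (.var 0)))), fun x => ?_⟩ ?_ ?_
  · refine exists_congr (fun z => ?_)
    change (x + z = y ∨ y + z = x) ↔ ¬ (¬ (x + z = y) ∧ ¬ (y + z = x))
    tauto
  · exact ⟨y, Or.inl (bArith_zero_add h y)⟩
  · rintro x ⟨z, hz | hz⟩
    · rcases h.zero_or_succ z with rfl | ⟨w, rfl⟩
      · rw [h.add_zero] at hz
        exact ⟨1, Or.inr (by rw [hz])⟩
      · refine ⟨w, Or.inl ?_⟩
        rw [bArith_succ_add h, ← hz, h.add_succ]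
    · exact ⟨z + 1, Or.inr (by rw [h.add_succ, hz])⟩

theorem bArith_lt_of_add {S : Set (Set M)} (h : IsRCA0 S) (x z : M) :
    x = x + z ∨ x < x + z := by
  rcases h.zero_or_succ z with rfl | ⟨w, rfl⟩
  · exact Or.inl (h.add_zero x).symm
  · right
    rw [h.lt_iff]
    exact ⟨w, bArith_add_comm h _ _⟩

theorem bArith_le_total {S : Set (Set M)} (h : IsRCA0 S) (x y : M) :
    (x = y ∨ x < y) ∨ (y = x ∨ y < x) := by
  obtain ⟨z, hz | hz⟩ := bArith_total h y x
  · left
    rw [← hz]
    exact bArith_lt_of_add h x z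
  · right
    rw [← hz]
    exact bArith_lt_of_add h y z

theorem bArith_exists {S : Set (Set M)} (h : IsRCA0 S) (x y : M) (hxy : x = y ∨ x < y) :
    ∃ z, y = x + z := by
  rcases hxy with rfl | hlt
  · exact ⟨0, (h.add_zero x).symm⟩
  · rw [h.lt_iff] at hlt
    obtain ⟨z, rfl⟩ := hlt
    exact ⟨z + 1, bArith_add_comm h _ _⟩

theorem bArith_add_lt {S : Set (Set M)} (h : IsRCA0 S) (x y z : M) (hxy : x < y) :
    x + z < y + z := by
  rw [h.lt_iff] at hxy ⊢
  obtain ⟨w, rfl⟩ := hxy
  exact ⟨w, (bArith_add_assoc h _ _ _).symm⟩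

theorem bArith_mul_lt {S : Set (Set M)} (h : IsRCA0 S) (c x y : M) (hc : 0 < c) (hxy : x < y) :
    c * x < c * y := by
  rw [h.lt_iff] at hc hxy ⊢
  obtain ⟨w, hw⟩ := hc
  rw [h.add_zero] at hw
  obtain ⟨z, rfl⟩ := hxy
  refine ⟨c * z + w, ?_⟩
  rw [bArith_mul_add h, h.mul_succ, bArith_add_assoc h (c * z) w 1, hw]

theorem bArith_succ_le {S : Set (Set M)} (h : IsRCA0 S) (x y : M) (hxy : x < y) :
    x + 1 = y ∨ x + 1 < y := by
  rw [h.lt_iff] at hxy
  obtain ⟨z, rfl⟩ := hxy
  have h1 : (z + 1) + x = (x + 1) + z := by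
    rw [bArith_succ_add h, bArith_succ_add h, bArith_add_comm h z x]
  rw [h1]
  exact bArith_lt_of_add h (x + 1) z

theorem bArith_one_ne {S : Set (Set M)} (h : IsRCA0 S) : (0 : M) ≠ 1 := by
  intro h0
  have h1 := h.succ_ne_zero 0
  rw [bArith_zero_add h] at h1
  exact h1 h0.symm

/-- the semiring -/
@[reducible] def bArithRing {S : Set (Set M)} (h : IsRCA0 S) : CommSemiring M where
  zero := 0
  one := 1
  add := (· + ·)
  mul := (· * ·)
  add_assoc := fun x y z => bArith_add_assoc h x y z
  zero_add := fun x => bArith_zero_add h x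
  add_zero := fun x => h.add_zero x
  add_comm := fun x y => bArith_add_comm h x y
  left_distrib := fun x y z => bArith_mul_add h x y z
  right_distrib := fun x y z => by
    change (x + y) * z = x * z + y * z
    rw [bArith_mul_comm h (x + y) z, bArith_mul_add h, bArith_mul_comm h z x,
      bArith_mul_comm h z y]
  zero_mul := fun x => bArith_zero_mul h x
  mul_zero := fun x => h.mul_zero x
  mul_assoc := fun x y z => bArith_mul_assoc h x y z
  one_mul := fun x => by
    change 1 * x = x
    rw [bArith_mul_comm h, bArith_mul_one h]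
  mul_one := fun x => bArith_mul_one h x
  mul_comm := fun x y => bArith_mul_comm h x y
  nsmul := nsmulRec
  npow := npowRec
  natCast := Nat.unaryCast

/-- the order -/
@[reducible] noncomputable def bArithOrd {S : Set (Set M)} (h : IsRCA0 S) : LinearOrder M where
  le := fun x y => x = y ∨ x < y
  lt := fun x y => x < y
  le_refl := fun x => Or.inl rfl
  le_trans := fun x y z h1 h2 => by
    rcases h1 with rfl | h1
    · exact h2
    · rcases h2 with rfl | h2
      · exact Or.inr h1
      · exact Or.inr (bArith_lt_trans h _ _ _ h1 h2)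
  lt_iff_le_not_ge := fun x y => by
    constructor
    · intro hxy
      refine ⟨Or.inr hxy, ?_⟩
      rintro (rfl | h2)
      · exact bArith_lt_irrefl h _ hxy
      · exact bArith_lt_irrefl h _ (bArith_lt_trans h _ _ _ hxy h2)
    · rintro ⟨rfl | h1, h2⟩
      · exact absurd (Or.inl rfl) h2
      · exact h1
  le_antisymm := fun x y h1 h2 => by
    rcases h1 with rfl | h1
    · rfl
    · rcases h2 with rfl | h2
      · rfl
      · exact absurd (bArith_lt_trans h _ _ _ h1 h2) (bArith_lt_irrefl h _)
  le_total := fun x y => bArith_le_total h x y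
  toDecidableLE := Classical.decRel _

/-- the class `Arith` for a model of `RCA₀` -/
@[reducible] noncomputable def arithOf {S : Set (Set M)} (h : IsRCA0 S) : Arith M :=
  { bArithRing h, bArithOrd h with
    add_le_add_left := fun a b hab c => by
      change a + c = b + c ∨ a + c < b + c
      rcases hab with rfl | hab
      · exact Or.inl rfl
      · exact Or.inr (bArith_add_lt h _ _ _ hab)
    le_of_add_le_add_left := fun a b c hab => by
      change b = c ∨ b < c
      rcases bArith_le_total h b c with h1 | h1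
      · exact h1
      · left
        rcases h1 with rfl | h1
        · rfl
        · have h2 := bArith_add_lt h c b a h1
          rw [bArith_add_comm h c a, bArith_add_comm h b a] at h2
          rcases hab with hab | hab
          · exfalso
            have hab' : a + b = a + c := hab
            rw [hab'] at h2
            exact bArith_lt_irrefl h _ h2
          · exfalso
            exact bArith_lt_irrefl h _ (bArith_lt_trans h _ _ _ hab h2)
    zero_le_one := by
      change (0 : M) = 1 ∨ (0 : M) < 1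
      right
      rw [h.lt_iff]
      exact ⟨0, by rw [h.add_zero, bArith_zero_add h]⟩
    exists_pair_ne := ⟨0, 1, bArith_one_ne h⟩
    mul_lt_mul_of_pos_left := fun a ha b c hbc => bArith_mul_lt h a b c ha hbc
    mul_lt_mul_of_pos_right := fun a ha b c hbc => by
      change b * a < c * a
      rw [bArith_mul_comm h b a, bArith_mul_comm h c a]
      exact bArith_mul_lt h a b c ha hbc
    exists_add_of_le := fun {a b} hab => bArith_exists h a b hab
    le_add_self := fun a b => by
      change a = b + a ∨ a < b + a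
      rw [bArith_add_comm h b a]
      exact bArith_lt_of_add h a b
    le_self_add := fun a b => bArith_lt_of_add h a b
    S := S
    succ_le := fun {x y} hxy => bArith_succ_le h x y hxy
    ind := h.ind
    ca := h.ca }

theorem arithOf_zero {S : Set (Set M)} (h : IsRCA0 S) :
    (arithOf h).toCommSemiring.toZero = i0 := by
  rfl

theorem arithOf_one {S : Set (Set M)} (h : IsRCA0 S) :
    (arithOf h).toCommSemiring.toOne = i1 := by
  rfl

theorem arithOf_add {S : Set (Set M)} (h : IsRCA0 S) :
    (arithOf h).toCommSemiring.toAdd = ia := by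
  rfl

theorem arithOf_mul {S : Set (Set M)} (h : IsRCA0 S) :
    (arithOf h).toCommSemiring.toMul = im := by
  rfl

theorem arithOf_lt {S : Set (Set M)} (h : IsRCA0 S) :
    (arithOf h).toLinearOrder.toLT = il := by
  rfl

theorem arithOf_S {S : Set (Set M)} (h : IsRCA0 S) : (arithOf h).S = S := by
  rfl

end RT22P
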