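import Pool.Agent.RTP.BBeta

/-!
# B6: primitive recursion

`F (v, n) = y` iff there is a code `s` with `β s 0 = g v`, `β s (i+1) = h (v, (i, β s i))` for all `i < n`
and `β s n = y`; existence of `s` by `Σ₁` induction on `n`, uniqueness of the values by induction
(`Env0.sind` for a computable predicate); `Comp` of `F` by `Env0.c_search` for `s`.
-/

set_option autoImplicit false

namespace RT22P

section
variable {M : Type} [Env0 M]

private lemma bprec_lt_succ {x y : M} : x < y + 1 ↔ x ≤ y := by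
  constructor
  · intro h
    by_contra hc
    exact absurd (lt_of_lt_of_le h (Arith.succ_le (not_le.1 hc))) (lt_irrefl _)
  · intro h
    exact lt_of_le_of_lt h (lt_add_one _)

private lemma bprec_ind {P : M → Prop} (hP : Comp M P) (h0 : P 0) (h1 : ∀ x, P x → P (x + 1))
    (x : M) : P x :=
  Env0.sind (P := P) ⟨fun q => P q.1, by fun_prop, fun v => ⟨fun h => ⟨0, h⟩, fun ⟨_, h⟩ => h⟩⟩
    h0 h1 x

end

theorem exists_prec (M : Type) [Env0 M] {Γ : Type} [Enc M Γ] {g : Γ → M}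
    {h : Γ × (M × M) → M} (hg : Comp M g) (hh : Comp M h) :
    ∃ F : Γ × M → M, Comp M F ∧ (∀ v, F (v, 0) = g v) ∧
      ∀ v n, F (v, n + 1) = h (v, (n, F (v, n))) := by
  obtain ⟨β, hβ, hext⟩ := exists_beta M
  have hβ' : ∀ {Δ : Type} [Enc M Δ] (f f' : Δ → M), Comp M f → Comp M f' →
      Comp M (fun d => β (f d) (f' d)) := fun f f' hf hf' =>
    Env0.c_comp (f := fun x : M × M => β x.1 x.2) hβ (Env0.c_prod hf hf')
  obtain ⟨Q, hQdef⟩ : ∃ Q : (Γ × M) × M → Prop, Q = fun q =>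
    β q.2 0 = g q.1.1 ∧ ∀ i, i < q.1.2 → β q.2 (i + 1) = h (q.1.1, (i, β q.2 i)) := ⟨_, rfl⟩
  have hQ : Comp M Q := by
    rw [hQdef]
    refine comp_and _ _ ?_ ?_
    · exact comp_eq _ _ (hβ' _ _ (by fun_prop) (by fun_prop)) (by fun_prop)
    · refine comp_ball _ _ (by fun_prop) ?_
      refine comp_eq _ _ (hβ' _ _ (by fun_prop) (by fun_prop)) ?_
      refine comp_comp h _ hh ?_
      refine comp_prod _ _ (by fun_prop) (comp_prod _ _ (by fun_prop) ?_)
      exact hβ' _ _ (by fun_prop) (by fun_prop)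
  have hQiff : ∀ v n s, Q ((v, n), s) ↔ (β s 0 = g v ∧ ∀ i, i < n →
      β s (i + 1) = h (v, (i, β s i))) := fun v n s => by rw [hQdef]
  have hex : ∀ v : Γ × M, ∃ s, Q (v, s) := by
    rintro ⟨v, n⟩
    refine Env0.sind (P := fun n => ∃ s, Q ((v, n), s)) ?_ ?_ ?_ n
    · exact ⟨fun q => Q ((v, q.1), q.2), by fun_prop, fun n => Iff.rfl⟩
    · obtain ⟨s', -, hs'⟩ := hext 0 0 (g v)
      exact ⟨s', (hQiff _ _ _).2 ⟨hs', fun i hi => absurd hi (not_lt.2 zero_le)⟩⟩
    · rintro n ⟨s, hs⟩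
      obtain ⟨h0, h1⟩ := (hQiff _ _ _).1 hs
      obtain ⟨s', hs1, hs2⟩ := hext s (n + 1) (h (v, (n, β s n)))
      refine ⟨s', (hQiff _ _ _).2 ⟨?_, fun i hi => ?_⟩⟩
      · rw [hs1 0 (lt_of_le_of_lt zero_le (lt_add_one n)), h0]
      · rw [hs1 i hi]
        rcases (bprec_lt_succ.1 hi).lt_or_eq with h2 | h2
        · have h3 : i + 1 < n + 1 := lt_of_le_of_lt (Arith.succ_le h2) (lt_add_one n)
          rw [hs1 _ h3]
          exact h1 i h2
        · rw [h2]
          exact hs2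
  obtain ⟨S, hS, hS1⟩ := Env0.c_search hQ hex
  have hSQ : ∀ v n, β (S (v, n)) 0 = g v ∧ ∀ i, i < n →
      β (S (v, n)) (i + 1) = h (v, (i, β (S (v, n)) i)) := fun v n =>
    (hQiff _ _ _).1 (hS1 (v, n)).1
  refine ⟨fun q => β (S q) q.2, hβ' _ _ hS (by fun_prop), fun v => (hSQ v 0).1, fun v n => ?_⟩
  obtain ⟨h0, h1⟩ := hSQ v (n + 1)
  obtain ⟨k0, k1⟩ := hSQ v n
  have key : ∀ i, i ≤ n → β (S (v, n + 1)) i = β (S (v, n)) i := by
    refine bprec_ind (P := fun i => i ≤ n → β (S (v, n + 1)) i = β (S (v, n)) i) ?_ ?_ ?_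
    · refine comp_imp _ _ (by fun_prop) (comp_eq _ _ (hβ' _ _ (by fun_prop) (by fun_prop))
        (hβ' _ _ (by fun_prop) (by fun_prop)))
    · intro _
      rw [h0, k0]
    · intro i hi hin
      have h2 : i < n := lt_of_lt_of_le (lt_add_one i) hin
      rw [h1 i (h2.trans (lt_add_one n)), k1 i h2, hi h2.le]
  show β (S (v, n + 1)) (n + 1) = h (v, (n, β (S (v, n)) n))
  rw [h1 n (lt_add_one n), key n le_rfl]

/-- the class `Env1` -/
@[reducible] noncomputable def env1Of (M : Type) [E : Env0 M] : Env1 M :=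
  { E with c_prec := fun hg hh => exists_prec M hg hh }

end RT22P
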