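import Pool.Agent.RTP.BEnv
import Pool.Agent.RTP.BPrec
import Pool.Agent.RTP.BPow
import Pool.Agent.RTP.BArith

/-!
# The environment of a model of `RCA₀`
-/

set_option autoImplicit false

namespace RT22P

/-- the class `Env` for a discretely ordered semiring with a model of `RCA₀` -/
@[reducible] noncomputable def fullEnv (M : Type) [A : Arith M] : Env M :=
  @envOf M (@env1Of M (@env0Of M (@preOf M A)))

theorem fullEnv_arith (M : Type) [A : Arith M] :
    (fullEnv M).toArith = A := rfl

/-- transfer of statements on `0, 1, +, *, <, S` -/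
theorem bridge {M : Type} [i0 : Zero M] [i1 : One M] [ia : Add M] [im : Mul M] [il : LT M]
    {S : Set (Set M)} (h : IsRCA0 S)
    (P : ∀ (_ : Zero M) (_ : One M) (_ : Add M) (_ : Mul M) (_ : LT M), Set (Set M) → Prop)
    (hP : ∀ E : Env M, P E.toZero E.toOne E.toAdd E.toMul E.toLT E.S) :
    P i0 i1 ia im il S := by
  have h1 := hP (@fullEnv M (arithOf h))
  have e0 := arithOf_zero h
  have e1 := arithOf_one h
  have ea := arithOf_add h
  have em := arithOf_mul h
  have el := arithOf_lt h
  have eS := arithOf_S h
  change P (arithOf h).toCommSemiring.toZero (arithOf h).toCommSemiring.toOne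
    (arithOf h).toCommSemiring.toAdd (arithOf h).toCommSemiring.toMul
    (arithOf h).toLinearOrder.toLT (arithOf h).S at h1
  rw [e0, e1, ea, em, el, eS] at h1
  exact h1

end RT22P
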