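import Pool.Agent.RTP.BPre

/-!
# B4: the closure properties of computable functions and predicates (class `Env0`)

Write `G f (x, z) = Cod.emb (f (Enc.e.symm x)) z` (a relation of 2 variables).
* `cp (x, y) ∈ X` is `Δ⁰₀` for `X ∈ S` (`∃ z ≤ (x+y)(x+y+1) + 2y, 2 z = ... ∧ z ∈ X`), so `Comp M f` gives that
  `G f` is `Δ⁰₀` (`D0`); conversely if `G f` and its negation are `S1` then `Comp M f` (`Arith.ca`,
  `z ↦ (cp.symm z)` has a bounded graph).
* composition: `G (f ∘ g) (x, z) ↔ ∃ y, G g (x, y) ∧ G f (y, z)`, and the same with `¬ G f`.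
* pairs: `z = cp (y, y')`; projections: `∃ w ≤ x, x = cp (z, w)`.
* `c_bex`: `∃ u, G t (x, u) ∧ ∃ y < u, P (cp (x, y))`; negation with `∀ y < u`.
* `c_search`: least number by `Arith.ind`.
-/

set_option autoImplicit false

namespace RT22P

variable {M : Type} [Pre M] {Γ Δ Θ : Type} [Enc M Γ] [Enc M Δ] [Enc M Θ]

/-! ### Tools -/

private theorem benv_sub1 {P : M → Prop} (h : S1 M 1 (fun v => P (v 0))) {n : ℕ} (s : Tm M n) :
    S1 M n (fun v => P (s.val v)) :=
  s1_subst h ![s]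

private theorem benv_sub2 {P : M → M → Prop} (h : S1 M 2 (fun v => P (v 0) (v 1))) {n : ℕ}
    (s t : Tm M n) : S1 M n (fun v => P (s.val v) (t.val v)) :=
  s1_subst h ![s, t]

private theorem benv_sub3 {P : M → M → M → Prop} (h : S1 M 3 (fun v => P (v 0) (v 1) (v 2)))
    {n : ℕ} (r s t : Tm M n) : S1 M n (fun v => P (r.val v) (s.val v) (t.val v)) :=
  s1_subst h ![r, s, t]

private theorem benv_pair_iff (z x y : M) :
    2 * z = (x + y) * (x + y + 1) + 2 * y ↔ z = Pre.cp (x, y) := by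
  have h2 : (0 : M) < 2 := two_pos
  rw [← Pre.cp_spec x y]
  constructor
  · intro h
    rcases lt_trichotomy z (Pre.cp (x, y)) with h5 | h5 | h5
    · exact absurd h (ne_of_lt (mul_lt_mul_of_pos_left h5 h2))
    · exact h5
    · exact absurd h (ne_of_gt (mul_lt_mul_of_pos_left h5 h2))
  · rintro rfl
    rfl

private theorem benv_pair {n : ℕ} (z x y : Tm M n) :
    S1 M n (fun v => z.val v = Pre.cp (x.val v, y.val v)) :=
  s1_congr (benv_sub3 (P := fun z x y : M => 2 * z = (x + y) * (x + y + 1) + 2 * y)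
    (s1_of_d0 d0_pair) z x y) fun _ => benv_pair_iff _ _ _

private theorem benv_iff {Δ : Type} [Cod M Δ] (f : Γ → Δ) : Comp M f ↔
    S1 M 2 (fun v => Cod.emb (f ((Enc.e (M := M)).symm (v 0))) (v 1)) ∧
    S1 M 2 (fun v => ¬ Cod.emb (f ((Enc.e (M := M)).symm (v 0))) (v 1)) := by
  constructor
  · intro h
    unfold Comp at h
    refine ⟨s1_congr (s1_ex (n := 2) (s1_and (benv_pair (.var 0) (.var 1) (.var 2))
      (s1_of_d0 (D0.mem (.var 0) _ h)))) fun v => ?_,
      s1_congr (s1_ex (n := 2) (s1_and (benv_pair (.var 0) (.var 1) (.var 2))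
      (s1_of_d0 (D0.mem (.var 0) _ h).not))) fun v => ?_⟩
    · constructor
      · rintro ⟨z, h1, h2⟩
        have h1' : z = Pre.cp (v 0, v 1) := h1
        have h2' : Cod.emb (f ((Enc.e (M := M)).symm ((Pre.cp (M := M)).symm z).1))
          ((Pre.cp (M := M)).symm z).2 := h2
        rwa [h1', Equiv.symm_apply_apply] at h2'
      · intro h1
        refine ⟨Pre.cp (v 0, v 1), rfl, ?_⟩
        show Cod.emb (f ((Enc.e (M := M)).symm ((Pre.cp (M := M)).symm (Pre.cp (v 0, v 1))).1))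
          ((Pre.cp (M := M)).symm (Pre.cp (v 0, v 1))).2
        rw [Equiv.symm_apply_apply]
        exact h1
    · constructor
      · rintro ⟨z, h1, h2⟩
        have h1' : z = Pre.cp (v 0, v 1) := h1
        have h2' : ¬ Cod.emb (f ((Enc.e (M := M)).symm ((Pre.cp (M := M)).symm z).1))
          ((Pre.cp (M := M)).symm z).2 := h2
        rwa [h1', Equiv.symm_apply_apply] at h2'
      · intro h1
        refine ⟨Pre.cp (v 0, v 1), rfl, ?_⟩
        show ¬ Cod.emb (f ((Enc.e (M := M)).symm ((Pre.cp (M := M)).symm (Pre.cp (v 0, v 1))).1))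
          ((Pre.cp (M := M)).symm (Pre.cp (v 0, v 1))).2
        rw [Equiv.symm_apply_apply]
        exact h1
  · rintro ⟨h1, h2⟩
    have key : ∀ R : M → M → Prop, S1 M 2 (fun v => R (v 0) (v 1)) →
        Sigma1 (Arith.S (M := M))
          (fun z => R ((Pre.cp (M := M)).symm z).1 ((Pre.cp (M := M)).symm z).2) := by
      intro R hR
      refine sigma1_of (P := fun v => R ((Pre.cp (M := M)).symm (v 0)).1
        ((Pre.cp (M := M)).symm (v 0)).2) (s1_congr (s1_ex (n := 1) (s1_ex (n := 2)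
          (s1_and (benv_pair (.var 2) (.var 1) (.var 0)) (benv_sub2 hR (.var 1) (.var 0)))))
            fun v => ?_)
      constructor
      · rintro ⟨x, y, h3, h4⟩
        have h3' : v 0 = Pre.cp (x, y) := h3
        rw [h3', Equiv.symm_apply_apply]
        exact h4
      · intro h3
        refine ⟨((Pre.cp (M := M)).symm (v 0)).1, ((Pre.cp (M := M)).symm (v 0)).2, ?_, h3⟩
        show v 0 = Pre.cp (((Pre.cp (M := M)).symm (v 0)).1, ((Pre.cp (M := M)).symm (v 0)).2)
        rw [Prod.mk.eta, Equiv.apply_symm_apply]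
    exact Arith.ca (fun z : M => Cod.emb (f ((Enc.e (M := M)).symm ((Pre.cp (M := M)).symm z).1))
      ((Pre.cp (M := M)).symm z).2)
      (key (fun x y => Cod.emb (f ((Enc.e (M := M)).symm x)) y) h1)
      (key (fun x y => ¬ Cod.emb (f ((Enc.e (M := M)).symm x)) y) h2)

/-- functions -/
private theorem benv_fun (f : Γ → Δ) : Comp M f ↔
    S1 M 2 (fun v => (Enc.e (M := M)) (f ((Enc.e (M := M)).symm (v 0))) = v 1) := by
  rw [benv_iff]
  constructor
  · exact fun h => h.1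
  · intro h
    refine ⟨h, s1_congr (s1_ex (n := 2) (s1_and
      (benv_sub2 (P := fun a b => (Enc.e (M := M)) (f ((Enc.e (M := M)).symm a)) = b) h
        (.var 1) (.var 0)) (s1_of_d0 (D0.eq (.var 0) (.var 2)).not))) fun v => ?_⟩
    constructor
    · rintro ⟨y, h1, h2⟩ h3
      have h1' : (Enc.e (M := M)) (f ((Enc.e (M := M)).symm (v 0))) = y := h1
      have h3' : (Enc.e (M := M)) (f ((Enc.e (M := M)).symm (v 0))) = v 1 := h3
      exact h2 (h1'.symm.trans h3')
    · intro h3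
      exact ⟨_, rfl, h3⟩

/-- predicates -/
private theorem benv_prop (P : Γ → Prop) : Comp M P ↔
    S1 M 1 (fun v => P ((Enc.e (M := M)).symm (v 0))) ∧
    S1 M 1 (fun v => ¬ P ((Enc.e (M := M)).symm (v 0))) := by
  rw [benv_iff]
  constructor
  · rintro ⟨h1, h2⟩
    exact ⟨benv_sub2 (P := fun a _ => P ((Enc.e (M := M)).symm a)) h1 (.var 0) (.var 0),
      benv_sub2 (P := fun a _ => ¬ P ((Enc.e (M := M)).symm a)) h2 (.var 0) (.var 0)⟩
  · rintro ⟨h1, h2⟩
    exact ⟨benv_sub1 (P := fun a => P ((Enc.e (M := M)).symm a)) h1 (.var 0),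
      benv_sub1 (P := fun a => ¬ P ((Enc.e (M := M)).symm a)) h2 (.var 0)⟩

private theorem benv_symm (z : M) : (Enc.e (M := M) (Γ := Γ × Δ)).symm z =
    ((Enc.e (M := M)).symm ((Pre.cp (M := M)).symm z).1,
      (Enc.e (M := M)).symm ((Pre.cp (M := M)).symm z).2) := rfl

private theorem benv_unpair {R : M → M → Prop} (h : S1 M 2 (fun v => R (v 0) (v 1))) :
    S1 M 1 (fun v => R ((Pre.cp (M := M)).symm (v 0)).1 ((Pre.cp (M := M)).symm (v 0)).2) := by
  refine s1_congr (s1_ex (n := 1) (s1_ex (n := 2)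
    (s1_and (benv_pair (.var 2) (.var 1) (.var 0)) (benv_sub2 h (.var 1) (.var 0))))) fun v => ?_
  constructor
  · rintro ⟨x, y, h3, h4⟩
    have h3' : v 0 = Pre.cp (x, y) := h3
    rw [h3', Equiv.symm_apply_apply]
    exact h4
  · intro h3
    refine ⟨((Pre.cp (M := M)).symm (v 0)).1, ((Pre.cp (M := M)).symm (v 0)).2, ?_, h3⟩
    show v 0 = Pre.cp (((Pre.cp (M := M)).symm (v 0)).1, ((Pre.cp (M := M)).symm (v 0)).2)
    rw [Prod.mk.eta, Equiv.apply_symm_apply]

private theorem benv_repair {R : M → Prop} (h : S1 M 1 (fun v => R (v 0))) :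
    S1 M 2 (fun v => R (Pre.cp (v 0, v 1))) := by
  refine s1_congr (s1_ex (n := 2) (s1_and (benv_pair (.var 0) (.var 1) (.var 2))
    (benv_sub1 h (.var 0)))) fun v => ?_
  constructor
  · rintro ⟨z, h1, h2⟩
    have h1' : z = Pre.cp (v 0, v 1) := h1
    rw [← h1']
    exact h2
  · intro h1
    exact ⟨_, rfl, h1⟩

/-- predicates of two variables -/
private theorem benv_prop2 (P : Γ × Δ → Prop) : Comp M P ↔
    S1 M 2 (fun v => P ((Enc.e (M := M)).symm (v 0), (Enc.e (M := M)).symm (v 1))) ∧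
    S1 M 2 (fun v => ¬ P ((Enc.e (M := M)).symm (v 0), (Enc.e (M := M)).symm (v 1))) := by
  rw [benv_prop]
  constructor
  · rintro ⟨h1, h2⟩
    refine ⟨s1_congr (benv_repair (R := fun z => P ((Enc.e (M := M)).symm z)) h1) fun v => ?_,
      s1_congr (benv_repair (R := fun z => ¬ P ((Enc.e (M := M)).symm z)) h2) fun v => ?_⟩
    · rw [benv_symm, Equiv.symm_apply_apply]
    · rw [benv_symm, Equiv.symm_apply_apply]
  · rintro ⟨h1, h2⟩
    exact ⟨benv_unpair (R := fun a b => P ((Enc.e (M := M)).symm a, (Enc.e (M := M)).symm b)) h1,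
      benv_unpair (R := fun a b => ¬ P ((Enc.e (M := M)).symm a, (Enc.e (M := M)).symm b)) h2⟩

private theorem benv_sig (P : Γ → Prop) : Sig M P ↔
    S1 M 1 (fun v => P ((Enc.e (M := M)).symm (v 0))) := by
  constructor
  · rintro ⟨Q, hQ, hP⟩
    have h1 := ((benv_prop2 Q).1 hQ).1
    refine s1_congr (s1_ex (n := 1) (benv_sub2 (P := fun a b =>
      Q ((Enc.e (M := M)).symm a, (Enc.e (M := M)).symm b)) h1 (.var 1) (.var 0))) fun v => ?_
    rw [hP]
    exact Iff.rfl
  · rintro ⟨R, hR, hP⟩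
    refine ⟨fun q => R ![q.2, (Enc.e (M := M)) q.1], ?_, fun v => ?_⟩
    · rw [benv_prop2]
      have e : ∀ v : Fin 2 → M, (R ![(Enc.e (M := M) (Γ := M)).symm (v 1),
          (Enc.e (M := M)) ((Enc.e (M := M) (Γ := Γ)).symm (v 0))]) ↔
          R (fun i => ((![.var 1, .var 0] : Fin 2 → Tm M 2) i).val v) := by
        intro v
        rw [Equiv.apply_symm_apply]
        refine iff_of_eq (congrArg R ?_)
        funext i
        fin_cases i <;> rfl
      refine ⟨s1_congr (s1_of_d0 (d0_subst hR ![.var 1, .var 0])) fun v => (e v).symm,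
        s1_congr (s1_of_d0 (d0_subst hR ![.var 1, .var 0]).not) fun v => not_congr (e v).symm⟩
    · have h3 := hP ![(Enc.e (M := M)) v]
      have h4 : P ((Enc.e (M := M)).symm ((Enc.e (M := M)) v)) ↔
          ∃ y, R (Fin.cons y ![(Enc.e (M := M)) v]) := h3
      rw [Equiv.symm_apply_apply] at h4
      exact h4

theorem p_id : Comp M (fun x : Γ => x) := by
  rw [benv_fun]
  refine s1_congr (s1_of_d0 (D0.eq (.var 0) (.var 1))) fun v => ?_
  rw [Equiv.apply_symm_apply]
  exact Iff.rfl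

theorem p_const (c : Δ) : Comp M (fun _ : Γ => c) := by
  rw [benv_fun]
  exact s1_of_d0 (D0.eq (.par ((Enc.e (M := M)) c)) (.var 1))

theorem p_constP (c : Prop) : Comp M (fun _ : Γ => c) := by
  rw [benv_prop]
  exact ⟨s1_of_d0 (d0_const _), s1_of_d0 (d0_const _)⟩

theorem p_comp {Θ : Type} [Cod M Θ] {f : Δ → Θ} {g : Γ → Δ} (hf : Comp M f) (hg : Comp M g) :
    Comp M (fun x => f (g x)) := by
  rw [benv_iff] at hf ⊢
  rw [benv_fun] at hg
  have hg' := benv_sub2 (P := fun a b => (Enc.e (M := M)) (g ((Enc.e (M := M)).symm a)) = b) hg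
    (n := 3) (.var 1) (.var 0)
  refine ⟨s1_congr (s1_ex (n := 2) (s1_and hg' (benv_sub2 (P := fun a b =>
      Cod.emb (f ((Enc.e (M := M)).symm a)) b) hf.1 (.var 0) (.var 2)))) fun v => ?_,
    s1_congr (s1_ex (n := 2) (s1_and hg' (benv_sub2 (P := fun a b =>
      ¬ Cod.emb (f ((Enc.e (M := M)).symm a)) b) hf.2 (.var 0) (.var 2)))) fun v => ?_⟩
  · constructor
    · rintro ⟨y, h1, h2⟩
      have h1' : (Enc.e (M := M)) (g ((Enc.e (M := M)).symm (v 0))) = y := h1
      have h2' : Cod.emb (f ((Enc.e (M := M)).symm y)) (v 1) := h2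
      rw [← h1', Equiv.symm_apply_apply] at h2'
      exact h2'
    · intro h1
      refine ⟨(Enc.e (M := M)) (g ((Enc.e (M := M)).symm (v 0))), rfl, ?_⟩
      show Cod.emb (f ((Enc.e (M := M)).symm
        ((Enc.e (M := M)) (g ((Enc.e (M := M)).symm (v 0)))))) (v 1)
      rw [Equiv.symm_apply_apply]
      exact h1
  · constructor
    · rintro ⟨y, h1, h2⟩
      have h1' : (Enc.e (M := M)) (g ((Enc.e (M := M)).symm (v 0))) = y := h1
      have h2' : ¬ Cod.emb (f ((Enc.e (M := M)).symm y)) (v 1) := h2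
      rw [← h1', Equiv.symm_apply_apply] at h2'
      exact h2'
    · intro h1
      refine ⟨(Enc.e (M := M)) (g ((Enc.e (M := M)).symm (v 0))), rfl, ?_⟩
      show ¬ Cod.emb (f ((Enc.e (M := M)).symm
        ((Enc.e (M := M)) (g ((Enc.e (M := M)).symm (v 0)))))) (v 1)
      rw [Equiv.symm_apply_apply]
      exact h1

theorem p_prod {f : Γ → Δ} {g : Γ → Θ} (hf : Comp M f) (hg : Comp M g) :
    Comp M (fun x => (f x, g x)) := by
  rw [benv_fun] at hf hg ⊢
  refine s1_congr (s1_ex (n := 2) (s1_ex (n := 3) (s1_and (s1_and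
    (benv_sub2 (P := fun a b => (Enc.e (M := M)) (f ((Enc.e (M := M)).symm a)) = b) hf
      (.var 2) (.var 1))
    (benv_sub2 (P := fun a b => (Enc.e (M := M)) (g ((Enc.e (M := M)).symm a)) = b) hg
      (.var 2) (.var 0))) (benv_pair (.var 3) (.var 1) (.var 0))))) fun v => ?_
  constructor
  · rintro ⟨y, y', ⟨h1, h2⟩, h3⟩
    have h1' : (Enc.e (M := M)) (f ((Enc.e (M := M)).symm (v 0))) = y := h1
    have h2' : (Enc.e (M := M)) (g ((Enc.e (M := M)).symm (v 0))) = y' := h2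
    have h3' : v 1 = Pre.cp (y, y') := h3
    rw [h3', ← h1', ← h2']
    rfl
  · intro h
    exact ⟨_, _, ⟨rfl, rfl⟩, h.symm⟩

theorem p_fst : Comp M (fun x : Γ × Δ => x.1) := by
  rw [benv_fun]
  refine s1_congr (s1_ex (n := 2) (benv_pair (.var 1) (.var 2) (.var 0))) fun v => ?_
  rw [benv_symm]
  show _ ↔ (Enc.e (M := M)) ((Enc.e (M := M)).symm ((Pre.cp (M := M)).symm (v 0)).1) = v 1
  rw [Equiv.apply_symm_apply]
  constructor
  · rintro ⟨w, hw⟩
    have hw' : v 0 = Pre.cp (v 1, w) := hw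
    rw [hw', Equiv.symm_apply_apply]
  · intro h
    refine ⟨((Pre.cp (M := M)).symm (v 0)).2, ?_⟩
    show v 0 = Pre.cp (v 1, ((Pre.cp (M := M)).symm (v 0)).2)
    rw [← h, Prod.mk.eta, Equiv.apply_symm_apply]

theorem p_snd : Comp M (fun x : Γ × Δ => x.2) := by
  rw [benv_fun]
  refine s1_congr (s1_ex (n := 2) (benv_pair (.var 1) (.var 0) (.var 2))) fun v => ?_
  rw [benv_symm]
  show _ ↔ (Enc.e (M := M)) ((Enc.e (M := M)).symm ((Pre.cp (M := M)).symm (v 0)).2) = v 1
  rw [Equiv.apply_symm_apply]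
  constructor
  · rintro ⟨w, hw⟩
    have hw' : v 0 = Pre.cp (w, v 1) := hw
    rw [hw', Equiv.symm_apply_apply]
  · intro h
    refine ⟨((Pre.cp (M := M)).symm (v 0)).1, ?_⟩
    show v 0 = Pre.cp (((Pre.cp (M := M)).symm (v 0)).1, v 1)
    rw [← h, Prod.mk.eta, Equiv.apply_symm_apply]

/-- operations on numbers -/
private theorem benv_op {g : M → M → M} (h : S1 M 3 (fun v => g (v 0) (v 1) = v 2)) :
    Comp M (fun x : M × M => g x.1 x.2) := by
  rw [benv_fun]
  refine s1_congr (s1_ex (n := 2) (s1_ex (n := 3) (s1_and (benv_pair (.var 2) (.var 1) (.var 0))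
    (benv_sub3 (P := fun a b c => g a b = c) h (.var 1) (.var 0) (.var 3))))) fun v => ?_
  constructor
  · rintro ⟨x, y, h1, h2⟩
    have h1' : v 0 = Pre.cp (x, y) := h1
    have h2' : g x y = v 1 := h2
    show g ((Pre.cp (M := M)).symm (v 0)).1 ((Pre.cp (M := M)).symm (v 0)).2 = v 1
    rw [h1', Equiv.symm_apply_apply]
    exact h2'
  · intro h1
    refine ⟨((Pre.cp (M := M)).symm (v 0)).1, ((Pre.cp (M := M)).symm (v 0)).2, ?_, h1⟩
    show v 0 = Pre.cp (((Pre.cp (M := M)).symm (v 0)).1, ((Pre.cp (M := M)).symm (v 0)).2)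
    rw [Prod.mk.eta, Equiv.apply_symm_apply]

theorem p_add : Comp M (fun x : M × M => x.1 + x.2) :=
  benv_op (g := fun a b => a + b) (s1_of_d0 (D0.eq (.add (.var 0) (.var 1)) (.var 2)))

theorem p_mul : Comp M (fun x : M × M => x.1 * x.2) :=
  benv_op (g := fun a b => a * b) (s1_of_d0 (D0.eq (.mul (.var 0) (.var 1)) (.var 2)))

theorem p_cp : Comp M (fun x : M × M => (Pre.cp x : M)) := by
  rw [benv_fun]
  refine s1_congr (s1_of_d0 (D0.eq (.var 0) (.var 1))) fun v => ?_
  show v 0 = v 1 ↔ Pre.cp (((Pre.cp (M := M)).symm (v 0)).1, ((Pre.cp (M := M)).symm (v 0)).2) = v 1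
  rw [Prod.mk.eta, Equiv.apply_symm_apply]

theorem p_cpsymm : Comp M (fun x : M => ((Pre.cp (M := M)).symm x : M × M)) := by
  rw [benv_fun]
  refine s1_congr (s1_of_d0 (D0.eq (.var 0) (.var 1))) fun v => ?_
  show v 0 = v 1 ↔ Pre.cp (((Pre.cp (M := M)).symm (v 0)).1, ((Pre.cp (M := M)).symm (v 0)).2) = v 1
  rw [Prod.mk.eta, Equiv.apply_symm_apply]

theorem p_lt : Comp M (fun x : M × M => x.1 < x.2) := by
  rw [benv_prop2]
  exact ⟨s1_of_d0 (D0.lt (.var 0) (.var 1)), s1_of_d0 (D0.lt (.var 0) (.var 1)).not⟩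

theorem p_eq : Comp M (fun x : Γ × Γ => x.1 = x.2) := by
  rw [benv_prop2]
  refine ⟨s1_congr (s1_of_d0 (D0.eq (.var 0) (.var 1))) fun v => ?_,
    s1_congr (s1_of_d0 (D0.eq (.var 0) (.var 1)).not) fun v => not_congr ?_⟩
  · exact ((Enc.e (M := M) (Γ := Γ)).symm.injective.eq_iff).symm
  · exact ((Enc.e (M := M) (Γ := Γ)).symm.injective.eq_iff).symm

theorem p_mem {A : Set M} (hA : A ∈ Arith.S (M := M)) : Comp M (fun x : M => x ∈ A) := by
  rw [benv_prop]
  exact ⟨s1_of_d0 (D0.mem (.var 0) A hA), s1_of_d0 (D0.mem (.var 0) A hA).not⟩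

theorem p_set {P : M → Prop} (hP : Comp M P) : {x | P x} ∈ Arith.S (M := M) := by
  rw [benv_prop] at hP
  exact Arith.ca P (sigma1_of hP.1) (sigma1_of hP.2)

theorem p_not {P : Γ → Prop} (hP : Comp M P) : Comp M (fun x => ¬ P x) := by
  rw [benv_prop] at hP ⊢
  exact ⟨hP.2, s1_congr hP.1 fun v => not_not.symm⟩

theorem p_and {P Q : Γ → Prop} (hP : Comp M P) (hQ : Comp M Q) :
    Comp M (fun x => P x ∧ Q x) := by
  rw [benv_prop] at hP hQ ⊢
  exact ⟨s1_and hP.1 hQ.1, s1_congr (s1_or hP.2 hQ.2) fun v => not_and_or.symm⟩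

theorem p_bex {t : Γ → M} {P : Γ × M → Prop} (ht : Comp M t) (hP : Comp M P) :
    Comp M (fun x => ∃ y, y < t x ∧ P (x, y)) := by
  rw [benv_prop2] at hP
  rw [benv_fun] at ht
  rw [benv_prop]
  have ht' := benv_sub2 (P := fun a b => (Enc.e (M := M)) (t ((Enc.e (M := M)).symm a)) = b) ht
    (n := 2) (.var 1) (.var 0)
  refine ⟨s1_congr (s1_ex (n := 1) (s1_and ht' (s1_bex (.var 0) (benv_sub2 (P := fun a b =>
    P ((Enc.e (M := M)).symm a, (Enc.e (M := M)).symm b)) hP.1 (.var 2) (.var 0))))) fun v => ?_,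
    s1_congr (s1_ex (n := 1) (s1_and ht' (s1_ball (.var 0) (benv_sub2 (P := fun a b =>
    ¬ P ((Enc.e (M := M)).symm a, (Enc.e (M := M)).symm b)) hP.2 (.var 2) (.var 0))))) fun v => ?_⟩
  · constructor
    · rintro ⟨u, h1, y, h2, h3⟩
      have h1' : t ((Enc.e (M := M)).symm (v 0)) = u := h1
      have h2' : y < u := h2
      exact ⟨y, h1' ▸ h2', h3⟩
    · rintro ⟨y, h2, h3⟩
      exact ⟨_, rfl, y, h2, h3⟩
  · constructor
    · rintro ⟨u, h1, h2⟩ ⟨y, h3, h4⟩
      have h1' : t ((Enc.e (M := M)).symm (v 0)) = u := h1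
      have h3' : y < u := h1' ▸ h3
      exact h2 y h3' h4
    · intro h
      refine ⟨_, rfl, fun y hy h4 => h ⟨y, hy, h4⟩⟩

theorem p_delta {P : Γ → Prop} (h : Sig M P) (h' : Sig M (fun x => ¬ P x)) : Comp M P := by
  rw [benv_sig] at h h'
  rw [benv_prop]
  exact ⟨h, h'⟩

private theorem benv_lt_succ {x y : M} : x < y + 1 ↔ x ≤ y := by
  constructor
  · intro h
    by_contra hc
    exact absurd (lt_of_lt_of_le h (Arith.succ_le (not_le.1 hc))) (lt_irrefl _)
  · intro h
    exact lt_of_le_of_lt h (lt_add_one _)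

theorem p_search {P : Γ × M → Prop} (hP : Comp M P) (h : ∀ v, ∃ x, P (v, x)) :
    ∃ f : Γ → M, Comp M f ∧ ∀ v, P (v, f v) ∧ ∀ x, x < f v → ¬ P (v, x) := by
  rw [benv_prop2] at hP
  have hex : ∀ v, ∃ x, P (v, x) ∧ ∀ y, y < x → ¬ P (v, y) := by
    intro v
    by_contra hc
    push Not at hc
    have hS : S1 M 1 (fun u => ∀ y, y < u 0 → ¬ P (v, y)) := by
      refine s1_congr (s1_ball (.var 0) (benv_sub2 (P := fun a b =>
        ¬ P ((Enc.e (M := M)).symm a, (Enc.e (M := M)).symm b)) hP.2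
          (.par ((Enc.e (M := M)) v)) (.var 0))) fun u => ?_
      refine forall_congr' fun y => imp_congr_right fun _ => not_congr ?_
      show P ((Enc.e (M := M)).symm ((Enc.e (M := M)) v), y) ↔ _
      rw [Equiv.symm_apply_apply]
    have hall : ∀ x : M, ∀ y, y < x → ¬ P (v, y) := by
      refine Arith.ind (fun x : M => ∀ y, y < x → ¬ P (v, y)) (sigma1_of hS) ?_ ?_
      · intro y hy
        exact absurd hy (not_lt_of_ge zero_le)
      · intro x ih y hy hPy
        rcases lt_or_eq_of_le (benv_lt_succ.1 hy) with h1 | h1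
        · exact ih y h1 hPy
        · subst h1
          obtain ⟨y', hy', hP'⟩ := hc y hPy
          exact ih y' hy' hP'
    obtain ⟨x, hx⟩ := h v
    exact hall (x + 1) x (lt_add_one x) hx
  choose f hf1 hf2 using hex
  refine ⟨f, ?_, fun v => ⟨hf1 v, hf2 v⟩⟩
  rw [benv_fun]
  refine s1_congr (s1_and hP.1 (s1_ball (.var 1) (benv_sub2 (P := fun a b =>
    ¬ P ((Enc.e (M := M)).symm a, (Enc.e (M := M)).symm b)) hP.2 (.var 1) (.var 0)))) fun v => ?_
  constructor
  · rintro ⟨h1, h2⟩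
    have h1' : P ((Enc.e (M := M)).symm (v 0), v 1) := h1
    have h2' : ∀ y, y < v 1 → ¬ P ((Enc.e (M := M)).symm (v 0), y) := h2
    show f ((Enc.e (M := M)).symm (v 0)) = v 1
    rcases lt_trichotomy (f ((Enc.e (M := M)).symm (v 0))) (v 1) with h3 | h3 | h3
    · exact absurd (hf1 _) (h2' _ h3)
    · exact h3
    · exact absurd h1' (hf2 _ _ h3)
  · intro h1
    have h1' : f ((Enc.e (M := M)).symm (v 0)) = v 1 := h1
    refine ⟨?_, fun y hy => ?_⟩
    · show P ((Enc.e (M := M)).symm (v 0), v 1)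
      rw [← h1']
      exact hf1 _
    · have hy' : y < v 1 := hy
      rw [← h1'] at hy'
      exact hf2 _ _ hy'

theorem p_sind {P : M → Prop} (hP : Sig M P) (h0 : P 0) (h1 : ∀ x, P x → P (x + 1)) :
    ∀ x, P x := by
  rw [benv_sig] at hP
  exact Arith.ind P (sigma1_of hP) h0 h1

/-- the class `Env0` -/
@[reducible] noncomputable def env0Of (M : Type) [P : Pre M] : Env0 M :=
  { P with
    c_id := p_id
    c_const := p_const
    c_constP := p_constP
    c_comp := p_comp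
    c_prod := p_prod
    c_fst := p_fst
    c_snd := p_snd
    c_add := p_add
    c_mul := p_mul
    c_cp := p_cp
    c_cpsymm := p_cpsymm
    c_lt := p_lt
    c_eq := p_eq
    c_mem := p_mem
    c_set := p_set
    c_not := p_not
    c_and := p_and
    c_bex := p_bex
    c_delta := p_delta
    c_search := p_search
    sind := p_sind }

end RT22P
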