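import Pool.Agent.RTP.PCpy
import Pool.Agent.RTP.BEnv

/-!
# From the raw statements to the typed ones and back

* `i2_of_raw`: `∀ z Q x y z` for a computable `Q` is `Π₁` and can be written `∀ w D`, `D` bounded: the negation
  `∃ z ¬ Q` is `S1` (a computable predicate is given by membership in a set of `S` of a code, see `BEnv`, `BD0`).
* `exists_tree`: induction on `Separable` (`osum a b ↦ op true`, `skew a b ↦ op false`); the entries of a separable
  list `a` are less than its length.
* `rtp_of_raw`: for a computable `f` the set `F = {pr x y | f x y}` belongs to `S` (`pr` is injective).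
-/

set_option autoImplicit false

namespace RT22P

open Env

private theorem draw_lt {M : Type} [Env M] {x y x' y' : M} (h : x + y < x' + y') :
    pr x y < pr x' y' := by
  have h1 := Arith.succ_le h
  have hx : x ≤ x + y := le_self_add
  have h2 : (x + y + 1) * (x + y + 1) = (x + y) * (x + y) + (x + y) + (x + y + 1) := by ring
  have h3 : (0 : M) < x + y + 1 := lt_of_le_of_lt (zero_le' _) (lt_self_succ _)
  calc pr x y = (x + y) * (x + y) + x := rfl
    _ ≤ (x + y) * (x + y) + (x + y) := by gcongr
    _ < (x + y) * (x + y) + (x + y) + (x + y + 1) := lt_add_of_pos_right _ h3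
    _ = (x + y + 1) * (x + y + 1) := h2.symm
    _ ≤ (x' + y') * (x' + y') := mul_le_mul' h1 h1
    _ ≤ (x' + y') * (x' + y') + x' := le_self_add
    _ = pr x' y' := rfl

theorem pr_inj {M : Type} [Env M] {x y x' y' : M} (h : pr x y = pr x' y') : x = x' ∧ y = y' := by
  rcases lt_trichotomy (x + y) (x' + y') with h1 | h1 | h1
  · exact absurd h (ne_of_lt (draw_lt h1))
  · have h2 : (x + y) * (x + y) + x = (x + y) * (x + y) + x' := by
      have h3 : (x + y) * (x + y) + x = (x' + y') * (x' + y') + x' := h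
      rw [← h1] at h3
      exact h3
    have h3 := add_left_cancel h2
    subst h3
    exact ⟨rfl, add_left_cancel h1⟩
  · exact absurd h (ne_of_gt (draw_lt h1))

theorem comp_pr {M : Type} [Env M] : Comp M (fun q : M × M => pr q.1 q.2) := by
  unfold pr
  fun_prop

private theorem draw_le1 {M : Type} [Env M] (x y : M) : x ≤ pr x y :=
  le_add_self

private theorem draw_le2 {M : Type} [Env M] (x y : M) : y ≤ pr x y := by
  have h1 : ∀ s : M, s ≤ s * s := by
    intro s
    rcases eq_or_lt_of_le (zero_le' s) with h | h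
    · rw [← h, zero_mul]
    · have h2 := Arith.succ_le h
      rw [zero_add] at h2
      calc s = s * 1 := (mul_one s).symm
        _ ≤ s * s := mul_le_mul' le_rfl h2
  calc y ≤ x + y := le_add_self
    _ ≤ (x + y) * (x + y) := h1 _
    _ ≤ (x + y) * (x + y) + x := le_self_add
    _ = pr x y := rfl

private theorem draw_set2 {M : Type} [Env M] {f : M → M → Prop}
    (hf : Comp M (fun q : M × M => f q.1 q.2)) :
    ∃ F ∈ Arith.S (M := M), ∀ x y, pr x y ∈ F ↔ f x y := by
  have hp : ∀ {Γ : Type} [Enc M Γ] (g h : Γ → M), Comp M g → Comp M h →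
      Comp M (fun v => pr (g v) (h v)) := by
    intro Γ _ g h hg hh
    unfold pr
    fun_prop
  refine ⟨{u | ∃ x, x ≤ u ∧ ∃ y, y ≤ u ∧ (u = pr x y ∧ f x y)}, Env0.c_set ?_, fun x y => ?_⟩
  · refine comp_bexle (fun u : M => u) (fun u x => ∃ y, y ≤ u ∧ (u = pr x y ∧ f x y))
      (by fun_prop) ?_
    refine comp_bexle (fun q : M × M => q.1) (fun q y => q.1 = pr q.2 y ∧ f q.2 y)
      (by fun_prop) ?_
    exact comp_and _ _ (comp_eq _ _ (by fun_prop) (hp _ _ (by fun_prop) (by fun_prop)))
      (comp_comp (fun q : M × M => f q.1 q.2) (fun q : (M × M) × M => (q.1.2, q.2)) hf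
        (by fun_prop))
  · constructor
    · rintro ⟨x', -, y', -, h1, h2⟩
      obtain ⟨rfl, rfl⟩ := pr_inj h1
      exact h2
    · intro h
      exact ⟨x, draw_le1 x y, y, draw_le2 x y, rfl, h⟩

theorem i2_of_raw {M : Type} [Env M] (h : ISigma2 (Arith.S (M := M))) : I2 M := by
  intro Q hQ h0 hs x
  obtain ⟨A, hA, hAQ⟩ := draw_set2 (f := fun x u : M =>
    ∃ y, y ≤ u ∧ ∃ z, z ≤ u ∧ (u = pr y z ∧ Q x y z)) (by
    have hp : ∀ {Γ : Type} [Enc M Γ] (g h : Γ → M), Comp M g → Comp M h →
        Comp M (fun v => pr (g v) (h v)) := by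
      intro Γ _ g h hg hh
      unfold pr
      fun_prop
    refine comp_bexle (fun q : M × M => q.2)
      (fun q y => ∃ z, z ≤ q.2 ∧ (q.2 = pr y z ∧ Q q.1 y z)) (by fun_prop) ?_
    refine comp_bexle (fun q : (M × M) × M => q.1.2)
      (fun q z => q.1.2 = pr q.2 z ∧ Q q.1.1 q.2 z) (by fun_prop) ?_
    exact comp_and _ _ (comp_eq _ _ (by fun_prop) (hp _ _ (by fun_prop) (by fun_prop)))
      (comp_comp (fun p : M × M × M => Q p.1 p.2.1 p.2.2)
        (fun q : ((M × M) × M) × M => (q.1.1.1, q.1.2, q.2)) hQ (by fun_prop)))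
  have key : ∀ x y z : M, pr x (pr y z) ∈ A ↔ Q x y z := by
    intro x y z
    rw [hAQ]
    constructor
    · rintro ⟨y', -, z', -, h1, h2⟩
      obtain ⟨rfl, rfl⟩ := pr_inj h1
      exact h2
    · intro h
      exact ⟨y, draw_le1 y z, z, draw_le2 y z, rfl, h⟩
  let c : Tm M 3 := .add (.mul (.add (.var 1) (.var 2)) (.add (.var 1) (.var 2))) (.var 1)
  let t : Tm M 3 := .add (.mul (.add (.var 0) c) (.add (.var 0) c)) (.var 0)
  refine h (fun x => ∃ y, ∀ z, Q x y z) ⟨fun v => t.val v ∈ A, D0.mem t A hA, fun x => ?_⟩ h0 hs x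
  refine exists_congr fun y => forall_congr' fun z => ?_
  exact (key x y z).symm

theorem Separable.lt_length {p : List ℕ} (hp : Separable p) : ∀ x ∈ p, x < p.length := by
  induction hp with
  | one =>
    intro x hx
    simp at hx
    simp [hx]
  | osum ha hb iha ihb =>
    intro x hx
    unfold RT22P.osum at hx ⊢
    rw [List.length_append, List.length_map]
    rcases List.mem_append.1 hx with h | h
    · have := iha x h
      omega
    · obtain ⟨y, hy, rfl⟩ := List.mem_map.1 h
      have := ihb y hy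
      omega
  | skew ha hb iha ihb =>
    intro x hx
    unfold RT22P.skew at hx ⊢
    rw [List.length_append, List.length_map]
    rcases List.mem_append.1 hx with h | h
    · obtain ⟨y, hy, rfl⟩ := List.mem_map.1 h
      have := iha y hy
      omega
    · have := ihb x h
      omega

/-- a map of the positions of a list with the given pattern -/
private def DG {M : Type} [Env M] (f : M → M → Prop) (l : List ℕ) (a : M) : Prop :=
  ∃ g : Fin l.length → M, (∀ i j, i < j → g i < g j) ∧
      (∀ i, el (g i) a) ∧ ∀ i j, i < j → (f (g i) (g j) ↔ l.get i < l.get j)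

private theorem draw_shift {M : Type} [Env M] {f : M → M → Prop} {l : List ℕ} {a : M} (k : ℕ)
    (h : DG f l a) : DG f (l.map (fun x => x + k)) a := by
  obtain ⟨g, h1, h2, h3⟩ := h
  have hl : (l.map (fun x => x + k)).length = l.length := List.length_map _
  refine ⟨fun i => g (i.cast hl), fun i j hij => h1 _ _ ?_, fun i => h2 _, fun i j hij => ?_⟩
  · exact hij
  · rw [h3 _ _ (show i.cast hl < j.cast hl from hij)]
    simp only [List.get_eq_getElem, List.getElem_map, Fin.val_cast]
    omega

private theorem draw_app {M : Type} [Env M] {f : M → M → Prop} {c : Bool} {la lb : List ℕ}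
    {a b d : M} (h1 : DG f la b) (h2 : DG f lb d) (hb : Sub b a) (hd : Sub d a)
    (hx : ∀ x, el x b → ∀ y, el y d → x < y ∧ cl f c x y)
    (hc : ∀ x ∈ la, ∀ y ∈ lb, (x < y ↔ c = true)) : DG f (la ++ lb) a := by
  obtain ⟨g, g1, g2, g3⟩ := h1
  obtain ⟨k, k1, k2, k3⟩ := h2
  have hl : (la ++ lb).length = la.length + lb.length := List.length_append
  refine ⟨fun i => if hi : (i : ℕ) < la.length then g ⟨i, hi⟩ else
    k ⟨(i : ℕ) - la.length, by have := i.2; omega⟩, fun i j hij => ?_, fun i => ?_,
    fun i j hij => ?_⟩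
  · have hij' : (i : ℕ) < j := hij
    by_cases hi : (i : ℕ) < la.length
    · by_cases hj : (j : ℕ) < la.length
      · simp only [hi, hj, dif_pos]
        exact g1 _ _ hij
      · simp only [hi, hj, dif_pos, dif_neg, not_false_eq_true]
        exact (hx _ (g2 _) _ (k2 _)).1
    · have hj : ¬ (j : ℕ) < la.length := by omega
      simp only [hi, hj, dif_neg, not_false_eq_true]
      refine k1 _ _ ?_
      show (i : ℕ) - la.length < (j : ℕ) - la.length
      omega
  · by_cases hi : (i : ℕ) < la.length
    · simp only [hi, dif_pos]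
      exact hb _ (g2 _)
    · simp only [hi, dif_neg, not_false_eq_true]
      exact hd _ (k2 _)
  · have hij' : (i : ℕ) < j := hij
    have hi2 := i.2
    have hj2 := j.2
    by_cases hi : (i : ℕ) < la.length
    · by_cases hj : (j : ℕ) < la.length
      · simp only [hi, hj, dif_pos]
        rw [g3 _ _ (show (⟨i, hi⟩ : Fin la.length) < ⟨j, hj⟩ from hij)]
        simp only [List.get_eq_getElem]
        rw [List.getElem_append_left hi, List.getElem_append_left hj]
      · simp only [hi, hj, dif_pos, dif_neg, not_false_eq_true]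
        have h4 := (hx _ (g2 ⟨i, hi⟩) _ (k2 ⟨(j : ℕ) - la.length, by omega⟩)).2
        unfold cl at h4
        rw [h4]
        simp only [List.get_eq_getElem]
        rw [List.getElem_append_left hi, List.getElem_append_right (by omega)]
        exact (hc _ (List.getElem_mem _) _ (List.getElem_mem _)).symm
    · have hj : ¬ (j : ℕ) < la.length := by omega
      simp only [hi, hj, dif_neg, not_false_eq_true]
      rw [k3 _ _ (show (⟨(i : ℕ) - la.length, by omega⟩ : Fin lb.length) <
        ⟨(j : ℕ) - la.length, by omega⟩ by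
          show (i : ℕ) - la.length < (j : ℕ) - la.length
          omega)]
      simp only [List.get_eq_getElem]
      rw [List.getElem_append_right (by omega), List.getElem_append_right (by omega)]

theorem exists_tree {p : List ℕ} (hp : Separable p) : ∃ q : Sp, ∀ (M : Type) [Env M]
    (f : M → M → Prop) (a : M), Cpy f q a → ∃ g : Fin p.length → M, (∀ i j, i < j → g i < g j) ∧
      (∀ i, el (g i) a) ∧ ∀ i j, i < j → (f (g i) (g j) ↔ p.get i < p.get j) := by
  induction hp with
  | one =>
    refine ⟨.pt, fun M _ f a h => ?_⟩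
    obtain ⟨x, -, rfl⟩ := h
    refine ⟨fun _ => x, fun i j hij => ?_, fun i => el_sg.2 rfl, fun i j hij => ?_⟩
    · have hi : (i : ℕ) < 1 := i.2
      have hj : (j : ℕ) < 1 := j.2
      have hij' : (i : ℕ) < j := hij
      omega
    · have hi : (i : ℕ) < 1 := i.2
      have hj : (j : ℕ) < 1 := j.2
      have hij' : (i : ℕ) < j := hij
      omega
  | @osum la lb ha hb iha ihb =>
    obtain ⟨qa, hqa⟩ := iha
    obtain ⟨qb, hqb⟩ := ihb
    refine ⟨.op true qa qb, fun M _ f a h => ?_⟩
    obtain ⟨b, hba, d, hda, -, h1, h2, h3⟩ := h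
    refine draw_app (c := true) (hqa M f b h1) (draw_shift la.length (hqb M f d h2)) hba hda h3 ?_
    intro x hx y hy
    obtain ⟨z, hz, rfl⟩ := List.mem_map.1 hy
    have h4 := ha.lt_length x hx
    simp only [iff_true]
    omega
  | @skew la lb ha hb iha ihb =>
    obtain ⟨qa, hqa⟩ := iha
    obtain ⟨qb, hqb⟩ := ihb
    refine ⟨.op false qa qb, fun M _ f a h => ?_⟩
    obtain ⟨b, hba, d, hda, -, h1, h2, h3⟩ := h
    refine draw_app (c := false) (draw_shift lb.length (hqa M f b h1)) (hqb M f d h2) hba hda h3 ?_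
    intro x hx y hy
    obtain ⟨z, hz, rfl⟩ := List.mem_map.1 hx
    have h4 := hb.lt_length y hy
    simp only [Bool.false_eq_true, iff_false]
    omega

theorem rtp_of_raw {p : List ℕ} {q : Sp}
    (hq : ∀ (M : Type) [Env M] (f : M → M → Prop) (a : M), Cpy f q a →
      ∃ g : Fin p.length → M, (∀ i j, i < j → g i < g j) ∧ (∀ i, el (g i) a) ∧
        ∀ i j, i < j → (f (g i) (g j) ↔ p.get i < p.get j)) {M : Type} [Env M]
    (h : RT22p (Arith.S (M := M)) p) : RTp M q := by
  intro f hf
  obtain ⟨F, hF, hFf⟩ := draw_set2 hf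
  obtain ⟨H, hH, hU, hR⟩ := h F hF
  refine ⟨H, ⟨mem_S_iff.1 hH, hU⟩, fun a ha hc => hR ?_⟩
  obtain ⟨g, h1, h2, h3⟩ := hq M f a hc
  refine ⟨g, h1, fun i => ha _ (h2 i), fun i j hij => ?_⟩
  rw [hFf]
  exact h3 i j hij

theorem raw_of_rtt {M : Type} [Env M] (h : RTT M) : RT22 (Arith.S (M := M)) := by
  intro F hF
  obtain ⟨H, hH, c, hc⟩ := h (fun x y => pr x y ∈ F)
    (comp_comp (fun x : M => x ∈ F) (fun q : M × M => pr q.1 q.2) (Env0.c_mem hF) comp_pr)
  refine ⟨H, mem_S_iff.2 hH.comp, hH.unb, ?_⟩
  cases c with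
  | true =>
    left
    intro x hx y hy hxy
    exact (hc x hx y hy hxy).2 rfl
  | false =>
    right
    intro x hx y hy hxy h1
    exact Bool.false_ne_true ((hc x hx y hy hxy).1 h1)

end RT22P
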