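import Pool.Agent.RTP.AInf

/-!
# A8: bounding for limits (`BΣ₂`), pigeonhole for infinite sets, stable colourings
-/

set_option autoImplicit false

namespace RT22P

open Env

variable {M : Type} [Env M]

/-- infinite pigeonhole principle -/
def RT1 (M : Type) [Env M] : Prop :=
  ∀ c : M → M, Comp M c → ∀ a : M, (∀ x, c x < a) → ∃ i, Unb {x | c x = i}

/-- `BΠ₁` bounding (a form of `BΣ₂`) -/
def BPi (M : Type) [Env M] : Prop :=
  ∀ R : M → M → Prop, Comp M (fun q : M × M => R q.1 q.2) → ∀ a : M,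
    (∀ x, x < a → ∃ b, ∀ y, b ≤ y → R x y) → ∃ b, ∀ x, x < a → ∀ y, b ≤ y → R x y

/-- `BΣ₂` from the pigeonhole principle (for every `x` let `s_x y` be the last failure of `R x` below
`y`; let `c y` be an `x < a` with `s_x y` largest) -/
theorem bpi_of_rt1 (h : RT1 M) : BPi M := by
  intro R hR a ha
  by_cases ha0 : 0 < a
  swap
  · exact ⟨0, fun x hx => absurd (lt_of_le_of_lt (zero_le' x) hx) ha0⟩
  have hc : Comp M (fun q : (M × M) × M => ∀ z, z < q.1.2 → (q.2 ≤ z → R q.1.1 z)) := by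
    refine comp_ball (fun q : (M × M) × M => q.1.2) (fun q z => q.2 ≤ z → R q.1.1 z)
      (by fun_prop) ?_
    refine comp_imp _ _ (by fun_prop) ?_
    exact comp_comp (fun q : M × M => R q.1 q.2)
      (fun q : ((M × M) × M) × M => (q.1.1.1, q.2)) hR (by fun_prop)
  obtain ⟨f, hf, hf'⟩ := search_min (M := M) (Γ := M × M)
    (P := fun v s => ∀ z, z < v.2 → (s ≤ z → R v.1 z)) hc
    (fun v => ⟨v.2, fun z hz hz' => absurd hz (not_lt.2 hz')⟩)
  have hfle : ∀ x y, f (x, y) ≤ y := by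
    intro x y
    by_contra hcon
    exact (hf' (x, y)).2 y (not_le.1 hcon) fun z hz hz' => absurd hz (not_lt.2 hz')
  have hcomp : Comp M (fun q : M × M => q.2 < a ∧ ∀ x', x' < a → f (x', q.1) ≤ f (q.2, q.1)) := by
    refine comp_and _ _ (by fun_prop) ?_
    refine comp_ball (fun _ : M × M => a) (fun q x' => f (x', q.1) ≤ f (q.2, q.1))
      (by fun_prop) ?_
    refine comp_le _ _ ?_ ?_
    · exact comp_comp f (fun q : (M × M) × M => (q.2, q.1.1)) hf (by fun_prop)
    · exact comp_comp f (fun q : (M × M) × M => (q.1.2, q.1.1)) hf (by fun_prop)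
  obtain ⟨c, hc1, hc2⟩ := search (M := M) (Γ := M) (Δ := M)
    (P := fun y x => x < a ∧ ∀ x', x' < a → f (x', y) ≤ f (x, y)) (sig_of_comp hcomp) (by
      intro y
      have hg : Comp M (fun m : M => ∃ x, x < a ∧ f (x, y) = m) := by
        refine comp_bex (fun _ : M => a) (fun m x => f (x, y) = m) (by fun_prop) ?_
        refine comp_eq _ _ ?_ (by fun_prop)
        exact comp_comp f (fun q : M × M => (q.2, y)) hf (by fun_prop)
      obtain ⟨m, ⟨x, hx, hxm⟩, hmax⟩ := greatestC hg ⟨f (0, y), 0, ha0, rfl⟩ (y + 1) (by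
        rintro m ⟨x, _, hxm⟩
        rw [← hxm]
        exact lt_succ.2 (hfle x y))
      refine ⟨x, hx, fun x' hx' => ?_⟩
      rw [hxm]
      exact hmax _ ⟨x', hx', rfl⟩)
  obtain ⟨i, hi⟩ := h c hc1 a fun y => (hc2 y).1
  have hia : i < a := by
    obtain ⟨y, hy, _⟩ := hi 0
    rw [← hy]
    exact (hc2 y).1
  obtain ⟨b, hb⟩ := ha i hia
  refine ⟨b, fun x hx z hz => ?_⟩
  obtain ⟨y, hy, hzy⟩ := hi z
  have hy' : c y = i := hy
  have h1 : f (i, y) ≤ b := by
    by_contra hcon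
    exact (hf' (i, y)).2 b (not_le.1 hcon) fun z' _ hz' => hb z' hz'
  have h2 : f (x, y) ≤ b := by
    have h3 := (hc2 y).2 x hx
    rw [hy'] at h3
    exact le_trans h3 h1
  exact (hf' (x, y)).1 z hzy (le_trans h2 hz)

theorem rt1_of_bpi (h : BPi M) : RT1 M := by
  intro c hc a hca
  by_contra hcon
  have h1 : ∀ i, i < a → ∃ b, ∀ y, b ≤ y → ¬ c y = i := by
    intro i _
    by_contra h2
    refine hcon ⟨i, fun b => ?_⟩
    by_contra h3
    refine h2 ⟨b + 1, fun y hy hyi => ?_⟩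
    exact h3 ⟨y, hyi, lt_of_lt_of_le (lt_self_succ b) hy⟩
  obtain ⟨b, hb⟩ := h (fun i y => ¬ c y = i)
    (comp_not _ (comp_eq _ _ (comp_comp c (fun q : M × M => q.2) hc (by fun_prop)) (by fun_prop)))
    a h1
  exact hb (c b) (hca b) b le_rfl rfl

/-- pigeonhole on an infinite set -/
theorem BPi.rt1_on (h : BPi M) {X : Set M} (hX : IS X) {c : M → M} (hc : Comp M c) {a : M}
    (hca : ∀ x ∈ X, c x < a) : ∃ i, i < a ∧ IS {x | x ∈ X ∧ c x = i} := by
  obtain ⟨e, he, _, hid, heX, _⟩ := enum hX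
  obtain ⟨i, hi⟩ := rt1_of_bpi h (fun n => c (e n)) (comp_comp c e hc he) a
    fun n => hca _ (heX n)
  refine ⟨i, ?_, ?_, ?_⟩
  · obtain ⟨n, hn, _⟩ := hi 0
    have hn' : c (e n) = i := hn
    rw [← hn']
    exact hca _ (heX n)
  · exact comp_and _ _ hX.comp (comp_eq _ _ hc (comp_const i))
  · intro b
    obtain ⟨n, hn, hbn⟩ := hi b
    exact ⟨e n, ⟨heX n, hn⟩, lt_of_lt_of_le hbn (hid n)⟩

/-- finitely many limits settle: bounded version for the elements of a finite set -/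
theorem BPi.settle (h : BPi M) {R : M → M → Prop} (hR : Comp M (fun q : M × M => R q.1 q.2))
    (a : M) (ha : ∀ x, el x a → ∃ b, ∀ y, b ≤ y → R x y) :
    ∃ b, ∀ x, el x a → ∀ y, b ≤ y → R x y := by
  obtain ⟨b, hb⟩ := h (fun x y => el x a → R x y) (comp_imp _ _ (by fun_prop) hR) a (by
    intro x _
    by_cases hx : el x a
    · obtain ⟨b, hb⟩ := ha x hx
      exact ⟨b, fun y hy _ => hb y hy⟩
    · exact ⟨0, fun y _ hx' => absurd hx' hx⟩)
  exact ⟨b, fun x hx y hy => hb x (el_lt hx) y hy hx⟩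

/-- the same along an infinite set -/
theorem BPi.settle_on (h : BPi M) {X : Set M} (hX : IS X) {R : M → M → Prop}
    (hR : Comp M (fun q : M × M => R q.1 q.2)) (a : M)
    (ha : ∀ x, el x a → ∃ b, ∀ y ∈ X, b ≤ y → R x y) :
    ∃ b, ∀ x, el x a → ∀ y ∈ X, b ≤ y → R x y := by
  obtain ⟨b, hb⟩ := BPi.settle h (R := fun x y => y ∈ X → R x y)
    (comp_imp _ _ (comp_comp (fun x : M => x ∈ X) (fun q : M × M => q.2) hX.comp (by fun_prop)) hR)
    a (fun x hx => by
      obtain ⟨b, hb⟩ := ha x hx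
      exact ⟨b, fun y hy hyX => hb y hyX hy⟩)
  exact ⟨b, fun x hx y hyX hy => hb x hx y hy hyX⟩

/-- (F4): if every point of `Z` sees `R` to all far points of `Z` there is an infinite subset on
which `R` holds for all pairs -/
theorem BPi.homog (h : BPi M) {Z : Set M} (hZ : IS Z) {R : M → M → Prop}
    (hR : Comp M (fun q : M × M => R q.1 q.2)) (hl : ∀ x ∈ Z, ∃ b, ∀ y ∈ Z, b ≤ y → R x y) :
    ∃ Y : Set M, IS Y ∧ Y ⊆ Z ∧ ∀ x ∈ Y, ∀ y ∈ Y, x < y → R x y := by
  refine greedy2 hZ hR fun a ha b => ?_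
  obtain ⟨b', hb'⟩ := BPi.settle_on h hZ hR a fun x hx => hl x (ha x hx)
  obtain ⟨y, hy, hby⟩ := hZ.unb (b + b')
  refine ⟨y, hy, lt_of_le_of_lt le_self_add hby, fun x hx => hb' x hx y hy ?_⟩
  exact le_trans le_add_self hby.le

/-- limits of functions with finitely many uniformly bounded arguments: if `T x y` is eventually
constant for all `x < a` then there is a common stage -/
theorem BPi.stab (h : BPi M) {T : M → M → M} (hT : Comp M (fun q : M × M => T q.1 q.2)) (a : M)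
    (ha : ∀ x, x < a → ∃ b, ∀ y, b ≤ y → T x y = T x b) :
    ∃ b, ∀ x, x < a → ∀ y, b ≤ y → T x y = T x b := by
  obtain ⟨b, hb⟩ := h (fun x y => T x (y + 1) = T x y)
    (comp_eq _ _ (comp_comp (fun q : M × M => T q.1 q.2) (fun q : M × M => (q.1, q.2 + 1)) hT
      (by fun_prop)) hT) a (by
    intro x hx
    obtain ⟨b, hb⟩ := ha x hx
    refine ⟨b, fun y hy => ?_⟩
    rw [hb y hy, hb (y + 1) (le_trans hy (lt_self_succ y).le)])
  refine ⟨b, fun x hx => ?_⟩
  have hTx : Comp M (fun y : M => T x y) :=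
    comp_comp (fun q : M × M => T q.1 q.2) (fun y : M => (x, y)) hT (by fun_prop)
  refine cind (P := fun y => b ≤ y → T x y = T x b)
    (comp_imp _ _ (by fun_prop) (comp_eq _ _ hTx (comp_const _))) ?_ ?_
  · intro h0
    rw [le_antisymm h0 (zero_le' b)]
  · intro y ih hy
    rcases lt_or_eq_of_le hy with h2 | h2
    · have h3 : b ≤ y := lt_succ.1 h2
      rw [hb x hx y h3, ih h3]
    · rw [← h2]

/-! ### colourings -/

/-- `f` has the colour `c` on the pair `(x, y)` -/
def cl (f : M → M → Prop) (c : Bool) (x y : M) : Prop := f x y ↔ c = true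

/-- the limit colour of `x` along `X` is `c` -/
def Lim (f : M → M → Prop) (X : Set M) (c : Bool) (x : M) : Prop :=
  ∃ b, ∀ y ∈ X, b ≤ y → cl f c x y

/-- `f` is stable on `X` -/
def Stab (f : M → M → Prop) (X : Set M) : Prop := ∀ x ∈ X, ∃ c, Lim f X c x

/-- `f` is bad on `X`: stable, and no infinite subset of `X` has constant limit colour -/
structure Bad (f : M → M → Prop) (X : Set M) : Prop where
  comp : Comp M (fun q : M × M => f q.1 q.2)
  is : IS X
  stab : Stab f X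
  bad : ∀ Y : Set M, IS Y → Y ⊆ X → ∀ c, ¬ ∀ x ∈ Y, Lim f X c x

theorem Lim.mono {f : M → M → Prop} {X Y : Set M} {c : Bool} {x : M} (h : Lim f X c x)
    (hY : Y ⊆ X) : Lim f Y c x := by
  obtain ⟨b, hb⟩ := h
  exact ⟨b, fun y hy hby => hb y (hY hy) hby⟩

theorem Lim.unique {f : M → M → Prop} {X : Set M} (hX : IS X) {c d : Bool} {x : M}
    (h : Lim f X c x) (h' : Lim f X d x) : c = d := by
  obtain ⟨b, hb⟩ := h
  obtain ⟨b', hb'⟩ := h'
  obtain ⟨y, hy, hby⟩ := hX.unb (b + b')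
  have h1 : cl f c x y := hb y hy (le_trans le_self_add hby.le)
  have h2 : cl f d x y := hb' y hy (le_trans le_add_self hby.le)
  unfold cl at h1 h2
  have h3 : c = true ↔ d = true := h1.symm.trans h2
  cases c <;> cases d <;> simp_all

/-- passing to an infinite subset does not change the limit colours -/
theorem Lim.sub {f : M → M → Prop} {X Y : Set M} (hY : IS Y) (hYX : Y ⊆ X) (hf : Stab f X)
    {c : Bool} {x : M} (hx : x ∈ X) : Lim f Y c x ↔ Lim f X c x := by
  refine ⟨fun h => ?_, fun h => h.mono hYX⟩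
  obtain ⟨d, hd⟩ := hf x hx
  rw [Lim.unique hY h (hd.mono hYX)]
  exact hd

theorem Bad.mono {f : M → M → Prop} {X Y : Set M} (h : Bad f X) (hY : IS Y) (hYX : Y ⊆ X) :
    Bad f Y := by
  refine ⟨h.comp, hY, fun x hx => ?_, fun Z hZ hZY c hc => ?_⟩
  · obtain ⟨c, hc⟩ := h.stab x (hYX hx)
    exact ⟨c, hc.mono hYX⟩
  · exact h.bad Z hZ (hZY.trans hYX) c fun x hx =>
      (Lim.sub hY hYX h.stab (hYX (hZY hx))).1 (hc x hx)

private theorem abnd_not {f : M → M → Prop} {X : Set M} {c : Bool} {x : M} :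
    Lim (fun x y => ¬ f x y) X c x ↔ Lim f X (!c) x := by
  have h : ∀ y, cl (fun x y => ¬ f x y) c x y ↔ cl f (!c) x y := by
    intro y
    unfold cl
    cases c <;> simp
  unfold Lim
  exact exists_congr fun b => forall_congr' fun y => imp_congr_right fun _ =>
    imp_congr_right fun _ => h y

theorem Bad.not {f : M → M → Prop} {X : Set M} (h : Bad f X) : Bad (fun x y => ¬ f x y) X := by
  refine ⟨comp_not _ h.comp, h.is, fun x hx => ?_, fun Y hY hYX c hc => ?_⟩
  · obtain ⟨c, hc⟩ := h.stab x hx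
    refine ⟨!c, abnd_not.2 ?_⟩
    rw [Bool.not_not]
    exact hc
  · exact h.bad Y hY hYX (!c) fun x hx => abnd_not.1 (hc x hx)

theorem comp_cl {f : M → M → Prop} (hf : Comp M (fun q : M × M => f q.1 q.2)) (c : Bool) :
    Comp M (fun q : M × M => cl f c q.1 q.2) :=
  comp_iff _ _ hf (comp_constP _)

/-- every infinite subset of `X` has a point of each limit colour -/
theorem Bad.ex {f : M → M → Prop} {X Y : Set M} (h : Bad f X) (hY : IS Y) (hYX : Y ⊆ X)
    (c : Bool) : ∃ x ∈ Y, Lim f X c x := by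
  by_contra hcon
  refine h.bad Y hY hYX (!c) fun x hx => ?_
  obtain ⟨d, hd⟩ := h.stab x (hYX hx)
  by_cases hdc : d = c
  · rw [hdc] at hd
    exact absurd ⟨x, hx, hd⟩ hcon
  · have : d = !c := by
      cases c <;> cases d <;> simp_all
    rw [← this]
    exact hd

end RT22P
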