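import Pool.Agent.RTP.AFin

/-!
# A5: cardinality, enumeration of finite sets, pigeonhole (over `Env`)

`exists_card`: count by primitive recursion on a bound.  Everything else by `find_max` (induction for
finite sets by adding a new largest element) or from the recursion.
-/

set_option autoImplicit false

namespace RT22P

open Env

variable {M : Type} [Env M] {Γ Δ Θ : Type} [Enc M Γ] [Enc M Δ] [Enc M Θ]

theorem exists_card (M : Type) [Env M] : ∃ card : M → M, Comp M card ∧ card (emp M) = 0 ∧
    ∀ a x : M, ¬ el x a → card (un a (sg x)) = card a + 1 := by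
  classical
  obtain ⟨N, hN, hN0, hN1⟩ := prec (M := M) (Γ := M) (Δ := M) (g := fun _ => (0 : M))
    (h := fun v n u => if el n v then u + 1 else u) (comp_const _)
    (comp_ite (P := fun q : M × M × M => el q.2.1 q.1) (by fun_prop) (by fun_prop)
      (by fun_prop))
  have hNc : ∀ a : M, Comp M (fun n : M => N a n) := fun a =>
    comp_comp (fun q : M × M => N q.1 q.2) (fun n : M => (a, n)) hN (by fun_prop)
  have hst : ∀ a n : M, a ≤ n → N a n = N a a := by
    intro a
    refine cind (P := fun n => a ≤ n → N a n = N a a) ?_ ?_ ?_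
    · exact comp_imp _ _ (by fun_prop) (comp_eq _ _ (hNc a) (comp_const _))
    · intro h
      have h0 : a = 0 := le_antisymm h (zero_le' a)
      rw [h0]
    · intro n ih h
      rcases lt_or_eq_of_le h with h2 | h2
      · have h3 : a ≤ n := lt_succ.1 h2
        have h4 : ¬ el n a := fun hn => absurd (el_lt hn) (not_lt.2 h3)
        rw [hN1, if_neg h4, ih h3]
      · rw [← h2]
  refine ⟨fun a => N a a, ?_, ?_, ?_⟩
  · exact comp_comp (fun q : M × M => N q.1 q.2) (fun a : M => (a, a)) hN (by fun_prop)
  · have h : ∀ n, N (emp M) n = 0 := by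
      refine cind (P := fun n => N (emp M) n = 0) (comp_eq _ _ (hNc _) (comp_const _)) (hN0 _) ?_
      intro n ih
      rw [hN1, if_neg el_emp, ih]
    exact h _
  · intro a x hx
    have h : ∀ n, (x < n → N (un a (sg x)) n = N a n + 1) ∧
        (n ≤ x → N (un a (sg x)) n = N a n) := by
      refine cind (P := fun n => (x < n → N (un a (sg x)) n = N a n + 1) ∧
        (n ≤ x → N (un a (sg x)) n = N a n)) ?_ ?_ ?_
      · refine comp_and _ _ (comp_imp _ _ (by fun_prop) ?_) (comp_imp _ _ (by fun_prop) ?_)
        · exact comp_eq _ _ (hNc _) (comp_add _ _ (hNc a) (comp_const 1))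
        · exact comp_eq _ _ (hNc _) (hNc a)
      · exact ⟨fun h => absurd h (not_lt_zero' x), fun _ => by rw [hN0, hN0]⟩
      · intro n ih
        rw [hN1, hN1]
        by_cases hnx : n = x
        · subst hnx
          rw [if_pos (el_un.2 (Or.inr (el_sg.2 rfl))), if_neg hx]
          exact ⟨fun _ => by rw [ih.2 le_rfl],
            fun h => absurd (lt_self_succ n) (not_lt.2 h)⟩
        · have he : el n (un a (sg x)) ↔ el n a := by
            rw [el_un, el_sg]
            exact ⟨fun h => h.resolve_right hnx, fun h => Or.inl h⟩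
          constructor
          · intro h
            have h2 : x < n := lt_of_le_of_ne (lt_succ.1 h) fun h => hnx h.symm
            by_cases hn : el n a
            · rw [if_pos (he.2 hn), if_pos hn, ih.1 h2]
            · rw [if_neg (fun h => hn (he.1 h)), if_neg hn, ih.1 h2]
          · intro h
            have h2 : n ≤ x := le_trans (lt_self_succ n).le h
            by_cases hn : el n a
            · rw [if_pos (he.2 hn), if_pos hn, ih.2 h2]
            · rw [if_neg (fun h => hn (he.1 h)), if_neg hn, ih.2 h2]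
    have h1 : x < un a (sg x) + a := by
      refine lt_of_lt_of_le (el_lt (el_un.2 (Or.inr (el_sg.2 rfl)))) le_self_add
    show N (un a (sg x)) (un a (sg x)) = N a a + 1
    rw [← hst (un a (sg x)) (un a (sg x) + a) le_self_add, (h _).1 h1,
      hst a (un a (sg x) + a) le_add_self]

/-- number of elements -/
noncomputable def card (a : M) : M := (exists_card M).choose a

@[fun_prop] theorem comp_card (f : Γ → M) (hf : Comp M f) : Comp M (fun x => card (f x)) :=
  comp_comp (fun a : M => (exists_card M).choose a) f (exists_card M).choose_spec.1 hf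

theorem card_emp : card (emp M) = 0 := (exists_card M).choose_spec.2.1

theorem card_ins {a x : M} (h : ¬ el x a) : card (un a (sg x)) = card a + 1 :=
  (exists_card M).choose_spec.2.2 a x h

private theorem acard_empty {a : M} (h : ∀ x, ¬ el x a) : a = emp M :=
  fext fun x => ⟨fun hx => absurd hx (h x), fun hx => absurd hx el_emp⟩

private theorem acard_del {a x : M} (h : el x a) : card (sdf a (sg x)) + 1 = card a := by
  have h1 : ¬ el x (sdf a (sg x)) := fun hx => (el_sdf.1 hx).2 (el_sg.2 rfl)
  rw [← card_ins h1]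
  refine congrArg _ (fext fun y => ?_)
  rw [el_un, el_sdf, el_sg]
  refine ⟨fun hy => ?_, fun hy => ?_⟩
  · rcases hy with hy | hy
    · exact hy.1
    · rw [hy]; exact h
  · by_cases hyx : y = x
    · exact Or.inr hyx
    · exact Or.inl ⟨hy, hyx⟩

theorem card_sg (x : M) : card (sg x) = 1 := by
  have h : sg x = un (emp M) (sg x) := fext fun y => by
    rw [el_un]
    exact ⟨fun hy => Or.inr hy, fun hy => hy.resolve_left el_emp⟩
  rw [h, card_ins el_emp, card_emp, zero_add]

theorem card_eq_zero {a : M} : card a = 0 ↔ ∀ x, ¬ el x a := by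
  refine ⟨fun h x hx => ?_, fun h => ?_⟩
  · have h1 := acard_del hx
    rw [h] at h1
    exact absurd h1 (ne_of_gt (lt_of_le_of_lt (zero_le' _) (lt_self_succ _)))
  · rw [acard_empty h, card_emp]

theorem card_pos {a : M} : 0 < card a ↔ ∃ x, el x a := by
  rw [pos_iff, ne_eq, card_eq_zero]
  push Not
  rfl

theorem card_mono {a b : M} (h : Sub a b) : card a ≤ card b := by
  have key : ∀ b : M, ∀ a, Sub a b → card a ≤ card b := by
    refine find_max (P := fun b => ∀ a, Sub a b → card a ≤ card b) (by fun_prop) ?_ ?_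
    · intro a ha
      rw [acard_empty fun x hx => el_emp (ha x hx)]
    · intro b x ih hx a ha
      have hxb : ¬ el x b := fun h => lt_irrefl x (hx x h)
      rw [card_ins hxb]
      by_cases hxa : el x a
      · rw [← acard_del hxa]
        refine add_le_add_left (ih _ fun y hy => ?_) 1
        obtain ⟨h1, h2⟩ := el_sdf.1 hy
        rcases el_un.1 (ha y h1) with h3 | h3
        · exact h3
        · exact absurd h3 h2
      · refine le_trans (ih a fun y hy => ?_) (lt_self_succ _).le
        rcases el_un.1 (ha y hy) with h3 | h3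
        · exact h3
        · rw [el_sg] at h3
          rw [h3] at hy
          exact absurd hy hxa
  exact key b a h

theorem card_eq_of_sub {a b : M} (h : Sub a b) (h' : card b ≤ card a) : a = b := by
  refine h.antisymm fun x hx => ?_
  by_contra hxa
  have h1 : Sub (un a (sg x)) b := by
    intro y hy
    rcases el_un.1 hy with hy | hy
    · exact h y hy
    · rw [el_sg.1 hy]; exact hx
  have h2 := card_mono h1
  rw [card_ins hxa] at h2
  exact absurd (lt_self_succ (card a)) (not_lt.2 (le_trans h2 h'))

theorem card_un_eq {a b : M} (h : ∀ x, el x a → ¬ el x b) : card (un a b) = card a + card b := by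
  have key : ∀ b : M, (∀ x, el x a → ¬ el x b) → card (un a b) = card a + card b := by
    refine find_max (P := fun b => (∀ x, el x a → ¬ el x b) →
      card (un a b) = card a + card b) (by fun_prop) ?_ ?_
    · intro _
      have h1 : un a (emp M) = a := fext fun y => by
        rw [el_un]
        exact ⟨fun hy => hy.resolve_right el_emp, fun hy => Or.inl hy⟩
      rw [h1, card_emp, add_zero]
    · intro b x ih hx hd
      have hxb : ¬ el x b := fun h => lt_irrefl x (hx x h)
      have hxa : ¬ el x a := fun h => hd x h (el_un.2 (Or.inr (el_sg.2 rfl)))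
      have h1 : un a (un b (sg x)) = un (un a b) (sg x) := fext fun y => by
        rw [el_un, el_un, el_un, el_un, or_assoc]
      have h2 : ¬ el x (un a b) := fun h => by
        rcases el_un.1 h with h | h
        · exact hxa h
        · exact hxb h
      rw [h1, card_ins h2, card_ins hxb, ih fun y hy hyb => hd y hy (el_un.2 (Or.inl hyb)),
        add_assoc]
  exact key b h

theorem card_un_le (a b : M) : card (un a b) ≤ card a + card b := by
  have h1 : un a b = un a (sdf b a) := fext fun y => by
    rw [el_un, el_un, el_sdf]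
    refine ⟨fun hy => ?_, fun hy => ?_⟩
    · by_cases hya : el y a
      · exact Or.inl hya
      · exact Or.inr ⟨hy.resolve_left hya, hya⟩
    · rcases hy with hy | hy
      · exact Or.inl hy
      · exact Or.inr hy.1
  rw [h1, card_un_eq fun x hx hx' => (el_sdf.1 hx').2 hx]
  exact add_le_add_right (card_mono fun y hy => (el_sdf.1 hy).1) _

theorem card_sdf {a b : M} (h : Sub b a) : card (sdf a b) + card b = card a := by
  rw [← card_un_eq fun x hx => (el_sdf.1 hx).2]
  refine congrArg _ (fext fun y => ?_)
  rw [el_un, el_sdf]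
  refine ⟨fun hy => ?_, fun hy => ?_⟩
  · rcases hy with hy | hy
    · exact hy.1
    · exact h y hy
  · by_cases hyb : el y b
    · exact Or.inr hyb
    · exact Or.inl ⟨hy, hyb⟩

theorem card_ivl {b c : M} (h : b ≤ c) : card (ivl b c) + b = c := by
  have key : ∀ c : M, b ≤ c → card (ivl b c) + b = c := by
    refine cind (P := fun c => b ≤ c → card (ivl b c) + b = c) (by fun_prop) ?_ ?_
    · intro h
      have hb : b = 0 := le_antisymm h (zero_le' b)
      have he : ivl b 0 = emp M := acard_empty fun x hx => not_lt_zero' x (el_ivl.1 hx).2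
      rw [he, card_emp, hb, add_zero]
    · intro c ih h
      rcases lt_or_eq_of_le h with h2 | h2
      · have h3 : b ≤ c := lt_succ.1 h2
        have he : ivl b (c + 1) = un (ivl b c) (sg c) := fext fun y => by
          rw [el_un, el_ivl, el_ivl, el_sg]
          refine ⟨fun hy => ?_, fun hy => ?_⟩
          · rcases lt_or_eq_of_le (lt_succ.1 hy.2) with h4 | h4
            · exact Or.inl ⟨hy.1, h4⟩
            · exact Or.inr h4
          · rcases hy with hy | hy
            · exact ⟨hy.1, lt_trans hy.2 (lt_self_succ c)⟩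
            · rw [hy]; exact ⟨h3, lt_self_succ c⟩
        have hn : ¬ el c (ivl b c) := fun hx => lt_irrefl c (el_ivl.1 hx).2
        rw [he, card_ins hn, add_right_comm, ih h3]
      · have he : ivl b (c + 1) = emp M := by
          refine acard_empty fun x hx => ?_
          obtain ⟨h3, h4⟩ := el_ivl.1 hx
          rw [← h2] at h4
          exact absurd h4 (not_lt.2 h3)
        rw [he, card_emp, zero_add, h2]
  exact key c h

/-- a finite set of `card` one -/
theorem card_eq_one {a : M} : card a = 1 ↔ ∃ x, a = sg x := by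
  refine ⟨fun h => ?_, fun ⟨x, hx⟩ => by rw [hx, card_sg]⟩
  have h1 : 0 < card a := by
    rw [h, pos_iff]
    exact one_ne_zero
  obtain ⟨x, hx⟩ := card_pos.1 h1
  refine ⟨x, ?_⟩
  have h2 := acard_del hx
  rw [h] at h2
  have h3 : card (sdf a (sg x)) = 0 := by
    by_contra h4
    have h5 : 0 + 1 < card (sdf a (sg x)) + 1 := add_lt_add_left (pos_iff.2 h4) 1
    rw [h2, zero_add] at h5
    exact lt_irrefl _ h5
  rw [card_eq_zero] at h3
  refine fext fun y => ⟨fun hy => ?_, fun hy => ?_⟩
  · by_contra hyx
    exact h3 y (el_sdf.2 ⟨hy, hyx⟩)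
  · rw [el_sg.1 hy]; exact hx

private theorem acard_blw_self (a : M) : blw a a = a := fext fun x => by
  rw [el_blw]
  exact ⟨fun h => h.1, fun h => ⟨h, el_lt h⟩⟩

private theorem acard_blw_zero (a : M) : blw a 0 = emp M :=
  acard_empty fun x hx => not_lt_zero' x (el_blw.1 hx).2

private theorem acard_blw_succ_pos {a b : M} (h : el b a) :
    card (blw a (b + 1)) = card (blw a b) + 1 := by
  have h1 : ¬ el b (blw a b) := fun hx => lt_irrefl b (el_blw.1 hx).2
  rw [← card_ins h1]
  refine congrArg _ (fext fun y => ?_)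
  rw [el_un, el_blw, el_blw, el_sg]
  refine ⟨fun hy => ?_, fun hy => ?_⟩
  · rcases lt_or_eq_of_le (lt_succ.1 hy.2) with h4 | h4
    · exact Or.inl ⟨hy.1, h4⟩
    · exact Or.inr h4
  · rcases hy with hy | hy
    · exact ⟨hy.1, lt_trans hy.2 (lt_self_succ b)⟩
    · rw [hy]; exact ⟨h, lt_self_succ b⟩

private theorem acard_blw_succ_neg {a b : M} (h : ¬ el b a) :
    blw a (b + 1) = blw a b := fext fun y => by
  rw [el_blw, el_blw]
  refine ⟨fun hy => ⟨hy.1, ?_⟩, fun hy => ⟨hy.1, lt_trans hy.2 (lt_self_succ b)⟩⟩
  rcases lt_or_eq_of_le (lt_succ.1 hy.2) with h4 | h4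
  · exact h4
  · rw [h4] at hy
    exact absurd hy.1 h

/-- the element number `k` -/
private theorem acard_pos_elt {a k : M} (h : k < card a) :
    ∃ x, el x a ∧ card (blw a x) = k := by
  obtain ⟨b, hb, hmin⟩ := leastC (P := fun b => k < card (blw a b)) (by fun_prop)
    ⟨a, by rw [acard_blw_self]; exact h⟩
  rcases zero_or_succ b with h0 | ⟨x, hx⟩
  · rw [h0, acard_blw_zero, card_emp] at hb
    exact absurd hb (not_lt_zero' k)
  · have h1 : card (blw a x) ≤ k := not_lt.1 (hmin x (by rw [hx]; exact lt_self_succ x))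
    rw [hx] at hb
    by_cases hxa : el x a
    · rw [acard_blw_succ_pos hxa] at hb
      exact ⟨x, hxa, le_antisymm h1 (lt_succ.1 hb)⟩
    · rw [acard_blw_succ_neg hxa] at hb
      exact absurd hb (not_lt.2 h1)

/-- initial segments of all sizes -/
theorem exists_blw_card {a k : M} (h : k ≤ card a) : ∃ b, card (blw a b) = k := by
  rcases lt_or_eq_of_le h with h1 | h1
  · obtain ⟨x, _, hx⟩ := acard_pos_elt h1
    exact ⟨x, hx⟩
  · exact ⟨a, by rw [acard_blw_self, h1]⟩

theorem exists_sub_card {a k : M} (h : k ≤ card a) : ∃ b, Sub b a ∧ card b = k := by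
  obtain ⟨b, hb⟩ := exists_blw_card h
  exact ⟨blw a b, fun x hx => (el_blw.1 hx).1, hb⟩

/-- the increasing enumeration `nth a i`, `i < card a` -/
theorem exists_nth (M : Type) [Env M] : ∃ nth : M → M → M,
    Comp M (fun q : M × M => nth q.1 q.2) ∧
    (∀ a i : M, i < card a → el (nth a i) a ∧ card (blw a (nth a i)) = i) := by
  obtain ⟨f, hf, hf'⟩ := search (M := M) (Γ := M × M) (Δ := M)
    (P := fun v x => v.2 < card v.1 → (el x v.1 ∧ card (blw v.1 x) = v.2))
    (sig_of_comp (by fun_prop)) (fun v => by
      by_cases h : v.2 < card v.1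
      · obtain ⟨x, h1, h2⟩ := acard_pos_elt h
        exact ⟨x, fun _ => ⟨h1, h2⟩⟩
      · exact ⟨0, fun h' => absurd h' h⟩)
  exact ⟨fun a i => f (a, i), hf, fun a i h => hf' (a, i) h⟩

/-- the `i`-th element of `a` (in increasing order, `i < card a`) -/
noncomputable def nth (a i : M) : M := (exists_nth M).choose a i

@[fun_prop] theorem comp_nth (f g : Γ → M) (hf : Comp M f) (hg : Comp M g) :
    Comp M (fun x => nth (f x) (g x)) :=
  comp_comp (fun q : M × M => (exists_nth M).choose q.1 q.2) (fun x => (f x, g x))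
    (exists_nth M).choose_spec.1 (comp_prod _ _ hf hg)

theorem el_nth {a i : M} (h : i < card a) : el (nth a i) a :=
  ((exists_nth M).choose_spec.2 a i h).1

theorem card_blw_nth {a i : M} (h : i < card a) : card (blw a (nth a i)) = i :=
  ((exists_nth M).choose_spec.2 a i h).2

theorem nth_lt {a i j : M} (hij : i < j) (hj : j < card a) : nth a i < nth a j := by
  by_contra hcon
  have h1 : nth a j ≤ nth a i := not_lt.1 hcon
  have h2 : Sub (blw a (nth a j)) (blw a (nth a i)) := fun x hx =>
    el_blw.2 ⟨(el_blw.1 hx).1, lt_of_lt_of_le (el_blw.1 hx).2 h1⟩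
  have h3 := card_mono h2
  rw [card_blw_nth hj, card_blw_nth (lt_trans hij hj)] at h3
  exact absurd hij (not_lt.2 h3)

theorem nth_inj {a i j : M} (hi : i < card a) (hj : j < card a) (h : nth a i = nth a j) :
    i = j := by
  rw [← card_blw_nth hi, ← card_blw_nth hj, h]

private theorem acard_blw_lt {a x y : M} (hx : el x a) (hxy : x < y) :
    card (blw a x) < card (blw a y) := by
  have h1 : ¬ el x (blw a x) := fun h => lt_irrefl x (el_blw.1 h).2
  have h2 : Sub (un (blw a x) (sg x)) (blw a y) := by
    intro z hz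
    rcases el_un.1 hz with hz | hz
    · exact el_blw.2 ⟨(el_blw.1 hz).1, lt_trans (el_blw.1 hz).2 hxy⟩
    · rw [el_sg.1 hz]; exact el_blw.2 ⟨hx, hxy⟩
  have h3 := card_mono h2
  rw [card_ins h1] at h3
  exact lt_of_lt_of_le (lt_self_succ _) h3

/-- the position of an element -/
theorem nth_pos {a x : M} (h : el x a) : card (blw a x) < card a ∧ nth a (card (blw a x)) = x := by
  have h1 : card (blw a x) < card a := by
    have h2 := acard_blw_lt h (el_lt h)
    rwa [acard_blw_self] at h2
  refine ⟨h1, ?_⟩
  have h2 := card_blw_nth h1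
  have h3 := el_nth h1
  rcases lt_trichotomy (nth a (card (blw a x))) x with h4 | h4 | h4
  · exact absurd h2 (ne_of_lt (acard_blw_lt h3 h4))
  · exact h4
  · exact absurd h2 (ne_of_gt (acard_blw_lt h h4))

theorem exists_nth_eq {a x : M} (h : el x a) : ∃ i, i < card a ∧ nth a i = x :=
  ⟨_, (nth_pos h).1, (nth_pos h).2⟩

/-- a finite set with `card a` at least the number of elements of an image: injective functions -/
theorem card_le_of_inj {f : M → M} (hf : Comp M f) {a b : M} (h : ∀ x, el x a → el (f x) b)
    (hi : ∀ x y, el x a → el y a → f x = f y → x = y) : card a ≤ card b := by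
  have hc : Comp M (fun c : M => Sub c a → ∀ d, Sub d b → ((∀ x, el x c → el (f x) d) →
      card c ≤ card d)) := by
    refine comp_imp _ _ (by fun_prop) ?_
    refine comp_allsub (fun _ : M => b) (fun c d => (∀ x, el x c → el (f x) d) →
      card c ≤ card d) (by fun_prop) ?_
    refine comp_imp _ _ ?_ (by fun_prop)
    exact comp_allel (fun q : M × M => q.1) (fun q x => el (f x) q.2) (by fun_prop)
      (by fun_prop)
  have key : ∀ c : M, Sub c a → ∀ d, Sub d b → ((∀ x, el x c → el (f x) d) →
      card c ≤ card d) := by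
    refine find_max hc ?_ ?_
    · intro _ d _ _
      rw [card_emp]
      exact zero_le' _
    · intro c x ih hx hca d hdb hd
      have hxc : ¬ el x c := fun h => lt_irrefl x (hx x h)
      have hfx : el (f x) d := hd x (el_un.2 (Or.inr (el_sg.2 rfl)))
      rw [card_ins hxc, ← acard_del hfx]
      refine add_le_add_left (ih (fun y hy => hca y (el_un.2 (Or.inl hy))) _
        (fun y hy => hdb y (el_sdf.1 hy).1) ?_) 1
      intro y hy
      refine el_sdf.2 ⟨hd y (el_un.2 (Or.inl hy)), fun hs => ?_⟩
      have h1 := hi y x (hca y (el_un.2 (Or.inl hy))) (hca x (el_un.2 (Or.inr (el_sg.2 rfl))))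
        (el_sg.1 hs)
      rw [h1] at hy
      exact hxc hy
  exact key a (Sub.refl a) b (Sub.refl b) h

/-- the image of a finite set -/
theorem exists_image {f : M → M} (hf : Comp M f) (a : M) :
    ∃ b, (∀ y, el y b ↔ ∃ x, el x a ∧ f x = y) ∧ card b ≤ card a := by
  obtain ⟨w, hw⟩ := sbd (P := fun x y => f x = y) (sig_of_comp (by fun_prop)) a
    (fun x _ => ⟨f x, rfl⟩)
  obtain ⟨b, hb⟩ := exists_code (P := fun y => ∃ x, el x a ∧ f x = y)
    (comp_exel (fun _ : M => a) (fun y x => f x = y) (by fun_prop) (by fun_prop)) w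
  have hb' : ∀ y, el y b ↔ ∃ x, el x a ∧ f x = y := by
    intro y
    rw [hb]
    refine ⟨fun h => h.2, fun h => ⟨?_, h⟩⟩
    obtain ⟨x, hx, hxy⟩ := h
    obtain ⟨z, hz, hxz⟩ := hw x (el_lt hx)
    rw [← hxy, hxz]
    exact hz
  refine ⟨b, hb', ?_⟩
  obtain ⟨g, hg, hg'⟩ := search (M := M) (Γ := M) (Δ := M)
    (P := fun y x => el y b → (el x a ∧ f x = y)) (sig_of_comp (by fun_prop)) (fun y => by
      by_cases h : el y b
      · obtain ⟨x, hx⟩ := (hb' y).1 h
        exact ⟨x, fun _ => hx⟩
      · exact ⟨0, fun h' => absurd h' h⟩)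
  refine card_le_of_inj hg (fun y hy => (hg' y hy).1) fun y z hy hz hyz => ?_
  rw [← (hg' y hy).2, ← (hg' z hz).2, hyz]

/-- pigeonhole principle with `K` colours -/
theorem php {c : M → M} (hc : Comp M c) {a K r : M} (h : ∀ x, el x a → c x < K)
    (hr : K * r < card a) :
    ∃ i, i < K ∧ ∃ b, Sub b a ∧ (∀ x, el x b ↔ el x a ∧ c x = i) ∧ r < card b := by
  obtain ⟨F, hF, hF'⟩ := c_code (M := M) (Γ := M) (b := fun _ => a)
    (P := fun q : M × M => el q.2 a ∧ c q.2 < q.1) (comp_const a) (by fun_prop)
  obtain ⟨G, hG, hG'⟩ := c_code (M := M) (Γ := M) (b := fun _ => a)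
    (P := fun q : M × M => el q.2 a ∧ c q.2 = q.1) (comp_const a) (by fun_prop)
  have hF2 : ∀ n x, el x (F n) ↔ el x a ∧ c x < n := fun n x =>
    ⟨fun hx => ((hF' n x).1 hx).2, fun hx => (hF' n x).2 ⟨el_lt hx.1, hx⟩⟩
  have hG2 : ∀ n x, el x (G n) ↔ el x a ∧ c x = n := fun n x =>
    ⟨fun hx => ((hG' n x).1 hx).2, fun hx => (hG' n x).2 ⟨el_lt hx.1, hx⟩⟩
  by_contra hcon
  have hsmall : ∀ i, i < K → card (G i) ≤ r := by
    intro i hi
    by_contra h1
    exact hcon ⟨i, hi, G i, fun x hx => ((hG2 i x).1 hx).1, hG2 i, not_le.1 h1⟩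
  have key : ∀ n, n ≤ K → card (F n) ≤ n * r := by
    refine cind (P := fun n => n ≤ K → card (F n) ≤ n * r) (by fun_prop) ?_ ?_
    · intro _
      rw [acard_empty fun x hx => not_lt_zero' _ ((hF2 0 x).1 hx).2, card_emp]
      exact zero_le' _
    · intro n ih hn
      have hn' : n < K := lt_of_lt_of_le (lt_self_succ n) hn
      have he : F (n + 1) = un (F n) (G n) := fext fun x => by
        rw [el_un, hF2, hF2, hG2]
        refine ⟨fun hx => ?_, fun hx => ?_⟩
        · rcases lt_or_eq_of_le (lt_succ.1 hx.2) with h4 | h4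
          · exact Or.inl ⟨hx.1, h4⟩
          · exact Or.inr ⟨hx.1, h4⟩
        · rcases hx with hx | hx
          · exact ⟨hx.1, lt_trans hx.2 (lt_self_succ n)⟩
          · rw [hx.2]; exact ⟨hx.1, lt_self_succ n⟩
      rw [he, add_mul, one_mul]
      exact le_trans (card_un_le _ _) (add_le_add (ih hn'.le) (hsmall n hn'))
  have h1 : F K = a := fext fun x => by
    rw [hF2]
    exact ⟨fun hx => hx.1, fun hx => ⟨hx, h x hx⟩⟩
  have h2 := key K le_rfl
  rw [h1] at h2
  exact absurd hr (not_lt.2 h2)

/-- at most `card a * N` elements in a union of `card a` sets with at most `N` elements -/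
theorem card_bigun_le {E : M → M} (hE : Comp M E) {n N U : M} (hN : ∀ i, i < n → card (E i) ≤ N)
    (hU : ∀ x, el x U ↔ ∃ i, i < n ∧ el x (E i)) : card U ≤ n * N := by
  obtain ⟨V, hV, hV'⟩ := exists_bigun (M := M) (Γ := M) (E := fun _ i => E i)
    (comp_comp E (fun q : M × M => q.2) hE (by fun_prop))
  have hVc : Comp M (fun k : M => V 0 k) :=
    comp_comp (fun q : M × M => V q.1 q.2) (fun k : M => ((0 : M), k)) hV (by fun_prop)
  have key : ∀ k, k ≤ n → card (V 0 k) ≤ k * N := by
    refine cind (P := fun k => k ≤ n → card (V 0 k) ≤ k * N) (by fun_prop) ?_ ?_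
    · intro _
      have he0 : V 0 0 = emp M := acard_empty fun x hx => by
        obtain ⟨i, hi, _⟩ := (hV' 0 0 x).1 hx
        exact not_lt_zero' i hi
      rw [he0, card_emp]
      exact zero_le' _
    · intro k ih hk
      have hk' : k < n := lt_of_lt_of_le (lt_self_succ k) hk
      have he : V 0 (k + 1) = un (V 0 k) (E k) := fext fun x => by
        rw [el_un, hV', hV']
        refine ⟨fun ⟨i, hi, hx⟩ => ?_, fun hx => ?_⟩
        · rcases lt_or_eq_of_le (lt_succ.1 hi) with h4 | h4
          · exact Or.inl ⟨i, h4, hx⟩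
          · rw [h4] at hx; exact Or.inr hx
        · rcases hx with ⟨i, hi, hx⟩ | hx
          · exact ⟨i, lt_trans hi (lt_self_succ k), hx⟩
          · exact ⟨k, lt_self_succ k, hx⟩
      rw [he, add_mul, one_mul]
      exact le_trans (card_un_le _ _) (add_le_add (ih hk'.le) (hN k hk'))
  have h1 : U = V 0 n := fext fun x => by rw [hU, hV']
  rw [h1]
  exact key n le_rfl

end RT22P
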