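import Pool.Agent.RTP.ASearch

/-!
# A4: finite sets (over `Env`)

A finite set is (the code) `a : M` with elements `x`, `el x a`.  All operations are obtained from
`Env.c_code`; `comp_code` is the general tool.
-/

set_option autoImplicit false

namespace RT22P

open Env

variable {M : Type} [Env M] {Γ Δ Θ : Type} [Enc M Γ] [Enc M Δ] [Enc M Θ]

theorem fext {a b : M} (h : ∀ x, el x a ↔ el x b) : a = b :=
  le_antisymm (el_sub fun x => (h x).1) (el_sub fun x => (h x).2)

theorem comp_el {f g : Γ → M} (hf : Comp M f) (hg : Comp M g) :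
    Comp M (fun x => el (f x) (g x)) :=
  Env0.c_comp (f := fun q : M × M => el q.1 q.2) el_comp (Env0.c_prod hf hg)

/-- inclusion of finite sets -/
def Sub (a b : M) : Prop := ∀ x, el x a → el x b

theorem Sub.le {a b : M} (h : Sub a b) : a ≤ b := el_sub h

theorem Sub.refl (a : M) : Sub a a := fun _ h => h

theorem Sub.trans {a b c : M} (h : Sub a b) (h' : Sub b c) : Sub a c := fun x hx => h' x (h x hx)

theorem Sub.antisymm {a b : M} (h : Sub a b) (h' : Sub b a) : a = b :=
  fext fun x => ⟨h x, h' x⟩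

@[fun_prop] theorem comp_elF (f g : Γ → M) (hf : Comp M f) (hg : Comp M g) :
    Comp M (fun x => el (f x) (g x)) := comp_el hf hg

@[fun_prop] theorem comp_allel (t : Γ → M) (P : Γ → M → Prop) (ht : Comp M t)
    (hP : Comp M (fun q : Γ × M => P q.1 q.2)) : Comp M (fun x => ∀ y, el y (t x) → P x y) := by
  have h : Comp M (fun x => ∀ y, y < t x → (el y (t x) → P x y)) :=
    comp_ball t (fun x y => el y (t x) → P x y) ht
      (comp_imp _ _ (comp_el (comp_snd _ comp_id) (comp_comp t _ ht (comp_fst _ comp_id))) hP)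
  have e : (fun x => ∀ y, el y (t x) → P x y) =
      (fun x => ∀ y, y < t x → (el y (t x) → P x y)) := by
    funext x
    exact propext ⟨fun h y _ hy => h y hy, fun h y hy => h y (el_lt hy) hy⟩
  rw [e]; exact h

@[fun_prop] theorem comp_exel (t : Γ → M) (P : Γ → M → Prop) (ht : Comp M t)
    (hP : Comp M (fun q : Γ × M => P q.1 q.2)) : Comp M (fun x => ∃ y, el y (t x) ∧ P x y) := by
  have h : Comp M (fun x => ∃ y, y < t x ∧ (el y (t x) ∧ P x y)) :=
    comp_bex t (fun x y => el y (t x) ∧ P x y) ht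
      (comp_and _ _ (comp_el (comp_snd _ comp_id) (comp_comp t _ ht (comp_fst _ comp_id))) hP)
  have e : (fun x => ∃ y, el y (t x) ∧ P x y) =
      (fun x => ∃ y, y < t x ∧ (el y (t x) ∧ P x y)) := by
    funext x
    exact propext ⟨fun ⟨y, hy, hp⟩ => ⟨y, el_lt hy, hy, hp⟩, fun ⟨y, _, hy, hp⟩ => ⟨y, hy, hp⟩⟩
  rw [e]; exact h

@[fun_prop] theorem comp_Sub (f g : Γ → M) (hf : Comp M f) (hg : Comp M g) :
    Comp M (fun x => Sub (f x) (g x)) :=
  comp_allel f (fun x y => el y (g x)) hf
    (comp_el (comp_snd _ comp_id) (comp_comp g _ hg (comp_fst _ comp_id)))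

@[fun_prop] theorem comp_allsub (t : Γ → M) (P : Γ → M → Prop) (ht : Comp M t)
    (hP : Comp M (fun q : Γ × M => P q.1 q.2)) : Comp M (fun x => ∀ y, Sub y (t x) → P x y) := by
  have h : Comp M (fun x => ∀ y, y ≤ t x → (Sub y (t x) → P x y)) :=
    comp_ballle t (fun x y => Sub y (t x) → P x y) ht
      (comp_imp _ _ (comp_Sub _ _ (comp_snd _ comp_id) (comp_comp t _ ht (comp_fst _ comp_id))) hP)
  have e : (fun x => ∀ y, Sub y (t x) → P x y) =
      (fun x => ∀ y, y ≤ t x → (Sub y (t x) → P x y)) := by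
    funext x
    exact propext ⟨fun h y _ hy => h y hy, fun h y hy => h y hy.le hy⟩
  rw [e]; exact h

@[fun_prop] theorem comp_exsub (t : Γ → M) (P : Γ → M → Prop) (ht : Comp M t)
    (hP : Comp M (fun q : Γ × M => P q.1 q.2)) : Comp M (fun x => ∃ y, Sub y (t x) ∧ P x y) := by
  have h : Comp M (fun x => ∃ y, y ≤ t x ∧ (Sub y (t x) ∧ P x y)) :=
    comp_bexle t (fun x y => Sub y (t x) ∧ P x y) ht
      (comp_and _ _ (comp_Sub _ _ (comp_snd _ comp_id) (comp_comp t _ ht (comp_fst _ comp_id))) hP)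
  have e : (fun x => ∃ y, Sub y (t x) ∧ P x y) =
      (fun x => ∃ y, y ≤ t x ∧ (Sub y (t x) ∧ P x y)) := by
    funext x
    exact propext ⟨fun ⟨y, hy, hp⟩ => ⟨y, hy.le, hy, hp⟩, fun ⟨y, _, hy, hp⟩ => ⟨y, hy, hp⟩⟩
  rw [e]; exact h

/-- a function into the finite sets with computable membership and computable bound is
computable -/
theorem comp_code {F : Γ → M} {P : Γ → M → Prop} {b : Γ → M} (hb : Comp M b)
    (hP : Comp M (fun q : Γ × M => P q.1 q.2)) (h : ∀ v x, el x (F v) ↔ x < b v ∧ P v x) :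
    Comp M F := by
  obtain ⟨F', hF', hF⟩ := c_code (b := b) (P := fun q : Γ × M => P q.1 q.2) hb hP
  have e : F = F' := by
    funext v
    exact fext fun x => (h v x).trans (hF v x).symm
  rw [e]; exact hF'

/-- bounded comprehension -/
theorem exists_code {P : M → Prop} (hP : Comp M P) (b : M) :
    ∃ a, ∀ x, el x a ↔ x < b ∧ P x := by
  obtain ⟨F, _, hF⟩ := c_code (M := M) (Γ := M) (b := fun _ => b)
    (P := fun q : M × M => P q.2) (comp_const b) (comp_comp P _ hP (comp_snd _ comp_id))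
  exact ⟨F 0, fun x => hF 0 x⟩

/-- bounded `Σ₁` comprehension (the greatest `a < pw b` with `∀ x, el x a → P x`) -/
theorem exists_codeS {P : M → Prop} (hP : Sig M P) (b : M) :
    ∃ a, ∀ x, el x a ↔ x < b ∧ P x := by
  have h1 : Sig M (fun a : M => (∀ x, el x a → x < b) ∧ ∀ x, el x a → P x) := by
    refine sig_and (sig_of_comp ?_) ?_
    · fun_prop
    · have h2 : Sig M (fun a : M => ∀ x, x < a → (¬ el x a ∨ P x)) := by
        refine sig_ball (t := fun a : M => a) (P := fun a x => ¬ el x a ∨ P x) comp_id ?_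
        exact sig_or (sig_of_comp (by fun_prop)) (sig_comp hP (comp_snd _ comp_id))
      refine sig_congr h2 fun a => ⟨fun h x hx => ?_, fun h x _ => ?_⟩
      · rcases h x (el_lt hx) with h3 | h3
        · exact absurd hx h3
        · exact h3
      · by_cases hx : el x a
        · exact Or.inr (h x hx)
        · exact Or.inl hx
  obtain ⟨e, he⟩ := exists_code (comp_constP (M := M) (Γ := M) False) 0
  have he' : ∀ x, ¬ el x e := fun x hx => ((he x).1 hx).2
  obtain ⟨a, ⟨ha1, ha2⟩, hmax⟩ := greatest h1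
    ⟨e, fun x hx => absurd hx (he' x), fun x hx => absurd hx (he' x)⟩ (pw b)
    (fun a ha => el_pw ha.1)
  refine ⟨a, fun x => ⟨fun hx => ⟨ha1 x hx, ha2 x hx⟩, fun ⟨hxb, hPx⟩ => ?_⟩⟩
  obtain ⟨a', ha'⟩ := exists_code (P := fun y => el y a ∨ y = x) (by fun_prop) b
  have h3 : a' ≤ a := by
    refine hmax a' ⟨fun y hy => ((ha' y).1 hy).1, fun y hy => ?_⟩
    rcases ((ha' y).1 hy).2 with h4 | h4
    · exact ha2 y h4
    · rw [h4]; exact hPx
  have h4 : Sub a a' := fun y hy => (ha' y).2 ⟨ha1 y hy, Or.inl hy⟩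
  have h5 : a = a' := le_antisymm h4.le h3
  have h6 : el x a' := (ha' x).2 ⟨hxb, Or.inr rfl⟩
  rw [h5]; exact h6

/-- the empty set -/
noncomputable def emp (M : Type) [Env M] : M :=
  (exists_code (comp_constP (M := M) (Γ := M) False) 0).choose

theorem el_emp {x : M} : ¬ el x (emp M) := fun h =>
  (((exists_code (comp_constP (M := M) (Γ := M) False) 0).choose_spec x).1 h).2

/-- union -/
noncomputable def un (a b : M) : M :=
  (exists_code (P := fun x => el x a ∨ el x b) (by fun_prop) (a + b + 1)).choose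

theorem el_un {x a b : M} : el x (un a b) ↔ el x a ∨ el x b := by
  have h := (exists_code (P := fun x => el x a ∨ el x b) (by fun_prop) (a + b + 1)).choose_spec x
  refine ⟨fun hx => (h.1 hx).2, fun hx => h.2 ⟨?_, hx⟩⟩
  rcases hx with hx | hx
  · exact lt_of_lt_of_le (el_lt hx) (le_trans le_self_add (lt_self_succ _).le)
  · exact lt_of_lt_of_le (el_lt hx) (le_trans le_add_self (lt_self_succ _).le)

/-- the singleton -/
noncomputable def sg (y : M) : M :=
  (exists_code (P := fun x => x = y) (by fun_prop) (y + 1)).choose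

theorem el_sg {x y : M} : el x (sg y) ↔ x = y := by
  have h := (exists_code (P := fun x => x = y) (by fun_prop) (y + 1)).choose_spec x
  refine ⟨fun hx => (h.1 hx).2, fun hx => h.2 ⟨?_, hx⟩⟩
  rw [hx]; exact lt_self_succ y

/-- `a ∩ b` -/
noncomputable def itr (a b : M) : M :=
  (exists_code (P := fun x => el x a ∧ el x b) (by fun_prop) a).choose

theorem el_itr {x a b : M} : el x (itr a b) ↔ el x a ∧ el x b := by
  have h := (exists_code (P := fun x => el x a ∧ el x b) (by fun_prop) a).choose_spec x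
  exact ⟨fun hx => (h.1 hx).2, fun hx => h.2 ⟨el_lt hx.1, hx⟩⟩

/-- `a \ b` -/
noncomputable def sdf (a b : M) : M :=
  (exists_code (P := fun x => el x a ∧ ¬ el x b) (by fun_prop) a).choose

theorem el_sdf {x a b : M} : el x (sdf a b) ↔ el x a ∧ ¬ el x b := by
  have h := (exists_code (P := fun x => el x a ∧ ¬ el x b) (by fun_prop) a).choose_spec x
  exact ⟨fun hx => (h.1 hx).2, fun hx => h.2 ⟨el_lt hx.1, hx⟩⟩

/-- the elements of `a` below `b` -/
noncomputable def blw (a b : M) : M :=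
  (exists_code (P := fun x => el x a ∧ x < b) (by fun_prop) a).choose

theorem el_blw {x a b : M} : el x (blw a b) ↔ el x a ∧ x < b := by
  have h := (exists_code (P := fun x => el x a ∧ x < b) (by fun_prop) a).choose_spec x
  exact ⟨fun hx => (h.1 hx).2, fun hx => h.2 ⟨el_lt hx.1, hx⟩⟩

/-- the interval `[b, c)` -/
noncomputable def ivl (b c : M) : M :=
  (exists_code (P := fun x => b ≤ x) (by fun_prop) c).choose

theorem el_ivl {x b c : M} : el x (ivl b c) ↔ b ≤ x ∧ x < c := by
  have h := (exists_code (P := fun x => b ≤ x) (by fun_prop) c).choose_spec x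
  exact ⟨fun hx => ⟨(h.1 hx).2, (h.1 hx).1⟩, fun hx => h.2 ⟨hx.2, hx.1⟩⟩

@[fun_prop] theorem comp_un (f g : Γ → M) (hf : Comp M f) (hg : Comp M g) :
    Comp M (fun x => un (f x) (g x)) := by
  refine comp_code (P := fun v x => el x (f v) ∨ el x (g v)) (b := fun v => f v + g v + 1)
    (by fun_prop) (by fun_prop) fun v x => ?_
  rw [el_un]
  refine ⟨fun hx => ⟨?_, hx⟩, fun hx => hx.2⟩
  rcases hx with hx | hx
  · exact lt_of_lt_of_le (el_lt hx) (le_trans le_self_add (lt_self_succ _).le)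
  · exact lt_of_lt_of_le (el_lt hx) (le_trans le_add_self (lt_self_succ _).le)

@[fun_prop] theorem comp_sg (f : Γ → M) (hf : Comp M f) : Comp M (fun x => sg (f x)) := by
  refine comp_code (P := fun v x => x = f v) (b := fun v => f v + 1)
    (by fun_prop) (by fun_prop) fun v x => ?_
  rw [el_sg]
  refine ⟨fun hx => ⟨?_, hx⟩, fun hx => hx.2⟩
  rw [hx]; exact lt_self_succ _

@[fun_prop] theorem comp_itr (f g : Γ → M) (hf : Comp M f) (hg : Comp M g) :
    Comp M (fun x => itr (f x) (g x)) := by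
  refine comp_code (P := fun v x => el x (f v) ∧ el x (g v)) (b := f)
    hf (by fun_prop) fun v x => ?_
  rw [el_itr]
  exact ⟨fun hx => ⟨el_lt hx.1, hx⟩, fun hx => hx.2⟩

@[fun_prop] theorem comp_sdf (f g : Γ → M) (hf : Comp M f) (hg : Comp M g) :
    Comp M (fun x => sdf (f x) (g x)) := by
  refine comp_code (P := fun v x => el x (f v) ∧ ¬ el x (g v)) (b := f)
    hf (by fun_prop) fun v x => ?_
  rw [el_sdf]
  exact ⟨fun hx => ⟨el_lt hx.1, hx⟩, fun hx => hx.2⟩

@[fun_prop] theorem comp_blw (f g : Γ → M) (hf : Comp M f) (hg : Comp M g) :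
    Comp M (fun x => blw (f x) (g x)) := by
  refine comp_code (P := fun v x => el x (f v) ∧ x < g v) (b := f)
    hf (by fun_prop) fun v x => ?_
  rw [el_blw]
  exact ⟨fun hx => ⟨el_lt hx.1, hx⟩, fun hx => hx.2⟩

@[fun_prop] theorem comp_ivl (f g : Γ → M) (hf : Comp M f) (hg : Comp M g) :
    Comp M (fun x => ivl (f x) (g x)) := by
  refine comp_code (P := fun v x => f v ≤ x) (b := g)
    hg (by fun_prop) fun v x => ?_
  rw [el_ivl]
  exact ⟨fun hx => ⟨hx.2, hx.1⟩, fun hx => ⟨hx.2, hx.1⟩⟩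

/-- a nonempty finite set has a greatest element (auxiliary form) -/
private theorem afin_mx {a : M} (h : ∃ x, el x a) : ∃ x, el x a ∧ ∀ y, el y a → y ≤ x :=
  greatestC (P := fun x => el x a) (by fun_prop) h a fun _ hx => el_lt hx

/-- induction for finite sets: adding a new largest element -/
theorem find_max {P : M → Prop} (hP : Comp M P) (h0 : P (emp M))
    (h1 : ∀ a x, P a → (∀ y, el y a → y < x) → P (un a (sg x))) : ∀ a, P a := by
  refine csind hP fun a ih => ?_
  by_cases hne : ∃ x, el x a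
  · obtain ⟨x, hx, hmax⟩ := afin_mx hne
    have hlt : blw a x < a := by
      refine lt_of_le_of_ne (Sub.le fun y hy => (el_blw.1 hy).1) fun h => ?_
      rw [← h] at hx
      exact lt_irrefl x (el_blw.1 hx).2
    have he : un (blw a x) (sg x) = a := by
      refine fext fun y => ?_
      rw [el_un, el_blw, el_sg]
      refine ⟨fun h => ?_, fun h => ?_⟩
      · rcases h with h | h
        · exact h.1
        · rw [h]; exact hx
      · rcases lt_or_eq_of_le (hmax y h) with h2 | h2
        · exact Or.inl ⟨h, h2⟩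
        · exact Or.inr h2
    rw [← he]
    exact h1 _ x (ih _ hlt) fun y hy => (el_blw.1 hy).2
  · have he : a = emp M := fext fun x => ⟨fun h => absurd ⟨x, h⟩ hne, fun h => absurd h el_emp⟩
    rw [he]; exact h0

/-- a nonempty finite set has a least and a greatest element -/
theorem exists_mn {a : M} (h : ∃ x, el x a) : ∃ x, el x a ∧ ∀ y, el y a → x ≤ y := by
  obtain ⟨x, hx, hmin⟩ := leastC (P := fun x => el x a) (by fun_prop) h
  exact ⟨x, hx, fun y hy => not_lt.1 fun hlt => hmin y hlt hy⟩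

theorem exists_mx {a : M} (h : ∃ x, el x a) : ∃ x, el x a ∧ ∀ y, el y a → y ≤ x := afin_mx h

/-- least element (`0` for the empty set) -/
noncomputable def mn (a : M) : M :=
  open Classical in if h : ∃ x, el x a then (exists_mn h).choose else 0

/-- greatest element (`0` for the empty set) -/
noncomputable def mx (a : M) : M :=
  open Classical in if h : ∃ x, el x a then (exists_mx h).choose else 0

theorem el_mn {a x : M} (h : el x a) : el (mn a) a := by
  have hne : ∃ x, el x a := ⟨x, h⟩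
  unfold mn
  rw [dif_pos hne]
  exact (exists_mn hne).choose_spec.1

theorem mn_le {a x : M} (h : el x a) : mn a ≤ x := by
  have hne : ∃ x, el x a := ⟨x, h⟩
  unfold mn
  rw [dif_pos hne]
  exact (exists_mn hne).choose_spec.2 x h

theorem el_mx {a x : M} (h : el x a) : el (mx a) a := by
  have hne : ∃ x, el x a := ⟨x, h⟩
  unfold mx
  rw [dif_pos hne]
  exact (exists_mx hne).choose_spec.1

theorem le_mx {a x : M} (h : el x a) : x ≤ mx a := by
  have hne : ∃ x, el x a := ⟨x, h⟩
  unfold mx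
  rw [dif_pos hne]
  exact (exists_mx hne).choose_spec.2 x h

private theorem afin_mn0 {a : M} (h : ¬ ∃ x, el x a) : mn a = 0 := by
  unfold mn
  rw [dif_neg h]

private theorem afin_mx0 {a : M} (h : ¬ ∃ x, el x a) : mx a = 0 := by
  unfold mx
  rw [dif_neg h]

@[fun_prop] theorem comp_mn (f : Γ → M) (hf : Comp M f) : Comp M (fun x => mn (f x)) := by
  refine comp_of_graph (sig_of_comp ?_)
  have h1 : Comp M (fun q : Γ × M => (el q.2 (f q.1) ∧ ∀ y, el y (f q.1) → q.2 ≤ y) ∨
      ((∀ y, el y (f q.1) → False) ∧ q.2 = 0)) := by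
    refine comp_or _ _ (comp_and _ _ (by fun_prop) ?_) (comp_and _ _ ?_ (by fun_prop))
    · exact comp_allel (fun q : Γ × M => f q.1) (fun q y => q.2 ≤ y) (by fun_prop) (by fun_prop)
    · exact comp_allel (fun q : Γ × M => f q.1) (fun _ _ => False) (by fun_prop)
        (comp_constP False)
  have e : (fun q : Γ × M => q.2 = mn (f q.1)) =
      (fun q : Γ × M => (el q.2 (f q.1) ∧ ∀ y, el y (f q.1) → q.2 ≤ y) ∨
      ((∀ y, el y (f q.1) → False) ∧ q.2 = 0)) := by
    funext q
    refine propext ⟨fun h => ?_, fun h => ?_⟩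
    · by_cases hne : ∃ x, el x (f q.1)
      · obtain ⟨x, hx⟩ := hne
        rw [h]
        exact Or.inl ⟨el_mn hx, fun y hy => mn_le hy⟩
      · rw [afin_mn0 hne] at h
        exact Or.inr ⟨fun y hy => hne ⟨y, hy⟩, h⟩
    · rcases h with ⟨h2, h3⟩ | ⟨h2, h3⟩
      · exact le_antisymm (h3 _ (el_mn h2)) (mn_le h2)
      · rw [afin_mn0 fun ⟨x, hx⟩ => h2 x hx]
        exact h3
  rw [e]; exact h1

@[fun_prop] theorem comp_mx (f : Γ → M) (hf : Comp M f) : Comp M (fun x => mx (f x)) := by
  refine comp_of_graph (sig_of_comp ?_)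
  have h1 : Comp M (fun q : Γ × M => (el q.2 (f q.1) ∧ ∀ y, el y (f q.1) → y ≤ q.2) ∨
      ((∀ y, el y (f q.1) → False) ∧ q.2 = 0)) := by
    refine comp_or _ _ (comp_and _ _ (by fun_prop) ?_) (comp_and _ _ ?_ (by fun_prop))
    · exact comp_allel (fun q : Γ × M => f q.1) (fun q y => y ≤ q.2) (by fun_prop) (by fun_prop)
    · exact comp_allel (fun q : Γ × M => f q.1) (fun _ _ => False) (by fun_prop)
        (comp_constP False)
  have e : (fun q : Γ × M => q.2 = mx (f q.1)) =
      (fun q : Γ × M => (el q.2 (f q.1) ∧ ∀ y, el y (f q.1) → y ≤ q.2) ∨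
      ((∀ y, el y (f q.1) → False) ∧ q.2 = 0)) := by
    funext q
    refine propext ⟨fun h => ?_, fun h => ?_⟩
    · by_cases hne : ∃ x, el x (f q.1)
      · obtain ⟨x, hx⟩ := hne
        rw [h]
        exact Or.inl ⟨el_mx hx, fun y hy => le_mx hy⟩
      · rw [afin_mx0 hne] at h
        exact Or.inr ⟨fun y hy => hne ⟨y, hy⟩, h⟩
    · rcases h with ⟨h2, h3⟩ | ⟨h2, h3⟩
      · exact le_antisymm (le_mx h2) (h3 _ (el_mx h2))
      · rw [afin_mx0 fun ⟨x, hx⟩ => h2 x hx]
        exact h3
  rw [e]; exact h1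

/-- the union of the finite sets `E i`, `i < n` -/
theorem exists_bigun {E : Γ → M → M} (hE : Comp M (fun q : Γ × M => E q.1 q.2)) :
    ∃ U : Γ → M → M, Comp M (fun q : Γ × M => U q.1 q.2) ∧
      ∀ v n x, el x (U v n) ↔ ∃ i, i < n ∧ el x (E v i) := by
  obtain ⟨U, hU, hU0, hU1⟩ := prec (M := M) (Γ := Γ) (Δ := M) (g := fun _ => emp M)
    (h := fun v n u => un u (E v n)) (comp_const _)
    (comp_un _ _ (by fun_prop)
      (comp_comp (fun q : Γ × M => E q.1 q.2) (fun q : Γ × M × M => (q.1, q.2.1)) hE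
        (by fun_prop)))
  refine ⟨U, hU, fun v n x => ?_⟩
  have hc : Comp M (fun n : M => el x (U v n) ↔ ∃ i, i < n ∧ el x (E v i)) := by
    refine comp_iff _ _ ?_ ?_
    · exact comp_el (comp_const x)
        (comp_comp (fun q : Γ × M => U q.1 q.2) (fun n : M => (v, n)) hU (by fun_prop))
    · refine comp_bex (fun n : M => n) (fun _ i => el x (E v i)) comp_id ?_
      exact comp_el (comp_const x)
        (comp_comp (fun q : Γ × M => E q.1 q.2) (fun q : M × M => (v, q.2)) hE (by fun_prop))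
  refine cind (P := fun n : M => el x (U v n) ↔ ∃ i, i < n ∧ el x (E v i)) hc ?_ ?_ n
  · show el x (U v 0) ↔ ∃ i, i < 0 ∧ el x (E v i)
    rw [hU0]
    exact ⟨fun h => absurd h el_emp, fun ⟨i, hi, _⟩ => absurd hi (not_lt_zero' i)⟩
  · intro k ih
    show el x (U v (k + 1)) ↔ ∃ i, i < k + 1 ∧ el x (E v i)
    rw [hU1, el_un, ih]
    refine ⟨fun h => ?_, fun ⟨i, hi, hx⟩ => ?_⟩
    · rcases h with ⟨i, hi, hx⟩ | h
      · exact ⟨i, lt_trans hi (lt_self_succ k), hx⟩
      · exact ⟨k, lt_self_succ k, h⟩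
    · rcases lt_or_eq_of_le (lt_succ.1 hi) with h2 | h2
      · exact Or.inl ⟨i, h2, hx⟩
      · rw [h2] at hx
        exact Or.inr hx

end RT22P
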