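import Pool.Agent.RTP.Core

/-!
# A1: order, induction, least and greatest elements (over `Env0`)
-/

set_option autoImplicit false

namespace RT22P

variable {M : Type} [Env0 M]

theorem lt_succ {x y : M} : x < y + 1 ↔ x ≤ y := by
  constructor
  · intro h
    by_contra hc
    exact absurd (lt_of_lt_of_le h (Arith.succ_le (not_le.1 hc))) (lt_irrefl _)
  · intro h
    exact lt_of_le_of_lt h (lt_add_one _)

theorem succ_le_iff {x y : M} : x + 1 ≤ y ↔ x < y :=
  ⟨fun h => lt_of_lt_of_le (lt_add_one _) h, fun h => Arith.succ_le h⟩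

theorem lt_self_succ (x : M) : x < x + 1 := lt_add_one x

theorem zero_or_succ (x : M) : x = 0 ∨ ∃ y, x = y + 1 := by
  by_cases h : x = 0
  · exact Or.inl h
  · have h1 : (0 : M) < x := pos_iff_ne_zero.2 h
    have h2 : (1 : M) ≤ x := by
      have h3 := Arith.succ_le h1
      rwa [zero_add] at h3
    obtain ⟨y, hy⟩ := exists_add_of_le h2
    exact Or.inr ⟨y, by rw [hy, add_comm]⟩

theorem zero_le' (x : M) : 0 ≤ x := zero_le

theorem not_lt_zero' (x : M) : ¬ x < 0 := not_lt.2 (zero_le' x)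

theorem pos_iff {x : M} : 0 < x ↔ x ≠ 0 := pos_iff_ne_zero

private theorem aind_sig {P : M → Prop} (hP : Comp M P) : Sig M P :=
  ⟨fun q => P q.1, comp_comp P (fun q : M × M => q.1) hP (by fun_prop),
    fun _ => ⟨fun h => ⟨0, h⟩, fun ⟨_, h⟩ => h⟩⟩

/-- induction for computable predicates -/
theorem cind {P : M → Prop} (hP : Comp M P) (h0 : P 0) (h1 : ∀ x, P x → P (x + 1)) :
    ∀ x, P x := Env0.sind (aind_sig hP) h0 h1

/-- `Σ₁` induction -/
theorem sind {P : M → Prop} (hP : Sig M P) (h0 : P 0) (h1 : ∀ x, P x → P (x + 1)) :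
    ∀ x, P x := Env0.sind hP h0 h1

/-- strong induction for computable predicates -/
theorem csind {P : M → Prop} (hP : Comp M P) (h : ∀ x, (∀ y, y < x → P y) → P x) :
    ∀ x, P x := by
  have h2 : ∀ x, ∀ y, y < x → P y := by
    refine cind (P := fun x => ∀ y, y < x → P y) ?_ ?_ ?_
    · exact comp_ball (fun x : M => x) (fun _ y => P y) (by fun_prop)
        (comp_comp P (fun q : M × M => q.2) hP (by fun_prop))
    · intro y hy
      exact absurd hy (not_lt_zero' y)
    · intro x hx y hy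
      rcases (lt_succ.1 hy).lt_or_eq with hy | hy
      · exact hx y hy
      · rw [hy]
        exact h x hx
  exact fun x => h x (h2 x)

/-- existential quantifiers can be contracted -/
private theorem aind_ex {P : M → M → M → Prop} (hP : Comp M (fun q : M × (M × M) =>
    P q.1 q.2.1 q.2.2)) : Sig M (fun x => ∃ y z, P x y z) := by
  have hc : Comp M (fun q : M × M => (q.1, ((Pre.cp (M := M)).symm q.2 : M × M))) :=
    comp_prod (fun q : M × M => q.1) _ (by fun_prop)
      (comp_comp (fun x : M => ((Pre.cp (M := M)).symm x : M × M)) (fun q : M × M => q.2)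
        Env0.c_cpsymm (by fun_prop))
  refine ⟨fun q => P q.1 ((Pre.cp (M := M)).symm q.2).1 ((Pre.cp (M := M)).symm q.2).2,
    comp_comp (fun q : M × (M × M) => P q.1 q.2.1 q.2.2) _ hP hc, fun x => ⟨?_, ?_⟩⟩
  · rintro ⟨y, z, h⟩
    refine ⟨(Pre.cp (M := M)) (y, z), ?_⟩
    simp only [Equiv.symm_apply_apply]
    exact h
  · rintro ⟨y, h⟩
    exact ⟨_, _, h⟩

/-- `Π₁` induction (if `P` fails at `a`, the predicate `¬ P (a - x)` would be `Σ₁` inductive) -/
theorem pind {P : M → Prop} (hP : Sig M (fun x => ¬ P x)) (h0 : P 0)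
    (h1 : ∀ x, P x → P (x + 1)) : ∀ x, P x := by
  intro a
  by_contra ha
  obtain ⟨Q, hQ, hPQ⟩ := hP
  have hR : ∀ x : M, ∃ z w : M, a < x ∨ (z + x = a ∧ Q (z, w)) := by
    refine sind (P := fun x => ∃ z w : M, a < x ∨ (z + x = a ∧ Q (z, w))) ?_ ?_ ?_
    · apply aind_ex (P := fun x z w => a < x ∨ (z + x = a ∧ Q (z, w)))
      refine comp_or _ _ (by fun_prop) (comp_and _ _ (by fun_prop) ?_)
      exact comp_comp Q (fun q : M × (M × M) => (q.2.1, q.2.2)) hQ (by fun_prop)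
    · obtain ⟨w, hw⟩ := (hPQ a).1 ha
      exact ⟨a, w, Or.inr ⟨add_zero a, hw⟩⟩
    · rintro x ⟨z, w, h | ⟨h2, h3⟩⟩
      · exact ⟨0, 0, Or.inl (h.trans (lt_self_succ x))⟩
      · have hz : ¬ P z := (hPQ z).2 ⟨w, h3⟩
        rcases zero_or_succ z with h4 | ⟨y, h4⟩
        · rw [h4] at hz
          exact absurd h0 hz
        · have hy : ¬ P y := fun hy => hz (by rw [h4]; exact h1 y hy)
          obtain ⟨w', hw'⟩ := (hPQ y).1 hy
          refine ⟨y, w', Or.inr ⟨?_, hw'⟩⟩
          rw [← h2, h4]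
          ring
  obtain ⟨z, w, h | ⟨h2, h3⟩⟩ := hR a
  · exact lt_irrefl _ h
  · have h4 : z = 0 := by
      have h5 : z + a = 0 + a := by rw [h2, zero_add]
      exact add_right_cancel h5
    rw [h4] at h3
    exact (hPQ 0).2 ⟨w, h3⟩ h0

/-- strong `Π₁` induction -/
theorem psind {P : M → Prop} (hP : Sig M (fun x => ¬ P x))
    (h : ∀ x, (∀ y, y < x → P y) → P x) : ∀ x, P x := by
  obtain ⟨Q, hQ, hPQ⟩ := hP
  have h2 : ∀ x, ∀ y, y < x → P y := by
    refine pind (P := fun x => ∀ y, y < x → P y) ?_ ?_ ?_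
    · have h3 : Sig M (fun x : M => ∃ y w : M, y < x ∧ Q (y, w)) := by
        apply aind_ex (P := fun x y w => y < x ∧ Q (y, w))
        exact comp_and _ _ (by fun_prop)
          (comp_comp Q (fun q : M × (M × M) => (q.2.1, q.2.2)) hQ (by fun_prop))
      obtain ⟨R, hR, hR'⟩ := h3
      refine ⟨R, hR, fun x => ?_⟩
      rw [← hR' x]
      constructor
      · intro h4
        by_contra h5
        apply h4
        intro y hy
        by_contra h6
        obtain ⟨w, hw⟩ := (hPQ y).1 h6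
        exact h5 ⟨y, w, hy, hw⟩
      · rintro ⟨y, w, hy, hw⟩ h4
        exact (hPQ y).2 ⟨w, hw⟩ (h4 y hy)
    · intro y hy
      exact absurd hy (not_lt_zero' y)
    · intro x hx y hy
      rcases (lt_succ.1 hy).lt_or_eq with hy | hy
      · exact hx y hy
      · rw [hy]
        exact h x hx
  exact fun x => h x (h2 x)

/-- least element of a `Σ₁` class (from strong `Π₁` induction for `¬ P`) -/
theorem least {P : M → Prop} (hP : Sig M P) (h : ∃ x, P x) :
    ∃ x, P x ∧ ∀ y, y < x → ¬ P y := by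
  by_contra hc
  obtain ⟨x0, hx0⟩ := h
  obtain ⟨Q, hQ, hPQ⟩ := hP
  have h1 : ∀ x, ¬ P x := by
    refine psind (P := fun x => ¬ P x) ⟨Q, hQ, fun x => ?_⟩ ?_
    · show (¬ ¬ P x) ↔ _
      rw [not_not]
      exact hPQ x
    · intro x hx hPx
      exact hc ⟨x, hPx, hx⟩
  exact h1 x0 hx0

theorem leastC {P : M → Prop} (hP : Comp M P) (h : ∃ x, P x) :
    ∃ x, P x ∧ ∀ y, y < x → ¬ P y := least (aind_sig hP) h

/-- least element of a `Π₁` class -/
theorem leastP {P : M → Prop} (hP : Sig M (fun x => ¬ P x)) (h : ∃ x, P x) :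
    ∃ x, P x ∧ ∀ y, y < x → ¬ P y := by
  by_contra hc
  obtain ⟨x0, hx0⟩ := h
  obtain ⟨Q, hQ, hPQ⟩ := hP
  have h1 : ∀ x : M, ∃ b : M, ∀ y, y < x → ∃ w, w < b ∧ Q (y, w) := by
    refine sind (P := fun x => ∃ b : M, ∀ y, y < x → ∃ w, w < b ∧ Q (y, w)) ?_ ?_ ?_
    · refine ⟨fun q => ∀ y, y < q.1 → ∃ w, w < q.2 ∧ Q (y, w), ?_, fun x => Iff.rfl⟩
      refine comp_ball (fun q : M × M => q.1) (fun q y => ∃ w, w < q.2 ∧ Q (y, w))
        (by fun_prop) ?_
      refine comp_bex (fun r : (M × M) × M => r.1.2) (fun r w => Q (r.2, w)) (by fun_prop) ?_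
      exact comp_comp Q (fun r : ((M × M) × M) × M => (r.1.2, r.2)) hQ (by fun_prop)
    · exact ⟨0, fun y hy => absurd hy (not_lt_zero' y)⟩
    · rintro x ⟨b, hb⟩
      have h2 : ∀ y, y < x → ¬ P y := fun y hy => by
        obtain ⟨w, -, hw⟩ := hb y hy
        exact (hPQ y).2 ⟨w, hw⟩
      have h3 : ¬ P x := fun h4 => hc ⟨x, h4, h2⟩
      obtain ⟨w, hw⟩ := (hPQ x).1 h3
      refine ⟨max b (w + 1), fun y hy => ?_⟩
      rcases (lt_succ.1 hy).lt_or_eq with hy | hy
      · obtain ⟨w', hw', hw''⟩ := hb y hy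
        exact ⟨w', lt_of_lt_of_le hw' (le_max_left _ _), hw''⟩
      · rw [hy]
        exact ⟨w, lt_of_lt_of_le (lt_self_succ w) (le_max_right _ _), hw⟩
  obtain ⟨b, hb⟩ := h1 (x0 + 1)
  obtain ⟨w, -, hw⟩ := hb x0 (lt_self_succ x0)
  exact (hPQ x0).2 ⟨w, hw⟩ hx0

/-- greatest element of a bounded `Σ₁` class, auxiliary form -/
private theorem aind_greatest {P : M → Prop} (hP : Sig M P) (h : ∃ x, P x) (b : M)
    (hb : ∀ x, P x → x < b) : ∃ x, P x ∧ ∀ y, P y → y ≤ x := by
  obtain ⟨Q, hQ, hPQ⟩ := hP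
  have h1 : Sig M (fun y : M => ¬ ∀ x, P x → x ≤ y) := by
    have h3 : Sig M (fun y : M => ∃ x w : M, y < x ∧ Q (x, w)) := by
      apply aind_ex (P := fun y x w => y < x ∧ Q (x, w))
      exact comp_and _ _ (by fun_prop)
        (comp_comp Q (fun q : M × (M × M) => (q.2.1, q.2.2)) hQ (by fun_prop))
    obtain ⟨R, hR, hR'⟩ := h3
    refine ⟨R, hR, fun y => ?_⟩
    rw [← hR' y]
    constructor
    · intro h4
      by_contra h5
      apply h4
      intro x hx
      by_contra h6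
      obtain ⟨w, hw⟩ := (hPQ x).1 hx
      exact h5 ⟨x, w, not_le.1 h6, hw⟩
    · rintro ⟨x, w, hx, hw⟩ h4
      exact absurd (h4 x ((hPQ x).2 ⟨w, hw⟩)) (not_le.2 hx)
  obtain ⟨y, hy, hy'⟩ := leastP (P := fun y : M => ∀ x, P x → x ≤ y) h1
    ⟨b, fun x hx => (hb x hx).le⟩
  refine ⟨y, ?_, hy⟩
  rcases zero_or_succ y with h4 | ⟨z, h4⟩
  · obtain ⟨x, hx⟩ := h
    have h5 := hy x hx
    rw [h4] at h5
    have h6 : x = 0 := le_antisymm h5 (zero_le' x)
    rw [h4, ← h6]
    exact hx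
  · by_contra h5
    apply hy' z (by rw [h4]; exact lt_self_succ z)
    intro x hx
    have h6 := hy x hx
    rcases h6.lt_or_eq with h7 | h7
    · rw [h4] at h7
      exact lt_succ.1 h7
    · rw [h7] at hx
      exact absurd hx h5

/-- greatest element of a bounded computable class -/
theorem greatestC {P : M → Prop} (hP : Comp M P) (h : ∃ x, P x) (b : M)
    (hb : ∀ x, P x → x < b) : ∃ x, P x ∧ ∀ y, P y → y ≤ x :=
  aind_greatest (aind_sig hP) h b hb

/-- greatest element of a bounded `Σ₁` class -/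
theorem greatest {P : M → Prop} (hP : Sig M P) (h : ∃ x, P x) (b : M)
    (hb : ∀ x, P x → x < b) : ∃ x, P x ∧ ∀ y, P y → y ≤ x :=
  aind_greatest hP h b hb

end RT22P
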