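import Pool.Agent.RTP.ACard

/-!
# A6: finite Ramsey theorem for pairs (over `Env`)

Proof: by primitive recursion define `a₀ = a`, `x_i = mn a_i`, `a_{i+1}` = a largest class of `a_i \ {x_i}`
for the colouring `y ↦ c x_i y` (some class has more than `r` elements if `K * r < card`), starting from
`card a₀` large; after `K * r + 1` steps (sizes: `N 0 = 0`, `N (j + 1) = K * N j + 2`, primitive recursion) the
colour of `(x_i, y)` depends only on `x_i`; pigeonhole.
-/

set_option autoImplicit false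

namespace RT22P

open Env

variable {M : Type} [Env M]

/-- the invariant of the construction -/
private def aramI (Nf : M → M) (n a : M) (j b : M) : Prop :=
  Sub b a ∧ ∀ k, k ≤ n → j + k = n → Nf k ≤ card b

/-- one step of the construction -/
private def aramR (Nf : M → M) (c : M → M → M) (n : M) (j b b' : M) : Prop :=
  (Sub b' b ∧ ∀ y, el y b' → ¬ y = mn b) ∧
    (∀ k, k ≤ n → j + (k + 1) = n → Nf k ≤ card b') ∧
    (∀ y, el y b' → ∀ z, el z b' → c (mn b) y = c (mn b) z)

private lemma aram_seq {Nf : M → M} (hNf : Comp M Nf) {K : M}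
    (hN1 : ∀ j, Nf (j + 1) = K * Nf j + 2) {c : M → M → M}
    (hc : Comp M (fun q : M × M => c q.1 q.2)) (n a : M) (ha : Nf n ≤ card a)
    (hK : ∀ x y, el x a → el y a → x < y → c x y < K) :
    ∃ F : M → M, Comp M F ∧ F 0 = a ∧ ∀ j, aramI Nf n a j (F j) ∧
      aramR Nf c n j (F j) (F (j + 1)) := by
  refine iterS (M := M) (Δ := M) a (I := aramI Nf n a) (R := aramR Nf c n) ?_ ?_ ?_ ?_ ?_
  · unfold aramI
    fun_prop
  · refine sig_of_comp ?_
    unfold aramR
    fun_prop
  · refine ⟨Sub.refl a, ?_⟩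
    intro k _ hk
    rw [zero_add] at hk
    rw [hk]
    exact ha
  · rintro j b ⟨h1, h2⟩
    by_cases hj : ∃ k, k ≤ n ∧ j + (k + 1) = n
    · obtain ⟨k, hk, hjk⟩ := hj
      have hk1 : k + 1 ≤ n := by
        rw [← hjk]
        exact le_add_self
      have h3 := h2 (k + 1) hk1 hjk
      rw [hN1] at h3
      have hne : ∃ x, el x b := by
        rw [← card_pos]
        refine lt_of_lt_of_le ?_ h3
        exact lt_of_lt_of_le two_pos le_add_self
      obtain ⟨x0, hx0⟩ := hne
      have hm := el_mn hx0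
      have hsub : Sub (sg (mn b)) b := by
        intro x hx
        rw [el_sg] at hx
        rw [hx]
        exact hm
      have h4 := card_sdf hsub
      rw [card_sg] at h4
      have h5 : K * Nf k < card (sdf b (sg (mn b))) := by
        by_contra hcon
        rw [not_lt] at hcon
        have h6 : card b ≤ K * Nf k + 1 := by
          rw [← h4]
          exact add_le_add_left hcon 1
        have h7 : K * Nf k + 2 ≤ K * Nf k + 1 := le_trans h3 h6
        have h8 : (2 : M) ≤ 1 := le_of_add_le_add_left h7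
        exact absurd h8 (not_le.2 one_lt_two)
      have hc1 : Comp M (fun y => c (mn b) y) := by fun_prop
      obtain ⟨i, -, b', g1, g2, g3⟩ := php hc1 (a := sdf b (sg (mn b))) (K := K) (r := Nf k)
        (by
          intro y hy
          rw [el_sdf, el_sg] at hy
          exact hK _ _ (h1 _ hm) (h1 _ hy.1) (lt_of_le_of_ne (mn_le hy.1) (Ne.symm hy.2))) h5
      refine ⟨b', ⟨?_, ?_⟩, ?_, ?_⟩
      · intro y hy
        exact (el_sdf.1 (g1 y hy)).1
      · intro y hy h
        exact (el_sdf.1 (g1 y hy)).2 (el_sg.2 h)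
      · intro k' _ hk'
        have h6 : k' = k := by
          rw [← hjk] at hk'
          exact add_right_cancel (add_left_cancel hk')
        rw [h6]
        exact g3.le
      · intro y hy z hz
        rw [((g2 y).1 hy).2, ((g2 z).1 hz).2]
    · refine ⟨emp M, ⟨?_, ?_⟩, ?_, ?_⟩
      · intro y hy
        exact absurd hy el_emp
      · intro y hy
        exact absurd hy el_emp
      · intro k hk hjk
        exact absurd ⟨k, hk, hjk⟩ hj
      · intro y hy
        exact absurd hy el_emp
  · rintro j b b' ⟨h1, h2⟩ ⟨⟨h3, h4⟩, h5, h6⟩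
    refine ⟨h3.trans h1, ?_⟩
    intro k hk hjk
    exact h5 k hk (by rw [← hjk, add_assoc, add_comm 1 k])

/-- finite Ramsey theorem for pairs with `K` colours -/
theorem ramsey (r K : M) : ∃ N : M, ∀ (a : M) (c : M → M → M), N ≤ card a →
    Comp M (fun q : M × M => c q.1 q.2) →
    (∀ x y, el x a → el y a → x < y → c x y < K) →
    ∃ b, Sub b a ∧ card b = r ∧ ∃ i, ∀ x y, el x b → el y b → x < y → c x y = i := by
  obtain ⟨Nf, hNf, hN0, hN1⟩ := iter (M := M) (Δ := M) 0 (h := fun _ y => K * y + 2)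
    (by fun_prop)
  refine ⟨Nf (K * r + 2), ?_⟩
  intro a c ha hc hK
  obtain ⟨F, hF, hF0, hFj⟩ := aram_seq hNf hN1 hc (K * r + 2) a ha hK
  -- the sets are nonempty
  have hne : ∀ j, j < K * r + 2 → el (mn (F j)) (F j) := by
    intro j hj
    obtain ⟨k, hk⟩ : ∃ k, j + (k + 1) = K * r + 2 := by
      obtain ⟨k, hk⟩ := exists_add_of_le (succ_le_iff.2 hj)
      exact ⟨k, by rw [hk, add_assoc, add_comm 1 k]⟩
    have h1 := (hFj j).1.2 (k + 1) (by rw [← hk]; exact le_add_self) hk
    rw [hN1] at h1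
    have h2 : ∃ x, el x (F j) := by
      rw [← card_pos]
      refine lt_of_lt_of_le ?_ h1
      exact lt_of_lt_of_le two_pos le_add_self
    obtain ⟨x, hx⟩ := h2
    exact el_mn hx
  -- monotonicity
  have hmono : ∀ j d, Sub (F (j + d)) (F j) := by
    intro j
    refine cind (by fun_prop) ?_ ?_
    · rw [add_zero]
      exact Sub.refl _
    · intro d hd
      rw [← add_assoc]
      exact (hFj (j + d)).2.1.1.trans hd
  have hmono2 : ∀ j l, j ≤ l → Sub (F l) (F j) := by
    intro j l hjl
    obtain ⟨d, rfl⟩ := exists_add_of_le hjl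
    exact hmono j d
  have hxne : ∀ j l, j < l → l < K * r + 2 → ¬ mn (F l) = mn (F j) := by
    intro j l hjl hl
    exact (hFj j).2.1.2 _ (hmono2 (j + 1) l (succ_le_iff.2 hjl) _ (hne l hl))
  have hxle : ∀ j l, j ≤ l → l < K * r + 2 → mn (F j) ≤ mn (F l) := by
    intro j l hjl hl
    exact mn_le (hmono2 j l hjl _ (hne l hl))
  have hlast : K * r + 1 < K * r + 2 := by
    rw [show K * r + 2 = (K * r + 1) + 1 by rw [add_assoc, one_add_one_eq_two]]
    exact lt_self_succ _
  -- pigeonhole for the indices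
  have hd : Comp M (fun j => c (mn (F j)) (mn (F (j + 1)))) := by fun_prop
  have hcard : K * r < card (ivl 0 (K * r + 1)) := by
    have h1 := card_ivl (b := 0) (c := K * r + 1) (zero_le' _)
    rw [add_zero] at h1
    rw [h1]
    exact lt_self_succ _
  obtain ⟨i, -, J, J1, J2, J3⟩ := php hd (a := ivl 0 (K * r + 1)) (K := K) (r := r)
    (by
      intro j hj
      have h1 := (el_ivl.1 hj).2
      have h2 : j < K * r + 2 := lt_trans h1 hlast
      have h3 : j + 1 < K * r + 2 := lt_of_le_of_lt (succ_le_iff.2 h1) hlast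
      refine hK _ _ ((hFj j).1.1 _ (hne j h2)) ((hFj (j + 1)).1.1 _ (hne (j + 1) h3)) ?_
      exact lt_of_le_of_ne (hxle j (j + 1) (lt_self_succ j).le h3)
        (Ne.symm (hxne j (j + 1) (lt_self_succ j) h3))) hcard
  have hJ : ∀ j, el j J → j < K * r + 1 := fun j hj => (el_ivl.1 (J1 j hj)).2
  have hmnF : Comp M (fun j => mn (F j)) := by fun_prop
  obtain ⟨b0, b1, -⟩ := exists_image hmnF J
  have hb0 : card J ≤ card b0 := by
    refine card_le_of_inj hmnF (fun x hx => (b1 _).2 ⟨x, hx, rfl⟩) ?_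
    intro x y hx hy hxy
    by_contra hne'
    rcases lt_or_gt_of_ne hne' with h | h
    · exact hxne x y h (lt_trans (hJ y hy) hlast) hxy.symm
    · exact hxne y x h (lt_trans (hJ x hx) hlast) hxy
  obtain ⟨b, b2, b3⟩ := exists_sub_card (a := b0) (k := r) (le_trans J3.le hb0)
  refine ⟨b, ?_, b3, i, ?_⟩
  · intro x hx
    obtain ⟨j, hj, rfl⟩ := (b1 x).1 (b2 x hx)
    exact (hFj j).1.1 _ (hne j (lt_trans (hJ j hj) hlast))
  · intro x y hx hy hxy
    obtain ⟨j, hj, rfl⟩ := (b1 x).1 (b2 x hx)
    obtain ⟨l, hl, rfl⟩ := (b1 y).1 (b2 y hy)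
    have hjl : j < l := by
      by_contra hcon
      rw [not_lt] at hcon
      exact absurd hxy (not_lt.2 (hxle l j hcon (lt_trans (hJ j hj) hlast)))
    have h1 : el (mn (F l)) (F (j + 1)) :=
      hmono2 (j + 1) l (succ_le_iff.2 hjl) _ (hne l (lt_trans (hJ l hl) hlast))
    have h2 : el (mn (F (j + 1))) (F (j + 1)) :=
      hne (j + 1) (lt_of_le_of_lt (succ_le_iff.2 (hJ j hj)) hlast)
    rw [(hFj j).2.2.2 _ h1 _ h2]
    exact ((J2 j).1 hj).2

end RT22P
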