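import Pool.Agent.RTP.ASig

/-!
# A3: search, definition by cases, recursion with values in coded types
-/

set_option autoImplicit false

namespace RT22P

section env0

variable {M : Type} [Env0 M] {Γ Δ Θ : Type} [Enc M Γ] [Enc M Δ] [Enc M Θ]

/-- `Δ₁` comprehension -/
theorem comp_delta {P : Γ → Prop} (h : Sig M P) (h' : Sig M (fun x => ¬ P x)) : Comp M P :=
  Env0.c_delta h h'

private theorem asearch_decΓ :
    Comp M (fun z : M => (Enc.e (M := M)).symm ((Pre.cp (M := M)).symm z).1 : M → Γ) :=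
  comp_comp (fun x : M => ((Enc.e (M := M)).symm x : Γ))
    (fun z : M => ((Pre.cp (M := M)).symm z).1) comp_dec
    (comp_fst (fun z : M => ((Pre.cp (M := M)).symm z : M × M)) Env0.c_cpsymm)

private theorem asearch_snd :
    Comp M (fun z : M => ((Pre.cp (M := M)).symm z).2) :=
  comp_snd (fun z : M => ((Pre.cp (M := M)).symm z : M × M)) Env0.c_cpsymm

/-- a function whose graph is `Σ₁` is computable -/
theorem comp_of_graph {f : Γ → Δ} (h : Sig M (fun q : Γ × Δ => q.2 = f q.1)) : Comp M f := by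
  have h1 : Sig M (fun z : M => Enc.e (M := M)
      (f ((Enc.e (M := M)).symm ((Pre.cp (M := M)).symm z).1)) =
      ((Pre.cp (M := M)).symm z).2) := by
    have hg : Comp M (fun z : M =>
        ((((Enc.e (M := M)).symm ((Pre.cp (M := M)).symm z).1 : Γ),
          ((Enc.e (M := M)).symm ((Pre.cp (M := M)).symm z).2 : Δ)) : Γ × Δ)) :=
      comp_prod _ _ asearch_decΓ
        (comp_comp (fun x : M => ((Enc.e (M := M)).symm x : Δ))
          (fun z : M => ((Pre.cp (M := M)).symm z).2) comp_dec asearch_snd)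
    refine sig_congr (sig_comp h hg) (fun z => ?_)
    constructor
    · intro e
      have e' : ((Enc.e (M := M)).symm ((Pre.cp (M := M)).symm z).2 : Δ) =
        f ((Enc.e (M := M)).symm ((Pre.cp (M := M)).symm z).1) := e
      rw [← e', Equiv.apply_symm_apply]
    · intro e
      show ((Enc.e (M := M)).symm ((Pre.cp (M := M)).symm z).2 : Δ) =
        f ((Enc.e (M := M)).symm ((Pre.cp (M := M)).symm z).1)
      rw [← e, Equiv.symm_apply_apply]
  have h2 : Sig M (fun z : M => ¬ (Enc.e (M := M)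
      (f ((Enc.e (M := M)).symm ((Pre.cp (M := M)).symm z).1)) =
      ((Pre.cp (M := M)).symm z).2)) := by
    have hg : Comp M (fun q : M × Δ =>
        ((((Enc.e (M := M)).symm ((Pre.cp (M := M)).symm q.1).1 : Γ), q.2) : Γ × Δ)) :=
      comp_prod _ _ (comp_comp (fun z : M =>
          ((Enc.e (M := M)).symm ((Pre.cp (M := M)).symm z).1 : Γ)) (fun q : M × Δ => q.1)
          asearch_decΓ (comp_fst _ comp_id)) (comp_snd _ comp_id)
    have hne : Comp M (fun q : M × Δ => ¬ (Enc.e (M := M) q.2 =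
        ((Pre.cp (M := M)).symm q.1).2)) :=
      comp_not _ (comp_eq _ _
        (comp_comp (fun x : Δ => (Enc.e (M := M) x : M)) (fun q : M × Δ => q.2) comp_enc
          (comp_snd _ comp_id))
        (comp_comp (fun z : M => ((Pre.cp (M := M)).symm z).2) (fun q : M × Δ => q.1)
          asearch_snd (comp_fst _ comp_id)))
    have h3 := sig_ex (P := fun (z : M) (d : Δ) =>
      d = f ((Enc.e (M := M)).symm ((Pre.cp (M := M)).symm z).1) ∧
        ¬ (Enc.e (M := M) d = ((Pre.cp (M := M)).symm z).2))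
      (sig_and (sig_comp h hg) (sig_of_comp hne))
    refine sig_congr h3 (fun z => ?_)
    constructor
    · rintro ⟨d, rfl, hd⟩; exact hd
    · intro hd; exact ⟨_, rfl, hd⟩
  exact Env0.c_set (comp_delta h1 h2)

/-- search for a `Σ₁` predicate in a coded type -/
theorem search {P : Γ → Δ → Prop} (hP : Sig M (fun q : Γ × Δ => P q.1 q.2))
    (h : ∀ v, ∃ x, P v x) : ∃ f : Γ → Δ, Comp M f ∧ ∀ v, P v (f v) := by
  obtain ⟨Q, hQ, hPQ⟩ := hP
  have hdec : Comp M (fun q : Γ × M => ((Enc.e (M := M)).symm q.2 : Δ × M)) :=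
    comp_comp (fun x : M => ((Enc.e (M := M)).symm x : Δ × M)) (fun q : Γ × M => q.2)
      comp_dec (comp_snd _ comp_id)
  have hc : Comp M (fun q : Γ × M => Q ((q.1, ((Enc.e (M := M)).symm q.2 : Δ × M).1),
      ((Enc.e (M := M)).symm q.2 : Δ × M).2)) :=
    comp_comp Q (fun q : Γ × M => ((q.1, ((Enc.e (M := M)).symm q.2 : Δ × M).1),
      ((Enc.e (M := M)).symm q.2 : Δ × M).2)) hQ
      (comp_prod _ _ (comp_prod _ _ (comp_fst _ comp_id) (comp_fst _ hdec)) (comp_snd _ hdec))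
  obtain ⟨F, hF, hF2⟩ := Env0.c_search hc (fun v => by
    obtain ⟨x, hx⟩ := h v
    obtain ⟨y, hy⟩ := (hPQ (v, x)).1 hx
    refine ⟨Enc.e (M := M) ((x, y) : Δ × M), ?_⟩
    show Q ((v, ((Enc.e (M := M)).symm (Enc.e (M := M) ((x, y) : Δ × M)) : Δ × M).1),
      ((Enc.e (M := M)).symm (Enc.e (M := M) ((x, y) : Δ × M)) : Δ × M).2)
    rw [Equiv.symm_apply_apply]
    exact hy)
  refine ⟨fun v => ((Enc.e (M := M)).symm (F v) : Δ × M).1, ?_, fun v => ?_⟩
  · exact comp_fst _ (comp_comp (fun x : M => ((Enc.e (M := M)).symm x : Δ × M)) F comp_dec hF)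
  · exact (hPQ (v, _)).2 ⟨_, (hF2 v).1⟩

/-- least number operator -/
theorem search_min {P : Γ → M → Prop} (hP : Comp M (fun q : Γ × M => P q.1 q.2))
    (h : ∀ v, ∃ x, P v x) :
    ∃ f : Γ → M, Comp M f ∧ ∀ v, P v (f v) ∧ ∀ x, x < f v → ¬ P v x :=
  Env0.c_search hP h

/-- definition by cases -/
theorem comp_ite {P : Γ → Prop} [DecidablePred P] {f g : Γ → Δ} (hP : Comp M P)
    (hf : Comp M f) (hg : Comp M g) : Comp M (fun x => if P x then f x else g x) := by
  apply comp_of_graph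
  have hP' : Comp M (fun q : Γ × Δ => P q.1) := comp_comp P (fun q : Γ × Δ => q.1) hP
    (comp_fst _ comp_id)
  have h1 : Comp M (fun q : Γ × Δ => (P q.1 ∧ q.2 = f q.1) ∨ (¬ P q.1 ∧ q.2 = g q.1)) :=
    comp_or _ _
      (comp_and _ _ hP' (comp_eq _ _ (comp_snd _ comp_id)
        (comp_comp f (fun q : Γ × Δ => q.1) hf (comp_fst _ comp_id))))
      (comp_and _ _ (comp_not _ hP') (comp_eq _ _ (comp_snd _ comp_id)
        (comp_comp g (fun q : Γ × Δ => q.1) hg (comp_fst _ comp_id))))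
  refine sig_congr (sig_of_comp h1) (fun q => ?_)
  by_cases hq : P q.1
  · simp [hq]
  · simp [hq]

theorem comp_max {f g : Γ → M} (hf : Comp M f) (hg : Comp M g) :
    Comp M (fun x => max (f x) (g x)) := by
  have h := comp_ite (comp_le f g hf hg) hg hf
  have e : (fun x => max (f x) (g x)) = (fun x => if f x ≤ g x then g x else f x) := by
    funext x; exact max_def _ _
  rw [e]; exact h

theorem comp_min {f g : Γ → M} (hf : Comp M f) (hg : Comp M g) :
    Comp M (fun x => min (f x) (g x)) := by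
  have h := comp_ite (comp_le f g hf hg) hf hg
  have e : (fun x => min (f x) (g x)) = (fun x => if f x ≤ g x then f x else g x) := by
    funext x; exact min_def _ _
  rw [e]; exact h

/-- truncated subtraction -/
theorem exists_tsub (M : Type) [Env0 M] : ∃ s : M → M → M,
    Comp M (fun q : M × M => s q.1 q.2) ∧ (∀ x y, y ≤ x → s x y + y = x) ∧
      ∀ x y, x ≤ y → s x y = 0 := by
  have hc : Comp M (fun q : (M × M) × M => (q.1.2 ≤ q.1.1 ∧ q.2 + q.1.2 = q.1.1) ∨
      (¬ q.1.2 ≤ q.1.1 ∧ q.2 = 0)) := by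
    have h11 : Comp M (fun q : (M × M) × M => q.1.1) := comp_fst _ (comp_fst _ comp_id)
    have h12 : Comp M (fun q : (M × M) × M => q.1.2) := comp_snd _ (comp_fst _ comp_id)
    have h2 : Comp M (fun q : (M × M) × M => q.2) := comp_snd _ comp_id
    exact comp_or _ _ (comp_and _ _ (comp_le _ _ h12 h11) (comp_eq _ _ (comp_add _ _ h2 h12) h11))
      (comp_and _ _ (comp_not _ (comp_le _ _ h12 h11)) (comp_eq _ _ h2 (comp_const 0)))
  obtain ⟨F, hF, hF2⟩ := Env0.c_search hc (fun v => by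
    by_cases hv : v.2 ≤ v.1
    · obtain ⟨c, hc⟩ := le_iff_exists_add.1 hv
      exact ⟨c, Or.inl ⟨hv, by show c + v.2 = v.1; rw [hc, add_comm]⟩⟩
    · exact ⟨0, Or.inr ⟨hv, rfl⟩⟩)
  refine ⟨fun x y => F (x, y), hF, fun x y hxy => ?_, fun x y hxy => ?_⟩
  · rcases (hF2 (x, y)).1 with h | h
    · exact h.2
    · exact absurd hxy h.1
  · rcases (hF2 (x, y)).1 with h | h
    · have h1 : y ≤ x := h.1
      have h2 : F (x, y) + y = x := h.2
      have e : y = x := le_antisymm h1 hxy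
      have h3 : F (x, y) + y = 0 + y := by rw [h2, zero_add, e]
      exact add_right_cancel h3
    · exact h.2

end env0

section env1

variable {M : Type} [Env1 M] {Γ Δ Θ : Type} [Enc M Γ] [Enc M Δ] [Enc M Θ]

/-- primitive recursion with values in a coded type -/
theorem prec {g : Γ → Δ} {h : Γ → M → Δ → Δ} (hg : Comp M g)
    (hh : Comp M (fun q : Γ × M × Δ => h q.1 q.2.1 q.2.2)) :
    ∃ F : Γ → M → Δ, Comp M (fun q : Γ × M => F q.1 q.2) ∧ (∀ v, F v 0 = g v) ∧
      ∀ v n, F v (n + 1) = h v n (F v n) := by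
  have hg' : Comp M (fun v : Γ => Enc.e (M := M) (g v)) :=
    comp_comp (fun x : Δ => (Enc.e (M := M) x : M)) g comp_enc hg
  have hh' : Comp M (fun q : Γ × (M × M) =>
      Enc.e (M := M) (h q.1 q.2.1 ((Enc.e (M := M)).symm q.2.2))) := by
    have h2 : Comp M (fun q : Γ × (M × M) => ((Enc.e (M := M)).symm q.2.2 : Δ)) :=
      comp_comp (fun x : M => ((Enc.e (M := M)).symm x : Δ)) (fun q : Γ × (M × M) => q.2.2)
        comp_dec (comp_snd _ (comp_snd _ comp_id))
    have h3 : Comp M (fun q : Γ × (M × M) =>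
        ((q.1, q.2.1, ((Enc.e (M := M)).symm q.2.2 : Δ)) : Γ × M × Δ)) :=
      comp_prod _ _ (comp_fst _ comp_id)
        (comp_prod _ _ (comp_fst _ (comp_snd _ comp_id)) h2)
    exact comp_comp (fun x : Δ => (Enc.e (M := M) x : M)) _ comp_enc
      (comp_comp (fun q : Γ × M × Δ => h q.1 q.2.1 q.2.2) _ hh h3)
  obtain ⟨F, hF, hF0, hF1⟩ := Env1.c_prec hg' hh'
  refine ⟨fun v n => (Enc.e (M := M)).symm (F (v, n)), ?_, fun v => ?_, fun v n => ?_⟩
  · exact comp_comp (fun x : M => ((Enc.e (M := M)).symm x : Δ)) (fun q : Γ × M => F (q.1, q.2))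
      comp_dec hF
  · show (Enc.e (M := M)).symm (F (v, 0)) = g v
    rw [hF0, Equiv.symm_apply_apply]
  · show (Enc.e (M := M)).symm (F (v, n + 1)) = _
    rw [hF1]
    exact Equiv.symm_apply_apply _ _

/-- iteration without parameters -/
theorem iter (a : Δ) {h : M → Δ → Δ} (hh : Comp M (fun q : M × Δ => h q.1 q.2)) :
    ∃ F : M → Δ, Comp M F ∧ F 0 = a ∧ ∀ n, F (n + 1) = h n (F n) := by
  have hh' : Comp M (fun q : M × M × Δ => h q.2.1 q.2.2) :=
    comp_comp (fun q : M × Δ => h q.1 q.2) (fun q : M × M × Δ => q.2) hh (comp_snd _ comp_id)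
  obtain ⟨F, hF, hF0, hF1⟩ := prec (g := fun _ : M => a) (h := fun _ n x => h n x)
    (comp_const a) hh'
  refine ⟨fun n => F 0 n, ?_, hF0 0, fun n => hF1 0 n⟩
  exact comp_comp (fun q : M × M => F q.1 q.2) (fun n : M => ((0, n) : M × M)) hF
    (comp_prod _ _ (comp_const 0) comp_id)

/-- iterated search: `R n (F n) (F (n + 1))` for all `n`; `I` is an invariant -/
theorem iterS (a : Δ) {I : M → Δ → Prop} {R : M → Δ → Δ → Prop}
    (hI : Comp M (fun q : M × Δ => I q.1 q.2))
    (hR : Sig M (fun q : M × Δ × Δ => R q.1 q.2.1 q.2.2)) (h0 : I 0 a)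
    (h1 : ∀ n x, I n x → ∃ y, R n x y) (h2 : ∀ n x y, I n x → R n x y → I (n + 1) y) :
    ∃ F : M → Δ, Comp M F ∧ F 0 = a ∧ ∀ n, I n (F n) ∧ R n (F n) (F (n + 1)) := by
  have hs : Sig M (fun q : (M × Δ) × Δ => ¬ I q.1.1 q.1.2 ∨ R q.1.1 q.1.2 q.2) := by
    apply sig_or
    · exact sig_of_comp (comp_not _ (comp_comp (fun q : M × Δ => I q.1 q.2)
        (fun q : (M × Δ) × Δ => q.1) hI (comp_fst _ comp_id)))
    · exact sig_comp hR (g := fun q : (M × Δ) × Δ => ((q.1.1, q.1.2, q.2) : M × Δ × Δ))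
        (comp_prod _ _ (comp_fst _ (comp_fst _ comp_id))
          (comp_prod _ _ (comp_snd _ (comp_fst _ comp_id)) (comp_snd _ comp_id)))
  obtain ⟨h, hh, hh2⟩ := search (P := fun (v : M × Δ) (y : Δ) => ¬ I v.1 v.2 ∨ R v.1 v.2 y) hs
    (fun v => by
      by_cases hv : I v.1 v.2
      · obtain ⟨y, hy⟩ := h1 v.1 v.2 hv
        exact ⟨y, Or.inr hy⟩
      · exact ⟨a, Or.inl hv⟩)
  obtain ⟨F, hF, hF0, hF1⟩ := iter a (h := fun n x => h (n, x)) hh
  have hinv : ∀ n, I n (F n) := by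
    refine cind (P := fun n => I n (F n)) ?_ ?_ ?_
    · exact comp_comp (fun q : M × Δ => I q.1 q.2) (fun n : M => ((n, F n) : M × Δ)) hI
        (comp_prod _ _ comp_id hF)
    · show I 0 (F 0)
      rw [hF0]; exact h0
    · intro n hn
      have := hh2 (n, F n)
      rcases this with h3 | h3
      · exact absurd hn h3
      · show I (n + 1) (F (n + 1))
        rw [hF1]
        exact h2 n (F n) _ hn h3
  refine ⟨F, hF, hF0, fun n => ⟨hinv n, ?_⟩⟩
  rcases hh2 (n, F n) with h3 | h3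
  · exact absurd (hinv n) h3
  · rw [hF1]; exact h3

end env1

end RT22P
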