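import Pool.Agent.RTP.AInd

/-!
# A2: `Σ₁` predicates (over `Env0`)

`Sig` goals by `fun_prop`. In `sig_ex` the quantifier is over a coded type (transport by `Enc.e`).
-/

set_option autoImplicit false

namespace RT22P

variable {M : Type} [Env0 M] {Γ Δ Θ : Type} [Enc M Γ] [Enc M Δ] [Enc M Θ]

/-- encoding and decoding of coded types are computable -/
theorem comp_enc : Comp M (fun x : Γ => (Enc.e (M := M) x : M)) :=
  Env0.c_id (M := M) (Γ := Γ)

theorem comp_dec : Comp M (fun x : M => ((Enc.e (M := M)).symm x : Γ)) := by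
  have h : Comp M (fun x : M => x) := Env0.c_id
  unfold Comp at h ⊢
  have e : {z : M | Cod.emb ((Enc.e (M := M)).symm ((Enc.e (M := M)).symm
      ((Pre.cp (M := M)).symm z).1 : M) : Γ) ((Pre.cp (M := M)).symm z).2} =
      {z : M | Cod.emb ((Enc.e (M := M)).symm ((Pre.cp (M := M)).symm z).1 : M)
        ((Pre.cp (M := M)).symm z).2} := by
    ext z
    show ((Enc.e (M := M)) ((Enc.e (M := M)).symm ((Enc.e (M := M)).symm
      ((Pre.cp (M := M)).symm z).1 : M) : Γ) = ((Pre.cp (M := M)).symm z).2) ↔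
      ((Enc.e (M := M)) ((Enc.e (M := M)).symm ((Pre.cp (M := M)).symm z).1 : M) =
        ((Pre.cp (M := M)).symm z).2)
    rw [Equiv.apply_symm_apply, Equiv.apply_symm_apply]
    rfl
  rw [e]
  exact h

theorem sig_of_comp {P : Γ → Prop} (hP : Comp M P) : Sig M P :=
  ⟨fun q => P q.1, Env0.c_comp hP Env0.c_fst, fun _ => ⟨fun h => ⟨0, h⟩, fun ⟨_, h⟩ => h⟩⟩

theorem sig_congr {P Q : Γ → Prop} (hP : Sig M P) (e : ∀ x, P x ↔ Q x) : Sig M Q := by
  obtain ⟨R, hR, h⟩ := hP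
  exact ⟨R, hR, fun v => (e v).symm.trans (h v)⟩

theorem sig_comp {P : Δ → Prop} {g : Γ → Δ} (hP : Sig M P) (hg : Comp M g) :
    Sig M (fun x => P (g x)) := by
  obtain ⟨R, hR, h⟩ := hP
  exact ⟨fun q => R (g q.1, q.2),
    Env0.c_comp hR (Env0.c_prod (Env0.c_comp hg Env0.c_fst) Env0.c_snd), fun v => h (g v)⟩

private theorem aSig_cps {f : Γ → M} (hf : Comp M f) :
    Comp M (fun x => ((Pre.cp (M := M)).symm (f x) : M × M)) :=
  Env0.c_comp (f := fun x : M => ((Pre.cp (M := M)).symm x : M × M)) Env0.c_cpsymm hf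

theorem sig_and {P Q : Γ → Prop} (hP : Sig M P) (hQ : Sig M Q) :
    Sig M (fun x => P x ∧ Q x) := by
  obtain ⟨R, hR, h1⟩ := hP
  obtain ⟨T, hT, h2⟩ := hQ
  have hs : Comp M (fun q : Γ × M => ((Pre.cp (M := M)).symm q.2 : M × M)) :=
    aSig_cps Env0.c_snd
  refine ⟨fun q => R (q.1, ((Pre.cp (M := M)).symm q.2).1) ∧
    T (q.1, ((Pre.cp (M := M)).symm q.2).2), Env0.c_and
      (Env0.c_comp hR (Env0.c_prod Env0.c_fst (comp_fst _ hs)))
      (Env0.c_comp hT (Env0.c_prod Env0.c_fst (comp_snd _ hs))), fun v => ?_⟩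
  show (P v ∧ Q v) ↔ _
  rw [h1 v, h2 v]
  constructor
  · rintro ⟨⟨y, hy⟩, ⟨z, hz⟩⟩
    refine ⟨(Pre.cp (M := M)) (y, z), ?_⟩
    show R (v, ((Pre.cp (M := M)).symm ((Pre.cp (M := M)) (y, z))).1) ∧
      T (v, ((Pre.cp (M := M)).symm ((Pre.cp (M := M)) (y, z))).2)
    rw [Equiv.symm_apply_apply]
    exact ⟨hy, hz⟩
  · rintro ⟨w, hw1, hw2⟩
    exact ⟨⟨_, hw1⟩, ⟨_, hw2⟩⟩

theorem sig_or {P Q : Γ → Prop} (hP : Sig M P) (hQ : Sig M Q) :
    Sig M (fun x => P x ∨ Q x) := by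
  obtain ⟨R, hR, h1⟩ := hP
  obtain ⟨T, hT, h2⟩ := hQ
  refine ⟨fun q => R q ∨ T q, comp_or _ _ hR hT, fun v => ?_⟩
  show (P v ∨ Q v) ↔ _
  rw [h1 v, h2 v]
  constructor
  · rintro (⟨y, hy⟩ | ⟨y, hy⟩)
    · exact ⟨y, Or.inl hy⟩
    · exact ⟨y, Or.inr hy⟩
  · rintro ⟨y, hy | hy⟩
    · exact Or.inl ⟨y, hy⟩
    · exact Or.inr ⟨y, hy⟩

theorem sig_ex {P : Γ → Δ → Prop} (hP : Sig M (fun q : Γ × Δ => P q.1 q.2)) :
    Sig M (fun x => ∃ y, P x y) := by
  obtain ⟨R, hR, h⟩ := hP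
  have hs : Comp M (fun q : Γ × M => ((Pre.cp (M := M)).symm q.2 : M × M)) :=
    aSig_cps Env0.c_snd
  have hd : Comp M (fun q : Γ × M =>
      ((Enc.e (M := M)).symm ((Pre.cp (M := M)).symm q.2).1 : Δ)) :=
    Env0.c_comp (f := fun x : M => ((Enc.e (M := M)).symm x : Δ)) comp_dec (comp_fst _ hs)
  refine ⟨fun q => R ((q.1, (Enc.e (M := M)).symm ((Pre.cp (M := M)).symm q.2).1),
    ((Pre.cp (M := M)).symm q.2).2),
    Env0.c_comp hR (Env0.c_prod (Env0.c_prod Env0.c_fst hd) (comp_snd _ hs)), fun v => ?_⟩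
  constructor
  · rintro ⟨y, hy⟩
    obtain ⟨z, hz⟩ := (h (v, y)).1 hy
    refine ⟨(Pre.cp (M := M)) ((Enc.e (M := M)) y, z), ?_⟩
    show R ((v, (Enc.e (M := M)).symm
      ((Pre.cp (M := M)).symm ((Pre.cp (M := M)) ((Enc.e (M := M)) y, z))).1),
      ((Pre.cp (M := M)).symm ((Pre.cp (M := M)) ((Enc.e (M := M)) y, z))).2)
    rw [Equiv.symm_apply_apply]
    show R ((v, (Enc.e (M := M)).symm ((Enc.e (M := M)) y)), z)
    rw [Equiv.symm_apply_apply]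
    exact hz
  · rintro ⟨w, hw⟩
    exact ⟨_, (h (v, _)).2 ⟨_, hw⟩⟩

theorem sig_bex {t : Γ → M} {P : Γ → M → Prop} (ht : Comp M t)
    (hP : Sig M (fun q : Γ × M => P q.1 q.2)) : Sig M (fun x => ∃ y, y < t x ∧ P x y) :=
  sig_ex (P := fun x y => y < t x ∧ P x y)
    (sig_and (sig_of_comp (comp_lt _ _ Env0.c_snd (Env0.c_comp ht Env0.c_fst))) hP)

private theorem aSig_bd {Q : (M × M) × M → Prop} (hQ : Comp M Q) (b : M)
    (h : ∀ x, x < b → ∃ y z, Q ((x, y), z)) :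
    ∃ w, ∀ x, x < b → ∃ y, y < w ∧ ∃ z, z < w ∧ Q ((x, y), z) := by
  have key : ∀ n : M, n ≤ b → ∃ w, ∀ x, x < n → ∃ y, y < w ∧ ∃ z, z < w ∧ Q ((x, y), z) := by
    apply sind
    · have hc : Comp M (fun q : M × M => q.1 ≤ b → ∀ x, x < q.1 → ∃ y, y < q.2 ∧
          ∃ z, z < q.2 ∧ Q ((x, y), z)) := by
        fun_prop
      refine ⟨_, hc, fun n => ?_⟩
      constructor
      · intro hn
        by_cases hb : n ≤ b
        · obtain ⟨w, hw⟩ := hn hb
          exact ⟨w, fun _ => hw⟩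
        · exact ⟨0, fun h' => absurd h' hb⟩
      · rintro ⟨w, hw⟩ hb
        exact ⟨w, hw hb⟩
    · intro _
      exact ⟨0, fun x hx => absurd hx (not_lt_zero' x)⟩
    · intro n ih hn
      have hnb : n < b := succ_le_iff.1 hn
      obtain ⟨w, hw⟩ := ih hnb.le
      obtain ⟨y, z, hyz⟩ := h n hnb
      refine ⟨w + y + z + 1, fun x hx => ?_⟩
      rcases (lt_succ.1 hx).lt_or_eq with h1 | h1
      · obtain ⟨y', hy', z', hz', hq⟩ := hw x h1
        have hle : w ≤ w + y + z + 1 := by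
          rw [add_assoc, add_assoc]
          exact le_self_add
        exact ⟨y', hy'.trans_le hle, z', hz'.trans_le hle, hq⟩
      · subst h1
        refine ⟨y, ?_, z, ?_, hyz⟩
        · have h2 : y ≤ w + y + z := by
            rw [add_comm w y, add_assoc]
            exact le_self_add
          exact lt_succ.2 h2
        · have h2 : z ≤ w + y + z := by
            rw [add_comm (w + y) z]
            exact le_self_add
          exact lt_succ.2 h2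
  exact key b le_rfl

/-- `Σ₁` bounding -/
theorem sbd {P : M → M → Prop} (hP : Sig M (fun q : M × M => P q.1 q.2)) (b : M)
    (h : ∀ x, x < b → ∃ y, P x y) : ∃ w, ∀ x, x < b → ∃ y, y < w ∧ P x y := by
  obtain ⟨Q, hQ, hPQ⟩ := hP
  obtain ⟨w, hw⟩ := aSig_bd hQ b (fun x hx => by
    obtain ⟨y, hy⟩ := h x hx
    obtain ⟨z, hz⟩ := (hPQ (x, y)).1 hy
    exact ⟨y, z, hz⟩)
  refine ⟨w, fun x hx => ?_⟩
  obtain ⟨y, hy, z, _, hq⟩ := hw x hx
  exact ⟨y, hy, (hPQ (x, y)).2 ⟨z, hq⟩⟩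

theorem sig_ball {t : Γ → M} {P : Γ → M → Prop} (ht : Comp M t)
    (hP : Sig M (fun q : Γ × M => P q.1 q.2)) : Sig M (fun x => ∀ y, y < t x → P x y) := by
  obtain ⟨Q, hQ, hPQ⟩ := hP
  have hc : Comp M (fun q : Γ × M => ∀ y, y < t q.1 → ∃ z, z < q.2 ∧ Q ((q.1, y), z)) := by
    fun_prop
  refine ⟨_, hc, fun v => ?_⟩
  constructor
  · intro hv
    obtain ⟨w, hw⟩ := sbd (P := fun y z => Q ((v, y), z))
      (sig_of_comp (P := fun q : M × M => Q ((v, q.1), q.2)) (by fun_prop)) (t v)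
      (fun y hy => (hPQ (v, y)).1 (hv y hy))
    exact ⟨w, hw⟩
  · rintro ⟨w, hw⟩ y hy
    obtain ⟨z, _, hq⟩ := hw y hy
    exact (hPQ (v, y)).2 ⟨z, hq⟩

theorem sig_ballle {t : Γ → M} {P : Γ → M → Prop} (ht : Comp M t)
    (hP : Sig M (fun q : Γ × M => P q.1 q.2)) : Sig M (fun x => ∀ y, y ≤ t x → P x y) :=
  sig_congr (sig_ball (t := fun x => t x + 1) (comp_add _ _ ht (comp_const 1)) hP)
    (fun _ => ⟨fun h y hy => h y (lt_succ.2 hy), fun h y hy => h y (lt_succ.1 hy)⟩)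

end RT22P
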