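import Pool.Agent.RTP.St
import Pool.Agent.R3S.Final

/-!
# RTP, module Dta: the theorem of arcs for detected sets

Helper74, for MP_0707f5_ag.
-/

set_option autoImplicit false

namespace Pool.Agent.RTP

open Matrix
open Pool.Agent.LGP (F ga gb gx stdL stdM MC NS Mv MR)
open _root_.R3S (Unif CP Bd)

private theorem Dta_cp {g n : ℕ} {x : F g n} (hx : NSc x) : ∃ z : F g n, NS z ∧
    ∀ (K : Type) [Field K] (O : ValuationSubring K) (ρ : F g n →* GL (Fin 3) K),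
      CP O (ρ z) → CP O (ρ x) := by
  obtain ⟨z, c, hz, h⟩ := hx
  refine ⟨z, hz, ?_⟩
  intro K _ O ρ hc
  have B := (_root_.R3S.thm_BAS K O).2.2
  rcases h with rfl | rfl
  · have h1 := (B _ hc).2.2 (ρ c)
    rw [map_mul, map_mul, map_inv]
    exact h1
  · have h1 := (B _ (B _ hc).1).2.2 (ρ c)
    rw [map_mul, map_mul, map_inv, map_inv]
    exact h1

theorem thm_Dta : St_Dta := by
  intro g n m y h1 h2
  choose f1 hf1 hc1 using fun p : {p : Fin m × Fin m // p.1 < p.2} =>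
    Dta_cp (h1 p.1.1 p.1.2 p.2)
  choose f2 hf2 hc2 using
    fun p : {p : Fin m × Fin m × Fin m // p.1 < p.2.1 ∧ p.2.1 < p.2.2} =>
      Dta_cp (h2 p.1.1 p.1.2.1 p.1.2.2 p.2.1 p.2.2)
  refine ⟨Set.range f1 ∪ Set.range f2, (Set.finite_range _).union (Set.finite_range _), ?_, ?_⟩
  · rintro x (⟨p, rfl⟩ | ⟨p, rfl⟩)
    · exact hf1 p
    · exact hf2 p
  intro K _ O t ht ρ hρ
  have key := _root_.R3S.arc K O t ht m (fun i => ρ (y i)) (fun i j hij => by
      have h3 := hc1 ⟨(i, j), hij⟩ K O ρ (hρ _ (Or.inl ⟨_, rfl⟩))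
      rw [map_mul, map_inv] at h3
      exact h3) (fun i j k hij hjk => by
      have h3 := hc2 ⟨(i, j, k), hij, hjk⟩ K O ρ (hρ _ (Or.inr ⟨_, rfl⟩))
      rw [map_mul, map_mul, map_mul, map_inv, map_inv] at h3
      exact h3)
  have e : ρ '' {x | ∃ i j, x = (y i)⁻¹ * y j} =
      {γ : GL (Fin 3) K | ∃ i j, γ = (ρ (y i))⁻¹ * ρ (y j)} := by
    ext γ
    constructor
    · rintro ⟨x, ⟨i, j, rfl⟩, rfl⟩
      exact ⟨i, j, by rw [map_mul, map_inv]⟩
    · rintro ⟨i, j, rfl⟩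
      exact ⟨_, ⟨i, j, rfl⟩, by rw [map_mul, map_inv]⟩
  rw [e]
  exact key

end Pool.Agent.RTP
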