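import Pool.Agent.RTP.St

/-!
# RTP, module Gen: everything is detected
-/

set_option autoImplicit false

namespace Pool.Agent.RTP

open Matrix
open Pool.Agent.LGP (F ga gb gx stdL stdM MC NS Mv MR)
open Helper12.Sc (Step Reach)
open _root_.R3S (Unif CP Bd)

/-- rotate a handle or not -/
private def rr {Γ : Type} [Group Γ] (q : Bool × (Γ × Γ)) : Γ × Γ :=
  if q.1 then (q.2.2⁻¹, q.2.2 * q.2.1 * q.2.2⁻¹) else q.2

private theorem reach_rr {Γ : Type} [Group Γ] (l : List (Bool × (Γ × Γ))) :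
    Reach (l.map Prod.snd) (l.map rr) := by
  induction l with
  | nil => exact Reach.refl _
  | cons q t ih =>
    obtain ⟨b, x, y⟩ := q
    have h2 := ih.context [rr (b, (x, y))] []
    have h1 : Reach ((x, y) :: t.map Prod.snd) (rr (b, (x, y)) :: t.map Prod.snd) := by
      cases b
      · exact Reach.refl _
      · have h := Reach.of_step (Step.rot [] (t.map Prod.snd) x y)
        simpa [rr] using h
    simp only [List.append_nil, List.cons_append, List.nil_append] at h2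
    simp only [List.map_cons]
    exact h1.trans h2

/-- conjugation by the commutator of the handle `p` -/
private def cj {Γ : Type} [Group Γ] (p q : Γ × Γ) : Γ × Γ :=
  ((p.1 * p.2 * p.1⁻¹ * p.2⁻¹)⁻¹ * q.1 * (p.1 * p.2 * p.1⁻¹ * p.2⁻¹),
    (p.1 * p.2 * p.1⁻¹ * p.2⁻¹)⁻¹ * q.2 * (p.1 * p.2 * p.1⁻¹ * p.2⁻¹))

private theorem reach_front {Γ : Type} [Group Γ] (p : Γ × Γ) (s t : List (Γ × Γ)) :
    Reach (s ++ p :: t) (p :: (s.map (cj p) ++ t)) := by
  induction s with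
  | nil => exact Reach.refl _
  | cons q s ih =>
    obtain ⟨a, b⟩ := q
    obtain ⟨c, d⟩ := p
    have h1 := ih.context [(a, b)] []
    have h2 := Reach.of_step (Step.br' [] (s.map (cj (c, d)) ++ t) a b c d)
    simp only [List.nil_append, List.append_nil, List.cons_append] at h1 h2
    simpa [cj] using h1.trans h2

/-- the rotated standard handles -/
private def pp {g n : ℕ} (c : Fin g → Bool) (k : Fin g) : F g n × F g n := rr (c k, (ga k, gb k))

private theorem hol_pp {g n : ℕ} (i : Fin g) (c : Fin g → Bool) :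
    ∃ s t : List (F g n × F g n), List.ofFn (pp c) = s ++ pp c i :: t ∧
      Hol (pp c i).1 (pp c i).2
        ((s.map (cj (pp c i)) ++ t).map Prod.fst ++ stdM g n) := by
  have hmem : (pp c i : F g n × F g n) ∈ List.ofFn (pp c) := List.mem_ofFn.2 ⟨i, rfl⟩
  obtain ⟨s, t, hst⟩ := List.append_of_mem hmem
  refine ⟨s, t, hst, [], s.map (cj (pp c i)) ++ t, stdM g n, _, _, ?_, rfl, List.Sublist.refl _,
    List.Sublist.refl _⟩
  have h1 := reach_rr (List.ofFn fun k : Fin g => (c k, ((ga k, gb k) : F g n × F g n)))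
  rw [List.map_ofFn, List.map_ofFn] at h1
  have h2 : Reach (stdL g n) (List.ofFn (pp c)) := h1
  rw [hst] at h2
  exact Pool.Agent.LGP.Psh_MR (stdM g n) (h2.trans (reach_front (pp c i) s t))

private theorem dt_pp (hDtm : St_Dtm) (hHal : St_Hal) {g n : ℕ} (i : Fin g) (c : Fin g → Bool) :
    Dt ({x | x = ga i ∨ x = gb i ∨ (∃ k, x = (pp c k).1) ∨ ∃ j, x = gx j} : Set (F g n)) := by
  obtain ⟨s, t, hst, hh⟩ := hol_pp (n := n) i c
  refine hDtm g n _ _ ?_ (hHal g n _ _ _ hh)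
  set A := (pp c i : F g n × F g n).1 with hA
  set B := (pp c i : F g n × F g n).2 with hB
  set l := (s.map (cj (pp c i)) ++ t).map Prod.fst ++ stdM g n with hl
  set G := Subgroup.closure ({A, B} ∪ {y | y ∈ l}) with hG
  have mA : A ∈ G := Subgroup.subset_closure (Or.inl (Or.inl rfl))
  have mB : B ∈ G := Subgroup.subset_closure (Or.inl (Or.inr rfl))
  have ml : ∀ y ∈ l, y ∈ G := fun y hy => Subgroup.subset_closure (Or.inr hy)
  have mab : ga i ∈ G ∧ gb i ∈ G := by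
    rcases hc : c i with _ | _
    · have e1 : A = ga i := by rw [hA]; simp [pp, rr, hc]
      have e2 : B = gb i := by rw [hB]; simp [pp, rr, hc]
      exact ⟨e1 ▸ mA, e2 ▸ mB⟩
    · have e1 : A = (gb i)⁻¹ := by rw [hA]; simp [pp, rr, hc]
      have e2 : B = gb i * ga i * (gb i)⁻¹ := by rw [hB]; simp [pp, rr, hc]
      have h1 : gb i ∈ G := by
        rw [e1] at mA
        exact (Subgroup.inv_mem_iff G).1 mA
      refine ⟨?_, h1⟩
      have h2 := G.mul_mem (G.mul_mem (G.inv_mem h1) mB) h1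
      have e3 : (gb i)⁻¹ * B * gb i = ga i := by rw [e2]; group
      rwa [e3] at h2
  have mp : ∀ k, (pp c k).1 ∈ G := by
    intro k
    have hk : (pp c k : F g n × F g n) ∈ List.ofFn (pp c) := List.mem_ofFn.2 ⟨k, rfl⟩
    rw [hst] at hk
    rcases List.mem_append.1 hk with hk | hk
    · have h1 : (cj (pp c i) (pp c k)).1 ∈ l :=
        List.mem_append_left _ (List.mem_map_of_mem (List.mem_append_left _
          (List.mem_map_of_mem hk)))
      have h2 := ml _ h1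
      have hδ : A * B * A⁻¹ * B⁻¹ ∈ G :=
        G.mul_mem (G.mul_mem (G.mul_mem mA mB) (G.inv_mem mA)) (G.inv_mem mB)
      have h3 := G.mul_mem (G.mul_mem hδ h2) (G.inv_mem hδ)
      have e : A * B * A⁻¹ * B⁻¹ * (cj (pp c i) (pp c k)).1 * (A * B * A⁻¹ * B⁻¹)⁻¹ =
          (pp c k).1 := by
        rw [cj, ← hA, ← hB]
        group
      rwa [e] at h3
    · rcases List.mem_cons.1 hk with hk | hk
      · rw [hk]
        exact mA
      · exact ml _ (List.mem_append_left _ (List.mem_map_of_mem (List.mem_append_right _ hk)))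
  rintro x (rfl | rfl | ⟨k, rfl⟩ | ⟨j, rfl⟩)
  · exact mab.1
  · exact mab.2
  · exact mp k
  · exact ml _ (List.mem_append_right _ (List.mem_ofFn.2 ⟨j, rfl⟩))

/-- covered generators -/
private def cov {g n : ℕ} (i : Fin g) (c : Fin g → Bool) (u : (Fin g × Bool) ⊕ Fin n) : Prop :=
  match u with
  | Sum.inl (k, b) => k = i ∨ b = c k
  | Sum.inr _ => True

private theorem exists_cov {g n : ℕ} (hg : 0 < g) (u v w : (Fin g × Bool) ⊕ Fin n) :
    ∃ (i : Fin g) (c : Fin g → Bool), cov i c u ∧ cov i c v ∧ cov i c w := by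
  -- two
  have h2 : ∀ (k₂ : Fin g) (b₂ : Bool) (k₃ : Fin g) (b₃ : Bool), ∃ (i : Fin g) (c : Fin g → Bool),
      (k₂ = i ∨ b₂ = c k₂) ∧ (k₃ = i ∨ b₃ = c k₃) := fun k₂ b₂ k₃ b₃ =>
    ⟨k₂, fun _ => b₃, Or.inl rfl, Or.inr rfl⟩
  -- three
  have h3 : ∀ (k₁ : Fin g) (b₁ : Bool) (k₂ : Fin g) (b₂ : Bool) (k₃ : Fin g) (b₃ : Bool),
      ∃ (i : Fin g) (c : Fin g → Bool),
        (k₁ = i ∨ b₁ = c k₁) ∧ (k₂ = i ∨ b₂ = c k₂) ∧ (k₃ = i ∨ b₃ = c k₃) := by
    intro k₁ b₁ k₂ b₂ k₃ b₃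
    by_cases h : k₂ = k₃
    · exact ⟨k₂, fun _ => b₁, Or.inr rfl, Or.inl rfl, Or.inl h.symm⟩
    · refine ⟨k₁, fun j => if j = k₂ then b₂ else b₃, Or.inl rfl, Or.inr ?_, Or.inr ?_⟩
      · simp
      · exact (if_neg (fun e : k₃ = k₂ => h e.symm)).symm
  rcases u with ⟨k₁, b₁⟩ | j₁ <;> rcases v with ⟨k₂, b₂⟩ | j₂ <;> rcases w with ⟨k₃, b₃⟩ | j₃
  · obtain ⟨i, c, a, b, d⟩ := h3 k₁ b₁ k₂ b₂ k₃ b₃
    exact ⟨i, c, a, b, d⟩
  · obtain ⟨i, c, a, b⟩ := h2 k₁ b₁ k₂ b₂
    exact ⟨i, c, a, b, trivial⟩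
  · obtain ⟨i, c, a, b⟩ := h2 k₁ b₁ k₃ b₃
    exact ⟨i, c, a, trivial, b⟩
  · exact ⟨k₁, fun _ => false, Or.inl rfl, trivial, trivial⟩
  · obtain ⟨i, c, a, b⟩ := h2 k₂ b₂ k₃ b₃
    exact ⟨i, c, trivial, a, b⟩
  · exact ⟨k₂, fun _ => false, trivial, Or.inl rfl, trivial⟩
  · exact ⟨k₃, fun _ => false, trivial, trivial, Or.inl rfl⟩
  · exact ⟨⟨0, hg⟩, fun _ => false, trivial, trivial, trivial⟩

private theorem mem_of_cov {g n : ℕ} (i : Fin g) (c : Fin g → Bool)
    (u : (Fin g × Bool) ⊕ Fin n) (h : cov i c u) :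
    (FreeGroup.of u : F g n) ∈ Subgroup.closure
      ({x | x = ga i ∨ x = gb i ∨ (∃ k, x = (pp c k).1) ∨ ∃ j, x = gx j} : Set (F g n)) := by
  rcases u with ⟨k, b⟩ | j
  · rcases h with rfl | rfl
    · cases b
      · exact Subgroup.subset_closure (Or.inl rfl)
      · exact Subgroup.subset_closure (Or.inr (Or.inl rfl))
    · have h1 : (pp c k : F g n × F g n).1 ∈ Subgroup.closure
          ({x | x = ga i ∨ x = gb i ∨ (∃ k, x = (pp c k).1) ∨ ∃ j, x = gx j} : Set (F g n)) :=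
        Subgroup.subset_closure (Or.inr (Or.inr (Or.inl ⟨k, rfl⟩)))
      rcases hc : c k with _ | _
      · have e : (pp c k : F g n × F g n).1 = ga k := by simp [pp, rr, hc]
        rw [e] at h1
        exact h1
      · have e : (pp c k : F g n × F g n).1 = (gb k)⁻¹ := by simp [pp, rr, hc]
        rw [e] at h1
        exact (Subgroup.inv_mem_iff _).1 h1
  · exact Subgroup.subset_closure (Or.inr (Or.inr (Or.inr ⟨j, rfl⟩)))

/-- **GEN**. -/
theorem thm_Gen (hDtm : St_Dtm) (hHly : St_Hly) (hHal : St_Hal) : St_Gen := by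
  intro g n hg
  set e := (Fintype.equivFin ((Fin g × Bool) ⊕ Fin n)).symm with he
  have h1 : Dt (Set.range fun a : Fin (Fintype.card ((Fin g × Bool) ⊕ Fin n)) =>
      (FreeGroup.of (e a) : F g n)) := by
    apply hHly
    intro a b d
    obtain ⟨i, c, h1, h2, h3⟩ := exists_cov hg (e a) (e b) (e d)
    refine hDtm g n _ _ ?_ (dt_pp hDtm hHal i c)
    rintro x (rfl | rfl | rfl)
    · exact mem_of_cov i c _ h1
    · exact mem_of_cov i c _ h2
    · exact mem_of_cov i c _ h3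
  refine hDtm g n _ _ ?_ h1
  have h2 : Set.range (fun a : Fin (Fintype.card ((Fin g × Bool) ⊕ Fin n)) =>
      (FreeGroup.of (e a) : F g n)) = Set.range FreeGroup.of := by
    ext x
    constructor
    · rintro ⟨a, rfl⟩
      exact ⟨e a, rfl⟩
    · rintro ⟨u, rfl⟩
      exact ⟨e.symm u, congrArg FreeGroup.of (e.apply_symm_apply u)⟩
  rw [h2, FreeGroup.closure_range_of]
  exact fun x _ => Subgroup.mem_top x

end Pool.Agent.RTP
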