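import Pool.Agent.RTP.St

/-!
# RTP: module Hal

All holes of a handle are detected together.
-/

set_option autoImplicit false

namespace Pool.Agent.RTP

open Pool.Agent.LGP (F)

private theorem Hal_step {G : Type} [Group G] (l : List G) (B : G) (i : ℕ) (hi : i < l.length) :
    ((l.take (i + 1)).prod)⁻¹ * B = (l[i])⁻¹ * (((l.take i).prod)⁻¹ * B) := by
  rw [List.take_succ_eq_append_getElem hi, List.prod_append, List.prod_singleton, mul_inv_rev, mul_assoc]

private theorem Hal_blk {G : Type} [Group G] (l : List G) (B : G) (i j : ℕ) (hij : i ≤ j) :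
    ((l.take j).prod)⁻¹ * B = (((l.drop i).take (j - i)).prod)⁻¹ * (((l.take i).prod)⁻¹ * B) := by
  have h : l.take j = l.take i ++ (l.drop i).take (j - i) := by
    conv_lhs => rw [← Nat.add_sub_cancel' hij]
    rw [List.take_add]
  rw [h, List.prod_append, mul_inv_rev, mul_assoc]

theorem thm_Hal (hDtm : St_Dtm) (hHly : St_Hly) (hHpu : St_Hpu) (hHtw : St_Htw) : St_Hal := by
  intro g n A B l hl
  set d : ℕ → F g n := fun k => ((l.take k).prod)⁻¹ * B with hdef
  have hd : ∀ i, i ≤ l.length → Hol A (d i) (l.drop i) := by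
    intro i
    induction i with
    | zero =>
      intro _
      have : d 0 = B := by simp [hdef]
      rw [this, List.drop_zero]
      exact hl
    | succ i ih =>
      intro hi
      have h1 := ih (by omega)
      rw [List.drop_eq_getElem_cons (show i < l.length by omega)] at h1
      have h2 := hHpu g n A (d i) _ _ h1
      have h3 : d (i + 1) = (l[i])⁻¹ * d i := Hal_step l B i (by omega)
      rw [h3]
      exact h2
  have hord : ∀ i j k, i ≤ j → j ≤ k → k ≤ l.length → Dt {A, d i, d j, d k} := by
    intro i j k hij hjk hk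
    have h0 := hd i (by omega)
    have hs : l.drop i = (l.drop i).take (j - i) ++ (l.drop j).take (k - j) ++ l.drop k := by
      have e1 : l.drop i = (l.drop i).take (j - i) ++ l.drop j := by
        conv_lhs => rw [← List.take_append_drop (j - i) (l.drop i)]
        rw [List.drop_drop, Nat.add_sub_cancel' hij]
      have e2 : l.drop j = (l.drop j).take (k - j) ++ l.drop k := by
        conv_lhs => rw [← List.take_append_drop (k - j) (l.drop j)]
        rw [List.drop_drop, Nat.add_sub_cancel' hjk]
      rw [List.append_assoc, ← e2]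
      exact e1
    rw [hs] at h0
    have h1 := hHtw g n A (d i) _ _ _ h0
    refine hDtm g n _ _ ?_ h1
    set Y := ((l.drop i).take (j - i)).prod with hY
    set Z := ((l.drop j).take (k - j)).prod with hZ
    have hj : d j = Y⁻¹ * d i := Hal_blk l B i j hij
    have hkk : d k = Z⁻¹ * d j := Hal_blk l B j k hjk
    have mA : A ∈ Subgroup.closure ({A, d i, Y, Z} : Set (F g n)) := Subgroup.subset_closure (by simp)
    have mi : d i ∈ Subgroup.closure ({A, d i, Y, Z} : Set (F g n)) := Subgroup.subset_closure (by simp)
    have mY : Y ∈ Subgroup.closure ({A, d i, Y, Z} : Set (F g n)) := Subgroup.subset_closure (by simp)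
    have mZ : Z ∈ Subgroup.closure ({A, d i, Y, Z} : Set (F g n)) := Subgroup.subset_closure (by simp)
    have mj : d j ∈ Subgroup.closure ({A, d i, Y, Z} : Set (F g n)) := by
      rw [hj]
      exact mul_mem (inv_mem mY) mi
    have mk : d k ∈ Subgroup.closure ({A, d i, Y, Z} : Set (F g n)) := by
      rw [hkk]
      exact mul_mem (inv_mem mZ) mj
    rintro x hx
    rcases hx with rfl | rfl | rfl | rfl
    · exact mA
    · exact mi
    · exact mj
    · exact mk
  have hmono : ∀ S S' : Set (F g n), S ⊆ S' → Dt S' → Dt S := fun S S' h h' =>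
    hDtm g n S S' (fun x hx => Subgroup.subset_closure (h hx)) h'
  have hall : ∀ a b c, a ≤ l.length → b ≤ l.length → c ≤ l.length → Dt {A, d a, d b, d c} := by
    intro a b c ha hb hc
    rcases le_total a b with h1 | h1 <;> rcases le_total b c with h2 | h2 <;>
      rcases le_total a c with h3 | h3
    · exact hord a b c h1 h2 hc
    · exact hord a b c h1 h2 hc
    · refine hmono _ _ ?_ (hord a c b h3 h2 hb)
      intro x hx
      rcases hx with rfl | rfl | rfl | rfl <;> simp
    · refine hmono _ _ ?_ (hord c a b h3 h1 hb)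
      intro x hx
      rcases hx with rfl | rfl | rfl | rfl <;> simp
    · refine hmono _ _ ?_ (hord b a c h1 h3 hc)
      intro x hx
      rcases hx with rfl | rfl | rfl | rfl <;> simp
    · refine hmono _ _ ?_ (hord b c a h2 h3 ha)
      intro x hx
      rcases hx with rfl | rfl | rfl | rfl <;> simp
    · refine hmono _ _ ?_ (hord c b a h2 h1 ha)
      intro x hx
      rcases hx with rfl | rfl | rfl | rfl <;> simp
    · refine hmono _ _ ?_ (hord c b a h2 h1 ha)
      intro x hx
      rcases hx with rfl | rfl | rfl | rfl <;> simp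
  let y : Fin (l.length + 2) → F g n := Fin.cons A fun i : Fin (l.length + 1) => d i
  have hy : ∀ i, ∃ a, a ≤ l.length ∧ (y i = A ∨ y i = d a) := by
    intro i
    refine Fin.cases ⟨0, Nat.zero_le _, Or.inl rfl⟩ (fun i => ⟨i, by omega, Or.inr rfl⟩) i
  have hr : Dt (Set.range y) := by
    refine hHly g n _ y fun i j k => ?_
    obtain ⟨a, ha, ha'⟩ := hy i
    obtain ⟨b, hb, hb'⟩ := hy j
    obtain ⟨c, hc, hc'⟩ := hy k
    refine hmono _ _ ?_ (hall a b c ha hb hc)
    intro x hx
    rcases hx with rfl | rfl | rfl
    · rcases ha' with h | h <;> rw [h] <;> simp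
    · rcases hb' with h | h <;> rw [h] <;> simp
    · rcases hc' with h | h <;> rw [h] <;> simp
  have mA : A ∈ Subgroup.closure (Set.range y) := Subgroup.subset_closure ⟨0, rfl⟩
  have md : ∀ k, k ≤ l.length → d k ∈ Subgroup.closure (Set.range y) := fun k hk =>
    Subgroup.subset_closure ⟨Fin.succ ⟨k, by omega⟩, rfl⟩
  refine hDtm g n _ _ ?_ hr
  rintro x (hx | hx)
  · rcases hx with rfl | rfl
    · exact mA
    · have : d 0 = x := by simp [hdef]
      rw [← this]
      exact md 0 (Nat.zero_le _)
  · obtain ⟨k, hk, rfl⟩ := List.getElem_of_mem hx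
    have h3 : d (k + 1) = (l[k])⁻¹ * d k := Hal_step l B k hk
    have h4 : l[k] = d k * (d (k + 1))⁻¹ := by
      rw [h3, mul_inv_rev, inv_inv, mul_inv_cancel_left]
    rw [h4]
    exact mul_mem (md k (by omega)) (inv_mem (md (k + 1) (by omega)))

end Pool.Agent.RTP
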