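import Pool.Agent.RTP.St

set_option autoImplicit false

namespace Pool.Agent.RTP

/-- **HLY** -/
theorem thm_Hly : St_Hly := by
  intro g n m y h
  choose L hfin hNS hL using h
  refine ⟨⋃ i, ⋃ j, ⋃ k, L i j k, ?_, ?_, ?_⟩
  · exact Set.finite_iUnion fun i => Set.finite_iUnion fun j => Set.finite_iUnion fun k =>
      hfin i j k
  · intro x hx
    simp only [Set.mem_iUnion] at hx
    obtain ⟨i, j, k, hx⟩ := hx
    exact hNS i j k x hx
  · intro K _ O t ht ρ hρ
    have key := _root_.R3S.hel K O t ht m (fun i => ρ (y i)) (fun i j k => by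
      have h1 := hL i j k K O t ht ρ (fun x hx => hρ x (by
        simp only [Set.mem_iUnion]
        exact ⟨i, j, k, hx⟩))
      have h2 : (ρ '' {y i, y j, y k}) = {ρ (y i), ρ (y j), ρ (y k)} := by
        simp [Set.image_insert_eq, Set.image_singleton]
      rw [← h2]
      exact h1)
    have h3 : ρ '' Set.range y = Set.range (fun i => ρ (y i)) := by
      rw [← Set.range_comp]
      rfl
    rw [h3]
    exact key

end Pool.Agent.RTP
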