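import Pool.Agent.RTP.St

/-!
# RTP, module Hmv: the four moves of a handle with holes
-/

set_option autoImplicit false

namespace Pool.Agent.RTP

open Pool.Agent.LGP (F ga gb gx stdL stdM MC NS Mv MR)
open Helper12.Sc (Step Reach)

private theorem Hmv_step {g n : ℕ} {A B A' B' : F g n} {l : List (F g n)}
    (hs : ∀ P H : List (F g n × F g n), Step (P ++ (A, B) :: H) (P ++ (A', B') :: H))
    (h : Hol A B l) : Hol A' B' l := by
  obtain ⟨P, H, M, l₁, l₂, hR, hl, h1, h2⟩ := h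
  exact ⟨P, H, M, l₁, l₂, Relation.ReflTransGen.tail hR (Mv.st _ _ M (hs P H)), hl, h1, h2⟩

theorem thm_Hmv : St_Hmv := by
  intro g n A B l h
  refine ⟨Hmv_step (fun P H => Step.tw P H A B) h, Hmv_step (fun P H => Step.tw' P H A B) h,
    Hmv_step (fun P H => Step.rot P H A B) h, Hmv_step (fun P H => Step.rot' P H A B) h, ?_⟩
  intro l' hl'
  obtain ⟨P, H, M, l₁, l₂, hR, rfl, h1, h2⟩ := h
  obtain ⟨m₁, m₂, rfl, k1, k2⟩ := List.sublist_append_iff.1 hl'
  exact ⟨P, H, M, m₁, m₂, hR, rfl, k1.trans h1, k2.trans h2⟩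

end Pool.Agent.RTP
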