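import Pool.Agent.RTP.St

/-!
# RTP, module HNS: both components of a reachable handle are non-separating simple loops
-/

set_option autoImplicit false

namespace Pool.Agent.RTP

open Pool.Agent.LGP (F ga gb gx stdL stdM MC NS Mv MR)
open Helper12.Sc (Step Reach)

private theorem Hns_fst {g n : ℕ} (P H : List (F g n × F g n)) (M : List (F g n)) (C D : F g n)
    (h : MR (stdL g n, stdM g n) (P ++ (C, D) :: H, M)) : NS C := by
  obtain ⟨φ, hφ, -, hL, -⟩ := Pool.Agent.LGP.thm_Aut g n _ _ h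
  have hm : (C, D) ∈ (stdL g n).map (Prod.map φ φ) := by
    rw [hL]
    simp
  obtain ⟨p, hp, e⟩ := List.mem_map.1 hm
  unfold stdL at hp
  rw [List.mem_ofFn] at hp
  obtain ⟨i, rfl⟩ := hp
  exact ⟨φ, hφ, i, (congrArg Prod.fst e).symm⟩

theorem thm_Hns : St_Hns := by
  intro g n A B l h
  obtain ⟨P, H, M, l₁, l₂, hr, -, -, -⟩ := h
  refine ⟨Hns_fst P H M A B hr, ?_⟩
  exact Pool.Agent.LGP.Psh_NS_conj A (Hns_fst P H M (A * B * A⁻¹) A⁻¹
    (Relation.ReflTransGen.tail hr (Mv.st _ _ M (Step.rot' P H A B))))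

end Pool.Agent.RTP
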