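import Pool.Agent.RTP.St

/-!
# RTP, module Hpu: the handle is pushed over the first hole
-/

set_option autoImplicit false

namespace Pool.Agent.RTP

open Pool.Agent.LGP (F ga gb gx stdL stdM MC NS Mv MR)
open Helper12.Sc (Step Reach)

private theorem sub_cons {α : Type} {a : α} {l l' : List α} (h : (a :: l).Sublist l') :
    ∃ s t, l' = s ++ a :: t ∧ l.Sublist t := by
  obtain ⟨r₁, r₂, rfl, ha, hr⟩ := List.cons_sublist_iff.1 h
  obtain ⟨s, t, rfl⟩ := List.append_of_mem ha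
  exact ⟨s, t ++ r₂, by simp, hr.trans (List.sublist_append_right _ _)⟩

/-- a puncture can be moved to the left, unchanged -/
private theorem move_left {Γ : Type} [Group Γ] (L : List (Γ × Γ)) (y : Γ) (M' G : List Γ) :
    ∀ Q : List Γ, ∃ G', MR (L, Q ++ (G ++ y :: M')) (L, Q ++ y :: (G' ++ M')) := by
  induction G with
  | nil => exact fun Q => ⟨[], Relation.ReflTransGen.refl⟩
  | cons q G ih =>
    intro Q
    obtain ⟨G', hG'⟩ := ih (Q ++ [q])
    refine ⟨(y⁻¹ * q * y) :: G', ?_⟩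
    have h := Mv.sw L Q (G' ++ M') q y
    have e1 : Q ++ [q] ++ (G ++ y :: M') = Q ++ (q :: G ++ y :: M') := by simp
    have e2 : Q ++ [q] ++ y :: (G' ++ M') = Q ++ q :: y :: (G' ++ M') := by simp
    rw [e1, e2] at hG'
    exact Relation.ReflTransGen.tail hG' h

/-- **HPU**. -/
theorem thm_Hpu : St_Hpu := by
  rintro g n A B y l ⟨P, H, M, l₁, l₂, hM, hl, h1, h2⟩
  rcases l₁ with _ | ⟨y', l₁'⟩
  · -- a puncture
    rw [List.nil_append] at hl
    subst hl
    obtain ⟨G, M', rfl, h3⟩ := sub_cons h2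
    obtain ⟨U', hU'⟩ := Helper12.Sc.move_one (A, B) H
    have h4 := Pool.Agent.LGP.Psh_MR (G ++ y :: M') (hU'.context P [])
    rw [List.append_nil, List.append_nil] at h4
    obtain ⟨G', hG'⟩ := move_left (P ++ (U' ++ [(A, B)])) y M' G []
    rw [List.nil_append, List.nil_append] at hG'
    have h5 := Mv.ab (P ++ U') A B y (G' ++ M')
    rw [List.append_assoc] at h5
    exact ⟨P ++ U', [], _, [], l, Relation.ReflTransGen.tail ((hM.trans h4).trans hG') h5, rfl,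
      List.Sublist.refl _, (h3.trans (List.sublist_append_right _ _)).cons _⟩
  · -- a handle
    rw [List.cons_append, List.cons.injEq] at hl
    obtain ⟨rfl, rfl⟩ := hl
    obtain ⟨s, t, hs, h3⟩ := sub_cons h1
    obtain ⟨G, G2, rfl, rfl, hG2⟩ := List.map_eq_append_iff.1 hs
    obtain ⟨⟨y₁, e⟩, H', rfl, he, rfl⟩ := List.map_eq_cons_iff.1 hG2
    change y₁ = y at he
    subst he
    obtain ⟨s', hs'⟩ := Pool.Agent.LGP.Psh_front (y₁, e) G H'
    have h4 := hs'.context (P ++ [(A, B)]) []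
    have k1 := Step.rot (P ++ [(A, B)]) (s' ++ H') y₁ e
    have k2 := Step.sl' P (s' ++ H') A B e⁻¹ (e * y₁ * e⁻¹)
    have e1 : e⁻¹ * (e * y₁ * e⁻¹)⁻¹ * e⁻¹⁻¹ = y₁⁻¹ := by group
    rw [e1] at k2
    have k3 := Step.tw' P ((y₁⁻¹ * B * A * B⁻¹ * e⁻¹ * (e * y₁ * e⁻¹), e * y₁ * e⁻¹) ::
      (s' ++ H')) A (y₁⁻¹ * B * A)
    have e2 : y₁⁻¹ * B * A * A⁻¹ = y₁⁻¹ * B := by group
    rw [e2] at k3
    have a1 : P ++ [(A, B)] ++ (G ++ (y₁, e) :: H') ++ [] = P ++ (A, B) :: (G ++ (y₁, e) :: H') := by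
      simp
    have a2 : P ++ [(A, B)] ++ ((y₁, e) :: s' ++ H') ++ [] =
        P ++ [(A, B)] ++ (y₁, e) :: (s' ++ H') := by simp
    have a3 : P ++ [(A, B)] ++ (e⁻¹, e * y₁ * e⁻¹) :: (s' ++ H') =
        P ++ (A, B) :: (e⁻¹, e * y₁ * e⁻¹) :: (s' ++ H') := by simp
    rw [a1, a2] at h4
    rw [a3] at k1
    have h5 := ((h4.trans (Reach.of_step k1)).trans (Reach.of_step k2)).trans (Reach.of_step k3)
    refine ⟨P, _, M, l₁', l₂, hM.trans (Pool.Agent.LGP.Psh_MR M h5), rfl, ?_, h2⟩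
    rw [List.map_cons, List.map_append]
    exact (h3.trans (List.sublist_append_right _ _)).cons _

end Pool.Agent.RTP
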