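import Pool.Agent.RTP.St

/-!
# RTP, module HTW: two blocks of holes

Helper46, for helper20 (MP_0707f5_ag).
-/

set_option autoImplicit false

namespace Pool.Agent.RTP

open Pool.Agent.LGP (F)

variable {g n : ℕ}

/-- pushing the handle over a whole block of holes -/
private theorem Htw_push (hHpu : St_Hpu) (A : F g n) (l : List (F g n)) :
    ∀ (Y : List (F g n)) (B : F g n), Hol A B (Y ++ l) → Hol A (Y.prod⁻¹ * B) l := by
  intro Y
  induction Y with
  | nil =>
      intro B h
      simpa using h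
  | cons y Y ih =>
      intro B h
      have h1 : Hol A (y⁻¹ * B) (Y ++ l) := hHpu g n A B y (Y ++ l) (by simpa using h)
      have h2 := ih (y⁻¹ * B) h1
      have e : (y :: Y).prod⁻¹ * B = Y.prod⁻¹ * (y⁻¹ * B) := by
        rw [List.prod_cons]; group
      rw [e]
      exact h2

theorem thm_Htw (hDtm : St_Dtm) (hTet : St_Tet) (hHly : St_Hly) (hHmv : St_Hmv)
    (hHpu : St_Hpu) (hHun : St_Hun) : St_Htw := by
  intro g n A B Y Z l h
  set u := Y.prod with hu
  set v := Z.prod with hv
  -- the four detected sets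
  have d1 : Dt {A, B, u} := hHun g n A B Y (Z ++ l) (by simpa [List.append_assoc] using h)
  have d2 : Dt {A, B, u * v} := by
    have := hHun g n A B (Y ++ Z) l h
    simpa [List.prod_append] using this
  have d3 : Dt {A, u⁻¹ * B, v} := by
    have h1 : Hol A (Y.prod⁻¹ * B) (Z ++ l) :=
      Htw_push hHpu A (Z ++ l) Y B (by simpa [List.append_assoc] using h)
    exact hHun g n A (Y.prod⁻¹ * B) Z l h1
  have d4 : Dt {B⁻¹, u⁻¹ * (B * A * B⁻¹), v} := by
    have h0 : Hol B⁻¹ (B * A * B⁻¹) (Y ++ Z ++ l) := (hHmv g n A B (Y ++ Z ++ l) h).2.2.1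
    have h1 : Hol B⁻¹ (Y.prod⁻¹ * (B * A * B⁻¹)) (Z ++ l) :=
      Htw_push hHpu B⁻¹ (Z ++ l) Y (B * A * B⁻¹) (by simpa [List.append_assoc] using h0)
    exact hHun g n B⁻¹ (Y.prod⁻¹ * (B * A * B⁻¹)) Z l h1
  -- the elements
  obtain ⟨β, hβ⟩ : ∃ β : F g n, β = u⁻¹ * B * A := ⟨_, rfl⟩
  obtain ⟨γ, hγ⟩ : ∃ γ : F g n, γ = v⁻¹ * u⁻¹ * B * A := ⟨_, rfl⟩
  -- memberships
  have m1 : ({A, B, β} : Set (F g n)) ⊆ (Subgroup.closure {A, B, u} : Set (F g n)) := by
    have hA : A ∈ Subgroup.closure ({A, B, u} : Set (F g n)) := Subgroup.subset_closure (by simp)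
    have hB : B ∈ Subgroup.closure ({A, B, u} : Set (F g n)) := Subgroup.subset_closure (by simp)
    have hU : u ∈ Subgroup.closure ({A, B, u} : Set (F g n)) := Subgroup.subset_closure (by simp)
    rintro x (rfl | rfl | rfl)
    · exact hA
    · exact hB
    · rw [SetLike.mem_coe, hβ]
      exact mul_mem (mul_mem (inv_mem hU) hB) hA
  have m2 : ({A, B, γ} : Set (F g n)) ⊆ (Subgroup.closure {A, B, u * v} : Set (F g n)) := by
    have hA : A ∈ Subgroup.closure ({A, B, u * v} : Set (F g n)) :=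
      Subgroup.subset_closure (by simp)
    have hB : B ∈ Subgroup.closure ({A, B, u * v} : Set (F g n)) :=
      Subgroup.subset_closure (by simp)
    have hU : u * v ∈ Subgroup.closure ({A, B, u * v} : Set (F g n)) :=
      Subgroup.subset_closure (by simp)
    have hc : γ ∈ Subgroup.closure ({A, B, u * v} : Set (F g n)) := by
      have e : γ = (u * v)⁻¹ * B * A := by rw [hγ]; group
      rw [e]
      exact mul_mem (mul_mem (inv_mem hU) hB) hA
    rintro x (rfl | rfl | rfl)
    · exact hA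
    · exact hB
    · exact hc
  have m3 : ({A, β, γ} : Set (F g n)) ⊆ (Subgroup.closure {A, u⁻¹ * B, v} : Set (F g n)) := by
    have hA : A ∈ Subgroup.closure ({A, u⁻¹ * B, v} : Set (F g n)) :=
      Subgroup.subset_closure (by simp)
    have hB : u⁻¹ * B ∈ Subgroup.closure ({A, u⁻¹ * B, v} : Set (F g n)) :=
      Subgroup.subset_closure (by simp)
    have hV : v ∈ Subgroup.closure ({A, u⁻¹ * B, v} : Set (F g n)) :=
      Subgroup.subset_closure (by simp)
    have hb : β ∈ Subgroup.closure ({A, u⁻¹ * B, v} : Set (F g n)) := by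
      rw [hβ]; exact mul_mem hB hA
    have hc : γ ∈ Subgroup.closure ({A, u⁻¹ * B, v} : Set (F g n)) := by
      have e : γ = v⁻¹ * β := by rw [hγ, hβ]; group
      rw [e]
      exact mul_mem (inv_mem hV) hb
    rintro x (rfl | rfl | rfl)
    · exact hA
    · exact hb
    · exact hc
  have m4 : ({B * β⁻¹, B * γ⁻¹} : Set (F g n)) ⊆
      (Subgroup.closure {B⁻¹, u⁻¹ * (B * A * B⁻¹), v} : Set (F g n)) := by
    have hC : u⁻¹ * (B * A * B⁻¹) ∈
        Subgroup.closure ({B⁻¹, u⁻¹ * (B * A * B⁻¹), v} : Set (F g n)) :=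
      Subgroup.subset_closure (by simp)
    have hV : v ∈ Subgroup.closure ({B⁻¹, u⁻¹ * (B * A * B⁻¹), v} : Set (F g n)) :=
      Subgroup.subset_closure (by simp)
    rintro x (rfl | rfl)
    · have e : B * β⁻¹ = (u⁻¹ * (B * A * B⁻¹))⁻¹ := by rw [hβ]; group
      rw [SetLike.mem_coe, e]
      exact inv_mem hC
    · have e : B * γ⁻¹ = (v⁻¹ * (u⁻¹ * (B * A * B⁻¹)))⁻¹ := by rw [hγ]; group
      rw [SetLike.mem_coe, e]
      exact inv_mem (mul_mem (inv_mem hV) hC)
  -- the three elements
  have t0 : Dt {B, β, γ} := by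
    refine hTet g n B β γ ?_ ?_ ?_ ?_
    · refine hDtm g n _ _ (fun x hx => m1 ?_) d1
      rcases hx with rfl | rfl <;> simp
    · refine hDtm g n _ _ (fun x hx => m2 ?_) d2
      rcases hx with rfl | rfl <;> simp
    · refine hDtm g n _ _ (fun x hx => m3 ?_) d3
      rcases hx with rfl | rfl <;> simp
    · exact hDtm g n _ _ m4 d4
  -- Helly for four elements
  have key : Dt (Set.range (![A, B, β, γ] : Fin 4 → F g n)) := by
    refine hHly g n 4 _ ?_
    have t : ∀ m : Fin 4, Dt {x | ∃ i : Fin 4, i ≠ m ∧ x = (![A, B, β, γ] : Fin 4 → F g n) i} := by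
      intro m
      fin_cases m
      · refine hDtm g n _ _ (fun x hx => Subgroup.subset_closure ?_) t0
        obtain ⟨i, hi, rfl⟩ := hx
        fin_cases i
        · exact absurd rfl hi
        · simp
        · simp
        · simp
      · refine hDtm g n _ _ (fun x hx => m3 ?_) d3
        obtain ⟨i, hi, rfl⟩ := hx
        fin_cases i
        · simp
        · exact absurd rfl hi
        · simp
        · simp
      · refine hDtm g n _ _ (fun x hx => m2 ?_) d2
        obtain ⟨i, hi, rfl⟩ := hx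
        fin_cases i
        · simp
        · simp
        · exact absurd rfl hi
        · simp
      · refine hDtm g n _ _ (fun x hx => m1 ?_) d1
        obtain ⟨i, hi, rfl⟩ := hx
        fin_cases i
        · simp
        · simp
        · simp
        · exact absurd rfl hi
    have miss : ∀ i j k : Fin 4, ∃ m : Fin 4, i ≠ m ∧ j ≠ m ∧ k ≠ m := by decide
    intro i j k
    obtain ⟨m, hi, hj, hk⟩ := miss i j k
    refine hDtm g n _ _ (fun x hx => Subgroup.subset_closure ?_) (t m)
    rcases hx with rfl | rfl | rfl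
    · exact ⟨i, hi, rfl⟩
    · exact ⟨j, hj, rfl⟩
    · exact ⟨k, hk, rfl⟩
  refine hDtm g n _ _ ?_ key
  have hA : A ∈ Subgroup.closure (Set.range (![A, B, β, γ] : Fin 4 → F g n)) :=
    Subgroup.subset_closure ⟨0, rfl⟩
  have hB : B ∈ Subgroup.closure (Set.range (![A, B, β, γ] : Fin 4 → F g n)) :=
    Subgroup.subset_closure ⟨1, rfl⟩
  have hb : β ∈ Subgroup.closure (Set.range (![A, B, β, γ] : Fin 4 → F g n)) :=
    Subgroup.subset_closure ⟨2, rfl⟩
  have hc : γ ∈ Subgroup.closure (Set.range (![A, B, β, γ] : Fin 4 → F g n)) :=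
    Subgroup.subset_closure ⟨3, rfl⟩
  rintro x (rfl | rfl | rfl | rfl)
  · exact hA
  · exact hB
  · have e : u = B * A * β⁻¹ := by rw [hβ]; group
    rw [SetLike.mem_coe, e]
    exact mul_mem (mul_mem hB hA) (inv_mem hb)
  · have e : v = β * γ⁻¹ := by rw [hβ, hγ]; group
    rw [SetLike.mem_coe, e]
    exact mul_mem hb (inv_mem hc)

end Pool.Agent.RTP
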