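import Pool.Agent.RTP.St

/-!
# RTP, module Hun: one block of holes
-/

set_option autoImplicit false

namespace Pool.Agent.RTP

open Pool.Agent.LGP (F ga gb gx stdL stdM MC NS Mv MR)
open Helper12.Sc (Step Reach)

private theorem Hun_push (hHpu : St_Hpu) {g n : ℕ} (A : F g n) (l : List (F g n)) :
    ∀ (Y : List (F g n)) (B : F g n), Hol A B (Y ++ l) → Hol A (Y.prod⁻¹ * B) l := by
  intro Y
  induction Y with
  | nil =>
    intro B h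
    simpa using h
  | cons y Y ih =>
    intro B h
    have h1 := hHpu g n A B y (Y ++ l) h
    have h2 := ih _ h1
    rw [List.prod_cons, mul_inv_rev, mul_assoc]
    exact h2

theorem thm_Hun (hDtm : St_Dtm) (hDta : St_Dta) (hHns : St_Hns) (hHmv : St_Hmv) (hHpu : St_Hpu) :
    St_Hun := by
  intro g n A B Y l h
  have hi : ∀ A' B' : F g n, Hol A' B' (Y ++ l) → NS (Y.prod⁻¹ * B') := fun A' B' h' =>
    (hHns g n _ _ _ (Hun_push hHpu A' l Y B' h')).2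
  obtain ⟨y, hy⟩ : ∃ y, y = Y.prod := ⟨_, rfl⟩
  rw [← hy] at hi ⊢
  obtain ⟨hA, hB⟩ := hHns g n _ _ _ h
  obtain ⟨m1, m2, m3, m4, -⟩ := hHmv g n _ _ _ h
  have nBA : NS (B * A) := (hHns g n _ _ _ m1).2
  have nBA' : NS (B * A⁻¹) := (hHns g n _ _ _ m2).2
  have nyB : NS (y⁻¹ * B) := hi _ _ h
  have nyA : NS (y⁻¹ * A⁻¹) := hi _ _ m4
  have nyBA : NS (y⁻¹ * (B * A)) := hi _ _ m1
  have nyBA' : NS (y⁻¹ * B * A⁻¹) := by
    have h1 := Hun_push hHpu A l Y B h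
    rw [← hy] at h1
    exact (hHns g n _ _ _ (hHmv g n _ _ _ h1).2.1).2
  have nyBAB : NS (y⁻¹ * (B * A * B)) := by
    have h1 := (hHmv g n _ _ _ m3).2.1
    have h2 := (hHmv g n _ _ _ h1).2.1
    have h3 := hi _ _ h2
    have e : B * A * B⁻¹ * B⁻¹⁻¹ * B⁻¹⁻¹ = B * A * B := by group
    rwa [e] at h3
  have nyBBA : NS (y⁻¹ * (B * B * A⁻¹)) := by
    have h1 := (hHmv g n _ _ _ m3).1
    have h2 := (hHmv g n _ _ _ h1).1
    have h3 := (hHmv g n _ _ _ h2).2.2.2.1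
    have h4 := (hHmv g n _ _ _ h3).2.2.2.1
    have h5 := hi _ _ h4
    have e : (B⁻¹ * (B * A * B⁻¹ * B⁻¹ * B⁻¹) * B⁻¹⁻¹)⁻¹ = B * B * A⁻¹ := by simp [mul_assoc]
    rwa [e] at h5
  obtain ⟨z, hz⟩ : ∃ z : Fin 4 → F g n, z = ![1, B⁻¹, B⁻¹ * A⁻¹, B⁻¹ * A⁻¹ * y⁻¹ * B] := ⟨_, rfl⟩
  have z0 : z 0 = 1 := by rw [hz]; rfl
  have z1 : z 1 = B⁻¹ := by rw [hz]; rfl
  have z2 : z 2 = B⁻¹ * A⁻¹ := by rw [hz]; rfl
  have z3 : z 3 = B⁻¹ * A⁻¹ * y⁻¹ * B := by rw [hz]; rfl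
  have e01 : (z 0)⁻¹ * z 1 = B⁻¹ := by rw [z0, z1]; group
  have e12 : (z 1)⁻¹ * z 2 = A⁻¹ := by rw [z1, z2]; group
  have e23 : (z 2)⁻¹ * z 3 = y⁻¹ * B := by rw [z2, z3]; group
  have n01 : NSc ((z 0)⁻¹ * z 1) := ⟨B, 1, hB, Or.inr (by rw [e01]; group)⟩
  have n02 : NSc ((z 0)⁻¹ * z 2) := ⟨B * A, B⁻¹, nBA, Or.inr (by rw [z0, z2]; group)⟩
  have n03 : NSc ((z 0)⁻¹ * z 3) :=
    ⟨y⁻¹ * A⁻¹, B⁻¹ * A⁻¹, nyA, Or.inl (by rw [z0, z3]; group)⟩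
  have n12 : NSc ((z 1)⁻¹ * z 2) := ⟨A, 1, hA, Or.inr (by rw [e12]; group)⟩
  have n13 : NSc ((z 1)⁻¹ * z 3) :=
    ⟨y⁻¹ * B * A⁻¹, A⁻¹, nyBA', Or.inl (by rw [z1, z3]; group)⟩
  have n23 : NSc ((z 2)⁻¹ * z 3) := ⟨y⁻¹ * B, 1, nyB, Or.inl (by rw [e23]; group)⟩
  have n012 : NSc ((z 0)⁻¹ * z 1 * (z 2)⁻¹ * z 1) :=
    ⟨B * A⁻¹, B⁻¹, nBA', Or.inr (by rw [z0, z1, z2]; group)⟩
  have n123 : NSc ((z 1)⁻¹ * z 2 * (z 3)⁻¹ * z 2) :=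
    ⟨y⁻¹ * (B * A), 1, nyBA, Or.inr (by rw [z1, z2, z3]; group)⟩
  have n023 : NSc ((z 0)⁻¹ * z 2 * (z 3)⁻¹ * z 2) :=
    ⟨y⁻¹ * (B * A * B), 1, nyBAB, Or.inr (by rw [z0, z2, z3]; group)⟩
  have n013 : NSc ((z 0)⁻¹ * z 1 * (z 3)⁻¹ * z 1) :=
    ⟨y⁻¹ * (B * B * A⁻¹), A⁻¹, nyBBA, Or.inr (by rw [z0, z1, z3]; group)⟩
  have h1 : ∀ i j : Fin 4, i < j → NSc ((z i)⁻¹ * z j) := by
    intro i j hij
    fin_cases i <;> fin_cases j <;> first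
      | exact absurd hij (by decide)
      | exact n01 | exact n02 | exact n03 | exact n12 | exact n13 | exact n23
  have h2 : ∀ i j k : Fin 4, i < j → j < k → NSc ((z i)⁻¹ * z j * (z k)⁻¹ * z j) := by
    intro i j k hij hjk
    fin_cases i <;> fin_cases j <;> fin_cases k <;> first
      | exact absurd hij (by decide)
      | exact absurd hjk (by decide)
      | exact n012 | exact n123 | exact n023 | exact n013
  have hD := hDta g n 4 z h1 h2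
  refine hDtm g n _ _ ?_ hD
  have cB : B⁻¹ ∈ Subgroup.closure {x | ∃ i j, x = (z i)⁻¹ * z j} :=
    Subgroup.subset_closure ⟨0, 1, e01.symm⟩
  have cA : A⁻¹ ∈ Subgroup.closure {x | ∃ i j, x = (z i)⁻¹ * z j} :=
    Subgroup.subset_closure ⟨1, 2, e12.symm⟩
  have cy : y⁻¹ * B ∈ Subgroup.closure {x | ∃ i j, x = (z i)⁻¹ * z j} :=
    Subgroup.subset_closure ⟨2, 3, e23.symm⟩
  have dB : B ∈ Subgroup.closure {x | ∃ i j, x = (z i)⁻¹ * z j} := by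
    have := Subgroup.inv_mem _ cB
    rwa [inv_inv] at this
  have dA : A ∈ Subgroup.closure {x | ∃ i j, x = (z i)⁻¹ * z j} := by
    have := Subgroup.inv_mem _ cA
    rwa [inv_inv] at this
  have dy : y ∈ Subgroup.closure {x | ∃ i j, x = (z i)⁻¹ * z j} := by
    have h3 := Subgroup.mul_mem _ dB (Subgroup.inv_mem _ cy)
    have e : B * (y⁻¹ * B)⁻¹ = y := by group
    rwa [e] at h3
  rintro x (rfl | rfl | rfl)
  · exact dA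
  · exact dB
  · exact dy

end Pool.Agent.RTP
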