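import Pool.Agent.RTP.St
import Pool.Agent.R3S.Final

/-!
# RTP, module Orb: the theorem in rank three
-/

set_option autoImplicit false

namespace Pool.Agent.RTP

open Matrix
open Pool.Agent.LGP (F ga gb gx MC NS)
open _root_.R3S (Unif CP Bd)

private theorem Orb_gens (g n : ℕ) : ∃ (m : ℕ) (c : Fin m → F g n),
    Subgroup.closure (Set.range c) = ⊤ := by
  let e := Fintype.equivFin ((Fin g × Bool) ⊕ Fin n)
  refine ⟨_, fun i => FreeGroup.of (e.symm i), ?_⟩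
  have h : Set.range (fun i => (FreeGroup.of (e.symm i) : F g n)) =
      Set.range (FreeGroup.of : (Fin g × Bool) ⊕ Fin n → F g n) :=
    e.symm.surjective.range_comp (FreeGroup.of : (Fin g × Bool) ⊕ Fin n → F g n)
  rw [h]
  exact FreeGroup.closure_range_of _

theorem thm_Orb (hGen : St_Gen) : St_Orb := by
  intro g n hg ρ hF
  obtain ⟨L, hLf, hL, hD⟩ := hGen g n hg
  obtain ⟨m, c, hc⟩ := Orb_gens g n
  have hI : _root_.R3S.Int3 L := by
    intro K _ O t hU τ hCP w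
    obtain ⟨Λ, h1, h2⟩ := hD K O t hU τ hCP
    exact ((_root_.R3S.thm_BAS K O).2.1 (τ w) ⟨Λ, h1, fun γ hγ => by
      rw [Set.mem_singleton_iff.1 hγ]
      exact h2 _ ⟨w, Set.mem_univ _, rfl⟩⟩).1
  refine (_root_.R3S.fin (F g n) m c L hc hLf hI _ hF).subset ?_
  rintro χ ⟨φ, hφ, rfl⟩
  exact ⟨ρ.comp φ.toMonoidHom, fun x hx => ⟨φ x, Pool.Agent.LGP.Psh_NS_map hφ (hL x hx), rfl⟩,
    rfl⟩

end Pool.Agent.RTP
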