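import Pool.Agent.RTP.St
import Pool.Agent.R3S.Final

set_option autoImplicit false

namespace Pool.Agent.RTP

open Matrix
open _root_.R3S (Unif CP Bd ARC_S)
open Pool.Agent.LGP (F NS)

section

variable {K : Type} [Field K] {O : ValuationSubring K}

private theorem Tet_base (z : Fin 4 → GL (Fin 3) K) (I : Set (Fin 4)) (p : Fin 4)
    (T : Set (GL (Fin 3) K)) (hT : Bd O T)
    (h : ∀ i ∈ I, z p * (z i)⁻¹ ∈ Subgroup.closure T) : Bd O (ARC_S (fun i => (z i)⁻¹) I) := by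
  refine _root_.R3S.ARC_bd_mono ?_ ((_root_.R3S.thm_BAS K O).1 _ hT)
  rintro _ ⟨i, hi, j, hj, rfl⟩
  have h1 : ((z i)⁻¹)⁻¹ * (z j)⁻¹ = (z p * (z i)⁻¹)⁻¹ * (z p * (z j)⁻¹) := by group
  rw [h1]
  exact Subgroup.mul_mem _ (Subgroup.inv_mem _ (h i hi)) (h j hj)

end

theorem thm_Tet : St_Tet := by
  rintro g n α β γ ⟨L1, f1, n1, h1⟩ ⟨L2, f2, n2, h2⟩ ⟨L3, f3, n3, h3⟩ ⟨L4, f4, n4, h4⟩
  refine ⟨L1 ∪ L2 ∪ L3 ∪ L4, ((f1.union f2).union f3).union f4, ?_, ?_⟩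
  · rintro x (((hx | hx) | hx) | hx)
    exacts [n1 x hx, n2 x hx, n3 x hx, n4 x hx]
  intro K _ O t ht ρ hρ
  have b1 := h1 K O t ht ρ fun x hx => hρ x (Or.inl (Or.inl (Or.inl hx)))
  have b2 := h2 K O t ht ρ fun x hx => hρ x (Or.inl (Or.inl (Or.inr hx)))
  have b3 := h3 K O t ht ρ fun x hx => hρ x (Or.inl (Or.inr hx))
  have b4 := h4 K O t ht ρ fun x hx => hρ x (Or.inr hx)
  set z : Fin 4 → GL (Fin 3) K := ![1, ρ α, ρ β, ρ γ] with hz
  have z0 : z 0 = 1 := rfl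
  have z1 : z 1 = ρ α := rfl
  have z2 : z 2 = ρ β := rfl
  have z3 : z 3 = ρ γ := rfl
  have key : ∀ m : Fin 4, Bd O (ARC_S (fun i => (z i)⁻¹) {m}ᶜ) := by
    have mem : ∀ (T : Set (F g n)) (x : F g n), x ∈ T → ρ x ∈ Subgroup.closure (ρ '' T) :=
      fun T x hx => Subgroup.subset_closure ⟨x, hx, rfl⟩
    intro m
    fin_cases m
    · refine Tet_base z _ 1 _ b4 fun i hi => ?_
      fin_cases i
      · exact absurd rfl hi
      · show z 1 * (z 1)⁻¹ ∈ _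
        rw [mul_inv_cancel]
        exact Subgroup.one_mem _
      · show z 1 * (z 2)⁻¹ ∈ _
        rw [z1, z2, ← map_inv, ← map_mul]
        exact mem _ _ (Or.inl rfl)
      · show z 1 * (z 3)⁻¹ ∈ _
        rw [z1, z3, ← map_inv, ← map_mul]
        exact mem _ _ (Or.inr rfl)
    · refine Tet_base z _ 0 _ b3 fun i hi => ?_
      fin_cases i
      · show z 0 * (z 0)⁻¹ ∈ _
        rw [mul_inv_cancel]
        exact Subgroup.one_mem _
      · exact absurd rfl hi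
      · show z 0 * (z 2)⁻¹ ∈ _
        rw [z0, z2, one_mul]
        exact Subgroup.inv_mem _ (mem _ _ (Or.inl rfl))
      · show z 0 * (z 3)⁻¹ ∈ _
        rw [z0, z3, one_mul]
        exact Subgroup.inv_mem _ (mem _ _ (Or.inr rfl))
    · refine Tet_base z _ 0 _ b2 fun i hi => ?_
      fin_cases i
      · show z 0 * (z 0)⁻¹ ∈ _
        rw [mul_inv_cancel]
        exact Subgroup.one_mem _
      · show z 0 * (z 1)⁻¹ ∈ _
        rw [z0, z1, one_mul]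
        exact Subgroup.inv_mem _ (mem _ _ (Or.inl rfl))
      · exact absurd rfl hi
      · show z 0 * (z 3)⁻¹ ∈ _
        rw [z0, z3, one_mul]
        exact Subgroup.inv_mem _ (mem _ _ (Or.inr rfl))
    · refine Tet_base z _ 0 _ b1 fun i hi => ?_
      fin_cases i
      · show z 0 * (z 0)⁻¹ ∈ _
        rw [mul_inv_cancel]
        exact Subgroup.one_mem _
      · show z 0 * (z 1)⁻¹ ∈ _
        rw [z0, z1, one_mul]
        exact Subgroup.inv_mem _ (mem _ _ (Or.inl rfl))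
      · show z 0 * (z 2)⁻¹ ∈ _
        rw [z0, z2, one_mul]
        exact Subgroup.inv_mem _ (mem _ _ (Or.inr rfl))
      · exact absurd rfl hi
  have hq := _root_.R3S.ARC_quad (fun i => (z i)⁻¹) ht _root_.R3S.gg _root_.R3S.thm_BAS (fun i j k => by
    have h5 : ∀ i j k : Fin 4, ∃ m : Fin 4, i ≠ m ∧ j ≠ m ∧ k ≠ m := by decide
    obtain ⟨m, hi, hj, hk⟩ := h5 i j k
    refine _root_.R3S.ARC_bd_mono (_root_.R3S.ARC_mono _ ?_) (key m)
    rintro x (rfl | rfl | rfl)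
    exacts [hi, hj, hk]) id
  refine _root_.R3S.ARC_bd_mono ?_ hq
  have fin : ∀ m : Fin 4, z m ∈ ARC_S (fun i => (z i)⁻¹) (Set.range (id : Fin 4 → Fin 4)) := by
    intro m
    refine ⟨m, ⟨m, rfl⟩, 0, ⟨0, rfl⟩, ?_⟩
    show z m = ((z m)⁻¹)⁻¹ * (z 0)⁻¹
    rw [z0, inv_inv, inv_one, mul_one]
  rintro _ ⟨x, (rfl | rfl | rfl), rfl⟩
  exacts [fin 1, fin 2, fin 3]

end Pool.Agent.RTP
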