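import Pool.Agent.RTP.Dtm
import Pool.Agent.RTP.Dta
import Pool.Agent.RTP.Tet
import Pool.Agent.RTP.Hly
import Pool.Agent.RTP.Hns
import Pool.Agent.RTP.Hmv
import Pool.Agent.RTP.Hpu
import Pool.Agent.RTP.Hun
import Pool.Agent.RTP.Htw
import Pool.Agent.RTP.Hal
import Pool.Agent.RTP.Gen
import Pool.Agent.RTP.Orb

/-!
# RTP: assembly
-/

set_option autoImplicit false

namespace Pool.Agent.RTP

theorem all_Hun : St_Hun := thm_Hun thm_Dtm thm_Dta thm_Hns thm_Hmv thm_Hpu

theorem all_Htw : St_Htw := thm_Htw thm_Dtm thm_Tet thm_Hly thm_Hmv thm_Hpu all_Hun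

theorem all_Hal : St_Hal := thm_Hal thm_Dtm thm_Hly thm_Hpu all_Htw

theorem all_Gen : St_Gen := thm_Gen thm_Dtm thm_Hly all_Hal

/-- **Theorem R3P**: representations of rank three of punctured surfaces of positive genus with
finitely many characteristic polynomials on the non-separating simple loops have finite orbits. -/
theorem all_Orb : St_Orb := thm_Orb all_Gen

end Pool.Agent.RTP
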