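import Pool.Agent.RTP.Core

/-!
# B2: calculus of bounded formulas and `Σ₁` relations

`S1 n P`: the relation `P` of `n` variables is `Σ₁` (variable `0` of the inner relation is the witness).
Two witnesses are merged by a bound (`∃ y ∃ z Q ↔ ∃ w, ∃ y < w, ∃ z < w, Q`, no pairing needed).
`s1_ball` is bounding: the relation `∃ w, ∀ x < b, ∃ y < w, Q` is `Σ₁` in `b`; use `Arith.ind`.
`sigma1_of` reorders the variables (witness last in `Sigma1`).
-/

set_option autoImplicit false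

namespace RT22P

section raw

variable {M : Type} [Zero M] [One M] [Add M] [Mul M] [LT M] {S : Set (Set M)}

/-- substitution in terms -/
def Tm.subst {n m : ℕ} (σ : Fin n → Tm M m) : Tm M n → Tm M m
  | .var i => σ i
  | .par a => .par a
  | .zero => .zero
  | .one => .one
  | .add s t => .add (s.subst σ) (t.subst σ)
  | .mul s t => .mul (s.subst σ) (t.subst σ)

theorem Tm.val_subst {n m : ℕ} (σ : Fin n → Tm M m) (t : Tm M n) (v : Fin m → M) :
    (t.subst σ).val v = t.val (fun i => (σ i).val v) := by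
  induction t with
  | var i => rfl
  | par a => rfl
  | zero => rfl
  | one => rfl
  | add s t hs ht => simp only [Tm.subst, Tm.val, hs, ht]
  | mul s t hs ht => simp only [Tm.subst, Tm.val, hs, ht]

private def bd0_up {n m : ℕ} (σ : Fin n → Tm M m) : Fin (n + 1) → Tm M (m + 1) :=
  Fin.cons (.var 0) (fun i => (σ i).subst (fun j => .var j.succ))

private theorem bd0_up_val {n m : ℕ} (σ : Fin n → Tm M m) (x : M) (v : Fin m → M) :
    (fun i => (bd0_up σ i).val (Fin.cons x v)) = (Fin.cons x (fun i => (σ i).val v) : Fin (n + 1) → M) := by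
  funext i
  refine Fin.cases ?_ (fun i => ?_) i
  · rfl
  · show ((σ i).subst (fun j => .var j.succ)).val (Fin.cons x v) = (σ i).val v
    rw [Tm.val_subst]
    rfl

theorem d0_subst {n m : ℕ} {P : (Fin n → M) → Prop} (h : D0 S n P) (σ : Fin n → Tm M m) :
    D0 S m (fun v => P (fun i => (σ i).val v)) := by
  induction h generalizing m with
  | eq s t =>
    have h := D0.eq (S := S) (s.subst σ) (t.subst σ)
    simpa only [Tm.val_subst] using h
  | lt s t =>
    have h := D0.lt (S := S) (s.subst σ) (t.subst σ)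
    simpa only [Tm.val_subst] using h
  | mem t X hX =>
    have h := D0.mem (S := S) (t.subst σ) X hX
    simpa only [Tm.val_subst] using h
  | not h ih => exact (ih σ).not
  | and hP hQ ihP ihQ => exact (ihP σ).and (ihQ σ)
  | @bex n t P h ih =>
    have h1 := D0.bex (t.subst σ) (ih (bd0_up σ))
    have e : (fun v : Fin m → M => ∃ x, x < t.val (fun i => (σ i).val v) ∧
        P (Fin.cons x (fun i => (σ i).val v))) =
        (fun v => ∃ x, x < (t.subst σ).val v ∧ P (fun i => (bd0_up σ i).val (Fin.cons x v))) := by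
      funext v
      refine propext (exists_congr fun x => ?_)
      rw [Tm.val_subst, bd0_up_val]
    rw [e]
    exact h1

theorem d0_congr {n : ℕ} {P Q : (Fin n → M) → Prop} (h : D0 S n P) (e : ∀ v, P v ↔ Q v) :
    D0 S n Q := by
  have e' : P = Q := funext fun v => propext (e v)
  rw [← e']
  exact h

theorem d0_or {n : ℕ} {P Q : (Fin n → M) → Prop} (hP : D0 S n P) (hQ : D0 S n Q) :
    D0 S n (fun v => P v ∨ Q v) := by
  exact d0_congr ((hP.not.and hQ.not).not) fun v => by tauto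

theorem d0_imp {n : ℕ} {P Q : (Fin n → M) → Prop} (hP : D0 S n P) (hQ : D0 S n Q) :
    D0 S n (fun v => P v → Q v) := by
  exact d0_congr ((hP.and hQ.not).not) fun v => by tauto

theorem d0_iff {n : ℕ} {P Q : (Fin n → M) → Prop} (hP : D0 S n P) (hQ : D0 S n Q) :
    D0 S n (fun v => P v ↔ Q v) := by
  exact d0_congr ((d0_imp hP hQ).and (d0_imp hQ hP)) fun v => by tauto

theorem d0_ball {n : ℕ} (t : Tm M n) {P : (Fin (n + 1) → M) → Prop} (h : D0 S (n + 1) P) :
    D0 S n (fun v => ∀ x, x < t.val v → P (Fin.cons x v)) := by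
  exact d0_congr ((D0.bex t h.not).not) fun v => by
    push Not
    rfl

end raw

section arith

variable {M : Type} [Arith M]

private theorem bd0_lt_succ {x y : M} : x < y + 1 ↔ x ≤ y := by
  constructor
  · intro h
    by_contra hc
    exact absurd (lt_of_lt_of_le h (Arith.succ_le (not_le.1 hc))) (lt_irrefl _)
  · intro h
    exact lt_of_le_of_lt h (lt_add_one _)

theorem d0_const {n : ℕ} (P : Prop) : D0 (Arith.S (M := M)) n (fun _ => P) := by
  by_cases hP : P
  · exact d0_congr (D0.eq .zero .zero) fun v => ⟨fun _ => hP, fun _ => rfl⟩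
  · exact d0_congr (D0.eq .zero .zero).not fun v => ⟨fun h => absurd rfl h, fun h => absurd h hP⟩

theorem d0_le {n : ℕ} (s t : Tm M n) : D0 (Arith.S (M := M)) n (fun v => s.val v ≤ t.val v) := by
  exact d0_congr (D0.lt t s).not fun v => not_lt

theorem d0_bexle {n : ℕ} (t : Tm M n) {P : (Fin (n + 1) → M) → Prop}
    (h : D0 (Arith.S (M := M)) (n + 1) P) :
    D0 (Arith.S (M := M)) n (fun v => ∃ x, x ≤ t.val v ∧ P (Fin.cons x v)) := by
  exact d0_congr (D0.bex (.add t .one) h) fun v => exists_congr fun x =>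
    and_congr_left fun _ => bd0_lt_succ

theorem d0_ballle {n : ℕ} (t : Tm M n) {P : (Fin (n + 1) → M) → Prop}
    (h : D0 (Arith.S (M := M)) (n + 1) P) :
    D0 (Arith.S (M := M)) n (fun v => ∀ x, x ≤ t.val v → P (Fin.cons x v)) := by
  exact d0_congr (d0_ball (.add t .one) h) fun v => forall_congr' fun x =>
    imp_congr_left bd0_lt_succ

/-- `Σ₁` relations of `n` variables; variable `0` of the inner relation is the witness -/
def S1 (M : Type) [Arith M] (n : ℕ) (P : (Fin n → M) → Prop) : Prop :=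
  ∃ Q : (Fin (n + 1) → M) → Prop, D0 (Arith.S (M := M)) (n + 1) Q ∧
    ∀ v, P v ↔ ∃ y, Q (Fin.cons y v)

theorem s1_congr {n : ℕ} {P Q : (Fin n → M) → Prop} (h : S1 M n P) (e : ∀ v, P v ↔ Q v) :
    S1 M n Q := by
  obtain ⟨R, hR, h⟩ := h
  exact ⟨R, hR, fun v => (e v).symm.trans (h v)⟩

theorem s1_of_d0 {n : ℕ} {P : (Fin n → M) → Prop} (h : D0 (Arith.S (M := M)) n P) :
    S1 M n P := by
  refine ⟨fun u => P (fun i => (Tm.var i.succ : Tm M (n + 1)).val u), d0_subst h _, fun v => ?_⟩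
  exact ⟨fun h => ⟨0, h⟩, fun ⟨_, h⟩ => h⟩

theorem s1_subst {n m : ℕ} {P : (Fin n → M) → Prop} (h : S1 M n P) (σ : Fin n → Tm M m) :
    S1 M m (fun v => P (fun i => (σ i).val v)) := by
  obtain ⟨Q, hQ, h⟩ := h
  refine ⟨fun u => Q (fun i => (bd0_up σ i).val u), d0_subst hQ _, fun v => ?_⟩
  beta_reduce
  rw [h]
  refine exists_congr fun y => ?_
  rw [bd0_up_val]

/-- a matrix which is monotone in the witness -/
private theorem bd0_mono {n : ℕ} {P : (Fin n → M) → Prop} (h : S1 M n P) :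
    ∃ R : (Fin (n + 1) → M) → Prop, D0 (Arith.S (M := M)) (n + 1) R ∧
      (∀ v, P v ↔ ∃ y, R (Fin.cons y v)) ∧
      ∀ v y y', y ≤ y' → R (Fin.cons y v) → R (Fin.cons y' v) := by
  obtain ⟨Q, hQ, h⟩ := h
  obtain ⟨R, hR⟩ : ∃ R : (Fin (n + 1) → M) → Prop, ∀ w v, R (Fin.cons w v) ↔
      ∃ y, y < w ∧ Q (Fin.cons y v) := by
    refine ⟨fun u => ∃ y, y < u 0 ∧ Q (Fin.cons y (fun i => u i.succ)), fun w v => ?_⟩
    exact Iff.rfl
  refine ⟨R, ?_, ?_, ?_⟩
  · have h1 := D0.bex (Tm.var (0 : Fin (n + 1))) (d0_subst hQ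
      (Fin.cons (.var 0) (fun i => .var i.succ.succ) : Fin (n + 1) → Tm M (n + 2)))
    refine d0_congr h1 fun u => ?_
    have hu : u = Fin.cons (u 0) (fun i => u i.succ) := (Fin.cons_self_tail u).symm
    conv_rhs => rw [hu, hR]
    refine exists_congr fun y => and_congr_right fun _ => iff_of_eq (congrArg Q ?_)
    funext i
    refine Fin.cases ?_ (fun i => ?_) i
    · rfl
    · rfl
  · intro v
    rw [h]
    constructor
    · rintro ⟨y, hy⟩
      exact ⟨y + 1, (hR _ _).mpr ⟨y, lt_add_one _, hy⟩⟩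
    · rintro ⟨w, hw⟩
      obtain ⟨y, -, hy⟩ := (hR _ _).mp hw
      exact ⟨y, hy⟩
  · intro v y y' hyy hy
    obtain ⟨x, hx, hQx⟩ := (hR _ _).mp hy
    exact (hR _ _).mpr ⟨x, lt_of_lt_of_le hx hyy, hQx⟩

theorem s1_and {n : ℕ} {P Q : (Fin n → M) → Prop} (hP : S1 M n P) (hQ : S1 M n Q) :
    S1 M n (fun v => P v ∧ Q v) := by
  obtain ⟨R, hR, h1, h2⟩ := bd0_mono hP
  obtain ⟨R', hR', h1', h2'⟩ := bd0_mono hQ
  refine ⟨_, hR.and hR', fun v => ?_⟩
  beta_reduce
  rw [h1, h1']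
  constructor
  · rintro ⟨⟨y, hy⟩, ⟨y', hy'⟩⟩
    exact ⟨max y y', h2 _ _ _ (le_max_left _ _) hy, h2' _ _ _ (le_max_right _ _) hy'⟩
  · rintro ⟨y, hy, hy'⟩
    exact ⟨⟨y, hy⟩, ⟨y, hy'⟩⟩

theorem s1_or {n : ℕ} {P Q : (Fin n → M) → Prop} (hP : S1 M n P) (hQ : S1 M n Q) :
    S1 M n (fun v => P v ∨ Q v) := by
  obtain ⟨R, hR, h1⟩ := hP
  obtain ⟨R', hR', h1'⟩ := hQ
  refine ⟨_, d0_or hR hR', fun v => ?_⟩
  beta_reduce
  rw [h1, h1', exists_or]

theorem s1_ex {n : ℕ} {P : (Fin (n + 1) → M) → Prop} (h : S1 M (n + 1) P) :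
    S1 M n (fun v => ∃ x, P (Fin.cons x v)) := by
  obtain ⟨R, hR, h1, h2⟩ := bd0_mono h
  refine ⟨_, D0.bex (Tm.var (0 : Fin (n + 1))) (d0_subst hR
    (Fin.cons (.var 1) (Fin.cons (.var 0) (fun i => .var i.succ.succ)) :
      Fin (n + 2) → Tm M (n + 2))), fun v => ?_⟩
  have key : ∀ w x : M, (fun i => ((Fin.cons (.var 1) (Fin.cons (.var 0) (fun i => .var i.succ.succ)) :
      Fin (n + 2) → Tm M (n + 2)) i).val (Fin.cons x (Fin.cons w v))) =
      (Fin.cons w (Fin.cons x v) : Fin (n + 2) → M) := by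
    intro w x
    funext i
    refine Fin.cases ?_ (fun i => ?_) i
    · rfl
    · refine Fin.cases ?_ (fun i => ?_) i
      · rfl
      · rfl
  constructor
  · rintro ⟨x, hx⟩
    obtain ⟨w, hw⟩ := (h1 _).mp hx
    refine ⟨max w (x + 1), x, lt_of_lt_of_le (lt_add_one x) (le_max_right _ _), ?_⟩
    rw [key]
    exact h2 _ _ _ (le_max_left _ _) hw
  · rintro ⟨w, x, -, hx⟩
    rw [key] at hx
    exact ⟨x, (h1 _).mpr ⟨w, hx⟩⟩

theorem s1_bex {n : ℕ} (t : Tm M n) {P : (Fin (n + 1) → M) → Prop} (h : S1 M (n + 1) P) :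
    S1 M n (fun v => ∃ x, x < t.val v ∧ P (Fin.cons x v)) := by
  have h1 : D0 (Arith.S (M := M)) (n + 1)
      (fun u => (Tm.var 0 : Tm M (n + 1)).val u < (t.subst (fun j => .var j.succ)).val u) :=
    D0.lt _ _
  refine s1_congr (s1_ex (s1_and (s1_of_d0 h1) h)) fun v => exists_congr fun x =>
    and_congr_left fun _ => ?_
  rw [Tm.val_subst]
  exact Iff.rfl

private theorem bd0_sigma1_of {P : (Fin 1 → M) → Prop} (h : S1 M 1 P) :
    Sigma1 (Arith.S (M := M)) (fun x => P ![x]) := by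
  obtain ⟨Q, hQ, h⟩ := h
  refine ⟨fun u => Q (fun i => ((![.var 1, .var 0] : Fin 2 → Tm M 2) i).val u), d0_subst hQ _,
    fun x => ?_⟩
  beta_reduce
  rw [h]
  refine exists_congr fun y => iff_of_eq (congrArg Q ?_)
  funext i
  fin_cases i <;> rfl

/-- collection for `Σ₁` relations -/
theorem s1_coll {n : ℕ} {P : (Fin (n + 2) → M) → Prop} (h : S1 M (n + 2) P) (b : M)
    (v : Fin n → M) (hP : ∀ x, x < b → ∃ y, P (Fin.cons y (Fin.cons x v))) :
    ∃ w, ∀ x, x < b → ∃ y, y < w ∧ P (Fin.cons y (Fin.cons x v)) := by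
  obtain ⟨R, hR, h1, h2⟩ := bd0_mono h
  obtain ⟨B, hB⟩ : ∃ B : M → M → Prop, ∀ b' w, B b' w ↔
      ∀ x, x < b' → ∃ y, y < w ∧ R (Fin.cons w (Fin.cons y (Fin.cons x v))) :=
    ⟨fun b' w => ∀ x, x < b' → ∃ y, y < w ∧ R (Fin.cons w (Fin.cons y (Fin.cons x v))),
      fun _ _ => Iff.rfl⟩
  have hmono : ∀ b' w w', w ≤ w' → B b' w → B b' w' := by
    intro b' w w' hww hw
    rw [hB] at hw ⊢
    intro x hx
    obtain ⟨y, hy, hr⟩ := hw x hx
    exact ⟨y, lt_of_lt_of_le hy hww, h2 _ _ _ hww hr⟩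
  have hS : S1 M 1 (fun u => u 0 ≤ b → ∃ w, B (u 0) w) := by
    refine ⟨_, d0_imp (d0_le (.var 1) (.par b)) (d0_ball (.var 1) (D0.bex (.var 1) (d0_subst hR
      (Fin.cons (.var 2) (Fin.cons (.var 0) (Fin.cons (.var 1) (fun i => .par (v i)))) :
        Fin (n + 3) → Tm M 4)))), fun u => ?_⟩
    have key : ∀ w x y : M, (fun i => ((Fin.cons (.var 2) (Fin.cons (.var 0) (Fin.cons (.var 1)
        (fun i => .par (v i)))) : Fin (n + 3) → Tm M 4) i).val
          (Fin.cons y (Fin.cons x (Fin.cons w u)))) =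
        (Fin.cons w (Fin.cons y (Fin.cons x v)) : Fin (n + 3) → M) := by
      intro w x y
      funext i
      refine Fin.cases rfl (fun i => ?_) i
      refine Fin.cases rfl (fun i => ?_) i
      exact Fin.cases rfl (fun i => rfl) i
    have e : ∀ w, ((Tm.val (.var 1 : Tm M 2) (Fin.cons w u) ≤ Tm.val (.par b : Tm M 2) (Fin.cons w u) →
        ∀ x, x < Tm.val (.var 1 : Tm M 2) (Fin.cons w u) →
          ∃ y, y < Tm.val (.var 1 : Tm M 3) (Fin.cons x (Fin.cons w u)) ∧
            R (fun i => ((Fin.cons (.var 2) (Fin.cons (.var 0) (Fin.cons (.var 1)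
        (fun i => .par (v i)))) : Fin (n + 3) → Tm M 4) i).val
          (Fin.cons y (Fin.cons x (Fin.cons w u))))) ↔ (u 0 ≤ b → B (u 0) w)) := by
      intro w
      rw [hB]
      refine imp_congr Iff.rfl (forall_congr' fun x => imp_congr Iff.rfl
        (exists_congr fun y => and_congr Iff.rfl ?_))
      rw [key]
    constructor
    · intro hu
      by_cases hub : u 0 ≤ b
      · obtain ⟨w, hw⟩ := hu hub
        exact ⟨w, (e w).mpr fun _ => hw⟩
      · exact ⟨0, (e 0).mpr fun h => absurd h hub⟩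
    · rintro ⟨w, hw⟩ hub
      exact ⟨w, (e w).mp hw hub⟩
  have hind := Arith.ind _ (bd0_sigma1_of hS) (fun _ => ⟨0, (hB _ _).mpr fun x hx =>
    absurd hx (not_lt_of_ge zero_le)⟩) (fun b' ih hb' => by
      have hlt : b' < b := lt_of_lt_of_le (lt_add_one _) hb'
      obtain ⟨w, hw⟩ := ih hlt.le
      obtain ⟨y, hy⟩ := hP b' hlt
      obtain ⟨w', hw'⟩ := (h1 _).mp hy
      refine ⟨max w (max w' (y + 1)), (hB _ _).mpr fun x hx => ?_⟩
      rcases lt_or_eq_of_le (bd0_lt_succ.mp hx) with hx' | hx'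
      · exact (hB _ _).mp (hmono _ _ _ (le_max_left _ _) hw) x hx'
      · have hx'' : x = b' := hx'
        subst hx''
        refine ⟨y, lt_of_lt_of_le (lt_add_one y) ((le_max_right _ _).trans (le_max_right _ _)), ?_⟩
        exact h2 _ _ _ ((le_max_left _ _).trans (le_max_right _ _)) hw') b
  obtain ⟨w, hw⟩ := hind le_rfl
  refine ⟨w, fun x hx => ?_⟩
  obtain ⟨y, hy, hr⟩ := (hB _ _).mp hw x hx
  exact ⟨y, hy, (h1 _).mpr ⟨w, hr⟩⟩

theorem s1_ball {n : ℕ} (t : Tm M n) {P : (Fin (n + 1) → M) → Prop} (h : S1 M (n + 1) P) :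
    S1 M n (fun v => ∀ x, x < t.val v → P (Fin.cons x v)) := by
  obtain ⟨R, hR, h1, h2⟩ := bd0_mono h
  refine ⟨_, d0_ball (t.subst (fun j => .var j.succ)) (d0_subst hR
    (Fin.cons (.var 1) (Fin.cons (.var 0) (fun i => .var i.succ.succ)) :
      Fin (n + 2) → Tm M (n + 2))), fun v => ?_⟩
  have key : ∀ w x : M, (fun i => ((Fin.cons (.var 1) (Fin.cons (.var 0) (fun i => .var i.succ.succ)) :
      Fin (n + 2) → Tm M (n + 2)) i).val (Fin.cons x (Fin.cons w v))) =
      (Fin.cons w (Fin.cons x v) : Fin (n + 2) → M) := by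
    intro w x
    funext i
    refine Fin.cases rfl (fun i => ?_) i
    exact Fin.cases rfl (fun i => rfl) i
  have ht : ∀ w : M, (t.subst (fun j => .var j.succ)).val (Fin.cons w v) = t.val v := by
    intro w
    rw [Tm.val_subst]
    rfl
  constructor
  · intro hv
    obtain ⟨w, hw⟩ := s1_coll (s1_of_d0 hR) (t.val v) v (fun x hx => (h1 _).mp (hv x hx))
    refine ⟨w, fun x hx => ?_⟩
    rw [ht] at hx
    rw [key]
    obtain ⟨y, hy, hr⟩ := hw x hx
    exact h2 _ _ _ hy.le hr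
  · rintro ⟨w, hw⟩ x hx
    have h3 := hw x (by rw [ht]; exact hx)
    rw [key] at h3
    exact (h1 _).mpr ⟨w, h3⟩

theorem sigma1_of {P : (Fin 1 → M) → Prop} (h : S1 M 1 P) :
    Sigma1 (Arith.S (M := M)) (fun x => P ![x]) := by
  obtain ⟨Q, hQ, h⟩ := h
  refine ⟨fun u => Q (fun i => ((![.var 1, .var 0] : Fin 2 → Tm M 2) i).val u), d0_subst hQ _,
    fun x => ?_⟩
  beta_reduce
  rw [h]
  refine exists_congr fun y => iff_of_eq (congrArg Q ?_)
  funext i
  fin_cases i <;> rfl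

theorem of_sigma1 {P : M → Prop} (h : Sigma1 (Arith.S (M := M)) P) :
    S1 M 1 (fun v => P (v 0)) := by
  obtain ⟨Q, hQ, h⟩ := h
  refine ⟨fun u => Q (fun i => ((![.var 1, .var 0] : Fin 2 → Tm M 2) i).val u), d0_subst hQ _,
    fun v => ?_⟩
  beta_reduce
  rw [h]
  refine exists_congr fun y => iff_of_eq (congrArg Q ?_)
  funext i
  fin_cases i <;> rfl

/-- the graph of the Cantor pairing -/
theorem d0_pair : D0 (Arith.S (M := M)) 3
    (fun v => 2 * v 0 = (v 1 + v 2) * (v 1 + v 2 + 1) + 2 * v 2) := by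
  have h := D0.eq (S := Arith.S (M := M)) (n := 3) (.mul (.add .one .one) (.var 0))
    (.add (.mul (.add (.var 1) (.var 2)) (.add (.add (.var 1) (.var 2)) .one))
      (.mul (.add .one .one) (.var 2)))
  refine d0_congr h fun v => ?_
  simp only [Tm.val, one_add_one_eq_two]

end arith

end RT22P
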