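import Pool.Agent.RTP.BD0

/-!
# B3: the Cantor pairing is a bijection

Existence of `s` with `s (s + 1) ≤ 2 z < (s + 1) (s + 2)` by induction on `z` (`Arith.ind`, bounded
formula); `s (s + 1)` is even by induction; uniqueness by monotonicity.
-/

set_option autoImplicit false

namespace RT22P

private theorem bpre_even (M : Type) [Arith M] (s : M) : ∃ t : M, s * (s + 1) = 2 * t := by
  have hS : Sigma1 (Arith.S (M := M)) (fun x : M => ∃ t : M, x * (x + 1) = 2 * t) := by
    have h1 : D0 (Arith.S (M := M)) 2 (fun v => v 1 * (v 1 + 1) = (1 + 1) * v 0) :=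
      D0.eq (.mul (.var 1) (.add (.var 1) .one)) (.mul (.add .one .one) (.var 0))
    have h2 := sigma1_of (s1_ex (s1_of_d0 h1))
    obtain ⟨Q, hQ, hQ2⟩ := h2
    refine ⟨Q, hQ, fun x => ?_⟩
    rw [← hQ2 x]
    constructor
    · rintro ⟨t, ht⟩
      refine ⟨t, ?_⟩
      show x * (x + 1) = (1 + 1) * t
      rw [one_add_one_eq_two]
      exact ht
    · rintro ⟨t, ht⟩
      refine ⟨t, ?_⟩
      have ht' : x * (x + 1) = (1 + 1) * t := ht
      rw [one_add_one_eq_two] at ht'
      exact ht'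
  refine Arith.ind (fun x : M => ∃ t : M, x * (x + 1) = 2 * t) hS ⟨0, by ring⟩ ?_ s
  rintro x ⟨t, ht⟩
  refine ⟨t + (x + 1), ?_⟩
  calc (x + 1) * (x + 1 + 1) = x * (x + 1) + 2 * (x + 1) := by ring
    _ = 2 * t + 2 * (x + 1) := by rw [ht]
    _ = 2 * (t + (x + 1)) := by ring

private theorem bpre_floor (M : Type) [Arith M] (z : M) :
    ∃ s : M, s * (s + 1) ≤ 2 * z ∧ 2 * z < (s + 1) * (s + 1 + 1) := by
  have hS : Sigma1 (Arith.S (M := M))
      (fun x : M => ∃ s : M, s * (s + 1) ≤ 2 * x ∧ 2 * x < (s + 1) * (s + 1 + 1)) := by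
    have h1 : D0 (Arith.S (M := M)) 2 (fun v => v 0 * (v 0 + 1) ≤ (1 + 1) * v 1 ∧
        (1 + 1) * v 1 < (v 0 + 1) * (v 0 + 1 + 1)) :=
      D0.and (d0_le (.mul (.var 0) (.add (.var 0) .one)) (.mul (.add .one .one) (.var 1)))
        (D0.lt (.mul (.add .one .one) (.var 1))
          (.mul (.add (.var 0) .one) (.add (.add (.var 0) .one) .one)))
    have h2 := sigma1_of (s1_ex (s1_of_d0 h1))
    obtain ⟨Q, hQ, hQ2⟩ := h2
    refine ⟨Q, hQ, fun x => ?_⟩
    rw [← hQ2 x]
    constructor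
    · rintro ⟨t, ht⟩
      refine ⟨t, ?_⟩
      show t * (t + 1) ≤ (1 + 1) * x ∧ (1 + 1) * x < (t + 1) * (t + 1 + 1)
      rw [show (1 + 1 : M) * x = 2 * x by rw [one_add_one_eq_two]]
      exact ht
    · rintro ⟨t, ht⟩
      refine ⟨t, ?_⟩
      have ht' : t * (t + 1) ≤ (1 + 1) * x ∧ (1 + 1) * x < (t + 1) * (t + 1 + 1) := ht
      rw [show (1 + 1 : M) * x = 2 * x by rw [one_add_one_eq_two]] at ht'
      exact ht'
  refine Arith.ind
    (fun x : M => ∃ s : M, s * (s + 1) ≤ 2 * x ∧ 2 * x < (s + 1) * (s + 1 + 1)) hS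
    ⟨0, by rw [zero_mul]; exact zero_le, by
      rw [mul_zero, zero_add, one_mul]
      exact lt_of_lt_of_le zero_lt_one (le_of_lt (lt_add_one 1))⟩ ?_ z
  rintro x ⟨s, h1, h2⟩
  by_cases hc : 2 * (x + 1) < (s + 1) * (s + 1 + 1)
  · exact ⟨s, le_trans h1 (mul_le_mul_right (le_of_lt (lt_add_one x)) 2), hc⟩
  · refine ⟨s + 1, not_lt.1 hc, ?_⟩
    have h3 : 2 * x + 1 ≤ (s + 1) * (s + 1 + 1) := Arith.succ_le h2
    have h4 : 2 * (x + 1) ≤ (s + 1) * (s + 1 + 1) + 1 := by
      have h5 : 2 * x + 1 + 1 ≤ (s + 1) * (s + 1 + 1) + 1 := add_le_add_left h3 1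
      calc 2 * (x + 1) = 2 * x + 1 + 1 := by ring
        _ ≤ _ := h5
    refine lt_of_le_of_lt h4 ?_
    have h6 : (s + 1 + 1) * (s + 1 + 1 + 1) = (s + 1) * (s + 1 + 1) + 1 + (2 * s + 2 + 1) := by
      ring
    rw [h6]
    exact lt_add_of_pos_right _ (lt_of_lt_of_le zero_lt_one (by
      rw [add_comm]
      exact le_add_of_nonneg_right zero_le))

private theorem bpre_mono (M : Type) [Arith M] {x y x' y' : M} (h : x + y < x' + y') :
    (x + y) * (x + y + 1) + 2 * y < (x' + y') * (x' + y' + 1) + 2 * y' := by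
  have h1 : x + y + 1 ≤ x' + y' := Arith.succ_le h
  have h2 : (x + y + 1) * (x + y + 1 + 1) ≤ (x' + y') * (x' + y' + 1) :=
    mul_le_mul' h1 (add_le_add_left h1 1)
  have h3 : (x + y) * (x + y + 1) + 2 * y < (x + y + 1) * (x + y + 1 + 1) := by
    have h4 : (x + y + 1) * (x + y + 1 + 1) =
        (x + y) * (x + y + 1) + 2 * y + (2 * x + 1 + 1) := by ring
    rw [h4]
    exact lt_add_of_pos_right _ (lt_of_lt_of_le zero_lt_one (by
      rw [add_comm]
      exact le_add_of_nonneg_right zero_le))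
  exact lt_of_lt_of_le h3 (le_trans h2 (le_add_of_nonneg_right zero_le))

theorem exists_cp (M : Type) [Arith M] : ∃ cp : M × M ≃ M,
    ∀ x y : M, 2 * cp (x, y) = (x + y) * (x + y + 1) + 2 * y := by
  have h2 : (0 : M) < 2 := two_pos
  have hex : ∀ q : M × M, ∃ c : M, 2 * c = (q.1 + q.2) * (q.1 + q.2 + 1) + 2 * q.2 := by
    intro q
    obtain ⟨t, ht⟩ := bpre_even M (q.1 + q.2)
    exact ⟨t + q.2, by rw [ht]; ring⟩
  choose f hf using hex
  have hinj : Function.Injective f := by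
    rintro ⟨x, y⟩ ⟨x', y'⟩ h
    have e1 := hf (x, y)
    have e2 := hf (x', y')
    rw [h, e2] at e1
    dsimp only at e1
    rcases lt_trichotomy (x + y) (x' + y') with hlt | heq | hgt
    · exact absurd e1 (ne_of_gt (bpre_mono M hlt))
    · rw [heq] at e1
      have e3 : 2 * y' = 2 * y := add_left_cancel e1
      have e4 : y' = y := by
        rcases lt_trichotomy y' y with h5 | h5 | h5
        · exact absurd e3 (ne_of_lt (mul_lt_mul_of_pos_left h5 h2))
        · exact h5
        · exact absurd e3 (ne_of_gt (mul_lt_mul_of_pos_left h5 h2))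
      subst e4
      have e5 : x = x' := add_right_cancel heq
      rw [e5]
    · exact absurd e1 (ne_of_lt (bpre_mono M hgt))
  have hsurj : Function.Surjective f := by
    intro z
    obtain ⟨s, hs1, hs2⟩ := bpre_floor M z
    obtain ⟨t, ht⟩ := bpre_even M s
    have htz : t ≤ z := by
      by_contra hc
      rw [ht] at hs1
      exact absurd (lt_of_lt_of_le (mul_lt_mul_of_pos_left (not_le.1 hc) h2) hs1) (lt_irrefl _)
    obtain ⟨y, hy⟩ := exists_add_of_le htz
    have hys : y ≤ s := by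
      by_contra hc
      have h5 : s + 1 ≤ y := Arith.succ_le (not_le.1 hc)
      have h6 : (s + 1) * (s + 1 + 1) ≤ 2 * z := by
        calc (s + 1) * (s + 1 + 1) = s * (s + 1) + 2 * (s + 1) := by ring
          _ ≤ s * (s + 1) + 2 * y := add_le_add_right (mul_le_mul_right h5 2) _
          _ = 2 * t + 2 * y := by rw [ht]
          _ = 2 * z := by rw [hy]; ring
      exact absurd (lt_of_lt_of_le hs2 h6) (lt_irrefl _)
    obtain ⟨x, hx⟩ := exists_add_of_le hys
    refine ⟨(x, y), ?_⟩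
    have e1 : 2 * f (x, y) = 2 * z := by
      rw [hf (x, y)]
      show (x + y) * (x + y + 1) + 2 * y = 2 * z
      have e0 : x + y = s := by rw [hx, add_comm]
      rw [e0, ht, hy]
      ring
    rcases lt_trichotomy (f (x, y)) z with h5 | h5 | h5
    · exact absurd e1 (ne_of_lt (mul_lt_mul_of_pos_left h5 h2))
    · exact h5
    · exact absurd e1 (ne_of_gt (mul_lt_mul_of_pos_left h5 h2))
  exact ⟨Equiv.ofBijective f ⟨hinj, hsurj⟩, fun x y => hf (x, y)⟩

/-- the class `Pre` -/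
@[reducible] noncomputable def preOf (M : Type) [A : Arith M] : Pre M :=
  { A with
    cp := (exists_cp M).choose
    cp_spec := (exists_cp M).choose_spec }

end RT22P
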