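import Pool.Agent.RTP.PCpy

/-!
# Section 2: `RT²₂(q)` implies the infinite pigeonhole principle

Let `c : M → [0, a)` have only bounded classes and `f x y ↔ c x ≤ c y`; let `H` be an infinite set.
`Rec i j`: infinitely many `x ∈ H` have `i ≤ c x < j`.

* `c2_irr`: if every recurrent interval contains two disjoint recurrent intervals then every pattern
  has a copy in `{x ∈ H | i ≤ c x < j}` for every recurrent `[i, j)` (induction on the pattern: direct sum:
  left interval first; skew sum: right interval first).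
* `c2_bad`: if `[i, j)` is recurrent and is not the union of `[i, t)`, `[t, j)` both recurrent, for any `t`,
  then `f` is bad on `Y = {x ∈ H | i ≤ c x < j}`: every `t` is low (eventually `t ≤ c y` on `Y`) or high
  (eventually `c y < t`).  If all points of an infinite `Y'` have limit `1`: the greatest colour `t₀` on
  `Y'` is low, so `c y = t₀` for all large `y ∈ Y'`.  If all limits are `0`, the least colour on `Y'` is high.
* `c2_typed`: every frequent pattern has typed copies: otherwise take in each copy the point of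
  largest colour (for limit `0`, which is upward closed in the colour) resp. of least colour (limit `1`).
-/

set_option autoImplicit false

namespace RT22P

open Env

variable {M : Type} [Env M]

/-- recurrent intervals of colours -/
def Rec (c : M → M) (H : Set M) (i j : M) : Prop := ∀ b, ∃ x ∈ H, b < x ∧ i ≤ c x ∧ c x < j

/-- a recurrent interval which does not split -/
structure Irr (c : M → M) (H : Set M) (i j : M) : Prop where
  rc : Rec c H i j
  irr : ∀ t, ¬ (Rec c H i t ∧ Rec c H t j)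

/-- the colouring of the proof -/
def fc (c : M → M) (x y : M) : Prop := c x ≤ c y

private theorem c2_fc_comp {c : M → M} (hc : Comp M c) :
    Comp M (fun q : M × M => fc c q.1 q.2) :=
  comp_le _ _ (comp_comp c (fun q : M × M => q.1) hc (by fun_prop))
    (comp_comp c (fun q : M × M => q.2) hc (by fun_prop))

theorem c2_irr {c : M → M} (hc : Comp M c) {H : Set M} (hH : IS H)
    (h : ∀ i j, ¬ Irr c H i j) (q : Sp) :
    ∀ i j, Rec c H i j → ∀ b, ∃ a, Cpy (fc c) q a ∧
      ∀ x, el x a → x ∈ H ∧ b < x ∧ i ≤ c x ∧ c x < j := by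
  have hs : ∀ i j, Rec c H i j → ∃ t, Rec c H i t ∧ Rec c H t j := by
    intro i j hr
    by_contra hcon
    exact h i j ⟨hr, fun t ht => hcon ⟨t, ht⟩⟩
  induction q with
  | pt =>
    intro i j hr b
    obtain ⟨x, hx, hbx, h1, h2⟩ := hr b
    refine ⟨sg x, cpy_pt x, fun y hy => ?_⟩
    rw [el_sg.1 hy]
    exact ⟨hx, hbx, h1, h2⟩
  | op d p q ihp ihq =>
    intro i j hr b
    obtain ⟨t, ht1, ht2⟩ := hs i j hr
    have hit : i ≤ t := by
      obtain ⟨x, -, -, h1, h2⟩ := ht1 0
      exact h1.trans h2.le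
    have htj : t ≤ j := by
      obtain ⟨x, -, -, h1, h2⟩ := ht2 0
      exact h1.trans h2.le
    cases d with
    | true =>
      obtain ⟨a1, h1, h1'⟩ := ihp i t ht1 b
      obtain ⟨a2, h2, h2'⟩ := ihq t j ht2 (max b a1)
      refine ⟨un a1 a2, cpy_op h1 h2 fun x hx y hy => ⟨?_, ?_⟩, fun x hx => ?_⟩
      · exact (el_lt hx).trans (lt_of_le_of_lt (le_max_right _ _) (h2' y hy).2.1)
      · refine ⟨fun _ => rfl, fun _ => ?_⟩
        exact (h1' x hx).2.2.2.le.trans (h2' y hy).2.2.1
      · rcases el_un.1 hx with hx | hx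
        · obtain ⟨e1, e2, e3, e4⟩ := h1' x hx
          exact ⟨e1, e2, e3, lt_of_lt_of_le e4 htj⟩
        · obtain ⟨e1, e2, e3, e4⟩ := h2' x hx
          exact ⟨e1, lt_of_le_of_lt (le_max_left _ _) e2, hit.trans e3, e4⟩
    | false =>
      obtain ⟨a1, h1, h1'⟩ := ihp t j ht2 b
      obtain ⟨a2, h2, h2'⟩ := ihq i t ht1 (max b a1)
      refine ⟨un a1 a2, cpy_op h1 h2 fun x hx y hy => ⟨?_, ?_⟩, fun x hx => ?_⟩
      · exact (el_lt hx).trans (lt_of_le_of_lt (le_max_right _ _) (h2' y hy).2.1)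
      · refine ⟨fun h3 => ?_, fun h3 => absurd h3 (by simp)⟩
        have h4 : c x ≤ c y := h3
        exact absurd (lt_of_le_of_lt ((h1' x hx).2.2.1.trans h4) (h2' y hy).2.2.2) (lt_irrefl _)
      · rcases el_un.1 hx with hx | hx
        · obtain ⟨e1, e2, e3, e4⟩ := h1' x hx
          exact ⟨e1, e2, hit.trans e3, e4⟩
        · obtain ⟨e1, e2, e3, e4⟩ := h2' x hx
          exact ⟨e1, lt_of_le_of_lt (le_max_left _ _) e2, e3, lt_of_lt_of_le e4 htj⟩

private theorem c2_sig {c : M → M} (hc : Comp M c) {Z : Set M} (hZ : IS Z) :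
    Sig M (fun t => ∃ x, x ∈ Z ∧ c x = t) :=
  ⟨fun q : M × M => q.2 ∈ Z ∧ c q.2 = q.1,
    comp_and _ _ (comp_comp (fun x : M => x ∈ Z) (fun q : M × M => q.2) hZ.comp (by fun_prop))
      (comp_eq _ _ (comp_comp c (fun q : M × M => q.2) hc (by fun_prop)) (by fun_prop)),
    fun _ => Iff.rfl⟩

theorem c2_bad {c : M → M} (hc : Comp M c) {H : Set M} (hH : IS H) {i j : M}
    (h : Irr c H i j) (hb : ∀ t, ∃ b, ∀ x ∈ H, b ≤ x → c x ≠ t) :
    Bad (fc c) {x | x ∈ H ∧ (i ≤ c x ∧ c x < j)} := by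
  have hdic : ∀ t, (∃ b, ∀ y, y ∈ H ∧ (i ≤ c y ∧ c y < j) → b ≤ y → t ≤ c y) ∨
      (∃ b, ∀ y, y ∈ H ∧ (i ≤ c y ∧ c y < j) → b ≤ y → c y < t) := by
    intro t
    by_cases h1 : Rec c H i t
    · right
      have h2 : ¬ Rec c H t j := fun h2 => h.irr t ⟨h1, h2⟩
      unfold Rec at h2
      push Not at h2
      obtain ⟨b, hb'⟩ := h2
      refine ⟨b + 1, fun y hy hby => ?_⟩
      by_contra h3
      exact absurd (hb' y hy.1 (succ_le_iff.1 hby) (not_lt.1 h3)) (not_le.2 hy.2.2)
    · left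
      unfold Rec at h1
      push Not at h1
      obtain ⟨b, hb'⟩ := h1
      exact ⟨b + 1, fun y hy hby => hb' y hy.1 (succ_le_iff.1 hby) hy.2.1⟩
  refine ⟨c2_fc_comp hc, ?_, ?_, ?_⟩
  · refine is_sep hH (P := fun x => i ≤ c x ∧ c x < j) (comp_and _ _
      (comp_le _ _ (comp_const i) hc) (comp_lt _ _ hc (comp_const j))) fun b => ?_
    exact h.rc b
  · intro x hx
    rcases hdic (c x + 1) with ⟨b, h1⟩ | ⟨b, h1⟩
    · refine ⟨true, b, fun y hy hby => ⟨fun _ => rfl, fun _ => ?_⟩⟩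
      exact (lt_self_succ (c x)).le.trans (h1 y hy hby)
    · obtain ⟨b', h2⟩ := hb (c x)
      refine ⟨false, max b b', fun y hy hby => ⟨fun h3 => ?_, fun h3 => absurd h3 (by simp)⟩⟩
      have h4 : c x ≤ c y := h3
      have h5 := h1 y hy ((le_max_left _ _).trans hby)
      have h6 := h2 y hy.1 ((le_max_right _ _).trans hby)
      exact absurd (le_antisymm (lt_succ.1 h5) h4) h6
  · intro Z hZ hZX d hd
    have hne : ∃ t, ∃ x, x ∈ Z ∧ c x = t := by
      obtain ⟨x, hx, -⟩ := hZ.unb 0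
      exact ⟨c x, x, hx, rfl⟩
    cases d with
    | true =>
      obtain ⟨t, ⟨x, hx, hxt⟩, hmax⟩ := greatest (c2_sig hc hZ) hne j (by
        rintro t ⟨x, hx, rfl⟩
        exact (hZX hx).2.2)
      obtain ⟨b, h1⟩ := hd x hx
      obtain ⟨b', h2⟩ := hb t
      obtain ⟨y, hy, hby⟩ := hZ.unb (max b b')
      have h3 : c x ≤ c y := (h1 y (hZX hy) ((le_max_left _ _).trans hby.le)).2 rfl
      have h4 := hmax (c y) ⟨y, hy, rfl⟩
      rw [hxt] at h3
      exact h2 y (hZX hy).1 ((le_max_right _ _).trans hby.le) (le_antisymm h4 h3)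
    | false =>
      obtain ⟨t, ⟨x, hx, hxt⟩, hmin⟩ := least (c2_sig hc hZ) hne
      obtain ⟨b, h1⟩ := hd x hx
      obtain ⟨y, hy, hby⟩ := hZ.unb b
      have h2 := h1 y (hZX hy) hby.le
      have h3 : c y < t := by
        by_contra h3
        have h4 : fc c x y := by
          show c x ≤ c y
          rw [hxt]
          exact not_lt.1 h3
        exact absurd (h2.1 h4) (by simp)
      exact hmin (c y) h3 ⟨y, hy, rfl⟩

/-- a copy has an element of largest colour and an element of least colour -/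
private theorem c2_ext {c : M → M} {q : Sp} {a : M} (h : Cpy (fc c) q a) :
    (∃ z, el z a ∧ ∀ w, el w a → c w ≤ c z) ∧ (∃ z, el z a ∧ ∀ w, el w a → c z ≤ c w) := by
  classical
  obtain ⟨l, hl⟩ := h.list
  obtain ⟨x, hx⟩ := h.ne
  have hne : l.toFinset.Nonempty := ⟨x, List.mem_toFinset.2 ((hl x).1 hx)⟩
  constructor
  · obtain ⟨z, hz, hz'⟩ := Finset.exists_max_image l.toFinset c hne
    exact ⟨z, (hl z).2 (List.mem_toFinset.1 hz), fun w hw =>
      hz' w (List.mem_toFinset.2 ((hl w).1 hw))⟩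
  · obtain ⟨z, hz, hz'⟩ := Finset.exists_min_image l.toFinset c hne
    exact ⟨z, (hl z).2 (List.mem_toFinset.1 hz), fun w hw =>
      hz' w (List.mem_toFinset.2 ((hl w).1 hw))⟩

theorem c2_typed {c : M → M} (hc : Comp M c) {X : Set M} (hX : Bad (fc c) X) (q : Sp) (d : Bool)
    {Y : Set M} (hY : IS Y) (hYX : Y ⊆ X) (hq : Freq (fc c) Y q) :
    ∃ a, FS a Y ∧ Cpy (fc c) q a ∧ ∀ x, el x a → Lim (fc c) X d x := by
  by_contra hcon
  have hcon' : ∀ a, FS a Y → Cpy (fc c) q a → ∃ x, el x a ∧ Lim (fc c) X (!d) x := by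
    intro a ha ha'
    by_contra h1
    refine hcon ⟨a, ha, ha', fun x hx => ?_⟩
    obtain ⟨e, he⟩ := hX.stab x (hYX (ha x hx))
    by_cases hed : e = d
    · rw [← hed]; exact he
    · have : e = !d := by cases e <;> cases d <;> simp_all
      rw [this] at he
      exact absurd ⟨x, hx, he⟩ h1
  -- the extreme element
  let E : M → M → Prop := fun z w => if d = true then c w ≤ c z else c z ≤ c w
  have hE : Comp M (fun q : M × M => E q.1 q.2) := by
    cases d with
    | true =>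
      have e : (fun q : M × M => E q.1 q.2) = fun q => c q.2 ≤ c q.1 := by
        funext q; simp [E]
      rw [e]
      exact comp_le _ _ (comp_comp c (fun q : M × M => q.2) hc (by fun_prop))
        (comp_comp c (fun q : M × M => q.1) hc (by fun_prop))
    | false =>
      have e : (fun q : M × M => E q.1 q.2) = fun q => c q.1 ≤ c q.2 := by
        funext q; simp [E]
      rw [e]
      exact c2_fc_comp hc
  have hE1 : ∀ a, Cpy (fc c) q a → ∃ z, el z a ∧ ∀ w, el w a → E z w := by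
    intro a ha
    cases d with
    | true =>
      obtain ⟨z, hz, hz'⟩ := (c2_ext ha).1
      exact ⟨z, hz, fun w hw => by simpa [E] using hz' w hw⟩
    | false =>
      obtain ⟨z, hz, hz'⟩ := (c2_ext ha).2
      exact ⟨z, hz, fun w hw => by simpa [E] using hz' w hw⟩
  have hE2 : ∀ z w, E z w → Lim (fc c) X (!d) w → Lim (fc c) X (!d) z := by
    intro z w hzw hw
    obtain ⟨b, hb⟩ := hw
    refine ⟨b, fun y hy hby => ?_⟩
    have h1 := hb y hy hby
    cases d with
    | true =>
      have h2 : c w ≤ c z := by simpa [E] using hzw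
      refine ⟨fun h3 => ?_, fun h3 => absurd h3 (by simp)⟩
      have h4 : c z ≤ c y := h3
      exact h1.1 (show c w ≤ c y from h2.trans h4)
    | false =>
      have h2 : c z ≤ c w := by simpa [E] using hzw
      refine ⟨fun _ => rfl, fun _ => ?_⟩
      have h4 : c w ≤ c y := h1.2 rfl
      exact h2.trans h4
  have hsig : Sig M (fun z => ∃ a, FS a Y ∧ (Cpy (fc c) q a ∧ (el z a ∧ ∀ w, el w a → E z w))) := by
    refine ⟨fun p : M × M => FS p.2 Y ∧ (Cpy (fc c) q p.2 ∧ (el p.1 p.2 ∧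
      ∀ w, el w p.2 → E p.1 w)), ?_, fun _ => Iff.rfl⟩
    refine comp_and _ _ (comp_FS hY.comp _ (by fun_prop)) (comp_and _ _
      (comp_comp (fun a : M => Cpy (fc c) q a) (fun p : M × M => p.2) (comp_Cpy (c2_fc_comp hc) q)
        (by fun_prop)) (comp_and _ _ (by fun_prop) ?_))
    exact comp_allel (fun p : M × M => p.2) (fun p w => E p.1 w) (by fun_prop)
      (comp_comp (fun q : M × M => E q.1 q.2) (fun r : (M × M) × M => (r.1.1, r.2)) hE
        (by fun_prop))
  obtain ⟨Z, hZ, hZP⟩ := inf_of_sig hsig fun b => by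
    obtain ⟨a, ha, ha', hab⟩ := hq.above hY b
    obtain ⟨z, hz, hz'⟩ := hE1 a ha'
    exact ⟨z, hab z hz, a, ha, ha', hz, hz'⟩
  refine hX.bad Z hZ ?_ (!d) ?_
  · intro z hz
    obtain ⟨a, ha, -, hza, -⟩ := hZP z hz
    exact hYX (ha z hza)
  · intro z hz
    obtain ⟨a, ha, ha', hza, hza'⟩ := hZP z hz
    obtain ⟨x, hx, hxl⟩ := hcon' a ha ha'
    exact hE2 z x (hza' x hx) hxl

/-- `RT²₂(q)` implies `RT¹` -/
theorem rt1_of_rtp {q : Sp} (h : RTp M q) : RT1 M := by
  intro c hc a hca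
  by_contra hcon
  have hb : ∀ t, ∃ b, ∀ x : M, b ≤ x → c x ≠ t := by
    intro t
    by_contra h1
    refine hcon ⟨t, fun b => ?_⟩
    by_contra h2
    refine h1 ⟨b + 1, fun x hx hxt => h2 ⟨x, hxt, succ_le_iff.1 hx⟩⟩
  obtain ⟨H, hH, hH'⟩ := h (fc c) (c2_fc_comp hc)
  by_cases hirr : ∃ i j, Irr c H i j
  · obtain ⟨i, j, hij⟩ := hirr
    have hbad := c2_bad hc hH hij fun t => by
      obtain ⟨b, hb'⟩ := hb t
      exact ⟨b, fun x _ hx => hb' x hx⟩
    obtain ⟨b, hb1, hb2⟩ := typed_all hbad (fun q d Y hY hYX hq =>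
      c2_typed hc hbad q d hY hYX hq) q _ hbad.is (fun x hx => hx)
    exact hH' b (fun x hx => (hb1 x hx).1) hb2
  · have hno : ∀ i j, ¬ Irr c H i j := fun i j hij => hirr ⟨i, j, hij⟩
    obtain ⟨b, hb1, hb2⟩ := c2_irr hc hH hno q 0 a (by
      intro b
      obtain ⟨x, hx, hbx⟩ := hH.unb b
      exact ⟨x, hx, hbx, zero_le' _, hca x⟩) 0
    exact hH' b (fun x hx => (hb2 x hx).1) hb1

end RT22P
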