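import Pool.Agent.RTP.PCpy

/-!
# Section 3: reduction to stable colourings

`f : M → M → Prop`; compare columns lexicographically: `lx f x y` iff there is `i < x` with `f i x` false,
`f i y` true and `f j x ↔ f j y` for all `j < i`.  Let `H` be an infinite set.
A node is a pair `(n, v)`, `v` a finite set (its elements `< n` matter); it is recurrent in `H` if
infinitely many `x ∈ H` satisfy `f i x ↔ el i v` for all `i < n`.

* `c3_irr`: if every recurrent node has two incompatible recurrent extensions then every pattern has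
  a copy for `lx f` above every recurrent node (induction on the pattern: if `(n₁, v₁)`, `(n₂, v₂)` are
  incompatible, let `i` be the first difference; direct sum: first the copy above the node without
  `i`, then, far out, the copy above the node with `i`; skew sum: the other way round; all points are
  taken larger than `i`).
* `c3_stab`: if `(n, v)` is recurrent and has no two incompatible recurrent extensions then `f` is stable on
  `X = {x ∈ H | x extends (n, v)}`: if `f m` takes both values infinitely often on `X`, `BPi.rt1_on` gives two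
  incompatible recurrent extensions of length `max n (m + 1)`.
-/

set_option autoImplicit false

namespace RT22P

open Env

variable {M : Type} [Env M]

/-- lexicographic comparison of columns -/
def lx (f : M → M → Prop) (x y : M) : Prop :=
  ∃ i, i < x ∧ ((∀ j, j < i → (f j x ↔ f j y)) ∧ (¬ f i x ∧ f i y))

/-- `x` extends the node `(n, v)` -/
def Ext (f : M → M → Prop) (n v x : M) : Prop := ∀ i, i < n → (f i x ↔ el i v)

/-- the node `(n, v)` is recurrent in `H` -/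
def RecN (f : M → M → Prop) (H : Set M) (n v : M) : Prop := ∀ b, ∃ x ∈ H, b < x ∧ Ext f n v x

/-- `(n', v')` extends the node `(n, v)` -/
def ExtN (n v n' v' : M) : Prop := n ≤ n' ∧ ∀ i, i < n → (el i v ↔ el i v')

/-- recurrent, without two incompatible recurrent extensions -/
structure IrrN (f : M → M → Prop) (H : Set M) (n v : M) : Prop where
  rc : RecN f H n v
  irr : ∀ n₁ v₁ n₂ v₂ i, ExtN n v n₁ v₁ → ExtN n v n₂ v₂ → RecN f H n₁ v₁ → RecN f H n₂ v₂ →
    i < n₁ → i < n₂ → (el i v₁ ↔ el i v₂)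

private theorem c3_ext {f : M → M → Prop} {n v n' v' x : M} (h : ExtN n v n' v')
    (hx : Ext f n' v' x) : Ext f n v x := by
  intro i hi
  rw [hx i (lt_of_lt_of_le hi h.1)]
  exact (h.2 i hi).symm

/-- the order of two points above incompatible nodes -/
private theorem c3_lt {f : M → M → Prop} {n₁ v₁ n₂ v₂ i x y : M} (h1 : i < n₁) (h2 : i < n₂)
    (hj : ∀ j, j < i → (el j v₁ ↔ el j v₂)) (hi : ¬ el i v₁) (hi' : el i v₂) (hix : i < x)
    (hx : Ext f n₁ v₁ x) (hy : Ext f n₂ v₂ y) : lx f x y := by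
  refine ⟨i, hix, fun j hji => ?_, ?_, ?_⟩
  · rw [hx j (lt_trans hji h1), hy j (lt_trans hji h2)]
    exact hj j hji
  · rw [hx i h1]
    exact hi
  · rw [hy i h2]
    exact hi'

private theorem c3_nlt {f : M → M → Prop} {n₁ v₁ n₂ v₂ i x y : M} (h1 : i < n₁) (h2 : i < n₂)
    (hj : ∀ j, j < i → (el j v₁ ↔ el j v₂)) (hi : ¬ el i v₁) (hi' : el i v₂)
    (hx : Ext f n₂ v₂ x) (hy : Ext f n₁ v₁ y) : ¬ lx f x y := by
  rintro ⟨k, _, hk, hk1, hk2⟩
  have hxi : f i x := (hx i h2).2 hi'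
  have hyi : ¬ f i y := fun h => hi ((hy i h1).1 h)
  rcases lt_trichotomy k i with h | h | h
  · have h3 : f k x ↔ f k y := by
      rw [hx k (lt_trans h h2), hy k (lt_trans h h1)]
      exact (hj k h).symm
    exact hk1 (h3.2 hk2)
  · rw [h] at hk1
    exact hk1 hxi
  · exact hyi ((hk i h).1 hxi)

theorem c3_irr {f : M → M → Prop} (hf : Comp M (fun q : M × M => f q.1 q.2)) {H : Set M}
    (hH : IS H) (h : ∀ n v, ¬ IrrN f H n v) (q : Sp) :
    ∀ n v, RecN f H n v → ∀ b, ∃ a, Cpy (lx f) q a ∧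
      ∀ x, el x a → x ∈ H ∧ b < x ∧ Ext f n v x := by
  induction q with
  | pt =>
    intro n v hr b
    obtain ⟨x, hxH, hbx, hx⟩ := hr b
    refine ⟨sg x, cpy_pt x, fun y hy => ?_⟩
    rw [el_sg.1 hy]
    exact ⟨hxH, hbx, hx⟩
  | op c p q ihp ihq =>
    intro n v hr b
    -- two incompatible recurrent extensions
    have h1 : ∃ n₁ v₁ n₂ v₂ i, ExtN n v n₁ v₁ ∧ ExtN n v n₂ v₂ ∧ RecN f H n₁ v₁ ∧
        RecN f H n₂ v₂ ∧ i < n₁ ∧ i < n₂ ∧ ¬ (el i v₁ ↔ el i v₂) := by
      by_contra hcon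
      refine h n v ⟨hr, fun n₁ v₁ n₂ v₂ i e1 e2 r1 r2 l1 l2 => ?_⟩
      by_contra hne
      exact hcon ⟨n₁, v₁, n₂, v₂, i, e1, e2, r1, r2, l1, l2, hne⟩
    have h2 : ∃ n₁ v₁ n₂ v₂ i, ExtN n v n₁ v₁ ∧ ExtN n v n₂ v₂ ∧ RecN f H n₁ v₁ ∧
        RecN f H n₂ v₂ ∧ i < n₁ ∧ i < n₂ ∧ (∀ j, j < i → (el j v₁ ↔ el j v₂)) ∧ ¬ el i v₁ ∧
        el i v₂ := by
      obtain ⟨n₁, v₁, n₂, v₂, i, e1, e2, r1, r2, l1, l2, hne⟩ := h1
      obtain ⟨k, hk, hmin⟩ := leastC (P := fun i => ¬ (el i v₁ ↔ el i v₂)) (by fun_prop)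
        ⟨i, hne⟩
      have hki : k ≤ i := by
        by_contra hlt
        exact hmin i (not_le.1 hlt) hne
      have hj : ∀ j, j < k → (el j v₁ ↔ el j v₂) := fun j hj => not_not.1 (hmin j hj)
      by_cases hk1 : el k v₁
      · have hk2 : ¬ el k v₂ := fun h => hk ⟨fun _ => h, fun _ => hk1⟩
        exact ⟨n₂, v₂, n₁, v₁, k, e2, e1, r2, r1, lt_of_le_of_lt hki l2, lt_of_le_of_lt hki l1,
          fun j hjk => (hj j hjk).symm, hk2, hk1⟩
      · have hk2 : el k v₂ := by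
          by_contra h
          exact hk ⟨fun h' => absurd h' hk1, fun h' => absurd h' h⟩
        exact ⟨n₁, v₁, n₂, v₂, k, e1, e2, r1, r2, lt_of_le_of_lt hki l1, lt_of_le_of_lt hki l2,
          hj, hk1, hk2⟩
    obtain ⟨n₁, v₁, n₂, v₂, i, e1, e2, r1, r2, l1, l2, hj, hi, hi'⟩ := h2
    cases c with
    | true =>
      obtain ⟨a, ha, ha'⟩ := ihp n₁ v₁ r1 (b + i)
      obtain ⟨d, hd, hd'⟩ := ihq n₂ v₂ r2 (b + a)
      refine ⟨un a d, cpy_op ha hd fun x hx y hy => ⟨?_, ?_⟩, fun x hx => ?_⟩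
      · exact lt_of_lt_of_le (el_lt hx) (le_trans le_add_self (hd' y hy).2.1.le)
      · refine ⟨fun _ => rfl, fun _ => ?_⟩
        exact c3_lt l1 l2 hj hi hi' (lt_of_le_of_lt le_add_self (ha' x hx).2.1) (ha' x hx).2.2
          (hd' y hy).2.2
      · rcases el_un.1 hx with h3 | h3
        · exact ⟨(ha' x h3).1, lt_of_le_of_lt le_self_add (ha' x h3).2.1,
            c3_ext e1 (ha' x h3).2.2⟩
        · exact ⟨(hd' x h3).1, lt_of_le_of_lt le_self_add (hd' x h3).2.1,
            c3_ext e2 (hd' x h3).2.2⟩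
    | false =>
      obtain ⟨a, ha, ha'⟩ := ihp n₂ v₂ r2 (b + i)
      obtain ⟨d, hd, hd'⟩ := ihq n₁ v₁ r1 (b + a)
      refine ⟨un a d, cpy_op ha hd fun x hx y hy => ⟨?_, ?_⟩, fun x hx => ?_⟩
      · exact lt_of_lt_of_le (el_lt hx) (le_trans le_add_self (hd' y hy).2.1.le)
      · refine ⟨fun h3 => ?_, fun h3 => ?_⟩
        · exact absurd h3 (c3_nlt l1 l2 hj hi hi' (ha' x hx).2.2 (hd' y hy).2.2)
        · exact absurd h3 (by simp)
      · rcases el_un.1 hx with h3 | h3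
        · exact ⟨(ha' x h3).1, lt_of_le_of_lt le_self_add (ha' x h3).2.1,
            c3_ext e2 (ha' x h3).2.2⟩
        · exact ⟨(hd' x h3).1, lt_of_le_of_lt le_self_add (hd' x h3).2.1,
            c3_ext e1 (hd' x h3).2.2⟩

theorem c3_stab (hB : BPi M) {f : M → M → Prop} (hf : Comp M (fun q : M × M => f q.1 q.2))
    {H : Set M} (hH : IS H) {n v : M} (h : IrrN f H n v) :
    ∃ X : Set M, IS X ∧ X ⊆ H ∧ Stab f X := by
  have hE : Comp M (fun x : M => Ext f n v x) := by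
    unfold Ext
    fun_prop
  have hX : IS {x | x ∈ H ∧ Ext f n v x} := is_sep hH hE h.rc
  refine ⟨{x | x ∈ H ∧ Ext f n v x}, hX, fun x hx => hx.1, fun m _ => ?_⟩
  by_contra hcon
  -- the codes of the columns
  obtain ⟨F, hF, hF'⟩ := c_code (M := M) (Γ := M) (b := fun _ => n + m + 1)
    (P := fun q : M × M => f q.2 q.1) (by fun_prop) (by fun_prop)
  have hFb : ∀ x, F x < pw (n + m + 1) := fun x => el_pw fun i hi => ((hF' x i).1 hi).1
  have key : ∀ c : Bool, ∃ w, ExtN n v (n + m + 1) w ∧ RecN f H (n + m + 1) w ∧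
      (el m w ↔ c = true) := by
    intro c
    have h1 : IS {x | x ∈ {x | x ∈ H ∧ Ext f n v x} ∧ cl f c m x} := by
      refine is_sep hX ?_ ?_
      · unfold cl
        fun_prop
      · intro b
        by_contra h2
        refine hcon ⟨!c, b + 1, fun y hy hby => ?_⟩
        by_contra h3
        refine h2 ⟨y, hy, lt_of_lt_of_le (lt_self_succ b) hby, ?_⟩
        unfold cl at h3 ⊢
        cases c <;> simp_all
    obtain ⟨w, _, hw⟩ := BPi.rt1_on hB h1 hF (a := pw (n + m + 1)) fun x _ => hFb x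
    have h2 : ∀ x, F x = w → Ext f (n + m + 1) w x := by
      intro x hx i hi
      rw [← hx, hF' x i]
      exact ⟨fun h => ⟨hi, h⟩, fun h => h.2⟩
    obtain ⟨x, ⟨⟨⟨_, hxE⟩, hxc⟩, hxw⟩, _⟩ := hw.unb 0
    have h3 := h2 x hxw
    refine ⟨w, ⟨?_, fun i hi => ?_⟩, fun b => ?_, ?_⟩
    · exact le_trans le_self_add le_self_add
    · rw [← hxE i hi]
      exact h3 i (lt_of_lt_of_le hi (le_trans le_self_add le_self_add))
    · obtain ⟨y, ⟨⟨⟨hyH, _⟩, _⟩, hyw⟩, hby⟩ := hw.unb b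
      exact ⟨y, hyH, hby, h2 y hyw⟩
    · rw [← h3 m (lt_of_le_of_lt le_add_self (lt_self_succ _))]
      exact hxc
  obtain ⟨w₁, e1, r1, h1⟩ := key true
  obtain ⟨w₂, e2, r2, h2⟩ := key false
  have h3 := h.irr (n + m + 1) w₁ (n + m + 1) w₂ m e1 e2 r1 r2
    (lt_of_le_of_lt le_add_self (lt_self_succ _)) (lt_of_le_of_lt le_add_self (lt_self_succ _))
  have h4 := h2.1 (h3.1 (h1.2 rfl))
  exact absurd h4 (by simp)

/-- every colouring is stable on some infinite set -/
theorem stable_red {q : Sp} (h : RTp M q) (hB : BPi M) {f : M → M → Prop}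
    (hf : Comp M (fun q : M × M => f q.1 q.2)) : ∃ X : Set M, IS X ∧ Stab f X := by
  have hl : Comp M (fun q : M × M => lx f q.1 q.2) := by
    unfold lx
    fun_prop
  obtain ⟨H, hH, hH'⟩ := h (lx f) hl
  by_cases hi : ∃ n v, IrrN f H n v
  · obtain ⟨n, v, hi⟩ := hi
    obtain ⟨X, hX, _, hs⟩ := c3_stab hB hf hH hi
    exact ⟨X, hX, hs⟩
  · have h0 : RecN f H 0 0 := by
      intro b
      obtain ⟨x, hx, hbx⟩ := hH.unb b
      exact ⟨x, hx, hbx, fun i hi => absurd hi (not_lt_zero' i)⟩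
    obtain ⟨a, ha, ha'⟩ := c3_irr hf hH (fun n v hnv => hi ⟨n, v, hnv⟩) q 0 0 h0 0
    exact absurd ha (hH' a fun x hx => (ha' x hx).1)

/-- if no colouring is bad then Ramsey's theorem for pairs holds -/
theorem rtt_of_no_bad {q : Sp} (h : RTp M q) (hB : BPi M)
    (hb : ∀ (f : M → M → Prop) (X : Set M), ¬ Bad f X) : RTT M := by
  intro f hf
  obtain ⟨X, hX, hs⟩ := stable_red h hB hf
  have h1 : ∃ (Y : Set M) (c : Bool), IS Y ∧ Y ⊆ X ∧ ∀ x ∈ Y, Lim f X c x := by
    by_contra hcon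
    refine hb f X ⟨hf, hX, hs, fun Y hY hYX c hc => hcon ⟨Y, c, hY, hYX, hc⟩⟩
  obtain ⟨Y, c, hY, hYX, hc⟩ := h1
  obtain ⟨Z, hZ, hZY, hZ'⟩ := BPi.homog hB hY (R := fun x y => cl f c x y) (comp_cl hf c)
    fun x hx => by
      obtain ⟨b, hb⟩ := hc x hx
      exact ⟨b, fun y hy hby => hb y (hYX hy) hby⟩
  exact ⟨Z, hZ, c, hZ'⟩

end RT22P
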