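import Pool.Agent.RTP.C8c
import Pool.Agent.RTP.C2
import Pool.Agent.RTP.C3

/-!
# Section 10: `IΣ₂`

`claim_I2` by induction on `n` (both colours): for `n + 1` fix `R`; the predicate of `i` there are a finite set `a ⊆ X`
and `b` with `Isum f c (Tr f n (!c) R) i a` and `cl f c x y` for all `x ∈ a` and all `y ∈ X`, `b ≤ y` is of the form
`∃ u ∀ z Q` (`u = cp (a, b)`), holds for `0` and is inductive by `descent` (above `b` and above `a`) and `BPi.settle_on`.
-/

set_option autoImplicit false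

namespace RT22P

open Env

variable {M : Type} [Env M]

theorem claim_I2 {q : Sp} (h : RTp M q) (hB : BPi M) (h2 : I2 M) (n : ℕ) :
    ∀ (c : Bool) (f : M → M → Prop) (X : Set M), Bad f X → ∀ R, 1 ≤ R →
      ∃ a, FS a X ∧ Tr f n c R a := by
  induction n with
  | zero =>
    intro c f X hf R _
    obtain ⟨x, hx, _⟩ := hf.is.unb 0
    refine ⟨sg x, fun y hy => ?_, tr_zero⟩
    rw [el_sg.1 hy]
    exact hx
  | succ n ih =>
    intro c f X hf R hR
    have hfc := hf.comp
    have hXc := hf.is.comp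
    have hfr : ∀ Y : Set M, IS Y → Y ⊆ X → ∀ R, 1 ≤ R → ∃ a, FS a Y ∧ Tr f n (!c) R a :=
      fun Y hY hYX R hR => ih (!c) f Y (hf.mono hY hYX) R hR
    -- the predicate
    have hQ' : Comp M (fun p : M × (M × M) × M => FS p.2.1.1 X ∧
        (Isum f c (Tr f n (!c) R) p.1 p.2.1.1 ∧
          (p.2.2 ∈ X → (p.2.1.2 ≤ p.2.2 → ∀ x, el x p.2.1.1 → cl f c x p.2.2)))) := by
      refine comp_and _ _ (comp_FS hXc _ (by fun_prop)) (comp_and _ _ ?_ ?_)
      · refine comp_Isum hfc c (P := fun _ : M × (M × M) × M => Tr f n (!c) R) ?_ (by fun_prop)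
          (by fun_prop)
        exact comp_comp (fun q : M × M => Tr f n (!c) q.1 q.2)
          (fun q : (M × (M × M) × M) × M => (R, q.2)) (comp_Tr hfc n (!c)) (by fun_prop)
      · refine comp_imp _ _ ?_ (by fun_prop)
        exact comp_comp (fun x : M => x ∈ X) (fun p : M × (M × M) × M => p.2.2) hXc
          (by fun_prop)
    have hQ : Comp M (fun p : M × M × M => FS ((Pre.cp (M := M)).symm p.2.1).1 X ∧
        (Isum f c (Tr f n (!c) R) p.1 ((Pre.cp (M := M)).symm p.2.1).1 ∧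
          (p.2.2 ∈ X → (((Pre.cp (M := M)).symm p.2.1).2 ≤ p.2.2 →
            ∀ x, el x ((Pre.cp (M := M)).symm p.2.1).1 → cl f c x p.2.2)))) := by
      refine comp_comp (fun p : M × (M × M) × M => FS p.2.1.1 X ∧
        (Isum f c (Tr f n (!c) R) p.1 p.2.1.1 ∧
          (p.2.2 ∈ X → (p.2.1.2 ≤ p.2.2 → ∀ x, el x p.2.1.1 → cl f c x p.2.2))))
        (fun p : M × M × M => (p.1, ((Pre.cp (M := M)).symm p.2.1 : M × M), p.2.2)) hQ' ?_
      refine comp_prod _ _ (by fun_prop) (comp_prod _ _ ?_ (by fun_prop))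
      exact comp_comp (fun x : M => ((Pre.cp (M := M)).symm x : M × M))
        (fun p : M × M × M => p.2.1) Env0.c_cpsymm (by fun_prop)
    have key := h2 (fun i u z => FS ((Pre.cp (M := M)).symm u).1 X ∧
        (Isum f c (Tr f n (!c) R) i ((Pre.cp (M := M)).symm u).1 ∧
          (z ∈ X → (((Pre.cp (M := M)).symm u).2 ≤ z →
            ∀ x, el x ((Pre.cp (M := M)).symm u).1 → cl f c x z)))) hQ
    have hfin := key ?_ ?_ R
    · obtain ⟨u, hu⟩ := hfin
      exact ⟨((Pre.cp (M := M)).symm u).1, (hu 0).1, (hu 0).2.1⟩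
    · refine ⟨Pre.cp (emp M, 0), fun z => ?_⟩
      rw [Equiv.symm_apply_apply]
      exact ⟨fun x hx => absurd hx el_emp, isum_zero, fun _ _ x hx => absurd hx el_emp⟩
    · rintro i ⟨u, hu⟩
      obtain ⟨a, b, hab⟩ : ∃ a b, (Pre.cp (M := M)).symm u = (a, b) := ⟨_, _, rfl⟩
      rw [hab] at hu
      have haX : FS a X := (hu 0).1
      have haI : Isum f c (Tr f n (!c) R) i a := (hu 0).2.1
      have hab' : ∀ z ∈ X, b ≤ z → ∀ x, el x a → cl f c x z := fun z hz => (hu z).2.2 hz
      have hY := is_above hf.is (a + b)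
      obtain ⟨a', ha'Y, ha'T, ha'L⟩ := descent h hB hf n (!c) hfr c hR hY (fun x hx => hx.1)
      obtain ⟨b', hb'⟩ := BPi.settle_on hB hf.is (R := fun x y => cl f c x y)
        (comp_cl hfc c) (un a a') (fun x hx => by
          rcases el_un.1 hx with h3 | h3
          · exact ⟨b, fun y hy hby => hab' y hy hby x h3⟩
          · exact ha'L x h3)
      refine ⟨Pre.cp (un a a', b'), fun z => ?_⟩
      rw [Equiv.symm_apply_apply]
      refine ⟨fun x hx => ?_, isum_succ haI ha'T (Tr.ne hR ha'T) fun x hx y hy => ?_,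
        fun hz hbz x hx => hb' x hx z hz hbz⟩
      · rcases el_un.1 hx with h3 | h3
        · exact haX x h3
        · exact (ha'Y x h3).1
      · have h3 := ha'Y y hy
        have h4 : a + b < y := h3.2
        exact ⟨lt_of_lt_of_le (el_lt hx) (le_trans le_self_add h4.le),
          hab' y h3.1 (le_trans le_add_self h4.le) x hx⟩

/-- trees of all depths and widths in bad colourings contradict `RTp` -/
theorem no_bad_of_claim {q : Sp} (h : RTp M q)
    (hc : ∀ (n : ℕ) (c : Bool) (f : M → M → Prop) (X : Set M), Bad f X → ∀ R, 1 ≤ R →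
      ∃ a, FS a X ∧ Tr f n c R a) (f : M → M → Prop) (X : Set M) : ¬ Bad f X := by
  intro hf
  obtain ⟨n, R, hR, hcpy⟩ := Tr.cpy q
  refine RTp.not_freq h hf.comp hf.is fun Y hY hYX => ?_
  obtain ⟨a, haY, haT⟩ := hc n true f Y (hf.mono hY hYX) ((R : ℕ) : M) (by exact_mod_cast hR)
  obtain ⟨b, hb, hbq⟩ := hcpy n le_rfl M f hf.comp true _ a le_rfl haT
  exact ⟨b, fun x hx => haY x (hb x hx), hbq⟩

/-- over `IΣ₂`, `RT²₂(q)` implies `RT²₂` -/
theorem rtt_of_I2 {q : Sp} (h : RTp M q) (h2 : I2 M) : RTT M := by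
  have hB : BPi M := bpi_of_rt1 (rt1_of_rtp h)
  exact rtt_of_no_bad h hB (no_bad_of_claim h (claim_I2 h hB h2))

end RT22P
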