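import Pool.Agent.RTP.ASeq
import Pool.Agent.RTP.AInf

/-!
# Section 4, first part: the priority colouring

Items at stage `s`: the pairs `(e, t)` with `e < s`, `el t (T e s)`; they are treated in the order of `e`, then of
`t` (`t = nth (T e s) j`, `j < card (T e s)`), by two nested recursions (`prec`, state `(Z, Z₁) : M × M`, `Z` = set of
all points used so far, `Z₁ ⊆ Z` = points of colour `1`).  The item `(e, t)` is admissible if the sets
`bt t i`, `i < N e`, are pairwise disjoint and have at most `l` elements; if it is admissible and there are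
`i₀ < i₁ < N e` with `bt t i₀`, `bt t i₁` disjoint from `Z`, take the least such `i₀`, then the least `i₁`, and put
`Z' = Z ∪ bt t i₀ ∪ bt t i₁`, `Z₁' = Z₁ ∪ bt t i₁`; otherwise nothing changes.  `f x s ↔ el x (Z₁ at the end of stage s)`.
With `B 0 = 0`, `B (e + 1) = B e + 2 l (k e)` and `N e = B (e + 1) + 2`: before the item number `j` of `e` the set `Z` has
at most `B e + 2 l j` elements, so at most that many `i < N e` have `bt t i` not disjoint from `Z` (they are
pairwise disjoint: `card_le_of_inj`), hence `i₀, i₁` exist.  Sets used later are disjoint from `Z`, so the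
points of `bt t i₀` never enter `Z₁`.  The state before the item `(e, t)` depends only on `T e' s`, `e' ≤ e`.
-/

set_option autoImplicit false

namespace RT22P

open Env

variable {M : Type} [Env M]

/-- later states extend earlier ones -/
private def c4aExt (z z' : M × M) : Prop :=
  ∀ x, el x z.1 → (el x z'.1 ∧ (el x z'.2 ↔ el x z.2))

private theorem c4a_ext_refl (z : M × M) : c4aExt z z := fun _ h => ⟨h, Iff.rfl⟩

private theorem c4a_ext_trans {z z' z'' : M × M} (h : c4aExt z z') (h' : c4aExt z' z'') :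
    c4aExt z z'' := fun x hx =>
  ⟨(h' x (h x hx).1).1, ((h' x (h x hx).1).2).trans (h x hx).2⟩

private theorem c4a_comp_ext {Γ : Type} [Enc M Γ] {f g : Γ → M × M} (hf : Comp M f)
    (hg : Comp M g) : Comp M (fun v => c4aExt (f v) (g v)) := by
  unfold c4aExt
  exact comp_allel (fun v => (f v).1) (fun v x => el x (g v).1 ∧ (el x (g v).2 ↔ el x (f v).2))
    (by fun_prop) (by fun_prop)

/-- the sets with the numbers `i < n` of `t` are small and disjoint -/
private def c4aAdm (l n t : M) : Prop :=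
  (∀ i, i < n → card (bt t i) ≤ l) ∧
    ∀ j, j < n → ∀ i, i < j → ∀ x, el x (bt t i) → ¬ el x (bt t j)

private def c4aGood (l : M) (v : M × M × M) (x : M × M) : Prop :=
  c4aAdm l v.1 v.2.1 ∧ x.1 < x.2 ∧ x.2 < v.1 ∧
    (∀ y, el y (bt v.2.1 x.1) → ¬ el y v.2.2) ∧ ∀ y, el y (bt v.2.1 x.2) → ¬ el y v.2.2

private theorem c4a_comp_adm (l : M) {Γ : Type} [Enc M Γ] {f g : Γ → M} (hf : Comp M f)
    (hg : Comp M g) : Comp M (fun v => c4aAdm l (f v) (g v)) := by
  unfold c4aAdm
  refine comp_and _ _ (by fun_prop) ?_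
  refine comp_ball f _ hf ?_
  refine comp_ball (fun q : Γ × M => q.2) _ (by fun_prop) ?_
  exact comp_allel (fun q : (Γ × M) × M => bt (g q.1.1) q.2)
    (fun q x => ¬ el x (bt (g q.1.1) q.1.2)) (by fun_prop) (by fun_prop)

private theorem c4a_comp_good (l : M) {Γ : Type} [Enc M Γ] {f : Γ → M × M × M} {g : Γ → M × M}
    (hf : Comp M f) (hg : Comp M g) : Comp M (fun v => c4aGood l (f v) (g v)) := by
  unfold c4aGood
  refine comp_and _ _ (c4a_comp_adm l (by fun_prop) (by fun_prop)) ?_
  refine comp_and _ _ (by fun_prop) ?_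
  refine comp_and _ _ (by fun_prop) ?_
  refine comp_and _ _ ?_ ?_
  · exact comp_allel (fun v => bt (f v).2.1 (g v).1) (fun v y => ¬ el y (f v).2.2)
      (by fun_prop) (by fun_prop)
  · exact comp_allel (fun v => bt (f v).2.1 (g v).2) (fun v y => ¬ el y (f v).2.2)
      (by fun_prop) (by fun_prop)

/-- there is a pair of unused sets -/
private def c4aHas (l : M) (v : M × M × M) : Prop :=
  ∃ j, j < v.1 ∧ ∃ i, i < j ∧ c4aGood l v (i, j)

private theorem c4a_comp_has (l : M) {Γ : Type} [Enc M Γ] {f : Γ → M × M × M}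
    (hf : Comp M f) : Comp M (fun v => c4aHas l (f v)) := by
  unfold c4aHas
  refine comp_bex (fun v => (f v).1) _ (by fun_prop) ?_
  refine comp_bex (fun q : Γ × M => q.2) _ (by fun_prop) ?_
  exact c4a_comp_good l (by fun_prop) (by fun_prop)

/-- at least two sets are unused -/
private theorem c4a_has {l n t Z : M} (h : c4aAdm l n t) (hn : card Z + 2 ≤ n) :
    c4aHas l (n, t, Z) := by
  obtain ⟨a, ha⟩ := exists_code (M := M) (P := fun i => ∃ y, el y (bt t i) ∧ el y Z)
    (by fun_prop) n
  have hsub : Sub a (ivl 0 n) := fun x hx => el_ivl.2 ⟨zero_le' x, ((ha x).1 hx).1⟩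
  have h1 : card (ivl (0 : M) n) = n := by
    have := card_ivl (zero_le' n)
    rwa [add_zero] at this
  have h2 : card (sdf (ivl 0 n) a) + card a = n := by
    rw [card_sdf hsub, h1]
  have hitr : ∀ i, el i a → el (mn (itr (bt t i) Z)) (itr (bt t i) Z) := by
    intro i hi
    obtain ⟨y, hy, hyZ⟩ := ((ha i).1 hi).2
    exact el_mn (el_itr.2 ⟨hy, hyZ⟩)
  have h3 : card a ≤ card Z := by
    refine card_le_of_inj (f := fun i => mn (itr (bt t i) Z)) (by fun_prop) ?_ ?_
    · exact fun i hi => (el_itr.1 (hitr i hi)).2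
    · intro i j hi hj hij
      have e1 := (el_itr.1 (hitr i hi)).1
      have e2 := (el_itr.1 (hitr j hj)).1
      have hin := ((ha i).1 hi).1
      have hjn := ((ha j).1 hj).1
      rw [← hij] at e2
      rcases lt_trichotomy i j with hlt | heq | hgt
      · exact absurd e2 (h.2 j hjn i hlt _ e1)
      · exact heq
      · exact absurd e1 (h.2 i hin j hgt _ e2)
  have h4 : (2 : M) ≤ card (sdf (ivl 0 n) a) := by
    have h5 : card a + 2 ≤ card a + card (sdf (ivl 0 n) a) := by
      rw [add_comm (card a) (card (sdf (ivl 0 n) a)), h2]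
      exact le_trans (add_le_add_left h3 2) hn
    exact le_of_add_le_add_left h5
  set b := sdf (ivl 0 n) a with hb
  have h01 : (0 : M) < 1 := zero_lt_one
  have h12 : (1 : M) < card b := by
    refine lt_of_lt_of_le ?_ h4
    have := lt_self_succ (1 : M)
    rwa [one_add_one_eq_two] at this
  have e0 : el (nth b 0) b := el_nth (lt_trans h01 h12)
  have e1 : el (nth b 1) b := el_nth h12
  have hfree : ∀ i, el i b → ∀ y, el y (bt t i) → ¬ el y Z := by
    intro i hi y hy hyZ
    have h6 := el_sdf.1 hi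
    exact h6.2 ((ha i).2 ⟨(el_ivl.1 h6.1).2, y, hy, hyZ⟩)
  have hbn : ∀ i, el i b → i < n := fun i hi => (el_ivl.1 (el_sdf.1 hi).1).2
  exact ⟨nth b 1, hbn _ e1, nth b 0, nth_lt h01 h12, h, nth_lt h01 h12, hbn _ e1,
    hfree _ e0, hfree _ e1⟩

/-- one item -/
private theorem c4a_step (l : M) : ∃ st : M → M → M × M → M × M,
    Comp M (fun q : M × M × (M × M) => st q.1 q.2.1 q.2.2) ∧
    (∀ n t z, c4aExt z (st n t z)) ∧
    (∀ n t z, Sub z.2 z.1 → Sub (st n t z).2 (st n t z).1) ∧
    (∀ n t z, card (st n t z).1 ≤ card z.1 + 2 * l) ∧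
    ∀ n t z, c4aAdm l n t → card z.1 + 2 ≤ n → Sub z.2 z.1 → ∃ i j, i < n ∧ j < n ∧
      (∀ x, el x (bt t i) → el x (st n t z).1 ∧ ¬ el x (st n t z).2) ∧
      ∀ x, el x (bt t j) → el x (st n t z).1 ∧ el x (st n t z).2 := by
  classical
  obtain ⟨c, hc, hcP⟩ := search (M := M) (Γ := M × M × M) (Δ := M × M)
    (P := fun v x => c4aGood l v x ∨ ¬ c4aHas l v)
    (sig_of_comp (comp_or _ _ (c4a_comp_good l (by fun_prop) (by fun_prop))
      (comp_not _ (c4a_comp_has l (by fun_prop))))) (fun v => by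
        by_cases h : c4aHas l v
        · obtain ⟨j, -, i, -, h1⟩ := h
          exact ⟨(i, j), Or.inl h1⟩
        · exact ⟨(0, 0), Or.inr h⟩)
  refine ⟨fun n t z => if c4aHas l (n, t, z.1) then
    (un z.1 (un (bt t (c (n, t, z.1)).1) (bt t (c (n, t, z.1)).2)),
      un z.2 (bt t (c (n, t, z.1)).2)) else z, ?_, ?_, ?_, ?_, ?_⟩
  · refine comp_ite (c4a_comp_has l (by fun_prop)) ?_ (by fun_prop)
    fun_prop
  · intro n t z
    dsimp only
    by_cases h : c4aHas l (n, t, z.1)
    · rw [if_pos h]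
      rcases hcP (n, t, z.1) with h1 | h1
      · intro x hx
        refine ⟨el_un.2 (Or.inl hx), ?_⟩
        dsimp only
        rw [el_un]
        refine ⟨fun h2 => ?_, Or.inl⟩
        rcases h2 with h2 | h2
        · exact h2
        · exact absurd hx (h1.2.2.2.2 x h2)
      · exact absurd h h1
    · rw [if_neg h]
      exact c4a_ext_refl z
  · intro n t z hz
    dsimp only
    by_cases h : c4aHas l (n, t, z.1)
    · rw [if_pos h]
      intro x hx
      rcases el_un.1 hx with h2 | h2
      · exact el_un.2 (Or.inl (hz x h2))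
      · exact el_un.2 (Or.inr (el_un.2 (Or.inr h2)))
    · rw [if_neg h]
      exact hz
  · intro n t z
    dsimp only
    by_cases h : c4aHas l (n, t, z.1)
    · rw [if_pos h]
      rcases hcP (n, t, z.1) with h1 | h1
      · have hi : (c (n, t, z.1)).1 < n := lt_trans h1.2.1 h1.2.2.1
        have hj : (c (n, t, z.1)).2 < n := h1.2.2.1
        have e1 := h1.1.1 _ hi
        have e2 := h1.1.1 _ hj
        refine le_trans (card_un_le _ _) (add_le_add_right ?_ _)
        refine le_trans (card_un_le _ _) ?_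
        rw [two_mul]
        exact add_le_add e1 e2
      · exact absurd h h1
    · rw [if_neg h]
      exact le_self_add
  · intro n t z hadm hn hz
    have h := c4a_has hadm hn
    dsimp only
    rw [if_pos h]
    rcases hcP (n, t, z.1) with h1 | h1
    · have hi : (c (n, t, z.1)).1 < n := lt_trans h1.2.1 h1.2.2.1
      have hj : (c (n, t, z.1)).2 < n := h1.2.2.1
      refine ⟨_, _, hi, hj, fun x hx => ⟨el_un.2 (Or.inr (el_un.2 (Or.inl hx))), fun h2 => ?_⟩,
        fun x hx => ⟨el_un.2 (Or.inr (el_un.2 (Or.inr hx))), el_un.2 (Or.inr hx)⟩⟩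
      rcases el_un.1 h2 with h3 | h3
      · exact h1.2.2.2.1 x hx (hz x h3)
      · exact hadm.2 _ hj _ h1.2.1 x hx h3
    · exact absurd h h1

theorem prio {T : M → M → M} (hT : Comp M (fun q : M × M => T q.1 q.2)) {k : M → M}
    (hk : Comp M k) (hcard : ∀ e s, card (T e s) ≤ k e) (l : M) :
    ∃ (N : M → M) (f : M → M → Prop), Comp M N ∧ Comp M (fun q : M × M => f q.1 q.2) ∧
      ∀ e b t, (∀ e', e' ≤ e → ∀ s, b ≤ s → T e' s = T e' b) → el t (T e b) →
        (∀ i, i < N e → card (bt t i) ≤ l) →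
        (∀ i j, i < j → j < N e → ∀ x, el x (bt t i) → ¬ el x (bt t j)) →
        ∃ i j, i < N e ∧ j < N e ∧ ∃ b', ∀ s, b' ≤ s →
          (∀ x, el x (bt t i) → ¬ f x s) ∧ (∀ x, el x (bt t j) → f x s) := by
  obtain ⟨st, hst, st1, st2, st3, st4⟩ := c4a_step l
  -- the bound
  obtain ⟨B, hB, hB0, hB1⟩ := iter (M := M) (Δ := M) 0 (h := fun e x => x + 2 * l * k e)
    (by fun_prop)
  have hN : Comp M (fun e => B e + 2 * l * k e + 2) := by fun_prop
  set N : M → M := fun e => B e + 2 * l * k e + 2 with hNd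
  have hTf : ∀ {Γ : Type} [Enc M Γ] (f g : Γ → M), Comp M f → Comp M g →
      Comp M (fun v => T (f v) (g v)) := by
    intro Γ _ f g hf hg
    exact comp_comp (fun q : M × M => T q.1 q.2) (fun v => (f v, g v)) hT (by fun_prop)
  have hstf : ∀ {Γ : Type} [Enc M Γ] (f g : Γ → M) (h : Γ → M × M), Comp M f → Comp M g →
      Comp M h → Comp M (fun v => st (f v) (g v) (h v)) := by
    intro Γ _ f g h hf hg hh
    exact comp_comp (fun q : M × M × (M × M) => st q.1 q.2.1 q.2.2) (fun v => (f v, g v, h v)) hst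
      (by fun_prop)
  -- the inner recursion
  obtain ⟨I, hI, hI0, hI1⟩ := prec (M := M) (Γ := M × M × (M × M)) (Δ := M × M)
    (g := fun v => v.2.2) (h := fun v j z => st (N v.1) (nth (T v.1 v.2.1) j) z) (by fun_prop)
    (hstf _ _ _ (comp_comp N _ hN (by fun_prop))
      (comp_nth _ _ (hTf _ _ (by fun_prop) (by fun_prop)) (by fun_prop)) (by fun_prop))
  have hIf : ∀ {Γ : Type} [Enc M Γ] (f : Γ → M × M × (M × M)) (g : Γ → M), Comp M f → Comp M g →
      Comp M (fun v => I (f v) (g v)) := by
    intro Γ _ f g hf hg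
    exact comp_comp (fun q : (M × M × (M × M)) × M => I q.1 q.2) (fun v => (f v, g v)) hI
      (by fun_prop)
  have hIext : ∀ v j j', j ≤ j' → c4aExt (I v j) (I v j') := by
    intro v j
    refine cind (P := fun j' => j ≤ j' → c4aExt (I v j) (I v j'))
      (comp_imp _ _ (by fun_prop) (c4a_comp_ext (hIf _ _ (by fun_prop) (by fun_prop))
        (hIf _ _ (by fun_prop) (by fun_prop)))) ?_ ?_
    · intro h
      have e : j = 0 := le_antisymm h (zero_le' j)
      rw [e]
      exact c4a_ext_refl _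
    · intro j' ih h
      rcases lt_or_eq_of_le h with h1 | h1
      · refine c4a_ext_trans (ih (lt_succ.1 h1)) ?_
        rw [hI1]
        exact st1 _ _ _
      · rw [h1]
        exact c4a_ext_refl _
  have hIsub : ∀ v, Sub v.2.2.2 v.2.2.1 → ∀ j, Sub (I v j).2 (I v j).1 := by
    intro v hv
    refine cind (P := fun j => Sub (I v j).2 (I v j).1) (comp_Sub _ _
      (comp_snd _ (hIf _ _ (by fun_prop) (by fun_prop)))
      (comp_fst _ (hIf _ _ (by fun_prop) (by fun_prop)))) ?_ ?_
    · rw [hI0]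
      exact hv
    · intro j ih
      rw [hI1]
      exact st2 _ _ _ ih
  have hIcard : ∀ v j, card (I v j).1 ≤ card v.2.2.1 + 2 * l * j := by
    intro v
    refine cind (P := fun j => card (I v j).1 ≤ card v.2.2.1 + 2 * l * j) (comp_le _ _
      (comp_card _ (comp_fst _ (hIf _ _ (by fun_prop) (by fun_prop)))) (by fun_prop)) ?_ ?_
    · rw [hI0, mul_zero, add_zero]
    · intro j ih
      rw [hI1]
      refine le_trans (st3 _ _ _) ?_
      rw [mul_add, mul_one, ← add_assoc]
      exact add_le_add_left ih _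
  -- the outer recursion
  obtain ⟨G, hG, hG0, hG1⟩ := prec (M := M) (Γ := M) (Δ := M × M)
    (g := fun _ => (emp M, emp M)) (h := fun s e z => I (e, s, z) (card (T e s))) (by fun_prop)
    (hIf _ _ (by fun_prop) (comp_card _ (hTf _ _ (by fun_prop) (by fun_prop))))
  have hGf : ∀ {Γ : Type} [Enc M Γ] (f g : Γ → M), Comp M f → Comp M g →
      Comp M (fun v => G (f v) (g v)) := by
    intro Γ _ f g hf hg
    exact comp_comp (fun q : M × M => G q.1 q.2) (fun v => (f v, g v)) hG (by fun_prop)
  have hGext : ∀ s e e', e ≤ e' → c4aExt (G s e) (G s e') := by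
    intro s e
    refine cind (P := fun e' => e ≤ e' → c4aExt (G s e) (G s e'))
      (comp_imp _ _ (by fun_prop) (c4a_comp_ext (hGf _ _ (by fun_prop) (by fun_prop))
        (hGf _ _ (by fun_prop) (by fun_prop)))) ?_ ?_
    · intro h
      have h0 : e = 0 := le_antisymm h (zero_le' e)
      rw [h0]
      exact c4a_ext_refl _
    · intro e' ih h
      rcases lt_or_eq_of_le h with h1 | h1
      · refine c4a_ext_trans (ih (lt_succ.1 h1)) ?_
        rw [hG1]
        have h2 := hIext (e', s, G s e') 0 (card (T e' s)) (zero_le' _)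
        rw [hI0] at h2
        exact h2
      · rw [h1]
        exact c4a_ext_refl _
  have hGsub : ∀ s e, Sub (G s e).2 (G s e).1 := by
    intro s
    refine cind (P := fun e => Sub (G s e).2 (G s e).1) (comp_Sub _ _
      (comp_snd _ (hGf _ _ (by fun_prop) (by fun_prop)))
      (comp_fst _ (hGf _ _ (by fun_prop) (by fun_prop)))) ?_ ?_
    · rw [hG0]
      exact Sub.refl _
    · intro e ih
      rw [hG1]
      exact hIsub (e, s, G s e) ih _
  have hGcard : ∀ s e, card (G s e).1 ≤ B e := by
    intro s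
    refine cind (P := fun e => card (G s e).1 ≤ B e) (comp_le _ _
      (comp_card _ (comp_fst _ (hGf _ _ (by fun_prop) (by fun_prop)))) hB) ?_ ?_
    · rw [hG0, hB0]
      exact le_of_eq card_emp
    · intro e ih
      rw [hG1, hB1]
      refine le_trans (hIcard _ _) (add_le_add ih ?_)
      exact mul_le_mul_right (hcard e s) (2 * l)
  refine ⟨N, fun x s => el x (G s s).2, hN, ?_, ?_⟩
  · exact comp_el (by fun_prop) (comp_snd _ (hGf _ _ (by fun_prop) (by fun_prop)))
  intro e b t hst' ht hcl hdis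
  -- stability of the inner recursion
  have hIeq : ∀ e' s, e' ≤ e → b ≤ s → ∀ z j, I (e', s, z) j = I (e', b, z) j := by
    intro e' s he' hs z
    refine cind (P := fun j => I (e', s, z) j = I (e', b, z) j) (comp_eq _ _
      (hIf _ _ (by fun_prop) (by fun_prop)) (hIf _ _ (by fun_prop) (by fun_prop))) ?_ ?_
    · rw [hI0, hI0]
    · intro j ih
      rw [hI1, hI1, ih]
      dsimp only
      rw [hst' e' he' s hs]
  have hGeq : ∀ s, b ≤ s → ∀ e', e' ≤ e → G s e' = G b e' := by
    intro s hs
    refine cind (P := fun e' => e' ≤ e → G s e' = G b e') (comp_imp _ _ (by fun_prop)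
      (comp_eq _ _ (hGf _ _ (by fun_prop) (by fun_prop))
        (hGf _ _ (by fun_prop) (by fun_prop)))) ?_ ?_
    · intro _
      rw [hG0, hG0]
    · intro e' ih he'
      have h1 : e' ≤ e := le_trans (lt_self_succ e').le he'
      rw [hG1, hG1, ih h1, hst' e' h1 s hs, hIeq e' s h1 hs]
  -- the item
  obtain ⟨j0, hj0, hj0t⟩ := exists_nth_eq ht
  have hadm : c4aAdm l (N e) t := ⟨hcl, fun j hj i hij => hdis i j hij hj⟩
  have hcz : card (I (e, b, G b e) j0).1 + 2 ≤ N e := by
    refine add_le_add_left ?_ 2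
    refine le_trans (hIcard _ _) (add_le_add (hGcard b e) ?_)
    exact mul_le_mul_right (le_trans hj0.le (hcard e b)) (2 * l)
  obtain ⟨i, j, hi, hj, h1, h2⟩ := st4 (N e) t (I (e, b, G b e) j0) hadm hcz
    (hIsub (e, b, G b e) (hGsub b e) j0)
  have hstep : st (N e) t (I (e, b, G b e) j0) = I (e, b, G b e) (j0 + 1) := by
    rw [hI1]
    dsimp only
    rw [hj0t]
  rw [hstep] at h1 h2
  refine ⟨i, j, hi, hj, max b (e + 1), fun s hs => ?_⟩
  have hbs : b ≤ s := le_trans (le_max_left _ _) hs
  have hes : e + 1 ≤ s := le_trans (le_max_right _ _) hs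
  have hfin : c4aExt (I (e, b, G b e) (j0 + 1)) (G s s) := by
    refine c4a_ext_trans ?_ (hGext s (e + 1) s hes)
    rw [hG1, hGeq s hbs e le_rfl, hst' e le_rfl s hbs, hIeq e s le_rfl hbs]
    exact hIext _ _ _ (succ_le_iff.2 hj0)
  exact ⟨fun x hx => fun hf => (h1 x hx).2 (((hfin x (h1 x hx).1).2).1 hf),
    fun x hx => ((hfin x (h2 x hx).1).2).2 (h2 x hx).2⟩

end RT22P
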