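import Pool.Agent.RTP.PBas

/-!
# Copies of standard patterns (induction on the pattern)
-/

set_option autoImplicit false

namespace RT22P

open Env

variable {M : Type} [Env M]

private theorem pcpy_code (l : List M) : ∃ b : M, ∀ y, el y b ↔ y ∈ l := by
  induction l with
  | nil => exact ⟨emp M, fun y => ⟨fun h => absurd h el_emp, fun h => absurd h (by simp)⟩⟩
  | cons x l ih =>
    obtain ⟨b, hb⟩ := ih
    refine ⟨un (sg x) b, fun y => ?_⟩
    rw [el_un, el_sg, hb, List.mem_cons]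

private theorem pcpy_settle (f : M → M → Prop) (X : Set M) (c : Bool) (l : List M)
    (h : ∀ x ∈ l, Lim f X c x) : ∃ b, ∀ x ∈ l, ∀ y ∈ X, b ≤ y → cl f c x y := by
  induction l with
  | nil => exact ⟨0, fun x hx => absurd hx (by simp)⟩
  | cons x l ih =>
    obtain ⟨b, hb⟩ := ih fun z hz => h z (List.mem_cons_of_mem _ hz)
    obtain ⟨b', hb'⟩ := h x (List.mem_cons_self)
    refine ⟨b + b', fun z hz y hy hby => ?_⟩
    rcases List.mem_cons.1 hz with h1 | h1
    · rw [h1]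
      exact hb' y hy (le_trans le_add_self hby)
    · exact hb z h1 y hy (le_trans le_self_add hby)

theorem cpy_pt {f : M → M → Prop} (x : M) : Cpy f .pt (sg x) :=
  ⟨x, el_lt (el_sg.2 rfl), rfl⟩

theorem cpy_op {f : M → M → Prop} {c : Bool} {p q : Sp} {b d : M} (hb : Cpy f p b)
    (hd : Cpy f q d) (h : ∀ x, el x b → ∀ y, el y d → x < y ∧ cl f c x y) :
    Cpy f (.op c p q) (un b d) :=
  ⟨b, fun _ hx => el_un.2 (Or.inl hx), d, fun _ hx => el_un.2 (Or.inr hx), rfl, hb, hd, h⟩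

theorem Cpy.ne {f : M → M → Prop} {q : Sp} {a : M} (h : Cpy f q a) : ∃ x, el x a := by
  induction q generalizing a with
  | pt =>
    obtain ⟨x, _, rfl⟩ := h
    exact ⟨x, el_sg.2 rfl⟩
  | op c p q ihp _ =>
    obtain ⟨b, hb, d, hd, rfl, hpb, hqd, _⟩ := h
    obtain ⟨x, hx⟩ := ihp hpb
    exact ⟨x, hb x hx⟩

/-- copies have a standard number of elements -/
theorem Cpy.card {f : M → M → Prop} {q : Sp} {a : M} (h : Cpy f q a) :
    RT22P.card a = ((q.size : ℕ) : M) := by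
  induction q generalizing a with
  | pt =>
    obtain ⟨x, _, rfl⟩ := h
    rw [card_sg, Sp.size, Nat.cast_one]
  | op c p q ihp ihq =>
    obtain ⟨b, hb, d, hd, rfl, hpb, hqd, hlt⟩ := h
    rw [card_un_eq, ihp hpb, ihq hqd, Sp.size, Nat.cast_add]
    intro x hx hx'
    exact lt_irrefl _ (hlt x hx x hx').1

/-- the elements of a copy are finitely many in the sense of the metatheory -/
theorem Cpy.list {f : M → M → Prop} {q : Sp} {a : M} (h : Cpy f q a) :
    ∃ l : List M, ∀ x, el x a ↔ x ∈ l := by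
  induction q generalizing a with
  | pt =>
    obtain ⟨x, _, rfl⟩ := h
    exact ⟨[x], fun y => by rw [el_sg, List.mem_singleton]⟩
  | op c p q ihp ihq =>
    obtain ⟨b, hb, d, hd, rfl, hpb, hqd, hlt⟩ := h
    obtain ⟨l, hl⟩ := ihp hpb
    obtain ⟨l', hl'⟩ := ihq hqd
    exact ⟨l ++ l', fun y => by rw [el_un, List.mem_append, hl, hl']⟩

private theorem pcpy_congr {f g : M → M → Prop} {q : Sp} {a : M}
    (h : ∀ x y, el x a → el y a → x < y → (f x y ↔ g x y)) (hc : Cpy f q a) : Cpy g q a := by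
  induction q generalizing a with
  | pt => exact hc
  | op c p q ihp ihq =>
    obtain ⟨b, hb, d, hd, rfl, hpb, hqd, hlt⟩ := hc
    refine ⟨b, hb, d, hd, rfl, ihp (fun x y hx hy => h x y (hb x hx) (hb y hy)) hpb,
      ihq (fun x y hx hy => h x y (hd x hx) (hd y hy)) hqd, fun x hx y hy => ?_⟩
    obtain ⟨h1, h2⟩ := hlt x hx y hy
    refine ⟨h1, ?_⟩
    unfold cl at h2 ⊢
    rw [← h x y (hb x hx) (hd y hy) h1]
    exact h2

theorem Cpy.congr {f g : M → M → Prop} {q : Sp} {a : M}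
    (h : ∀ x y, el x a → el y a → x < y → (f x y ↔ g x y)) : Cpy f q a ↔ Cpy g q a :=
  ⟨pcpy_congr h, pcpy_congr fun x y hx hy hxy => (h x y hx hy hxy).symm⟩

/-- images of copies under strictly increasing maps -/
theorem Cpy.map {f g : M → M → Prop} {q : Sp} {a b : M} {e : M → M}
    (hm : ∀ x y, el x a → el y a → x < y → e x < e y)
    (hfg : ∀ x y, el x a → el y a → x < y → (g x y ↔ f (e x) (e y)))
    (hb : ∀ y, el y b ↔ ∃ x, el x a ∧ e x = y) (h : Cpy g q a) : Cpy f q b := by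
  induction q generalizing a b with
  | pt =>
    obtain ⟨x, _, rfl⟩ := h
    have hbx : b = sg (e x) := by
      refine fext fun y => ?_
      rw [hb, el_sg]
      constructor
      · rintro ⟨z, hz, rfl⟩
        rw [el_sg.1 hz]
      · intro hy
        exact ⟨x, el_sg.2 rfl, hy.symm⟩
    rw [hbx]
    exact cpy_pt (e x)
  | op c p q ihp ihq =>
    obtain ⟨a1, ha1, a2, ha2, rfl, hp1, hq2, hlt⟩ := h
    obtain ⟨l1, hl1⟩ := hp1.list
    obtain ⟨l2, hl2⟩ := hq2.list
    obtain ⟨b1, hb1⟩ := pcpy_code (l1.map e)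
    obtain ⟨b2, hb2⟩ := pcpy_code (l2.map e)
    have hb1' : ∀ y, el y b1 ↔ ∃ x, el x a1 ∧ e x = y := by
      intro y
      rw [hb1, List.mem_map]
      exact ⟨fun ⟨x, hx, h⟩ => ⟨x, (hl1 x).2 hx, h⟩, fun ⟨x, hx, h⟩ => ⟨x, (hl1 x).1 hx, h⟩⟩
    have hb2' : ∀ y, el y b2 ↔ ∃ x, el x a2 ∧ e x = y := by
      intro y
      rw [hb2, List.mem_map]
      exact ⟨fun ⟨x, hx, h⟩ => ⟨x, (hl2 x).2 hx, h⟩, fun ⟨x, hx, h⟩ => ⟨x, (hl2 x).1 hx, h⟩⟩
    have hbu : b = un b1 b2 := by
      refine fext fun y => ?_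
      rw [hb, el_un, hb1', hb2']
      constructor
      · rintro ⟨x, hx, h⟩
        rcases el_un.1 hx with h1 | h1
        · exact Or.inl ⟨x, h1, h⟩
        · exact Or.inr ⟨x, h1, h⟩
      · rintro (⟨x, hx, h⟩ | ⟨x, hx, h⟩)
        · exact ⟨x, el_un.2 (Or.inl hx), h⟩
        · exact ⟨x, el_un.2 (Or.inr hx), h⟩
    rw [hbu]
    refine cpy_op (ihp (fun x y hx hy => hm x y (ha1 x hx) (ha1 y hy))
      (fun x y hx hy => hfg x y (ha1 x hx) (ha1 y hy)) hb1' hp1)
      (ihq (fun x y hx hy => hm x y (ha2 x hx) (ha2 y hy))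
      (fun x y hx hy => hfg x y (ha2 x hx) (ha2 y hy)) hb2' hq2) ?_
    intro x' hx' y' hy'
    obtain ⟨x, hx, rfl⟩ := (hb1' x').1 hx'
    obtain ⟨y, hy, rfl⟩ := (hb2' y').1 hy'
    obtain ⟨h1, h2⟩ := hlt x hx y hy
    refine ⟨hm x y (ha1 x hx) (ha2 y hy) h1, ?_⟩
    unfold cl at h2 ⊢
    rw [← hfg x y (ha1 x hx) (ha2 y hy) h1]
    exact h2

/-- the limits of the elements of a copy settle (no bounding needed, standard number) -/
theorem Cpy.settle {f : M → M → Prop} {q : Sp} {a : M} (h : Cpy f q a) {X : Set M} {c : Bool}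
    (hl : ∀ x, el x a → Lim f X c x) : ∃ b, ∀ x, el x a → ∀ y ∈ X, b ≤ y → cl f c x y := by
  obtain ⟨l, hl'⟩ := h.list
  obtain ⟨b, hb⟩ := pcpy_settle f X c l fun x hx => hl x ((hl' x).2 hx)
  exact ⟨b, fun x hx => hb x ((hl' x).1 hx)⟩

/-- copies of a frequent pattern above every bound; a sequence of disjoint copies -/
theorem Freq.above {f : M → M → Prop} {X : Set M} {q : Sp} (h : Freq f X q) (hX : IS X) (b : M) :
    ∃ a, FS a X ∧ Cpy f q a ∧ ∀ x, el x a → b < x := by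
  obtain ⟨a, ha, hc⟩ := h {x | x ∈ X ∧ b < x} (is_above hX b) fun x hx => hx.1
  exact ⟨a, fun x hx => (ha x hx).1, hc, fun x hx => (ha x hx).2⟩

theorem Freq.mono {f : M → M → Prop} {X Y : Set M} {q : Sp} (h : Freq f X q) (hY : Y ⊆ X) :
    Freq f Y q := fun Z hZ hZY => h Z hZ (hZY.trans hY)

theorem Freq.blk {f : M → M → Prop} (hf : Comp M (fun q : M × M => f q.1 q.2)) {X : Set M}
    {q : Sp} (h : Freq f X q) (hX : IS X) : ∃ E : M → M, Blk E ∧ ∀ k, FS (E k) X ∧ Cpy f q (E k) := by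
  refine exists_blk (P := fun _ a => FS a X ∧ Cpy f q a) ?_ ?_
  · exact sig_of_comp (comp_and _ _ (comp_FS hX.comp _ (comp_snd _ comp_id))
      (comp_comp (fun a => Cpy f q a) _ (comp_Cpy hf q) (comp_snd _ comp_id)))
  · intro k b
    obtain ⟨a, ha, hc, hab⟩ := h.above hX b
    exact ⟨a, ⟨ha, hc⟩, hc.ne, hab⟩

/-- `RTp` on infinite sets (enumerate `X` and map back) -/
theorem RTp.on {q : Sp} (h : RTp M q) {f : M → M → Prop}
    (hf : Comp M (fun q : M × M => f q.1 q.2)) {X : Set M} (hX : IS X) :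
    ∃ H : Set M, IS H ∧ H ⊆ X ∧ ∀ a, FS a H → ¬ Cpy f q a := by
  obtain ⟨e, he, hm, _, heX, hsurj⟩ := enum hX
  obtain ⟨H, hH, hno⟩ := h (fun x y => f (e x) (e y))
    (comp_comp (fun q : M × M => f q.1 q.2) (fun q : M × M => (e q.1, e q.2)) hf
      (comp_prod _ _ (comp_comp e _ he (comp_fst _ comp_id))
        (comp_comp e _ he (comp_snd _ comp_id))))
  refine ⟨e '' H, is_image hH he hm, ?_, ?_⟩
  · rintro y ⟨x, _, rfl⟩
    exact heX x
  · intro a ha hc
    have hinj : ∀ x y, e x = e y → x = y := by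
      intro x y hxy
      rcases lt_trichotomy x y with h1 | h1 | h1
      · exact absurd hxy (hm _ _ h1).ne
      · exact h1
      · exact absurd hxy (hm _ _ h1).ne'
    classical
    let e' : M → M := fun y => if hy : ∃ x, x ∈ H ∧ e x = y then hy.choose else 0
    have he' : ∀ y, el y a → e' y ∈ H ∧ e (e' y) = y := by
      intro y hy
      have hex : ∃ x, x ∈ H ∧ e x = y := by
        obtain ⟨x, hx, hxy⟩ := ha y hy
        exact ⟨x, hx, hxy⟩
      have h1 : e' y = hex.choose := dif_pos hex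
      rw [h1]
      exact hex.choose_spec
    obtain ⟨l, hl⟩ := hc.list
    obtain ⟨a', ha'⟩ := pcpy_code (l.map e')
    have ha'' : ∀ y, el y a' ↔ ∃ x, el x a ∧ e' x = y := by
      intro y
      rw [ha', List.mem_map]
      exact ⟨fun ⟨x, hx, h⟩ => ⟨x, (hl x).2 hx, h⟩, fun ⟨x, hx, h⟩ => ⟨x, (hl x).1 hx, h⟩⟩
    refine hno a' ?_ (Cpy.map (e := e') ?_ ?_ ha'' hc)
    · intro y hy
      obtain ⟨x, hx, rfl⟩ := (ha'' y).1 hy
      exact (he' x hx).1
    · intro x y hx hy hxy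
      by_contra hcon
      rcases lt_or_eq_of_le (not_lt.1 hcon) with h1 | h1
      · have h2 := hm _ _ h1
        rw [(he' x hx).2, (he' y hy).2] at h2
        exact lt_asymm h2 hxy
      · have h2 := congrArg e h1
        rw [(he' x hx).2, (he' y hy).2] at h2
        exact hxy.ne' h2
    · intro x y hx hy _
      show f x y ↔ f (e (e' x)) (e (e' y))
      rw [(he' x hx).2, (he' y hy).2]

theorem RTp.not_freq {q : Sp} (h : RTp M q) {f : M → M → Prop}
    (hf : Comp M (fun q : M × M => f q.1 q.2)) {X : Set M} (hX : IS X) : ¬ Freq f X q := by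
  intro hF
  obtain ⟨H, hH, hHX, hno⟩ := h.on hf hX
  obtain ⟨a, ha, hc⟩ := hF H hH hHX
  exact hno a ha hc

/-- if every frequent pattern has typed copies of both types then every pattern is frequent -/
theorem typed_all {f : M → M → Prop} {X : Set M} (hf : Bad f X)
    (h : ∀ (q : Sp) (c : Bool) (Y : Set M), IS Y → Y ⊆ X → Freq f Y q →
      ∃ a, FS a Y ∧ Cpy f q a ∧ ∀ x, el x a → Lim f X c x) : ∀ q, Freq f X q := by
  intro q
  induction q with
  | pt =>
    intro Y hY _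
    obtain ⟨x, hx, _⟩ := hY.unb 0
    refine ⟨sg x, fun y hy => ?_, cpy_pt x⟩
    rw [el_sg.1 hy]
    exact hx
  | op c p q ihp ihq =>
    intro Y hY hYX
    obtain ⟨b, hb, hpb, hlim⟩ := h p c Y hY hYX (ihp.mono hYX)
    obtain ⟨B, hB⟩ := hpb.settle hlim
    obtain ⟨d, hd, hqd, hgt⟩ := (ihq.mono hYX).above hY (B + b)
    refine ⟨un b d, fun x hx => ?_, cpy_op hpb hqd fun x hx y hy => ?_⟩
    · rcases el_un.1 hx with h1 | h1
      · exact hb x h1
      · exact hd x h1
    · have h1 := hgt y hy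
      refine ⟨lt_trans (el_lt hx) (lt_of_le_of_lt le_add_self h1),
        hB x hx y (hYX (hd y hy)) (le_of_lt (lt_of_le_of_lt le_self_add h1))⟩

end RT22P
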