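import Pool.Agent.RTP.C4a
import Pool.Agent.RTP.PCpy

/-!
# Section 4, second part: trace avoidance

Apply `prio` with `l` = the size of `q` (a standard number) and `RTp` to the colouring; `G` = infinite set without
copies of `q`.  Take a pattern `q'` of least size such that some infinite `G' ⊆ G` has no copy of `q'` (strong
induction on `Sp.size` in the metatheory); `q' = op c q₀ q₁` and `q₀`, `q₁` are frequent in `G'`.  Let `E` be a block
sequence of copies of `q₀` in `G'` (`Freq.blk`) and `J e` a code of `E 0, ..., E (N e)` (`exists_seqf`).  If `J e` is in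
`T e s` for arbitrarily large `s`, then it is in `T e b`, `b` a common stage for all `e' ≤ e` (`BPi.stab`), and `prio` gives
`E i`, `E j` with limits `0` and `1`; a far copy of `q₁` in `G'` completes a copy of `q'`.
-/

set_option autoImplicit false

namespace RT22P

open Env

variable {M : Type} [Env M]

private theorem c4b_size_pos (p : Sp) : 1 ≤ p.size := by
  induction p with
  | pt => exact le_rfl
  | op c a b iha ihb => simp only [Sp.size]; omega

private theorem c4b_aux {f : M → M → Prop} (hf : Comp M (fun q : M × M => f q.1 q.2))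
    {T : M → M → M} (hT : Comp M (fun q : M × M => T q.1 q.2)) (hB : BPi M) {N : M → M}
    (hN : Comp M N) (L : ℕ)
    (hspec : ∀ e b t, (∀ e', e' ≤ e → ∀ s, b ≤ s → T e' s = T e' b) → el t (T e b) →
        (∀ i, i < N e → card (bt t i) ≤ ((L : ℕ) : M)) →
        (∀ i j, i < j → j < N e → ∀ x, el x (bt t i) → ¬ el x (bt t j)) →
        ∃ i j, i < N e ∧ j < N e ∧ ∃ b', ∀ s, b' ≤ s →
          (∀ x, el x (bt t i) → ¬ f x s) ∧ (∀ x, el x (bt t j) → f x s))
    (hconv : ∀ e, ∃ b, ∀ s, b ≤ s → T e s = T e b) (n : ℕ) :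
    ∀ (p : Sp), p.size ≤ n → p.size ≤ L → ∀ G : Set M, IS G → (∀ a, FS a G → ¬ Cpy f p a) →
      ∃ J : M → M, Comp M J ∧ ∀ e, ∃ b, ∀ s, b ≤ s → ¬ el (J e) (T e s) := by
  induction n with
  | zero =>
    intro p hp
    have := c4b_size_pos p
    omega
  | succ n ih =>
    intro p hp hpL G hG hno
    cases p with
    | pt =>
      exfalso
      obtain ⟨x, hx, -⟩ := hG.unb 0
      refine hno (sg x) (fun y hy => ?_) (cpy_pt x)
      rw [el_sg] at hy
      rw [hy]; exact hx
    | op c p₀ p₁ =>
      have h0 := c4b_size_pos p₀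
      have h1 := c4b_size_pos p₁
      simp only [Sp.size] at hp hpL
      by_cases hF0 : Freq f G p₀
      swap
      · unfold Freq at hF0
        push Not at hF0
        obtain ⟨Y, hY, -, hYn⟩ := hF0
        exact ih p₀ (by omega) (by omega) Y hY fun a ha => hYn a ha
      by_cases hF1 : Freq f G p₁
      swap
      · unfold Freq at hF1
        push Not at hF1
        obtain ⟨Y, hY, -, hYn⟩ := hF1
        exact ih p₁ (by omega) (by omega) Y hY fun a ha => hYn a ha
      obtain ⟨E, hE, hEp⟩ := hF0.blk hf hG
      have hEc : Comp M E := hE.comp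
      obtain ⟨J, hJ, hJs⟩ := exists_seqf (M := M) (Γ := M) (F := fun _ i => E i) (n := N)
        (by fun_prop) hN
      refine ⟨J, hJ, fun e => ?_⟩
      by_contra hcon
      push Not at hcon
      obtain ⟨b, hb⟩ := hB.stab hT (e + 1) fun x _ => hconv x
      obtain ⟨s, hs, hels⟩ := hcon b
      have hel : el (J e) (T e b) := by rw [← hb e (lt_self_succ e) s hs]; exact hels
      obtain ⟨i, j, hi, hj, b', hb'⟩ := hspec e b (J e)
        (fun e' he' s hs => hb e' (lt_succ.2 he') s hs) hel
        (fun i hi => by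
          rw [hJs e i hi, (hEp i).2.card]
          exact_mod_cast (by omega : p₀.size ≤ L))
        (fun i j hij hj x hx hx' => by
          rw [hJs e i (hij.trans hj)] at hx
          rw [hJs e j hj] at hx'
          exact lt_irrefl _ (hE.lt i j hij x x hx hx'))
      rw [hJs e i hi, hJs e j hj] at hb'
      obtain ⟨m, hm⟩ : ∃ m, ∀ x, el x (E m) → ∀ s, b' ≤ s → cl f c x s := by
        cases c with
        | false =>
          refine ⟨i, fun x hx s hs => ?_⟩
          have := (hb' s hs).1 x hx
          simp [cl, this]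
        | true =>
          refine ⟨j, fun x hx s hs => ?_⟩
          have := (hb' s hs).2 x hx
          simp [cl, this]
      obtain ⟨a, haG, hap, hab⟩ := hF1.above hG (max b' (mx (E m)))
      refine hno (un (E m) a) (fun x hx => ?_) (cpy_op (hEp m).2 hap fun x hx y hy => ?_)
      · rcases el_un.1 hx with hx | hx
        · exact (hEp m).1 x hx
        · exact haG x hx
      · have hy' := hab y hy
        exact ⟨lt_of_le_of_lt (le_mx hx) (lt_of_le_of_lt (le_max_right _ _) hy'),
          hm x hx y ((le_max_left _ _).trans hy'.le)⟩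

theorem trace_avoid {q : Sp} (h : RTp M q) (hB : BPi M) {T : M → M → M}
    (hT : Comp M (fun q : M × M => T q.1 q.2)) {k : M → M} (hk : Comp M k)
    (hcard : ∀ e s, card (T e s) ≤ k e) (hconv : ∀ e, ∃ b, ∀ s, b ≤ s → T e s = T e b) :
    ∃ J : M → M, Comp M J ∧ ∀ e, ∃ b, ∀ s, b ≤ s → ¬ el (J e) (T e s) := by
  obtain ⟨N, f, hN, hf, hspec⟩ := prio hT hk hcard ((q.size : ℕ) : M)
  obtain ⟨G, hG, hGq⟩ := h f hf
  exact c4b_aux hf hT hB hN q.size hspec hconv q.size q le_rfl le_rfl G hG hGq

end RT22P
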