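import Pool.Agent.RTP.ABnd
import Pool.Agent.RTP.ARam

/-!
# Patterns, copies, trees (definitions)

Patterns are trees of direct (`true`) and skew (`false`) sums.  All colourings `f : M → M → Prop` are
only used for `x < y`.
-/

set_option autoImplicit false

namespace RT22P

open Env

/-- separable patterns as trees -/
inductive Sp : Type
  | pt : Sp
  | op (c : Bool) (a b : Sp) : Sp

/-- number of points -/
def Sp.size : Sp → ℕ
  | .pt => 1
  | .op _ a b => a.size + b.size

variable {M : Type} [Env M]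

/-- the finite set `a` is a copy of the pattern -/
def Cpy (f : M → M → Prop) : Sp → M → Prop
  | .pt, a => ∃ x, x < a ∧ a = sg x
  | .op c p q, a => ∃ b, Sub b a ∧ ∃ d, Sub d a ∧ a = un b d ∧ Cpy f p b ∧ Cpy f q d ∧
      ∀ x, el x b → ∀ y, el y d → x < y ∧ cl f c x y

/-- every infinite subset of `X` contains a copy of `q` -/
def Freq (f : M → M → Prop) (X : Set M) (q : Sp) : Prop :=
  ∀ Y : Set M, IS Y → Y ⊆ X → ∃ a, FS a Y ∧ Cpy f q a

/-- `RT²₂(q)`: every colouring has an infinite set without copies of `q` -/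
def RTp (M : Type) [Env M] (q : Sp) : Prop :=
  ∀ f : M → M → Prop, Comp M (fun p : M × M => f p.1 p.2) →
    ∃ H : Set M, IS H ∧ ∀ a, FS a H → ¬ Cpy f q a

/-- `RT²₂` -/
def RTT (M : Type) [Env M] : Prop :=
  ∀ f : M → M → Prop, Comp M (fun p : M × M => f p.1 p.2) →
    ∃ H : Set M, IS H ∧ ∃ c : Bool, ∀ x ∈ H, ∀ y ∈ H, x < y → cl f c x y

/-- not every `Σ₁` class is a set -/
def NCS (M : Type) [Env M] : Prop := ∃ K : M → Prop, Sig M K ∧ ¬ Comp M K

/-- induction for `Σ₂` predicates -/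
def I2 (M : Type) [Env M] : Prop :=
  ∀ Q : M → M → M → Prop, Comp M (fun p : M × M × M => Q p.1 p.2.1 p.2.2) →
    (∃ y, ∀ z, Q 0 y z) → (∀ x, (∃ y, ∀ z, Q x y z) → ∃ y, ∀ z, Q (x + 1) y z) →
    ∀ x, ∃ y, ∀ z, Q x y z

/-- the piece of `a` which begins at the cut point `y ∈ C`: the elements `x ≥ y` of `a` with no cut
point in `(y, x]` -/
noncomputable def pc (a C y : M) : M :=
  (exists_code (P := fun x => el x a ∧ y ≤ x ∧ ∀ z, el z C → (z ≤ y ∨ x < z)) (by fun_prop)
    a).choose

/-- `a` is an `R`-fold `c`-sum of sets with the property `P`; `C` is the set of the least elements of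
the summands -/
def Isum (f : M → M → Prop) (c : Bool) (P : M → Prop) (R a : M) : Prop :=
  ∃ C, Sub C a ∧ (card C = R ∧ (∀ x, el x a → ∃ y, el y C ∧ y ≤ x) ∧
    (∀ y, el y C → P (pc a C y)) ∧
    ∀ x, el x a → ∀ z, el z a → (∃ y, el y C ∧ (x < y ∧ y ≤ z)) → cl f c x z)

/-- the trees of depth `j`: points for `j = 0`, `R`-fold `c`-sums of trees of depth `j` and the
other colour for `j + 1` -/
def Tr (f : M → M → Prop) : ℕ → Bool → M → M → Prop
  | 0, _, _, a => ∃ x, x < a ∧ a = sg x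
  | j + 1, c, R, a => Isum f c (Tr f j (!c) R) R a

end RT22P
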