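import Pool.Agent.RTP.ABnd
import Pool.Agent.RTP.PDefs

/-!
# Section 5, first part: a modulus which is not dominated; bad colourings

`K` a `Σ₁` class which is not computable, `K x ↔ ∃ y, Q (x, y)`; `F (e, s)` is the finite set
`{x < e | ∃ y < s, Q (x, y)}`; `m e s` = least `t` such that `F (e, t) = F (e, s)`.  It is nondecreasing in `s`,
the number of its values is at most `e + 1` (different values give different sizes of `F (e, t)`), it converges
(bounded `Σ₁` comprehension and bounding), and if `m e s ≤ J e` for all `s` and all `e > b` then `K` is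
computable.
-/

set_option autoImplicit false

namespace RT22P

open Env

variable {M : Type} [Env M]

theorem exists_modulus (h : NCS M) : ∃ (m : M → M → M) (V : M → M → M),
    Comp M (fun q : M × M => m q.1 q.2) ∧ Comp M (fun q : M × M => V q.1 q.2) ∧
    (∀ e s s', s ≤ s' → m e s ≤ m e s') ∧
    (∀ e s x, el x (V e s) ↔ ∃ t, t ≤ s ∧ m e t = x) ∧
    (∀ e s, card (V e s) ≤ e + 1) ∧
    (∀ e, ∃ b, ∀ s, b ≤ s → m e s = m e b) ∧
    (∀ J : M → M, Comp M J → ∀ b, ∃ e, b < e ∧ ∃ s, J e < m e s) := by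
  obtain ⟨K, ⟨Q, hQ, hK⟩, hnK⟩ := h
  -- the approximations
  obtain ⟨F, hF, hFel⟩ := c_code (M := M) (Γ := M × M) (b := fun v => v.1)
    (P := fun q : (M × M) × M => ∃ y, y < q.1.2 ∧ Q (q.2, y)) (by fun_prop)
    (comp_bex (fun q : (M × M) × M => q.1.2) (fun q y => Q (q.2, y)) (by fun_prop)
      (comp_comp Q (fun r : ((M × M) × M) × M => (r.1.2, r.2)) hQ (by fun_prop)))
  have hFsub : ∀ e s s', s ≤ s' → Sub (F (e, s)) (F (e, s')) := by
    intro e s s' hs x hx
    obtain ⟨hxe, y, hy, hxy⟩ := (hFel (e, s) x).1 hx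
    exact (hFel (e, s') x).2 ⟨hxe, y, lt_of_lt_of_le hy hs, hxy⟩
  -- the modulus
  have hPc : Comp M (fun q : (M × M) × M => F (q.1.1, q.2) = F (q.1.1, q.1.2)) := by
    refine comp_eq _ _ ?_ ?_
    · exact comp_comp F (fun q : (M × M) × M => (q.1.1, q.2)) hF (by fun_prop)
    · exact comp_comp F (fun q : (M × M) × M => (q.1.1, q.1.2)) hF (by fun_prop)
  obtain ⟨g, hg, hg'⟩ := search_min (M := M) (Γ := M × M)
    (P := fun v t => F (v.1, t) = F (v.1, v.2)) hPc (fun v => ⟨v.2, rfl⟩)
  have hg1 : ∀ e s, F (e, g (e, s)) = F (e, s) := fun e s => (hg' (e, s)).1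
  have hg2 : ∀ e s t, F (e, t) = F (e, s) → g (e, s) ≤ t := by
    intro e s t ht
    by_contra hc
    exact (hg' (e, s)).2 t (not_le.1 hc) ht
  have hg3 : ∀ e s s', F (e, s) = F (e, s') → g (e, s) = g (e, s') := by
    intro e s s' hs
    refine le_antisymm (hg2 e s _ ?_) (hg2 e s' _ ?_)
    · rw [hg1, hs]
    · rw [hg1, hs]
  have hgle : ∀ e s, g (e, s) ≤ s := fun e s => hg2 e s s rfl
  -- the set of values
  have hgc : Comp M (fun q : (M × M) × M => ∃ t, t ≤ q.1.2 ∧ g (q.1.1, t) = q.2) := by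
    refine comp_bexle (fun q : (M × M) × M => q.1.2) (fun q t => g (q.1.1, t) = q.2)
      (by fun_prop) ?_
    refine comp_eq _ _ ?_ (by fun_prop)
    exact comp_comp g (fun r : ((M × M) × M) × M => (r.1.1.1, r.2)) hg (by fun_prop)
  obtain ⟨V, hV, hVel'⟩ := c_code (M := M) (Γ := M × M) (b := fun v => v.2 + 1)
    (P := fun q : (M × M) × M => ∃ t, t ≤ q.1.2 ∧ g (q.1.1, t) = q.2) (by fun_prop) hgc
  have hVel : ∀ e s x, el x (V (e, s)) ↔ ∃ t, t ≤ s ∧ g (e, t) = x := by
    intro e s x
    rw [hVel']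
    refine ⟨fun hx => hx.2, fun hx => ⟨?_, hx⟩⟩
    obtain ⟨t, ht, htx⟩ := hx
    rw [← htx]
    exact lt_succ.2 (le_trans (hgle e t) ht)
  refine ⟨fun e s => g (e, s), fun e s => V (e, s), hg, hV, ?_, hVel, ?_, ?_, ?_⟩
  · -- monotone
    intro e s s' hs
    by_contra hc
    have h1 : g (e, s') < g (e, s) := not_le.1 hc
    have h2 : F (e, g (e, s')) = F (e, s) := by
      refine Sub.antisymm ?_ ?_
      · have h3 := hFsub e _ _ h1.le
        rw [hg1 e s] at h3
        exact h3
      · rw [hg1 e s']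
        exact hFsub e _ _ hs
    exact absurd h1 (not_lt.2 (hg2 e s _ h2))
  · -- the number of values
    intro e s
    have hc : Comp M (fun x : M => card (F (e, x))) := by
      refine comp_card _ ?_
      exact comp_comp F (fun x : M => (e, x)) hF (by fun_prop)
    have h1 : card (V (e, s)) ≤ card (ivl (0 : M) (e + 1)) := by
      refine card_le_of_inj hc ?_ ?_
      · intro x _
        rw [el_ivl]
        refine ⟨zero_le' _, lt_succ.2 ?_⟩
        have h2 : Sub (F (e, x)) (ivl 0 e) := fun z hz =>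
          el_ivl.2 ⟨zero_le' _, ((hFel (e, x) z).1 hz).1⟩
        have h3 := card_mono h2
        have h4 := card_ivl (M := M) (b := 0) (c := e) (zero_le' e)
        rw [add_zero] at h4
        rwa [h4] at h3
      · have key : ∀ x y, el x (V (e, s)) → el y (V (e, s)) → x ≤ y →
            card (F (e, x)) = card (F (e, y)) → x = y := by
          intro x y hx hy hxy hcard
          obtain ⟨t, _, htx⟩ := (hVel e s x).1 hx
          obtain ⟨t', _, hty⟩ := (hVel e s y).1 hy
          have h2 : F (e, x) = F (e, y) := card_eq_of_sub (hFsub e x y hxy) hcard.ge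
          have h3 : F (e, t) = F (e, t') := by
            rw [← hg1 e t, ← hg1 e t', htx, hty]
            exact h2
          rw [← htx, ← hty]
          exact hg3 e t t' h3
        intro x y hx hy hcard
        rcases le_total x y with hxy | hxy
        · exact key x y hx hy hxy hcard
        · exact (key y x hy hx hxy hcard.symm).symm
    have h4 := card_ivl (M := M) (b := 0) (c := e + 1) (zero_le' _)
    rw [add_zero] at h4
    rw [h4] at h1
    exact h1
  · -- convergence
    intro e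
    obtain ⟨a, ha⟩ := exists_codeS (P := K) ⟨Q, hQ, hK⟩ e
    obtain ⟨w, hw⟩ := sbd (M := M) (P := fun x y => el x a → Q (x, y))
      (sig_of_comp (comp_imp _ _ (by fun_prop)
        (comp_comp Q (fun q : M × M => (q.1, q.2)) hQ (by fun_prop)))) e (by
        intro x _
        by_cases hx : el x a
        · obtain ⟨y, hy⟩ := (hK x).1 ((ha x).1 hx).2
          exact ⟨y, fun _ => hy⟩
        · exact ⟨0, fun h' => absurd h' hx⟩)
    have hFa : ∀ s, w ≤ s → F (e, s) = a := by
      intro s hs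
      refine fext fun x => ⟨fun hx => ?_, fun hx => ?_⟩
      · obtain ⟨hxe, y, _, hxy⟩ := (hFel (e, s) x).1 hx
        exact (ha x).2 ⟨hxe, (hK x).2 ⟨y, hxy⟩⟩
      · have hxe := ((ha x).1 hx).1
        obtain ⟨y, hy, hxy⟩ := hw x hxe
        exact (hFel (e, s) x).2 ⟨hxe, y, lt_of_lt_of_le hy hs, hxy hx⟩
    refine ⟨w, fun s hs => hg3 e s w ?_⟩
    rw [hFa s hs, hFa w le_rfl]
  · -- not dominated
    intro J hJ b
    by_contra hcon
    have h1 : ∀ e, b < e → ∀ s, g (e, s) ≤ J e := by
      intro e he s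
      by_contra hc
      exact hcon ⟨e, he, s, not_le.1 hc⟩
    apply hnK
    have h2 : (fun x : M => K x) = fun x => el x (F (x + b + 1, J (x + b + 1))) := by
      funext x
      refine propext ⟨fun hx => ?_, fun hx => ?_⟩
      · obtain ⟨y, hy⟩ := (hK x).1 hx
        have hxe : x < x + b + 1 := lt_succ.2 le_self_add
        have hbe : b < x + b + 1 := lt_succ.2 le_add_self
        have h3 : el x (F (x + b + 1, y + 1)) :=
          (hFel (x + b + 1, y + 1) x).2 ⟨hxe, y, lt_self_succ y, hy⟩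
        rw [← hg1 (x + b + 1) (y + 1)] at h3
        exact hFsub _ _ _ (h1 _ hbe (y + 1)) x h3
      · obtain ⟨_, y, _, hy⟩ := (hFel _ x).1 hx
        exact (hK x).2 ⟨y, hy⟩
    have h3 : Comp M (fun x : M => K x) := by
      rw [h2]
      refine comp_el comp_id ?_
      refine comp_comp F (fun x : M => (x + b + 1, J (x + b + 1))) hF ?_
      refine comp_prod _ _ (by fun_prop) ?_
      exact comp_comp J (fun x : M => x + b + 1) hJ (by fun_prop)
    exact h3

/-- if all `Σ₁` classes are computable, the set of points with limit colour `c` is computable -/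
theorem bad_ncs {f : M → M → Prop} {X : Set M} (h : Bad f X) : NCS M := by
  by_contra hN
  have hS : ∀ K : M → Prop, Sig M K → Comp M K := by
    intro K hK
    by_contra hc
    exact hN ⟨K, hK, hc⟩
  have hX : Comp M (fun x : M => x ∈ X) := h.is.comp
  -- the inner predicate
  have hT : Sig M (fun q : M × M => ∃ y : M, y ∈ X ∧ (q.2 ≤ y ∧ ¬ cl f true q.1 y)) := by
    refine sig_ex (P := fun (q : M × M) (y : M) => y ∈ X ∧ (q.2 ≤ y ∧ ¬ cl f true q.1 y))
      (sig_of_comp ?_)
    refine comp_and _ _ (comp_comp (fun x : M => x ∈ X) (fun r : (M × M) × M => r.2) hX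
      (by fun_prop)) ?_
    refine comp_and _ _ (by fun_prop) (comp_not _ ?_)
    exact comp_comp (fun q : M × M => cl f true q.1 q.2)
      (fun r : (M × M) × M => (r.1.1, r.2)) (comp_cl h.comp true) (by fun_prop)
  have hT2 : Comp M (fun z : M => ∃ y : M, y ∈ X ∧
      (((Pre.cp (M := M)).symm z).2 ≤ y ∧ ¬ cl f true ((Pre.cp (M := M)).symm z).1 y)) :=
    hS _ (sig_comp (g := fun z : M => ((Pre.cp (M := M)).symm z : M × M)) hT Env0.c_cpsymm)
  have hT3 : Comp M (fun q : M × M => ∃ y : M, y ∈ X ∧ (q.2 ≤ y ∧ ¬ cl f true q.1 y)) := by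
    have h1 := comp_comp (fun z : M => ∃ y : M, y ∈ X ∧
      (((Pre.cp (M := M)).symm z).2 ≤ y ∧ ¬ cl f true ((Pre.cp (M := M)).symm z).1 y))
      (fun q : M × M => (Pre.cp q : M)) hT2 Env0.c_cp
    have e : (fun q : M × M => ∃ y : M, y ∈ X ∧ (q.2 ≤ y ∧ ¬ cl f true q.1 y)) =
        fun q : M × M => (fun z : M => ∃ y : M, y ∈ X ∧
          (((Pre.cp (M := M)).symm z).2 ≤ y ∧ ¬ cl f true ((Pre.cp (M := M)).symm z).1 y))
          ((Pre.cp q : M)) := by
      funext q
      show _ = ∃ y : M, y ∈ X ∧ (((Pre.cp (M := M)).symm (Pre.cp q)).2 ≤ y ∧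
        ¬ cl f true ((Pre.cp (M := M)).symm (Pre.cp q)).1 y)
      rw [Equiv.symm_apply_apply]
    rw [e]
    exact h1
  have hL : Comp M (fun x : M => Lim f X true x) := by
    refine hS _ ?_
    refine sig_congr (sig_ex (M := M) (Γ := M) (Δ := M)
      (P := fun x b => ¬ ∃ y : M, y ∈ X ∧ (b ≤ y ∧ ¬ cl f true x y))
      (sig_of_comp (comp_not _ hT3))) fun x => ?_
    unfold Lim
    refine exists_congr fun b => ⟨fun h1 y hy hby => ?_, fun h1 h2 => ?_⟩
    · by_contra hc
      exact h1 ⟨y, hy, hby, hc⟩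
    · obtain ⟨y, hy, hby, hc⟩ := h2
      exact hc (h1 y hy hby)
  by_cases hu : ∀ b, ∃ x ∈ X, b < x ∧ Lim f X true x
  · exact h.bad _ (is_sep h.is hL hu) (fun x hx => hx.1) true fun x hx => hx.2
  · have hu' : ∃ b, ∀ x ∈ X, b < x → ¬ Lim f X true x := by
      by_contra hc
      refine hu fun b => ?_
      by_contra hc'
      exact hc ⟨b, fun x hx hbx hl => hc' ⟨x, hx, hbx, hl⟩⟩
    obtain ⟨b, hb⟩ := hu'
    refine h.bad _ (is_above h.is b) (fun x hx => hx.1) false fun x hx => ?_
    obtain ⟨c, hc⟩ := h.stab x hx.1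
    cases c
    · exact hc
    · exact absurd hc (hb x hx.1 hx.2)

end RT22P
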