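import Pool.Agent.RTP.C5a
import Pool.Agent.RTP.C4b

/-!
# Section 5, second part: the choice lemma

`ν e r` = least `n ≥ e` with `r < D n` (exists: a computable function is bounded on `[0, e]`, `D` is not);
`T' e s` = union of `T (ν e r) s` over `r ∈ V e s` (`V` = values of the modulus), at most `(e + 1) c` elements,
convergent (`BPi.stab` on the finite set of values).  Take `J` by `trace_avoid`.  The pairs `(e, s)` with
`J e < m e s` exist for arbitrarily large `e`; for such an `e` take the least such `s`, `r = m e s`, `n = ν e r`,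
`i = J e < r < D n`.  The functions `n (j)`, `i (j)` by `iterS` / `search` (`n (j + 1) ≥ e > n (j)`).
-/

set_option autoImplicit false

namespace RT22P

open Env

variable {M : Type} [Env M]

/-- an unbounded computable function is unbounded beyond every point -/
private theorem c5b_unb {D : M → M} (hD : Comp M D) (hDu : ∀ b, ∃ n, b < D n) (e r : M) :
    ∃ n, e ≤ n ∧ r < D n := by
  obtain ⟨w, hw⟩ := sbd (P := fun x y => D x = y) (sig_of_comp (by fun_prop)) e
    (fun x _ => ⟨D x, rfl⟩)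
  obtain ⟨n, hn⟩ := hDu (r + w)
  refine ⟨n, ?_, lt_of_le_of_lt le_self_add hn⟩
  by_contra hcon
  obtain ⟨y, hy, hDy⟩ := hw n (not_le.1 hcon)
  rw [hDy] at hn
  exact absurd (lt_trans (lt_of_le_of_lt le_add_self hn) hy) (lt_irrefl _)

/-- computable choice of an index below `D n` outside a convergent trace of bounded size -/
theorem choice {q : Sp} (h : RTp M q) (hB : BPi M) (hK : NCS M) {D : M → M} (hD : Comp M D)
    (hDu : ∀ b, ∃ n, b < D n) {T : M → M → M} (hT : Comp M (fun q : M × M => T q.1 q.2)) (c : M)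
    (hcard : ∀ n s, card (T n s) ≤ c) (hconv : ∀ n, ∃ b, ∀ s, b ≤ s → T n s = T n b) :
    ∃ n i : M → M, Comp M n ∧ Comp M i ∧ (∀ j, j ≤ n j) ∧ (∀ j j', j < j' → n j < n j') ∧
      (∀ j, i j < D (n j)) ∧ ∀ j, ∃ b, ∀ s, b ≤ s → ¬ el (i j) (T (n j) s) := by
  obtain ⟨m, V, hm, hV, hmono, hVel, hVcard, hmconv, hmJ⟩ := exists_modulus hK
  obtain ⟨nu, hnu, hnu'⟩ := search (M := M) (Γ := M × M) (Δ := M)
    (P := fun v n => v.1 ≤ n ∧ v.2 < D n) (sig_of_comp (by fun_prop))
    (fun v => c5b_unb hD hDu v.1 v.2)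
  -- the union of the traces
  have hE : Comp M (fun q : (M × M) × M => T (nu (q.1.1, nth (V q.1.1 q.1.2) q.2)) q.1.2) := by
    fun_prop
  obtain ⟨U, hU, hU'⟩ := exists_bigun (M := M) (Γ := M × M)
    (E := fun v i => T (nu (v.1, nth (V v.1 v.2) i)) v.2) hE
  have hT'el : ∀ e s x, el x (U (e, s) (card (V e s))) ↔
      ∃ r, el r (V e s) ∧ el x (T (nu (e, r)) s) := by
    intro e s x
    rw [hU' (e, s) (card (V e s)) x]
    refine ⟨fun ⟨i, hi, hx⟩ => ⟨nth (V e s) i, el_nth hi, hx⟩, fun ⟨r, hr, hx⟩ => ?_⟩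
    obtain ⟨i, hi, hir⟩ := exists_nth_eq hr
    refine ⟨i, hi, ?_⟩
    show el x (T (nu (e, nth (V e s) i)) s)
    rw [hir]
    exact hx
  have hT'comp : Comp M (fun q : M × M => U (q.1, q.2) (card (V q.1 q.2))) :=
    comp_comp (fun q : (M × M) × M => U q.1 q.2)
      (fun q : M × M => ((q.1, q.2), card (V q.1 q.2))) hU (by fun_prop)
  have hT'card : ∀ e s, card (U (e, s) (card (V e s))) ≤ (e + 1) * c := by
    intro e s
    have h1 : card (U (e, s) (card (V e s))) ≤ card (V e s) * c := by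
      refine card_bigun_le (E := fun i => T (nu (e, nth (V e s) i)) s) ?_
        (fun i _ => hcard _ _) (hU' (e, s) (card (V e s)))
      fun_prop
    exact le_trans h1 (mul_le_mul_left (hVcard e s) c)
  have hVconv : ∀ e, ∃ b, ∀ s, b ≤ s → V e s = V e b := by
    intro e
    obtain ⟨b, hb⟩ := hmconv e
    refine ⟨b, fun s hs => fext fun x => ?_⟩
    rw [hVel, hVel]
    refine ⟨fun ⟨t, ht, hx⟩ => ?_, fun ⟨t, ht, hx⟩ => ⟨t, le_trans ht hs, hx⟩⟩
    by_cases htb : t ≤ b
    · exact ⟨t, htb, hx⟩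
    · exact ⟨b, le_rfl, by rw [← hb t (not_le.1 htb).le]; exact hx⟩
  have hT'conv : ∀ e, ∃ b, ∀ s, b ≤ s →
      U (e, s) (card (V e s)) = U (e, b) (card (V e b)) := by
    intro e
    obtain ⟨b0, hb0⟩ := hVconv e
    obtain ⟨b1, hb1⟩ := BPi.stab hB (T := fun x y => T (nu (e, x)) y) (by fun_prop) (V e b0)
      (fun x _ => hconv _)
    refine ⟨b0 + b1, fun s hs => fext fun x => ?_⟩
    rw [hT'el, hT'el]
    have h0 : b0 ≤ s := le_trans le_self_add hs
    have h1 : b1 ≤ s := le_trans le_add_self hs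
    rw [hb0 s h0, hb0 (b0 + b1) le_self_add]
    refine exists_congr fun r => and_congr_right fun hr => ?_
    have h2 := hb1 r (el_lt hr) s h1
    have h3 := hb1 r (el_lt hr) (b0 + b1) le_add_self
    show el x (T (nu (e, r)) s) ↔ el x (T (nu (e, r)) (b0 + b1))
    rw [show T (nu (e, r)) s = T (nu (e, r)) b1 from h2,
      show T (nu (e, r)) (b0 + b1) = T (nu (e, r)) b1 from h3]
  obtain ⟨J, hJ, hJ'⟩ := trace_avoid h hB (T := fun e s => U (e, s) (card (V e s))) hT'comp
    (k := fun e => (e + 1) * c) (by fun_prop) hT'card hT'conv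
  -- the stages at which the modulus is large
  obtain ⟨p, hp, hp'⟩ := search (M := M) (Γ := M) (Δ := M × M)
    (P := fun b x => b < x.1 ∧ J x.1 < m x.1 x.2) (sig_of_comp (by fun_prop)) (fun b => by
      obtain ⟨e, he, s, hs⟩ := hmJ J hJ b
      exact ⟨(e, s), he, hs⟩)
  obtain ⟨F, hF, hF0, hF1⟩ := iter (M := M) (Δ := M × M) (p 0)
    (h := fun _ x => p (nu (x.1, m x.1 x.2))) (by fun_prop)
  have hinv : ∀ j, J (F j).1 < m (F j).1 (F j).2 := by
    intro j
    rcases zero_or_succ j with h0 | ⟨k, hk⟩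
    · rw [h0, hF0]
      exact (hp' 0).2
    · rw [hk, hF1]
      exact (hp' _).2
  have hn : Comp M (fun j => nu ((F j).1, m (F j).1 (F j).2)) := by fun_prop
  have hstep : ∀ j, nu ((F j).1, m (F j).1 (F j).2) <
      nu ((F (j + 1)).1, m (F (j + 1)).1 (F (j + 1)).2) := by
    intro j
    have h1 : nu ((F j).1, m (F j).1 (F j).2) < (F (j + 1)).1 := by
      rw [hF1]
      exact (hp' _).1
    exact lt_of_lt_of_le h1 (hnu' ((F (j + 1)).1, m (F (j + 1)).1 (F (j + 1)).2)).1
  have hincr := (is_range hn hstep).2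
  refine ⟨fun j => nu ((F j).1, m (F j).1 (F j).2), fun j => J (F j).1, hn, by fun_prop,
    fun j => id_le hn hincr j, hincr, fun j => ?_, fun j => ?_⟩
  · exact lt_trans (hinv j) (hnu' ((F j).1, m (F j).1 (F j).2)).2
  · obtain ⟨b, hb⟩ := hJ' (F j).1
    refine ⟨b + (F j).2, fun s hs hel => ?_⟩
    refine hb s (le_trans le_self_add hs) ((hT'el (F j).1 s (J (F j).1)).2 ?_)
    exact ⟨m (F j).1 (F j).2, (hVel _ _ _).2 ⟨(F j).2, le_trans le_add_self hs, rfl⟩, hel⟩

end RT22P
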