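import Pool.Agent.RTP.PCpy

/-!
# Section 8, first part: sums of finite sets

`Isum f c P R a`: `a` is an `R`-fold `c`-sum of sets with the property `P`; the summands are the pieces
`pc a C y`, `y ∈ C`, `C` = set of cut points (the least elements of the summands).
-/

set_option autoImplicit false

namespace RT22P

open Env

variable {M : Type} [Env M] {f : M → M → Prop} {c : Bool}

/-- every element lies in exactly one piece -/
theorem pc_cover {a C : M} (h : ∀ x, el x a → ∃ y, el y C ∧ y ≤ x) {x : M} (hx : el x a) :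
    ∃ y, el y C ∧ el x (pc a C y) := by
  obtain ⟨y, ⟨hy, hyx⟩, hmax⟩ := greatestC (P := fun y => el y C ∧ y ≤ x) (by fun_prop)
    (h x hx) (x + 1) (fun y hy => lt_succ.2 hy.2)
  refine ⟨y, hy, el_pc.2 ⟨hx, hyx, fun z hz => ?_⟩⟩
  by_cases hxz : x < z
  · exact Or.inr hxz
  · exact Or.inl (hmax z ⟨hz, not_lt.1 hxz⟩)

theorem pc_unique {a C x y z : M} (hy : el y C) (hz : el z C) (h : el x (pc a C y))
    (h' : el x (pc a C z)) : y = z := by
  obtain ⟨_, hyx, h1⟩ := el_pc.1 h
  obtain ⟨_, hzx, h2⟩ := el_pc.1 h'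
  refine le_antisymm ?_ ?_
  · rcases h2 y hy with h3 | h3
    · exact h3
    · exact absurd h3 (not_lt.2 hyx)
  · rcases h1 z hz with h3 | h3
    · exact h3
    · exact absurd h3 (not_lt.2 hzx)

private theorem c8a_cut {a C x y z : M} (hz : el z C) (hyz : y < z) (h : el x (pc a C y)) :
    x < z := by
  rcases (el_pc.1 h).2.2 z hz with h3 | h3
  · exact absurd h3 (not_le.2 hyz)
  · exact h3

theorem pc_lt {a C x x' y z : M} (hz : el z C) (hyz : y < z) (h : el x (pc a C y))
    (h' : el x' (pc a C z)) : x < x' :=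
  lt_of_lt_of_le (c8a_cut hz hyz h) (el_pc.1 h').2.1

theorem isum_zero {P : M → Prop} : Isum f c P 0 (emp M) :=
  ⟨emp M, fun _ h => h, card_emp, fun _ h => absurd h el_emp, fun _ h => absurd h el_emp,
    fun _ h => absurd h el_emp⟩

/-- adding a summand at the end -/
theorem isum_succ {P : M → Prop} {R a d : M} (h : Isum f c P R a) (hd : P d)
    (hne : ∃ x, el x d) (hx : ∀ x, el x a → ∀ y, el y d → x < y ∧ cl f c x y) :
    Isum f c P (R + 1) (un a d) := by
  obtain ⟨C, hCa, hCR, hcov, hP, hcol⟩ := h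
  obtain ⟨w, hw⟩ := hne
  have hm : el (mn d) d := el_mn hw
  have hlt : ∀ x, el x a → x < mn d := fun x hxa => (hx x hxa _ hm).1
  have hmC : ¬ el (mn d) C := fun h => absurd (hlt _ (hCa _ h)) (lt_irrefl _)
  refine ⟨un C (sg (mn d)), fun x hxC => ?_, ?_, fun x hxa => ?_, fun y hy => ?_, ?_⟩
  · rcases el_un.1 hxC with h1 | h1
    · exact el_un.2 (Or.inl (hCa x h1))
    · rw [el_sg.1 h1]
      exact el_un.2 (Or.inr hm)
  · rw [card_ins hmC, hCR]
  · rcases el_un.1 hxa with h1 | h1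
    · obtain ⟨y, hy, hyx⟩ := hcov x h1
      exact ⟨y, el_un.2 (Or.inl hy), hyx⟩
    · exact ⟨mn d, el_un.2 (Or.inr (el_sg.2 rfl)), mn_le h1⟩
  · rcases el_un.1 hy with h1 | h1
    · have he : pc (un a d) (un C (sg (mn d))) y = pc a C y := by
        refine fext fun x => ?_
        rw [el_pc, el_pc]
        refine ⟨fun h => ⟨?_, h.2.1, fun z hz => h.2.2 z (el_un.2 (Or.inl hz))⟩,
          fun h => ⟨el_un.2 (Or.inl h.1), h.2.1, fun z hz => ?_⟩⟩
        · rcases el_un.1 h.1 with h2 | h2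
          · exact h2
          · rcases h.2.2 (mn d) (el_un.2 (Or.inr (el_sg.2 rfl))) with h3 | h3
            · exact absurd (hlt y (hCa y h1)) (not_lt.2 h3)
            · exact absurd h3 (not_lt.2 (mn_le h2))
        · rcases el_un.1 hz with h2 | h2
          · exact h.2.2 z h2
          · rw [el_sg.1 h2]
            exact Or.inr (hlt x h.1)
      rw [he]
      exact hP y h1
    · have he : pc (un a d) (un C (sg (mn d))) y = d := by
        rw [el_sg.1 h1]
        refine fext fun x => ?_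
        rw [el_pc]
        refine ⟨fun h => ?_, fun h => ⟨el_un.2 (Or.inr h), mn_le h, fun z hz => ?_⟩⟩
        · rcases el_un.1 h.1 with h2 | h2
          · exact absurd (hlt x h2) (not_lt.2 h.2.1)
          · exact h2
        · rcases el_un.1 hz with h2 | h2
          · exact Or.inl (hlt z (hCa z h2)).le
          · exact Or.inl (el_sg.1 h2).le
      rw [he]
      exact hd
  · rintro x hxa z hza ⟨y, hy, hxy, hyz⟩
    rcases el_un.1 hxa with h1 | h1
    · rcases el_un.1 hza with h2 | h2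
      · refine hcol x h1 z h2 ⟨y, ?_, hxy, hyz⟩
        rcases el_un.1 hy with h3 | h3
        · exact h3
        · rw [el_sg.1 h3] at hyz
          exact absurd (hlt z h2) (not_lt.2 hyz)
      · exact (hx x h1 z h2).2
    · rcases el_un.1 hy with h3 | h3
      · exact absurd (hx y (hCa y h3) x h1).1 (not_lt.2 hxy.le)
      · rw [el_sg.1 h3] at hxy
        exact absurd hxy (not_lt.2 (mn_le h1))

/-- the sum of a sequence of blocks -/
theorem isum_seq {P : M → Prop} (hP : Comp M P) (hf : Comp M (fun q : M × M => f q.1 q.2))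
    {E : M → M} (hE : Comp M E) {R a : M} (hPE : ∀ i, i < R → P (E i))
    (hne : ∀ i, i < R → ∃ x, el x (E i))
    (hx : ∀ i j, i < j → j < R → ∀ x, el x (E i) → ∀ y, el y (E j) → x < y ∧ cl f c x y)
    (ha : ∀ x, el x a ↔ ∃ i, i < R ∧ el x (E i)) : Isum f c P R a := by
  obtain ⟨U, hU, hU'⟩ := exists_bigun (M := M) (Γ := M) (E := fun _ i => E i)
    (comp_comp E (fun q : M × M => q.2) hE (by fun_prop))
  have key : ∀ n, n ≤ R → Isum f c P n (U 0 n) := by
    refine cind (P := fun n => n ≤ R → Isum f c P n (U 0 n)) ?_ ?_ ?_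
    · refine comp_imp _ _ (by fun_prop) ?_
      exact comp_Isum hf c (P := fun _ : M => P) (comp_comp P (fun q : M × M => q.2) hP
        (by fun_prop)) (by fun_prop)
        (comp_comp (fun q : M × M => U q.1 q.2) (fun n : M => (0, n)) hU (by fun_prop))
    · intro _
      have h0 : U 0 0 = emp M := by
        refine fext fun x => ⟨fun h => ?_, fun h => absurd h el_emp⟩
        obtain ⟨i, hi, _⟩ := (hU' 0 0 x).1 h
        exact absurd hi (not_lt_zero' i)
      show Isum f c P 0 (U 0 0)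
      rw [h0]
      exact isum_zero
    · intro n ih hn
      have hnR : n < R := lt_of_lt_of_le (lt_self_succ n) hn
      have h1 : U 0 (n + 1) = un (U 0 n) (E n) := by
        refine fext fun x => ?_
        rw [el_un, hU' 0 (n + 1) x, hU' 0 n x]
        refine ⟨fun ⟨i, hi, hx⟩ => ?_, fun h => ?_⟩
        · rcases lt_or_eq_of_le (lt_succ.1 hi) with h2 | h2
          · exact Or.inl ⟨i, h2, hx⟩
          · rw [h2] at hx
            exact Or.inr hx
        · rcases h with ⟨i, hi, hx⟩ | h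
          · exact ⟨i, lt_trans hi (lt_self_succ n), hx⟩
          · exact ⟨n, lt_self_succ n, h⟩
      show Isum f c P (n + 1) (U 0 (n + 1))
      rw [h1]
      refine isum_succ (ih hnR.le) (hPE n hnR) (hne n hnR) fun x hxU y hy => ?_
      obtain ⟨i, hi, hxi⟩ := (hU' 0 n x).1 hxU
      exact hx i n hi hnR x hxi y hy
  have he : a = U 0 R := fext fun x => (ha x).trans (hU' 0 R x).symm
  rw [he]
  exact key R le_rfl

/-- the pieces of a cut set -/
private theorem c8a_pieces {P : M → Prop} {R a C : M} (hCa : Sub C a) (hCR : card C = R)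
    (hcov : ∀ x, el x a → ∃ y, el y C ∧ y ≤ x) (hP : ∀ y, el y C → P (pc a C y))
    (hcol : ∀ x, el x a → ∀ z, el z a → (∃ y, el y C ∧ (x < y ∧ y ≤ z)) → cl f c x z) :
    (∀ i, i < R → P (pc a C (nth C i)) ∧ Sub (pc a C (nth C i)) a) ∧
      (∀ i, i < R → ∃ x, el x (pc a C (nth C i))) ∧
      (∀ i j, i < j → j < R → ∀ x, el x (pc a C (nth C i)) → ∀ y, el y (pc a C (nth C j)) →
        x < y ∧ cl f c x y) ∧
      (∀ x, el x a ↔ ∃ i, i < R ∧ el x (pc a C (nth C i))) := by
  have hn : ∀ i, i < R → el (nth C i) C := fun i hi => el_nth (by rw [hCR]; exact hi)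
  refine ⟨fun i hi => ⟨hP _ (hn i hi), fun x hx => (el_pc.1 hx).1⟩, fun i hi => ?_, ?_,
    fun x => ⟨fun hx => ?_, fun ⟨i, _, hx⟩ => (el_pc.1 hx).1⟩⟩
  · refine ⟨nth C i, el_pc.2 ⟨hCa _ (hn i hi), le_rfl, fun z _ => ?_⟩⟩
    exact le_or_gt z (nth C i)
  · intro i j hij hj x hx y hy
    have hlt : nth C i < nth C j := nth_lt hij (by rw [hCR]; exact hj)
    have hj' := hn j hj
    refine ⟨pc_lt hj' hlt hx hy, ?_⟩
    exact hcol x (el_pc.1 hx).1 y (el_pc.1 hy).1
      ⟨nth C j, hj', c8a_cut hj' hlt hx, (el_pc.1 hy).2.1⟩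
  · obtain ⟨y, hy, hxy⟩ := pc_cover hcov hx
    obtain ⟨i, hi, hiy⟩ := exists_nth_eq hy
    refine ⟨i, by rw [← hCR]; exact hi, ?_⟩
    rw [hiy]
    exact hxy

/-- the summands of a sum as a sequence -/
theorem isum_elim (hf : Comp M (fun q : M × M => f q.1 q.2)) {P : M → Prop} {R a : M}
    (h : Isum f c P R a) : ∃ E : M → M, Comp M E ∧ (∀ i, i < R → P (E i) ∧ Sub (E i) a) ∧
      (∀ i, i < R → ∃ x, el x (E i)) ∧
      (∀ i j, i < j → j < R → ∀ x, el x (E i) → ∀ y, el y (E j) → x < y ∧ cl f c x y) ∧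
      (∀ x, el x a ↔ ∃ i, i < R ∧ el x (E i)) := by
  obtain ⟨C, hCa, hCR, hcov, hP, hcol⟩ := h
  exact ⟨fun i => pc a C (nth C i), by fun_prop, c8a_pieces hCa hCR hcov hP hcol⟩

/-- the summands, uniformly computable: a function `g` (independent of `P`, `R`) which gives the
`i`-th summand from the set, if the cut set is chosen as the least one -/
theorem isum_elimf (hf : Comp M (fun q : M × M => f q.1 q.2)) {P : M → M → Prop}
    (hP : Comp M (fun q : M × M => P q.1 q.2)) : ∃ g : M → M → M → M,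
      Comp M (fun q : M × M × M => g q.1 q.2.1 q.2.2) ∧
      ∀ R a, Isum f c (P R) R a → (∀ i, i < R → P R (g R a i) ∧ Sub (g R a i) a) ∧
        (∀ i, i < R → ∃ x, el x (g R a i)) ∧
        (∀ i j, i < j → j < R → ∀ x, el x (g R a i) → ∀ y, el y (g R a j) →
          x < y ∧ cl f c x y) ∧
        (∀ x, el x a ↔ ∃ i, i < R ∧ el x (g R a i)) := by
  have h1 : Comp M (fun q : (M × M) × M => Isum f c (P q.1.1) q.1.1 q.1.2 →
      (Sub q.2 q.1.2 ∧ (card q.2 = q.1.1 ∧ (∀ x, el x q.1.2 → ∃ y, el y q.2 ∧ y ≤ x) ∧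
      (∀ y, el y q.2 → P q.1.1 (pc q.1.2 q.2 y)) ∧
      ∀ x, el x q.1.2 → ∀ z, el z q.1.2 → (∃ y, el y q.2 ∧ (x < y ∧ y ≤ z)) → cl f c x z))) := by
    refine comp_imp _ _ ?_ ?_
    · exact comp_Isum hf c (P := fun (q : (M × M) × M) a => P q.1.1 a)
        (comp_comp (fun q : M × M => P q.1 q.2) (fun q : ((M × M) × M) × M => (q.1.1.1, q.2)) hP
          (by fun_prop)) (by fun_prop) (by fun_prop)
    · fun_prop
  obtain ⟨g, hg, hg'⟩ := search (M := M) (Γ := M × M) (Δ := M)
    (P := fun v C => Isum f c (P v.1) v.1 v.2 →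
      (Sub C v.2 ∧ (card C = v.1 ∧ (∀ x, el x v.2 → ∃ y, el y C ∧ y ≤ x) ∧
      (∀ y, el y C → P v.1 (pc v.2 C y)) ∧
      ∀ x, el x v.2 → ∀ z, el z v.2 → (∃ y, el y C ∧ (x < y ∧ y ≤ z)) → cl f c x z)))
    (sig_of_comp h1) (fun v => by
      by_cases h : Isum f c (P v.1) v.1 v.2
      · obtain ⟨C, hC⟩ := h
        exact ⟨C, fun _ => hC⟩
      · exact ⟨0, fun h' => absurd h' h⟩)
  refine ⟨fun R a i => pc a (g (R, a)) (nth (g (R, a)) i), ?_, fun R a h => ?_⟩
  · have h2 : Comp M (fun q : M × M × M => g (q.1, q.2.1)) :=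
      comp_comp g (fun q : M × M × M => (q.1, q.2.1)) hg (by fun_prop)
    fun_prop
  · obtain ⟨hCa, hCR, hcov, hPC, hcol⟩ := hg' (R, a) h
    exact c8a_pieces (P := P R) hCa hCR hcov hPC hcol

/-- sub-sums: if `r` of the summands contain sets with the property `Q`, there is an `r`-fold sum
of sets with the property `Q` inside `a` -/
theorem isum_sub (hf : Comp M (fun q : M × M => f q.1 q.2)) {Q : M → Prop} (hQ : Comp M Q)
    {E : M → M} (hE : Comp M E) {R r a I : M}
    (hx : ∀ i j, i < j → j < R → ∀ x, el x (E i) → ∀ y, el y (E j) → x < y ∧ cl f c x y)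
    (ha : ∀ i, i < R → Sub (E i) a) (hI : ∀ i, el i I → i < R ∧ ∃ d, Sub d (E i) ∧ Q d ∧ ∃ x, el x d)
    (hr : r ≤ card I) : ∃ d, Sub d a ∧ Isum f c Q r d := by
  obtain ⟨D, hD, hD'⟩ := search (M := M) (Γ := M) (Δ := M)
    (P := fun i d => el i I → (Sub d (E i) ∧ Q d ∧ 0 < card d))
    (sig_of_comp (by fun_prop)) (fun i => by
      by_cases h : el i I
      · obtain ⟨_, d, hd, hQd, hne⟩ := hI i h
        exact ⟨d, fun _ => ⟨hd, hQd, card_pos.2 hne⟩⟩
      · exact ⟨0, fun h' => absurd h' h⟩)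
  have hE' : Comp M (fun j => D (nth I j)) := by fun_prop
  obtain ⟨U, hU, hU'⟩ := exists_bigun (M := M) (Γ := M) (E := fun _ j => D (nth I j))
    (comp_comp (fun j => D (nth I j)) (fun q : M × M => q.2) hE' (by fun_prop))
  have hn : ∀ j, j < r → el (nth I j) I := fun j hj => el_nth (lt_of_lt_of_le hj hr)
  refine ⟨U 0 r, fun x hxU => ?_, ?_⟩
  · obtain ⟨j, hj, hxj⟩ := (hU' 0 r x).1 hxU
    have h1 := hn j hj
    exact ha _ (hI _ h1).1 x ((hD' _ h1).1 x hxj)
  · refine isum_seq hQ hf hE' (fun j hj => (hD' _ (hn j hj)).2.1)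
      (fun j hj => card_pos.1 (hD' _ (hn j hj)).2.2) ?_ (hU' 0 r)
    intro i j hij hj x hxi y hyj
    have hi : i < r := lt_trans hij hj
    exact hx _ _ (nth_lt hij (lt_of_lt_of_le hj hr)) (hI _ (hn j hj)).1 x
      ((hD' _ (hn i hi)).1 x hxi) y ((hD' _ (hn j hj)).1 y hyj)

end RT22P
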