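import Pool.Agent.RTP.C5b
import Pool.Agent.RTP.C8a

/-!
# Section 6: bad colourings contain all cliques, if `q ∈ C₁`

Let `f` be bad on `X` and suppose that `X` has no `1`-clique of size `r`.
* `c6_A`: every frequent pattern has a copy all of whose points have limit `0` (in every infinite
  `Y ⊆ X`): otherwise there is a block sequence `E k` of copies in `Y`, each with a point of limit `1`; the
  condition some position `i < l`, such that the `i`-th point of `E k` sees `1` to all of `E m` has limit true for all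
  `k`, so (`BPi.homog`) it holds for all pairs `k < m` of an infinite set; `ramsey` for the colouring by the least
  such position (`l` = size of the pattern) gives `r + 1` indices with the same position: a `1`-clique.
* `c6_B`: every infinite `Y ⊆ X` contains for every standard `n` a `0`-clique of `n + 1` points of limit `1`:
  `ramsey` gives a block sequence of `0`-cliques `E k` in `Y` of size `k + 1`; if at most `n` points of each have
  limit `1`, `choice` with `D k = k + 1`, `T k s` = the set of the first `n + 1` indices `i` with `f (nth (E k) i) s` gives an infinite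
  set of points of limit `0`.
-/

set_option autoImplicit false

namespace RT22P

open Env

/-- decreasing pattern of size `n + 1` -/
def Sp.dec : ℕ → Sp
  | 0 => .pt
  | n + 1 => .op false .pt (Sp.dec n)

/-- the class `C₁` -/
inductive C1 : Sp → Prop
  | pt : C1 .pt
  | ss {a b : Sp} : C1 a → C1 b → C1 (.op false a b)
  | ic (n : ℕ) {b : Sp} : C1 b → C1 (.op true (Sp.dec n) b)

variable {M : Type} [Env M]

/-- `a` is a clique of colour `c` -/
def Clq (f : M → M → Prop) (c : Bool) (a : M) : Prop :=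
  ∀ x, el x a → ∀ y, el y a → x < y → cl f c x y

private theorem c6_clq_sub {f : M → M → Prop} {c : Bool} {a b : M} (h : Clq f c a)
    (hb : Sub b a) : Clq f c b := fun x hx y hy => h x (hb x hx) y (hb y hy)

/-- standard `0`-cliques are copies of the decreasing pattern -/
theorem clq_dec {f : M → M → Prop} {n : ℕ} {a : M} (h : Clq f false a)
    (ha : card a = ((n + 1 : ℕ) : M)) : Cpy f (Sp.dec n) a := by
  induction n generalizing a with
  | zero =>
    rw [Nat.zero_add, Nat.cast_one] at ha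
    obtain ⟨x, rfl⟩ := card_eq_one.1 ha
    exact cpy_pt x
  | succ n ih =>
    have hpos : 0 < card a := by
      rw [ha, Nat.cast_add, Nat.cast_one]
      exact lt_of_le_of_lt (zero_le' _) (lt_self_succ _)
    obtain ⟨w, hw⟩ := card_pos.1 hpos
    have hm : el (mn a) a := el_mn hw
    have hsub : Sub (sg (mn a)) a := fun x hx => by
      rw [el_sg.1 hx]
      exact hm
    have hc := card_sdf hsub
    rw [card_sg, ha, Nat.cast_add _ 1, Nat.cast_one] at hc
    have hc' : card (sdf a (sg (mn a))) = ((n + 1 : ℕ) : M) := add_right_cancel hc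
    have hun : a = un (sg (mn a)) (sdf a (sg (mn a))) := by
      refine fext fun x => ?_
      rw [el_un, el_sdf, el_sg]
      constructor
      · intro hx
        by_cases hxm : x = mn a
        · exact Or.inl hxm
        · exact Or.inr ⟨hx, hxm⟩
      · rintro (hx | hx)
        · rw [hx]
          exact hm
        · exact hx.1
    have hlt : ∀ y, el y (sdf a (sg (mn a))) → mn a < y := by
      intro y hy
      obtain ⟨h1, h2⟩ := el_sdf.1 hy
      exact lt_of_le_of_ne (mn_le h1) fun h3 => h2 (el_sg.2 h3.symm)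
    have key : Cpy f (.op false .pt (Sp.dec n)) (un (sg (mn a)) (sdf a (sg (mn a)))) := by
      refine cpy_op (cpy_pt _) (ih (c6_clq_sub h fun x hx => (el_sdf.1 hx).1) hc') ?_
      intro x hx y hy
      rw [el_sg.1 hx]
      exact ⟨hlt y hy, h _ hm y (el_sdf.1 hy).1 (hlt y hy)⟩
    rw [← hun] at key
    exact key

/-- cliques are sums of points -/
theorem isum_clq {f : M → M → Prop} {c d : Bool} {R S a : M} :
    Isum f c (Tr f 0 d S) R a ↔ (Clq f c a ∧ card a = R) := by
  constructor
  · rintro ⟨C, hCa, hCR, hcov, hP, hcol⟩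
    have hall : Sub a C := by
      intro x hx
      obtain ⟨y, hy, hxy⟩ := pc_cover hcov hx
      obtain ⟨z, _, hz⟩ := hP y hy
      have h1 : el y (pc a C y) :=
        el_pc.2 ⟨hCa y hy, le_rfl, fun w _ => le_or_gt w y⟩
      rw [hz] at h1 hxy
      rw [el_sg.1 hxy, ← el_sg.1 h1]
      exact hy
    refine ⟨fun x hx z hz hxz => hcol x hx z hz ⟨z, hall z hz, hxz, le_rfl⟩, ?_⟩
    rw [← hCR, Sub.antisymm hall hCa]
  · rintro ⟨h, hR⟩
    refine ⟨a, Sub.refl a, hR, fun x hx => ⟨x, hx, le_rfl⟩, fun y hy => ?_, ?_⟩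
    · have he : pc a a y = sg y := by
        refine fext fun x => ?_
        rw [el_pc, el_sg]
        constructor
        · rintro ⟨h1, h2, h3⟩
          rcases h3 x h1 with h4 | h4
          · exact le_antisymm h4 h2
          · exact absurd h4 (lt_irrefl _)
        · intro hxy
          rw [hxy]
          exact ⟨hy, le_rfl, fun z _ => le_or_gt z y⟩
      exact ⟨y, by rw [he]; exact el_lt (el_sg.2 rfl), he⟩
    · rintro x hx z hz ⟨y, _, hxy, hyz⟩
      exact h x hx z hz (lt_of_lt_of_le hxy hyz)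

private theorem c6_lim {f : M → M → Prop} {X : Set M} (hf : Bad f X) {x : M} (hx : x ∈ X)
    {c : Bool} (h : ¬ Lim f X c x) : Lim f X (!c) x := by
  obtain ⟨d, hd⟩ := hf.stab x hx
  cases c <;> cases d
  · exact absurd hd h
  · exact hd
  · exact hd
  · exact absurd hd h

theorem c6_A {q : Sp} (h : RTp M q) (hB : BPi M) {f : M → M → Prop} {X : Set M} (hf : Bad f X)
    {r : M} (hr : ¬ ∃ a, FS a X ∧ card a = r ∧ Clq f true a) (p : Sp) {Y : Set M} (hY : IS Y)
    (hYX : Y ⊆ X) (hp : Freq f Y p) : ∃ a, FS a Y ∧ Cpy f p a ∧ ∀ x, el x a → Lim f X false x := by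
  by_contra hcon
  have hcf : ∀ {Γ : Type} [Enc M Γ] (g h : Γ → M), Comp M g → Comp M h →
      Comp M (fun v => cl f true (g v) (h v)) := fun g h hg hh =>
    comp_clF f hf.comp true g h hg hh
  obtain ⟨E, hE, hE'⟩ := Freq.blk hf.comp hp hY
  have hEc := hE.comp
  -- the size of the copies
  have hcard : ∀ k, card (E k) = ((p.size : ℕ) : M) := fun k => (hE' k).2.card
  set l : M := ((p.size : ℕ) : M) with hl
  -- a point with limit `1` in every copy
  have hpt : ∀ k, ∃ i, i < l ∧ Lim f X true (nth (E k) i) := by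
    intro k
    by_contra h1
    refine hcon ⟨E k, (hE' k).1, (hE' k).2, fun x hx => ?_⟩
    obtain ⟨i, hi, hix⟩ := exists_nth_eq hx
    rw [hcard k] at hi
    refine c6_lim (c := true) hf (hYX ((hE' k).1 x hx)) fun h2 => ?_
    rw [← hix] at h2
    exact h1 ⟨i, hi, h2⟩
  -- the condition on pairs
  have hG : Comp M (fun v : (M × M) × M => v.2 < l ∧ ∀ y, el y (E v.1.2) →
      cl f true (nth (E v.1.1) v.2) y) := by
    refine comp_and _ _ (by fun_prop) ?_
    refine comp_allel (fun v : (M × M) × M => E v.1.2) (fun v y => cl f true (nth (E v.1.1) v.2) y)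
      (by fun_prop) ?_
    exact hcf _ _ (by fun_prop) (by fun_prop)
  have hR : Comp M (fun v : M × M => ∃ i, i < l ∧ ∀ y, el y (E v.2) →
      cl f true (nth (E v.1) i) y) := by
    refine comp_bex (fun _ : M × M => l) (fun v i => ∀ y, el y (E v.2) →
      cl f true (nth (E v.1) i) y) (by fun_prop) ?_
    refine comp_allel (fun v : (M × M) × M => E v.1.2) (fun v y => cl f true (nth (E v.1.1) v.2) y)
      (by fun_prop) ?_
    exact hcf _ _ (by fun_prop) (by fun_prop)
  obtain ⟨Z, hZ, -, hZR⟩ := BPi.homog hB (is_univ (M := M)) (R := fun k m => ∃ i, i < l ∧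
    ∀ y, el y (E m) → cl f true (nth (E k) i) y) hR (fun k _ => by
      obtain ⟨i, hi, b, hb⟩ := hpt k
      refine ⟨b, fun m _ hm => ⟨i, hi, fun y hy => ?_⟩⟩
      exact hb y (hYX ((hE' m).1 y hy)) (le_trans hm (hE.le hy)))
  -- the colouring
  obtain ⟨c, hc, hc'⟩ := search (M := M) (Γ := M × M) (Δ := M)
    (P := fun v i => (∃ i, i < l ∧ ∀ y, el y (E v.2) → cl f true (nth (E v.1) i) y) →
      (i < l ∧ ∀ y, el y (E v.2) → cl f true (nth (E v.1) i) y))
    (sig_of_comp (comp_imp _ _ (comp_comp (fun v : M × M => ∃ i, i < l ∧ ∀ y, el y (E v.2) →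
      cl f true (nth (E v.1) i) y) (fun v : (M × M) × M => v.1) hR (by fun_prop)) hG))
    (fun v => by
      by_cases h1 : ∃ i, i < l ∧ ∀ y, el y (E v.2) → cl f true (nth (E v.1) i) y
      · obtain ⟨i, hi⟩ := h1
        exact ⟨i, fun _ => hi⟩
      · exact ⟨0, fun h2 => absurd h2 h1⟩)
  obtain ⟨N, hN⟩ := ramsey (r + 1 + 1) l
  obtain ⟨a, haZ, haN, -⟩ := exists_fin hZ 0 N
  have hcl : ∀ x y, el x a → el y a → x < y → (c (x, y) < l ∧ ∀ z, el z (E y) →
      cl f true (nth (E x) (c (x, y))) z) := fun x y hx hy hxy =>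
    hc' (x, y) (hZR x (haZ x hx) y (haZ y hy) hxy)
  obtain ⟨b, hba, hbr, i, hbi⟩ := hN a (fun x y => c (x, y)) haN.ge hc
    (fun x y hx hy hxy => (hcl x y hx hy hxy).1)
  -- the position is smaller than `l`
  have h2 : ∃ x y, el x b ∧ el y b ∧ x < y := by
    have h3 : (0 : M) < card b := by
      rw [hbr]
      exact lt_of_le_of_lt (zero_le' _) (lt_self_succ _)
    have h4 : (0 : M) + 1 < card b := by
      rw [hbr]
      exact add_lt_add_of_lt_of_le (lt_of_le_of_lt (zero_le' _) (lt_self_succ _)) le_rfl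
    exact ⟨nth b 0, nth b (0 + 1), el_nth h3, el_nth h4, nth_lt (lt_self_succ _) h4⟩
  have hil : i < l := by
    obtain ⟨x, y, hx, hy, hxy⟩ := h2
    rw [← hbi x y hx hy hxy]
    exact (hcl x y (hba x hx) (hba y hy) hxy).1
  have hci : ∀ x y, el x b → el y b → x < y → ∀ z, el z (E y) → cl f true (nth (E x) i) z := by
    intro x y hx hy hxy
    have h3 := (hcl x y (hba x hx) (hba y hy) hxy).2
    rw [hbi x y hx hy hxy] at h3
    exact h3
  have hin : ∀ k, el (nth (E k) i) (E k) := fun k => el_nth (by rw [hcard k]; exact hil)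
  have hmono : ∀ x y, x < y → nth (E x) i < nth (E y) i := fun x y hxy =>
    hE.lt x y hxy _ _ (hin x) (hin y)
  obtain ⟨d, hd, -⟩ := exists_image (f := fun k => nth (E k) i) (by fun_prop) b
  have hdb : card b ≤ card d := by
    refine card_le_of_inj (f := fun k => nth (E k) i) (by fun_prop)
      (fun x hx => (hd _).2 ⟨x, hx, rfl⟩) ?_
    intro x y _ _ hxy
    rcases lt_trichotomy x y with h3 | h3 | h3
    · exact absurd hxy (hmono x y h3).ne
    · exact h3
    · exact absurd hxy (hmono y x h3).ne'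
  obtain ⟨e, hed, hec⟩ := exists_sub_card (a := d) (k := r) (by
    refine le_trans ?_ hdb
    rw [hbr, add_assoc]
    exact le_self_add)
  refine hr ⟨e, fun x hx => ?_, hec, fun x hx y hy hxy => ?_⟩
  · obtain ⟨k, hk, rfl⟩ := (hd x).1 (hed x hx)
    exact hYX ((hE' k).1 _ (hin k))
  · obtain ⟨k, hk, rfl⟩ := (hd x).1 (hed x hx)
    obtain ⟨m, hm, rfl⟩ := (hd y).1 (hed y hy)
    have hkm : k < m := by
      by_contra hcon'
      rcases lt_or_eq_of_le (not_lt.1 hcon') with h3 | h3
      · exact absurd hxy (not_lt.2 (hmono m k h3).le)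
      · rw [h3] at hxy
        exact absurd hxy (lt_irrefl _)
    exact hci k m hk hm hkm _ (hin m)

/-- arbitrarily large `0`-cliques, if there is no large `1`-clique -/
private theorem c6_ramsey {f : M → M → Prop} {X : Set M}
    (hfc : Comp M (fun q : M × M => f q.1 q.2))
    {r : M} (hr : ¬ ∃ a, FS a X ∧ card a = r ∧ Clq f true a) {Y : Set M} (hY : IS Y)
    (hYX : Y ⊆ X) (k b : M) :
    ∃ a, (FS a Y ∧ card a = k + 1 ∧ Clq f false a) ∧ ∀ x, el x a → b < x := by
  classical
  obtain ⟨N, hN⟩ := ramsey (M := M) (r + (k + 1)) 2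
  obtain ⟨a, haY, haN, hab⟩ := exists_fin hY b N
  have h0 : (0 : M) < 2 := two_pos
  have h1 : (1 : M) < 2 := one_lt_two
  have h01 : (0 : M) ≠ 1 := zero_ne_one
  have hcc : Comp M (fun q : M × M => if f q.1 q.2 then (1 : M) else 0) :=
    comp_ite hfc (by fun_prop) (by fun_prop)
  obtain ⟨d, hda, hdc, i, hdi⟩ := hN a (fun x y => if f x y then (1 : M) else 0) haN.ge hcc
    (fun x y _ _ _ => by
      show (if f x y then (1 : M) else 0) < 2
      split_ifs
      · exact h1
      · exact h0)
  by_cases hi : i = 1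
  · exfalso
    obtain ⟨e, hed, hec⟩ := exists_sub_card (a := d) (k := r) (by rw [hdc]; exact le_self_add)
    refine hr ⟨e, fun x hx => hYX (haY x (hda x (hed x hx))), hec, fun x hx y hy hxy => ?_⟩
    have h2 := hdi x y (hed x hx) (hed y hy) hxy
    unfold cl
    by_contra h3
    have h4 : ¬ f x y := fun h5 => h3 ⟨fun _ => rfl, fun _ => h5⟩
    simp only [if_neg h4] at h2
    exact h01 (h2.trans hi)
  · obtain ⟨e, hed, hec⟩ := exists_sub_card (a := d) (k := k + 1) (by rw [hdc]; exact le_add_self)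
    refine ⟨e, ⟨fun x hx => haY x (hda x (hed x hx)), hec, fun x hx y hy hxy => ?_⟩,
      fun x hx => hab x (hda x (hed x hx))⟩
    have h2 := hdi x y (hed x hx) (hed y hy) hxy
    unfold cl
    refine ⟨fun h3 => ?_, fun h3 => absurd h3 Bool.false_ne_true⟩
    simp only [if_pos h3] at h2
    exact absurd h2.symm hi

theorem c6_B {q : Sp} (h : RTp M q) (hB : BPi M) {f : M → M → Prop} {X : Set M} (hf : Bad f X)
    {r : M} (hr : ¬ ∃ a, FS a X ∧ card a = r ∧ Clq f true a) (n : ℕ) {Y : Set M} (hY : IS Y)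
    (hYX : Y ⊆ X) : ∃ a, FS a Y ∧ Cpy f (Sp.dec n) a ∧ ∀ x, el x a → Lim f X true x := by
  classical
  by_contra hcon
  have hfc := hf.comp
  -- a sequence of `0`-cliques
  have hP : Comp M (fun q : M × M => FS q.2 Y ∧ card q.2 = q.1 + 1 ∧ Clq f false q.2) := by
    refine comp_and _ _ (comp_FS hY.comp _ (by fun_prop)) (comp_and _ _ (by fun_prop) ?_)
    unfold Clq
    refine comp_allel (fun q : M × M => q.2) (fun q x => ∀ y, el y q.2 → x < y → cl f false x y)
      (by fun_prop) ?_
    refine comp_allel (fun q : (M × M) × M => q.1.2) (fun q y => q.2 < y → cl f false q.2 y)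
      (by fun_prop) ?_
    exact comp_imp _ _ (by fun_prop) (comp_clF f hfc false _ _ (by fun_prop) (by fun_prop))
  obtain ⟨E, hE, hE'⟩ := exists_blk (P := fun k a => FS a Y ∧ card a = k + 1 ∧ Clq f false a)
    (sig_of_comp hP) (fun k b => by
      obtain ⟨a, ha, hab⟩ := c6_ramsey hfc hr hY hYX k b
      refine ⟨a, ha, ?_, hab⟩
      rw [← card_pos, ha.2.1]
      exact lt_of_le_of_lt (zero_le' _) (lt_self_succ _))
  have hEc := hE.comp
  obtain ⟨e, he, hem, hei, heX, -⟩ := enum hf.is
  -- the points of `E k` with colour `1` at stage `s`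
  have hfe : Comp M (fun q : (M × M) × M => f q.2 (e q.1.2)) :=
    comp_comp (fun q : M × M => f q.1 q.2) (fun q : (M × M) × M => (q.2, e q.1.2)) hfc
      (by fun_prop)
  obtain ⟨W, hW, hW'⟩ := Env.c_code (M := M) (Γ := M × M) (b := fun v => E v.1)
    (P := fun q => el q.2 (E q.1.1) ∧ f q.2 (e q.1.2)) (by fun_prop)
    (comp_and _ _ (by fun_prop) hfe)
  have hWel : ∀ k s x, el x (W (k, s)) ↔ el x (E k) ∧ f x (e s) := by
    intro k s x
    rw [hW' (k, s) x]
    exact ⟨fun h1 => h1.2, fun h1 => ⟨el_lt h1.1, h1⟩⟩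
  -- the trace
  obtain ⟨T, hT, hT'⟩ := Env.c_code (M := M) (Γ := M × M) (b := fun v => v.1 + 1)
    (P := fun q => el (nth (E q.1.1) q.2) (W q.1) ∧ card (W q.1) ≤ (n : M)) (by fun_prop)
    (by fun_prop)
  -- stages
  have hstage : ∀ k, ∃ b, ∀ s, b ≤ s → W (k, s) = W (k, b) := by
    intro k
    have hT1 : Comp M (fun q : M × M => if el q.1 (E k) ∧ f q.1 (e q.2) then (1 : M) else 0) := by
      refine comp_ite (comp_and _ _ (by fun_prop) ?_) (by fun_prop) (by fun_prop)
      exact comp_comp (fun q : M × M => f q.1 q.2) (fun q : M × M => (q.1, e q.2)) hfc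
        (by fun_prop)
    obtain ⟨b, hb⟩ := BPi.stab hB (T := fun x y => if el x (E k) ∧ f x (e y) then (1 : M) else 0)
      hT1 (E k) (fun x _ => by
        by_cases hx : el x (E k)
        · obtain ⟨c, b, hb⟩ := hf.stab x (hYX ((hE' k).1 x hx))
          refine ⟨b, fun y hy => ?_⟩
          have h1 := hb (e y) (heX y) (le_trans hy (hei y))
          have h2 := hb (e b) (heX b) (hei b)
          unfold cl at h1 h2
          have h3 : (el x (E k) ∧ f x (e y)) ↔ (el x (E k) ∧ f x (e b)) :=
            and_congr_right fun _ => h1.trans h2.symm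
          simp only [h3]
        · exact ⟨0, fun y _ => by simp only [hx, false_and]⟩)
    refine ⟨b, fun s hs => fext fun x => ?_⟩
    rw [hWel, hWel]
    by_cases hx : el x (E k)
    · have h1 := hb x (el_lt hx) s hs
      by_cases h2 : f x (e s) <;> by_cases h3 : f x (e b)
      · exact ⟨fun _ => ⟨hx, h3⟩, fun _ => ⟨hx, h2⟩⟩
      · simp only [hx, h2, h3, and_true, and_false, if_true, if_false] at h1
        exact absurd h1 one_ne_zero
      · simp only [hx, h2, h3, and_true, and_false, if_true, if_false] at h1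
        exact absurd h1 zero_ne_one
      · exact ⟨fun h4 => absurd h4.2 h2, fun h4 => absurd h4.2 h3⟩
    · exact ⟨fun h4 => absurd h4.1 hx, fun h4 => absurd h4.1 hx⟩
  have hlim : ∀ k b, (∀ s, b ≤ s → W (k, s) = W (k, b)) → ∀ x, el x (E k) →
      (el x (W (k, b)) ↔ Lim f X true x) := by
    intro k b hb x hx
    obtain ⟨c, b', hb'⟩ := hf.stab x (hYX ((hE' k).1 x hx))
    have h1 := hb' (e (b + b')) (heX _) (le_trans le_add_self (hei _))
    have h2 : el x (W (k, b)) ↔ f x (e (b + b')) := by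
      rw [← hb (b + b') le_self_add, hWel]
      exact ⟨fun h3 => h3.2, fun h3 => ⟨hx, h3⟩⟩
    rw [h2]
    unfold cl at h1
    rw [h1]
    constructor
    · intro h3
      rw [h3] at hb'
      exact ⟨b', hb'⟩
    · intro h3
      exact Lim.unique hf.is ⟨b', hb'⟩ h3
  -- the limit trace is small
  have hsmall : ∀ k b, (∀ s, b ≤ s → W (k, s) = W (k, b)) → card (W (k, b)) ≤ (n : M) := by
    intro k b hb
    by_contra h1
    obtain ⟨a, ha, hac⟩ := exists_sub_card (a := W (k, b)) (k := ((n + 1 : ℕ) : M)) (by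
      rw [Nat.cast_add, Nat.cast_one]
      exact succ_le_iff.2 (not_le.1 h1))
    have hsE : Sub a (E k) := fun x hx => ((hWel k b x).1 (ha x hx)).1
    refine hcon ⟨a, fun x hx => (hE' k).1 x (hsE x hx), ?_, fun x hx => ?_⟩
    · exact clq_dec (c6_clq_sub (hE' k).2.2 hsE) hac
    · exact (hlim k b hb x (hsE x hx)).1 (ha x hx)
  have hnk : ∀ k i, i < k + 1 → el (nth (E k) i) (E k) := fun k i hi =>
    el_nth (by rw [(hE' k).2.1]; exact hi)
  obtain ⟨nn, ii, hnn, hii, hjn, hmn, hiD, hav⟩ := choice h hB (bad_ncs hf)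
    (D := fun k => k + 1) (by fun_prop) (fun b => ⟨b, lt_self_succ b⟩)
    (T := fun k s => T (k, s)) hT (n : M) (fun k s => by
      by_cases h1 : card (W (k, s)) ≤ (n : M)
      · refine le_trans (card_le_of_inj (f := fun i => nth (E k) i) (by fun_prop)
          (b := W (k, s)) (fun i hi => ((hT' (k, s) i).1 hi).2.1) ?_) h1
        intro i j hi hj hij
        refine nth_inj (a := E k) ?_ ?_ hij
        · rw [(hE' k).2.1]
          exact ((hT' (k, s) i).1 hi).1
        · rw [(hE' k).2.1]
          exact ((hT' (k, s) j).1 hj).1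
      · have h2 : card (T (k, s)) = 0 := card_eq_zero.2 fun i hi =>
          h1 ((hT' (k, s) i).1 hi).2.2
        rw [h2]
        exact zero_le' _)
    (fun k => by
      obtain ⟨b, hb⟩ := hstage k
      refine ⟨b, fun s hs => fext fun i => ?_⟩
      rw [hT' (k, s) i, hT' (k, b) i, hb s hs])
  -- the chosen points
  have hx : ∀ j, el (nth (E (nn j)) (ii j)) (E (nn j)) := fun j => hnk _ _ (hiD j)
  have hxl : ∀ j, Lim f X false (nth (E (nn j)) (ii j)) := by
    intro j
    refine c6_lim (c := true) hf (hYX ((hE' _).1 _ (hx j))) fun h1 => ?_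
    obtain ⟨b, hb⟩ := hstage (nn j)
    obtain ⟨b', hb'⟩ := hav j
    have h2 : el (nth (E (nn j)) (ii j)) (W (nn j, b + b')) := by
      rw [hb (b + b') le_self_add]
      exact (hlim _ b hb _ (hx j)).2 h1
    refine hb' (b + b') le_add_self ((hT' (nn j, b + b') (ii j)).2 ⟨hiD j, h2, ?_⟩)
    show card (W (nn j, b + b')) ≤ (n : M)
    rw [hb (b + b') le_self_add]
    exact hsmall _ b hb
  obtain ⟨hZ, -⟩ := is_range (e := fun j => nth (E (nn j)) (ii j)) (by fun_prop)
    (fun j => hE.lt _ _ (hmn j (j + 1) (lt_self_succ j)) _ _ (hx j) (hx (j + 1)))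
  refine hf.bad _ hZ ?_ false ?_
  · rintro _ ⟨j, rfl⟩
    exact hYX ((hE' _).1 _ (hx j))
  · rintro _ ⟨j, rfl⟩
    exact hxl j

/-- typed copies followed by copies of a frequent pattern -/
private theorem c6_op {f : M → M → Prop} {X : Set M} {p q : Sp} {c : Bool}
    (h : ∀ Y : Set M, IS Y → Y ⊆ X → ∃ a, FS a Y ∧ Cpy f p a ∧ ∀ x, el x a → Lim f X c x)
    (hq : Freq f X q) : Freq f X (.op c p q) := by
  intro Y hY hYX
  obtain ⟨a, haY, ha, hl⟩ := h Y hY hYX
  obtain ⟨t, ht⟩ := Cpy.settle ha hl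
  obtain ⟨b, hbY, hb, hbt⟩ := Freq.above (Freq.mono hq hYX) hY (t + a)
  refine ⟨un a b, fun x hx => ?_, cpy_op ha hb fun x hx y hy => ⟨?_, ?_⟩⟩
  · rcases el_un.1 hx with h1 | h1
    · exact haY x h1
    · exact hbY x h1
  · exact lt_trans (el_lt hx) (lt_of_le_of_lt le_add_self (hbt y hy))
  · exact ht x hx y (hYX (hbY y hy)) (le_trans le_self_add (hbt y hy).le)

private theorem c6_p1 {q : Sp} (hq : C1 q) (h : RTp M q) (hB : BPi M) {f : M → M → Prop}
    {X : Set M} (hf : Bad f X) (r : M) : ∃ a, FS a X ∧ card a = r ∧ Clq f true a := by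
  by_contra hr
  have key : ∀ p, C1 p → Freq f X p := by
    intro p hp
    induction hp with
    | pt =>
      intro Y hY _
      obtain ⟨x, hx, -⟩ := hY.unb 0
      refine ⟨sg x, fun y hy => ?_, cpy_pt x⟩
      rw [el_sg.1 hy]
      exact hx
    | ss ha hb iha ihb =>
      exact c6_op (fun Y hY hYX => c6_A h hB hf hr _ hY hYX (Freq.mono iha hYX)) ihb
    | ic n hb ihb =>
      exact c6_op (fun Y hY hYX => c6_B h hB hf hr n hY hYX) ihb
  exact RTp.not_freq h hf.comp hf.is (key q hq)

/-- (P1) -/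
theorem p1 {q : Sp} (hq : C1 q) (h : RTp M q) (hB : BPi M) {f : M → M → Prop} {X : Set M}
    (hf : Bad f X) (c : Bool) (r : M) : ∃ a, FS a X ∧ card a = r ∧ Clq f c a := by
  cases c
  · obtain ⟨a, haX, har, ha⟩ := c6_p1 hq h hB hf.not r
    refine ⟨a, haX, har, fun x hx y hy hxy => ?_⟩
    have h1 := ha x hx y hy hxy
    unfold cl at h1 ⊢
    simpa using h1
  · exact c6_p1 hq h hB hf r

end RT22P
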