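import Pool.Agent.RTP.C6

/-!
# Section 7: the block lemma

`g k m` iff some nonempty `Q`-set `b ⊆ E k` has `f = 1` on `b × E m`.  `g` is stable (`BPi.settle`), with limit `1` iff
some `Q`-set inside `E k` has only points of limit `1`.  A `1`-clique of `g` of the size given by `ramsey (r + 1) (pw N)`
(colour of `k < m` = the set of positions in `E k` of the least such `b`) gives `r` indices with the same positions
and so an `r`-fold `1`-sum of `Q`-sets (`isum_seq`).  So by `p1` `g` is not bad on the set of all indices; if all limits on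
an infinite set were `1`, `BPi.homog` would give large `1`-cliques.
-/

set_option autoImplicit false

namespace RT22P

open Env

variable {M : Type} [Env M]

/-- the limits of the elements of a finite set settle, with both colours at the same time -/
theorem c7_settle (hB : BPi M) {f : M → M → Prop} (hf : Comp M (fun q : M × M => f q.1 q.2))
    {X : Set M} (hX : IS X) (a : M) (hs : ∀ x, el x a → ∃ c, Lim f X c x) :
    ∃ b, ∀ x, el x a → ∀ c, Lim f X c x → ∀ y ∈ X, b ≤ y → cl f c x y := by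
  obtain ⟨e, he, hmono, hle, heX, hsurj⟩ := enum hX
  obtain ⟨F, hF, hF'⟩ := c_code (M := M) (Γ := M × M) (b := fun _ => 1)
    (P := fun q : (M × M) × M => el q.1.1 a ∧ f q.1.1 (e q.1.2)) (by fun_prop) (by fun_prop)
  have hiff : ∀ x y y', el x a → (F (x, y) = F (x, y') ↔ (f x (e y) ↔ f x (e y'))) := by
    intro x y y' hx
    constructor
    · intro h
      have h1 := hF' (x, y) 0
      have h2 := hF' (x, y') 0
      rw [h, h2] at h1
      have h3 : (0 : M) < 1 := zero_lt_one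
      constructor
      · intro h4
        exact (h1.2 ⟨h3, hx, h4⟩).2.2
      · intro h4
        exact (h1.1 ⟨h3, hx, h4⟩).2.2
    · intro h
      refine fext fun z => ?_
      rw [hF' (x, y) z, hF' (x, y') z]
      show z < 1 ∧ el x a ∧ f x (e y) ↔ z < 1 ∧ el x a ∧ f x (e y')
      rw [h]
  obtain ⟨b, hb⟩ := BPi.stab hB (T := fun x y => F (x, y)) (by fun_prop) a (by
    intro x _
    by_cases hx : el x a
    · obtain ⟨c, b0, hb0⟩ := hs x hx
      refine ⟨b0, fun y hy => (hiff x y b0 hx).2 ?_⟩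
      have h1 := hb0 (e y) (heX y) (le_trans hy (hle y))
      have h2 := hb0 (e b0) (heX b0) (hle b0)
      exact Iff.trans h1 h2.symm
    · refine ⟨0, fun y _ => fext fun z => ?_⟩
      rw [hF' (x, y) z, hF' (x, 0) z]
      exact ⟨fun h => absurd h.2.1 hx, fun h => absurd h.2.1 hx⟩)
  refine ⟨e b, fun x hx c hc y hy hby => ?_⟩
  obtain ⟨b1, hb1⟩ := hc
  obtain ⟨n, rfl⟩ := hsurj y hy
  have hbn : b ≤ n := by
    by_contra hcon
    exact absurd (hmono n b (not_le.1 hcon)) (not_lt.2 hby)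
  have h1 := hb x (el_lt hx) n hbn
  have h2 := hb x (el_lt hx) (n + b1) (le_trans hbn le_self_add)
  have h3 : f x (e n) ↔ f x (e (n + b1)) := (hiff x n (n + b1) hx).1 (h1.trans h2.symm)
  have h4 := hb1 (e (n + b1)) (heX _) (le_trans le_add_self (hle _))
  exact Iff.trans h3 h4

theorem block_lemma {q : Sp} (hq : C1 q) (h : RTp M q) (hB : BPi M) {f : M → M → Prop}
    {X : Set M} (hf : Bad f X) {Q : M → Prop} (hQ : Comp M Q) (hne : ∀ a, Q a → ∃ x, el x a)
    {r : M} (hno : ¬ ∃ a, FS a X ∧ Isum f true Q r a) {E : M → M} (hE : Blk E)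
    (hEX : ∀ k, FS (E k) X) {N : M} (hN : ∀ k, card (E k) ≤ N) :
    ∃ Z : Set M, IS Z ∧ ∀ k ∈ Z, ∀ b, Sub b (E k) → Q b → ¬ ∀ x, el x b → Lim f X true x := by
  have hfc := hf.comp
  have hEc := hE.comp
  have hG : Comp M (fun v : M × M => ∃ b, Sub b (E v.1) ∧
      (Q b ∧ ∀ x, el x b → ∀ y, el y (E v.2) → f x y)) := by fun_prop
  -- no large cliques
  obtain ⟨N', hN'⟩ := ramsey (M := M) (r + 1) (pw N)
  have hbig : ∀ a, N' ≤ card a → ¬ ∀ k, el k a → ∀ m, el m a → k < m →
      ∃ b, Sub b (E k) ∧ (Q b ∧ ∀ x, el x b → ∀ y, el y (E m) → f x y) := by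
    intro a ha hcl
    obtain ⟨bb, hbb, hbb'⟩ := search (M := M) (Γ := M × M) (Δ := M)
      (P := fun v b => (∃ b, Sub b (E v.1) ∧
        (Q b ∧ ∀ x, el x b → ∀ y, el y (E v.2) → f x y)) →
        (Sub b (E v.1) ∧ (Q b ∧ ∀ x, el x b → ∀ y, el y (E v.2) → f x y)))
      (sig_of_comp (by fun_prop)) (fun v => by
        by_cases h1 : ∃ b, Sub b (E v.1) ∧ (Q b ∧ ∀ x, el x b → ∀ y, el y (E v.2) → f x y)
        · obtain ⟨b, hb⟩ := h1
          exact ⟨b, fun _ => hb⟩
        · exact ⟨0, fun h2 => absurd h2 h1⟩)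
    obtain ⟨col, hcol, hcol'⟩ := c_code (M := M) (Γ := M × M) (b := fun _ => N)
      (P := fun q : (M × M) × M => q.2 < card (E q.1.1) ∧ el (nth (E q.1.1) q.2) (bb q.1))
      (by fun_prop) (by fun_prop)
    obtain ⟨a', ha', hcard, i, hi⟩ := hN' a (fun k m => col (k, m)) ha (by fun_prop)
      (fun k m _ _ _ => el_pw fun p hp => ((hcol' (k, m) p).1 hp).1)
    -- the chosen set is determined by the colour
    have hsame : ∀ k m m', el k a' → el m a' → el m' a' → k < m → k < m' → ∀ x,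
        el x (bb (k, m)) → el x (bb (k, m')) := by
      intro k m m' hk hm hm' hkm hkm' x hx
      have h1 := (hbb' (k, m) (hcl k (ha' k hk) m (ha' m hm) hkm)).1 x hx
      obtain ⟨p, hp, hpx⟩ := exists_nth_eq h1
      have h2 : el p (col (k, m)) := by
        rw [hcol' (k, m) p]
        refine ⟨lt_of_lt_of_le hp (hN k), hp, ?_⟩
        show el (nth (E k) p) (bb (k, m))
        rw [hpx]
        exact hx
      have h3 : col (k, m) = i := hi k m hk hm hkm
      have h4 : col (k, m') = i := hi k m' hk hm' hkm'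
      rw [h3, ← h4, hcol' (k, m') p] at h2
      have h5 : el (nth (E k) p) (bb (k, m')) := h2.2.2
      rw [hpx] at h5
      exact h5
    have hel : ∀ s, s < r + 1 → el (nth a' s) a' := fun s hs => el_nth (by rw [hcard]; exact hs)
    have hD : Comp M (fun s => bb (nth a' s, nth a' (s + 1))) := by fun_prop
    have hspec : ∀ s, s < r → Sub (bb (nth a' s, nth a' (s + 1))) (E (nth a' s)) ∧
        Q (bb (nth a' s, nth a' (s + 1))) := by
      intro s hs
      have h1 : s + 1 < r + 1 := by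
        rw [lt_succ]
        exact succ_le_iff.2 hs
      have h2 : s < r + 1 := lt_trans hs (lt_self_succ r)
      have h3 := hbb' (nth a' s, nth a' (s + 1)) (hcl _ (ha' _ (hel s h2)) _
        (ha' _ (hel (s + 1) h1)) (nth_lt (lt_self_succ s) (by rw [hcard]; exact h1)))
      exact ⟨h3.1, h3.2.1⟩
    obtain ⟨U, hU, hU'⟩ := exists_bigun (M := M) (Γ := M)
      (E := fun _ s => bb (nth a' s, nth a' (s + 1))) (by fun_prop)
    refine hno ⟨U 0 r, fun x hx => ?_, ?_⟩
    · obtain ⟨s, hs, hxs⟩ := (hU' 0 r x).1 hx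
      exact hEX _ x ((hspec s hs).1 x hxs)
    · refine isum_seq hQ hfc hD (fun s hs => (hspec s hs).2)
        (fun s hs => hne _ (hspec s hs).2) ?_ (hU' 0 r)
      intro s t hst ht x hx y hy
      have hs : s < r := lt_trans hst ht
      have hs1 : s < r + 1 := lt_trans hs (lt_self_succ r)
      have ht1 : t < r + 1 := lt_trans ht (lt_self_succ r)
      have hlt : nth a' s < nth a' t := nth_lt hst (by rw [hcard]; exact ht1)
      have hxE := (hspec s hs).1 x hx
      have hyE := (hspec t ht).1 y hy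
      refine ⟨hE.lt _ _ hlt x y hxE hyE, ?_⟩
      have h1 : s + 1 < r + 1 := by
        rw [lt_succ]
        exact succ_le_iff.2 hs
      have h2 := hsame (nth a' s) (nth a' (s + 1)) (nth a' t) (hel s hs1) (hel _ h1) (hel t ht1)
        (nth_lt (lt_self_succ s) (by rw [hcard]; exact h1)) hlt x hx
      have h3 := (hbb' (nth a' s, nth a' t) (hcl _ (ha' _ (hel s hs1)) _ (ha' _ (hel t ht1))
        hlt)).2.2 x h2 y hyE
      exact ⟨fun _ => rfl, fun _ => h3⟩
  -- the colouring of the indices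
  set g : M → M → Prop := fun k m => ∃ b, Sub b (E k) ∧
    (Q b ∧ ∀ x, el x b → ∀ y, el y (E m) → f x y) with hg
  have hgc : Comp M (fun q : M × M => g q.1 q.2) := hG
  have htrue : ∀ k b, Sub b (E k) → Q b → (∀ x, el x b → Lim f X true x) →
      ∃ m0, ∀ m, m0 ≤ m → g k m := by
    intro k b hb hQb hl
    obtain ⟨m0, hm0⟩ := c7_settle hB hfc hf.is b (fun x hx => ⟨true, hl x hx⟩)
    refine ⟨m0, fun m hm => ⟨b, hb, hQb, fun x hx y hy => ?_⟩⟩
    exact (hm0 x hx true (hl x hx) y (hEX m y hy) (le_trans hm (hE.le hy))).2 rfl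
  have hfalse : ∀ k, (¬ ∃ b, Sub b (E k) ∧ (Q b ∧ ∀ x, el x b → Lim f X true x)) →
      ∃ m0, ∀ m, m0 ≤ m → ¬ g k m := by
    intro k hno'
    obtain ⟨m0, hm0⟩ := c7_settle hB hfc hf.is (E k) (fun x hx => hf.stab x (hEX k x hx))
    refine ⟨m0, fun m hm ⟨b, hb, hQb, hfb⟩ => hno' ⟨b, hb, hQb, fun x hx => ?_⟩⟩
    obtain ⟨c, hc⟩ := hf.stab x (hEX k x (hb x hx))
    obtain ⟨y, hy⟩ := hE.ne m
    have h1 := (hm0 x (hb x hx) c hc y (hEX m y hy) (le_trans hm (hE.le hy))).1 (hfb x hx y hy)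
    rw [h1] at hc
    exact hc
  have hstab : Stab g Set.univ := by
    intro k _
    by_cases h1 : ∃ b, Sub b (E k) ∧ (Q b ∧ ∀ x, el x b → Lim f X true x)
    · obtain ⟨b, hb, hQb, hl⟩ := h1
      obtain ⟨m0, hm0⟩ := htrue k b hb hQb hl
      exact ⟨true, m0, fun m _ hm => ⟨fun _ => rfl, fun _ => hm0 m hm⟩⟩
    · obtain ⟨m0, hm0⟩ := hfalse k h1
      exact ⟨false, m0, fun m _ hm => ⟨fun h2 => absurd h2 (hm0 m hm), fun h2 => by
        simp at h2⟩⟩
  have hnb : ¬ Bad g Set.univ := by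
    intro hbad
    obtain ⟨a, _, hac, hacl⟩ := p1 hq h hB hbad true N'
    refine hbig a (by rw [hac]) fun k hk m hm hkm => ?_
    exact (hacl k hk m hm hkm).2 rfl
  have hex : ∃ (Y : Set M) (c : Bool), IS Y ∧ ∀ k ∈ Y, Lim g Set.univ c k := by
    by_contra hcon
    exact hnb ⟨hgc, is_univ, hstab, fun Y hY _ c hc => hcon ⟨Y, c, hY, hc⟩⟩
  obtain ⟨Y, c, hY, hYc⟩ := hex
  cases c with
  | false =>
    refine ⟨Y, hY, fun k hk b hb hQb hl => ?_⟩
    obtain ⟨m0, hm0⟩ := htrue k b hb hQb hl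
    obtain ⟨m1, hm1⟩ := hYc k hk
    have h1 := (hm1 (m0 + m1) (Set.mem_univ _) le_add_self).1 (hm0 (m0 + m1) le_self_add)
    simp at h1
  | true =>
    exfalso
    obtain ⟨Y', hY', _, hYg⟩ := BPi.homog hB hY (R := g) hgc (fun k hk => by
      obtain ⟨b, hb⟩ := hYc k hk
      exact ⟨b, fun m _ hm => (hb m (Set.mem_univ _) hm).2 rfl⟩)
    obtain ⟨a, haY, hac, _⟩ := exists_fin hY' 0 N'
    exact hbig a (by rw [hac]) fun k hk m hm hkm => hYg k (haY k hk) m (haY m hm) hkm

end RT22P
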