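import Pool.Agent.RTP.C8a

/-!
# Section 8, second part: trees

`Tr f j c R`: trees of depth `j` (`f`, `c` as in `PDefs`).  All statements by induction on the standard depth
`j` (for both colours at once).
-/

set_option autoImplicit false

namespace RT22P

open Env

variable {M : Type} [Env M] {f : M → M → Prop}

theorem tr_zero {c : Bool} {R x : M} : Tr f 0 c R (sg x) :=
  ⟨x, el_lt (el_sg.2 rfl), rfl⟩

theorem Tr.ne {j : ℕ} {c : Bool} {R a : M} (hR : 1 ≤ R) (h : Tr f j c R a) : ∃ x, el x a := by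
  cases j with
  | zero =>
    obtain ⟨x, _, rfl⟩ := h
    exact ⟨x, el_sg.2 rfl⟩
  | succ j =>
    obtain ⟨C, hC, hcard, _⟩ := h
    have h1 : 0 < card C := by
      rw [hcard]
      exact lt_of_lt_of_le zero_lt_one hR
    obtain ⟨x, hx⟩ := card_pos.1 h1
    exact ⟨x, hC x hx⟩

private theorem c8b_ivl (R : M) : card (ivl 0 R) = R := by
  have h := card_ivl (zero_le' R)
  rwa [add_zero] at h

/-- (T1) -/
theorem Tr.mono (hf : Comp M (fun q : M × M => f q.1 q.2)) {j : ℕ} {c : Bool} {R R' a : M}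
    (hR : 1 ≤ R) (hRR : R ≤ R') (h : Tr f j c R' a) : ∃ b, Sub b a ∧ Tr f j c R b := by
  induction j generalizing c a with
  | zero => exact ⟨a, Sub.refl a, h⟩
  | succ j ih =>
    obtain ⟨E, hE, hE1, _, hE3, _⟩ := isum_elim hf h
    have hQ : Comp M (Tr f j (!c) R) := by
      have h1 := comp_Tr hf j (!c)
      exact comp_comp (fun q : M × M => Tr f j (!c) q.1 q.2) (fun x : M => (R, x)) h1
        (by fun_prop)
    refine isum_sub hf hQ hE hE3 (fun i hi => (hE1 i hi).2) (I := ivl 0 R') ?_ ?_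
    · intro i hi
      have hi' : i < R' := (el_ivl.1 hi).2
      obtain ⟨d, hd, hd'⟩ := ih (hE1 i hi').1
      exact ⟨hi', d, hd, hd', Tr.ne hR hd'⟩
    · rw [c8b_ivl]
      exact hRR

/-- (T2) -/
theorem Tr.split (hf : Comp M (fun q : M × M => f q.1 q.2)) {j : ℕ} {c : Bool} {R r a b : M}
    (hR : 1 ≤ R) (hr : 1 ≤ r) (h : Tr f j c (R + r) a) :
    (∃ d, Sub d a ∧ (∀ x, el x d → el x b) ∧ Tr f j c R d) ∨
      (∃ d, Sub d a ∧ (∀ x, el x d → ¬ el x b) ∧ Tr f j c r d) := by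
  induction j generalizing c a with
  | zero =>
    obtain ⟨x, hx, rfl⟩ := h
    by_cases hxb : el x b
    · exact Or.inl ⟨sg x, Sub.refl _, fun y hy => by rw [el_sg.1 hy]; exact hxb, ⟨x, hx, rfl⟩⟩
    · exact Or.inr ⟨sg x, Sub.refl _, fun y hy => by rw [el_sg.1 hy]; exact hxb, ⟨x, hx, rfl⟩⟩
  | succ j ih =>
    obtain ⟨E, hE, hE1, _, hE3, _⟩ := isum_elim hf h
    have hTr := comp_Tr hf j (!c)
    have hQ : ∀ s : M, Comp M (Tr f j (!c) s) := fun s =>
      comp_comp (fun q : M × M => Tr f j (!c) q.1 q.2) (fun x : M => (s, x)) hTr (by fun_prop)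
    have hQR := hQ R
    obtain ⟨I, hI⟩ := exists_code (P := fun i => ∃ d, Sub d (itr (E i) b) ∧ Tr f j (!c) R d)
      (by fun_prop) (R + r)
    have hIJ : Sub I (ivl 0 (R + r)) := fun i hi => el_ivl.2 ⟨zero_le' i, ((hI i).1 hi).1⟩
    have hc := card_sdf hIJ
    rw [c8b_ivl] at hc
    by_cases hRI : R ≤ card I
    · left
      have h1 : ∃ d, Sub d (itr a b) ∧ Isum f c (Tr f j (!c) R) R d := by
        refine isum_sub hf (hQ R) (E := fun i => itr (E i) b) (R := R + r) (by fun_prop) ?_ ?_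
          (I := I) ?_ hRI
        · intro i k hik hk x hx y hy
          exact hE3 i k hik hk x (el_itr.1 hx).1 y (el_itr.1 hy).1
        · intro i hi x hx
          exact el_itr.2 ⟨(hE1 i hi).2 x (el_itr.1 hx).1, (el_itr.1 hx).2⟩
        · intro i hi
          obtain ⟨h2, d, hd, hd'⟩ := (hI i).1 hi
          exact ⟨h2, d, hd, hd', Tr.ne hR hd'⟩
      obtain ⟨d, hd, hd'⟩ := h1
      exact ⟨d, fun x hx => (el_itr.1 (hd x hx)).1, fun x hx => (el_itr.1 (hd x hx)).2, hd'⟩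
    · right
      have hlt : card I < R := not_le.1 hRI
      have hrJ : r ≤ card (sdf (ivl 0 (R + r)) I) := by
        by_contra hcon
        have h3 : card (sdf (ivl 0 (R + r)) I) + card I < r + R :=
          add_lt_add (not_le.1 hcon) hlt
        rw [hc, add_comm r R] at h3
        exact absurd h3 (lt_irrefl _)
      have h1 : ∃ d, Sub d (sdf a b) ∧ Isum f c (Tr f j (!c) r) r d := by
        refine isum_sub hf (hQ r) (E := fun i => sdf (E i) b) (R := R + r) (by fun_prop) ?_ ?_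
          (I := sdf (ivl 0 (R + r)) I) ?_ hrJ
        · intro i k hik hk x hx y hy
          exact hE3 i k hik hk x (el_sdf.1 hx).1 y (el_sdf.1 hy).1
        · intro i hi x hx
          exact el_sdf.2 ⟨(hE1 i hi).2 x (el_sdf.1 hx).1, (el_sdf.1 hx).2⟩
        · intro i hi
          obtain ⟨h2, h3⟩ := el_sdf.1 hi
          have h4 : i < R + r := (el_ivl.1 h2).2
          rcases ih (hE1 i h4).1 with ⟨d, hd1, hd2, hd3⟩ | ⟨d, hd1, hd2, hd3⟩
          · exact absurd ((hI i).2 ⟨h4, d, fun x hx => el_itr.2 ⟨hd1 x hx, hd2 x hx⟩, hd3⟩) h3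
          · exact ⟨h4, d, fun x hx => el_sdf.2 ⟨hd1 x hx, hd2 x hx⟩, hd3, Tr.ne hr hd3⟩
      obtain ⟨d, hd, hd'⟩ := h1
      exact ⟨d, fun x hx => (el_sdf.1 (hd x hx)).1, fun x hx => (el_sdf.1 (hd x hx)).2, hd'⟩

/-- (T3) a bound for the size -/
theorem exists_trsize (M : Type) [Env M] (j : ℕ) : ∃ s : M → M, Comp M s ∧
    ∀ (f : M → M → Prop), Comp M (fun q : M × M => f q.1 q.2) → ∀ (c : Bool) (R a : M),
      Tr f j c R a → card a ≤ s R := by
  induction j with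
  | zero =>
    refine ⟨fun _ => 1, comp_const 1, fun f _ c R a h => ?_⟩
    obtain ⟨x, _, rfl⟩ := h
    rw [card_sg]
  | succ j ih =>
    obtain ⟨s, hs, hs'⟩ := ih
    refine ⟨fun R => R * s R, by fun_prop, fun f hf c R a h => ?_⟩
    obtain ⟨E, hE, hE1, _, _, hE4⟩ := isum_elim hf h
    exact card_bigun_le hE (fun i hi => hs' f hf (!c) R (E i) (hE1 i hi).1) hE4

private theorem c8b_two {M : Type} [Env M] {f : M → M → Prop}
    (hf : Comp M (fun q : M × M => f q.1 q.2)) {c : Bool} {p q : Sp} {m : ℕ} {R' a : M}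
    (h2 : 2 ≤ R') (hp : ∀ a, Tr f m (!c) R' a → ∃ b, Sub b a ∧ Cpy f p b)
    (hq : ∀ a, Tr f m (!c) R' a → ∃ b, Sub b a ∧ Cpy f q b) (h : Tr f (m + 1) c R' a) :
    ∃ b, Sub b a ∧ Cpy f (.op c p q) b := by
  obtain ⟨E, hE, hE1, _, hE3, _⟩ := isum_elim hf h
  have h1 : (1 : M) < R' := lt_of_lt_of_le one_lt_two h2
  have h0 : (0 : M) < R' := lt_trans zero_lt_one h1
  obtain ⟨b, hb, hb'⟩ := hp _ (hE1 0 h0).1
  obtain ⟨d, hd, hd'⟩ := hq _ (hE1 1 h1).1
  refine ⟨un b d, fun x hx => ?_, cpy_op hb' hd' fun x hx y hy =>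
    hE3 0 1 zero_lt_one h1 x (hb x hx) y (hd y hy)⟩
  rcases el_un.1 hx with h3 | h3
  · exact (hE1 0 h0).2 x (hb x h3)
  · exact (hE1 1 h1).2 x (hd x h3)

/-- every separable pattern has a copy in every tree of large standard depth and width -/
theorem Tr.cpy (q : Sp) : ∃ n R : ℕ, 1 ≤ R ∧ ∀ (m : ℕ), n ≤ m → ∀ (M : Type) [Env M]
    (f : M → M → Prop), Comp M (fun q : M × M => f q.1 q.2) → ∀ (c : Bool) (R' a : M),
      ((R : ℕ) : M) ≤ R' → Tr f m c R' a → ∃ b, Sub b a ∧ Cpy f q b := by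
  induction q with
  | pt =>
    refine ⟨0, 1, le_refl 1, fun m _ M _ f _ c R' a hR h => ?_⟩
    rw [Nat.cast_one] at hR
    obtain ⟨x, hx⟩ := Tr.ne hR h
    exact ⟨sg x, fun y hy => by rw [el_sg.1 hy]; exact hx, cpy_pt x⟩
  | op c0 p q ihp ihq =>
    obtain ⟨n1, R1, _, hp⟩ := ihp
    obtain ⟨n2, R2, _, hq⟩ := ihq
    refine ⟨n1 + n2 + 2, R1 + R2 + 2, by omega, fun m hm M _ f hf c R' a hR h => ?_⟩
    obtain ⟨k, rfl⟩ : ∃ k, m = k + 2 := ⟨m - 2, by omega⟩
    have hR1 : ((R1 : ℕ) : M) ≤ R' := le_trans (Nat.cast_le.2 (by omega)) hR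
    have hR2 : ((R2 : ℕ) : M) ≤ R' := le_trans (Nat.cast_le.2 (by omega)) hR
    have h2 : (2 : M) ≤ R' := by
      have h3 : ((2 : ℕ) : M) ≤ R' := le_trans (Nat.cast_le.2 (by omega)) hR
      rwa [Nat.cast_ofNat] at h3
    by_cases hc : c = c0
    · subst hc
      exact c8b_two hf h2 (fun b hb => hp (k + 1) (by omega) M f hf _ R' b hR1 hb)
        (fun b hb => hq (k + 1) (by omega) M f hf _ R' b hR2 hb) h
    · have hc' : (!c) = c0 := by
        cases c <;> cases c0 <;> simp_all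
      obtain ⟨E, hE, hE1, _, _, _⟩ := isum_elim hf h
      have h0 : (0 : M) < R' := lt_of_lt_of_le zero_lt_two h2
      have h4 := hE1 0 h0
      rw [hc'] at h4
      obtain ⟨b, hb, hb'⟩ := c8b_two hf h2
        (fun b hb => hp k (by omega) M f hf _ R' b hR1 hb)
        (fun b hb => hq k (by omega) M f hf _ R' b hR2 hb) h4.1
      exact ⟨b, hb.trans h4.2, hb'⟩

end RT22P
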