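import Pool.Agent.RTP.C8b
import Pool.Agent.RTP.C5b

/-!
# Section 8, third part: descent (typed trees)

`desc_aux` by induction on `j`: there is no block sequence `E k ∈ Tr f j c (R k)`, `k ≤ R k`, in `X` such that no member
of `Tr f j c r` inside `E k` has only points of limit colour `d`.  For `j = 0` the single points would form an
infinite set without points of limit colour `d`.  Step: fewer than `r` summands of `E k` contain a member of
`Tr f j (!c) r` of limit colour `d` (`isum_sub`); `T k s` = the first `r` indices `i < R k` such that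
`{x ∈ i-th summand | cl f d x s}` contains a member of `Tr f j (!c) r`; `choice` with `D = R` gives a block
sequence of summands without such members.  All limits settle by `BPi`.
-/

set_option autoImplicit false

namespace RT22P

open Env

variable {M : Type} [Env M]

/-- along the enumeration of `X` the colours of the elements of a finite set settle -/
private theorem c8c_settle (hB : BPi M) {f : M → M → Prop} {X : Set M} (hf : Bad f X) (d : Bool)
    {e : M → M} (he : Comp M e) (hi : ∀ i, i ≤ e i) (heX : ∀ n, e n ∈ X) {a : M} (ha : FS a X) :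
    ∃ b, ∀ x, el x a → ∀ s, b ≤ s → (cl f d x (e s) ↔ Lim f X d x) := by
  have hlim : ∀ x, x ∈ X → ∃ b, ∀ s, b ≤ s → (cl f d x (e s) ↔ Lim f X d x) := by
    intro x hx
    obtain ⟨c', b, hb⟩ := hf.stab x hx
    refine ⟨b, fun s hs => ?_⟩
    have h1 : cl f c' x (e s) := hb (e s) (heX s) (le_trans hs (hi s))
    constructor
    · intro h2
      have h3 : c' = true ↔ d = true := h1.symm.trans h2
      have h4 : c' = d := by
        cases c' <;> cases d <;> simp_all
      rw [← h4]
      exact ⟨b, hb⟩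
    · intro h2
      have h4 : c' = d := Lim.unique hf.is ⟨b, hb⟩ h2
      rw [← h4]
      exact h1
  have hcl : Comp M (fun q : M × M => cl f d q.1 (e q.2)) :=
    comp_clF f hf.comp d (fun q : M × M => q.1) (fun q : M × M => e q.2) (by fun_prop)
      (by fun_prop)
  have hcl' : Comp M (fun q : M × M => cl f d q.1 (e (q.2 + 1))) :=
    comp_clF f hf.comp d (fun q : M × M => q.1) (fun q : M × M => e (q.2 + 1)) (by fun_prop)
      (by fun_prop)
  obtain ⟨b, hb⟩ := hB.settle (R := fun x y => cl f d x (e (y + 1)) ↔ cl f d x (e y))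
    (comp_iff _ _ hcl' hcl) a (by
    intro x hx
    obtain ⟨b, hb⟩ := hlim x (ha x hx)
    exact ⟨b, fun y hy => (hb (y + 1) (le_trans hy (lt_self_succ y).le)).trans (hb y hy).symm⟩)
  have key : ∀ x, el x a → ∀ s, b ≤ s → (cl f d x (e s) ↔ cl f d x (e b)) := by
    intro x hx
    have hc : Comp M (fun s : M => cl f d x (e s)) :=
      comp_clF f hf.comp d (fun _ : M => x) (fun s : M => e s) (by fun_prop) (by fun_prop)
    refine cind (P := fun s => b ≤ s → (cl f d x (e s) ↔ cl f d x (e b))) ?_ ?_ ?_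
    · exact comp_imp _ _ (by fun_prop) (comp_iff _ _ hc (comp_constP _))
    · intro h0
      rw [le_antisymm h0 (zero_le' b)]
    · intro s ih hs
      rcases lt_or_eq_of_le hs with h2 | h2
      · have h3 : b ≤ s := lt_succ.1 h2
        exact (hb x hx s h3).trans (ih h3)
      · rw [← h2]
  refine ⟨b, fun x hx s hs => ?_⟩
  obtain ⟨b', hb'⟩ := hlim x (ha x hx)
  exact (key x hx s hs).trans ((key x hx (b + b') le_self_add).symm.trans
    (hb' (b + b') le_add_self))

/-- the first `r` elements of a finite set -/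
private theorem c8c_first (M : Type) [Env M] (r : M) : ∃ F : M → M, Comp M F ∧
    (∀ u x, el x (F u) ↔ el x u ∧ card (blw u x) < r) ∧ (∀ u, card (F u) ≤ r) ∧
      ∀ u, card u < r → F u = u := by
  have hc : Comp M (fun q : M × M => el q.2 q.1 ∧ card (blw q.1 q.2) < r) := by
    fun_prop
  obtain ⟨F, hF, hF2⟩ := c_code (M := M) (Γ := M) (b := fun u => u)
    (P := fun q : M × M => el q.2 q.1 ∧ card (blw q.1 q.2) < r) (by fun_prop) hc
  have hF3 : ∀ u x, el x (F u) ↔ el x u ∧ card (blw u x) < r := by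
    intro u x
    rw [hF2]
    exact ⟨fun h => h.2, fun h => ⟨el_lt h.1, h⟩⟩
  refine ⟨F, hF, hF3, fun u => ?_, fun u hu => ?_⟩
  · by_cases hne : ∃ x, el x (F u)
    · obtain ⟨x, hx⟩ := hne
      have h1 := (hF3 u _).1 (el_mx hx)
      have h2 : Sub (F u) (un (blw u (mx (F u))) (sg (mx (F u)))) := by
        intro y hy
        rw [el_un, el_blw, el_sg]
        rcases lt_or_eq_of_le (le_mx hy) with h3 | h3
        · exact Or.inl ⟨((hF3 u y).1 hy).1, h3⟩
        · exact Or.inr h3
      have h3 := le_trans (card_mono h2) (card_un_le _ _)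
      rw [card_sg] at h3
      exact le_trans h3 (succ_le_iff.2 h1.2)
    · have h1 : card (F u) = 0 := card_eq_zero.2 fun x hx => hne ⟨x, hx⟩
      rw [h1]
      exact zero_le' r
  · refine fext fun x => ?_
    rw [hF3]
    refine ⟨fun h => h.1, fun h => ⟨h, lt_of_le_of_lt (card_mono fun y hy => ?_) hu⟩⟩
    exact (el_blw.1 hy).1

theorem desc_aux {q : Sp} (h : RTp M q) (hB : BPi M) {f : M → M → Prop} {X : Set M}
    (hf : Bad f X) (d : Bool) {r : M} (hr : 1 ≤ r) (j : ℕ) :
    ∀ (c : Bool) (E R : M → M), Blk E → Comp M R → (∀ k, k ≤ R k) → (∀ k, FS (E k) X) →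
      (∀ k, Tr f j c (R k) (E k)) →
      (∀ k b, Sub b (E k) → Tr f j c r b → ¬ ∀ x, el x b → Lim f X d x) → False := by
  obtain ⟨e, he, hm, hi, heX, -⟩ := enum hf.is
  induction j with
  | zero =>
    intro c E R hE hR hRk hEX hT hno
    have hEc : Comp M E := hE.comp
    have hYc : Comp M (fun x : M => ∃ k, k ≤ x ∧ el x (E k)) :=
      comp_bexle (fun x : M => x) (fun x k => el x (E k)) (by fun_prop) (by fun_prop)
    have hY : IS {x : M | ∃ k, k ≤ x ∧ el x (E k)} := by
      refine ⟨hYc, fun a => ?_⟩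
      obtain ⟨x, hx⟩ := hE.ne (a + 1)
      have h1 : a + 1 ≤ x := hE.le hx
      exact ⟨x, ⟨a + 1, h1, hx⟩, succ_le_iff.1 h1⟩
    refine hf.bad _ hY ?_ (!d) ?_
    · rintro x ⟨k, _, hx⟩
      exact hEX k x hx
    · rintro x ⟨k, _, hx⟩
      obtain ⟨c', hc'⟩ := hf.stab x (hEX k x hx)
      by_cases hcd : c' = d
      · exfalso
        refine hno k (sg x) (fun y hy => ?_) tr_zero (fun y hy => ?_)
        · rw [el_sg.1 hy]; exact hx
        · rw [el_sg.1 hy, ← hcd]; exact hc'
      · have h2 : c' = !d := by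
          cases c' <;> cases d <;> simp_all
        rw [← h2]
        exact hc'
  | succ j ih =>
    intro c E R hE hR hRk hEX hT hno
    have hEc : Comp M E := hE.comp
    obtain ⟨g, hg, hgs⟩ := isum_elimf (c := c) hf.comp (P := fun R a => Tr f j (!c) R a)
      (comp_Tr hf.comp j (!c))
    have hgk := fun k => hgs (R k) (E k) (hT k)
    -- the summands
    have hS : Comp M (fun v : M × M => g (R v.1) (E v.1) v.2) :=
      comp_comp (fun q : M × M × M => g q.1 q.2.1 q.2.2) (fun v : M × M => (R v.1, E v.1, v.2)) hg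
        (by fun_prop)
    have hTrr : Comp M (fun b : M => Tr f j (!c) r b) :=
      comp_comp (fun q : M × M => Tr f j (!c) q.1 q.2) (fun b : M => (r, b))
        (comp_Tr hf.comp j (!c)) (by fun_prop)
    -- the `i`-th summand of `E k` contains at stage `s` a tree of colour `d`
    have hG : Comp M (fun v : (M × M) × M => ∃ b, Sub b (g (R v.1.1) (E v.1.1) v.2) ∧
        (Tr f j (!c) r b ∧ ∀ x, el x b → cl f d x (e v.1.2))) := by
      refine comp_exsub (fun v : (M × M) × M => g (R v.1.1) (E v.1.1) v.2)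
        (fun v b => Tr f j (!c) r b ∧ ∀ x, el x b → cl f d x (e v.1.2)) ?_ ?_
      · exact comp_comp (fun v : M × M => g (R v.1) (E v.1) v.2)
          (fun v : (M × M) × M => (v.1.1, v.2)) hS (by fun_prop)
      · refine comp_and _ _ (comp_comp (fun b : M => Tr f j (!c) r b)
          (fun v : ((M × M) × M) × M => v.2) hTrr (by fun_prop)) ?_
        exact comp_allel (fun v : ((M × M) × M) × M => v.2) (fun v x => cl f d x (e v.1.1.2))
          (by fun_prop) (comp_clF f hf.comp d (fun w : (((M × M) × M) × M) × M => w.2)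
            (fun w => e w.1.1.1.2) (by fun_prop) (by fun_prop))
    obtain ⟨U, hU, hU2⟩ := c_code (M := M) (Γ := M × M) (b := fun v => R v.1)
      (P := fun v : (M × M) × M => ∃ b, Sub b (g (R v.1.1) (E v.1.1) v.2) ∧
        (Tr f j (!c) r b ∧ ∀ x, el x b → cl f d x (e v.1.2))) (by fun_prop) hG
    obtain ⟨F, hF, hF2, hF3, hF4⟩ := c8c_first M r
    -- stabilization
    have hst : ∀ k, ∃ b, (∀ s, b ≤ s → ∀ i, el i (U (k, s)) ↔ i < R k ∧
        ∃ b, Sub b (g (R k) (E k) i) ∧ (Tr f j (!c) r b ∧ ∀ x, el x b → Lim f X d x)) ∧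
        ∀ s, b ≤ s → card (U (k, s)) < r := by
      intro k
      obtain ⟨b, hb⟩ := c8c_settle hB hf d he hi heX (hEX k)
      refine ⟨b, fun s hs i => ?_, fun s hs => ?_⟩
      · rw [hU2]
        refine and_congr_right fun hik => exists_congr fun b' => and_congr_right fun hb' =>
          and_congr_right fun _ => forall_congr' fun x => imp_congr_right fun hx => ?_
        exact hb x (((hgk k).1 i hik).2 x (hb' x hx)) s hs
      · by_contra hcon
        have hcon' : r ≤ card (U (k, s)) := not_lt.1 hcon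
        have hQ : Comp M (fun b : M => Tr f j (!c) r b ∧ ∀ x, el x b → cl f d x (e s)) := by
          refine comp_and _ _ hTrr ?_
          exact comp_allel (fun b : M => b) (fun _ x => cl f d x (e s)) (by fun_prop)
            (comp_clF f hf.comp d (fun w : M × M => w.2) (fun _ => e s) (by fun_prop)
              (by fun_prop))
        have hE' : Comp M (fun i : M => g (R k) (E k) i) :=
          comp_comp (fun v : M × M => g (R v.1) (E v.1) v.2) (fun i : M => (k, i)) hS
            (by fun_prop)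
        obtain ⟨D, hD1, C, hC1, hC2, hC3, hC4, hC5⟩ := isum_sub (c := c) hf.comp hQ hE'
          (hgk k).2.2.1 (fun i hik => ((hgk k).1 i hik).2) (I := U (k, s)) (by
            intro i hi'
            obtain ⟨h1, b', h2, h3, h4⟩ := (hU2 (k, s) i).1 hi'
            exact ⟨h1, b', h2, ⟨h3, h4⟩, Tr.ne hr h3⟩) hcon'
        refine hno k D hD1 ⟨C, hC1, hC2, hC3, fun y hy => (hC4 y hy).1, hC5⟩ fun x hx => ?_
        obtain ⟨y, hy, hxy⟩ := pc_cover hC3 hx
        exact (hb x (hD1 x hx) s hs).1 ((hC4 y hy).2 x hxy)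
    have hTc : Comp M (fun q : M × M => F (U (q.1, q.2))) :=
      comp_comp F (fun q : M × M => U (q.1, q.2)) hF (comp_comp U (fun q : M × M => (q.1, q.2)) hU
        (by fun_prop))
    obtain ⟨n, i, hn, hi', hn1, hn2, hin, hav⟩ := choice h hB (bad_ncs hf) hR
      (fun b => ⟨b + 1, lt_of_lt_of_le (lt_self_succ b) (hRk (b + 1))⟩)
      (T := fun k s => F (U (k, s))) hTc r (fun k s => hF3 _) (by
        intro k
        obtain ⟨b, hb, _⟩ := hst k
        refine ⟨b, fun s hs => ?_⟩
        have h1 : U (k, s) = U (k, b) := fext fun i => by rw [hb s hs, hb b le_rfl]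
        show F (U (k, s)) = F (U (k, b))
        rw [h1])
    refine ih (!c) (fun k => g (R (n k)) (E (n k)) (i k)) (fun k => R (n k)) ?_ ?_ ?_ ?_ ?_ ?_
    · refine ⟨?_, fun k => (hgk (n k)).2.1 (i k) (hin k), fun k l hkl x y hx hy => ?_⟩
      · exact comp_comp (fun v : M × M => g (R v.1) (E v.1) v.2) (fun k : M => (n k, i k)) hS
          (by fun_prop)
      · exact hE.lt (n k) (n l) (hn2 k l hkl) x y (((hgk (n k)).1 (i k) (hin k)).2 x hx)
          (((hgk (n l)).1 (i l) (hin l)).2 y hy)
    · exact comp_comp R n hR hn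
    · exact fun k => le_trans (hn1 k) (hRk (n k))
    · exact fun k x hx => hEX (n k) x (((hgk (n k)).1 (i k) (hin k)).2 x hx)
    · exact fun k => ((hgk (n k)).1 (i k) (hin k)).1
    · intro k b hb hbT hbL
      obtain ⟨b1, hb1, hb2⟩ := hst (n k)
      obtain ⟨b2, hb3⟩ := hav k
      have hs1 : b1 ≤ b1 + b2 := le_self_add
      have hs2 : b2 ≤ b1 + b2 := le_add_self
      refine hb3 (b1 + b2) hs2 ?_
      show el (i k) (F (U (n k, b1 + b2)))
      rw [hF4 _ (hb2 _ hs1), hb1 _ hs1]
      exact ⟨hin k, b, hb, hbT, hbL⟩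

/-- (D): if trees of all widths occur in every infinite subset of `X` then typed trees of all
widths do -/
theorem descent {q : Sp} (h : RTp M q) (hB : BPi M) {f : M → M → Prop} {X : Set M}
    (hf : Bad f X) (j : ℕ) (c : Bool)
    (hfr : ∀ Y : Set M, IS Y → Y ⊆ X → ∀ R, 1 ≤ R → ∃ a, FS a Y ∧ Tr f j c R a) (d : Bool)
    {r : M} (hr : 1 ≤ r) {Y : Set M} (hY : IS Y) (hYX : Y ⊆ X) :
    ∃ a, FS a Y ∧ Tr f j c r a ∧ ∀ x, el x a → Lim f X d x := by
  by_contra hcon
  have h1k : ∀ k : M, 1 ≤ k + 1 := fun k => le_add_self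
  obtain ⟨E, hE, hP⟩ := exists_blk (P := fun k a => FS a Y ∧ Tr f j c (k + 1) a)
    (sig_of_comp (comp_and _ _ (comp_FS hY.comp (fun q : M × M => q.2) (by fun_prop))
      (comp_comp (fun q : M × M => Tr f j c q.1 q.2) (fun q : M × M => (q.1 + 1, q.2))
        (comp_Tr hf.comp j c) (by fun_prop)))) (by
    intro k b
    obtain ⟨a, ha, haT⟩ := hfr {x | x ∈ Y ∧ b < x} (is_above hY b) (fun x hx => hYX hx.1) (k + 1)
      (h1k k)
    exact ⟨a, ⟨fun x hx => (ha x hx).1, haT⟩, Tr.ne (h1k k) haT, fun x hx => (ha x hx).2⟩)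
  refine desc_aux h hB hf d hr j c E (fun k => k + 1) hE (by fun_prop)
    (fun k => (lt_self_succ k).le) (fun k x hx => hYX ((hP k).1 x hx)) (fun k => (hP k).2) ?_
  intro k b hb hbT hbL
  exact hcon ⟨b, fun x hx => (hP k).1 x (hb x hx), hbT, hbL⟩

end RT22P
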