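import Pool.Agent.RTP.C6
import Pool.Agent.RTP.C8b

/-!
# Section 9, first part: the families `F_k^R`

`Fk f n 0 R` = trees of depth `n` and colour `0`; `Fk f n (k+1) R` = `R`-fold `0`-sums of sets `b ∪ d`,
`b` a tree, `d ∈ Fk f n k R`, `f = 1` on `b × d`.  Induction on the standard number `k`.
-/

set_option autoImplicit false

namespace RT22P

open Env

variable {M : Type} [Env M]

/-- sum of two sets -/
def Two (f : M → M → Prop) (c : Bool) (P Q : M → Prop) (a : M) : Prop :=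
  ∃ b, Sub b a ∧ ∃ d, Sub d a ∧ (a = un b d ∧ (P b ∧ (Q d ∧
    ∀ x, el x b → ∀ y, el y d → x < y ∧ cl f c x y)))

/-- the families `F_k^R` -/
def Fk (f : M → M → Prop) (n : ℕ) : ℕ → M → M → Prop
  | 0, R, a => Tr f n false R a
  | k + 1, R, a => Isum f false (Two f true (Tr f n false R) (Fk f n k R)) R a

private theorem c9a_two {Γ : Type} [Enc M Γ] {f : M → M → Prop}
    (hf : Comp M (fun q : M × M => f q.1 q.2)) (c : Bool) {P Q : Γ → M → Prop}
    (hP : Comp M (fun q : Γ × M => P q.1 q.2)) (hQ : Comp M (fun q : Γ × M => Q q.1 q.2))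
    {a : Γ → M} (ha : Comp M a) : Comp M (fun v => Two f c (P v) (Q v) (a v)) := by
  unfold Two
  fun_prop

theorem comp_Fk {f : M → M → Prop} (hf : Comp M (fun q : M × M => f q.1 q.2)) (n k : ℕ) :
    Comp M (fun q : M × M => Fk f n k q.1 q.2) := by
  induction k with
  | zero =>
    simp only [Fk]
    exact comp_Tr hf n false
  | succ k ih =>
    simp only [Fk]
    have h1 : Comp M (fun q : (M × M) × M => Two f true (Tr f n false q.1.1) (Fk f n k q.1.1)
        q.2) := by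
      refine c9a_two hf true (P := fun (q : (M × M) × M) b => Tr f n false q.1.1 b)
        (Q := fun (q : (M × M) × M) b => Fk f n k q.1.1 b) ?_ ?_ (by fun_prop)
      · exact comp_comp (fun q : M × M => Tr f n false q.1 q.2)
          (fun q : ((M × M) × M) × M => (q.1.1.1, q.2)) (comp_Tr hf n false) (by fun_prop)
      · exact comp_comp (fun q : M × M => Fk f n k q.1 q.2)
          (fun q : ((M × M) × M) × M => (q.1.1.1, q.2)) ih (by fun_prop)
    exact comp_Isum hf false (P := fun (q : M × M) a =>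
      Two f true (Tr f n false q.1) (Fk f n k q.1) a) h1 (by fun_prop) (by fun_prop)

theorem comp_Gk {f : M → M → Prop} (hf : Comp M (fun q : M × M => f q.1 q.2)) (n k : ℕ) :
    Comp M (fun q : M × M => Two f true (Tr f n false q.1) (Fk f n k q.1) q.2) := by
  refine c9a_two hf true (P := fun (q : M × M) b => Tr f n false q.1 b)
    (Q := fun (q : M × M) b => Fk f n k q.1 b) ?_ ?_ (by fun_prop)
  · exact comp_comp (fun q : M × M => Tr f n false q.1 q.2)
      (fun q : (M × M) × M => (q.1.1, q.2)) (comp_Tr hf n false) (by fun_prop)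
  · exact comp_comp (fun q : M × M => Fk f n k q.1 q.2)
      (fun q : (M × M) × M => (q.1.1, q.2)) (comp_Fk hf n k) (by fun_prop)

private theorem c9a_mono {f : M → M → Prop} {c : Bool} {P P' : M → Prop} {R a : M}
    (h : Isum f c P R a) (hP : ∀ b, Sub b a → P b → P' b) : Isum f c P' R a := by
  obtain ⟨C, hCa, hCR, hcov, hPC, hcol⟩ := h
  exact ⟨C, hCa, hCR, hcov, fun y hy => hP _ (fun x hx => (el_pc.1 hx).1) (hPC y hy), hcol⟩

private theorem c9a_all {f : M → M → Prop} {c : Bool} {P : M → Prop} {R a : M}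
    (h : Isum f c P R a) {S : M → Prop} (hP : ∀ b, P b → ∀ x, el x b → S x) {x : M}
    (hx : el x a) : S x := by
  obtain ⟨C, _, _, hcov, hPC, _⟩ := h
  obtain ⟨y, hy, hxy⟩ := pc_cover hcov hx
  exact hP _ (hPC y hy) x hxy

private theorem c9a_tr {f : M → M → Prop} (hf : Comp M (fun q : M × M => f q.1 q.2)) {n : ℕ}
    {R r a b : M} (hR : 1 ≤ R) (hr : 1 ≤ r) (h : Tr f n false (R + r) a)
    (hb : ∀ d, Sub d a → (∀ x, el x d → el x b) → ¬ Tr f n false r d) :
    ∃ d, Sub d a ∧ (∀ x, el x d → ¬ el x b) ∧ Tr f n false R d := by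
  rcases Tr.split hf hR hr h (b := sdf a b) with ⟨d, hd, hdb, ht⟩ | ⟨d, hd, hdb, ht⟩
  · exact ⟨d, hd, fun x hx => (el_sdf.1 (hdb x hx)).2, ht⟩
  · refine absurd ht (hb d hd fun x hx => ?_)
    by_contra hcon
    exact hdb x hx (el_sdf.2 ⟨hd x hx, hcon⟩)

private theorem c9a_gk {f : M → M → Prop} (hf : Comp M (fun q : M × M => f q.1 q.2)) {n k : ℕ}
    (ih : ∀ {R r a b : M}, 1 ≤ R → 1 ≤ r → Fk f n k (R + r) a →
      (∀ d, Sub d a → (∀ x, el x d → el x b) → ¬ Tr f n false r d) →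
      ∃ d, Sub d a ∧ (∀ x, el x d → ¬ el x b) ∧ Fk f n k R d)
    {R r a b : M} (hR : 1 ≤ R) (hr : 1 ≤ r)
    (h : Two f true (Tr f n false (R + r)) (Fk f n k (R + r)) a)
    (hb : ∀ d, Sub d a → (∀ x, el x d → el x b) → ¬ Tr f n false r d) :
    ∃ d, Sub d a ∧ (∀ x, el x d → ¬ el x b) ∧
      Two f true (Tr f n false R) (Fk f n k R) d := by
  obtain ⟨u, hua, v, hva, -, hu, hv, huv⟩ := h
  obtain ⟨u', hu', hub, hut⟩ := c9a_tr hf hR hr hu (b := b)
    fun d hd hdb => hb d (hd.trans hua) hdb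
  obtain ⟨v', hv', hvb, hvt⟩ := ih hR hr hv (b := b) fun d hd hdb => hb d (hd.trans hva) hdb
  refine ⟨un u' v', fun x hx => ?_, fun x hx => ?_, u', fun x hx => el_un.2 (Or.inl hx), v',
    fun x hx => el_un.2 (Or.inr hx), rfl, hut, hvt, fun x hx y hy => huv x (hu' x hx) y (hv' y hy)⟩
  · rcases el_un.1 hx with h1 | h1
    · exact hua x (hu' x h1)
    · exact hva x (hv' x h1)
  · rcases el_un.1 hx with h1 | h1
    · exact hub x h1
    · exact hvb x h1

/-- (b): a set `b` which contains no tree of width `r` can be removed -/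
theorem Fk.split {f : M → M → Prop} (hf : Comp M (fun q : M × M => f q.1 q.2)) {n k : ℕ}
    {R r a b : M} (hR : 1 ≤ R) (hr : 1 ≤ r) (h : Fk f n k (R + r) a)
    (hb : ∀ d, Sub d a → (∀ x, el x d → el x b) → ¬ Tr f n false r d) :
    ∃ d, Sub d a ∧ (∀ x, el x d → ¬ el x b) ∧ Fk f n k R d := by
  induction k generalizing R r a b with
  | zero => exact c9a_tr hf hR hr h hb
  | succ k ih =>
    obtain ⟨E, hE, hPE, hne, hord, hcov⟩ := isum_elim hf h
    have hQ : Comp M (fun d => (∀ x, el x d → ¬ el x b) ∧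
        Two f true (Tr f n false R) (Fk f n k R) d) := by
      refine comp_and _ _ (by fun_prop) ?_
      exact comp_comp (fun q : M × M => Two f true (Tr f n false q.1) (Fk f n k q.1) q.2)
        (fun d : M => (R, d)) (comp_Gk hf n k) (by fun_prop)
    obtain ⟨d, hd, hdI⟩ := isum_sub hf hQ hE (R := R + r) (r := R) (a := a) (I := ivl 0 (R + r))
      hord (fun i hi => (hPE i hi).2) (fun i hi => by
        have hi' : i < R + r := (el_ivl.1 hi).2
        refine ⟨hi', ?_⟩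
        obtain ⟨d, hd, hdb, hdt⟩ := c9a_gk hf (fun h1 h2 h3 h4 => ih h1 h2 h3 h4) hR hr
          (hPE i hi').1 (b := b) fun d hd hdb => hb d (hd.trans (hPE i hi').2) hdb
        refine ⟨d, hd, ⟨hdb, hdt⟩, ?_⟩
        obtain ⟨u, hu, _, _, _, hut, _⟩ := hdt
        obtain ⟨x, hx⟩ := Tr.ne hR hut
        exact ⟨x, hu x hx⟩) (by
        have h1 := card_ivl (M := M) (b := 0) (c := R + r) (zero_le' _)
        rw [add_zero] at h1
        rw [h1]
        exact le_self_add)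
    refine ⟨d, hd, fun x hx => c9a_all hdI (S := fun x => ¬ el x b) (fun b' hb' => hb'.1) hx, ?_⟩
    exact c9a_mono hdI fun b' _ hb' => hb'.2

theorem Gk.split {f : M → M → Prop} (hf : Comp M (fun q : M × M => f q.1 q.2)) {n k : ℕ}
    {R r a b : M} (hR : 1 ≤ R) (hr : 1 ≤ r)
    (h : Two f true (Tr f n false (R + r)) (Fk f n k (R + r)) a)
    (hb : ∀ d, Sub d a → (∀ x, el x d → el x b) → ¬ Tr f n false r d) :
    ∃ d, Sub d a ∧ (∀ x, el x d → ¬ el x b) ∧
      Two f true (Tr f n false R) (Fk f n k R) d :=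
  c9a_gk hf (fun h1 h2 h3 h4 => Fk.split hf h1 h2 h3 h4) hR hr h hb

private theorem c9a_size (M : Type) [Env M] (n k : ℕ) : ∃ s : M → M, Comp M s ∧
    ∀ (f : M → M → Prop), Comp M (fun q : M × M => f q.1 q.2) → ∀ (R a : M),
      Fk f n k R a → card a ≤ s R := by
  obtain ⟨t, ht, ht'⟩ := exists_trsize M n
  induction k with
  | zero => exact ⟨t, ht, fun f hf R a h => ht' f hf false R a h⟩
  | succ k ih =>
    obtain ⟨s, hs, hs'⟩ := ih
    refine ⟨fun R => R * (t R + s R), by fun_prop, fun f hf R a h => ?_⟩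
    obtain ⟨E, hE, hPE, _, _, hcov⟩ := isum_elim hf h
    refine card_bigun_le hE (fun i hi => ?_) hcov
    obtain ⟨u, _, v, _, huv, hut, hvt, _⟩ := (hPE i hi).1
    rw [huv]
    exact le_trans (card_un_le u v) (add_le_add (ht' f hf false R u hut) (hs' f hf R v hvt))

/-- (c) -/
theorem exists_gksize (M : Type) [Env M] (n k : ℕ) : ∃ s : M → M, Comp M s ∧
    ∀ (f : M → M → Prop), Comp M (fun q : M × M => f q.1 q.2) → ∀ (R a : M),
      Two f true (Tr f n false R) (Fk f n k R) a → card a ≤ s R := by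
  obtain ⟨t, ht, ht'⟩ := exists_trsize M n
  obtain ⟨s, hs, hs'⟩ := c9a_size M n k
  refine ⟨fun R => t R + s R, by fun_prop, fun f hf R a h => ?_⟩
  obtain ⟨u, _, v, _, huv, hut, hvt, _⟩ := h
  rw [huv]
  exact le_trans (card_un_le u v) (add_le_add (ht' f hf false R u hut) (hs' f hf R v hvt))

private theorem c9a_ne {f : M → M → Prop} {n k : ℕ} {R a : M} (hR : 1 ≤ R)
    (h : Fk f n k R a) : ∃ x, el x a := by
  cases k with
  | zero => exact Tr.ne hR h
  | succ k =>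
    obtain ⟨C, hCa, hCR, _, _, _⟩ := h
    have h1 : 0 < card C := by
      rw [hCR]
      exact lt_of_lt_of_le zero_lt_one hR
    obtain ⟨x, hx⟩ := card_pos.1 h1
    exact ⟨x, hCa x hx⟩

/-- decreasing copies in a sequence of blocks -/
private theorem c9a_dec {f : M → M → Prop} {E : M → M} {R : M}
    (hne : ∀ i, i < R → ∃ x, el x (E i))
    (hord : ∀ i j, i < j → j < R → ∀ x, el x (E i) → ∀ y, el y (E j) → x < y ∧ cl f false x y)
    (m : ℕ) : ∀ i, i + ((m : ℕ) : M) < R →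
      ∃ c, (∀ x, el x c → ∃ j, i ≤ j ∧ j < R ∧ el x (E j)) ∧ Cpy f (Sp.dec m) c := by
  induction m with
  | zero =>
    intro i hi
    rw [Nat.cast_zero, add_zero] at hi
    obtain ⟨x, hx⟩ := hne i hi
    refine ⟨sg x, fun y hy => ⟨i, le_rfl, hi, ?_⟩, cpy_pt x⟩
    rw [el_sg.1 hy]
    exact hx
  | succ m ih =>
    intro i hi
    have h1 : i + 1 + ((m : ℕ) : M) < R := by
      rw [Nat.cast_succ] at hi
      rw [add_assoc, add_comm 1 ((m : ℕ) : M)]
      exact hi
    obtain ⟨c, hc, hcc⟩ := ih (i + 1) h1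
    have hiR : i < R := lt_of_lt_of_le (lt_self_succ i) (le_trans le_self_add h1.le)
    obtain ⟨x, hx⟩ := hne i hiR
    refine ⟨un (sg x) c, fun y hy => ?_, cpy_op (cpy_pt x) hcc fun y hy z hz => ?_⟩
    · rcases el_un.1 hy with h2 | h2
      · rw [el_sg.1 h2]
        exact ⟨i, le_rfl, hiR, hx⟩
      · obtain ⟨j, hj, hjR, hyj⟩ := hc y h2
        exact ⟨j, le_trans (lt_self_succ i).le hj, hjR, hyj⟩
    · obtain ⟨j, hj, hjR, hzj⟩ := hc z hz
      rw [el_sg.1 hy]
      exact hord i j (lt_of_lt_of_le (lt_self_succ i) hj) hjR x hx z hzj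

/-- the patterns of `C₁` have copies in `Fk f n k R` (`n ≥ 1`, `k`, `R` large) -/
theorem Fk.cpy {q : Sp} (hq : C1 q) : ∃ k R : ℕ, 1 ≤ R ∧ ∀ (M : Type) [Env M]
    (f : M → M → Prop), Comp M (fun q : M × M => f q.1 q.2) → ∀ (n k' : ℕ) (R' a : M), 1 ≤ n →
      k ≤ k' → ((R : ℕ) : M) ≤ R' → Fk f n k' R' a → ∃ b, Sub b a ∧ Cpy f q b := by
  induction hq with
  | pt =>
    refine ⟨0, 1, le_rfl, fun M _ f hf n k' R' a _ _ hR h => ?_⟩
    rw [Nat.cast_one] at hR
    obtain ⟨x, hx⟩ := c9a_ne hR h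
    refine ⟨sg x, fun y hy => ?_, cpy_pt x⟩
    rw [el_sg.1 hy]
    exact hx
  | @ss qa qb _ _ iha ihb =>
    obtain ⟨ka, Ra, hRa, ha⟩ := iha
    obtain ⟨kb, Rb, hRb, hb⟩ := ihb
    refine ⟨ka + kb + 1, Ra + Rb, by omega, fun M _ f hf n k' R' a hn hk hR h => ?_⟩
    obtain ⟨k'', rfl⟩ : ∃ k'', k' = k'' + 1 := ⟨k' - 1, by omega⟩
    have hRa' : ((Ra : ℕ) : M) ≤ R' := le_trans (by push_cast; exact le_self_add) hR
    have hRb' : ((Rb : ℕ) : M) ≤ R' := le_trans (by push_cast; exact le_add_self) hR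
    have hR2 : (1 : M) < R' := by
      have h1 : ((2 : ℕ) : M) ≤ ((Ra + Rb : ℕ) : M) := by exact_mod_cast (by omega : 2 ≤ Ra + Rb)
      have h2 : (1 : M) < ((2 : ℕ) : M) := by
        rw [Nat.cast_ofNat]
        exact one_lt_two
      exact lt_of_lt_of_le h2 (le_trans h1 hR)
    have hR0 : (0 : M) < R' := lt_trans zero_lt_one hR2
    obtain ⟨E, hE, hPE, _, hord, _⟩ := isum_elim hf h
    obtain ⟨_, _, v0, hv0, _, _, hvt0, _⟩ := (hPE 0 hR0).1
    obtain ⟨_, _, v1, hv1, _, _, hvt1, _⟩ := (hPE 1 hR2).1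
    obtain ⟨b0, hb0, hc0⟩ := ha M f hf n k'' R' v0 hn (by omega) hRa' hvt0
    obtain ⟨b1, hb1, hc1⟩ := hb M f hf n k'' R' v1 hn (by omega) hRb' hvt1
    refine ⟨un b0 b1, fun x hx => ?_, cpy_op hc0 hc1 fun x hx y hy =>
      hord 0 1 zero_lt_one hR2 x (hv0 x (hb0 x hx)) y (hv1 y (hb1 y hy))⟩
    rcases el_un.1 hx with h1 | h1
    · exact (hPE 0 hR0).2 x (hv0 x (hb0 x h1))
    · exact (hPE 1 hR2).2 x (hv1 x (hb1 x h1))
  | @ic m qb _ ihb =>
    obtain ⟨kb, Rb, hRb, hb⟩ := ihb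
    refine ⟨kb + 1, Rb + m + 1, by omega, fun M _ f hf n k' R' a hn hk hR h => ?_⟩
    obtain ⟨k'', rfl⟩ : ∃ k'', k' = k'' + 1 := ⟨k' - 1, by omega⟩
    obtain ⟨n', rfl⟩ : ∃ n', n = n' + 1 := ⟨n - 1, by omega⟩
    have hRb' : ((Rb : ℕ) : M) ≤ R' := le_trans (by exact_mod_cast (by omega : Rb ≤ Rb + m + 1)) hR
    have hRm : ((m : ℕ) : M) < R' := by
      have h1 : ((m : ℕ) : M) + 1 ≤ ((Rb + m + 1 : ℕ) : M) := by
        exact_mod_cast (by omega : m + 1 ≤ Rb + m + 1)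
      exact lt_of_lt_of_le (lt_self_succ _) (le_trans h1 hR)
    have hR0 : (0 : M) < R' := lt_of_le_of_lt (zero_le' _) hRm
    obtain ⟨E, hE, hPE, _, _, _⟩ := isum_elim hf h
    obtain ⟨u, hu, v, hv, _, hut, hvt, huv⟩ := (hPE 0 hR0).1
    obtain ⟨b1, hb1, hc1⟩ := hb M f hf (n' + 1) k'' R' v hn (by omega) hRb' hvt
    obtain ⟨E', _, hPE', hne', hord', _⟩ := isum_elim hf hut
    obtain ⟨c, hc, hcc⟩ := c9a_dec hne' hord' m 0 (by rw [zero_add]; exact hRm)
    have hcu : Sub c u := fun x hx => by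
      obtain ⟨j, _, hjR, hxj⟩ := hc x hx
      exact (hPE' j hjR).2 x hxj
    refine ⟨un c b1, fun x hx => ?_, cpy_op hcc hc1 fun x hx y hy =>
      huv x (hcu x hx) y (hb1 y hy)⟩
    rcases el_un.1 hx with h1 | h1
    · exact (hPE 0 hR0).2 x (hu x (hcu x h1))
    · exact (hPE 0 hR0).2 x (hv x (hb1 x h1))

end RT22P
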