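import Pool.Agent.RTP.C9a
import Pool.Agent.RTP.C7
import Pool.Agent.RTP.C10

/-!
# Section 9, second part: the main induction for `C₁`

`claim_C1` by induction on `n`: `n = 0` trivial, `n = 1` is `p1` (`isum_clq`).  Let `n ≥ 1`, suppose some bad `f` on `X` has
no `U_{n+1}^r` (for the colour `0` replace `f` by its negation: `tr_not`).  `fk_all`: for all `k`, `R` every infinite
`Y ⊆ X` contains a member of `Fk f n k R`: `k = 0` is the claim for `n`; for `k + 1` take a block sequence
`E m ∈ G_k^{R+r}` in `Y` (a member of `V_n^{R+r}` with limit `1` (`descent`), settle, a member of `F_k^{R+r}` above),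
`block_lemma` gives `Z` on which no member of `V_n^r` in `E m` has only limit `1`, `Gk.split` with
`b = {x ∈ E m | f x t}`, `t` large, gives a member of `G_k^R` with limit `0` only, and by `BPi.homog`, `ramsey` (positions) and
`isum_seq` an `R`-fold `0`-sum.  `Fk.cpy` contradicts `RTp.not_freq`.
-/

set_option autoImplicit false

namespace RT22P

open Env

variable {M : Type} [Env M]

theorem tr_not {f : M → M → Prop} (j : ℕ) (c : Bool) (R a : M) :
    Tr (fun x y => ¬ f x y) j c R a ↔ Tr f j (!c) R a := by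
  induction j generalizing c a with
  | zero => exact Iff.rfl
  | succ j ih =>
    show Isum (fun x y => ¬ f x y) c (Tr (fun x y => ¬ f x y) j (!c) R) R a ↔
      Isum f (!c) (Tr f j (!!c) R) R a
    have h1 : Tr (fun x y => ¬ f x y) j (!c) R = Tr f j (!!c) R := by
      funext b
      exact propext (ih (!c) b)
    have h2 : ∀ x z, cl (fun x y => ¬ f x y) c x z ↔ cl f (!c) x z := by
      intro x z
      unfold cl
      cases c <;> simp
    rw [h1]
    unfold Isum
    simp only [h2]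

/-- a large clique of the colouring of the blocks gives a sum -/
private theorem c9b_sum {f : M → M → Prop} (hfc : Comp M (fun q : M × M => f q.1 q.2))
    {Q : M → Prop} (hQ : Comp M Q) (hne : ∀ a, Q a → ∃ x, el x a) {E : M → M} (hE : Blk E)
    {N : M} (hN : ∀ k, card (E k) ≤ N) (c : Bool) (r : M) :
    ∃ N', ∀ a, N' ≤ card a → (∀ k, el k a → ∀ m, el m a → k < m →
      ∃ b, Sub b (E k) ∧ (Q b ∧ ∀ x, el x b → ∀ y, el y (E m) → cl f c x y)) →
      ∃ d, (∀ x, el x d → ∃ k, el k a ∧ el x (E k)) ∧ Isum f c Q r d := by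
  have hEc := hE.comp
  obtain ⟨N', hN'⟩ := ramsey (M := M) (r + 1) (pw N)
  refine ⟨N', fun a ha hcl => ?_⟩
  obtain ⟨bb, hbb, hbb'⟩ := search (M := M) (Γ := M × M) (Δ := M)
    (P := fun v b => (∃ b, Sub b (E v.1) ∧
      (Q b ∧ ∀ x, el x b → ∀ y, el y (E v.2) → cl f c x y)) →
      (Sub b (E v.1) ∧ (Q b ∧ ∀ x, el x b → ∀ y, el y (E v.2) → cl f c x y)))
    (sig_of_comp (by fun_prop)) (fun v => by
      by_cases h1 : ∃ b, Sub b (E v.1) ∧ (Q b ∧ ∀ x, el x b → ∀ y, el y (E v.2) → cl f c x y)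
      · obtain ⟨b, hb⟩ := h1
        exact ⟨b, fun _ => hb⟩
      · exact ⟨0, fun h2 => absurd h2 h1⟩)
  obtain ⟨col, hcol, hcol'⟩ := c_code (M := M) (Γ := M × M) (b := fun _ => N)
    (P := fun q : (M × M) × M => q.2 < card (E q.1.1) ∧ el (nth (E q.1.1) q.2) (bb q.1))
    (by fun_prop) (by fun_prop)
  obtain ⟨a', ha', hcard, i, hi⟩ := hN' a (fun k m => col (k, m)) ha (by fun_prop)
    (fun k m _ _ _ => el_pw fun p hp => ((hcol' (k, m) p).1 hp).1)
  have hsame : ∀ k m m', el k a' → el m a' → el m' a' → k < m → k < m' → ∀ x,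
      el x (bb (k, m)) → el x (bb (k, m')) := by
    intro k m m' hk hm hm' hkm hkm' x hx
    have h1 := (hbb' (k, m) (hcl k (ha' k hk) m (ha' m hm) hkm)).1 x hx
    obtain ⟨p, hp, hpx⟩ := exists_nth_eq h1
    have h2 : el p (col (k, m)) := by
      rw [hcol' (k, m) p]
      refine ⟨lt_of_lt_of_le hp (hN k), hp, ?_⟩
      show el (nth (E k) p) (bb (k, m))
      rw [hpx]
      exact hx
    have h3 : col (k, m) = i := hi k m hk hm hkm
    have h4 : col (k, m') = i := hi k m' hk hm' hkm'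
    rw [h3, ← h4, hcol' (k, m') p] at h2
    have h5 : el (nth (E k) p) (bb (k, m')) := h2.2.2
    rw [hpx] at h5
    exact h5
  have hel : ∀ s, s < r + 1 → el (nth a' s) a' := fun s hs => el_nth (by rw [hcard]; exact hs)
  have hD : Comp M (fun s => bb (nth a' s, nth a' (s + 1))) := by fun_prop
  have hspec : ∀ s, s < r → Sub (bb (nth a' s, nth a' (s + 1))) (E (nth a' s)) ∧
      Q (bb (nth a' s, nth a' (s + 1))) := by
    intro s hs
    have h1 : s + 1 < r + 1 := by
      rw [lt_succ]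
      exact succ_le_iff.2 hs
    have h2 : s < r + 1 := lt_trans hs (lt_self_succ r)
    have h3 := hbb' (nth a' s, nth a' (s + 1)) (hcl _ (ha' _ (hel s h2)) _
      (ha' _ (hel (s + 1) h1)) (nth_lt (lt_self_succ s) (by rw [hcard]; exact h1)))
    exact ⟨h3.1, h3.2.1⟩
  obtain ⟨U, hU, hU'⟩ := exists_bigun (M := M) (Γ := M)
    (E := fun _ s => bb (nth a' s, nth a' (s + 1))) (by fun_prop)
  refine ⟨U 0 r, fun x hx => ?_, ?_⟩
  · obtain ⟨s, hs, hxs⟩ := (hU' 0 r x).1 hx
    exact ⟨nth a' s, ha' _ (hel s (lt_trans hs (lt_self_succ r))), (hspec s hs).1 x hxs⟩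
  · refine isum_seq hQ hfc hD (fun s hs => (hspec s hs).2)
      (fun s hs => hne _ (hspec s hs).2) ?_ (hU' 0 r)
    intro s t hst ht x hx y hy
    have hs : s < r := lt_trans hst ht
    have hs1 : s < r + 1 := lt_trans hs (lt_self_succ r)
    have ht1 : t < r + 1 := lt_trans ht (lt_self_succ r)
    have hlt : nth a' s < nth a' t := nth_lt hst (by rw [hcard]; exact ht1)
    have hxE := (hspec s hs).1 x hx
    have hyE := (hspec t ht).1 y hy
    refine ⟨hE.lt _ _ hlt x y hxE hyE, ?_⟩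
    have h1 : s + 1 < r + 1 := by
      rw [lt_succ]
      exact succ_le_iff.2 hs
    have h2 := hsame (nth a' s) (nth a' (s + 1)) (nth a' t) (hel s hs1) (hel _ h1) (hel t ht1)
      (nth_lt (lt_self_succ s) (by rw [hcard]; exact h1)) hlt x hx
    exact (hbb' (nth a' s, nth a' t) (hcl _ (ha' _ (hel s hs1)) _ (ha' _ (hel t ht1))
      hlt)).2.2 x h2 y hyE

private theorem c9b_two_ne {f : M → M → Prop} {n k : ℕ} {R a : M} (hR : 1 ≤ R)
    (h : Two f true (Tr f n false R) (Fk f n k R) a) : ∃ x, el x a := by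
  obtain ⟨u, hu, _, _, _, hut, _⟩ := h
  obtain ⟨x, hx⟩ := Tr.ne hR hut
  exact ⟨x, hu x hx⟩

theorem fk_all {q : Sp} (hq : C1 q) (h : RTp M q) (hB : BPi M) {n : ℕ} (hn : 1 ≤ n)
    (hc : ∀ (c : Bool) (f : M → M → Prop) (X : Set M), Bad f X → ∀ R, 1 ≤ R →
      ∃ a, FS a X ∧ Tr f n c R a) {f : M → M → Prop} {X : Set M} (hf : Bad f X) {r : M}
    (hr : 1 ≤ r) (hno : ¬ ∃ a, FS a X ∧ Tr f (n + 1) true r a) (k : ℕ) :
    ∀ Y : Set M, IS Y → Y ⊆ X → ∀ R, 1 ≤ R → ∃ a, FS a Y ∧ Fk f n k R a := by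
  induction k with
  | zero =>
    intro Y hY hYX R hR
    exact hc false f Y (hf.mono hY hYX) R hR
  | succ k ih =>
    intro Y hY hYX R hR
    have hfc := hf.comp
    have hRr : 1 ≤ R + r := le_trans hR le_self_add
    -- step A: a block sequence
    have hGc : Comp M (fun a : M => Two f true (Tr f n false (R + r)) (Fk f n k (R + r)) a) :=
      comp_comp (fun q : M × M => Two f true (Tr f n false q.1) (Fk f n k q.1) q.2)
        (fun a : M => (R + r, a)) (comp_Gk hfc n k) (by fun_prop)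
    have hP : Comp M (fun q : M × M => FS q.2 Y ∧
        Two f true (Tr f n false (R + r)) (Fk f n k (R + r)) q.2) :=
      comp_and _ _ (comp_FS hY.comp _ (by fun_prop))
        (comp_comp (fun a : M => Two f true (Tr f n false (R + r)) (Fk f n k (R + r)) a)
          (fun q : M × M => q.2) hGc (by fun_prop))
    obtain ⟨E, hE, hPE⟩ := exists_blk (M := M) (P := fun _ a => FS a Y ∧
        Two f true (Tr f n false (R + r)) (Fk f n k (R + r)) a) (sig_of_comp hP) (by
      intro _ b
      have hY1 := is_above hY b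
      have hY1X : {x | x ∈ Y ∧ b < x} ⊆ X := fun x hx => hYX hx.1
      obtain ⟨V, hVY, hVT, hVL⟩ := descent h hB hf n false
        (fun Y' hY' hY'X R' hR' => hc false f Y' (hf.mono hY' hY'X) R' hR') true hRr hY1 hY1X
      obtain ⟨b', hb'⟩ := BPi.settle_on hB hf.is (R := fun x y => cl f true x y)
        (comp_cl hfc true) V hVL
      have hY2 := is_above hY1 (b' + V)
      have hY2X : {x | x ∈ {x | x ∈ Y ∧ b < x} ∧ b' + V < x} ⊆ X := fun x hx => hYX hx.1.1
      obtain ⟨F, hFY, hFk⟩ := ih _ hY2 hY2X (R + r) hRr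
      have hall : ∀ x, el x (un V F) → x ∈ Y ∧ b < x := by
        intro x hx
        rcases el_un.1 hx with h1 | h1
        · exact hVY x h1
        · exact (hFY x h1).1
      refine ⟨un V F, ⟨fun x hx => (hall x hx).1, V, fun x hx => el_un.2 (Or.inl hx), F,
        fun x hx => el_un.2 (Or.inr hx), rfl, hVT, hFk, fun x hx y hy => ?_⟩, ?_,
        fun x hx => (hall x hx).2⟩
      · have h1 := hFY y hy
        have h2 : b' + V < y := h1.2
        exact ⟨lt_of_lt_of_le (el_lt hx) (le_trans le_add_self h2.le),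
          hb' x hx y (hYX h1.1.1) (le_trans le_self_add h2.le)⟩
      · obtain ⟨x, hx⟩ := Tr.ne hRr hVT
        exact ⟨x, el_un.2 (Or.inl hx)⟩)
    obtain ⟨s, _, hs'⟩ := exists_gksize M n k
    have hN : ∀ m, card (E m) ≤ s (R + r) := fun m => hs' f hfc (R + r) (E m) (hPE m).2
    -- step B: the block lemma
    obtain ⟨Z, hZ, hZ'⟩ := block_lemma hq h hB hf (Q := fun a => Tr f n false r a)
      (comp_comp (fun q : M × M => Tr f n false q.1 q.2) (fun a : M => (r, a))
        (comp_Tr hfc n false) (by fun_prop)) (fun a ha => Tr.ne hr ha) hno hE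
      (fun m x hx => hYX ((hPE m).1 x hx)) hN
    -- step C: members of G_k^R with limit 0
    have hEc := hE.comp
    have hGR : Comp M (fun a : M => Two f true (Tr f n false R) (Fk f n k R) a) :=
      comp_comp (fun q : M × M => Two f true (Tr f n false q.1) (Fk f n k q.1) q.2)
        (fun a : M => (R, a)) (comp_Gk hfc n k) (by fun_prop)
    have hRc : Comp M (fun q : M × M => ∃ b, Sub b (E q.1) ∧
        (Two f true (Tr f n false R) (Fk f n k R) b ∧
          ∀ x, el x b → ∀ y, el y (E q.2) → cl f false x y)) := by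
      fun_prop
    obtain ⟨Z', hZ', hZZ, hZR⟩ := BPi.homog hB hZ (R := fun m m' => ∃ b, Sub b (E m) ∧
        (Two f true (Tr f n false R) (Fk f n k R) b ∧
          ∀ x, el x b → ∀ y, el y (E m') → cl f false x y)) hRc (by
      intro m hm
      have hEX : ∀ x, el x (E m) → x ∈ X := fun x hx => hYX ((hPE m).1 x hx)
      obtain ⟨b0, hb0⟩ := c7_settle hB hfc hf.is (E m) (fun x hx => hf.stab x (hEX x hx))
      obtain ⟨t, ht, hbt⟩ := hf.is.unb b0
      obtain ⟨b, hb⟩ := exists_code (P := fun x => el x (E m) ∧ f x t) (by fun_prop) (E m)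
      have hbel : ∀ x, el x b ↔ el x (E m) ∧ f x t := fun x => by
        rw [hb x]
        exact ⟨fun h => h.2, fun h => ⟨el_lt h.1, h⟩⟩
      obtain ⟨d, hd, hdb, hdT⟩ := Gk.split hfc hR hr (hPE m).2 (b := b) (by
        intro d hd hdb hdT
        refine hZ' m hm d hd hdT fun x hx => ?_
        obtain ⟨c, hxc⟩ := hf.stab x (hEX x (hd x hx))
        have h1 := hb0 x (hd x hx) c hxc t ht hbt.le
        have h2 := h1.1 ((hbel x).1 (hdb x hx)).2
        rw [h2] at hxc
        exact hxc)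
      refine ⟨b0, fun m' _ hm' => ⟨d, hd, hdT, fun x hx y hy => ?_⟩⟩
      obtain ⟨c, hxc⟩ := hf.stab x (hEX x (hd x hx))
      have h1 := hb0 x (hd x hx) c hxc t ht hbt.le
      have h2 : ¬ f x t := fun h3 => hdb x hx ((hbel x).2 ⟨hd x hx, h3⟩)
      have h3 : c = false := by
        cases c
        · rfl
        · exact absurd (h1.2 rfl) h2
      rw [h3] at hxc
      exact hb0 x (hd x hx) false hxc y (hYX ((hPE m').1 y hy)) (le_trans hm' (hE.le hy)))
    -- step D: finite Ramsey
    obtain ⟨N', hN'⟩ := c9b_sum hfc hGR (fun a ha => c9b_two_ne hR ha) hE hN false R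
    obtain ⟨a, haZ, hac, _⟩ := exists_fin hZ' 0 N'
    obtain ⟨d, hd, hdI⟩ := hN' a (by rw [hac]) fun m hm m' hm' hlt =>
      hZR m (haZ m hm) m' (haZ m' hm') hlt
    refine ⟨d, fun x hx => ?_, hdI⟩
    obtain ⟨m, _, hxm⟩ := hd x hx
    exact (hPE m).1 x hxm

theorem claim_C1 {q : Sp} (hq : C1 q) (h : RTp M q) (hB : BPi M) (n : ℕ) :
    ∀ (c : Bool) (f : M → M → Prop) (X : Set M), Bad f X → ∀ R, 1 ≤ R →
      ∃ a, FS a X ∧ Tr f n c R a := by
  induction n with
  | zero =>
    intro c f X hf R _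
    obtain ⟨x, hx, _⟩ := hf.is.unb 0
    refine ⟨sg x, fun y hy => ?_, tr_zero⟩
    rw [el_sg.1 hy]
    exact hx
  | succ n ih =>
    by_cases hn : n = 0
    · subst hn
      intro c f X hf R _
      obtain ⟨a, haX, hac, hcl⟩ := p1 hq h hB hf c R
      exact ⟨a, haX, isum_clq.2 ⟨hcl, hac⟩⟩
    · have hn1 : 1 ≤ n := Nat.one_le_iff_ne_zero.2 hn
      have key : ∀ (f : M → M → Prop) (X : Set M), Bad f X → ∀ R, 1 ≤ R →
          ∃ a, FS a X ∧ Tr f (n + 1) true R a := by
        intro f X hf R hR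
        by_contra hno
        obtain ⟨k, R0, hR0, hcpy⟩ := Fk.cpy hq
        refine RTp.not_freq h hf.comp hf.is fun Y hY hYX => ?_
        obtain ⟨a, haY, haF⟩ := fk_all hq h hB hn1 ih hf hR hno k Y hY hYX ((R0 : ℕ) : M)
          (by exact_mod_cast hR0)
        obtain ⟨b, hb, hbq⟩ := hcpy M f hf.comp n k _ a hn1 le_rfl le_rfl haF
        exact ⟨b, fun x hx => haY x (hb x hx), hbq⟩
      intro c f X hf R hR
      cases c with
      | true => exact key f X hf R hR
      | false =>
        obtain ⟨a, haX, haT⟩ := key (fun x y => ¬ f x y) X hf.not R hR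
        exact ⟨a, haX, (tr_not (n + 1) true R a).1 haT⟩

/-- over `RCA₀`, `RT²₂(q)` implies `RT²₂` for `q ∈ C₁` -/
theorem rtt_of_C1 {q : Sp} (hq : C1 q) (h : RTp M q) : RTT M := by
  have hB : BPi M := bpi_of_rt1 (rt1_of_rtp h)
  exact rtt_of_no_bad h hB (no_bad_of_claim h (claim_C1 hq h hB))

end RT22P
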