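import Pool.Agent.RTP.Raw

/-!
Classes used in the proof: `Arith` (RCA_0 over an ordered semiring), `Pre` (a bijective pairing),
computability of functions and predicates `Comp`, Sigma_1 predicates `Sig`,
`Env0`, `Env1`, `Env` (basic recursion theory inside (M,S)), `Env2` (finite sets, sequences, bounding).
`Comp` and `Sig` goals are solved by `fun_prop`.
-/

namespace RT22P

/-- RCA_0 over a discretely ordered semiring. -/
class Arith (M : Type) extends CommSemiring M, LinearOrder M, IsStrictOrderedRing M,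
    CanonicallyOrderedAdd M where
  S : Set (Set M)
  succ_le : ∀ {x y : M}, x < y → x + 1 ≤ y
  ind : ∀ P : M → Prop, Sigma1 S P → P 0 → (∀ x, P x → P (x + 1)) → ∀ x, P x
  ca : ∀ P : M → Prop, Sigma1 S P → Sigma1 S (fun x => ¬ P x) → {x | P x} ∈ S

/-- A bijective (Cantor) pairing. -/
class Pre (M : Type) extends Arith M where
  cp : M × M ≃ M
  cp_spec : ∀ x y : M, 2 * cp (x, y) = (x + y) * (x + y + 1) + 2 * y

/-- Types coded by elements of `M`. -/
class Enc (M : Type) (Γ : Type) where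
  e : Γ ≃ M

instance instEncSelf (M : Type) : Enc M M := ⟨Equiv.refl M⟩

instance instEncProd (M : Type) [Pre M] (Γ Δ : Type) [Enc M Γ] [Enc M Δ] : Enc M (Γ × Δ) :=
  ⟨(Equiv.prodCongr Enc.e Enc.e).trans Pre.cp⟩

/-- Possible codomains of computable functions: coded types and `Prop`. -/
class Cod (M : Type) (Δ : Type) where
  emb : Δ → M → Prop

instance instCodProp (M : Type) : Cod M Prop := ⟨fun p _ => p⟩

instance instCodEnc (M : Type) (Δ : Type) [Enc M Δ] : Cod M Δ :=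
  ⟨fun d y => (Enc.e (M := M)) d = y⟩

/-- The function (or predicate) `f` is computable in (M, S), i.e. its graph is in S. -/
@[fun_prop]
def Comp (M : Type) [Pre M] {Γ Δ : Type} [Enc M Γ] [Cod M Δ] (f : Γ → Δ) : Prop :=
  {z : M | Cod.emb (f ((Enc.e (M := M)).symm ((Pre.cp (M := M)).symm z).1))
    ((Pre.cp (M := M)).symm z).2} ∈ Arith.S (M := M)

/-- Sigma_1 predicates. -/
@[fun_prop]
def Sig (M : Type) [Pre M] {Γ : Type} [Enc M Γ] (P : Γ → Prop) : Prop :=
  ∃ Q : Γ × M → Prop, Comp M Q ∧ ∀ v, P v ↔ ∃ y, Q (v, y)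

/-- Basic recursion theory in (M, S). -/
class Env0 (M : Type) extends Pre M where
  c_id : ∀ {Γ : Type} [Enc M Γ], Comp M (fun x : Γ => x)
  c_const : ∀ {Γ Δ : Type} [Enc M Γ] [Enc M Δ] (c : Δ), Comp M (fun _ : Γ => c)
  c_constP : ∀ {Γ : Type} [Enc M Γ] (c : Prop), Comp M (fun _ : Γ => c)
  c_comp : ∀ {Γ Δ Θ : Type} [Enc M Γ] [Enc M Δ] [Cod M Θ] {f : Δ → Θ} {g : Γ → Δ},
    Comp M f → Comp M g → Comp M (fun x => f (g x))
  c_prod : ∀ {Γ Δ Θ : Type} [Enc M Γ] [Enc M Δ] [Enc M Θ] {f : Γ → Δ} {g : Γ → Θ},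
    Comp M f → Comp M g → Comp M (fun x => (f x, g x))
  c_fst : ∀ {Γ Δ : Type} [Enc M Γ] [Enc M Δ], Comp M (fun x : Γ × Δ => x.1)
  c_snd : ∀ {Γ Δ : Type} [Enc M Γ] [Enc M Δ], Comp M (fun x : Γ × Δ => x.2)
  c_add : Comp M (fun x : M × M => x.1 + x.2)
  c_mul : Comp M (fun x : M × M => x.1 * x.2)
  c_cp : Comp M (fun x : M × M => (Pre.cp x : M))
  c_cpsymm : Comp M (fun x : M => ((Pre.cp (M := M)).symm x : M × M))
  c_lt : Comp M (fun x : M × M => x.1 < x.2)
  c_eq : ∀ {Γ : Type} [Enc M Γ], Comp M (fun x : Γ × Γ => x.1 = x.2)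
  c_mem : ∀ {A : Set M}, A ∈ toArith.S → Comp M (fun x : M => x ∈ A)
  c_set : ∀ {P : M → Prop}, Comp M P → {x | P x} ∈ toArith.S
  c_not : ∀ {Γ : Type} [Enc M Γ] {P : Γ → Prop}, Comp M P → Comp M (fun x => ¬ P x)
  c_and : ∀ {Γ : Type} [Enc M Γ] {P Q : Γ → Prop}, Comp M P → Comp M Q →
    Comp M (fun x => P x ∧ Q x)
  c_bex : ∀ {Γ : Type} [Enc M Γ] {t : Γ → M} {P : Γ × M → Prop}, Comp M t → Comp M P →
    Comp M (fun x => ∃ y, y < t x ∧ P (x, y))
  /-- Delta_1 comprehension -/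
  c_delta : ∀ {Γ : Type} [Enc M Γ] {P : Γ → Prop}, Sig M P → Sig M (fun x => ¬ P x) → Comp M P
  /-- unbounded search -/
  c_search : ∀ {Γ : Type} [Enc M Γ] {P : Γ × M → Prop}, Comp M P → (∀ v, ∃ x, P (v, x)) →
    ∃ f : Γ → M, Comp M f ∧ ∀ v, P (v, f v) ∧ ∀ x, x < f v → ¬ P (v, x)
  /-- Sigma_1 induction -/
  sind : ∀ {P : M → Prop}, Sig M P → P 0 → (∀ x, P x → P (x + 1)) → ∀ x, P x

section
variable {M : Type} [Env0 M] {Γ Δ Θ : Type} [Enc M Γ] [Enc M Δ] [Enc M Θ]

@[fun_prop] theorem comp_id : Comp M (fun x : Γ => x) := Env0.c_id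

@[fun_prop] theorem comp_const (c : Δ) : Comp M (fun _ : Γ => c) := Env0.c_const c

@[fun_prop] theorem comp_constP (c : Prop) : Comp M (fun _ : Γ => c) := Env0.c_constP c

@[fun_prop] theorem comp_comp {Θ : Type} [Cod M Θ] (f : Δ → Θ) (g : Γ → Δ) (hf : Comp M f)
    (hg : Comp M g) : Comp M (fun x => f (g x)) := Env0.c_comp hf hg

@[fun_prop] theorem comp_prod (f : Γ → Δ) (g : Γ → Θ) (hf : Comp M f) (hg : Comp M g) :
    Comp M (fun x => (f x, g x)) := Env0.c_prod hf hg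

@[fun_prop] theorem comp_fst (f : Γ → Δ × Θ) (hf : Comp M f) : Comp M (fun x => (f x).1) :=
  Env0.c_comp (f := fun q : Δ × Θ => q.1) Env0.c_fst hf

@[fun_prop] theorem comp_snd (f : Γ → Δ × Θ) (hf : Comp M f) : Comp M (fun x => (f x).2) :=
  Env0.c_comp (f := fun q : Δ × Θ => q.2) Env0.c_snd hf

@[fun_prop] theorem comp_add (f g : Γ → M) (hf : Comp M f) (hg : Comp M g) :
    Comp M (fun x => f x + g x) :=
  Env0.c_comp (f := fun q : M × M => q.1 + q.2) Env0.c_add (Env0.c_prod hf hg)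

@[fun_prop] theorem comp_mul (f g : Γ → M) (hf : Comp M f) (hg : Comp M g) :
    Comp M (fun x => f x * g x) :=
  Env0.c_comp (f := fun q : M × M => q.1 * q.2) Env0.c_mul (Env0.c_prod hf hg)

@[fun_prop] theorem comp_lt (f g : Γ → M) (hf : Comp M f) (hg : Comp M g) :
    Comp M (fun x => f x < g x) :=
  Env0.c_comp (f := fun q : M × M => q.1 < q.2) Env0.c_lt (Env0.c_prod hf hg)

@[fun_prop] theorem comp_not (P : Γ → Prop) (hP : Comp M P) : Comp M (fun x => ¬ P x) :=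
  Env0.c_not hP

@[fun_prop] theorem comp_and (P Q : Γ → Prop) (hP : Comp M P) (hQ : Comp M Q) :
    Comp M (fun x => P x ∧ Q x) := Env0.c_and hP hQ

@[fun_prop] theorem comp_or (P Q : Γ → Prop) (hP : Comp M P) (hQ : Comp M Q) :
    Comp M (fun x => P x ∨ Q x) := by
  have h := Env0.c_not (Env0.c_and (Env0.c_not hP) (Env0.c_not hQ))
  have e : (fun x => P x ∨ Q x) = (fun x => ¬ (¬ P x ∧ ¬ Q x)) := by
    funext x; exact propext (by tauto)
  rw [e]; exact h

@[fun_prop] theorem comp_imp (P Q : Γ → Prop) (hP : Comp M P) (hQ : Comp M Q) :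
    Comp M (fun x => P x → Q x) := by
  have h := Env0.c_not (Env0.c_and hP (Env0.c_not hQ))
  have e : (fun x => P x → Q x) = (fun x => ¬ (P x ∧ ¬ Q x)) := by
    funext x; exact propext (by tauto)
  rw [e]; exact h

@[fun_prop] theorem comp_iff (P Q : Γ → Prop) (hP : Comp M P) (hQ : Comp M Q) :
    Comp M (fun x => P x ↔ Q x) := by
  have h := Env0.c_and (comp_imp P Q hP hQ) (comp_imp Q P hQ hP)
  have e : (fun x => P x ↔ Q x) = (fun x => (P x → Q x) ∧ (Q x → P x)) := by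
    funext x; exact propext (by tauto)
  rw [e]; exact h

@[fun_prop] theorem comp_eq (f g : Γ → Δ) (hf : Comp M f) (hg : Comp M g) :
    Comp M (fun x => f x = g x) :=
  Env0.c_comp (f := fun q : Δ × Δ => q.1 = q.2) Env0.c_eq (Env0.c_prod hf hg)

@[fun_prop] theorem comp_le (f g : Γ → M) (hf : Comp M f) (hg : Comp M g) :
    Comp M (fun x => f x ≤ g x) := by
  have h := Env0.c_not (comp_lt g f hg hf)
  have e : (fun x => f x ≤ g x) = (fun x => ¬ (g x < f x)) := by
    funext x; exact propext (not_lt).symm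
  rw [e]; exact h

@[fun_prop] theorem comp_bex (t : Γ → M) (P : Γ → M → Prop) (ht : Comp M t)
    (hP : Comp M (fun q : Γ × M => P q.1 q.2)) : Comp M (fun x => ∃ y, y < t x ∧ P x y) :=
  Env0.c_bex ht hP

@[fun_prop] theorem comp_ball (t : Γ → M) (P : Γ → M → Prop) (ht : Comp M t)
    (hP : Comp M (fun q : Γ × M => P q.1 q.2)) : Comp M (fun x => ∀ y, y < t x → P x y) := by
  have h := Env0.c_not (Env0.c_bex (t := t) (P := fun q : Γ × M => ¬ P q.1 q.2) ht
    (Env0.c_not hP))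
  have e : (fun x => ∀ y, y < t x → P x y) = (fun x => ¬ ∃ y, y < t x ∧ ¬ P x y) := by
    funext x; exact propext (by push Not; rfl)
  rw [e]; exact h

@[fun_prop] theorem comp_bexle (t : Γ → M) (P : Γ → M → Prop) (ht : Comp M t)
    (hP : Comp M (fun q : Γ × M => P q.1 q.2)) : Comp M (fun x => ∃ y, y ≤ t x ∧ P x y) := by
  have h := Env0.c_bex (t := fun x => t x + 1) (P := fun q : Γ × M => P q.1 q.2)
    (comp_add _ _ ht (comp_const 1)) hP
  have e : (fun x => ∃ y, y ≤ t x ∧ P x y) = (fun x => ∃ y, y < t x + 1 ∧ P x y) := by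
    funext x
    refine propext ⟨fun ⟨y, h1, h2⟩ => ⟨y, ?_, h2⟩, fun ⟨y, h1, h2⟩ => ⟨y, ?_, h2⟩⟩
    · exact lt_of_le_of_lt h1 (lt_add_one _)
    · by_contra hc
      exact absurd (lt_of_lt_of_le h1 (Arith.succ_le (not_le.1 hc))) (lt_irrefl _)
  rw [e]; exact h

@[fun_prop] theorem comp_ballle (t : Γ → M) (P : Γ → M → Prop) (ht : Comp M t)
    (hP : Comp M (fun q : Γ × M => P q.1 q.2)) : Comp M (fun x => ∀ y, y ≤ t x → P x y) := by
  have h := Env0.c_not (comp_bexle t (fun x y => ¬ P x y) ht (Env0.c_not hP))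
  have e : (fun x => ∀ y, y ≤ t x → P x y) = (fun x => ¬ ∃ y, y ≤ t x ∧ ¬ P x y) := by
    funext x; exact propext (by push Not; rfl)
  rw [e]; exact h

theorem comp_mem {A : Set M} (hA : A ∈ Arith.S (M := M)) (f : Γ → M) (hf : Comp M f) :
    Comp M (fun x => f x ∈ A) :=
  Env0.c_comp (f := fun x : M => x ∈ A) (Env0.c_mem hA) hf

end

/-- Primitive recursion in (M, S). -/
class Env1 (M : Type) extends Env0 M where
  c_prec : ∀ {Γ : Type} [Enc M Γ] {g : Γ → M} {h : Γ × (M × M) → M}, Comp M g → Comp M h →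
    ∃ F : Γ × M → M, Comp M F ∧ (∀ v, F (v, 0) = g v) ∧
      ∀ v n, F (v, n + 1) = h (v, (n, F (v, n)))

/-- Coding of finite sets by binary digits. -/
class Env (M : Type) extends Env1 M where
  /-- membership in the finite set coded by a number -/
  el : M → M → Prop
  /-- a bound for the codes of the subsets of [0, b) -/
  pw : M → M
  el_comp : Comp M (fun x : M × M => el x.1 x.2)
  el_lt : ∀ {x a : M}, el x a → x < a
  el_sub : ∀ {a b : M}, (∀ x, el x a → el x b) → a ≤ b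
  el_pw : ∀ {a b : M}, (∀ x, el x a → x < b) → a < pw b
  pw_comp : Comp M (fun x : M => pw x)
  /-- bounded comprehension as a function -/
  c_code : ∀ {Γ : Type} [Enc M Γ] {b : Γ → M} {P : Γ × M → Prop}, Comp M b → Comp M P →
    ∃ F : Γ → M, Comp M F ∧ ∀ v x, el x (F v) ↔ x < b v ∧ P (v, x)

end RT22P
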