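import Pool.Agent.RTP.DRaw
import Pool.Agent.RTP.C6

/-!
# The classes `C₁` and `C₀` of permutations

`InC1 p`: `p` is obtained from `[0]` by skew sums and by `b ↦ osum (decr n) b`; `InC0 p`: complements.
As in `DRaw.exists_tree`, but the tree is in `C1` (resp. its complement is).
-/

set_option autoImplicit false

namespace RT22P

open Env

/-- the decreasing permutation of size `n + 1` in one-line notation -/
def decr (n : ℕ) : List ℕ := (List.range (n + 1)).reverse

/-- the closure of the permutation of one point under skew sums and `b ↦ decreasing ⊕ b` -/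
inductive InC1 : List ℕ → Prop
  | one : InC1 [0]
  | skew {a b : List ℕ} : InC1 a → InC1 b → InC1 (skew a b)
  | osum (n : ℕ) {b : List ℕ} : InC1 b → InC1 (osum (decr n) b)

/-- the closure of the permutation of one point under direct sums and `b ↦ increasing ⊖ b` -/
inductive InC0 : List ℕ → Prop
  | one : InC0 [0]
  | osum {a b : List ℕ} : InC0 a → InC0 b → InC0 (osum a b)
  | skew (n : ℕ) {b : List ℕ} : InC0 b → InC0 (skew (List.range (n + 1)) b)

/-- the complement of a pattern -/
def Sp.compl : Sp → Sp
  | .pt => .pt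
  | .op c a b => .op (!c) a.compl b.compl

private theorem dc1_compl_compl (q : Sp) : q.compl.compl = q := by
  induction q with
  | pt => rfl
  | op c a b iha ihb => simp only [Sp.compl, Bool.not_not, iha, ihb]

private theorem dc1_cpy {M : Type} [Env M] {f : M → M → Prop} (q : Sp) (a : M) :
    Cpy f q.compl a ↔ Cpy (fun x y => ¬ f x y) q a := by
  induction q generalizing a with
  | pt => exact Iff.rfl
  | op c p q ihp ihq =>
    have h : ∀ x y, cl f (!c) x y ↔ cl (fun x y => ¬ f x y) c x y := by
      intro x y
      unfold cl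
      cases c <;> simp
    simp only [Sp.compl, Cpy, ihp, ihq, h]

theorem rtp_compl {M : Type} [Env M] {q : Sp} (h : RTp M q) : RTp M q.compl := by
  intro f hf
  obtain ⟨H, hH, hH'⟩ := h (fun x y => ¬ f x y) (comp_not _ hf)
  exact ⟨H, hH, fun a ha hc => hH' a ha ((dc1_cpy q a).1 hc)⟩

private theorem dc1_decr_succ (n : ℕ) : decr (n + 1) = skew [0] (decr n) := by
  unfold decr skew
  rw [List.range_succ, List.reverse_append]
  simp

private theorem dc1_range_succ (n : ℕ) : List.range (n + 1 + 1) = osum [0] (List.range (n + 1)) := by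
  unfold osum
  rw [List.range_succ_eq_map]
  rfl

private theorem dc1_decr_sep (n : ℕ) : Separable (decr n) := by
  induction n with
  | zero => exact Separable.one
  | succ n ih =>
    rw [dc1_decr_succ]
    exact Separable.skew Separable.one ih

private theorem dc1_range_sep (n : ℕ) : Separable (List.range (n + 1)) := by
  induction n with
  | zero => exact Separable.one
  | succ n ih =>
    rw [dc1_range_succ]
    exact Separable.osum Separable.one ih

theorem InC1.separable {p : List ℕ} (hp : InC1 p) : Separable p := by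
  induction hp with
  | one => exact Separable.one
  | skew _ _ iha ihb => exact Separable.skew iha ihb
  | osum n _ ihb => exact Separable.osum (dc1_decr_sep n) ihb

theorem InC0.separable {p : List ℕ} (hp : InC0 p) : Separable p := by
  induction hp with
  | one => exact Separable.one
  | osum _ _ iha ihb => exact Separable.osum iha ihb
  | skew n _ ihb => exact Separable.skew (dc1_range_sep n) ihb

/-- the finite set `a` contains the pattern `p` -/
private def dc1Pat {M : Type} [Env M] (f : M → M → Prop) (p : List ℕ) (a : M) : Prop :=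
  ∃ g : Fin p.length → M, (∀ i j, i < j → g i < g j) ∧
      (∀ i, el (g i) a) ∧ ∀ i j, i < j → (f (g i) (g j) ↔ p.get i < p.get j)

private theorem dc1_map {M : Type} [Env M] {f : M → M → Prop} {p : List ℕ} {a : M} (k : ℕ)
    (h : dc1Pat f p a) : dc1Pat f (p.map (fun x => x + k)) a := by
  obtain ⟨g, h1, h2, h3⟩ := h
  refine ⟨fun i => g (Fin.cast (List.length_map _) i), fun i j hij => h1 _ _ ?_, fun i => h2 _,
    fun i j hij => ?_⟩
  · simpa using hij
  · rw [h3 _ _ (by simpa using hij)]
    simp

private theorem dc1_append {M : Type} [Env M] {f : M → M → Prop} {A B : List ℕ} {a b d : M}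
    {c : Prop} (hA : dc1Pat f A b) (hB : dc1Pat f B d) (hb : Sub b a) (hd : Sub d a)
    (h : ∀ x, el x b → ∀ y, el y d → x < y ∧ (f x y ↔ c))
    (hc : ∀ x ∈ A, ∀ y ∈ B, (x < y ↔ c)) : dc1Pat f (A ++ B) a := by
  obtain ⟨g, h1, h2, h3⟩ := hA
  obtain ⟨g', h1', h2', h3'⟩ := hB
  refine ⟨fun i => if hi : i.1 < A.length then g ⟨i.1, hi⟩ else g' ⟨i.1 - A.length, by
    have h4 : i.1 < A.length + B.length := lt_of_lt_of_eq i.2 List.length_append
    omega⟩, ?_, ?_, ?_⟩
  · intro i j hij
    have hij' : i.1 < j.1 := hij
    by_cases hj : j.1 < A.length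
    · have hi : i.1 < A.length := lt_trans hij' hj
      simp only [hi, hj, dif_pos]
      exact h1 _ _ hij'
    · by_cases hi : i.1 < A.length
      · simp only [hi, hj, dif_pos, dif_neg, not_false_eq_true]
        exact (h _ (h2 _) _ (h2' _)).1
      · simp only [hi, hj, dif_neg, not_false_eq_true]
        refine h1' _ _ ?_
        show i.1 - A.length < j.1 - A.length
        omega
  · intro i
    by_cases hi : i.1 < A.length
    · simp only [hi, dif_pos]
      exact hb _ (h2 _)
    · simp only [hi, dif_neg, not_false_eq_true]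
      exact hd _ (h2' _)
  · intro i j hij
    have hij' : i.1 < j.1 := hij
    by_cases hj : j.1 < A.length
    · have hi : i.1 < A.length := lt_trans hij' hj
      simp only [hi, hj, dif_pos]
      rw [h3 ⟨i.1, hi⟩ ⟨j.1, hj⟩ hij']
      simp only [List.get_eq_getElem, List.getElem_append_left hi, List.getElem_append_left hj]
    · by_cases hi : i.1 < A.length
      · simp only [hi, hj, dif_pos, dif_neg, not_false_eq_true]
        rw [(h _ (h2 _) _ (h2' _)).2]
        simp only [List.get_eq_getElem, List.getElem_append_left hi,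
          List.getElem_append_right (not_lt.1 hj)]
        exact (hc _ (List.getElem_mem _) _ (List.getElem_mem _)).symm
      · simp only [hi, hj, dif_neg, not_false_eq_true]
        have hlt : i.1 - A.length < j.1 - A.length := by omega
        rw [h3' _ _ hlt]
        simp only [List.get_eq_getElem, List.getElem_append_right (not_lt.1 hi),
          List.getElem_append_right (not_lt.1 hj)]

/-- the tree `q` describes the list `p` -/
private def dc1T (p : List ℕ) (q : Sp) : Prop :=
  ∀ (M : Type) [Env M] (f : M → M → Prop) (a : M), Cpy f q a → dc1Pat f p a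

private theorem dc1_pt : dc1T [0] .pt := by
  intro M _ f a h
  obtain ⟨x, _, rfl⟩ := h
  refine ⟨fun _ => x, fun i j hij => ?_, fun _ => el_sg.2 rfl, fun i j hij => ?_⟩
  · have h1 := i.2
    have h2 := j.2
    have h3 : i.1 < j.1 := hij
    simp only [List.length_cons, List.length_nil] at h1 h2
    omega
  · have h1 := i.2
    have h2 := j.2
    have h3 : i.1 < j.1 := hij
    simp only [List.length_cons, List.length_nil] at h1 h2
    omega

private theorem dc1_osum {a b : List ℕ} {p q : Sp} (ha : dc1T a p) (hb : dc1T b q)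
    (hs : Separable a) : dc1T (osum a b) (.op true p q) := by
  intro M _ f e h
  obtain ⟨u, hu, v, hv, rfl, hp, hq, hx⟩ := h
  refine dc1_append (c := True) (ha M f u hp) (dc1_map a.length (hb M f v hq)) hu hv
    (fun x hxu y hyv => ⟨(hx x hxu y hyv).1, ?_⟩) ?_
  · have h1 := (hx x hxu y hyv).2
    unfold cl at h1
    simpa using h1
  · intro x hxa y hy
    obtain ⟨z, _, rfl⟩ := List.mem_map.1 hy
    have := hs.lt_length x hxa
    exact ⟨fun _ => trivial, fun _ => by omega⟩

private theorem dc1_skew {a b : List ℕ} {p q : Sp} (ha : dc1T a p) (hb : dc1T b q)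
    (hs : Separable b) : dc1T (skew a b) (.op false p q) := by
  intro M _ f e h
  obtain ⟨u, hu, v, hv, rfl, hp, hq, hx⟩ := h
  refine dc1_append (c := False) (dc1_map b.length (ha M f u hp)) (hb M f v hq) hu hv
    (fun x hxu y hyv => ⟨(hx x hxu y hyv).1, ?_⟩) ?_
  · have h1 := (hx x hxu y hyv).2
    unfold cl at h1
    simpa using h1
  · intro x hxa y hy
    obtain ⟨z, _, rfl⟩ := List.mem_map.1 hxa
    have := hs.lt_length y hy
    exact ⟨fun h1 => by omega, fun h1 => h1.elim⟩

private theorem dc1_decr (n : ℕ) : dc1T (decr n) (Sp.dec n) := by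
  induction n with
  | zero => exact dc1_pt
  | succ n ih =>
    rw [dc1_decr_succ]
    exact dc1_skew dc1_pt ih (dc1_decr_sep n)

private theorem dc1_range (n : ℕ) : dc1T (List.range (n + 1)) (Sp.dec n).compl := by
  induction n with
  | zero => exact dc1_pt
  | succ n ih =>
    rw [dc1_range_succ]
    exact dc1_osum dc1_pt ih Separable.one

theorem exists_tree1 {p : List ℕ} (hp : InC1 p) : ∃ q : Sp, C1 q ∧ ∀ (M : Type) [Env M]
    (f : M → M → Prop) (a : M), Cpy f q a → ∃ g : Fin p.length → M, (∀ i j, i < j → g i < g j) ∧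
      (∀ i, el (g i) a) ∧ ∀ i j, i < j → (f (g i) (g j) ↔ p.get i < p.get j) := by
  have key : ∃ q : Sp, C1 q ∧ dc1T p q := by
    induction hp with
    | one => exact ⟨.pt, C1.pt, dc1_pt⟩
    | skew ha hb iha ihb =>
      obtain ⟨q, hq, hq'⟩ := iha
      obtain ⟨r, hr, hr'⟩ := ihb
      exact ⟨.op false q r, C1.ss hq hr, dc1_skew hq' hr' hb.separable⟩
    | osum n hb ihb =>
      obtain ⟨r, hr, hr'⟩ := ihb
      exact ⟨.op true (Sp.dec n) r, C1.ic n hr, dc1_osum (dc1_decr n) hr' (dc1_decr_sep n)⟩
  exact key

theorem exists_tree0 {p : List ℕ} (hp : InC0 p) : ∃ q : Sp, C1 q.compl ∧ ∀ (M : Type) [Env M]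
    (f : M → M → Prop) (a : M), Cpy f q a → ∃ g : Fin p.length → M, (∀ i j, i < j → g i < g j) ∧
      (∀ i, el (g i) a) ∧ ∀ i j, i < j → (f (g i) (g j) ↔ p.get i < p.get j) := by
  have key : ∃ q : Sp, C1 q.compl ∧ dc1T p q := by
    induction hp with
    | one => exact ⟨.pt, C1.pt, dc1_pt⟩
    | osum ha hb iha ihb =>
      obtain ⟨q, hq, hq'⟩ := iha
      obtain ⟨r, hr, hr'⟩ := ihb
      exact ⟨.op true q r, C1.ss hq hr, dc1_osum hq' hr' ha.separable⟩
    | skew n hb ihb =>
      obtain ⟨r, hr, hr'⟩ := ihb
      refine ⟨.op false (Sp.dec n).compl r, ?_, dc1_skew (dc1_range n) hr' hb.separable⟩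
      have h1 := C1.ic n hr
      have h2 : (Sp.op false (Sp.dec n).compl r).compl = .op true (Sp.dec n) r.compl := by
        simp only [Sp.compl, dc1_compl_compl, Bool.not_false]
      rw [h2]
      exact h1
  exact key

end RT22P
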