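import Pool.Agent.RTP.St

set_option autoImplicit false

namespace Pool.Agent.RTP

/-- **DTM** -/
theorem thm_Dtm : St_Dtm := by
  intro g n S S' hS h
  obtain ⟨L, hfin, hNS, hL⟩ := h
  refine ⟨L, hfin, hNS, ?_⟩
  intro K _ O t ht ρ hρ
  have h1 := (_root_.R3S.thm_BAS K O).1 _ (hL K O t ht ρ hρ)
  refine _root_.R3S.HEL_mono ?_ h1
  rw [← MonoidHom.map_closure]
  rintro _ ⟨x, hx, rfl⟩
  exact ⟨x, hS hx, rfl⟩

end Pool.Agent.RTP
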