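import Pool.Agent.RTP.C10
import Pool.Agent.RTP.DRaw
import Pool.Agent.RTP.Chain

/-!
# `RCA₀ + IΣ₂`: `RT²₂(p)` implies `RT²₂` for every separable permutation `p`
-/

set_option autoImplicit false

namespace RT22P

theorem final_I2 {M : Type} [Zero M] [One M] [Add M] [Mul M] [LT M] {S : Set (Set M)}
    (hS : IsRCA0 S) (h2 : ISigma2 S) {p : List ℕ} (hp : Separable p) (h : RT22p S p) :
    RT22 S := by
  obtain ⟨q, hq⟩ := exists_tree hp
  exact bridge hS (fun _ _ _ _ _ S => ISigma2 S → RT22p S p → RT22 S)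
    (fun E h2 h => raw_of_rtt (rtt_of_I2 (rtp_of_raw hq h) (i2_of_raw h2))) h2 h

end RT22P
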