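import Pool.Agent.RTP.GDefs

/-!
# The modified function `act*`
-/

set_option autoImplicit false

namespace RT22P

open Env

variable {M : Type} [Env M]

/-- recursion: `A (n + 1)` is the least `i` which is `act (n + 1)` or larger than `A u` for some
`u ∈ (x, n]`, where `f x` changes at `n + 1` -/
private theorem gact_rec {f : M → M → Prop} (hf : Comp M (fun q : M × M => f q.1 q.2))
    {act : M → M} (ha : Comp M act) : ∃ A : M → M, Comp M A ∧ A 0 = act 0 ∧
      (∀ n, A (n + 1) ≤ act (n + 1)) ∧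
      (∀ n x u, x < n → ¬ (f x (n + 1) ↔ f x n) → x < u → u ≤ n → A (n + 1) ≤ A u + 1) ∧
      ∀ n, A (n + 1) = act (n + 1) ∨ ∃ x u, x < n ∧ ¬ (f x (n + 1) ↔ f x n) ∧ x < u ∧ u ≤ n ∧
        A u < A (n + 1) := by
  have hfc : ∀ {Γ : Type} [Enc M Γ] (g k : Γ → M), Comp M g → Comp M k →
      Comp M (fun v => f (g v) (k v)) := fun g k hg hk =>
    comp_comp (fun q : M × M => f q.1 q.2) (fun v => (g v, k v)) hf (comp_prod _ _ hg hk)
  have hac : ∀ {Γ : Type} [Enc M Γ] (g : Γ → M), Comp M g → Comp M (fun v => act (g v)) :=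
    fun g hg => comp_comp act g ha hg
  have hc1 : Comp M (fun r : (M × M) × M => r.2 = act (r.1.1 + 1) ∨
      ∃ x, x < r.1.1 ∧ (¬ (f x (r.1.1 + 1) ↔ f x r.1.1) ∧
        ∃ u, u ≤ r.1.1 ∧ (x < u ∧ ∃ j, j < r.2 ∧ el (Pre.cp (u, j) : M) r.1.2))) := by
    refine comp_or _ _ (comp_eq _ _ (by fun_prop) (hac _ (by fun_prop))) ?_
    refine comp_bex (fun r : (M × M) × M => r.1.1) (fun r x => ¬ (f x (r.1.1 + 1) ↔ f x r.1.1) ∧
        ∃ u, u ≤ r.1.1 ∧ (x < u ∧ ∃ j, j < r.2 ∧ el (Pre.cp (u, j) : M) r.1.2)) (by fun_prop) ?_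
    refine comp_and _ _ (comp_not _ (comp_iff _ _ (hfc _ _ (by fun_prop) (by fun_prop))
      (hfc _ _ (by fun_prop) (by fun_prop)))) ?_
    fun_prop
  obtain ⟨h, hh, hh'⟩ := search_min (M := M) (Γ := M × M)
    (P := fun q i => i = act (q.1 + 1) ∨
      ∃ x, x < q.1 ∧ (¬ (f x (q.1 + 1) ↔ f x q.1) ∧
        ∃ u, u ≤ q.1 ∧ (x < u ∧ ∃ j, j < i ∧ el (Pre.cp (u, j) : M) q.2))) hc1
    (fun q => ⟨act (q.1 + 1), Or.inl rfl⟩)
  have hhc : ∀ {Γ : Type} [Enc M Γ] (g k : Γ → M), Comp M g → Comp M k →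
      Comp M (fun v => h (g v, k v)) := fun g k hg hk =>
    comp_comp h (fun v => (g v, k v)) hh (comp_prod _ _ hg hk)
  obtain ⟨G, hG, hG0, hG1⟩ := iter (M := M) (Δ := M × M)
    (act 0, sg (Pre.cp ((0 : M), act 0) : M))
    (h := fun n p => (h (n, p.2), un p.2 (sg (Pre.cp (n + 1, h (n, p.2)) : M)))) (by
      refine comp_prod _ _ (hhc _ _ (by fun_prop) (by fun_prop)) ?_
      refine comp_un _ _ (by fun_prop) (comp_sg _ ?_)
      exact comp_cpp _ _ (by fun_prop) (hhc _ _ (by fun_prop) (by fun_prop)))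
  have hG1c : Comp M (fun v : M => (G v).1) := comp_fst _ hG
  have hG2c : Comp M (fun v : M => (G v).2) := comp_snd _ hG
  -- the graph
  have hgr : ∀ v : M, (∀ u, u ≤ v → el (Pre.cp (u, (G u).1) : M) (G v).2) ∧
      ∀ z, el z (G v).2 → ∃ u, u ≤ v ∧ z = Pre.cp (u, (G u).1) := by
    refine cind (P := fun v => (∀ u, u ≤ v → el (Pre.cp (u, (G u).1) : M) (G v).2) ∧
      ∀ z, el z (G v).2 → ∃ u, u ≤ v ∧ z = Pre.cp (u, (G u).1)) ?_ ?_ ?_
    · refine comp_and _ _ ?_ ?_
      · refine comp_ballle (fun v : M => v) (fun v u => el (Pre.cp (u, (G u).1) : M) (G v).2)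
          (by fun_prop) ?_
        refine comp_elF _ _ (comp_cpp _ _ (by fun_prop)
          (comp_comp (fun v : M => (G v).1) (fun q : M × M => q.2) hG1c (by fun_prop)))
          (comp_comp (fun v : M => (G v).2) (fun q : M × M => q.1) hG2c (by fun_prop))
      · refine comp_allel (fun v : M => (G v).2) (fun v z => ∃ u, u ≤ v ∧
          z = Pre.cp (u, (G u).1)) hG2c ?_
        refine comp_bexle (fun q : M × M => q.1) (fun q u => q.2 = Pre.cp (u, (G u).1))
          (by fun_prop) ?_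
        refine comp_eq _ _ (by fun_prop) (comp_cpp _ _ (by fun_prop)
          (comp_comp (fun v : M => (G v).1) (fun q : (M × M) × M => q.2) hG1c (by fun_prop)))
    · rw [hG0]
      refine ⟨fun u hu => ?_, fun z hz => ⟨0, le_rfl, ?_⟩⟩
      · have hu0 : u = 0 := le_antisymm hu (zero_le' u)
        rw [hu0, hG0]
        exact el_sg.2 rfl
      · rw [hG0]
        exact el_sg.1 hz
    · intro v ih
      rw [hG1 v]
      refine ⟨fun u hu => ?_, fun z hz => ?_⟩
      · rcases lt_or_eq_of_le hu with h1 | h1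
        · exact el_un.2 (Or.inl (ih.1 u (lt_succ.1 h1)))
        · rw [h1, hG1 v]
          exact el_un.2 (Or.inr (el_sg.2 rfl))
      · rcases el_un.1 hz with h1 | h1
        · obtain ⟨u, hu, hz'⟩ := ih.2 z h1
          exact ⟨u, le_trans hu (lt_self_succ v).le, hz'⟩
        · refine ⟨v + 1, le_rfl, ?_⟩
          rw [hG1 v]
          exact el_sg.1 h1
  have hcp : ∀ {u j u' j' : M}, (Pre.cp (u, j) : M) = Pre.cp (u', j') → u = u' ∧ j = j' := by
    intro u j u' j' he
    have h1 := (Pre.cp (M := M)).injective he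
    exact ⟨congrArg Prod.fst h1, congrArg Prod.snd h1⟩
  refine ⟨fun v => (G v).1, hG1c, by show (G 0).1 = act 0; rw [hG0], fun n => ?_,
    fun n x u hx hch hxu hun => ?_, fun n => ?_⟩
  · show (G (n + 1)).1 ≤ act (n + 1)
    rw [hG1 n]
    exact not_lt.1 fun hlt => (hh' (n, (G n).2)).2 _ hlt (Or.inl rfl)
  · show (G (n + 1)).1 ≤ (G u).1 + 1
    rw [hG1 n]
    refine not_lt.1 fun hlt => (hh' (n, (G n).2)).2 _ hlt (Or.inr ⟨x, hx, hch, u, hun, hxu,
      (G u).1, lt_self_succ _, (hgr n).1 u hun⟩)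
  · show (G (n + 1)).1 = act (n + 1) ∨ ∃ x u, x < n ∧ ¬ (f x (n + 1) ↔ f x n) ∧ x < u ∧ u ≤ n ∧
        (G u).1 < (G (n + 1)).1
    rw [hG1 n]
    rcases (hh' (n, (G n).2)).1 with h1 | ⟨x, hx, hch, u, hun, hxu, j, hj, hel⟩
    · exact Or.inl h1
    · obtain ⟨u', hu', he⟩ := (hgr n).2 _ hel
      obtain ⟨h2, h3⟩ := hcp he
      refine Or.inr ⟨x, u, hx, hch, hxu, hun, ?_⟩
      rw [h2, ← h3]
      exact hj

theorem act_star (hMi : StMi) : StAct := by
  intro M _ f hbad act a hact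
  have hf := hbad.comp
  obtain ⟨A, hA, hA0, hAle, hAmin, hAsp⟩ := gact_rec hf hact.comp
  have hle : ∀ v, A v ≤ act v := by
    intro v
    rcases zero_or_succ v with rfl | ⟨n, rfl⟩
    · rw [hA0]
    · exact hAle n
  have hAct : Act A a := by
    refine ⟨hA, fun v => lt_of_le_of_lt (hle v) (hact.lt v), ?_, ?_⟩
    · obtain ⟨b, hb⟩ := hact.zero
      refine ⟨b, fun v hv => pos_iff.2 fun h0 => ?_⟩
      have h1 := hb v hv
      rcases zero_or_succ v with rfl | ⟨n, rfl⟩
      · rw [hA0] at h0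
        rw [h0] at h1
        exact lt_irrefl _ h1
      · rcases hAsp n with h2 | ⟨x, u, _, _, _, _, h2⟩
        · rw [← h2, h0] at h1
          exact lt_irrefl _ h1
        · rw [h0] at h2
          exact not_lt_zero' _ h2
    · rintro i ⟨b0, hb0⟩
      obtain ⟨b1, hb1⟩ := hact.succ i ⟨b0, fun v hv => lt_of_lt_of_le (hb0 v hv) (hle v)⟩
      obtain ⟨b2, hb2⟩ := (EnvB.bpi (M := M)) (fun x s => (f x (s + 1) ↔ f x s))
        (comp_iff _ _ (comp_comp (fun q : M × M => f q.1 q.2) (fun q : M × M => (q.1, q.2 + 1))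
          hf (by fun_prop)) hf) b0 (by
        intro x _
        obtain ⟨c, b, hb⟩ := hbad.stab x (Set.mem_univ x)
        refine ⟨b, fun s hs => ?_⟩
        have h1 := hb s (Set.mem_univ _) hs
        have h2 := hb (s + 1) (Set.mem_univ _) (le_trans hs (lt_self_succ s).le)
        exact h2.trans h1.symm)
      refine ⟨b0 + b1 + b2 + 1, fun v hv => ?_⟩
      by_contra hcon
      have hv0 : b0 + b1 + b2 < v := succ_le_iff.1 hv
      have h0v : b0 ≤ v := le_trans (le_trans le_self_add le_self_add) hv0.le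
      have h1v : b1 ≤ v := le_trans (le_trans le_add_self le_self_add) hv0.le
      have hAv : A v = i + 1 := le_antisymm (not_lt.1 hcon) (succ_le_iff.2 (hb0 v h0v))
      rcases zero_or_succ v with rfl | ⟨n, rfl⟩
      · exact not_lt_zero' _ hv0
      · have hn : b2 ≤ n := le_trans le_add_self (lt_succ.1 hv0)
        rcases hAsp n with h2 | ⟨x, u, hxn, hch, hxu, hun, h2⟩
        · have h3 := hb1 _ h1v
          rw [← h2, hAv] at h3
          exact lt_irrefl _ h3
        · rw [hAv] at h2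
          have h3 : u < b0 := by
            by_contra h4
            exact absurd (hb0 u (not_lt.1 h4)) (not_lt.2 (lt_succ.1 h2))
          exact hch (hb2 x (lt_trans hxu h3) n hn)
  refine ⟨A, hAct, fun x y hxy hm => ?_⟩
  have hF := hMi M A a hAct
  have key : ∀ t : M, (f x (y + t) ↔ f x y) := by
    refine cind (P := fun t => (f x (y + t) ↔ f x y)) ?_ ?_ ?_
    · refine comp_iff _ _ ?_ (comp_constP _)
      exact comp_comp (fun q : M × M => f q.1 q.2) (fun t : M => (x, y + t)) hf (by fun_prop)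
    · rw [add_zero]
    · intro t ht
      rw [← ht]
      by_contra hch
      obtain ⟨u, hxu, hu⟩ := hF.att x
      have huy : u ≤ y := by
        by_contra h1
        have h2 := hF.le y u (not_le.1 h1)
        rw [hu] at h2
        exact absurd (lt_of_lt_of_le (lt_of_le_of_lt (lt_self_succ _).le hm) h2) (lt_irrefl _)
      have hch' : ¬ (f x (y + t + 1) ↔ f x (y + t)) := by
        rw [add_assoc]; exact hch
      have h3 := hAmin (y + t) x u (lt_of_lt_of_le hxy le_self_add) hch' hxu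
        (le_trans huy le_self_add)
      have h4 := hF.le y (y + t + 1) (lt_succ.2 le_self_add)
      rw [hu] at h3
      exact absurd (lt_of_lt_of_le hm (le_trans h4 h3)) (lt_irrefl _)
  have key' : ∀ v, y ≤ v → (f x v ↔ f x y) := by
    intro v hv
    obtain ⟨t, rfl⟩ := exists_add_of_le hv
    exact key t
  constructor
  · intro h1
    exact ⟨y, fun v _ hv => iff_of_true ((key' v hv).2 h1) rfl⟩
  · rintro ⟨b, hb⟩
    have h1 := hb (y + b) (Set.mem_univ _) le_add_self
    exact (key b).1 (h1.2 rfl)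

end RT22P
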