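import Pool.Agent.RTP.GDefs

/-!
# Section G5, the first half of (C5)

`ag j` = the least `b` with `b = mn (F j)` or such that two elements of `F j` see `b` differently; by
stability `ag j → ∞`.  The function `y` with `y (w j) = ag j` is used in the lowness of `u` on the range
of `w`.
-/

set_option autoImplicit false

namespace RT22P

open Env

/-- the columns of a colouring which is stable on the whole model -/
private theorem gagree_lim {M : Type} [Env M] {f : M → M → Prop}
    (hf : Bad f (Set.univ : Set M)) (x : M) : ∃ b, ∀ s, b ≤ s → f x s = tr f x := by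
  obtain ⟨c, b, hb⟩ := hf.stab x (Set.mem_univ x)
  refine ⟨b, fun s hs => propext ?_⟩
  have h1 := hb s (Set.mem_univ s) hs
  cases c with
  | true =>
    have h2 : f x s := h1.2 rfl
    exact ⟨fun _ => ⟨b, fun y hy hby => hb y hy hby⟩, fun _ => h2⟩
  | false =>
    have h2 : ¬ f x s := fun h => absurd (h1.1 h) (by simp)
    refine ⟨fun h => absurd h h2, fun h => ?_⟩
    have := Lim.unique hf.is h ⟨b, hb⟩
    exact absurd this (by simp)

theorem agree : StAgree := by
  classical
  intro M _ f hf E X u hu F w hF hw hFw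
  have hFc : Comp M F := hF.comp
  have hP : Comp M (fun q : M × M => q.2 = mn (F q.1) ∨
      ∃ x, el x (F q.1) ∧ ¬ (f q.2 x ↔ f q.2 (w q.1))) := by
    refine comp_or _ _ (by fun_prop) ?_
    refine comp_exel (fun q : M × M => F q.1) (fun q x => ¬ (f q.2 x ↔ f q.2 (w q.1)))
      (by fun_prop) ?_
    refine comp_not _ (comp_iff _ _ ?_ ?_)
    · exact comp_comp (fun q : M × M => f q.1 q.2) (fun q : (M × M) × M => (q.1.2, q.2)) hf.comp
        (by fun_prop)
    · exact comp_comp (fun q : M × M => f q.1 q.2) (fun q : (M × M) × M => (q.1.2, w q.1.1))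
        hf.comp (by fun_prop)
  obtain ⟨ag, hag, hag2⟩ := search_min (M := M) (Γ := M)
    (P := fun j b => b = mn (F j) ∨ ∃ x, el x (F j) ∧ ¬ (f b x ↔ f b (w j))) hP
    (fun j => ⟨mn (F j), Or.inl rfl⟩)
  have hle : ∀ j, ag j ≤ mn (F j) := fun j => by
    by_contra hc
    exact (hag2 j).2 _ (not_le.1 hc) (Or.inl rfl)
  have hagr : ∀ j v, v < ag j → ∀ x, el x (F j) → (f v x ↔ f v (w j)) := by
    intro j v hv x hx
    by_contra hc
    exact (hag2 j).2 v hv (Or.inr ⟨x, hx, hc⟩)
  have hunb : ∀ b, ∃ n, ∀ j, n ≤ j → b ≤ ag j := by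
    intro b
    obtain ⟨s0, hs0⟩ := lc_settleP (w := fun q : M × M => f q.1 q.2) hf.comp (P := tr f) b
      (fun x _ => gagree_lim hf x)
    refine ⟨b + s0, fun j hj => ?_⟩
    by_contra hc
    have hlt : ag j < b := not_le.1 hc
    have hbj : b ≤ j := le_trans le_self_add hj
    have hsj : s0 ≤ j := le_trans le_add_self hj
    rcases (hag2 j).1 with h1 | ⟨x, hx, h1⟩
    · obtain ⟨x, hx⟩ := hF.ne j
      have h2 : j ≤ mn (F j) := hF.le (el_mn hx)
      rw [← h1] at h2
      exact absurd (lt_of_lt_of_le hlt (le_trans hbj h2)) (lt_irrefl _)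
    · apply h1
      rw [hs0 _ hlt x (le_trans hsj (hF.le hx)),
        hs0 _ hlt (w j) (le_trans hsj (hF.le (hFw j).2))]
  -- the points `w j`
  have hwm : ∀ i j, i < j → w i < w j := fun i j hij => hF.lt i j hij _ _ (hFw i).2 (hFw j).2
  have hwj : ∀ j, j ≤ w j := fun j => hF.le (hFw j).2
  obtain ⟨jj, hjj, hjj2⟩ := search_min (M := M) (Γ := M) (P := fun v j => v ≤ w j)
    (by fun_prop) (fun v => ⟨v, hwj v⟩)
  have hjw : ∀ j, jj (w j) = j := by
    intro j
    have h1 : jj (w j) ≤ j := by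
      by_contra hc
      exact (hjj2 (w j)).2 j (not_le.1 hc) le_rfl
    rcases lt_or_eq_of_le h1 with h2 | h2
    · exact absurd (lt_of_le_of_lt (hjj2 (w j)).1 (hwm _ _ h2)) (lt_irrefl _)
    · exact h2
  have hy : Comp M (fun v : M => if w (jj v) = v then ag (jj v) else v) :=
    comp_ite (by fun_prop) (by fun_prop) (by fun_prop)
  have hyw : ∀ j, (if w (jj (w j)) = w j then ag (jj (w j)) else w j) = ag j := by
    intro j
    rw [hjw, if_pos rfl]
  have hyu : ∀ b, ∃ n, ∀ v, n ≤ v → b ≤ (fun v : M => if w (jj v) = v then ag (jj v) else v) v := by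
    intro b
    obtain ⟨n0, hn0⟩ := hunb b
    refine ⟨b + w n0, fun v hv => ?_⟩
    show b ≤ if w (jj v) = v then ag (jj v) else v
    by_cases hv1 : w (jj v) = v
    · rw [if_pos hv1]
      apply hn0
      by_contra hc
      have h1 := hwm _ _ (not_le.1 hc)
      rw [hv1] at h1
      exact absurd (lt_of_le_of_lt (le_trans le_add_self hv) h1) (lt_irrefl _)
    · rw [if_neg hv1]
      exact le_trans le_self_add hv
  have hY : IS (Set.range w) := (is_range hw fun n => hwm _ _ (lt_self_succ n)).1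
  obtain ⟨Y', hY', hY'Y, hlow⟩ := hu _ hy hyu (Set.range w) hY (by
    rintro _ ⟨j, rfl⟩
    exact (hFw j).1 _ (hFw j).2)
  have hJ : IS {j : M | w j ∈ Y'} := by
    refine ⟨comp_comp (fun x : M => x ∈ Y') w hY'.comp hw, fun a => ?_⟩
    obtain ⟨x, hx, hax⟩ := hY'.unb (w a)
    obtain ⟨j, rfl⟩ := hY'Y hx
    refine ⟨j, hx, ?_⟩
    by_contra hc
    rcases lt_or_eq_of_le (not_lt.1 hc) with h1 | h1
    · exact absurd (lt_trans hax (hwm _ _ h1)) (lt_irrefl _)
    · rw [h1] at hax
      exact absurd hax (lt_irrefl _)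
  obtain ⟨J, hJc, hJm, -, hJJ, -⟩ := enum hJ
  refine ⟨J, hJc, hJm, fun i hEi x hx => ?_⟩
  have h1 := hlow (w (J i)) (hJJ i) hEi
  rw [hyw] at h1
  refine ⟨lt_of_lt_of_le h1 (le_trans (hle (J i)) (mn_le hx)), fun v hv => ?_⟩
  exact hagr (J i) v (lt_of_le_of_lt hv h1) x hx

end RT22P
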