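import Pool.Agent.RTP.GTree

/-!
# Theorem G: separable permutations of small alternation depth and small size
-/

set_option autoImplicit false

namespace RT22P

/-- `Alt c k p`: the permutation `p` is obtained from the one point permutation by direct and skew
sums with at most `k` alternating levels, the outermost level consisting of direct sums if `c` is
`true` and of skew sums if `c` is `false`. -/
inductive Alt : Bool → ℕ → List ℕ → Prop
  | one (c : Bool) (k : ℕ) : Alt c k [0]
  | up {c : Bool} {k : ℕ} {p : List ℕ} : Alt (!c) k p → Alt c (k + 1) p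
  | osum {k : ℕ} {a b : List ℕ} : Alt true (k + 1) a → Alt true (k + 1) b →
      Alt true (k + 1) (osum a b)
  | skew {k : ℕ} {a b : List ℕ} : Alt false (k + 1) a → Alt false (k + 1) b →
      Alt false (k + 1) (skew a b)

private theorem galt_osum_assoc (a b c : List ℕ) : osum (osum a b) c = osum a (osum b c) := by
  unfold osum
  simp only [List.map_append, List.map_map, List.length_append, List.length_map,
    List.append_assoc]
  congr 2
  refine List.map_congr_left fun x _ => ?_
  simp only [Function.comp]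
  omega

private theorem galt_skew_assoc (a b c : List ℕ) : skew (skew a b) c = skew a (skew b c) := by
  unfold skew
  simp only [List.map_append, List.map_map, List.length_append, List.length_map,
    List.append_assoc]
  congr 1
  refine List.map_congr_left fun x _ => ?_
  simp only [Function.comp]
  omega

private theorem galt_decr (n : ℕ) : decr (n + 1) = skew [0] (decr n) := by
  unfold decr skew
  rw [List.range_succ, List.reverse_append]
  simp

private theorem galt_range (n : ℕ) : List.range (n + 1 + 1) = osum [0] (List.range (n + 1)) := by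
  unfold osum
  rw [List.range_succ_eq_map]
  rfl

private theorem galt_skew_decr (m n : ℕ) : skew (decr m) (decr n) = decr (m + n + 1) := by
  induction m with
  | zero =>
    rw [show decr 0 = [0] from rfl, ← galt_decr, Nat.zero_add]
  | succ m ih =>
    rw [galt_decr, galt_skew_assoc, ih, ← galt_decr]
    congr 1
    omega

private theorem galt_osum_range (m n : ℕ) :
    osum (List.range (m + 1)) (List.range (n + 1)) = List.range (m + n + 1 + 1) := by
  induction m with
  | zero =>
    rw [show List.range (0 + 1) = [0] from rfl, ← galt_range, Nat.zero_add]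
  | succ m ih =>
    rw [galt_range, galt_osum_assoc, ih, ← galt_range]
    congr 1
    omega

private theorem galt_recT {k : ℕ} {P : List ℕ → Prop} (h0 : P [0])
    (h1 : ∀ p, Alt false k p → P p) (h2 : ∀ a b, P a → P b → P (osum a b)) :
    ∀ p, Alt true (k + 1) p → P p := by
  have key : ∀ c m p, Alt c m p → c = true → m = k + 1 → P p := by
    intro c m p h
    induction h with
    | one c m => exact fun _ _ => h0
    | up h _ =>
      intro hc hm
      subst hc
      obtain rfl := Nat.succ_injective hm
      exact h1 _ h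
    | osum _ _ iha ihb => exact fun hc hm => h2 _ _ (iha hc hm) (ihb hc hm)
    | skew _ _ _ _ => exact fun hc _ => absurd hc (by simp)
  exact fun p h => key _ _ p h rfl rfl

private theorem galt_recF {k : ℕ} {P : List ℕ → Prop} (h0 : P [0])
    (h1 : ∀ p, Alt true k p → P p) (h2 : ∀ a b, P a → P b → P (skew a b)) :
    ∀ p, Alt false (k + 1) p → P p := by
  have key : ∀ c m p, Alt c m p → c = false → m = k + 1 → P p := by
    intro c m p h
    induction h with
    | one c m => exact fun _ _ => h0
    | up h _ =>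
      intro hc hm
      subst hc
      obtain rfl := Nat.succ_injective hm
      exact h1 _ h
    | skew _ _ iha ihb => exact fun hc hm => h2 _ _ (iha hc hm) (ihb hc hm)
    | osum _ _ _ _ => exact fun hc _ => absurd hc (by simp)
  exact fun p h => key _ _ p h rfl rfl

private theorem galt_zero {c : Bool} {p : List ℕ} (h : Alt c 0 p) : p = [0] := by
  cases h
  rfl

private theorem galt_c1_decr (n : ℕ) : InC1 (decr n) := by
  induction n with
  | zero => exact InC1.one
  | succ n ih =>
    rw [galt_decr]
    exact InC1.skew InC1.one ih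

private theorem galt_c0_range (n : ℕ) : InC0 (List.range (n + 1)) := by
  induction n with
  | zero => exact InC0.one
  | succ n ih =>
    rw [galt_range]
    exact InC0.osum InC0.one ih

theorem InC1.inG1 {p : List ℕ} (h : InC1 p) : InG1 p := by
  induction h with
  | one => exact InG1.one
  | skew _ _ iha ihb => exact InG1.skew iha ihb
  | osum n _ ihb => exact InG1.osum (galt_c1_decr n) ihb

theorem InC0.inG0 {p : List ℕ} (h : InC0 p) : InG0 p := by
  induction h with
  | one => exact InG0.one
  | osum _ _ iha ihb => exact InG0.osum iha ihb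
  | skew n _ ihb => exact InG0.skew (galt_c0_range n) ihb

theorem Alt.inG1 {p : List ℕ} (h : Alt false 5 p) : InG1 p := by
  have f1 : ∀ p, Alt false 1 p → ∃ n, p = decr n :=
    galt_recF ⟨0, rfl⟩ (fun p h => ⟨0, galt_zero h⟩) (by
      rintro _ _ ⟨m, rfl⟩ ⟨n, rfl⟩
      exact ⟨m + n + 1, galt_skew_decr m n⟩)
  have t2 : ∀ p, Alt true 2 p → InC1 p ∧ ∀ b, InC1 b → InC1 (RT22P.osum p b) := by
    refine galt_recT ⟨InC1.one, fun b hb => InC1.osum 0 hb⟩ (fun p h => ?_) ?_
    · obtain ⟨n, rfl⟩ := f1 p h
      exact ⟨galt_c1_decr n, fun b hb => InC1.osum n hb⟩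
    · rintro a b ⟨_, ha'⟩ ⟨hb, hb'⟩
      refine ⟨ha' b hb, fun c hc => ?_⟩
      rw [galt_osum_assoc]
      exact ha' _ (hb' c hc)
  have f3 : ∀ p, Alt false 3 p → InC1 p :=
    galt_recF InC1.one (fun p h => (t2 p h).1) fun a b ha hb => InC1.skew ha hb
  have t4 : ∀ p, Alt true 4 p → InG1 p ∧ ∀ b, InG1 b → InG1 (RT22P.osum p b) := by
    refine galt_recT ⟨InG1.one, fun b hb => InG1.osum InC1.one hb⟩
      (fun p h => ⟨(f3 p h).inG1, fun b hb => InG1.osum (f3 p h) hb⟩) ?_
    rintro a b ⟨_, ha'⟩ ⟨hb, hb'⟩
    refine ⟨ha' b hb, fun c hc => ?_⟩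
    rw [galt_osum_assoc]
    exact ha' _ (hb' c hc)
  exact galt_recF InG1.one (fun p h => (t4 p h).1) (fun a b ha hb => InG1.skew ha hb) p h

theorem Alt.inG0 {p : List ℕ} (h : Alt true 5 p) : InG0 p := by
  have f1 : ∀ p, Alt true 1 p → ∃ n, p = List.range (n + 1) :=
    galt_recT ⟨0, rfl⟩ (fun p h => ⟨0, galt_zero h⟩) (by
      rintro _ _ ⟨m, rfl⟩ ⟨n, rfl⟩
      exact ⟨m + n + 1, galt_osum_range m n⟩)
  have t2 : ∀ p, Alt false 2 p → InC0 p ∧ ∀ b, InC0 b → InC0 (RT22P.skew p b) := by
    refine galt_recF ⟨InC0.one, fun b hb => InC0.skew 0 hb⟩ (fun p h => ?_) ?_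
    · obtain ⟨n, rfl⟩ := f1 p h
      exact ⟨galt_c0_range n, fun b hb => InC0.skew n hb⟩
    · rintro a b ⟨_, ha'⟩ ⟨hb, hb'⟩
      refine ⟨ha' b hb, fun c hc => ?_⟩
      rw [galt_skew_assoc]
      exact ha' _ (hb' c hc)
  have f3 : ∀ p, Alt true 3 p → InC0 p :=
    galt_recT InC0.one (fun p h => (t2 p h).1) fun a b ha hb => InC0.osum ha hb
  have t4 : ∀ p, Alt false 4 p → InG0 p ∧ ∀ b, InG0 b → InG0 (RT22P.skew p b) := by
    refine galt_recF ⟨InG0.one, fun b hb => InG0.skew InC0.one hb⟩
      (fun p h => ⟨(f3 p h).inG0, fun b hb => InG0.skew (f3 p h) hb⟩) ?_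
    rintro a b ⟨_, ha'⟩ ⟨hb, hb'⟩
    refine ⟨ha' b hb, fun c hc => ?_⟩
    rw [galt_skew_assoc]
    exact ha' _ (hb' c hc)
  exact galt_recT InG0.one (fun p h => (t4 p h).1) (fun a b ha hb => InG0.osum ha hb) p h

private theorem galt_mono {c : Bool} {k : ℕ} {p : List ℕ} (h : Alt c k p) :
    ∀ m, k ≤ m → Alt c m p := by
  induction h with
  | one c k => exact fun m _ => Alt.one c m
  | up _ ih =>
    intro m hm
    obtain ⟨m', rfl⟩ : ∃ m', m = m' + 1 := ⟨m - 1, by omega⟩
    exact Alt.up (ih m' (by omega))
  | osum _ _ iha ihb =>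
    intro m hm
    obtain ⟨m', rfl⟩ : ∃ m', m = m' + 1 := ⟨m - 1, by omega⟩
    exact Alt.osum (iha _ hm) (ihb _ hm)
  | skew _ _ iha ihb =>
    intro m hm
    obtain ⟨m', rfl⟩ : ∃ m', m = m' + 1 := ⟨m - 1, by omega⟩
    exact Alt.skew (iha _ hm) (ihb _ hm)

/-- a separable permutation of `n + 1` points has alternation depth at most `n` -/
theorem Separable.alt {p : List ℕ} (h : Separable p) :
    1 ≤ p.length ∧ ∀ n, p.length ≤ n + 1 → Alt true n p ∨ Alt false n p := by
  induction h with
  | one => exact ⟨le_rfl, fun n _ => Or.inl (Alt.one true n)⟩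
  | @osum a b _ _ iha ihb =>
    have hl : (RT22P.osum a b).length = a.length + b.length := by
      unfold RT22P.osum
      simp
    have h1 := iha.1
    have h2 := ihb.1
    refine ⟨by omega, fun n hn => Or.inl ?_⟩
    obtain ⟨m, rfl⟩ : ∃ m, n = m + 1 := ⟨n - 1, by omega⟩
    refine Alt.osum ?_ ?_
    · rcases iha.2 m (by omega) with h3 | h3
      · exact galt_mono h3 _ (by omega)
      · exact Alt.up h3
    · rcases ihb.2 m (by omega) with h3 | h3
      · exact galt_mono h3 _ (by omega)
      · exact Alt.up h3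
  | @skew a b _ _ iha ihb =>
    have hl : (RT22P.skew a b).length = a.length + b.length := by
      unfold RT22P.skew
      simp
    have h1 := iha.1
    have h2 := ihb.1
    refine ⟨by omega, fun n hn => Or.inr ?_⟩
    obtain ⟨m, rfl⟩ : ∃ m, n = m + 1 := ⟨n - 1, by omega⟩
    refine Alt.skew ?_ ?_
    · rcases iha.2 m (by omega) with h3 | h3
      · exact Alt.up h3
      · exact galt_mono h3 _ (by omega)
    · rcases ihb.2 m (by omega) with h3 | h3
      · exact Alt.up h3
      · exact galt_mono h3 _ (by omega)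

/-- alternation depth at most `5`, in particular at most `6` points -/
theorem inG_of_alt {p : List ℕ} (h : Alt true 5 p ∨ Alt false 5 p) : InG1 p ∨ InG0 p := by
  rcases h with h | h
  · exact Or.inr h.inG0
  · exact Or.inl h.inG1

theorem inG_of_small {p : List ℕ} (h : Separable p) (hl : p.length ≤ 6) : InG1 p ∨ InG0 p :=
  inG_of_alt (h.alt.2 5 hl)

end RT22P
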