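import Pool.Agent.RTP.GDefs
import Pool.Agent.RTP.Chain

/-!
# Theorem G: from the environments to the models of `RCA₀`
-/

set_option autoImplicit false

namespace RT22P

theorem final_bri (hF : StFin) (hT1 : StTree1) (hT0 : StTree0) {M : Type} [Zero M] [One M] [Add M]
    [Mul M] [LT M] {S : Set (Set M)} (hS : IsRCA0 S) {p : List ℕ} (hp : InG1 p ∨ InG0 p)
    (h : RT22p S p) : RT22 S := by
  rcases hp with hp | hp
  · obtain ⟨q, hq1, hq⟩ := hT1 p hp
    exact bridge hS (fun _ _ _ _ _ S => RT22p S p → RT22 S)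
      (fun E h => raw_of_rtt (hF _ q hq1 (rtp_of_raw hq h))) h
  · obtain ⟨q, hq1, hq⟩ := hT0 p hp
    exact bridge hS (fun _ _ _ _ _ S => RT22p S p → RT22 S)
      (fun E h => raw_of_rtt (hF _ q.compl hq1 (rtp_compl (rtp_of_raw hq h)))) h

end RT22P
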