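import Pool.Agent.RTP.GDefs

/-!
# Theorem G: the least candidate and the function `psi`
-/

set_option autoImplicit false

namespace RT22P

open Env

section
variable {M : Type} [EnvB M]

private theorem gcand_lc {f : M → M → Prop} (hf : Comp M (fun q : M × M => f q.1 q.2)) (c : Bool)
    {A : M → Prop} (hA : Comp M A) {e : M → M} (he : LC M e) :
    LC M (fun q : M × M => A q.2 ∧ (Sub q.2 (e q.1) ∧
      ∀ x, el x q.2 → (x < q.1 ∧ cl f c x q.1))) := by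
  refine lc_and _ _ (comp_comp A (fun q : M × M => q.2) hA (by fun_prop)).lc
    (lc_and _ _ (by fun_prop) ?_)
  refine (comp_allel (fun q : M × M => q.2) (fun q x => x < q.1 ∧ cl f c x q.1) (by fun_prop)
    ?_).lc
  exact comp_and _ _ (by fun_prop) (comp_clF f hf c _ _ (by fun_prop) (by fun_prop))

private theorem gcand_iff {f : M → M → Prop} {E : M → Prop} {X : Set M} {k e : M → M} {c : Bool}
    {A : M → Prop} (he : ∀ z ∈ X, ∀ x, el x (e z) ↔ (x ∈ X ∧ E x ∧ k x = k z)) {w : M}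
    (hw : w ∈ X) (a : M) : Cand f E X k c A w a ↔ (A a ∧ (Sub a (e w) ∧
      ∀ x, el x a → (x < w ∧ cl f c x w))) := by
  constructor
  · rintro ⟨h1, h2, h3⟩
    exact ⟨h1, fun x hx => (he w hw x).2 ⟨h2 x hx, (h3 x hx).1, (h3 x hx).2.1⟩,
      fun x hx => (h3 x hx).2.2⟩
  · rintro ⟨h1, h2, h3⟩
    exact ⟨h1, fun x hx => ((he w hw x).1 (h2 x hx)).1, fun x hx =>
      ⟨((he w hw x).1 (h2 x hx)).2.1, ((he w hw x).1 (h2 x hx)).2.2, h3 x hx⟩⟩

/-- least element for `(mx, code)` of a limit computable bounded relation -/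
private theorem gcand_least {C : M → M → Prop} (hC : LC M (fun q : M × M => C q.1 q.2))
    {b : M → M} (hb : LC M b) (hCb : ∀ w a, C w a → a ≤ b w) :
    ∃ Q : M → M, LC M Q ∧ ∀ w, ((¬ ∃ a, C w a) → Q w = 0) ∧
      ((∃ a, C w a) → C w (Q w) ∧ ∀ a, C w a → mx (Q w) < mx a ∨ (mx (Q w) = mx a ∧ Q w ≤ a)) := by
  -- the least `mx`
  have h1 : LC M (fun q : M × M => (∃ a, a ≤ b q.1 ∧ (C q.1 a ∧ mx a = q.2)) ∨
      ∀ a, a ≤ b q.1 → ¬ C q.1 a) := by
    refine lc_or _ _ (lc_bexle (fun q : M × M => b q.1) (fun q a => C q.1 a ∧ mx a = q.2)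
      (lc_comp b (fun q : M × M => q.1) hb (by fun_prop)) (lc_and _ _ ?_ (by fun_prop)))
      (lc_ballle (fun q : M × M => b q.1) (fun q a => ¬ C q.1 a)
      (lc_comp b (fun q : M × M => q.1) hb (by fun_prop)) (lc_not _ ?_))
    · exact lc_comp (fun q : M × M => C q.1 q.2) (fun q : (M × M) × M => (q.1.1, q.2)) hC
        (by fun_prop)
    · exact lc_comp (fun q : M × M => C q.1 q.2) (fun q : (M × M) × M => (q.1.1, q.2)) hC
        (by fun_prop)
  obtain ⟨m, hm, hm'⟩ := lc_search (M := M) (Γ := M) (P := fun w y =>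
      (∃ a, a ≤ b w ∧ (C w a ∧ mx a = y)) ∨ ∀ a, a ≤ b w → ¬ C w a) h1 (fun w => by
    by_cases h : ∃ a, C w a
    · obtain ⟨a, ha⟩ := h
      exact ⟨mx a, Or.inl ⟨a, hCb w a ha, ha, rfl⟩⟩
    · exact ⟨0, Or.inr fun a _ ha => h ⟨a, ha⟩⟩)
  have h2 : LC M (fun q : M × M => (C q.1 q.2 ∧ mx q.2 = m q.1) ∨
      ∀ a, a ≤ b q.1 → ¬ C q.1 a) := by
    refine lc_or _ _ (lc_and _ _ hC (lc_eq _ _ (by fun_prop)
      (lc_comp m (fun q : M × M => q.1) hm (by fun_prop))))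
      (lc_ballle (fun q : M × M => b q.1) (fun q a => ¬ C q.1 a)
      (lc_comp b (fun q : M × M => q.1) hb (by fun_prop)) (lc_not _ ?_))
    exact lc_comp (fun q : M × M => C q.1 q.2) (fun q : (M × M) × M => (q.1.1, q.2)) hC
      (by fun_prop)
  obtain ⟨Q, hQ, hQ'⟩ := lc_search (M := M) (Γ := M) (P := fun w y =>
      (C w y ∧ mx y = m w) ∨ ∀ a, a ≤ b w → ¬ C w a) h2 (fun w => by
    rcases (hm' w).1 with ⟨a, _, ha, ha'⟩ | h
    · exact ⟨a, Or.inl ⟨ha, ha'⟩⟩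
    · exact ⟨0, Or.inr h⟩)
  refine ⟨Q, hQ, fun w => ⟨fun h => ?_, fun h => ?_⟩⟩
  · by_contra hne
    exact (hQ' w).2 0 (pos_iff.2 hne) (Or.inr fun a _ ha => h ⟨a, ha⟩)
  · obtain ⟨a0, ha0⟩ := h
    have hn : ¬ ∀ a, a ≤ b w → ¬ C w a := fun h => h a0 (hCb w a0 ha0) ha0
    rcases (hQ' w).1 with ⟨h3, h4⟩ | h3
    · refine ⟨h3, fun a ha => ?_⟩
      have h5 : m w ≤ mx a := by
        by_contra hcon
        exact (hm' w).2 _ (not_le.1 hcon) (Or.inl ⟨a, hCb w a ha, ha, rfl⟩)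
      rw [h4]
      rcases lt_or_eq_of_le h5 with h6 | h6
      · exact Or.inl h6
      · refine Or.inr ⟨h6, ?_⟩
        by_contra hcon
        exact (hQ' w).2 _ (not_le.1 hcon) (Or.inl ⟨ha, h6.symm⟩)
    · exact absurd h3 hn

end

theorem cand (hCl : StCls) : StCand := by
  intro M _ f hf act a hAct E X k hC c A hA hne
  obtain ⟨e, he, he'⟩ := hCl M act a hAct E X k hC E hC.lcE
  obtain ⟨Q, hQ, hQ'⟩ := gcand_least (C := fun w a => A a ∧ (Sub a (e w) ∧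
      ∀ x, el x a → (x < w ∧ cl f c x w))) (gcand_lc hf c hA he) he
      (fun w a h => h.2.1.le)
  refine ⟨Q, hQ, fun w hw => ?_⟩
  have hiff := gcand_iff (f := f) (c := c) (A := A) he' hw
  refine ⟨fun h => (hQ' w).1 ?_, fun h => ?_⟩
  · rintro ⟨a', ha'⟩
    exact h ⟨a', (hiff a').2 ha'⟩
  · obtain ⟨a0, ha0⟩ := h
    obtain ⟨h1, h2⟩ := (hQ' w).2 ⟨a0, (hiff a0).1 ha0⟩
    exact ⟨(hiff _).2 h1, fun a' ha' => h2 a' ((hiff a').1 ha')⟩

theorem psiF (hCl : StCls) : StPsiF := by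
  intro M _ f hf act a hAct E X k hC c A hA
  obtain ⟨e, he, he'⟩ := hCl M act a hAct E X k hC E hC.lcE
  have hlc := gcand_lc hf c hA he
  -- the negation of `mn`: least `t` such that all candidates have `mn ≤ t`
  have h1 : LC M (fun q : M × M => ∀ a, a ≤ e q.1 → ((A a ∧ (Sub a (e q.1) ∧
      ∀ x, el x a → (x < q.1 ∧ cl f c x q.1))) → mn a ≤ q.2)) := by
    refine lc_ballle (fun q : M × M => e q.1) (fun q a => (A a ∧ (Sub a (e q.1) ∧
      ∀ x, el x a → (x < q.1 ∧ cl f c x q.1))) → mn a ≤ q.2)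
      (lc_comp e (fun q : M × M => q.1) he (by fun_prop)) (lc_imp _ _ ?_ (by fun_prop))
    exact lc_comp (fun q : M × M => A q.2 ∧ (Sub q.2 (e q.1) ∧
      ∀ x, el x q.2 → (x < q.1 ∧ cl f c x q.1))) (fun q : (M × M) × M => (q.1.1, q.2)) hlc
      (by fun_prop)
  obtain ⟨psi, hpsi, hpsi'⟩ := lc_search (M := M) (Γ := M) (P := fun z t =>
      ∀ a, a ≤ e z → ((A a ∧ (Sub a (e z) ∧
      ∀ x, el x a → (x < z ∧ cl f c x z))) → mn a ≤ t)) h1 (fun z => ⟨z, fun a _ ha => by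
    by_cases h : ∃ x, el x a
    · obtain ⟨x, hx⟩ := h
      exact le_trans (mn_le hx) (ha.2.2 x hx).1.le
    · unfold mn
      rw [dif_neg h]
      exact zero_le' _⟩)
  refine ⟨psi, hpsi, fun z hz => ?_⟩
  have hiff := gcand_iff (f := f) (c := c) (A := A) he' hz
  have hle : ∀ a, Cand f E X k c A z a → mn a ≤ psi z := fun a' ha' =>
    (hpsi' z).1 a' ((hiff a').1 ha').2.1.le ((hiff a').1 ha')
  refine ⟨hle, fun h => ?_⟩
  obtain ⟨a0, ha0⟩ := h
  by_contra hcon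
  have h2 : ∀ a', Cand f E X k c A z a' → mn a' < psi z := fun a' ha' =>
    lt_of_le_of_ne (hle a' ha') fun h3 => hcon ⟨a', ha', h3⟩
  rcases zero_or_succ (psi z) with h3 | ⟨t, h3⟩
  · have h4 := h2 a0 ha0
    rw [h3] at h4
    exact not_lt_zero' _ h4
  · refine (hpsi' z).2 t (by rw [h3]; exact lt_self_succ t) fun a' _ ha' => ?_
    have h4 := h2 a' ((hiff a').2 ha')
    rw [h3] at h4
    exact lt_succ.1 h4

end RT22P
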