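import Pool.Agent.RTP.PDefs

/-!
# Computability of pieces, sums, copies and trees
-/

set_option autoImplicit false

namespace RT22P

open Env

variable {M : Type} [Env M] {Γ Δ Θ : Type} [Enc M Γ] [Enc M Δ] [Enc M Θ]

theorem el_pc {a C y x : M} :
    el x (pc a C y) ↔ el x a ∧ y ≤ x ∧ ∀ z, el z C → (z ≤ y ∨ x < z) := by
  have := (exists_code (P := fun x => el x a ∧ y ≤ x ∧ ∀ z, el z C → (z ≤ y ∨ x < z))
    (by fun_prop) a).choose_spec x
  rw [pc, this]
  constructor
  · exact fun h => h.2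
  · exact fun h => ⟨el_lt h.1, h⟩

@[fun_prop] theorem comp_pc (a C y : Γ → M) (ha : Comp M a) (hC : Comp M C) (hy : Comp M y) :
    Comp M (fun v => pc (a v) (C v) (y v)) := by
  refine comp_code (b := a)
    (P := fun v x => el x (a v) ∧ y v ≤ x ∧ ∀ z, el z (C v) → (z ≤ y v ∨ x < z)) ha ?_ ?_
  · fun_prop
  · intro v x
    rw [el_pc]
    exact ⟨fun h => ⟨el_lt h.1, h⟩, fun h => h.2⟩

@[fun_prop] theorem comp_clF (f : M → M → Prop) (hf : Comp M (fun q : M × M => f q.1 q.2))
    (c : Bool) (g h : Γ → M) (hg : Comp M g) (hh : Comp M h) :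
    Comp M (fun v => cl f c (g v) (h v)) := by
  unfold cl
  fun_prop

theorem comp_Isum {f : M → M → Prop} (hf : Comp M (fun q : M × M => f q.1 q.2)) (c : Bool)
    {P : Γ → M → Prop} (hP : Comp M (fun q : Γ × M => P q.1 q.2)) {R a : Γ → M} (hR : Comp M R)
    (ha : Comp M a) : Comp M (fun v => Isum f c (P v) (R v) (a v)) := by
  unfold Isum
  fun_prop

theorem comp_Cpy {f : M → M → Prop} (hf : Comp M (fun q : M × M => f q.1 q.2)) (q : Sp) :
    Comp M (fun a => Cpy f q a) := by
  induction q with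
  | pt => unfold Cpy; fun_prop
  | op c p q ihp ihq =>
    simp only [Cpy]
    fun_prop

theorem comp_Tr {f : M → M → Prop} (hf : Comp M (fun q : M × M => f q.1 q.2)) (j : ℕ)
    (c : Bool) : Comp M (fun q : M × M => Tr f j c q.1 q.2) := by
  induction j generalizing c with
  | zero => simp only [Tr]; fun_prop
  | succ j ih =>
    simp only [Tr]
    exact comp_Isum hf c (P := fun q : M × M => Tr f j (!c) q.1) (by have := ih (!c); fun_prop)
      (by fun_prop) (by fun_prop)

end RT22P
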