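import Pool.Agent.RTP.PDefs
import Pool.Agent.RTP.PBas

/-!
# Limit computable functions and predicates (`Δ₂`)

`D2 M h`: the function (or predicate) `h` is the pointwise limit of a computable function.  `D2` goals
built from computable functions are solved by `fun_prop`; bounded quantifiers, bounded comprehension and
search need `BPi M` (bounding).
-/

set_option autoImplicit false

namespace RT22P

open Env

/-- `h` is limit computable -/
@[fun_prop]
def D2 (M : Type) [Pre M] {Γ Δ : Type} [Enc M Γ] [Cod M Δ] (h : Γ → Δ) : Prop :=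
  ∃ g : Γ → M → Δ, Comp M (fun q : Γ × M => g q.1 q.2) ∧ ∀ v, ∃ b, ∀ s, b ≤ s → g v s = h v

variable {M : Type} [Env M] {Γ Δ Θ : Type} [Enc M Γ] [Enc M Δ] [Enc M Θ]

@[fun_prop] theorem Comp.d2 {Λ : Type} [Cod M Λ] (h : Γ → Λ) (hh : Comp M h) : D2 M h :=
  ⟨fun v _ => h v, comp_comp h (fun q : Γ × M => q.1) hh (comp_fst _ comp_id),
    fun _ => ⟨0, fun _ _ => rfl⟩⟩

@[fun_prop] theorem d2_id : D2 M (fun x : Γ => x) := Comp.d2 _ comp_id

@[fun_prop] theorem d2_const (c : Δ) : D2 M (fun _ : Γ => c) := Comp.d2 _ (comp_const c)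

@[fun_prop] theorem d2_constP (c : Prop) : D2 M (fun _ : Γ => c) := Comp.d2 _ (comp_constP c)

@[fun_prop] theorem d2_comp {Λ : Type} [Cod M Λ] (f : Δ → Λ) (g : Γ → Δ) (hf : D2 M f)
    (hg : D2 M g) : D2 M (fun x => f (g x)) := by
  obtain ⟨F, hF, hF'⟩ := hf
  obtain ⟨G, hG, hG'⟩ := hg
  refine ⟨fun v s => F (G v s) s, ?_, fun v => ?_⟩
  · exact comp_comp (fun q : Δ × M => F q.1 q.2) (fun q : Γ × M => (G q.1 q.2, q.2)) hF
      (comp_prod _ _ hG (comp_snd _ comp_id))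
  · obtain ⟨b, hb⟩ := hG' v
    obtain ⟨b', hb'⟩ := hF' (g v)
    refine ⟨b + b', fun s hs => ?_⟩
    show F (G v s) s = f (g v)
    rw [hb s (le_trans le_self_add hs), hb' s (le_trans le_add_self hs)]

@[fun_prop] theorem d2_prod (f : Γ → Δ) (g : Γ → Θ) (hf : D2 M f) (hg : D2 M g) :
    D2 M (fun x => (f x, g x)) := by
  obtain ⟨F, hF, hF'⟩ := hf
  obtain ⟨G, hG, hG'⟩ := hg
  refine ⟨fun v s => (F v s, G v s), comp_prod _ _ hF hG, fun v => ?_⟩
  obtain ⟨b, hb⟩ := hF' v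
  obtain ⟨b', hb'⟩ := hG' v
  refine ⟨b + b', fun s hs => ?_⟩
  show (F v s, G v s) = (f v, g v)
  rw [hb s (le_trans le_self_add hs), hb' s (le_trans le_add_self hs)]

@[fun_prop] theorem d2_fst (f : Γ → Δ × Θ) (hf : D2 M f) : D2 M (fun x => (f x).1) :=
  d2_comp (fun q : Δ × Θ => q.1) f (Comp.d2 _ (comp_fst _ comp_id)) hf

@[fun_prop] theorem d2_snd (f : Γ → Δ × Θ) (hf : D2 M f) : D2 M (fun x => (f x).2) :=
  d2_comp (fun q : Δ × Θ => q.2) f (Comp.d2 _ (comp_snd _ comp_id)) hf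

@[fun_prop] theorem d2_add (f g : Γ → M) (hf : D2 M f) (hg : D2 M g) :
    D2 M (fun x => f x + g x) :=
  d2_comp (fun q : M × M => q.1 + q.2) (fun x => (f x, g x)) (Comp.d2 _ (by fun_prop))
    (d2_prod _ _ hf hg)

@[fun_prop] theorem d2_mul (f g : Γ → M) (hf : D2 M f) (hg : D2 M g) :
    D2 M (fun x => f x * g x) :=
  d2_comp (fun q : M × M => q.1 * q.2) (fun x => (f x, g x)) (Comp.d2 _ (by fun_prop))
    (d2_prod _ _ hf hg)

@[fun_prop] theorem d2_lt (f g : Γ → M) (hf : D2 M f) (hg : D2 M g) :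
    D2 M (fun x => f x < g x) :=
  d2_comp (fun q : M × M => q.1 < q.2) (fun x => (f x, g x)) (Comp.d2 _ (by fun_prop))
    (d2_prod _ _ hf hg)

@[fun_prop] theorem d2_le (f g : Γ → M) (hf : D2 M f) (hg : D2 M g) :
    D2 M (fun x => f x ≤ g x) :=
  d2_comp (fun q : M × M => q.1 ≤ q.2) (fun x => (f x, g x)) (Comp.d2 _ (by fun_prop))
    (d2_prod _ _ hf hg)

@[fun_prop] theorem d2_eq (f g : Γ → Δ) (hf : D2 M f) (hg : D2 M g) :
    D2 M (fun x => f x = g x) :=
  d2_comp (fun q : Δ × Δ => q.1 = q.2) (fun x => (f x, g x)) (Comp.d2 _ (by fun_prop))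
    (d2_prod _ _ hf hg)

@[fun_prop] theorem d2_elF (f g : Γ → M) (hf : D2 M f) (hg : D2 M g) :
    D2 M (fun x => el (f x) (g x)) :=
  d2_comp (fun q : M × M => el q.1 q.2) (fun x => (f x, g x)) (Comp.d2 _ (by fun_prop))
    (d2_prod _ _ hf hg)

@[fun_prop] theorem d2_SubF (f g : Γ → M) (hf : D2 M f) (hg : D2 M g) :
    D2 M (fun x => Sub (f x) (g x)) :=
  d2_comp (fun q : M × M => Sub q.1 q.2) (fun x => (f x, g x)) (Comp.d2 _ (by fun_prop))
    (d2_prod _ _ hf hg)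

@[fun_prop] theorem d2_card (f : Γ → M) (hf : D2 M f) : D2 M (fun x => card (f x)) :=
  d2_comp (fun x : M => card x) f (Comp.d2 _ (by fun_prop)) hf

@[fun_prop] theorem d2_blw (f g : Γ → M) (hf : D2 M f) (hg : D2 M g) :
    D2 M (fun x => blw (f x) (g x)) :=
  d2_comp (fun q : M × M => blw q.1 q.2) (fun x => (f x, g x)) (Comp.d2 _ (by fun_prop))
    (d2_prod _ _ hf hg)

@[fun_prop] theorem d2_un (f g : Γ → M) (hf : D2 M f) (hg : D2 M g) :
    D2 M (fun x => un (f x) (g x)) :=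
  d2_comp (fun q : M × M => un q.1 q.2) (fun x => (f x, g x)) (Comp.d2 _ (by fun_prop))
    (d2_prod _ _ hf hg)

@[fun_prop] theorem d2_itr (f g : Γ → M) (hf : D2 M f) (hg : D2 M g) :
    D2 M (fun x => itr (f x) (g x)) :=
  d2_comp (fun q : M × M => itr q.1 q.2) (fun x => (f x, g x)) (Comp.d2 _ (by fun_prop))
    (d2_prod _ _ hf hg)

@[fun_prop] theorem d2_mn (f : Γ → M) (hf : D2 M f) : D2 M (fun x => mn (f x)) :=
  d2_comp (fun x : M => mn x) f (Comp.d2 _ (by fun_prop)) hf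

@[fun_prop] theorem d2_mx (f : Γ → M) (hf : D2 M f) : D2 M (fun x => mx (f x)) :=
  d2_comp (fun x : M => mx x) f (Comp.d2 _ (by fun_prop)) hf

@[fun_prop] theorem d2_not (P : Γ → Prop) (hP : D2 M P) : D2 M (fun x => ¬ P x) := by
  obtain ⟨p, hp, hp'⟩ := hP
  refine ⟨fun v s => ¬ p v s, comp_not _ hp, fun v => ?_⟩
  obtain ⟨b, hb⟩ := hp' v
  exact ⟨b, fun s hs => by show (¬ p v s) = (¬ P v); rw [hb s hs]⟩

@[fun_prop] theorem d2_and (P Q : Γ → Prop) (hP : D2 M P) (hQ : D2 M Q) :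
    D2 M (fun x => P x ∧ Q x) := by
  obtain ⟨p, hp, hp'⟩ := hP
  obtain ⟨q, hq, hq'⟩ := hQ
  refine ⟨fun v s => p v s ∧ q v s, comp_and _ _ hp hq, fun v => ?_⟩
  obtain ⟨b, hb⟩ := hp' v
  obtain ⟨b', hb'⟩ := hq' v
  refine ⟨b + b', fun s hs => ?_⟩
  show (p v s ∧ q v s) = (P v ∧ Q v)
  rw [hb s (le_trans le_self_add hs), hb' s (le_trans le_add_self hs)]

theorem D2.congr {Λ : Type} [Cod M Λ] {f g : Γ → Λ} (hf : D2 M f) (h : ∀ v, f v = g v) :
    D2 M g := by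
  have e : f = g := funext h
  rwa [← e]

theorem D2.iff {P Q : Γ → Prop} (hP : D2 M P) (h : ∀ v, P v ↔ Q v) : D2 M Q :=
  hP.congr fun v => propext (h v)

@[fun_prop] theorem d2_or (P Q : Γ → Prop) (hP : D2 M P) (hQ : D2 M Q) :
    D2 M (fun x => P x ∨ Q x) :=
  D2.iff (d2_not _ (d2_and _ _ (d2_not _ hP) (d2_not _ hQ))) fun v => by tauto

@[fun_prop] theorem d2_imp (P Q : Γ → Prop) (hP : D2 M P) (hQ : D2 M Q) :
    D2 M (fun x => P x → Q x) :=
  D2.iff (d2_not _ (d2_and _ _ hP (d2_not _ hQ))) fun v => by tauto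

@[fun_prop] theorem d2_iff (P Q : Γ → Prop) (hP : D2 M P) (hQ : D2 M Q) :
    D2 M (fun x => P x ↔ Q x) :=
  D2.iff (d2_and _ _ (d2_imp P Q hP hQ) (d2_imp Q P hQ hP)) fun v => by tauto

theorem d2_ite {P : Γ → Prop} [DecidablePred P] {f g : Γ → Δ} (hP : D2 M P) (hf : D2 M f)
    (hg : D2 M g) : D2 M (fun x => if P x then f x else g x) := by
  classical
  obtain ⟨p, hp, hp'⟩ := hP
  obtain ⟨F, hF, hF'⟩ := hf
  obtain ⟨G, hG, hG'⟩ := hg
  refine ⟨fun v s => if p v s then F v s else G v s, comp_ite hp hF hG, fun v => ?_⟩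
  obtain ⟨b, hb⟩ := hp' v
  obtain ⟨b1, hb1⟩ := hF' v
  obtain ⟨b2, hb2⟩ := hG' v
  refine ⟨b + b1 + b2, fun s hs => ?_⟩
  have h1 : b ≤ s := le_trans (le_trans le_self_add le_self_add) hs
  have h2 : b1 ≤ s := le_trans (le_trans le_add_self le_self_add) hs
  have h3 : b2 ≤ s := le_trans le_add_self hs
  by_cases h : P v
  · have h' : p v s := by rw [hb s h1]; exact h
    show (if p v s then F v s else G v s) = (if P v then f v else g v)
    rw [if_pos h, if_pos h', hb1 s h2]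
  · have h' : ¬ p v s := by rw [hb s h1]; exact h
    show (if p v s then F v s else G v s) = (if P v then f v else g v)
    rw [if_neg h, if_neg h', hb2 s h3]

/-- membership in a set of the model -/
theorem d2_mem {X : Set M} (hX : Comp M (fun x => x ∈ X)) {f : Γ → M} (hf : D2 M f) :
    D2 M (fun v => f v ∈ X) := d2_comp (fun x : M => x ∈ X) f (Comp.d2 _ hX) hf

private theorem gd2_unifP (hB : BPi M) {p : M → M → Prop}
    (hp : Comp M (fun q : M × M => p q.1 q.2)) {P : M → Prop}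
    (h : ∀ x, ∃ b, ∀ s, b ≤ s → p x s = P x) (a : M) :
    ∃ b, ∀ x, x < a → ∀ s, b ≤ s → p x s = P x := by
  obtain ⟨b, hb⟩ := hB (fun x s => (p x (s + 1) ↔ p x s)) (comp_iff _ _
    (comp_comp (fun q : M × M => p q.1 q.2) (fun q : M × M => (q.1, q.2 + 1)) hp (by fun_prop))
    hp) a (by
    intro x _
    obtain ⟨b, hb⟩ := h x
    refine ⟨b, fun s hs => ?_⟩
    rw [hb s hs, hb (s + 1) (le_trans hs (lt_self_succ s).le)])
  refine ⟨b, fun x hx => ?_⟩
  have key : ∀ t : M, (p x (b + t) ↔ p x b) := by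
    refine cind (P := fun t => (p x (b + t) ↔ p x b)) ?_ ?_ ?_
    · refine comp_iff _ _ ?_ (comp_constP _)
      exact comp_comp (fun q : M × M => p q.1 q.2) (fun t : M => (x, b + t)) hp (by fun_prop)
    · rw [add_zero]
    · intro t ht
      rw [← add_assoc, hb x hx (b + t) le_self_add, ht]
  obtain ⟨b', hb'⟩ := h x
  intro s hs
  obtain ⟨t, rfl⟩ := exists_add_of_le hs
  have h1 := key t
  have h2 := key b'
  rw [hb' (b + b') le_add_self] at h2
  rw [propext h1, ← propext h2]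

private theorem gd2_unif (hB : BPi M) {g : M → M → Δ}
    (hg : Comp M (fun q : M × M => g q.1 q.2)) {h : M → Δ}
    (hh : ∀ x, ∃ b, ∀ s, b ≤ s → g x s = h x) (a : M) :
    ∃ b, ∀ x, x < a → ∀ s, b ≤ s → g x s = h x := by
  obtain ⟨b, hb⟩ := hB (fun x s => (g x (s + 1) = g x s)) (comp_eq _ _
    (comp_comp (fun q : M × M => g q.1 q.2) (fun q : M × M => (q.1, q.2 + 1)) hg (by fun_prop))
    hg) a (by
    intro x _
    obtain ⟨b, hb⟩ := hh x
    refine ⟨b, fun s hs => ?_⟩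
    rw [hb s hs, hb (s + 1) (le_trans hs (lt_self_succ s).le)])
  refine ⟨b, fun x hx => ?_⟩
  have key : ∀ t : M, (g x (b + t) = g x b) := by
    refine cind (P := fun t => (g x (b + t) = g x b)) ?_ ?_ ?_
    · refine comp_eq _ _ ?_ (comp_const _)
      exact comp_comp (fun q : M × M => g q.1 q.2) (fun t : M => (x, b + t)) hg (by fun_prop)
    · rw [add_zero]
    · intro t ht
      rw [← add_assoc, hb x hx (b + t) le_self_add, ht]
  obtain ⟨b', hb'⟩ := hh x
  intro s hs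
  obtain ⟨t, rfl⟩ := exists_add_of_le hs
  rw [key t, ← hb' (b + b') le_add_self, key b']

/-- a limit computable predicate is computable below every bound -/
theorem D2.fin (hB : BPi M) {P : M → Prop} (hP : D2 M P) (a : M) :
    ∃ Q : M → Prop, Comp M Q ∧ ∀ x, x < a → (Q x ↔ P x) := by
  obtain ⟨p, hp, hp'⟩ := hP
  obtain ⟨b, hb⟩ := gd2_unifP hB hp hp' a
  refine ⟨fun x => p x b, comp_comp (fun q : M × M => p q.1 q.2) (fun x : M => (x, b)) hp
    (by fun_prop), fun x hx => ?_⟩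
  show p x b ↔ P x
  rw [hb x hx b le_rfl]

/-- a limit computable function is computable below every bound -/
theorem D2.finf (hB : BPi M) {h : M → Δ} (hh : D2 M h) (a : M) :
    ∃ g : M → Δ, Comp M g ∧ ∀ x, x < a → g x = h x := by
  obtain ⟨g, hg, hg'⟩ := hh
  obtain ⟨b, hb⟩ := gd2_unif hB hg hg' a
  exact ⟨fun x => g x b, comp_comp (fun q : M × M => g q.1 q.2) (fun x : M => (x, b)) hg
    (by fun_prop), fun x hx => hb x hx b le_rfl⟩

/-- bounded `Δ₂` comprehension -/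
theorem D2.code (hB : BPi M) {P : M → Prop} (hP : D2 M P) (a : M) :
    ∃ c, ∀ x, el x c ↔ x < a ∧ P x := by
  obtain ⟨Q, hQ, h⟩ := hP.fin hB a
  obtain ⟨c, hc⟩ := exists_code hQ a
  refine ⟨c, fun x => ?_⟩
  rw [hc x]
  exact and_congr_right fun hx => h x hx

/-- least element of a `Δ₂` predicate -/
theorem D2.least (hB : BPi M) {P : M → Prop} (hP : D2 M P) (h : ∃ x, P x) :
    ∃ x, P x ∧ ∀ y, y < x → ¬ P y := by
  obtain ⟨x0, hx0⟩ := h
  obtain ⟨Q, hQ, hQP⟩ := hP.fin hB (x0 + 1)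
  obtain ⟨x, hx, hmin⟩ := leastC hQ ⟨x0, (hQP x0 (lt_self_succ x0)).2 hx0⟩
  have hxx : x ≤ x0 := not_lt.1 fun hlt => hmin x0 hlt ((hQP x0 (lt_self_succ x0)).2 hx0)
  refine ⟨x, (hQP x (lt_succ.2 hxx)).1 hx, fun y hy hPy => hmin y hy ?_⟩
  exact (hQP y (lt_of_lt_of_le hy (le_trans hxx (lt_self_succ x0).le))).2 hPy

/-- greatest element of a bounded `Δ₂` predicate -/
theorem D2.greatest (hB : BPi M) {P : M → Prop} (hP : D2 M P) (h : ∃ x, P x) (b : M)
    (hb : ∀ x, P x → x < b) : ∃ x, P x ∧ ∀ y, P y → y ≤ x := by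
  obtain ⟨Q, hQ, hQP⟩ := hP.fin hB b
  obtain ⟨x0, hx0⟩ := h
  obtain ⟨x, ⟨hx, hxb⟩, hmax⟩ := greatestC (P := fun x => Q x ∧ x < b) (by fun_prop)
    ⟨x0, (hQP x0 (hb x0 hx0)).2 hx0, hb x0 hx0⟩ b (fun _ hx => hx.2)
  exact ⟨x, (hQP x hxb).1 hx, fun y hy => hmax y ⟨(hQP y (hb y hy)).2 hy, hb y hy⟩⟩

/-- induction for `Δ₂` predicates -/
theorem D2.ind (hB : BPi M) {P : M → Prop} (hP : D2 M P) (h0 : P 0)
    (h1 : ∀ x, P x → P (x + 1)) : ∀ x, P x := by
  by_contra hcon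
  push Not at hcon
  obtain ⟨x, hx, hmin⟩ := D2.least hB (d2_not _ hP) hcon
  rcases zero_or_succ x with rfl | ⟨y, rfl⟩
  · exact hx h0
  · exact hx (h1 y (not_not.1 (hmin y (lt_self_succ y))))

private theorem gd2_fix {p : (Γ × M) → M → Prop} (v : Γ)
    (hp : Comp M (fun q : (Γ × M) × M => p q.1 q.2)) :
    Comp M (fun q : M × M => p (v, q.1) q.2) :=
  comp_comp (fun q : (Γ × M) × M => p q.1 q.2) (fun q : M × M => ((v, q.1), q.2)) hp
    (by fun_prop)

/-- bounded quantifiers -/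
theorem d2_ball (hB : BPi M) {t : Γ → M} {P : Γ → M → Prop} (ht : D2 M t)
    (hP : D2 M (fun q : Γ × M => P q.1 q.2)) : D2 M (fun v => ∀ y, y < t v → P v y) := by
  obtain ⟨T, hT, hT'⟩ := ht
  obtain ⟨p, hp, hp'⟩ := hP
  refine ⟨fun v s => ∀ y, y < T v s → p (v, y) s, ?_, fun v => ?_⟩
  · refine comp_ball (fun q : Γ × M => T q.1 q.2) (fun q y => p (q.1, y) q.2) hT ?_
    exact comp_comp (fun q : (Γ × M) × M => p q.1 q.2)
      (fun q : (Γ × M) × M => ((q.1.1, q.2), q.1.2)) hp (by fun_prop)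
  · obtain ⟨b, hb⟩ := hT' v
    obtain ⟨b', hb'⟩ := gd2_unifP (P := fun y => P v y) hB (gd2_fix v hp)
      (fun y => hp' (v, y)) (t v)
    refine ⟨b + b', fun s hs => propext ?_⟩
    show (∀ y, y < T v s → p (v, y) s) ↔ (∀ y, y < t v → P v y)
    rw [hb s (le_trans le_self_add hs)]
    refine forall_congr' fun y => forall_congr' fun hy => ?_
    rw [hb' y hy s (le_trans le_add_self hs)]

theorem d2_bex (hB : BPi M) {t : Γ → M} {P : Γ → M → Prop} (ht : D2 M t)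
    (hP : D2 M (fun q : Γ × M => P q.1 q.2)) : D2 M (fun v => ∃ y, y < t v ∧ P v y) :=
  D2.iff (d2_not _ (d2_ball hB (P := fun v y => ¬ P v y) ht (d2_not _ hP))) fun v => by
    push Not; rfl

theorem d2_ballle (hB : BPi M) {t : Γ → M} {P : Γ → M → Prop} (ht : D2 M t)
    (hP : D2 M (fun q : Γ × M => P q.1 q.2)) : D2 M (fun v => ∀ y, y ≤ t v → P v y) :=
  D2.iff (d2_ball hB (t := fun v => t v + 1) (P := P) (by fun_prop) hP) fun v =>
    ⟨fun h y hy => h y (lt_succ.2 hy), fun h y hy => h y (lt_succ.1 hy)⟩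

theorem d2_bexle (hB : BPi M) {t : Γ → M} {P : Γ → M → Prop} (ht : D2 M t)
    (hP : D2 M (fun q : Γ × M => P q.1 q.2)) : D2 M (fun v => ∃ y, y ≤ t v ∧ P v y) :=
  D2.iff (d2_not _ (d2_ballle hB (P := fun v y => ¬ P v y) ht (d2_not _ hP))) fun v => by
    push Not; rfl

theorem d2_allel (hB : BPi M) {t : Γ → M} {P : Γ → M → Prop} (ht : D2 M t)
    (hP : D2 M (fun q : Γ × M => P q.1 q.2)) : D2 M (fun v => ∀ y, el y (t v) → P v y) :=
  D2.iff (d2_ball hB (P := fun v y => el y (t v) → P v y) ht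
    (d2_imp _ _ (by fun_prop) hP)) fun v =>
    ⟨fun h y hy => h y (el_lt hy) hy, fun h y _ hy => h y hy⟩

theorem d2_exel (hB : BPi M) {t : Γ → M} {P : Γ → M → Prop} (ht : D2 M t)
    (hP : D2 M (fun q : Γ × M => P q.1 q.2)) : D2 M (fun v => ∃ y, el y (t v) ∧ P v y) :=
  D2.iff (d2_not _ (d2_allel hB (P := fun v y => ¬ P v y) ht (d2_not _ hP))) fun v => by
    push Not; rfl

theorem d2_allsub (hB : BPi M) {t : Γ → M} {P : Γ → M → Prop} (ht : D2 M t)
    (hP : D2 M (fun q : Γ × M => P q.1 q.2)) : D2 M (fun v => ∀ y, Sub y (t v) → P v y) :=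
  D2.iff (d2_ballle hB (P := fun v y => Sub y (t v) → P v y) ht
    (d2_imp _ _ (by fun_prop) hP)) fun v =>
    ⟨fun h y hy => h y hy.le hy, fun h y _ hy => h y hy⟩

theorem d2_exsub (hB : BPi M) {t : Γ → M} {P : Γ → M → Prop} (ht : D2 M t)
    (hP : D2 M (fun q : Γ × M => P q.1 q.2)) : D2 M (fun v => ∃ y, Sub y (t v) ∧ P v y) :=
  D2.iff (d2_not _ (d2_allsub hB (P := fun v y => ¬ P v y) ht (d2_not _ hP))) fun v => by
    push Not; rfl

/-- bounded `Δ₂` comprehension as a function -/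
theorem d2_code (hB : BPi M) {b : Γ → M} {P : Γ → M → Prop} (hb : D2 M b)
    (hP : D2 M (fun q : Γ × M => P q.1 q.2)) :
    ∃ F : Γ → M, D2 M F ∧ ∀ v x, el x (F v) ↔ x < b v ∧ P v x := by
  have hex : ∀ v, ∃ c, ∀ x, el x c ↔ x < b v ∧ P v x := fun v =>
    D2.code hB (P := fun x => P v x)
      (d2_comp (fun q : Γ × M => P q.1 q.2) (fun x : M => (v, x)) hP (by fun_prop)) (b v)
  choose F hF using hex
  refine ⟨F, ?_, hF⟩
  obtain ⟨T, hT, hT'⟩ := hb
  obtain ⟨p, hp, hp'⟩ := hP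
  obtain ⟨C, hC, hC'⟩ := c_code (M := M) (Γ := Γ × M) (b := fun q => T q.1 q.2)
    (P := fun q : (Γ × M) × M => p (q.1.1, q.2) q.1.2) hT
    (comp_comp (fun q : (Γ × M) × M => p q.1 q.2)
      (fun q : (Γ × M) × M => ((q.1.1, q.2), q.1.2)) hp (by fun_prop))
  refine ⟨fun v s => C (v, s), hC, fun v => ?_⟩
  obtain ⟨b1, hb1⟩ := hT' v
  obtain ⟨b2, hb2⟩ := gd2_unifP (P := fun y => P v y) hB (gd2_fix v hp)
    (fun y => hp' (v, y)) (b v)
  refine ⟨b1 + b2, fun s hs => fext fun x => ?_⟩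
  rw [hC' (v, s) x, hF v x]
  show x < T v s ∧ p (v, x) s ↔ _
  rw [hb1 s (le_trans le_self_add hs)]
  refine and_congr_right fun hx => ?_
  rw [hb2 x hx s (le_trans le_add_self hs)]

/-- least witnesses as a function -/
theorem d2_search (hB : BPi M) {P : Γ → M → Prop} (hP : D2 M (fun q : Γ × M => P q.1 q.2))
    (h : ∀ v, ∃ y, P v y) : ∃ F : Γ → M, D2 M F ∧ ∀ v, P v (F v) ∧ ∀ y, y < F v → ¬ P v y := by
  have hex : ∀ v, ∃ y, P v y ∧ ∀ z, z < y → ¬ P v z := fun v =>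
    D2.least hB (P := fun x => P v x)
      (d2_comp (fun q : Γ × M => P q.1 q.2) (fun x : M => (v, x)) hP (by fun_prop)) (h v)
  choose F hF using hex
  refine ⟨F, ?_, hF⟩
  obtain ⟨p, hp, hp'⟩ := hP
  have hp3 : Comp M (fun q : (Γ × M) × M => p (q.1.1, q.2) q.1.2) :=
    comp_comp (fun q : (Γ × M) × M => p q.1 q.2)
      (fun q : (Γ × M) × M => ((q.1.1, q.2), q.1.2)) hp (by fun_prop)
  obtain ⟨C, hC, hC'⟩ := search_min (P := fun (q : Γ × M) (y : M) => p (q.1, y) q.2 ∨ y = q.2)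
    (comp_or _ _ hp3 (by fun_prop)) (fun q => ⟨q.2, Or.inr rfl⟩)
  refine ⟨fun v s => C (v, s), hC, fun v => ?_⟩
  obtain ⟨b, hb⟩ := gd2_unifP (P := fun y => P v y) hB (gd2_fix v hp)
    (fun y => hp' (v, y)) (F v + 1)
  refine ⟨b + F v, fun s hs => ?_⟩
  have hbs : b ≤ s := le_trans le_self_add hs
  have hFs : F v ≤ s := le_trans le_add_self hs
  obtain ⟨h1, h2⟩ := hC' (v, s)
  have hle : C (v, s) ≤ F v := by
    refine not_lt.1 fun hlt => h2 (F v) hlt (Or.inl ?_)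
    show p (v, F v) s
    rw [hb (F v) (lt_self_succ _) s hbs]
    exact (hF v).1
  refine le_antisymm hle (not_lt.1 fun hlt => ?_)
  rcases h1 with h1 | h1
  · have h3 : p (v, C (v, s)) s := h1
    rw [hb _ (lt_succ.2 hle) s hbs] at h3
    exact (hF v).2 _ hlt h3
  · have h3 : C (v, s) = s := h1
    have hlt' : C (v, s) < F v := hlt
    rw [h3] at hlt'
    exact absurd hFs (not_le.2 hlt')

/-- the limit colour is `Δ₂` -/
theorem Stab.d2 {f : M → M → Prop} (hf : Comp M (fun q : M × M => f q.1 q.2)) {X : Set M}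
    (hX : IS X) (hs : Stab f X) (c : Bool) : D2 M (fun x => x ∈ X ∧ Lim f X c x) := by
  obtain ⟨nx, hnx, hnx'⟩ := search_min (P := fun (y x : M) => y ≤ x ∧ x ∈ X)
    (comp_and _ _ (by fun_prop) (comp_comp (fun x : M => x ∈ X) (fun q : M × M => q.2) hX.comp
      (by fun_prop)))
    (fun y => by
      obtain ⟨x, hx, h⟩ := hX.unb y
      exact ⟨x, h.le, hx⟩)
  refine ⟨fun x s => x ∈ X ∧ cl f c x (nx s), ?_, fun x => ?_⟩
  · refine comp_and _ _ (comp_comp (fun x : M => x ∈ X) (fun q : M × M => q.1) hX.comp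
      (by fun_prop)) ?_
    exact comp_clF f hf c (fun q : M × M => q.1) (fun q : M × M => nx q.2) (by fun_prop)
      (by fun_prop)
  · by_cases hx : x ∈ X
    · obtain ⟨d, b, hb⟩ := hs x hx
      refine ⟨b, fun s hs' => propext (and_congr_right fun _ => ?_)⟩
      have h1 : cl f d x (nx s) := hb _ (hnx' s).1.2 (le_trans hs' (hnx' s).1.1)
      constructor
      · intro h2
        have h3 : d = c := by
          unfold cl at h1 h2
          cases d <;> cases c <;> simp_all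
        rw [← h3]
        exact ⟨b, hb⟩
      · intro h2
        rw [Lim.unique hX h2 ⟨b, hb⟩]
        exact h1
    · exact ⟨0, fun s _ => propext ⟨fun h => absurd h.1 hx, fun h => absurd h.1 hx⟩⟩

section Tests
variable (f : M → M → Prop) (hf : D2 M (fun q : M × M => f q.1 q.2)) (g : M → M) (hg : D2 M g)

include hf hg in
private theorem gd2_test1 : D2 M (fun q : M × M => (f (g q.1) q.2 ∧ q.1 < g q.2) ∨ ¬ f q.2 q.1) := by
  fun_prop

include hf hg in
private theorem gd2_test2 : D2 M (fun q : M × M => (f q.1 q.2 ↔ g q.1 = g q.2) → el (g q.1) q.2) := by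
  fun_prop

include hg in
private theorem gd2_test3 : D2 M (fun x : M => (g x + 1, un x (g (g x)))) := by
  fun_prop

include hf in
private theorem gd2_test4 (hB : BPi M) : D2 M (fun x : M => ∀ y, y < x → f x y) := by
  exact d2_ball hB (by fun_prop) (by fun_prop)

end Tests

end RT22P
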