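import Pool.Agent.RTP.C5b
import Pool.Agent.RTP.GD2

/-!
# The choice lemma for limit computable traces
-/

set_option autoImplicit false

namespace RT22P

open Env

variable {M : Type} [Env M]

/-- choice lemma: `T` is a `Δ₂` trace of bounded size -/
theorem choiceD2 {q : Sp} (h : RTp M q) (hB : BPi M) (hK : NCS M) {D : M → M} (hD : Comp M D)
    (hDu : ∀ b, ∃ n, b < D n) {T : M → M} (hT : D2 M T) (c : M) (hcard : ∀ n, card (T n) ≤ c) :
    ∃ n i : M → M, Comp M n ∧ Comp M i ∧ (∀ j, j ≤ n j) ∧ (∀ j j', j < j' → n j < n j') ∧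
      (∀ j, i j < D (n j)) ∧ ∀ j, ¬ el (i j) (T (n j)) := by
  classical
  obtain ⟨t, ht, ht'⟩ := hT
  have hc : Comp M (fun q : M × M => if card (t q.1 q.2) ≤ c then t q.1 q.2 else emp M) := by
    refine comp_ite (P := fun q : M × M => card (t q.1 q.2) ≤ c) ?_ ht (comp_const _)
    fun_prop
  have hc1 : ∀ n s, card (if card (t n s) ≤ c then t n s else emp M) ≤ c := by
    intro n s
    split_ifs with h5
    · exact h5
    · rw [card_emp]; exact zero_le' c
  have hc2 : ∀ n, ∃ b, ∀ s, b ≤ s → (if card (t n s) ≤ c then t n s else emp M) =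
      (if card (t n b) ≤ c then t n b else emp M) := by
    intro n
    obtain ⟨b, hb⟩ := ht' n
    refine ⟨b, fun s hs => ?_⟩
    rw [hb s hs, hb b le_rfl]
  obtain ⟨n, i, hn, hi, h1, h2, h3, h4⟩ := choice h hB hK hD hDu
    (T := fun n s => if card (t n s) ≤ c then t n s else emp M) hc c hc1 hc2
  refine ⟨n, i, hn, hi, h1, h2, h3, fun j hj => ?_⟩
  obtain ⟨b, hb⟩ := ht' (n j)
  obtain ⟨b', hb'⟩ := h4 j
  refine hb' (b + b') le_add_self ?_
  show el (i j) (if card (t (n j) (b + b')) ≤ c then t (n j) (b + b') else emp M)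
  rw [hb (b + b') le_self_add, if_pos (hcard _)]
  exact hj

/-- choice lemma: an index `i j < D (n j)` with `¬ P (n j) (i j)` is chosen unless more than `c`
indices have the property -/
theorem choiceP {q : Sp} (h : RTp M q) (hB : BPi M) (hK : NCS M) {D : M → M} (hD : Comp M D)
    (hDu : ∀ b, ∃ n, b < D n) {P : M → M → Prop} (hP : D2 M (fun q : M × M => P q.1 q.2)) (c : M) :
    ∃ n i : M → M, Comp M n ∧ Comp M i ∧ (∀ j, j ≤ n j) ∧ (∀ j j', j < j' → n j < n j') ∧
      (∀ j, i j < D (n j)) ∧ ∀ j, P (n j) (i j) →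
        ∃ a, (∀ x, el x a → x < D (n j) ∧ P (n j) x) ∧ c < card a := by
  classical
  obtain ⟨F, hF, hF'⟩ := d2_code hB (b := D) (P := P) (Comp.d2 _ hD) hP
  have hT : D2 M (fun n : M => if card (F n) ≤ c then F n else emp M) :=
    d2_ite (P := fun n : M => card (F n) ≤ c) (by fun_prop) hF (by fun_prop)
  obtain ⟨n, i, hn, hi, h1, h2, h3, h4⟩ := choiceD2 h hB hK hD hDu hT c (by
    intro n
    show card (if card (F n) ≤ c then F n else emp M) ≤ c
    split_ifs with h5
    · exact h5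
    · rw [card_emp]; exact zero_le' c)
  refine ⟨n, i, hn, hi, h1, h2, h3, fun j hj => ⟨F (n j), fun x hx => (hF' _ x).1 hx, ?_⟩⟩
  by_contra hcon
  refine h4 j ?_
  show el (i j) (if card (F (n j)) ≤ c then F (n j) else emp M)
  rw [if_pos (not_lt.1 hcon)]
  exact (hF' _ _).2 ⟨h3 j, hj⟩

end RT22P
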