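import Pool.Agent.RTP.GDefs

/-!
# Theorem G: the first conditions and the coded classes
-/

set_option autoImplicit false

namespace RT22P

open Env

theorem c0 (hMi : StMi) (hNC : StNC) : StC0 := by
  intro M _ act a hA E X hX hE hd
  refine ⟨hX, hE, (hMi M act a hA).lc, hd, fun x _ y _ h => h, fun F w hF _ hFX => ?_⟩
  obtain ⟨K, hK, hKm⟩ := hNC M act a hA F hF
  exact ⟨K, hK, fun j hj _ x hx => hKm j hj x hx _ (hFX j).2⟩

theorem cls (hMi : StMi) : StCls := by
  intro M _ act a hA E X k hC E' hE'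
  obtain ⟨bd, hbd, hbd'⟩ := (hMi M act a hA).bd
  have hX := hC.is.comp
  have hk := hC.lck
  obtain ⟨e, he, he'⟩ := lc_code (M := M) (Γ := M) (b := bd)
    (P := fun z x => x ∈ X ∧ (E' x ∧ k x = k z)) hbd (by
      refine lc_and _ _ ?_ (lc_and _ _ ?_ ?_)
      · exact (comp_comp (fun x : M => x ∈ X) (fun q : M × M => q.2) hX (by fun_prop)).lc
      · exact lc_comp E' (fun q : M × M => q.2) hE' (by fun_prop)
      · exact lc_eq _ _ (lc_comp k (fun q : M × M => q.2) hk (by fun_prop))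
          (lc_comp k (fun q : M × M => q.1) hk (by fun_prop)))
  refine ⟨e, he, fun z hz x => (he' z x).trans ?_⟩
  constructor
  · rintro ⟨_, h1, h2, h3⟩
    exact ⟨h1, h2, h3⟩
  · rintro ⟨h1, h2, h3⟩
    exact ⟨(hbd' x z (hC.fin x h1 z hz h3)).1, h1, h2, h3⟩

end RT22P
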