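import Pool.Agent.RTP.GDefs

/-!
# Theorem G: the families contain the patterns (G10, (F4))
-/

set_option autoImplicit false

namespace RT22P

open Env

private theorem gcpy_dec {M : Type} [Env M] {f : M → M → Prop} {E : M → M} {R : M}
    (hne : ∀ i, i < R → ∃ x, el x (E i))
    (hord : ∀ i j, i < j → j < R → ∀ x, el x (E i) → ∀ y, el y (E j) → x < y ∧ cl f false x y)
    (m : ℕ) : ∀ i, i + ((m : ℕ) : M) < R →
      ∃ c, (∀ x, el x c → ∃ j, i ≤ j ∧ j < R ∧ el x (E j)) ∧ Cpy f (Sp.dec m) c := by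
  induction m with
  | zero =>
    intro i hi
    rw [Nat.cast_zero, add_zero] at hi
    obtain ⟨x, hx⟩ := hne i hi
    refine ⟨sg x, fun y hy => ⟨i, le_rfl, hi, ?_⟩, cpy_pt x⟩
    rw [el_sg.1 hy]
    exact hx
  | succ m ih =>
    intro i hi
    have h1 : i + 1 + ((m : ℕ) : M) < R := by
      rw [Nat.cast_succ] at hi
      rw [add_assoc, add_comm 1 ((m : ℕ) : M)]
      exact hi
    obtain ⟨c, hc, hcc⟩ := ih (i + 1) h1
    have hiR : i < R := lt_of_lt_of_le (lt_self_succ i) (le_trans le_self_add h1.le)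
    obtain ⟨x, hx⟩ := hne i hiR
    refine ⟨un (sg x) c, fun y hy => ?_, cpy_op (cpy_pt x) hcc fun y hy z hz => ?_⟩
    · rcases el_un.1 hy with h2 | h2
      · rw [el_sg.1 h2]
        exact ⟨i, le_rfl, hiR, hx⟩
      · obtain ⟨j, hj, hjR, hyj⟩ := hc y h2
        exact ⟨j, le_trans (lt_self_succ i).le hj, hjR, hyj⟩
    · obtain ⟨j, hj, hjR, hzj⟩ := hc z hz
      rw [el_sg.1 hy]
      exact hord i j (lt_of_lt_of_le (lt_self_succ i) hj) hjR x hx z hzj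


private theorem gcpy_pt {M : Type} [Env M] {f : M → M → Prop} {n : ℕ} {R' a : M}
    (hR : ((1 : ℕ) : M) ≤ R') (h : Tr f n false R' a) : ∃ b, Sub b a ∧ Cpy f .pt b := by
  rw [Nat.cast_one] at hR
  obtain ⟨x, hx⟩ := Tr.ne hR h
  refine ⟨sg x, fun y hy => ?_, cpy_pt x⟩
  rw [el_sg.1 hy]
  exact hx

private theorem gcpy_two {M : Type} [Env M] {f : M → M → Prop} {c : Bool} {P Q : M → Prop}
    {p q : Sp} {a : M} (hP : ∀ a, P a → ∃ b, Sub b a ∧ Cpy f p b)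
    (hQ : ∀ a, Q a → ∃ b, Sub b a ∧ Cpy f q b) (h : Two f c P Q a) :
    ∃ b, Sub b a ∧ Cpy f (.op c p q) b := by
  obtain ⟨u, hu, v, hv, _, hut, hvt, huv⟩ := h
  obtain ⟨b, hb, hbc⟩ := hP u hut
  obtain ⟨d, hd, hdc⟩ := hQ v hvt
  refine ⟨un b d, fun x hx => ?_, cpy_op hbc hdc fun x hx y hy =>
    huv x (hb x hx) y (hd y hy)⟩
  rcases el_un.1 hx with h1 | h1
  · exact hu x (hb x h1)
  · exact hv x (hd x h1)

private theorem gcpy_le {M : Type} [Env M] {m n : ℕ} (h : m ≤ n) {R : M}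
    (hR : ((n : ℕ) : M) ≤ R) : ((m : ℕ) : M) ≤ R :=
  le_trans (by exact_mod_cast h) hR

theorem cpyQ : StCpyQ := by
  intro q hq
  induction hq with
  | pt => exact ⟨.base, 1, le_rfl, fun M _ f _ n R' a _ hR h => gcpy_pt hR h⟩
  | @ss qa qb _ _ iha ihb =>
    obtain ⟨Fa, Ra, hRa, ha⟩ := iha
    obtain ⟨Fb, Rb, _, hb⟩ := ihb
    refine ⟨.sum Fa Fb, Ra + Rb, by omega, fun M _ f hf n R' a hn hR h => ?_⟩
    exact gcpy_two (fun a ha' => ha M f hf n R' a hn (gcpy_le (by omega) hR) ha')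
      (fun a ha' => hb M f hf n R' a hn (gcpy_le (by omega) hR) ha') h
  | @ic m qb _ ihb =>
    obtain ⟨Fb, Rb, hRb, hb⟩ := ihb
    refine ⟨.zed Fb, Rb + m + 1, by omega, fun M _ f hf n R' a hn hR h => ?_⟩
    obtain ⟨n', rfl⟩ : ∃ n', n = n' + 1 := ⟨n - 1, by omega⟩
    refine gcpy_two (fun a ha' => ?_)
      (fun a ha' => hb M f hf (n' + 1) R' a hn (gcpy_le (by omega) hR) ha') h
    have hRm : ((m : ℕ) : M) < R' := by
      have h1 : ((m : ℕ) : M) + 1 ≤ ((Rb + m + 1 : ℕ) : M) := by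
        exact_mod_cast (by omega : m + 1 ≤ Rb + m + 1)
      exact lt_of_lt_of_le (lt_self_succ _) (le_trans h1 hR)
    obtain ⟨E', _, hPE', hne', hord', _⟩ := isum_elim hf ha'
    obtain ⟨c, hc, hcc⟩ := gcpy_dec hne' hord' m 0 (by rw [zero_add]; exact hRm)
    refine ⟨c, fun x hx => ?_, hcc⟩
    obtain ⟨j, _, hjR, hxj⟩ := hc x hx
    exact (hPE' j hjR).2 x hxj

theorem cpyH : StCpyH := by
  intro q hq
  induction hq with
  | pt => exact ⟨.base, 1, le_rfl, fun M _ f _ n R' a _ hR h => gcpy_pt hR h⟩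
  | @ss qa qb _ _ iha ihb =>
    obtain ⟨Fa, Ra, hRa, ha⟩ := iha
    obtain ⟨Fb, Rb, _, hb⟩ := ihb
    refine ⟨.sum Fa Fb, Ra + Rb, by omega, fun M _ f hf n R' a hn hR h => ?_⟩
    exact gcpy_two (fun a ha' => ha M f hf n R' a hn (gcpy_le (by omega) hR) ha')
      (fun a ha' => hb M f hf n R' a hn (gcpy_le (by omega) hR) ha') h
  | @st qa qb hqa _ ihb =>
    obtain ⟨Fa, Ra, hRa, ha⟩ := cpyQ qa hqa
    obtain ⟨Fb, Rb, _, hb⟩ := ihb
    refine ⟨.left Fa Fb, Ra + Rb, by omega, fun M _ f hf n R' a hn hR h => ?_⟩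
    exact gcpy_two (fun a ha' => ha M f hf n R' a hn (gcpy_le (by omega) hR) ha')
      (fun a ha' => hb M f hf n R' a hn (gcpy_le (by omega) hR) ha') h

end RT22P
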