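import Pool.Agent.RTP.GDefs

/-!
# The cut obtained from a failure of `IΣ₂`
-/

set_option autoImplicit false

namespace RT22P

open Env

theorem cut : StCut := by
  intro M _ h
  unfold I2 at h
  push Not at h
  obtain ⟨Q, hQ, h0, h1, x0, hx0⟩ := h
  -- `y x s`: the current witness
  have hQ' : ∀ {Γ : Type} [Enc M Γ] (f g k : Γ → M), Comp M f → Comp M g → Comp M k →
      Comp M (fun v => Q (f v) (g v) (k v)) := fun f g k hf hg hk =>
    comp_comp (fun p : M × M × M => Q p.1 p.2.1 p.2.2) (fun v => (f v, g v, k v)) hQ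
      (comp_prod _ _ hf (comp_prod _ _ hg hk))
  obtain ⟨y, hy, hy'⟩ := search_min
    (P := fun (q : M × M) (y : M) => (∀ z, z ≤ q.2 → Q q.1 y z) ∨ y = q.2)
    (comp_or _ _ (comp_ballle (fun q : (M × M) × M => q.1.2) (fun q z => Q q.1.1 q.2 z)
      (by fun_prop) (hQ' _ _ _ (by fun_prop) (by fun_prop) (by fun_prop))) (by fun_prop))
    (fun q => ⟨q.2, Or.inr rfl⟩)
  have hyc : ∀ {Γ : Type} [Enc M Γ] (f g : Γ → M), Comp M f → Comp M g →
      Comp M (fun v => y (f v, g v)) := fun f g hf hg =>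
    comp_comp y (fun v => (f v, g v)) hy (comp_prod _ _ hf hg)
  obtain ⟨c, hc, hc'⟩ := search_min
    (P := fun (s x : M) => y (x, s) ≠ y (x, s + 1) ∨ x = x0)
    (comp_or _ _ (comp_not _ (comp_eq _ _ (hyc _ _ (by fun_prop) (by fun_prop))
      (hyc _ _ (by fun_prop) (by fun_prop)))) (by fun_prop))
    (fun s => ⟨x0, Or.inr rfl⟩)
  have hcle : ∀ s, c s ≤ x0 := fun s => not_lt.1 fun hlt => (hc' s).2 x0 hlt (Or.inr rfl)
  refine ⟨fun s => c s + 1, x0 + 2, by fun_prop, fun s => ?_, ⟨0, fun v _ => ?_⟩, fun i hi => ?_⟩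
  · have h2 : c s + 1 < x0 + 1 + 1 := lt_succ.2 (add_le_add_left (hcle s) 1)
    rw [add_assoc, one_add_one_eq_two] at h2
    exact h2
  · exact lt_succ.2 (zero_le' _)
  obtain ⟨b, hb⟩ := hi
  -- no change below `i`
  have hno : ∀ x, x < i → ∀ s, b ≤ s → y (x, s + 1) = y (x, s) := by
    intro x hx s hs
    by_contra hne
    have h2 : x < c s := lt_of_lt_of_le hx (lt_succ.1 (hb s hs))
    exact (hc' s).2 x h2 (Or.inl (Ne.symm hne))
  have hix : i ≤ x0 := le_trans (lt_succ.1 (hb b le_rfl)) (hcle b)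
  have hphi : ∀ x, x < i → ∃ y, ∀ z, Q x y z := by
    intro x hx
    have hconst : ∀ t : M, y (x, b + t) = y (x, b) := by
      refine cind (P := fun t => y (x, b + t) = y (x, b)) ?_ ?_ ?_
      · exact comp_eq _ _ (hyc _ _ (by fun_prop) (by fun_prop)) (comp_const _)
      · rw [add_zero]
      · intro t ht
        rw [← add_assoc, hno x hx (b + t) le_self_add, ht]
    refine ⟨y (x, b), fun z => ?_⟩
    have h2 := (hy' (x, b + (z + y (x, b) + 1))).1
    rw [hconst] at h2
    rcases h2 with h2 | h2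
    · refine h2 z ?_
      show z ≤ b + (z + y (x, b) + 1)
      calc z ≤ z + y (x, b) := le_self_add
        _ ≤ z + y (x, b) + 1 := (lt_self_succ _).le
        _ ≤ _ := le_add_self
    · exfalso
      have h3 : y (x, b) < b + (z + y (x, b) + 1) :=
        lt_of_lt_of_le (lt_succ.2 le_add_self) le_add_self
      exact absurd h2 (ne_of_lt h3)
  have hphii : ∃ y, ∀ z, Q i y z := by
    rcases zero_or_succ i with rfl | ⟨j, rfl⟩
    · exact h0
    · exact h1 j (hphi j (lt_self_succ j))
  have hne : i ≠ x0 := by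
    rintro rfl
    obtain ⟨y1, hy1⟩ := hphii
    obtain ⟨z, hz⟩ := hx0 y1
    exact hz (hy1 z)
  have hlt : i < x0 := lt_of_le_of_ne hix hne
  -- the witness of `i` settles
  have hset : ∃ b', ∀ s, b' ≤ s → y (i, s + 1) = y (i, s) := by
    obtain ⟨u, hu, hmin⟩ := leastP (P := fun y => ∀ z, Q i y z)
      ⟨fun p => ¬ Q i p.1 p.2, comp_not _ (hQ' _ _ _ (by fun_prop) (by fun_prop) (by fun_prop)),
        fun v => by push Not; rfl⟩ hphii
    obtain ⟨w, hw⟩ := sbd (P := fun y z => ¬ Q i y z)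
      (sig_of_comp (comp_not _ (hQ' _ _ _ (by fun_prop) (by fun_prop) (by fun_prop)))) u
      (fun y hy => by
        have h2 := hmin y hy
        push Not at h2
        exact h2)
    have hval : ∀ s, w + u ≤ s → y (i, s) = u := by
      intro s hs
      obtain ⟨h2, h3⟩ := hy' (i, s)
      have hle : y (i, s) ≤ u := not_lt.1 fun hlt => h3 u hlt (Or.inl fun z _ => hu z)
      refine le_antisymm hle (not_lt.1 fun hlt2 => ?_)
      rcases h2 with h2 | h2
      · obtain ⟨z, hz, hzn⟩ := hw _ hlt2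
        exact hzn (h2 z (le_trans hz.le (le_trans le_self_add hs)))
      · have h4 : y (i, s) = s := h2
        rw [h4] at hlt2
        exact absurd (le_trans le_add_self hs) (not_le.2 hlt2)
    exact ⟨w + u, fun s hs => by rw [hval s hs, hval (s + 1) (le_trans hs (lt_self_succ s).le)]⟩
  obtain ⟨b', hb'⟩ := hset
  refine ⟨b + b', fun s hs => ?_⟩
  have hcs : i < c s := by
    by_contra hcon
    have hle : c s ≤ i := not_lt.1 hcon
    rcases (hc' s).1 with h2 | h2
    · rcases lt_or_eq_of_le hle with h3 | h3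
      · exact h2 (hno _ h3 s (le_trans le_self_add hs)).symm
      · rw [h3] at h2
        exact h2 (hb' s (le_trans le_add_self hs)).symm
    · rw [h2] at hle
      exact absurd hlt (not_lt.2 hle)
  show i + 1 < c s + 1
  exact lt_succ.2 (succ_le_iff.2 hcs)

end RT22P
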