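import Pool.Agent.RTP.GDefs

/-!
# Theorem G: points outside of the cuts, lowness of the last cut point (G5, (C3), (C4))
-/

set_option autoImplicit false

namespace RT22P

open Env

private theorem gcutx_cp {M : Type} [Env M] {a b c d : M}
    (h : (Pre.cp (a, b) : M) = Pre.cp (c, d)) : a = c ∧ b = d := by
  have h1 : (a, b) = (c, d) := (Pre.cp (M := M)).injective h
  exact ⟨congrArg Prod.fst h1, congrArg Prod.snd h1⟩

/-- blocks of two points -/
private theorem gcutx_blk {M : Type} [Env M] {x w : M → M} (hx : Comp M x) (hw : Comp M w)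
    (h1 : ∀ j, x j < w j) (h2 : ∀ i j, i < j → w i < x j) :
    Blk (fun j => un (sg (x j)) (sg (w j))) := by
  refine ⟨by fun_prop, fun k => ⟨x k, el_un.2 (Or.inl (el_sg.2 rfl))⟩,
    fun k l hkl u v hu hv => ?_⟩
  have hu' : u ≤ w k := by
    rcases el_un.1 hu with h | h
    · rw [el_sg.1 h]
      exact (h1 k).le
    · rw [el_sg.1 h]
  have hv' : x l ≤ v := by
    rcases el_un.1 hv with h | h
    · rw [el_sg.1 h]
    · rw [el_sg.1 h]
      exact (h1 l).le
  exact lt_of_le_of_lt hu' (lt_of_lt_of_le (h2 k l hkl) hv')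

theorem cutx : StCutX := by
  intro M _ act E X k Th hinv hC
  obtain ⟨e, he, hem, _, heX, _⟩ := enum hC.is
  have h2 : ∀ i j : M, i < j → i + i + 1 < j + j := fun i j hij => by
    have h3 : i + 1 ≤ j := succ_le_iff.2 hij
    have h4 : i + i + 1 < (i + 1) + (i + 1) := by
      have h5 : (i + 1) + (i + 1) = i + i + 1 + 1 := by ring
      rw [h5]
      exact lt_self_succ _
    exact lt_of_lt_of_le h4 (add_le_add h3 h3)
  have hB := gcutx_blk (x := fun j => e (j + j)) (w := fun j => e (j + j + 1)) (by fun_prop)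
    (by fun_prop) (fun j => hem _ _ (lt_self_succ _)) (fun i j hij => hem _ _ (h2 i j hij))
  obtain ⟨K, hK, hK'⟩ := hC.nc _ (fun j => e (j + j)) hB (by fun_prop) (fun j => by
    refine ⟨fun x hx => ?_, el_un.2 (Or.inl (el_sg.2 rfl))⟩
    rcases el_un.1 hx with h | h
    · rw [el_sg.1 h]; exact heX _
    · rw [el_sg.1 h]; exact heX _)
  have hem2 : ∀ i j : M, i < j → e (i + i) < e (j + j) := fun i j hij =>
    hem _ _ (lt_trans (lt_self_succ _) (h2 i j hij))
  refine ⟨(fun j => e (j + j)) '' K, is_image hK (by fun_prop) hem2, ?_, ?_⟩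
  · rintro _ ⟨j, _, rfl⟩
    exact heX _
  · rintro _ ⟨j, hj, rfl⟩ hE hel
    have h3 := hK' j hj hE (e (j + j + 1)) (el_un.2 (Or.inr (el_sg.2 rfl)))
    obtain ⟨h4, h5⟩ := gcutx_cp h3
    have h6 := hinv _ (heX _) _ (heX _) h4
    have h7 : el (e (j + j)) (blw (Th (e (j + j + 1))) (e (j + j + 1))) :=
      el_blw.2 ⟨by rw [h6]; exact hel, hem _ _ (lt_self_succ _)⟩
    rw [h5] at h7
    exact lt_irrefl _ (el_blw.1 h7).2

/-- pairs `x j < w j` in `Y` with `x j < y (w j)` -/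
private theorem gcutx_pairs {M : Type} [EnvB M] {Y : Set M} (hY : IS Y) {y : M → M}
    (hy : Comp M y) (hy' : ∀ b, ∃ n, ∀ v, n ≤ v → b ≤ y v) :
    ∃ x w : M → M, Comp M x ∧ Comp M w ∧ (∀ j, x j ∈ Y ∧ w j ∈ Y ∧ x j < w j ∧ x j < y (w j)) ∧
      ∀ i j, i < j → w i < x j := by
  have hYc := hY.comp
  obtain ⟨B, hB, hBP⟩ := exists_blk (M := M) (P := fun _ a : M => ∃ x, x ≤ a ∧ ∃ w, w ≤ a ∧
      (x ∈ Y ∧ (w ∈ Y ∧ (x < w ∧ (x < y w ∧ a = un (sg x) (sg w))))))
    (sig_of_comp (by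
      refine comp_bexle (fun q : M × M => q.2) (fun q x => ∃ w, w ≤ q.2 ∧
        (x ∈ Y ∧ (w ∈ Y ∧ (x < w ∧ (x < y w ∧ q.2 = un (sg x) (sg w)))))) (by fun_prop) ?_
      refine comp_bexle (fun q : (M × M) × M => q.1.2) (fun q w =>
        (q.2 ∈ Y ∧ (w ∈ Y ∧ (q.2 < w ∧ (q.2 < y w ∧ q.1.2 = un (sg q.2) (sg w))))))
        (by fun_prop) ?_
      refine comp_and _ _ ?_ (comp_and _ _ ?_ (by fun_prop))
      · exact comp_comp (fun x : M => x ∈ Y) (fun q : ((M × M) × M) × M => q.1.2) hYc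
          (by fun_prop)
      · exact comp_comp (fun x : M => x ∈ Y) (fun q : ((M × M) × M) × M => q.2) hYc
          (by fun_prop)))
    (fun k b => by
      obtain ⟨x, hx, hbx⟩ := hY.unb b
      obtain ⟨n, hn⟩ := hy' (x + 1)
      obtain ⟨w, hw, hnw⟩ := hY.unb (n + x)
      have hxw : x < w := lt_of_le_of_lt le_add_self hnw
      refine ⟨un (sg x) (sg w), ⟨x, (el_lt (el_un.2 (Or.inl (el_sg.2 rfl)))).le, w,
        (el_lt (el_un.2 (Or.inr (el_sg.2 rfl)))).le, hx, hw, hxw, ?_, rfl⟩,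
        ⟨x, el_un.2 (Or.inl (el_sg.2 rfl))⟩, fun z hz => ?_⟩
      · exact succ_le_iff.1 (hn w (le_trans le_self_add hnw.le))
      · rcases el_un.1 hz with h | h
        · rw [el_sg.1 h]; exact hbx
        · rw [el_sg.1 h]; exact hbx.trans hxw)
  have hBc := hB.comp
  have key : ∀ j, el (mn (B j)) (B j) ∧ el (mx (B j)) (B j) ∧ mn (B j) ∈ Y ∧ mx (B j) ∈ Y ∧
      mn (B j) < mx (B j) ∧ mn (B j) < y (mx (B j)) := by
    intro j
    obtain ⟨x, _, w, _, hx, hw, hxw, hxy, hB1⟩ := hBP j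
    have e1 : el x (B j) := by rw [hB1]; exact el_un.2 (Or.inl (el_sg.2 rfl))
    have e2 : el w (B j) := by rw [hB1]; exact el_un.2 (Or.inr (el_sg.2 rfl))
    have h3 : ∀ z, el z (B j) → x ≤ z ∧ z ≤ w := fun z hz => by
      rw [hB1] at hz
      rcases el_un.1 hz with h | h
      · rw [el_sg.1 h]; exact ⟨le_rfl, hxw.le⟩
      · rw [el_sg.1 h]; exact ⟨hxw.le, le_rfl⟩
    have h4 : mn (B j) = x := le_antisymm (mn_le e1) (h3 _ (el_mn e1)).1
    have h5 : mx (B j) = w := le_antisymm (h3 _ (el_mx e1)).2 (le_mx e2)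
    rw [h4, h5]
    exact ⟨e1, e2, hx, hw, hxw, hxy⟩
  refine ⟨fun j => mn (B j), fun j => mx (B j), by fun_prop, by fun_prop,
    fun j => ⟨(key j).2.2.1, (key j).2.2.2.1, (key j).2.2.2.2.1, (key j).2.2.2.2.2⟩,
    fun i j hij => hB.lt i j hij _ _ (key i).2.1 (key j).1⟩

theorem lowu : StLowU := by
  intro M _ act E X k Th hC y hy hy' Y hY hYX
  obtain ⟨x, w, hx, hw, h1, h2⟩ := gcutx_pairs hY hy hy'
  have hB := gcutx_blk hx hw (fun j => (h1 j).2.2.1) h2
  obtain ⟨K, hK, hK'⟩ := hC.nc _ w hB hw (fun j => by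
    refine ⟨fun z hz => ?_, el_un.2 (Or.inr (el_sg.2 rfl))⟩
    rcases el_un.1 hz with h | h
    · rw [el_sg.1 h]; exact hYX (h1 j).1
    · rw [el_sg.1 h]; exact hYX (h1 j).2.1)
  have hwm : ∀ i j, i < j → w i < w j := fun i j hij => (h2 i j hij).trans (h1 j).2.2.1
  refine ⟨w '' K, is_image hK hw hwm, ?_, ?_⟩
  · rintro _ ⟨j, _, rfl⟩
    exact (h1 j).2.1
  · rintro _ ⟨j, hj, rfl⟩ hE
    have h3 := hK' j hj hE (x j) (el_un.2 (Or.inl (el_sg.2 rfl)))
    obtain ⟨_, h5⟩ := gcutx_cp h3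
    show mx (blw (Th (w j)) (w j)) < y (w j)
    rw [← h5]
    by_cases hne : ∃ z, el z (blw (Th (x j)) (x j))
    · obtain ⟨z, hz⟩ := hne
      exact (el_blw.1 (el_mx hz)).2.trans (h1 j).2.2.2
    · have h6 : blw (Th (x j)) (x j) = emp M := fext fun z =>
        ⟨fun h => absurd ⟨z, h⟩ hne, fun h => absurd h el_emp⟩
      have h7 : mx (emp M) ≤ x j := by
        by_cases h8 : ∃ z, el z (emp M)
        · obtain ⟨z, hz⟩ := h8
          exact absurd hz el_emp
        · unfold mx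
          rw [dif_neg h8]
          exact zero_le' _
      rw [h6]
      exact lt_of_le_of_lt h7 (h1 j).2.2.2

end RT22P
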