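import Pool.Agent.RTP.GDefs
import Pool.Agent.RTP.GCho

/-!
# Labels refined by cut points

Condition (C3): the pair of the old label and the set of the cut points below is a label again.
-/

set_option autoImplicit false

namespace RT22P

open Env

private theorem gcuts_d2P {M : Type} [Env M] {Γ : Type} [Enc M Γ] {h : Γ → Prop}
    (hh : LC M h) : D2 M h := by
  obtain ⟨g, hg, hg'⟩ := hh
  exact ⟨fun v s => g (v, s), hg, hg'⟩

theorem cuts : StCuts := by
  intro M _ q hq hNCS act E X k hC Th hTh hThk N hN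
  have hB : BPi M := EnvB.bpi
  have hcp : ∀ {x y u v : M}, (Pre.cp (x, y) : M) = Pre.cp (u, v) → x = u ∧ y = v := by
    intro x y u v he
    have h1 := (Pre.cp (M := M)).injective he
    exact ⟨congrArg Prod.fst h1, congrArg Prod.snd h1⟩
  have hck := hC.lck
  refine ⟨hC.is, hC.lcE, ?_, hC.dense, fun x hx y hy hxy => hC.fin x hx y hy (hcp hxy).1,
    fun F w hF hw hFX => ?_⟩
  · fun_prop
  have hFc := hF.comp
  have hFlt : ∀ i j, i < j → ∀ x y, el x (F i) → el y (F j) → x < y := hF.lt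
  -- the indices with a cut point in the block
  have hP : LC M (fun q : M × M => ∃ t, el t (Th (w q.1)) ∧
      (mn (F (q.1 + 1 + q.2)) ≤ t ∧ t ≤ mx (F (q.1 + 1 + q.2)))) := by
    have h1 : LC M (fun q : M × M => Th (w q.1)) :=
      lc_comp Th (fun q : M × M => w q.1) hTh (Comp.lc (by fun_prop))
    refine lc_exel (fun q : M × M => Th (w q.1))
      (fun q t => mn (F (q.1 + 1 + q.2)) ≤ t ∧ t ≤ mx (F (q.1 + 1 + q.2))) h1 ?_
    exact Comp.lc (by fun_prop)
  obtain ⟨n, i, hn, hi, hn1, hn2, hi1, hch⟩ := choiceP hq hB hNCS (D := fun j : M => j + 1)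
    (by fun_prop) (fun b => ⟨b, lt_self_succ b⟩)
    (P := fun e j => ∃ t, el t (Th (w e)) ∧
      (mn (F (e + 1 + j)) ≤ t ∧ t ≤ mx (F (e + 1 + j)))) (gcuts_d2P hP) N
  have hch' : ∀ j, ¬ ∃ t, el t (Th (w (n j))) ∧
      (mn (F (n j + 1 + i j)) ≤ t ∧ t ≤ mx (F (n j + 1 + i j))) := by
    intro j hj
    obtain ⟨a, ha, hac⟩ := hch j hj
    have hne : ∀ m, ∃ x, el x (F m) := hF.ne
    have hcard : card a ≤ card (Th (w (n j))) := by
      refine card_le_of_inj (f := fun x => mn (itr (Th (w (n j)))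
        (ivl (mn (F (n j + 1 + x))) (mx (F (n j + 1 + x)) + 1)))) (by fun_prop) ?_ ?_
      · intro x hx
        obtain ⟨-, t, ht, ht1, ht2⟩ := ha x hx
        exact (el_itr.1 (el_mn (el_itr.2 ⟨ht, el_ivl.2 ⟨ht1, lt_succ.2 ht2⟩⟩))).1
      · have key : ∀ x y, el x a → el y a → x < y →
            mn (itr (Th (w (n j))) (ivl (mn (F (n j + 1 + x))) (mx (F (n j + 1 + x)) + 1))) <
            mn (itr (Th (w (n j))) (ivl (mn (F (n j + 1 + y))) (mx (F (n j + 1 + y)) + 1))) := by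
          intro x y hx hy hxy
          obtain ⟨-, t, ht, ht1, ht2⟩ := ha x hx
          obtain ⟨-, s, hs, hs1, hs2⟩ := ha y hy
          have h1 := el_ivl.1 (el_itr.1 (el_mn (el_itr.2 ⟨ht, el_ivl.2 ⟨ht1, lt_succ.2 ht2⟩⟩))).2
          have h2 := el_ivl.1 (el_itr.1 (el_mn (el_itr.2 ⟨hs, el_ivl.2 ⟨hs1, lt_succ.2 hs2⟩⟩))).2
          obtain ⟨u, hu⟩ := hne (n j + 1 + x)
          obtain ⟨v, hv⟩ := hne (n j + 1 + y)
          have h3 : mx (F (n j + 1 + x)) < mn (F (n j + 1 + y)) :=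
            hFlt _ _ (add_lt_add_right hxy (n j + 1)) _ _ (el_mx hu) (el_mn hv)
          exact lt_of_le_of_lt (lt_succ.1 h1.2) (lt_of_lt_of_le h3 h2.1)
        intro x y hx hy hxy
        rcases lt_trichotomy x y with h | h | h
        · exact absurd hxy (ne_of_lt (key x y hx hy h))
        · exact h
        · exact absurd hxy.symm (ne_of_lt (key y x hy hx h))
    exact absurd (le_trans hcard (hN _ ((hFX (n j)).1 _ (hFX (n j)).2))) (not_le.2 hac)
  have hpn : ∀ j, n j < n j + 1 + i j := fun j =>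
    lt_of_lt_of_le (lt_self_succ (n j)) le_self_add
  -- thinning
  obtain ⟨L, hL, hL0, hL1⟩ := iter (M := M) (Δ := M) (0 : M)
    (h := fun _ x => n x + 1 + i x + 1) (by fun_prop)
  have hnL : ∀ l, n (L l) + 1 + i (L l) < n (L (l + 1)) := by
    intro l
    have h1 := hn1 (L (l + 1))
    rw [hL1 l] at h1 ⊢
    exact succ_le_iff.1 h1
  have hnLm : ∀ l m, l < m → n (L l) < n (L m) := (is_range (e := fun l => n (L l)) (by fun_prop)
    (fun l => lt_trans (hpn (L l)) (hnL l))).2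
  have hpLm : ∀ l m, l < m → n (L l) + 1 + i (L l) < n (L m) := by
    intro l m hlm
    rcases lt_or_eq_of_le (succ_le_iff.2 hlm) with h | h
    · exact lt_trans (hnL l) (hnLm _ _ h)
    · rw [← h]; exact hnL l
  have hpm : ∀ l m, l < m → n (L l) + 1 + i (L l) < n (L m) + 1 + i (L m) := fun l m hlm =>
    lt_trans (hpLm l m hlm) (hpn (L m))
  have hlt : ∀ l m, l < m → ∀ x y, el x (un (sg (w (n (L l)))) (F (n (L l) + 1 + i (L l)))) →
      el y (un (sg (w (n (L m)))) (F (n (L m) + 1 + i (L m)))) → x < y := by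
    intro l m hlm x y hx hy
    have h1 : ∀ z, el z (un (sg (w (n (L l)))) (F (n (L l) + 1 + i (L l)))) →
        ∃ e, e ≤ n (L l) + 1 + i (L l) ∧ el z (F e) := by
      intro z hz
      rcases el_un.1 hz with h | h
      · rw [el_sg.1 h]
        exact ⟨n (L l), (hpn _).le, (hFX _).2⟩
      · exact ⟨_, le_rfl, h⟩
    have h2 : ∀ z, el z (un (sg (w (n (L m)))) (F (n (L m) + 1 + i (L m)))) →
        ∃ e, n (L m) ≤ e ∧ el z (F e) := by
      intro z hz
      rcases el_un.1 hz with h | h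
      · rw [el_sg.1 h]
        exact ⟨n (L m), le_rfl, (hFX _).2⟩
      · exact ⟨_, (hpn _).le, h⟩
    obtain ⟨e, he, hxe⟩ := h1 x hx
    obtain ⟨e', he', hye⟩ := h2 y hy
    exact hFlt e e' (lt_of_le_of_lt he (lt_of_lt_of_le (hpLm l m hlm) he')) x y hxe hye
  have hFS : ∀ l, FS (un (sg (w (n (L l)))) (F (n (L l) + 1 + i (L l)))) X := by
    intro l z hz
    rcases el_un.1 hz with h | h
    · rw [el_sg.1 h]
      exact (hFX _).1 _ (hFX _).2
    · exact (hFX _).1 z h
  obtain ⟨K, hK, hK'⟩ := hC.nc (fun l => un (sg (w (n (L l)))) (F (n (L l) + 1 + i (L l))))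
    (fun l => w (n (L l) + 1 + i (L l)))
    ⟨by fun_prop, fun l => ⟨_, el_un.2 (Or.inl (el_sg.2 rfl))⟩, hlt⟩ (by fun_prop)
    (fun l => ⟨hFS l, el_un.2 (Or.inr (hFX _).2)⟩)
  refine ⟨(fun l => n (L l) + 1 + i (L l)) '' K, is_image hK (by fun_prop) hpm, ?_⟩
  rintro _ ⟨l, hl, rfl⟩ hE x hx
  have hk : ∀ z, el z (un (sg (w (n (L l)))) (F (n (L l) + 1 + i (L l)))) →
      k z = k (w (n (L l) + 1 + i (L l))) := hK' l hl hE
  have hx' : el x (F (n (L l) + 1 + i (L l))) := hx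
  have hw' : el (w (n (L l) + 1 + i (L l))) (F (n (L l) + 1 + i (L l))) := (hFX _).2
  have hwX : w (n (L l) + 1 + i (L l)) ∈ X := (hFX _).1 _ hw'
  have hkx : k x = k (w (n (L l) + 1 + i (L l))) := hk x (el_un.2 (Or.inr hx'))
  have hkw : k (w (n (L l))) = k (w (n (L l) + 1 + i (L l))) :=
    hk _ (el_un.2 (Or.inl (el_sg.2 rfl)))
  have hTx : Th x = Th (w (n (L l) + 1 + i (L l))) :=
    hThk x ((hFX _).1 x hx') _ hwX hkx
  have hTw : Th (w (n (L l))) = Th (w (n (L l) + 1 + i (L l))) :=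
    hThk _ ((hFX (n (L l))).1 _ (hFX (n (L l))).2) _ hwX hkw
  have hno : ∀ t, el t (Th (w (n (L l) + 1 + i (L l)))) →
      mn (F (n (L l) + 1 + i (L l))) ≤ t → t ≤ mx (F (n (L l) + 1 + i (L l))) → False := by
    intro t ht h1 h2
    rw [← hTw] at ht
    exact hch' (L l) ⟨t, ht, h1, h2⟩
  have hblw : blw (Th x) x = blw (Th (w (n (L l) + 1 + i (L l)))) (w (n (L l) + 1 + i (L l))) := by
    rw [hTx]
    refine fext fun t => ?_
    rw [el_blw, el_blw]
    refine and_congr_right fun ht => ?_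
    constructor
    · intro h
      by_contra hcon
      exact hno t ht (le_trans (mn_le hw') (not_lt.1 hcon)) (le_trans h.le (le_mx hx'))
    · intro h
      by_contra hcon
      exact hno t ht (le_trans (mn_le hx') (not_lt.1 hcon)) (le_trans h.le (le_mx hw'))
  show (Pre.cp (k x, blw (Th x) x) : M) = Pre.cp (k (w (n (L l) + 1 + i (L l))),
    blw (Th (w (n (L l) + 1 + i (L l)))) (w (n (L l) + 1 + i (L l))))
  rw [hkx, hblw]

end RT22P
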