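import Pool.Agent.RTP.GDefs

/-!
# Lemma B: limit computable sets do not split all arrays
-/

set_option autoImplicit false

namespace RT22P

open Env

theorem lemma_B : StB := by
  intro M _ q hq X hX W hW
  by_contra hno
  obtain ⟨w, hw, hw'⟩ := hW
  have hg : Comp M (fun q : M × M => (fun x s => w (x, s)) q.1 q.2) := hw
  have hlim : ∀ x, W x → Lim (fun x s => w (x, s)) X true x := by
    intro x hx
    obtain ⟨b, hb⟩ := hw' x
    refine ⟨b, fun y _ hy => iff_of_true ?_ rfl⟩
    show w (x, y)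
    rw [hb y hy]
    exact hx
  have hlim' : ∀ x, ¬ W x → Lim (fun x s => w (x, s)) X false x := by
    intro x hx
    obtain ⟨b, hb⟩ := hw' x
    refine ⟨b, fun y _ hy => iff_of_false ?_ (by simp)⟩
    show ¬ w (x, y)
    rw [hb y hy]
    exact hx
  have hex : ∀ F : M → M, Blk F → (∀ k, FS (F k) X) → ∀ c : Bool, ∃ k, ∀ x, el x (F k) →
      Lim (fun x s => w (x, s)) X c x := by
    intro F hF hFX c
    by_contra hn
    refine hno ⟨F, hF, hFX, ?_⟩
    cases c with
    | true =>
      refine Or.inr fun k => ?_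
      by_contra hk
      refine hn ⟨k, fun x hx => hlim x ?_⟩
      by_contra h1
      exact hk ⟨x, hx, h1⟩
    | false =>
      refine Or.inl fun k => ?_
      by_contra hk
      refine hn ⟨k, fun x hx => hlim' x fun h1 => hk ⟨x, hx, h1⟩⟩
  have hbad : Bad (fun x s => w (x, s)) X := by
    refine ⟨hg, hX, fun x _ => ?_, fun Y hY hYX c hc => ?_⟩
    · by_cases h1 : W x
      · exact ⟨true, hlim x h1⟩
      · exact ⟨false, hlim' x h1⟩
    · obtain ⟨e, he, hem, _, heY, _⟩ := enum hY
      have hF : Blk (fun k => sg (e k)) :=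
        ⟨by fun_prop, fun k => ⟨e k, el_sg.2 rfl⟩, fun k l hkl x y hx hy => by
          rw [el_sg.1 hx, el_sg.1 hy]
          exact hem k l hkl⟩
      obtain ⟨k, hk⟩ := hex _ hF (fun k x hx => by rw [el_sg.1 hx]; exact hYX (heY k)) (!c)
      have h1 := hk (e k) (el_sg.2 rfl)
      have h2 := Lim.unique hX h1 (hc _ (heY k))
      cases c <;> simp at h2
  refine RTp.not_freq hq hg hX (typed_all hbad (fun p c Y hY hYX hp => ?_) q)
  obtain ⟨E, hE, hE'⟩ := hp.blk hg hY
  obtain ⟨k, hk⟩ := hex E hE (fun k x hx => hYX ((hE' k).1 x hx)) c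
  exact ⟨E k, (hE' k).1, (hE' k).2, hk⟩

end RT22P
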