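import Pool.Agent.RTP.GLC

/-!
# Theorem G: definitions and the statements of the modules

Paper proof: RT22P_G.md (team-store).  Colour `true` = 1.  Every module proves one of the propositions
`St...` below; a module which uses another one takes it as a hypothesis.
-/

set_option autoImplicit false

namespace RT22P

open Env

section
variable {M : Type} [Env M]

/-! ### the cut -/

/-- `act` eventually exceeds `i` -/
def InA (act : M → M) (i : M) : Prop := ∃ b, ∀ v, b ≤ v → i < act v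

/-- a computable function whose limes inferior is a proper cut closed under successor -/
structure Act (act : M → M) (a : M) : Prop where
  comp : Comp M act
  lt : ∀ v, act v < a
  zero : InA act 0
  succ : ∀ i, InA act i → InA act (i + 1)

open Classical in
/-- the least value of `act` on the interval `(x, y]` -/
noncomputable def dl (act : M → M) (x y : M) : M :=
  if h : ∃ z, (∃ v, x < v ∧ v ≤ y ∧ act v = z) ∧ ∀ v, x < v → v ≤ y → z ≤ act v then h.choose
  else 0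

open Classical in
/-- the least value of `act` on the interval `(x, ∞)` -/
noncomputable def mi (act : M → M) (x : M) : M :=
  if h : ∃ z, (∃ v, x < v ∧ act v = z) ∧ ∀ v, x < v → z ≤ act v then h.choose else 0

/-- the basic facts on `dl` and `mi` -/
structure MiF (act : M → M) : Prop where
  dl_att : ∀ x y, x < y → ∃ v, x < v ∧ v ≤ y ∧ act v = dl act x y
  dl_le : ∀ x y v, x < v → v ≤ y → dl act x y ≤ act v
  dl_comp : Comp M (fun q : M × M => dl act q.1 q.2)
  att : ∀ x, ∃ v, x < v ∧ act v = mi act x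
  le : ∀ x v, x < v → mi act x ≤ act v
  mono : ∀ x y, x ≤ y → mi act x ≤ mi act y
  mi_min : ∀ x y, x < y → mi act x = min (dl act x y) (mi act y)
  dl_min : ∀ x y z, x < y → y < z → dl act x z = min (dl act x y) (dl act y z)
  inA : ∀ x, InA act (mi act x)
  unb : ∀ i, InA act i → ∃ b, ∀ x, b ≤ x → i < mi act x
  sep : ∀ x y, x < y → mi act x ≠ mi act y → dl act x y = mi act x ∧ mi act x < mi act y
  eqv : ∀ x y, x < y → (mi act x = mi act y ↔ ∃ v, y < v ∧ act v ≤ dl act x y)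
  lc : LC M (mi act)
  bd : ∃ bd : M → M, LC M bd ∧ ∀ x z, mi act x = mi act z → x < bd z ∧ bd x = bd z

/-- the normal form: bad on the whole model, and points of different classes see the truth -/
structure Nice (f : M → M → Prop) (act : M → M) (a : M) : Prop where
  bad : Bad f (Set.univ : Set M)
  cut : Act act a
  tru : ∀ x y, x < y → mi act x ≠ mi act y → (f x y ↔ tr f x)

/-- the world: `0`-trees of depth `n ≥ 1` exist everywhere, there is no `r`-fold `1`-sum of them -/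
structure Wld (f : M → M → Prop) (n : ℕ) (r : M) : Prop where
  n1 : 1 ≤ n
  r1 : 1 ≤ r
  av : ∀ Y : Set M, IS Y → ∀ R, 1 ≤ R → ∃ a, FS a Y ∧ Tr f n false R a
  no : ∀ a, ¬ Tr f (n + 1) true r a

/-! ### conditions -/

/-- conditions `(E, X)` with the label function `k` -/
structure Cnd (act : M → M) (E : M → Prop) (X : Set M) (k : M → M) : Prop where
  is : IS X
  lcE : LC M E
  lck : LC M k
  dense : ∀ Y : Set M, IS Y → Y ⊆ X → ∃ x ∈ Y, E x
  fin : ∀ x ∈ X, ∀ y ∈ X, k x = k y → mi act x = mi act y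
  nc : ∀ F w : M → M, Blk F → Comp M w → (∀ j, FS (F j) X ∧ el (w j) (F j)) →
    ∃ K : Set M, IS K ∧ ∀ j ∈ K, E (w j) → ∀ x, el x (F j) → k x = k (w j)

/-- (C1) -/
theorem Cnd.mono {act : M → M} {E : M → Prop} {X : Set M} {k : M → M} (h : Cnd act E X k)
    {Y : Set M} (hY : IS Y) (hYX : Y ⊆ X) : Cnd act E Y k :=
  ⟨hY, h.lcE, h.lck, fun Z hZ hZY => h.dense Z hZ (hZY.trans hYX),
    fun x hx y hy => h.fin x (hYX hx) y (hYX hy),
    fun F w hF hw hFX => h.nc F w hF hw fun j => ⟨fun x hx => hYX ((hFX j).1 x hx), (hFX j).2⟩⟩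

/-- (C2) -/
theorem Cnd.sub {act : M → M} {E : M → Prop} {X : Set M} {k : M → M} (h : Cnd act E X k)
    {E' : M → Prop} (hE' : LC M E') (hEE : ∀ x, E' x → E x) :
    Cnd act E' X k ∨ ∃ Y : Set M, IS Y ∧ Y ⊆ X ∧ ∀ x ∈ Y, ¬ E' x := by
  by_cases hd : ∀ Y : Set M, IS Y → Y ⊆ X → ∃ x ∈ Y, E' x
  · refine Or.inl ⟨h.is, hE', h.lck, hd, h.fin, fun F w hF hw hFX => ?_⟩
    obtain ⟨K, hK, hK'⟩ := h.nc F w hF hw hFX
    exact ⟨K, hK, fun j hj hE => hK' j hj (hEE _ hE)⟩
  · push Not at hd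
    exact Or.inr hd

/-- lowness of the function `u` on the condition `(E, X)` -/
def Low (E : M → Prop) (X : Set M) (u : M → M) : Prop :=
  ∀ y : M → M, Comp M y → (∀ b, ∃ n, ∀ v, n ≤ v → b ≤ y v) → ∀ Y : Set M, IS Y → Y ⊆ X →
    ∃ Y' : Set M, IS Y' ∧ Y' ⊆ Y ∧ ∀ w ∈ Y', E w → u w < y w

theorem Low.mono {E E' : M → Prop} {X Y : Set M} {u : M → M} (h : Low E X u) (hYX : Y ⊆ X)
    (hE : ∀ x, E' x → E x) : Low E' Y u := by
  intro y hy hy' Z hZ hZY
  obtain ⟨Y', h1, h2, h3⟩ := h y hy hy' Z hZ (hZY.trans hYX)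
  exact ⟨Y', h1, h2, fun w hw hEw => h3 w hw (hE w hEw)⟩

/-- every condition contains a set with the property `A` inside `E` and inside one label -/
def Typ (act : M → M) (A : M → Prop) : Prop :=
  ∀ (E : M → Prop) (X : Set M) (k : M → M), Cnd act E X k →
    ∃ a, FS a X ∧ A a ∧ (∀ x, el x a → E x) ∧ ∀ x, el x a → ∀ y, el y a → k x = k y

/-- the same with a further point `w` above, in `E` and with the same label, which sees the colour `c`
to `a` -/
def Typ1 (f : M → M → Prop) (act : M → M) (c : Bool) (A : M → Prop) : Prop :=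
  ∀ (E : M → Prop) (X : Set M) (k : M → M), Cnd act E X k →
    ∃ a w, FS a X ∧ A a ∧ (∀ x, el x a → E x) ∧ w ∈ X ∧ E w ∧
      ∀ x, el x a → x < w ∧ k x = k w ∧ cl f c x w

/-- `a` is a candidate of `w`: a set with the property `A` inside `E`, with the label of `w`, below `w`
and with the colour `c` to `w` -/
def Cand (f : M → M → Prop) (E : M → Prop) (X : Set M) (k : M → M) (c : Bool) (A : M → Prop)
    (w a : M) : Prop :=
  A a ∧ FS a X ∧ ∀ x, el x a → E x ∧ k x = k w ∧ x < w ∧ cl f c x w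

/-! ### families -/

/-- robust families relative to `V` -/
structure Rob (V F : M → M → Prop) : Prop where
  comp : Comp M (fun q : M × M => F q.1 q.2)
  ne : ∀ R a, 1 ≤ R → F R a → ∃ x, el x a
  size : ∃ s : M → M, Comp M s ∧ ∀ R a, F R a → card a ≤ s R
  mono : ∀ R R' a, 1 ≤ R → R ≤ R' → F R' a → ∃ b, Sub b a ∧ F R b
  split : ∀ R r a b, 1 ≤ R → 1 ≤ r → F (R + r) a →
    (∃ d, Sub d a ∧ (∀ x, el x d → el x b) ∧ F R d) ∨
      (∃ d, Sub d a ∧ (∀ x, el x d → ¬ el x b) ∧ V r d)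

end

/-- names of the families for the quantifier part -/
inductive FQ : Type
  | base : FQ
  | sum (F G : FQ) : FQ
  | zed (F : FQ) : FQ

/-- names of the families of the final part -/
inductive FH : Type
  | base : FH
  | sum (F G : FH) : FH
  | left (F : FQ) (G : FH) : FH

/-- interpretation -/
def FQ.int {M : Type} [Env M] (f : M → M → Prop) (n : ℕ) : FQ → M → M → Prop
  | .base, R, a => Tr f n false R a
  | .sum F G, R, a => Two f false (F.int f n R) (G.int f n R) a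
  | .zed F, R, a => Two f true (Tr f n false R) (F.int f n R) a

/-- interpretation -/
def FH.int {M : Type} [Env M] (f : M → M → Prop) (n : ℕ) : FH → M → M → Prop
  | .base, R, a => Tr f n false R a
  | .sum F G, R, a => Two f false (F.int f n R) (G.int f n R) a
  | .left F G, R, a => Two f true (F.int f n R) (G.int f n R) a

/-- the class of Theorem G (patterns as trees) -/
inductive GG : Sp → Prop
  | pt : GG .pt
  | ss {a b : Sp} : GG a → GG b → GG (.op false a b)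
  | st {a b : Sp} : C1 a → GG b → GG (.op true a b)

/-! ### the statements of the modules -/

/-- G1 -/
def StCut : Prop := ∀ (M : Type) [EnvB M], ¬ I2 M → ∃ (act : M → M) (a : M), Act act a

/-- G1, facts -/
def StMi : Prop := ∀ (M : Type) [EnvB M] (act : M → M) (a : M), Act act a → MiF act

/-- G2 -/
def StNC : Prop := ∀ (M : Type) [EnvB M] (act : M → M) (a : M), Act act a →
  ∀ F : M → M, Blk F → ∃ K : Set M, IS K ∧
    ∀ k ∈ K, ∀ x, el x (F k) → ∀ y, el y (F k) → mi act x = mi act y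

/-- G3, Lemma B -/
def StB : Prop := ∀ (M : Type) [EnvB M] (q : Sp), RTp M q → ∀ X : Set M, IS X →
  ∀ W : M → Prop, LC M W → ∃ F : M → M, Blk F ∧ (∀ k, FS (F k) X) ∧
    ((∀ k, ∃ x, el x (F k) ∧ W x) ∨ ∀ k, ∃ x, el x (F k) ∧ ¬ W x)

/-- G4, (1)-(4) -/
def StAct : Prop := ∀ (M : Type) [EnvB M] (f : M → M → Prop), Bad f (Set.univ : Set M) →
  ∀ (act : M → M) (a : M), Act act a → ∃ act' : M → M, Act act' a ∧
    ∀ x y, x < y → mi act' x + 1 < mi act' y → (f x y ↔ tr f x)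

/-- the cut along a strictly increasing function -/
def StPullA : Prop := ∀ (M : Type) [EnvB M] (act : M → M) (a : M), Act act a →
  ∀ e : M → M, Comp M e → (∀ i j, i < j → e i < e j) → ∃ act' : M → M, Act act' a ∧
    ∀ x, mi act' x = mi act (e x)

/-- bad colourings along a strictly increasing function -/
def StPullB : Prop := ∀ (M : Type) [EnvB M] (f : M → M → Prop) (X : Set M), Bad f X →
  ∀ e : M → M, Comp M e → (∀ i j, i < j → e i < e j) → (∀ i, e i ∈ X) →
    Bad (fun x y => f (e x) (e y)) (Set.univ : Set M) ∧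
      ∀ x c, Lim (fun x y => f (e x) (e y)) (Set.univ : Set M) c x ↔ Lim f X c (e x)

/-- G3, corollary (thinning) -/
def StThin : Prop := ∀ (M : Type) [EnvB M] (q : Sp), RTp M q → ∀ (act : M → M) (a : M),
  Act act a → ∀ X : Set M, IS X → ∀ W : M → Prop, LC M W →
    (∀ x ∈ X, ∀ y ∈ X, mi act x = mi act y → (W x ↔ W y)) →
      ∃ Y : Set M, IS Y ∧ Y ⊆ X ∧ ((∀ x ∈ Y, W x) ∨ ∀ x ∈ Y, ¬ W x)

/-- G4, (5) and transport -/
def StNorm : Prop := ∀ (M : Type) [EnvB M] (q : Sp), RTp M q → ¬ I2 M →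
  ∀ (f : M → M → Prop) (X : Set M), Bad f X → ∃ e : M → M, Comp M e ∧ (∀ i j, i < j → e i < e j) ∧
    (∀ i, e i ∈ X) ∧ ∃ (act : M → M) (a : M), Nice (fun x y => f (e x) (e y)) act a

/-- G5, (C0) -/
def StC0 : Prop := ∀ (M : Type) [EnvB M] (act : M → M) (a : M), Act act a →
  ∀ (E : M → Prop) (X : Set M), IS X → LC M E →
    (∀ Y : Set M, IS Y → Y ⊆ X → ∃ x ∈ Y, E x) → Cnd act E X (mi act)

/-- G5, the classes are coded -/
def StCls : Prop := ∀ (M : Type) [EnvB M] (act : M → M) (a : M), Act act a →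
  ∀ (E : M → Prop) (X : Set M) (k : M → M), Cnd act E X k → ∀ E' : M → Prop, LC M E' →
    ∃ e : M → M, LC M e ∧ ∀ z ∈ X, ∀ x, el x (e z) ↔ (x ∈ X ∧ E' x ∧ k x = k z)

/-- G5, (C3) -/
def StCuts : Prop := ∀ (M : Type) [EnvB M] (q : Sp), RTp M q → NCS M →
  ∀ (act : M → M) (E : M → Prop) (X : Set M) (k : M → M), Cnd act E X k →
    ∀ Th : M → M, LC M Th → (∀ x ∈ X, ∀ y ∈ X, k x = k y → Th x = Th y) →
      ∀ N, (∀ x ∈ X, card (Th x) ≤ N) → Cnd act E X (fun x => Pre.cp (k x, blw (Th x) x))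

/-- G5, (C3), the points outside of the cuts -/
def StCutX : Prop := ∀ (M : Type) [EnvB M]
  (act : M → M) (E : M → Prop) (X : Set M) (k : M → M) (Th : M → M),
    (∀ x ∈ X, ∀ y ∈ X, k x = k y → Th x = Th y) →
    Cnd act E X (fun x => Pre.cp (k x, blw (Th x) x)) →
    ∃ X' : Set M, IS X' ∧ X' ⊆ X ∧ ∀ x ∈ X', E x → ¬ el x (Th x)

/-- G5, (C4) -/
def StLowU : Prop := ∀ (M : Type) [EnvB M]
  (act : M → M) (E : M → Prop) (X : Set M) (k : M → M) (Th : M → M),
    Cnd act E X (fun x => Pre.cp (k x, blw (Th x) x)) → Low E X (fun x => mx (blw (Th x) x))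

/-- G5, the first half of (C5) -/
def StAgree : Prop := ∀ (M : Type) [EnvB M] (f : M → M → Prop), Bad f (Set.univ : Set M) →
  ∀ (E : M → Prop) (X : Set M) (u : M → M), Low E X u → ∀ F w : M → M, Blk F → Comp M w →
    (∀ j, FS (F j) X ∧ el (w j) (F j)) → ∃ J : M → M, Comp M J ∧ (∀ i j, i < j → J i < J j) ∧
      ∀ i, E (w (J i)) → ∀ x, el x (F (J i)) → u (w (J i)) < x ∧
        ∀ v, v ≤ u (w (J i)) → (f v x ↔ f v (w (J i)))

/-- G5, (C5) -/
def StView : Prop := ∀ (M : Type) [EnvB M] (f : M → M → Prop), Bad f (Set.univ : Set M) →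
  ∀ (act : M → M) (E : M → Prop) (X : Set M) (k : M → M), Cnd act E X k → ∀ u : M → M, LC M u →
    (∀ x ∈ X, ∀ y ∈ X, k x = k y → u x = u y) → Low E X u →
      ∃ g : M → M, LC M g ∧ (∀ x v, el v (g x) ↔ v ≤ u x ∧ f v x) ∧
        Cnd act E X (fun x => Pre.cp (k x, g x))

/-- G6 -/
def StStrong : Prop := ∀ (M : Type) [EnvB M] (q : Sp), RTp M q → NCS M →
  ∀ f : M → M → Prop, Comp M (fun q : M × M => f q.1 q.2) → ∀ (j : ℕ) (c : Bool)
    (E : M → Prop), LC M E → ∀ T ρ : M → M, Blk T → Comp M ρ → (∀ k, k ≤ ρ k) →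
      (∀ k, Tr f j c (ρ k) (T k)) → ∀ R, 1 ≤ R → ∃ nn w : M → M, Comp M nn ∧ Comp M w ∧
        (∀ i j, i < j → nn i < nn j) ∧ ∀ l, el (w l) (T (nn l)) ∧
          (E (w l) → ∃ b, Sub b (T (nn l)) ∧ Tr f j c R b ∧ ∀ x, el x b → E x)

/-- G6, (S1) -/
def StTypV : Prop := ∀ (M : Type) [EnvB M] (q : Sp), RTp M q → NCS M →
  ∀ f : M → M → Prop, Comp M (fun q : M × M => f q.1 q.2) → ∀ (act : M → M) (n : ℕ),
    (∀ Y : Set M, IS Y → ∀ R, 1 ≤ R → ∃ a, FS a Y ∧ Tr f n false R a) →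
      ∀ R, 1 ≤ R → Typ act (Tr f n false R)

/-- G7, the least candidate -/
def StCand : Prop := ∀ (M : Type) [EnvB M] (f : M → M → Prop),
  Comp M (fun q : M × M => f q.1 q.2) → ∀ (act : M → M) (a : M), Act act a →
    ∀ (E : M → Prop) (X : Set M) (k : M → M), Cnd act E X k → ∀ (c : Bool) (A : M → Prop),
      Comp M A → (∀ a, A a → ∃ x, el x a) → ∃ Q : M → M, LC M Q ∧ ∀ w ∈ X,
        ((¬ ∃ a, Cand f E X k c A w a) → Q w = 0) ∧
        ((∃ a, Cand f E X k c A w a) → Cand f E X k c A w (Q w) ∧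
          ∀ a, Cand f E X k c A w a → mx (Q w) < mx a ∨ (mx (Q w) = mx a ∧ Q w ≤ a))

/-- G7 -/
def StLowT : Prop := ∀ (M : Type) [EnvB M] (f : M → M → Prop), Bad f (Set.univ : Set M) →
  ∀ (act : M → M) (a : M), Act act a → ∀ (c : Bool) (A G : M → Prop), Comp M A →
    (∀ a, A a → ∃ x, el x a) → (∀ a, G a → ∃ x, el x a) → Typ1 f act c A → Typ act G →
      Typ act (Two f c A G)

/-- G8, finite part -/
def StERfin : Prop := ∀ (M : Type) [Env M] (f : M → M → Prop),
  Comp M (fun q : M × M => f q.1 q.2) → ∀ (n : ℕ) (r : M), 1 ≤ r → ∀ A : M → Prop, Comp M A →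
    (∀ a, A a → ∃ x, el x a) → ∀ s, (∀ a, A a → card a ≤ s) → ∃ (Phi : M → M) (N : M),
      Comp M Phi ∧ (∀ e, card (Phi e) ≤ N) ∧ ∀ e b u, Sub b e → A b →
        (∀ x, el x b → ¬ el x (Phi e)) →
        (∀ x, el x b → ∀ y, el y b → blw (Phi e) x = blw (Phi e) y) →
        (∀ x, el x b → u = mx (blw (Phi e) x)) →
        (∀ x, el x b → ∀ y, el y b → ∀ v, v ≤ u → (f v x ↔ f v y)) →
        (∀ x, el x b → ∀ b', Sub b' e → A b' → (∀ y, el y b' → y < x) →
          ∃ v, Sub v b' ∧ Tr f n false r v ∧ ∀ y, el y v → f y x) →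
        ∃ U, Tr f (n + 1) true r U

/-- G8 -/
def StER : Prop := ∀ (M : Type) [EnvB M] (q : Sp), RTp M q →
  ∀ (f : M → M → Prop) (act : M → M) (a : M), Nice f act a → ∀ (n : ℕ) (r : M), Wld f n r →
    ∀ F : M → M → Prop, Rob (Tr f n false) F → (∀ R, 1 ≤ R → Typ act (F R)) →
      ∀ R, 1 ≤ R → Typ1 f act false (F R)

/-- G9, (V1) -/
def StV1 : Prop := ∀ (M : Type) [EnvB M] (q : Sp), RTp M q →
  ∀ (f : M → M → Prop) (act : M → M) (a : M), Nice f act a → ∀ (n : ℕ) (r : M), Wld f n r →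
    ∀ X : Set M, IS X → ∃ par : M → M → Prop, Comp M (fun q : M × M => par q.1 q.2) ∧
      ∀ F : M → M, Blk F → (∀ k, FS (F k) X) → ∀ kk b, 1 ≤ kk → ∀ c : Bool,
        ∃ i T j, (∀ x, el x T → b < x) ∧ (∃ T', Sub T' T ∧ Tr f n false kk T') ∧
          ∀ z, el z (F j) →
            (∀ x, el x T ↔ (x ∈ X ∧ x < z ∧ dl act x z = i ∧ f x z)) ∧
            (par z i ↔ c = true) ∧
            ∀ x ∈ X, x < z → i < dl act x z → ∀ t, el t T → f t x

/-- G9, the function `psi` -/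
def StPsiF : Prop := ∀ (M : Type) [EnvB M] (f : M → M → Prop),
  Comp M (fun q : M × M => f q.1 q.2) → ∀ (act : M → M) (a : M), Act act a →
    ∀ (E : M → Prop) (X : Set M) (k : M → M), Cnd act E X k → ∀ (c : Bool) (A : M → Prop),
      Comp M A → ∃ psi : M → M, LC M psi ∧ ∀ z ∈ X,
        (∀ a, Cand f E X k c A z a → mn a ≤ psi z) ∧
        ((∃ a, Cand f E X k c A z a) → ∃ a, Cand f E X k c A z a ∧ mn a = psi z)

/-- G9 -/
def StPsi : Prop := ∀ (M : Type) [EnvB M] (q : Sp), RTp M q →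
  ∀ (f : M → M → Prop) (act : M → M) (a : M), Nice f act a → ∀ (n : ℕ) (r : M), Wld f n r →
    ∀ R, 1 ≤ R → Typ1 f act true (Tr f n false R)

/-- G10, (F1) for the first families -/
def StRobQ : Prop := ∀ (M : Type) [Env M] (f : M → M → Prop),
  Comp M (fun q : M × M => f q.1 q.2) → ∀ (n : ℕ) (F : FQ), Rob (Tr f n false) (F.int f n)

/-- G10, (F1) for the second families -/
def StRobH : Prop := ∀ (M : Type) [Env M] (f : M → M → Prop),
  Comp M (fun q : M × M => f q.1 q.2) → ∀ (n : ℕ) (F : FH), Rob (Tr f n false) (F.int f n)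

/-- G10, (F3) -/
def StTypQ : Prop := ∀ (M : Type) [EnvB M] (q : Sp), RTp M q →
  ∀ (f : M → M → Prop) (act : M → M) (a : M), Nice f act a → ∀ (n : ℕ) (r : M), Wld f n r →
    ∀ (F : FQ) (R : M), 1 ≤ R → Typ act (F.int f n R)

/-- G10, (F4) for `C₁` -/
def StCpyQ : Prop := ∀ q : Sp, C1 q → ∃ (F : FQ) (R : ℕ), 1 ≤ R ∧ ∀ (M : Type) [Env M]
  (f : M → M → Prop), Comp M (fun q : M × M => f q.1 q.2) → ∀ (n : ℕ) (R' a : M), 1 ≤ n →
    ((R : ℕ) : M) ≤ R' → F.int f n R' a → ∃ b, Sub b a ∧ Cpy f q b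

/-- G10, (F4) for `GG` -/
def StCpyH : Prop := ∀ q : Sp, GG q → ∃ (F : FH) (R : ℕ), 1 ≤ R ∧ ∀ (M : Type) [Env M]
  (f : M → M → Prop), Comp M (fun q : M × M => f q.1 q.2) → ∀ (n : ℕ) (R' a : M), 1 ≤ n →
    ((R : ℕ) : M) ≤ R' → F.int f n R' a → ∃ b, Sub b a ∧ Cpy f q b

/-- G11 -/
def StGlob : Prop := ∀ (M : Type) [EnvB M] (q : Sp), RTp M q →
  ∀ (f : M → M → Prop) (act : M → M) (a : M), Nice f act a → ∀ (n : ℕ) (r : M), Wld f n r →
    ∀ (F : FH) (Y : Set M), IS Y → ∀ R, 1 ≤ R → ∃ a, FS a Y ∧ F.int f n R a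

/-- trees under strictly increasing maps -/
def StTrMap : Prop := ∀ (M : Type) [Env M] (f : M → M → Prop) (e : M → M),
  Comp M (fun q : M × M => f q.1 q.2) → Comp M e → (∀ i j, i < j → e i < e j) →
    ∀ (j : ℕ) (c : Bool) (R a : M), Tr (fun x y => f (e x) (e y)) j c R a →
      ∃ b, Tr f j c R b ∧ ∀ y, el y b → ∃ x, el x a ∧ e x = y

/-- the closure of the permutation of one point under skew sums and `(a, b) ↦ a ⊕ b` with `a` in
`C₁` -/
inductive InG1 : List ℕ → Prop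
  | one : InG1 [0]
  | skew {a b : List ℕ} : InG1 a → InG1 b → InG1 (skew a b)
  | osum {a b : List ℕ} : InC1 a → InG1 b → InG1 (osum a b)

/-- the closure of the permutation of one point under direct sums and `(a, b) ↦ a ⊖ b` with `a` in
`C₀` -/
inductive InG0 : List ℕ → Prop
  | one : InG0 [0]
  | osum {a b : List ℕ} : InG0 a → InG0 b → InG0 (osum a b)
  | skew {a b : List ℕ} : InC0 a → InG0 b → InG0 (skew a b)

/-- trees for the class of Theorem G -/
def StTree1 : Prop := ∀ p : List ℕ, InG1 p → ∃ q : Sp, GG q ∧ ∀ (M : Type) [Env M]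
  (f : M → M → Prop) (a : M), Cpy f q a → ∃ g : Fin p.length → M, (∀ i j, i < j → g i < g j) ∧
    (∀ i, el (g i) a) ∧ ∀ i j, i < j → (f (g i) (g j) ↔ p.get i < p.get j)

/-- the same for complements -/
def StTree0 : Prop := ∀ p : List ℕ, InG0 p → ∃ q : Sp, GG q.compl ∧ ∀ (M : Type) [Env M]
  (f : M → M → Prop) (a : M), Cpy f q a → ∃ g : Fin p.length → M, (∀ i j, i < j → g i < g j) ∧
    (∀ i, el (g i) a) ∧ ∀ i j, i < j → (f (g i) (g j) ↔ p.get i < p.get j)

/-- sums of blocks (a public copy of `c9b_sum`) -/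
def StSum : Prop := ∀ (M : Type) [Env M] (f : M → M → Prop),
  Comp M (fun q : M × M => f q.1 q.2) → ∀ Q : M → Prop, Comp M Q → (∀ a, Q a → ∃ x, el x a) →
    ∀ E : M → M, Blk E → ∀ N, (∀ k, card (E k) ≤ N) → ∀ (c : Bool) (r : M), ∃ N', ∀ a,
      N' ≤ card a → (∀ k, el k a → ∀ m, el m a → k < m →
        ∃ b, Sub b (E k) ∧ (Q b ∧ ∀ x, el x b → ∀ y, el y (E m) → cl f c x y)) →
          ∃ d, (∀ x, el x d → ∃ k, el k a ∧ el x (E k)) ∧ Isum f c Q r d

/-- G12: from the failure for `n + 1` to a world in normal form -/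
def StWld : Prop := ∀ (M : Type) [EnvB M] (q : Sp), RTp M q → ¬ I2 M → ∀ n : ℕ,
  (∀ (c : Bool) (f : M → M → Prop) (X : Set M), Bad f X → ∀ R, 1 ≤ R →
      ∃ a, FS a X ∧ Tr f n c R a) →
    ∀ (f : M → M → Prop) (X : Set M), Bad f X → ∀ r, 1 ≤ r →
      (¬ ∃ a, FS a X ∧ Tr f (n + 1) true r a) →
        ∃ (g : M → M → Prop) (act : M → M) (a : M) (m : ℕ), Nice g act a ∧ Wld g m r

/-- G12 -/
def StFin : Prop := ∀ (M : Type) [Env M] (q : Sp), GG q → RTp M q → RTT M

end RT22P
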