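import Pool.Agent.RTP.GDefs

/-!
# The Erdős–Rado step
-/

set_option autoImplicit false

namespace RT22P

open Env

theorem er (_hMi : StMi) (hCls : StCls) (hCuts : StCuts) (hCX : StCutX) (hLU : StLowU)
    (hView : StView) (hFin : StERfin) : StER := by
  intro M _ q hq f act a hN n r hW F hF hT R hR E X k hC
  by_contra hno
  have hf := hN.bad.comp
  have hr := hW.r1
  have hcp : ∀ {x y u v : M}, (Pre.cp (x, y) : M) = Pre.cp (u, v) → x = u ∧ y = v := by
    intro x y u v he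
    have h1 := (Pre.cp (M := M)).injective he
    exact ⟨congrArg Prod.fst h1, congrArg Prod.snd h1⟩
  -- the classes
  obtain ⟨e, he, hel⟩ := hCls M act a hN.cut E X k hC E hC.lcE
  have hek : ∀ x ∈ X, ∀ y ∈ X, k x = k y → e x = e y := by
    intro x hx y hy hxy
    refine fext fun z => ?_
    rw [hel x hx, hel y hy, hxy]
  -- the finite combinatorics
  have hR1 : 1 ≤ R + r := le_trans hR le_self_add
  obtain ⟨s, hs, hcard⟩ := hF.size
  obtain ⟨Phi, N, hPhi, hPhiN, hprop⟩ := hFin M f hf n r hr (F (R + r))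
    (comp_comp (fun q : M × M => F q.1 q.2) (fun a : M => (R + r, a)) hF.comp (by fun_prop))
    (fun b hb => hF.ne _ b hR1 hb) (s (R + r)) (fun b hb => hcard _ b hb)
  have hThLC : LC M (fun z => Phi (e z)) := lc_comp Phi e hPhi.lc he
  have hThinv : ∀ x ∈ X, ∀ y ∈ X, k x = k y → Phi (e x) = Phi (e y) := fun x hx y hy hxy => by
    rw [hek x hx y hy hxy]
  have hC1 := hCuts M q hq (bad_ncs hN.bad) act E X k hC (fun z => Phi (e z)) hThLC hThinv N
    (fun x _ => hPhiN _)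
  obtain ⟨X', hX', hX'X, hX'Th⟩ := hCX M act E X k (fun z => Phi (e z)) hThinv hC1
  have hLow := hLU M act E X k (fun z => Phi (e z)) hC1
  have huLC : LC M (fun x => mx (blw (Phi (e x)) x)) := by
    refine lc_mx _ (lc_blw _ _ hThLC ?_)
    fun_prop
  obtain ⟨g, hg, hgel, hC2⟩ := hView M f hN.bad act E X
    (fun x => Pre.cp (k x, blw (Phi (e x)) x)) hC1 (fun x => mx (blw (Phi (e x)) x)) huLC
    (fun x _ y _ hxy => by
      show mx (blw (Phi (e x)) x) = mx (blw (Phi (e y)) y)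
      rw [(hcp hxy).2]) hLow
  obtain ⟨b, hbX, hAb, hbE, hbk⟩ := hT (R + r) hR1 E X' _ (hC2.mono hX' hX'X)
  obtain ⟨x0, hx0⟩ := hF.ne _ b hR1 hAb
  have hx0X : x0 ∈ X := hX'X (hbX x0 hx0)
  have hk : ∀ x, el x b → ∀ y, el y b → k x = k y ∧ blw (Phi (e x)) x = blw (Phi (e y)) y ∧
      g x = g y := by
    intro x hx y hy
    obtain ⟨h1, h2⟩ := hcp (hbk x hx y hy)
    obtain ⟨h3, h4⟩ := hcp h1
    exact ⟨h3, h4, h2⟩
  have hex : ∀ x, el x b → e x = e x0 := fun x hx =>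
    hek x (hX'X (hbX x hx)) x0 hx0X (hk x hx x0 hx0).1
  have hmx : ∀ x, el x b → mx (blw (Phi (e x0)) x0) = mx (blw (Phi (e x0)) x) := by
    intro x hx
    have h1 := (hk x hx x0 hx0).2.1
    rw [hex x hx] at h1
    rw [h1]
  have g1 : Sub b (e x0) := by
    intro x hx
    exact (hel x0 hx0X x).2 ⟨hX'X (hbX x hx), hbE x hx, (hk x hx x0 hx0).1⟩
  have g2 : ∀ x, el x b → ¬ el x (Phi (e x0)) := by
    intro x hx h1
    refine hX'Th x (hbX x hx) (hbE x hx) ?_
    show el x (Phi (e x))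
    rw [hex x hx]
    exact h1
  have g3 : ∀ x, el x b → ∀ y, el y b → blw (Phi (e x0)) x = blw (Phi (e x0)) y := by
    intro x hx y hy
    have h1 := (hk x hx y hy).2.1
    rwa [hex x hx, hex y hy] at h1
  have g4 : ∀ x, el x b → ∀ y, el y b → ∀ v, v ≤ mx (blw (Phi (e x0)) x0) →
      (f v x ↔ f v y) := by
    intro x hx y hy v hv
    have h1 := (hk x hx y hy).2.2
    have hux : mx (blw (Phi (e x)) x) = mx (blw (Phi (e x0)) x0) := by
      rw [(hk x hx x0 hx0).2.1]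
    have huy : mx (blw (Phi (e y)) y) = mx (blw (Phi (e x0)) x0) := by
      rw [(hk y hy x0 hx0).2.1]
    have h2 := hgel x v
    have h3 := hgel y v
    rw [h1] at h2
    have h4 := h2.symm.trans h3
    rw [hux, huy] at h4
    exact ⟨fun h => (h4.1 ⟨hv, h⟩).2, fun h => (h4.2 ⟨hv, h⟩).2⟩
  have g5 : ∀ x, el x b → ∀ b', Sub b' (e x0) → F (R + r) b' → (∀ y, el y b' → y < x) →
      ∃ v, Sub v b' ∧ Tr f n false r v ∧ ∀ y, el y v → f y x := by
    intro x hx b' hb' hAb' hlt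
    obtain ⟨c, hc⟩ := exists_code (P := fun v => ¬ f v x)
      (comp_not _ (comp_comp (fun q : M × M => f q.1 q.2) (fun v : M => (v, x)) hf
        (by fun_prop))) b'
    rcases hF.split R r b' c hR hr hAb' with ⟨d, hd, hdc, hFd⟩ | ⟨d, hd, hdc, hVd⟩
    · exfalso
      refine hno ⟨d, x, ?_, hFd, ?_, hX'X (hbX x hx), hbE x hx, ?_⟩
      · intro y hy
        exact ((hel x0 hx0X y).1 (hb' y (hd y hy))).1
      · intro y hy
        exact ((hel x0 hx0X y).1 (hb' y (hd y hy))).2.1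
      · intro y hy
        refine ⟨hlt y (hd y hy), ?_, ?_⟩
        · rw [((hel x0 hx0X y).1 (hb' y (hd y hy))).2.2, (hk x hx x0 hx0).1]
        · have h1 := ((hc y).1 (hdc y hy)).2
          exact ⟨fun h => absurd h h1, fun h => absurd h (by simp)⟩
    · refine ⟨d, hd, hVd, fun y hy => ?_⟩
      by_contra h1
      exact hdc y hy ((hc y).2 ⟨el_lt (hd y hy), h1⟩)
  obtain ⟨U, hU⟩ := hprop (e x0) b (mx (blw (Phi (e x0)) x0)) g1 hAb g2 g3 hmx g4 g5
  exact hW.no U hU

end RT22P
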