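import Pool.Agent.RTP.GDefs

/-!
# Theorem G: the finite part of the ER lemma (G8)

For finite sets `e`, `U` let `Q U e` be an `A`-set `b ⊆ e` with `v < x` and `f v x` for all `v ∈ U`, `x ∈ b`,
with the least possible `mx b`.  A code `τ` of pairs `(i, p)` selects the elements with the positions
`p` of the sets `Q`; `U τ e j` is the union of the first `j` selected sets.
-/

set_option autoImplicit false

namespace RT22P

open Env

section
variable {M : Type} [Env M]

/-- eligible sets -/
private def gerEl (f : M → M → Prop) (A : M → Prop) (U e b : M) : Prop :=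
  A b ∧ (Sub b e ∧ ∀ x, el x b → ∀ v, el v U → (v < x ∧ f v x))

private theorem gerfin_El {Γ : Type} [Enc M Γ] {f : M → M → Prop}
    (hf : Comp M (fun q : M × M => f q.1 q.2)) {A : M → Prop} (hA : Comp M A) {U e b : Γ → M}
    (hU : Comp M U) (he : Comp M e) (hb : Comp M b) :
    Comp M (fun v => gerEl f A (U v) (e v) (b v)) := by
  unfold gerEl
  fun_prop

private theorem gerfin_Q {f : M → M → Prop} (hf : Comp M (fun q : M × M => f q.1 q.2))
    {A : M → Prop} (hA : Comp M A) : ∃ Q : M → M → M, Comp M (fun q : M × M => Q q.1 q.2) ∧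
      ∀ U e, (∃ b, gerEl f A U e b) → gerEl f A U e (Q U e) ∧
        ∀ b, gerEl f A U e b → mx (Q U e) ≤ mx b := by
  have hP : Comp M (fun q : (M × M) × M => (gerEl f A q.1.1 q.1.2 q.2 ∧
      ∀ b', b' ≤ q.1.2 → (gerEl f A q.1.1 q.1.2 b' → mx q.2 ≤ mx b')) ∨
      ∀ b', b' ≤ q.1.2 → ¬ gerEl f A q.1.1 q.1.2 b') := by
    refine comp_or _ _ (comp_and _ _ (gerfin_El hf hA (by fun_prop) (by fun_prop) (by fun_prop))
      (comp_ballle (fun q : (M × M) × M => q.1.2)
        (fun q b' => gerEl f A q.1.1 q.1.2 b' → mx q.2 ≤ mx b') (by fun_prop)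
        (comp_imp _ _ (gerfin_El hf hA (by fun_prop) (by fun_prop) (by fun_prop))
          (by fun_prop)))) (comp_ballle (fun q : (M × M) × M => q.1.2)
        (fun q b' => ¬ gerEl f A q.1.1 q.1.2 b') (by fun_prop)
        (comp_not _ (gerfin_El hf hA (by fun_prop) (by fun_prop) (by fun_prop))))
  obtain ⟨F, hF, hF'⟩ := search_min (M := M) (Γ := M × M) (P := fun v b =>
      (gerEl f A v.1 v.2 b ∧ ∀ b', b' ≤ v.2 → (gerEl f A v.1 v.2 b' → mx b ≤ mx b')) ∨
      ∀ b', b' ≤ v.2 → ¬ gerEl f A v.1 v.2 b') hP (fun v => by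
    by_cases h : ∃ b, gerEl f A v.1 v.2 b
    · obtain ⟨m, ⟨b, _, hb, hbm⟩, hmin⟩ := leastC
        (P := fun m => ∃ b, b ≤ v.2 ∧ (gerEl f A v.1 v.2 b ∧ mx b = m)) (by
          refine comp_bexle (fun _ : M => v.2) (fun m b => gerEl f A v.1 v.2 b ∧ mx b = m)
            (by fun_prop) (comp_and _ _ ?_ (by fun_prop))
          exact gerfin_El (Γ := M × M) hf hA (U := fun _ => v.1) (e := fun _ => v.2)
            (b := fun q => q.2) (by fun_prop) (by fun_prop) (by fun_prop)) (by
          obtain ⟨b, hb⟩ := h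
          exact ⟨mx b, b, hb.2.1.le, hb, rfl⟩)
      refine ⟨b, Or.inl ⟨hb, fun b' hb'e hb' => ?_⟩⟩
      rw [hbm]
      by_contra hcon
      exact hmin _ (not_le.1 hcon) ⟨b', hb'e, hb', rfl⟩
    · exact ⟨0, Or.inr fun b' _ hb' => h ⟨b', hb'⟩⟩)
  refine ⟨fun U e => F (U, e), hF, fun U e h => ?_⟩
  rcases (hF' (U, e)).1 with h1 | h1
  · exact ⟨h1.1, fun b hb => h1.2 b hb.2.1.le hb⟩
  · obtain ⟨b, hb⟩ := h
    exact absurd hb (h1 b hb.2.1.le)

/-- selection of the elements with given positions -/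
private theorem gerfin_sel (M : Type) [Env M] : ∃ sel : M → M → M → M,
    Comp M (fun q : M × M × M => sel q.1 q.2.1 q.2.2) ∧
    ∀ τ i q x, el x (sel τ i q) ↔ (el x q ∧ el (Pre.cp (i, card (blw q x)) : M) τ) := by
  obtain ⟨F, hF, hF'⟩ := c_code (M := M) (Γ := M × M × M) (b := fun v => v.2.2)
    (P := fun p => el p.2 p.1.2.2 ∧ el (Pre.cp (p.1.2.1, card (blw p.1.2.2 p.2)) : M) p.1.1)
    (by fun_prop) (by fun_prop)
  refine ⟨fun τ i q => F (τ, i, q), hF, fun τ i q x => ?_⟩
  rw [hF' (τ, i, q) x]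
  exact ⟨fun h => h.2, fun h => ⟨el_lt h.1, h⟩⟩

private theorem gerfin_cp {i p r s : M} (hi : i < r) (hp : p < s) :
    (Pre.cp (i, p) : M) < (r + s) * (r + s + 1) + 2 * s := by
  have h1 := Pre.cp_spec (M := M) i p
  have h2 : i + p < r + s := add_lt_add hi hp
  have h3 : (i + p) * (i + p + 1) ≤ (r + s) * (r + s + 1) :=
    mul_le_mul h2.le (add_le_add h2.le le_rfl) (zero_le' _) (zero_le' _)
  have h4 : 2 * p < 2 * s := by
    have h5 : (2 : M) * p = p + p := two_mul p
    have h6 : (2 : M) * s = s + s := two_mul s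
    rw [h5, h6]
    exact add_lt_add hp hp
  have h5 : 2 * (Pre.cp (i, p) : M) < (r + s) * (r + s + 1) + 2 * s := by
    rw [h1]
    exact add_lt_add_of_le_of_lt h3 h4
  refine lt_of_le_of_lt ?_ h5
  rw [two_mul]
  exact le_self_add

end

theorem er_fin : StERfin := by
  intro M _ f hf n r hr A hA hne s hs
  obtain ⟨Q, hQ, hQ'⟩ := gerfin_Q hf hA
  obtain ⟨sel, hsel, hsel'⟩ := gerfin_sel M
  have hQc : ∀ {Γ : Type} [Enc M Γ] (g h : Γ → M), Comp M g → Comp M h →
      Comp M (fun v => Q (g v) (h v)) := fun g h hg hh =>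
    comp_comp (fun q : M × M => Q q.1 q.2) (fun v => (g v, h v)) hQ (comp_prod _ _ hg hh)
  have hselc : ∀ {Γ : Type} [Enc M Γ] (g h k : Γ → M), Comp M g → Comp M h → Comp M k →
      Comp M (fun v => sel (g v) (h v) (k v)) := fun g h k hg hh hk =>
    comp_comp (fun q : M × M × M => sel q.1 q.2.1 q.2.2) (fun v => (g v, h v, k v)) hsel
      (comp_prod _ _ hg (comp_prod _ _ hh hk))
  -- the chains
  obtain ⟨C, hC, hC0, hC1⟩ := prec (M := M) (Γ := M × M) (Δ := M) (g := fun _ => emp M)
    (h := fun v j U => un U (sel v.1 j (Q U v.2))) (comp_const _)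
    (comp_un _ _ (by fun_prop) (hselc _ _ _ (by fun_prop) (by fun_prop)
      (hQc _ _ (by fun_prop) (by fun_prop))))
  have hCc : ∀ {Γ : Type} [Enc M Γ] (g h k : Γ → M), Comp M g → Comp M h → Comp M k →
      Comp M (fun v => C (g v, h v) (k v)) := fun g h k hg hh hk =>
    comp_comp (fun q : (M × M) × M => C q.1 q.2) (fun v => ((g v, h v), k v)) hC
      (comp_prod _ _ (comp_prod _ _ hg hh) hk)
  -- the pieces
  have hSc : ∀ {Γ : Type} [Enc M Γ] (g h k : Γ → M), Comp M g → Comp M h → Comp M k →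
      Comp M (fun v => sel (g v) (k v) (Q (C (g v, h v) (k v)) (h v))) := fun g h k hg hh hk =>
    hselc _ _ _ hg hk (hQc _ _ (hCc _ _ _ hg hh hk) hh)
  have hCel : ∀ τ e j x, el x (C (τ, e) j) ↔
      ∃ i, i < j ∧ el x (sel τ i (Q (C (τ, e) i) e)) := by
    intro τ e j x
    refine cind (P := fun j => el x (C (τ, e) j) ↔
      ∃ i, i < j ∧ el x (sel τ i (Q (C (τ, e) i) e))) ?_ ?_ ?_ j
    · refine comp_iff _ _ (comp_el (by fun_prop) (hCc _ _ _ (by fun_prop) (by fun_prop)
        (by fun_prop))) (comp_bex (fun j : M => j)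
          (fun _ i => el x (sel τ i (Q (C (τ, e) i) e))) (by fun_prop) ?_)
      exact comp_el (by fun_prop) (hSc (fun _ : M × M => τ) (fun _ => e) (fun q => q.2)
        (by fun_prop) (by fun_prop) (by fun_prop))
    · rw [hC0]
      exact ⟨fun h => absurd h el_emp, fun ⟨i, hi, _⟩ => absurd hi (not_lt_zero' i)⟩
    · intro j ih
      rw [hC1, el_un, ih]
      constructor
      · rintro (⟨i, hi, h⟩ | h)
        · exact ⟨i, hi.trans (lt_self_succ j), h⟩
        · exact ⟨j, lt_self_succ j, h⟩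
      · rintro ⟨i, hi, h⟩
        rcases lt_or_eq_of_le (lt_succ.1 hi) with h1 | h1
        · exact Or.inl ⟨i, h1, h⟩
        · rw [h1] at h
          exact Or.inr h
  -- bounds
  obtain ⟨B, hBdef⟩ : ∃ B : M, B = (r + s) * (r + s + 1) + 2 * s := ⟨_, rfl⟩
  obtain ⟨Z, hZdef⟩ : ∃ Z : M, Z = (pw B + r) * (pw B + r + 1) + 2 * r := ⟨_, rfl⟩
  have hcpB : ∀ i p, i < r → p < s → (Pre.cp (i, p) : M) < B := fun i p hi hp => by
    rw [hBdef]
    exact gerfin_cp hi hp
  have hcpZ : ∀ τ j, τ < pw B → j < r → (Pre.cp (τ, j) : M) < Z := fun τ j h1 h2 => by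
    rw [hZdef]
    exact gerfin_cp h1 h2
  have hsy : Comp M (fun z : M => ((Pre.cp (M := M)).symm z : M × M)) := Env0.c_cpsymm
  have hG : ∀ {Γ : Type} [Enc M Γ] (e z : Γ → M), Comp M e → Comp M z →
      Comp M (fun v => mx (Q (C (((Pre.cp (M := M)).symm (z v)).1, e v)
        ((Pre.cp (M := M)).symm (z v)).2) (e v))) := by
    intro Γ _ e z he hz
    have h1 : Comp M (fun v => ((Pre.cp (M := M)).symm (z v) : M × M)) :=
      comp_comp (fun z : M => ((Pre.cp (M := M)).symm z : M × M)) z hsy hz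
    exact comp_mx _ (hQc _ _ (hCc _ _ _ (comp_fst _ h1) he (comp_snd _ h1)) he)
  obtain ⟨Phi, hPhi, hPhi'⟩ := c_code (M := M) (Γ := M) (b := fun e => e)
    (P := fun q : M × M => ∃ z, z < Z ∧
      q.2 = mx (Q (C (((Pre.cp (M := M)).symm z).1, q.1) ((Pre.cp (M := M)).symm z).2) q.1))
    (by fun_prop) (comp_bex (fun _ : M × M => Z) (fun q z =>
      q.2 = mx (Q (C (((Pre.cp (M := M)).symm z).1, q.1) ((Pre.cp (M := M)).symm z).2) q.1))
      (by fun_prop) (comp_eq _ _ (by fun_prop) (hG (fun q : (M × M) × M => q.1.1)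
        (fun q => q.2) (by fun_prop) (by fun_prop))))
  refine ⟨Phi, Z, hPhi, fun e => ?_, ?_⟩
  · obtain ⟨b, hb, hbc⟩ := exists_image (f := fun z : M =>
      mx (Q (C (((Pre.cp (M := M)).symm z).1, e) ((Pre.cp (M := M)).symm z).2) e))
      (hG (fun _ => e) (fun z => z) (by fun_prop) (by fun_prop)) (ivl 0 Z)
    have h1 : Sub (Phi e) b := fun t ht => by
      obtain ⟨_, z, hz, hzt⟩ := (hPhi' e t).1 ht
      exact (hb t).2 ⟨z, el_ivl.2 ⟨zero_le' _, hz⟩, hzt.symm⟩
    have h2 : card (ivl (0 : M) Z) = Z := by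
      have h := card_ivl (zero_le' Z)
      rwa [add_zero] at h
    rw [← h2]
    exact le_trans (card_mono h1) hbc
  · intro e b u hbe hAb hout hcut hu hview hH
    have hTr : Comp M (fun x : M => Tr f n false r x) :=
      comp_comp (fun q : M × M => Tr f n false q.1 q.2) (fun x : M => (r, x)) (comp_Tr hf n false)
        (by fun_prop)
    obtain ⟨x0, hx0⟩ := hne b hAb
    have hmn := el_mn hx0
    have hmx := el_mx hx0
    -- the induction
    have key : ∀ j, j ≤ r → ∃ τ, τ < pw B ∧ ((∀ z, el z τ → z < B) ∧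
        ((∀ i, i < j → ((∃ b, b ≤ e ∧ gerEl f A (C (τ, e) i) e b) ∧
          Tr f n false r (sel τ i (Q (C (τ, e) i) e)))) ∧
        ((∀ v, el v (C (τ, e) j) → v ≤ u) ∧
          ∀ v, el v (C (τ, e) j) → ∀ x, el x b → (v < x ∧ f v x)))) := by
      refine cind (P := fun j => j ≤ r → ∃ τ, τ < pw B ∧ ((∀ z, el z τ → z < B) ∧
        ((∀ i, i < j → ((∃ b, b ≤ e ∧ gerEl f A (C (τ, e) i) e b) ∧
          Tr f n false r (sel τ i (Q (C (τ, e) i) e)))) ∧
        ((∀ v, el v (C (τ, e) j) → v ≤ u) ∧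
          ∀ v, el v (C (τ, e) j) → ∀ x, el x b → (v < x ∧ f v x))))) ?_ ?_ ?_
      · refine comp_imp _ _ (by fun_prop) (comp_bex (fun _ : M => pw B) (fun j τ =>
          (∀ z, el z τ → z < B) ∧
          ((∀ i, i < j → ((∃ b, b ≤ e ∧ gerEl f A (C (τ, e) i) e b) ∧
            Tr f n false r (sel τ i (Q (C (τ, e) i) e)))) ∧
          ((∀ v, el v (C (τ, e) j) → v ≤ u) ∧
            ∀ v, el v (C (τ, e) j) → ∀ x, el x b → (v < x ∧ f v x)))) (by fun_prop)
          (comp_and _ _ (by fun_prop) (comp_and _ _ (comp_ball (fun q : M × M => q.1)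
            (fun q i => (∃ b, b ≤ e ∧ gerEl f A (C (q.2, e) i) e b) ∧
              Tr f n false r (sel q.2 i (Q (C (q.2, e) i) e))) (by fun_prop)
            (comp_and _ _ (comp_bexle (fun _ : (M × M) × M => e)
              (fun q b => gerEl f A (C (q.1.2, e) q.2) e b) (by fun_prop) ?_) ?_))
            (comp_and _ _ ?_ ?_))))
        · exact gerfin_El hf hA (hCc (fun q : ((M × M) × M) × M => q.1.1.2) (fun _ => e)
            (fun q => q.1.2) (by fun_prop) (by fun_prop) (by fun_prop)) (by fun_prop)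
            (by fun_prop)
        · exact comp_comp (fun x : M => Tr f n false r x) _ hTr
            (hSc (fun q : (M × M) × M => q.1.2) (fun _ => e) (fun q => q.2) (by fun_prop)
              (by fun_prop) (by fun_prop))
        · exact comp_allel (fun q : M × M => C (q.2, e) q.1) (fun _ v => v ≤ u)
            (hCc _ _ _ (by fun_prop) (by fun_prop) (by fun_prop)) (by fun_prop)
        · exact comp_allel (fun q : M × M => C (q.2, e) q.1)
            (fun _ v => ∀ x, el x b → (v < x ∧ f v x))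
            (hCc _ _ _ (by fun_prop) (by fun_prop) (by fun_prop)) (by fun_prop)
      · intro _
        refine ⟨emp M, el_pw fun x hx => absurd hx el_emp, fun z hz => absurd hz el_emp,
          fun i hi => absurd hi (not_lt_zero' i), fun v hv => ?_, fun v hv => ?_⟩
        · rw [hC0] at hv
          exact absurd hv el_emp
        · rw [hC0] at hv
          exact absurd hv el_emp
      · intro j ih hj
        obtain ⟨τ, hτ, hτB, hval, hCu, hCb⟩ := ih (le_trans (lt_self_succ j).le hj)
        have hjr : j < r := succ_le_iff.1 hj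
        -- `b` is eligible
        have hbel : gerEl f A (C (τ, e) j) e b := ⟨hAb, hbe, fun x hx v hv => hCb v hv x hx⟩
        obtain ⟨hQel, hQmin⟩ := hQ' (C (τ, e) j) e ⟨b, hbel⟩
        obtain ⟨q, hq⟩ : ∃ q, q = Q (C (τ, e) j) e := ⟨_, rfl⟩
        rw [← hq] at hQel hQmin
        obtain ⟨y0, hy0⟩ := hne q hQel.1
        have hmxq := el_mx hy0
        have htPhi : el (mx q) (Phi e) := by
          refine (hPhi' e _).2 ⟨el_lt (hQel.2.1 _ hmxq), Pre.cp (τ, j), hcpZ τ j hτ hjr, ?_⟩
          show mx q = mx (Q (C (((Pre.cp (M := M)).symm (Pre.cp (τ, j))).1, e)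
            ((Pre.cp (M := M)).symm (Pre.cp (τ, j))).2) e)
          rw [Equiv.symm_apply_apply]
          show mx q = mx (Q (C (τ, e) j) e)
          rw [← hq]
        have htlt : mx q < mx b := by
          refine lt_of_le_of_ne (hQmin b hbel) fun h => ?_
          refine hout (mx b) hmx ?_
          rw [← h]
          exact htPhi
        have htmn : mx q < mn b := by
          have h1 : el (mx q) (blw (Phi e) (mx b)) := el_blw.2 ⟨htPhi, htlt⟩
          rw [hcut (mx b) hmx (mn b) hmn] at h1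
          exact (el_blw.1 h1).2
        have htu : mx q ≤ u := by
          rw [hu (mn b) hmn]
          exact le_mx (el_blw.2 ⟨htPhi, htmn⟩)
        obtain ⟨v, hvq, hvT, hvf⟩ := hH (mn b) hmn q hQel.2.1 hQel.1
          (fun y hy => lt_of_le_of_lt (le_mx hy) htmn)
        -- the new selection
        obtain ⟨τ', hτ'⟩ := exists_code (P := fun z : M => (el z τ ∧
            ∀ p, p ≤ z → z ≠ Pre.cp (j, p)) ∨
            ∃ x, el x v ∧ z = Pre.cp (j, card (blw q x))) (by fun_prop) B
        have hτ'B : ∀ z, el z τ' → z < B := fun z hz => ((hτ' z).1 hz).1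
        have hcpj : ∀ i p p', (Pre.cp (i, p) : M) = Pre.cp (j, p') → i = j ∧ p = p' := by
          intro i p p' h
          have h1 : (i, p) = (j, p') := (Pre.cp (M := M)).injective h
          exact ⟨congrArg Prod.fst h1, congrArg Prod.snd h1⟩
        have hold : ∀ i p, i < j → (el (Pre.cp (i, p) : M) τ' ↔ el (Pre.cp (i, p) : M) τ) := by
          intro i p hi
          rw [hτ']
          constructor
          · rintro ⟨_, ⟨h, _⟩ | ⟨x, _, h⟩⟩
            · exact h
            · exact absurd (hcpj _ _ _ h).1 hi.ne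
          · intro h
            exact ⟨hτB _ h, Or.inl ⟨h, fun p' _ h' => hi.ne (hcpj _ _ _ h').1⟩⟩
        have hselold : ∀ i w, i < j → sel τ' i w = sel τ i w := fun i w hi => fext fun x => by
          rw [hsel', hsel', hold i _ hi]
        have hCold : ∀ i, i ≤ j → C (τ', e) i = C (τ, e) i := by
          refine cind (P := fun i => i ≤ j → C (τ', e) i = C (τ, e) i) ?_ ?_ ?_
          · exact comp_imp _ _ (by fun_prop) (comp_eq _ _
              (hCc _ _ _ (by fun_prop) (by fun_prop) (by fun_prop))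
              (hCc _ _ _ (by fun_prop) (by fun_prop) (by fun_prop)))
          · intro _
            rw [hC0, hC0]
          · intro i ih' hi
            have hi' : i < j := succ_le_iff.1 hi
            rw [hC1, hC1, ih' hi'.le]
            show un (C (τ, e) i) (sel τ' i (Q (C (τ, e) i) e)) =
              un (C (τ, e) i) (sel τ i (Q (C (τ, e) i) e))
            rw [hselold _ _ hi']
        have hselnew : sel τ' j q = v := fext fun x => by
          rw [hsel', hτ']
          constructor
          · rintro ⟨hxq, _, ⟨_, h⟩ | ⟨y, hy, h⟩⟩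
            · refine absurd rfl (h (card (blw q x)) ?_)
              have h1 := Pre.cp_spec (M := M) j (card (blw q x))
              by_contra hcon
              have h2 := not_le.1 hcon
              have h3 : 2 * (Pre.cp (j, card (blw q x)) : M) < 2 * card (blw q x) := by
                rw [two_mul, two_mul]
                exact add_lt_add h2 h2
              rw [h1] at h3
              exact absurd h3 (not_lt.2 le_add_self)
            · have h1 := (hcpj _ _ _ h).2
              have h2 := (nth_pos hxq).2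
              have h3 := (nth_pos (hvq y hy)).2
              rw [h1, h3] at h2
              rw [← h2]
              exact hy
          · intro hxv
            refine ⟨hvq x hxv, hcpB _ _ hjr ?_, Or.inr ⟨x, hxv, rfl⟩⟩
            exact lt_of_lt_of_le (nth_pos (hvq x hxv)).1 (hs q hQel.1)
        have hCnew : ∀ y, el y (C (τ', e) (j + 1)) ↔ el y (C (τ, e) j) ∨ el y v := by
          intro y
          rw [hC1, hCold j le_rfl, el_un]
          show el y (C (τ, e) j) ∨ el y (sel τ' j (Q (C (τ, e) j) e)) ↔ _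
          rw [← hq, hselnew]
        refine ⟨τ', el_pw hτ'B, hτ'B, fun i hi => ?_, fun y hy => ?_, fun y hy x hx => ?_⟩
        · rcases lt_or_eq_of_le (lt_succ.1 hi) with h1 | h1
          · rw [hCold i h1.le, hselold _ _ h1]
            exact hval i h1
          · rw [h1, hCold j le_rfl, ← hq, hselnew]
            exact ⟨⟨b, hbe.le, hbel⟩, hvT⟩
        · rcases (hCnew y).1 hy with h1 | h1
          · exact hCu y h1
          · exact le_trans (le_mx (hvq y h1)) htu
        · rcases (hCnew y).1 hy with h1 | h1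
          · exact hCb y h1 x hx
          · have h2 : y ≤ mx q := le_mx (hvq y h1)
            exact ⟨lt_of_le_of_lt h2 (lt_of_lt_of_le htmn (mn_le hx)),
              (hview x hx (mn b) hmn y (le_trans h2 htu)).2 (hvf y h1)⟩
    obtain ⟨τ, _, _, hval, _, _⟩ := key r le_rfl
    refine ⟨C (τ, e) r, ?_⟩
    show Isum f true (Tr f n false r) r (C (τ, e) r)
    refine isum_seq hTr hf (E := fun i => sel τ i (Q (C (τ, e) i) e))
      (hSc _ _ _ (by fun_prop) (by fun_prop) (by fun_prop)) (fun i hi => (hval i hi).2)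
      (fun i hi => Tr.ne hr (hval i hi).2) (fun i j hij hj x hx y hy => ?_)
      (fun x => hCel τ e r x)
    obtain ⟨⟨b', _, hb'⟩, _⟩ := hval j hj
    obtain ⟨hQel, _⟩ := hQ' (C (τ, e) j) e ⟨b', hb'⟩
    have h1 : el x (C (τ, e) j) := (hCel τ e j x).2 ⟨i, hij, hx⟩
    have h2 : el y (Q (C (τ, e) j) e) := ((hsel' _ _ _ y).1 hy).1
    obtain ⟨h3, h4⟩ := hQel.2.2 y h2 x h1
    exact ⟨h3, by unfold cl; simp [h4]⟩

end RT22P
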