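import Pool.Agent.RTP.GDefs

/-!
# Theorem G: the conclusion (G12)
-/

set_option autoImplicit false

namespace RT22P

open Env

private theorem gfin_key (hW : StWld) (hG : StGlob) (hC : StCpyH) {M : Type} [EnvB M] {q : Sp}
    (hq : GG q) (h : RTp M q) (hI : ¬ I2 M) {n : ℕ}
    (ih : ∀ (c : Bool) (f : M → M → Prop) (X : Set M), Bad f X → ∀ R, 1 ≤ R →
      ∃ a, FS a X ∧ Tr f n c R a) {f : M → M → Prop} {X : Set M} (hf : Bad f X) {r : M}
    (hr : 1 ≤ r) : ∃ a, FS a X ∧ Tr f (n + 1) true r a := by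
  by_contra hno
  obtain ⟨g, act, a, m, hN, hWd⟩ := hW M q h hI n ih f X hf r hr hno
  obtain ⟨F, R, hR, hF⟩ := hC q hq
  refine RTp.not_freq h hN.bad.comp hN.bad.is fun Y hY _ => ?_
  obtain ⟨a', haY, haF⟩ := hG M q h g act a hN m r hWd F Y hY ((R : ℕ) : M)
    (by exact_mod_cast hR)
  obtain ⟨b, hb, hbq⟩ := hF M g hN.bad.comp m _ a' hWd.n1 le_rfl haF
  exact ⟨b, fun x hx => haY x (hb x hx), hbq⟩

private theorem gfin_claim (hW : StWld) (hG : StGlob) (hC : StCpyH) {M : Type} [EnvB M] {q : Sp}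
    (hq : GG q) (h : RTp M q) (hI : ¬ I2 M) (n : ℕ) :
    ∀ (c : Bool) (f : M → M → Prop) (X : Set M), Bad f X → ∀ R, 1 ≤ R →
      ∃ a, FS a X ∧ Tr f n c R a := by
  induction n with
  | zero =>
    intro c f X hf R _
    obtain ⟨x, hx, _⟩ := hf.is.unb 0
    refine ⟨sg x, fun y hy => ?_, tr_zero⟩
    rw [el_sg.1 hy]
    exact hx
  | succ n ih =>
    intro c f X hf R hR
    cases c with
    | true => exact gfin_key hW hG hC hq h hI ih hf hR
    | false =>
      obtain ⟨a, ha, haT⟩ := gfin_key hW hG hC hq h hI ih hf.not hR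
      exact ⟨a, ha, (tr_not (n + 1) true R a).1 haT⟩

theorem thm_fin (hW : StWld) (hG : StGlob) (hC : StCpyH) : StFin := by
  intro M E q hq h
  by_cases hI : I2 M
  · exact rtt_of_I2 h hI
  · have hB : BPi M := bpi_of_rt1 (rt1_of_rtp h)
    let _ : EnvB M := { E with bpi := hB }
    exact rtt_of_no_bad h hB (no_bad_of_claim h (gfin_claim hW hG hC hq h hI))

end RT22P
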