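import Pool.Agent.RTP.GDefs

/-!
# The families are available everywhere
-/

set_option autoImplicit false

namespace RT22P

open Env

variable {M : Type}

private theorem gglob_two [Env M] {f : M → M → Prop} {c : Bool} {P Q : M → Prop} {b d : M}
    (hb : P b) (hd : Q d) (h : ∀ x, el x b → ∀ y, el y d → x < y ∧ cl f c x y) :
    Two f c P Q (un b d) :=
  ⟨b, fun x hx => el_un.2 (Or.inl hx), d, fun x hx => el_un.2 (Or.inr hx), rfl, hb, hd, h⟩

/-- a set whose points have limit `c`, and a set above -/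
private theorem gglob_above [EnvB M] {f : M → M → Prop}
    (hf : Comp M (fun q : M × M => f q.1 q.2)) {c : Bool} {P Q : M → Prop} {Y : Set M}
    (hY : IS Y) {d : M} (hdY : FS d Y) (hd : P d)
    (hl : ∀ x, el x d → Lim f Set.univ c x)
    (hQ : ∀ Z : Set M, IS Z → ∃ a, FS a Z ∧ Q a) : ∃ a, FS a Y ∧ Two f c P Q a := by
  obtain ⟨b, hb⟩ := BPi.settle (EnvB.bpi (M := M)) (R := fun x y => cl f c x y)
    (by fun_prop) d (fun x hx => by
      obtain ⟨b, hb⟩ := hl x hx
      exact ⟨b, fun y hy => hb y (Set.mem_univ y) hy⟩)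
  obtain ⟨a, haZ, ha⟩ := hQ _ (is_above hY (b + d))
  refine ⟨un d a, fun x hx => ?_, gglob_two hd ha fun x hx y hy => ⟨?_, ?_⟩⟩
  · rcases el_un.1 hx with h1 | h1
    · exact hdY x h1
    · exact (haZ x h1).1
  · exact lt_trans (lt_of_lt_of_le (el_lt hx) le_add_self) (haZ y hy).2
  · exact hb x hx y (le_trans le_self_add (haZ y hy).2.le)

theorem glob (_hMi : StMi) (hC0 : StC0) (hTQ : StTypQ) (hRH : StRobH) (_hRQ : StRobQ)
    (hSum : StSum) : StGlob := by
  intro M _ q hq f act a hN n r hW F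
  have hf := hN.bad.comp
  induction F with
  | base => exact fun Y hY R hR => hW.av Y hY R hR
  | sum F G ihF ihG =>
    intro Y hY R hR
    have hRF := hRH M f hf n F
    have hR1 : 1 ≤ R + r := le_trans hR le_self_add
    have hFc : Comp M (fun a : M => F.int f n (R + r) a) :=
      comp_comp (fun q : M × M => F.int f n q.1 q.2) (fun a : M => (R + r, a)) hRF.comp
        (by fun_prop)
    obtain ⟨E, hE, hPE⟩ := exists_blk (P := fun _ a => FS a Y ∧ F.int f n (R + r) a)
      (sig_of_comp (comp_and _ _ (comp_FS hY.comp _ (by fun_prop))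
        (comp_comp (fun a : M => F.int f n (R + r) a) (fun q : M × M => q.2) hFc (by fun_prop))))
      (fun k b => by
        obtain ⟨a, haY, ha⟩ := ihF _ (is_above hY b) (R + r) hR1
        exact ⟨a, ⟨fun x hx => (haY x hx).1, ha⟩, hRF.ne _ a hR1 ha, fun x hx => (haY x hx).2⟩)
    by_cases hcase : ∃ j d, Sub d (E j) ∧ F.int f n R d ∧ ∀ x, el x d → ¬ tr f x
    · obtain ⟨j, d, hd, hFd, hdt⟩ := hcase
      refine gglob_above hf hY (fun x hx => (hPE j).1 x (hd x hx)) hFd (fun x hx => ?_)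
        (fun Z hZ => ihG Z hZ R hR)
      obtain ⟨c, hc⟩ := hN.bad.stab x (Set.mem_univ x)
      cases c with
      | true => exact absurd hc (hdt x hx)
      | false => exact hc
    · exfalso
      have hV : ∀ j, ∃ d, Sub d (E j) ∧ Tr f n false r d ∧ ∀ x, el x d → tr f x := by
        intro j
        obtain ⟨b, hb⟩ := exists_part (P := fun x => ¬ tr f x) (lc_not _ (lc_tr hN.bad)) (E j)
        rcases hRF.split R r (E j) b hR hW.r1 (hPE j).2 with ⟨d, hd, hdb, hFd⟩ | ⟨d, hd, hdb, hVd⟩
        · exact absurd ⟨j, d, hd, hFd, fun x hx => ((hb x).1 (hdb x hx)).2⟩ hcase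
        · refine ⟨d, hd, hVd, fun x hx => ?_⟩
          by_contra h1
          exact hdb x hx ((hb x).2 ⟨hd x hx, h1⟩)
      have hTr : Comp M (fun a : M => Tr f n false r a) :=
        comp_comp (fun q : M × M => Tr f n false q.1 q.2) (fun a : M => (r, a))
          (comp_Tr hf n false) (by fun_prop)
      have hEc := hE.comp
      obtain ⟨Z, hZ, _, hZg⟩ := BPi.homog (EnvB.bpi (M := M)) (is_univ (M := M))
        (R := fun j j' => ∃ b, Sub b (E j) ∧ (Tr f n false r b ∧
          ∀ x, el x b → ∀ y, el y (E j') → cl f true x y)) (by fun_prop) (fun j _ => by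
          obtain ⟨d, hd, hVd, hdt⟩ := hV j
          obtain ⟨b, hb⟩ := BPi.settle (EnvB.bpi (M := M)) (R := fun x y => cl f true x y)
            (by fun_prop) d (fun x hx => by
              obtain ⟨b, hb⟩ := hdt x hx
              exact ⟨b, fun y hy => hb y (Set.mem_univ y) hy⟩)
          exact ⟨b, fun j' _ hj' => ⟨d, hd, hVd, fun x hx y hy =>
            hb x hx y (le_trans hj' (hE.le hy))⟩⟩)
      obtain ⟨s, _, hs'⟩ := hRF.size
      obtain ⟨N', hN'⟩ := hSum M f hf (fun a => Tr f n false r a) hTr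
        (fun a ha => Tr.ne hW.r1 ha) E hE (s (R + r)) (fun k => hs' _ _ (hPE k).2) true r
      obtain ⟨a0, ha0, hac, _⟩ := exists_fin hZ 0 N'
      obtain ⟨d, _, hd⟩ := hN' a0 (by rw [hac]) (fun k hk m hm hkm =>
        hZg k (ha0 k hk) m (ha0 m hm) hkm)
      exact hW.no d hd
  | left F G ihG =>
    intro Y hY R hR
    have hCnd : Cnd act (tr f) Y (mi act) := hC0 M act a hN.cut (tr f) Y hY (lc_tr hN.bad)
      (fun Z hZ _ => hN.bad.ex hZ (Set.subset_univ Z) true)
    obtain ⟨d, hdY, hFd, hdt, _⟩ := hTQ M q hq f act a hN n r hW F R hR (tr f) Y (mi act) hCnd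
    exact gglob_above hf hY hdY hFd hdt (fun Z hZ => ihG Z hZ R hR)

end RT22P
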