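import Pool.Agent.RTP.C9b
import Pool.Agent.RTP.DC1

/-!
# Limit computable functions and predicates

`LC M f`: `f` is the limit of a computable function (both for functions between coded types and for
predicates).  `LC` goals are solved by `fun_prop`.  `EnvB` = `Env` with the bounding principle.
-/

set_option autoImplicit false

namespace RT22P

open Env

/-- models of `RCA₀ + BΣ₂` -/
class EnvB (M : Type) extends Env M where
  bpi : BPi M

/-- limit computable functions and predicates -/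
@[fun_prop]
def LC (M : Type) [Pre M] {Γ Δ : Type} [Enc M Γ] [Cod M Δ] (f : Γ → Δ) : Prop :=
  ∃ g : Γ × M → Δ, Comp M g ∧ ∀ v, ∃ b, ∀ s, b ≤ s → g (v, s) = f v

section
variable {M : Type} [Env M] {Γ Δ Θ : Type} [Enc M Γ] [Enc M Δ] [Enc M Θ]

@[fun_prop] theorem Comp.lc {Λ : Type} [Cod M Λ] {f : Γ → Λ} (h : Comp M f) : LC M f :=
  ⟨fun q => f q.1, comp_comp f (fun q : Γ × M => q.1) h (by fun_prop), fun _ => ⟨0, fun _ _ => rfl⟩⟩

@[fun_prop] theorem lc_id : LC M (fun x : Γ => x) := (comp_id (M := M)).lc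

@[fun_prop] theorem lc_const (c : Δ) : LC M (fun _ : Γ => c) := (comp_const (M := M) c).lc

@[fun_prop] theorem lc_constP (c : Prop) : LC M (fun _ : Γ => c) := (comp_constP (M := M) c).lc

@[fun_prop] theorem lc_comp {Λ : Type} [Cod M Λ] (f : Δ → Λ) (g : Γ → Δ) (hf : LC M f)
    (hg : LC M g) : LC M (fun x => f (g x)) := by
  obtain ⟨F, hF, hF'⟩ := hf
  obtain ⟨G, hG, hG'⟩ := hg
  refine ⟨fun q => F (G q, q.2), comp_comp F (fun q : Γ × M => (G q, q.2)) hF (by fun_prop),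
    fun v => ?_⟩
  obtain ⟨b, hb⟩ := hG' v
  obtain ⟨b', hb'⟩ := hF' (g v)
  refine ⟨b + b', fun s hs => ?_⟩
  show F (G (v, s), s) = f (g v)
  rw [hb s (le_trans le_self_add hs), hb' s (le_trans le_add_self hs)]

@[fun_prop] theorem lc_prod (f : Γ → Δ) (g : Γ → Θ) (hf : LC M f) (hg : LC M g) :
    LC M (fun x => (f x, g x)) := by
  obtain ⟨F, hF, hF'⟩ := hf
  obtain ⟨G, hG, hG'⟩ := hg
  refine ⟨fun q => (F q, G q), by fun_prop, fun v => ?_⟩
  obtain ⟨b, hb⟩ := hF' v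
  obtain ⟨b', hb'⟩ := hG' v
  refine ⟨b + b', fun s hs => ?_⟩
  show (F (v, s), G (v, s)) = (f v, g v)
  rw [hb s (le_trans le_self_add hs), hb' s (le_trans le_add_self hs)]

@[fun_prop] theorem lc_fst (f : Γ → Δ × Θ) (hf : LC M f) : LC M (fun x => (f x).1) :=
  lc_comp (fun q : Δ × Θ => q.1) f (Comp.lc (by fun_prop)) hf

@[fun_prop] theorem lc_snd (f : Γ → Δ × Θ) (hf : LC M f) : LC M (fun x => (f x).2) :=
  lc_comp (fun q : Δ × Θ => q.2) f (Comp.lc (by fun_prop)) hf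

/-- composition with a computable function of one argument -/
theorem lc_c1 {Λ : Type} [Cod M Λ] {h : Δ → Λ} (hh : Comp M h) {f : Γ → Δ} (hf : LC M f) :
    LC M (fun x => h (f x)) :=
  lc_comp h f hh.lc hf

/-- composition with a computable function of two arguments -/
theorem lc_c2 {Λ : Type} [Cod M Λ] {h : Δ → Θ → Λ}
    (hh : Comp M (fun q : Δ × Θ => h q.1 q.2)) {f : Γ → Δ} {g : Γ → Θ} (hf : LC M f)
    (hg : LC M g) : LC M (fun x => h (f x) (g x)) :=
  lc_comp (fun q : Δ × Θ => h q.1 q.2) (fun x => (f x, g x)) hh.lc (lc_prod f g hf hg)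

/-- composition with a computable function of three arguments -/
theorem lc_c3 {Λ Ξ : Type} [Cod M Λ] [Enc M Ξ] {h : Δ → Θ → Ξ → Λ}
    (hh : Comp M (fun q : Δ × Θ × Ξ => h q.1 q.2.1 q.2.2)) {f : Γ → Δ} {g : Γ → Θ} {k : Γ → Ξ}
    (hf : LC M f) (hg : LC M g) (hk : LC M k) : LC M (fun x => h (f x) (g x) (k x)) :=
  lc_comp (fun q : Δ × Θ × Ξ => h q.1 q.2.1 q.2.2) (fun x => (f x, g x, k x)) hh.lc
    (lc_prod f _ hf (lc_prod g k hg hk))

/-- limit computable function of two arguments -/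
theorem lc_l2 {Λ : Type} [Cod M Λ] {h : Δ → Θ → Λ}
    (hh : LC M (fun q : Δ × Θ => h q.1 q.2)) {f : Γ → Δ} {g : Γ → Θ} (hf : LC M f)
    (hg : LC M g) : LC M (fun x => h (f x) (g x)) :=
  lc_comp (fun q : Δ × Θ => h q.1 q.2) (fun x => (f x, g x)) hh (lc_prod f g hf hg)

@[fun_prop] theorem lc_not (P : Γ → Prop) (hP : LC M P) : LC M (fun x => ¬ P x) := by
  obtain ⟨w, hw, h⟩ := hP
  refine ⟨fun q => ¬ w q, by fun_prop, fun v => ?_⟩
  obtain ⟨b, hb⟩ := h v
  exact ⟨b, fun s hs => by show (¬ w (v, s)) = ¬ P v; rw [hb s hs]⟩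

@[fun_prop] theorem lc_and (P Q : Γ → Prop) (hP : LC M P) (hQ : LC M Q) :
    LC M (fun x => P x ∧ Q x) := by
  obtain ⟨w, hw, h⟩ := hP
  obtain ⟨w', hw', h'⟩ := hQ
  refine ⟨fun q => w q ∧ w' q, by fun_prop, fun v => ?_⟩
  obtain ⟨b, hb⟩ := h v
  obtain ⟨b', hb'⟩ := h' v
  exact ⟨b + b', fun s hs => by
    show (w (v, s) ∧ w' (v, s)) = (P v ∧ Q v)
    rw [hb s (le_trans le_self_add hs), hb' s (le_trans le_add_self hs)]⟩

@[fun_prop] theorem lc_or (P Q : Γ → Prop) (hP : LC M P) (hQ : LC M Q) :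
    LC M (fun x => P x ∨ Q x) := by
  obtain ⟨w, hw, h⟩ := hP
  obtain ⟨w', hw', h'⟩ := hQ
  refine ⟨fun q => w q ∨ w' q, by fun_prop, fun v => ?_⟩
  obtain ⟨b, hb⟩ := h v
  obtain ⟨b', hb'⟩ := h' v
  exact ⟨b + b', fun s hs => by
    show (w (v, s) ∨ w' (v, s)) = (P v ∨ Q v)
    rw [hb s (le_trans le_self_add hs), hb' s (le_trans le_add_self hs)]⟩

@[fun_prop] theorem lc_imp (P Q : Γ → Prop) (hP : LC M P) (hQ : LC M Q) :
    LC M (fun x => P x → Q x) := by
  obtain ⟨w, hw, h⟩ := hP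
  obtain ⟨w', hw', h'⟩ := hQ
  refine ⟨fun q => w q → w' q, by fun_prop, fun v => ?_⟩
  obtain ⟨b, hb⟩ := h v
  obtain ⟨b', hb'⟩ := h' v
  exact ⟨b + b', fun s hs => by
    show (w (v, s) → w' (v, s)) = (P v → Q v)
    rw [hb s (le_trans le_self_add hs), hb' s (le_trans le_add_self hs)]⟩

@[fun_prop] theorem lc_iff (P Q : Γ → Prop) (hP : LC M P) (hQ : LC M Q) :
    LC M (fun x => P x ↔ Q x) := by
  obtain ⟨w, hw, h⟩ := hP
  obtain ⟨w', hw', h'⟩ := hQ
  refine ⟨fun q => w q ↔ w' q, by fun_prop, fun v => ?_⟩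
  obtain ⟨b, hb⟩ := h v
  obtain ⟨b', hb'⟩ := h' v
  exact ⟨b + b', fun s hs => by
    show (w (v, s) ↔ w' (v, s)) = (P v ↔ Q v)
    rw [hb s (le_trans le_self_add hs), hb' s (le_trans le_add_self hs)]⟩

@[fun_prop] theorem lc_lt (f g : Γ → M) (hf : LC M f) (hg : LC M g) :
    LC M (fun x => f x < g x) := lc_c2 (h := fun a b : M => a < b) (by fun_prop) hf hg

@[fun_prop] theorem lc_le (f g : Γ → M) (hf : LC M f) (hg : LC M g) :
    LC M (fun x => f x ≤ g x) := lc_c2 (h := fun a b : M => a ≤ b) (by fun_prop) hf hg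

@[fun_prop] theorem lc_eq (f g : Γ → Δ) (hf : LC M f) (hg : LC M g) :
    LC M (fun x => f x = g x) := lc_c2 (h := fun a b : Δ => a = b) (by fun_prop) hf hg

@[fun_prop] theorem lc_add (f g : Γ → M) (hf : LC M f) (hg : LC M g) :
    LC M (fun x => f x + g x) := lc_c2 (h := fun a b : M => a + b) (by fun_prop) hf hg

@[fun_prop] theorem lc_mul (f g : Γ → M) (hf : LC M f) (hg : LC M g) :
    LC M (fun x => f x * g x) := lc_c2 (h := fun a b : M => a * b) (by fun_prop) hf hg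

@[fun_prop] theorem lc_el (f g : Γ → M) (hf : LC M f) (hg : LC M g) :
    LC M (fun x => el (f x) (g x)) := lc_c2 (h := fun a b : M => el a b) (by fun_prop) hf hg

@[fun_prop] theorem lc_Sub (f g : Γ → M) (hf : LC M f) (hg : LC M g) :
    LC M (fun x => Sub (f x) (g x)) := lc_c2 (h := fun a b : M => Sub a b) (by fun_prop) hf hg

@[fun_prop] theorem lc_un (f g : Γ → M) (hf : LC M f) (hg : LC M g) :
    LC M (fun x => un (f x) (g x)) := lc_c2 (h := fun a b : M => un a b) (by fun_prop) hf hg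

@[fun_prop] theorem lc_itr (f g : Γ → M) (hf : LC M f) (hg : LC M g) :
    LC M (fun x => itr (f x) (g x)) := lc_c2 (h := fun a b : M => itr a b) (by fun_prop) hf hg

@[fun_prop] theorem lc_sdf (f g : Γ → M) (hf : LC M f) (hg : LC M g) :
    LC M (fun x => sdf (f x) (g x)) := lc_c2 (h := fun a b : M => sdf a b) (by fun_prop) hf hg

@[fun_prop] theorem lc_blw (f g : Γ → M) (hf : LC M f) (hg : LC M g) :
    LC M (fun x => blw (f x) (g x)) := lc_c2 (h := fun a b : M => blw a b) (by fun_prop) hf hg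

@[fun_prop] theorem lc_ivl (f g : Γ → M) (hf : LC M f) (hg : LC M g) :
    LC M (fun x => ivl (f x) (g x)) := lc_c2 (h := fun a b : M => ivl a b) (by fun_prop) hf hg

@[fun_prop] theorem lc_nth (f g : Γ → M) (hf : LC M f) (hg : LC M g) :
    LC M (fun x => nth (f x) (g x)) := lc_c2 (h := fun a b : M => nth a b) (by fun_prop) hf hg

@[fun_prop] theorem lc_sg (f : Γ → M) (hf : LC M f) : LC M (fun x => sg (f x)) :=
  lc_c1 (h := fun a : M => sg a) (by fun_prop) hf

@[fun_prop] theorem lc_card (f : Γ → M) (hf : LC M f) : LC M (fun x => card (f x)) :=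
  lc_c1 (h := fun a : M => card a) (by fun_prop) hf

@[fun_prop] theorem lc_mn (f : Γ → M) (hf : LC M f) : LC M (fun x => mn (f x)) :=
  lc_c1 (h := fun a : M => mn a) (by fun_prop) hf

@[fun_prop] theorem lc_mx (f : Γ → M) (hf : LC M f) : LC M (fun x => mx (f x)) :=
  lc_c1 (h := fun a : M => mx a) (by fun_prop) hf

@[fun_prop] theorem lc_pw (f : Γ → M) (hf : LC M f) : LC M (fun x => pw (f x)) :=
  lc_c1 (h := fun a : M => pw a) pw_comp hf

attribute [fun_prop] comp_max comp_min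

@[fun_prop] theorem lc_max (f g : Γ → M) (hf : LC M f) (hg : LC M g) :
    LC M (fun x => max (f x) (g x)) := lc_c2 (h := fun a b : M => max a b) (by fun_prop) hf hg

@[fun_prop] theorem lc_min (f g : Γ → M) (hf : LC M f) (hg : LC M g) :
    LC M (fun x => min (f x) (g x)) := lc_c2 (h := fun a b : M => min a b) (by fun_prop) hf hg

@[fun_prop] theorem comp_cpp (f g : Γ → M) (hf : Comp M f) (hg : Comp M g) :
    Comp M (fun x => (Pre.cp (f x, g x) : M)) :=
  comp_comp (fun q : M × M => (Pre.cp q : M)) (fun x => (f x, g x)) Env0.c_cp (by fun_prop)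

@[fun_prop] theorem lc_cp (f g : Γ → M) (hf : LC M f) (hg : LC M g) :
    LC M (fun x => (Pre.cp (f x, g x) : M)) :=
  lc_c2 (h := fun a b : M => (Pre.cp (a, b) : M)) (by fun_prop) hf hg

@[fun_prop] theorem lc_clF (f : M → M → Prop) (hf : Comp M (fun q : M × M => f q.1 q.2))
    (c : Bool) (g h : Γ → M) (hg : LC M g) (hh : LC M h) :
    LC M (fun v => cl f c (g v) (h v)) :=
  lc_c2 (h := fun a b : M => cl f c a b) (by fun_prop) hg hh

/-- definition by cases -/
theorem lc_ite {P : Γ → Prop} [DecidablePred P] {f g : Γ → Δ} (hP : LC M P) (hf : LC M f)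
    (hg : LC M g) : LC M (fun x => if P x then f x else g x) := by
  classical
  obtain ⟨w, hw, h⟩ := hP
  obtain ⟨F, hF, hF'⟩ := hf
  obtain ⟨G, hG, hG'⟩ := hg
  refine ⟨fun q => if w q then F q else G q, comp_ite hw hF hG, fun v => ?_⟩
  obtain ⟨b, hb⟩ := h v
  obtain ⟨b1, hb1⟩ := hF' v
  obtain ⟨b2, hb2⟩ := hG' v
  refine ⟨b + b1 + b2, fun s hs => ?_⟩
  have e := hb s (le_trans (le_trans le_self_add le_self_add) hs)
  have e1 := hb1 s (le_trans (le_trans le_add_self le_self_add) hs)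
  have e2 := hb2 s (le_trans le_add_self hs)
  show (if w (v, s) then F (v, s) else G (v, s)) = if P v then f v else g v
  rw [e1, e2]
  by_cases hv : P v
  · rw [if_pos hv, if_pos (by rw [e]; exact hv)]
  · rw [if_neg hv, if_neg (by rw [e]; exact hv)]

/-- `Σ₁` predicates are limit computable -/
theorem Sig.lc {P : Γ → Prop} (h : Sig M P) : LC M P := by
  obtain ⟨Q, hQ, hPQ⟩ := h
  refine ⟨fun q => ∃ y, y < q.2 ∧ Q (q.1, y), ?_, fun v => ?_⟩
  · exact comp_bex (fun q : Γ × M => q.2) (fun q y => Q (q.1, y)) (by fun_prop)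
      (comp_comp Q (fun r : (Γ × M) × M => (r.1.1, r.2)) hQ (by fun_prop))
  · by_cases hP : P v
    · obtain ⟨y, hy⟩ := (hPQ v).1 hP
      refine ⟨y + 1, fun s hs => propext ⟨fun _ => hP, fun _ => ⟨y, succ_le_iff.1 hs, hy⟩⟩⟩
    · exact ⟨0, fun s _ => propext ⟨fun ⟨y, _, hy⟩ => (hPQ v).2 ⟨y, hy⟩, fun h => absurd h hP⟩⟩

/-- `Π₁` predicates are limit computable -/
theorem Sig.lcn {P : Γ → Prop} (h : Sig M (fun x => ¬ P x)) : LC M P := by
  have h1 := lc_not _ h.lc
  have e : (fun x => ¬ ¬ P x) = P := by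
    funext x; exact propext not_not
  rw [e] at h1; exact h1

theorem lc_congr {Λ : Type} [Cod M Λ] {f g : Γ → Λ} (hf : LC M f) (h : ∀ x, f x = g x) :
    LC M g := by
  have e : f = g := funext h
  rw [← e]; exact hf

end

section
variable {M : Type} [EnvB M] {Γ Δ Θ : Type} [Enc M Γ] [Enc M Δ] [Enc M Θ]

/-- uniform settling of the approximations on an initial segment -/
theorem lc_settleP {w : M × M → Prop} (hw : Comp M w) {P : M → Prop} (a : M)
    (h : ∀ x, x < a → ∃ b, ∀ s, b ≤ s → w (x, s) = P x) :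
    ∃ b, ∀ x, x < a → ∀ s, b ≤ s → w (x, s) = P x := by
  have hw' : ∀ {Ξ : Type} [Enc M Ξ] (f g : Ξ → M), Comp M f → Comp M g →
      Comp M (fun v => w (f v, g v)) := fun f g hf hg =>
    comp_comp w _ hw (comp_prod _ _ hf hg)
  obtain ⟨b, hb⟩ := (EnvB.bpi (M := M)) (fun x s => (w (x, s) ↔ w (x, s + 1)))
    (comp_iff _ _ (hw' _ _ (by fun_prop) (by fun_prop)) (hw' _ _ (by fun_prop) (by fun_prop))) a (by
    intro x hx
    obtain ⟨b, hb⟩ := h x hx
    exact ⟨b, fun s hs => by rw [hb s hs, hb (s + 1) (le_trans hs (lt_self_succ s).le)]⟩)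
  refine ⟨b, fun x hx s hs => ?_⟩
  have key : ∀ s, b ≤ s → (w (x, s) ↔ w (x, b)) := by
    refine cind (P := fun s => b ≤ s → (w (x, s) ↔ w (x, b))) ?_ ?_ ?_
    · exact comp_imp _ _ (by fun_prop) (comp_iff _ _ (hw' _ _ (by fun_prop) (by fun_prop))
        (comp_constP _))
    · intro h0
      rw [le_antisymm h0 (zero_le' b)]
    · intro s ih hs
      rcases lt_or_eq_of_le hs with h2 | h2
      · have h3 : b ≤ s := lt_succ.1 h2
        exact (hb x hx s h3).symm.trans (ih h3)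
      · rw [← h2]
  obtain ⟨b', hb'⟩ := h x hx
  rw [← hb' (b + b') le_add_self]
  exact propext ((key s hs).trans (key (b + b') le_self_add).symm)

theorem lc_settleF {w : M × M → M} (hw : Comp M w) {F : M → M} (a : M)
    (h : ∀ x, x < a → ∃ b, ∀ s, b ≤ s → w (x, s) = F x) :
    ∃ b, ∀ x, x < a → ∀ s, b ≤ s → w (x, s) = F x := by
  have hw' : ∀ {Ξ : Type} [Enc M Ξ] (f g : Ξ → M), Comp M f → Comp M g →
      Comp M (fun v => w (f v, g v)) := fun f g hf hg =>
    comp_comp w _ hw (comp_prod _ _ hf hg)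
  obtain ⟨b, hb⟩ := BPi.stab (EnvB.bpi (M := M)) (T := fun x s => w (x, s))
    (hw' _ _ (by fun_prop) (by fun_prop)) a (by
    intro x hx
    obtain ⟨b, hb⟩ := h x hx
    exact ⟨b, fun s hs => by rw [hb s hs, hb b le_rfl]⟩)
  refine ⟨b, fun x hx s hs => ?_⟩
  obtain ⟨b', hb'⟩ := h x hx
  rw [← hb' (b + b') le_add_self, hb x hx s hs, hb x hx (b + b') le_self_add]

/-- a limit computable predicate agrees with a computable one on every initial segment -/
theorem LC.fixP {P : M → Prop} (h : LC M P) (a : M) :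
    ∃ Q : M → Prop, Comp M Q ∧ ∀ x, x < a → (Q x ↔ P x) := by
  obtain ⟨w, hw, h'⟩ := h
  obtain ⟨b, hb⟩ := lc_settleP hw a (fun x _ => h' x)
  exact ⟨fun x => w (x, b), comp_comp w (fun x : M => (x, b)) hw (by fun_prop),
    fun x hx => by show w (x, b) ↔ P x; rw [hb x hx b le_rfl]⟩

theorem LC.fixF {F : M → M} (h : LC M F) (a : M) :
    ∃ G : M → M, Comp M G ∧ ∀ x, x < a → G x = F x := by
  obtain ⟨w, hw, h'⟩ := h
  obtain ⟨b, hb⟩ := lc_settleF hw a (fun x _ => h' x)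
  exact ⟨fun x => w (x, b), comp_comp w (fun x : M => (x, b)) hw (by fun_prop),
    fun x hx => hb x hx b le_rfl⟩

@[fun_prop] theorem lc_bex (t : Γ → M) (P : Γ → M → Prop) (ht : LC M t)
    (hP : LC M (fun q : Γ × M => P q.1 q.2)) : LC M (fun x => ∃ y, y < t x ∧ P x y) := by
  obtain ⟨T, hT, hT'⟩ := ht
  obtain ⟨w, hw, h⟩ := hP
  refine ⟨fun q => ∃ y, y < T q ∧ w ((q.1, y), q.2), ?_, fun v => ?_⟩
  · exact comp_bex (fun q : Γ × M => T q) (fun q y => w ((q.1, y), q.2)) hT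
      (comp_comp w (fun r : (Γ × M) × M => ((r.1.1, r.2), r.1.2)) hw (by fun_prop))
  · obtain ⟨b, hb⟩ := hT' v
    obtain ⟨b', hb'⟩ := lc_settleP (w := fun q : M × M => w ((v, q.1), q.2)) (P := fun y => P v y)
      (comp_comp w (fun q : M × M => ((v, q.1), q.2)) hw (by fun_prop)) (t v)
      (fun y _ => h (v, y))
    refine ⟨b + b', fun s hs => ?_⟩
    show (∃ y, y < T (v, s) ∧ w ((v, y), s)) = ∃ y, y < t v ∧ P v y
    rw [hb s (le_trans le_self_add hs)]
    refine propext ⟨fun ⟨y, hy, hw⟩ => ⟨y, hy, ?_⟩, fun ⟨y, hy, hw⟩ => ⟨y, hy, ?_⟩⟩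
    · have := hb' y hy s (le_trans le_add_self hs)
      exact this ▸ hw
    · have := hb' y hy s (le_trans le_add_self hs)
      show w ((v, y), s)
      rw [this]; exact hw

@[fun_prop] theorem lc_ball (t : Γ → M) (P : Γ → M → Prop) (ht : LC M t)
    (hP : LC M (fun q : Γ × M => P q.1 q.2)) : LC M (fun x => ∀ y, y < t x → P x y) := by
  have h := lc_not _ (lc_bex t (fun x y => ¬ P x y) ht (by fun_prop))
  refine lc_congr h fun x => propext ?_
  push Not
  rfl

@[fun_prop] theorem lc_bexle (t : Γ → M) (P : Γ → M → Prop) (ht : LC M t)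
    (hP : LC M (fun q : Γ × M => P q.1 q.2)) : LC M (fun x => ∃ y, y ≤ t x ∧ P x y) := by
  have h := lc_bex (fun x => t x + 1) P (by fun_prop) hP
  refine lc_congr h fun x => propext ?_
  exact ⟨fun ⟨y, h1, h2⟩ => ⟨y, lt_succ.1 h1, h2⟩, fun ⟨y, h1, h2⟩ => ⟨y, lt_succ.2 h1, h2⟩⟩

@[fun_prop] theorem lc_ballle (t : Γ → M) (P : Γ → M → Prop) (ht : LC M t)
    (hP : LC M (fun q : Γ × M => P q.1 q.2)) : LC M (fun x => ∀ y, y ≤ t x → P x y) := by
  have h := lc_not _ (lc_bexle t (fun x y => ¬ P x y) ht (by fun_prop))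
  refine lc_congr h fun x => propext ?_
  push Not
  rfl

@[fun_prop] theorem lc_allel (t : Γ → M) (P : Γ → M → Prop) (ht : LC M t)
    (hP : LC M (fun q : Γ × M => P q.1 q.2)) : LC M (fun x => ∀ y, el y (t x) → P x y) := by
  have h : LC M (fun x => ∀ y, y < t x → (el y (t x) → P x y)) :=
    lc_ball t (fun x y => el y (t x) → P x y) ht
      (lc_imp _ _ (lc_el _ _ (by fun_prop) (lc_comp t _ ht (by fun_prop))) hP)
  refine lc_congr h fun x => propext ?_
  exact ⟨fun h y hy => h y (el_lt hy) hy, fun h y _ hy => h y hy⟩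

@[fun_prop] theorem lc_exel (t : Γ → M) (P : Γ → M → Prop) (ht : LC M t)
    (hP : LC M (fun q : Γ × M => P q.1 q.2)) : LC M (fun x => ∃ y, el y (t x) ∧ P x y) := by
  have h := lc_not _ (lc_allel t (fun x y => ¬ P x y) ht (by fun_prop))
  refine lc_congr h fun x => propext ?_
  push Not
  rfl

@[fun_prop] theorem lc_exsub (t : Γ → M) (P : Γ → M → Prop) (ht : LC M t)
    (hP : LC M (fun q : Γ × M => P q.1 q.2)) : LC M (fun x => ∃ y, Sub y (t x) ∧ P x y) := by
  have h : LC M (fun x => ∃ y, y ≤ t x ∧ (Sub y (t x) ∧ P x y)) :=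
    lc_bexle t (fun x y => Sub y (t x) ∧ P x y) ht
      (lc_and _ _ (lc_Sub _ _ (by fun_prop) (lc_comp t _ ht (by fun_prop))) hP)
  refine lc_congr h fun x => propext ?_
  exact ⟨fun ⟨y, _, hy, hp⟩ => ⟨y, hy, hp⟩, fun ⟨y, hy, hp⟩ => ⟨y, hy.le, hy, hp⟩⟩

@[fun_prop] theorem lc_allsub (t : Γ → M) (P : Γ → M → Prop) (ht : LC M t)
    (hP : LC M (fun q : Γ × M => P q.1 q.2)) : LC M (fun x => ∀ y, Sub y (t x) → P x y) := by
  have h := lc_not _ (lc_exsub t (fun x y => ¬ P x y) ht (by fun_prop))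
  refine lc_congr h fun x => propext ?_
  push Not
  rfl

/-- bounded comprehension for limit computable predicates, as a limit computable function -/
theorem lc_code {b : Γ → M} {P : Γ → M → Prop} (hb : LC M b)
    (hP : LC M (fun q : Γ × M => P q.1 q.2)) :
    ∃ F : Γ → M, LC M F ∧ ∀ v x, el x (F v) ↔ x < b v ∧ P v x := by
  classical
  obtain ⟨B, hB, hB'⟩ := hb
  obtain ⟨w, hw, h⟩ := hP
  obtain ⟨G, hG, hG'⟩ := c_code (M := M) (Γ := Γ × M) (b := B)
    (P := fun q : (Γ × M) × M => w ((q.1.1, q.2), q.1.2)) hB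
    (comp_comp w (fun r : (Γ × M) × M => ((r.1.1, r.2), r.1.2)) hw (by fun_prop))
  have key : ∀ v, ∃ s0, ∀ s, s0 ≤ s → (∀ x, el x (G (v, s)) ↔ x < b v ∧ P v x) := by
    intro v
    obtain ⟨s1, h1⟩ := hB' v
    obtain ⟨s2, h2⟩ := lc_settleP (w := fun q : M × M => w ((v, q.1), q.2)) (P := fun y => P v y)
      (comp_comp w (fun q : M × M => ((v, q.1), q.2)) hw (by fun_prop)) (b v)
      (fun y _ => h (v, y))
    refine ⟨s1 + s2, fun s hs x => ?_⟩
    rw [hG', h1 s (le_trans le_self_add hs)]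
    refine and_congr_right fun hx => ?_
    have := h2 x hx s (le_trans le_add_self hs)
    show w ((v, x), s) ↔ P v x
    rw [this]
  choose s0 hs0 using key
  refine ⟨fun v => G (v, s0 v), ⟨G, hG, fun v => ⟨s0 v, fun s hs => ?_⟩⟩, fun v x =>
    hs0 v (s0 v) le_rfl x⟩
  exact fext fun x => (hs0 v s hs x).trans (hs0 v (s0 v) le_rfl x).symm

/-- a function into the finite sets with limit computable membership and bound is limit computable -/
theorem lc_of_code {F : Γ → M} {P : Γ → M → Prop} {b : Γ → M} (hb : LC M b)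
    (hP : LC M (fun q : Γ × M => P q.1 q.2)) (h : ∀ v x, el x (F v) ↔ x < b v ∧ P v x) :
    LC M F := by
  obtain ⟨F', hF', hF⟩ := lc_code hb hP
  exact lc_congr hF' fun v => fext fun x => (hF v x).trans (h v x).symm

/-- bounded comprehension -/
theorem exists_codeL {P : M → Prop} (hP : LC M P) (b : M) :
    ∃ a, ∀ x, el x a ↔ x < b ∧ P x := by
  obtain ⟨F, _, hF⟩ := lc_code (M := M) (Γ := M) (b := fun _ => b) (P := fun _ x => P x)
    (by fun_prop) (lc_comp P _ hP (by fun_prop))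
  exact ⟨F 0, fun x => hF 0 x⟩

/-- least number principle -/
theorem leastL {P : M → Prop} (hP : LC M P) (h : ∃ x, P x) :
    ∃ x, P x ∧ ∀ y, y < x → ¬ P y := by
  obtain ⟨x0, hx0⟩ := h
  obtain ⟨Q, hQ, hQP⟩ := hP.fixP (x0 + 1)
  obtain ⟨x, hx, hmin⟩ := leastC hQ ⟨x0, (hQP x0 (lt_self_succ x0)).2 hx0⟩
  have hx' : x ≤ x0 := by
    by_contra hc
    exact hmin x0 (not_le.1 hc) ((hQP x0 (lt_self_succ x0)).2 hx0)
  exact ⟨x, (hQP x (lt_succ.2 hx')).1 hx, fun y hy hP =>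
    hmin y hy ((hQP y (lt_trans hy (lt_succ.2 hx'))).2 hP)⟩

/-- greatest number principle -/
theorem greatestL {P : M → Prop} (hP : LC M P) (h : ∃ x, P x) (b : M) (hb : ∀ x, P x → x ≤ b) :
    ∃ x, P x ∧ ∀ y, P y → y ≤ x := by
  obtain ⟨a, ha⟩ := exists_codeL hP (b + 1)
  have hne : ∃ x, el x a := by
    obtain ⟨x, hx⟩ := h
    exact ⟨x, (ha x).2 ⟨lt_succ.2 (hb x hx), hx⟩⟩
  obtain ⟨x, hx, hmax⟩ := exists_mx hne
  exact ⟨x, ((ha x).1 hx).2, fun y hy => hmax y ((ha y).2 ⟨lt_succ.2 (hb y hy), hy⟩)⟩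

/-- unbounded search (least witness) for limit computable predicates -/
theorem lc_search {P : Γ → M → Prop} (hP : LC M (fun q : Γ × M => P q.1 q.2))
    (h : ∀ v, ∃ x, P v x) :
    ∃ F : Γ → M, LC M F ∧ ∀ v, P v (F v) ∧ ∀ x, x < F v → ¬ P v x := by
  have hl : ∀ v, ∃ x, P v x ∧ ∀ y, y < x → ¬ P v y := fun v =>
    leastL (lc_comp (fun q : Γ × M => P q.1 q.2) (fun x : M => (v, x)) hP (by fun_prop)) (h v)
  choose F hF hmin using hl
  refine ⟨F, ?_, fun v => ⟨hF v, hmin v⟩⟩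
  obtain ⟨w, hw, hw'⟩ := hP
  -- the least `x ≤ s` with `w ((v, x), s)`
  obtain ⟨G, hG, hG'⟩ := search_min (M := M) (Γ := Γ × M)
    (P := fun q x => w ((q.1, x), q.2) ∨ q.2 ≤ x)
    (comp_or _ _ (comp_comp w (fun r : (Γ × M) × M => ((r.1.1, r.2), r.1.2)) hw (by fun_prop))
      (by fun_prop)) (fun q => ⟨q.2, Or.inr le_rfl⟩)
  refine ⟨G, hG, fun v => ?_⟩
  obtain ⟨b, hb⟩ := lc_settleP (w := fun q : M × M => w ((v, q.1), q.2)) (P := fun y => P v y)
    (comp_comp w (fun q : M × M => ((v, q.1), q.2)) hw (by fun_prop)) (F v + 1)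
    (fun y _ => hw' (v, y))
  refine ⟨b + (F v + 1), fun s hs => ?_⟩
  have hbs : b ≤ s := le_trans le_self_add hs
  have hFs : F v < s := succ_le_iff.1 (le_trans le_add_self hs)
  obtain ⟨h1, h2⟩ := hG' (v, s)
  have hw1 : ∀ x, x < F v + 1 → (w ((v, x), s) ↔ P v x) := fun x hx => by
    have := hb x hx s hbs
    show w ((v, x), s) ↔ P v x
    rw [this]
  have hle : G (v, s) ≤ F v := by
    by_contra hc
    exact h2 (F v) (not_le.1 hc) (Or.inl ((hw1 _ (lt_self_succ _)).2 (hF v)))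
  have hge : F v ≤ G (v, s) := by
    by_contra hc
    rcases h1 with h3 | h3
    · exact hmin v _ (not_le.1 hc) ((hw1 _ (lt_succ.2 hle)).1 h3)
    · exact absurd (lt_of_lt_of_le hFs h3) (not_lt.2 hle)
  exact le_antisymm hle hge

/-- the part of a finite set with a limit computable property -/
theorem exists_part {P : M → Prop} (hP : LC M P) (a : M) :
    ∃ b, ∀ x, el x b ↔ el x a ∧ P x := by
  obtain ⟨b, hb⟩ := exists_codeL (P := fun x => el x a ∧ P x) (by fun_prop) a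
  exact ⟨b, fun x => (hb x).trans ⟨fun h => h.2, fun h => ⟨el_lt h.1, h⟩⟩⟩

end

/-- the true colour `1` -/
def tr {M : Type} [Env M] (f : M → M → Prop) (x : M) : Prop := Lim f Set.univ true x

theorem lc_tr {M : Type} [Env M] {f : M → M → Prop}
    (hf : Bad f (Set.univ : Set M)) : LC M (tr f) := by
  refine ⟨fun q => f q.1 q.2, hf.comp, fun x => ?_⟩
  obtain ⟨c, b, hb⟩ := hf.stab x (Set.mem_univ x)
  refine ⟨b, fun s hs => propext ?_⟩
  have h1 := hb s (Set.mem_univ s) hs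
  cases c with
  | true =>
    have h2 : f x s := h1.2 rfl
    exact ⟨fun _ => ⟨b, fun y hy hby => hb y hy hby⟩, fun _ => h2⟩
  | false =>
    have h2 : ¬ f x s := fun h => absurd (h1.1 h) (by simp)
    refine ⟨fun h => absurd h h2, fun h => ?_⟩
    have := Lim.unique hf.is h ⟨b, hb⟩
    exact absurd this (by simp)

end RT22P
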