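import Pool.Agent.RTP.GDefs

/-!
# The LOW lemma
-/

set_option autoImplicit false

namespace RT22P

open Env

variable {M : Type} [EnvB M]

private theorem glowt_cp {x y u v : M} (he : (Pre.cp (x, y) : M) = Pre.cp (u, v)) :
    x = u ∧ y = v := by
  have h1 := (Pre.cp (M := M)).injective he
  exact ⟨congrArg Prod.fst h1, congrArg Prod.snd h1⟩

/-- lowness of the least candidate -/
private theorem glowt_low {f : M → M → Prop} {act : M → M} {c : Bool} {A : M → Prop}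
    (hAne : ∀ a, A a → ∃ x, el x a) (h1 : Typ1 f act c A) {E : M → Prop} {X X1 : Set M}
    {k : M → M} (hX1X : X1 ⊆ X) (hC1 : Cnd act E X1 k) {Q : M → M} (hQ : LC M Q)
    (hQ' : ∀ w ∈ X, (∃ a, Cand f E X k c A w a) → Cand f E X k c A w (Q w) ∧
      ∀ a, Cand f E X k c A w a → mx (Q w) < mx a ∨ (mx (Q w) = mx a ∧ Q w ≤ a)) :
    Low E X1 (fun w => mx (Q w)) := by
  intro y hy hyinf Y hY hYX
  by_contra hno
  have hEy : LC M (fun w => E w ∧ y w ≤ mx (Q w)) := by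
    have := hC1.lcE
    have := hy.lc
    fun_prop
  have hdense : ∀ Z : Set M, IS Z → Z ⊆ Y → ∃ w ∈ Z, E w ∧ y w ≤ mx (Q w) := by
    intro Z hZ hZY
    by_contra hZn
    refine hno ⟨Z, hZ, hZY, fun w hw hEw => ?_⟩
    by_contra h2
    exact hZn ⟨w, hw, hEw, not_lt.1 h2⟩
  obtain ⟨Y2, hY2, hY2Y, hlt⟩ := greedy2 hY (R := fun x z => x < y z) (by fun_prop)
    (fun a _ b => by
      obtain ⟨n, hn⟩ := hyinf a
      obtain ⟨z, hz, hbz⟩ := hY.unb (b + n)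
      refine ⟨z, hz, lt_of_le_of_lt le_self_add hbz, fun x hx => ?_⟩
      exact lt_of_lt_of_le (el_lt hx) (hn z (le_trans le_add_self hbz.le)))
  rcases (hC1.mono hY2 (hY2Y.trans hYX)).sub hEy (fun x hx => hx.1) with hC2 | ⟨Z, hZ, hZY, hZn⟩
  · obtain ⟨a, w, haY, hA, haE, hw, hEw, hall⟩ := h1 _ _ _ hC2
    have hcand : Cand f E X k c A w a :=
      ⟨hA, fun x hx => hX1X (hYX (hY2Y (haY x hx))), fun x hx =>
        ⟨(haE x hx).1, (hall x hx).2.1, (hall x hx).1, (hall x hx).2.2⟩⟩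
    obtain ⟨x0, hx0⟩ := hAne a hA
    have hmx := el_mx hx0
    have h2 : mx (Q w) ≤ mx a := by
      rcases (hQ' w (hX1X (hYX (hY2Y hw))) ⟨a, hcand⟩).2 a hcand with h3 | h3
      · exact h3.le
      · exact h3.1.le
    have h3 : mx a < y w := hlt _ (haY _ hmx) w hw (hall _ hmx).1
    exact absurd (lt_of_le_of_lt (le_trans hEw.2 h2) h3) (lt_irrefl _)
  · obtain ⟨w, hw, hEw⟩ := hdense Z hZ (hZY.trans hY2Y)
    exact hZn w hw hEw

theorem lowT (_hMi : StMi) (hCand : StCand) (hA : StAgree) : StLowT := by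
  intro M _ f hbad act a hact c A G hAc hAne hGne h1 hG E X k hC
  have hf := hbad.comp
  obtain ⟨Q, hQ, hQ'⟩ := hCand M f hf act a hact E X k hC c A hAc hAne
  have hQ2 : ∀ w ∈ X, (∃ a, Cand f E X k c A w a) → Cand f E X k c A w (Q w) ∧
      ∀ a, Cand f E X k c A w a → mx (Q w) < mx a ∨ (mx (Q w) = mx a ∧ Q w ≤ a) :=
    fun w hw => (hQ' w hw).2
  have hQ0 : ∀ w ∈ X, (∃ a, Cand f E X k c A w a) → Q w ≠ 0 := by
    intro w hw hc h0
    obtain ⟨x, hx⟩ := hAne _ (hQ2 w hw hc).1.1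
    rw [h0] at hx
    exact not_lt_zero' _ (el_lt hx)
  have hE' : LC M (fun w => E w ∧ Q w = 0) := by
    have := hC.lcE
    fun_prop
  rcases hC.sub hE' (fun x hx => hx.1) with hC' | ⟨X1, hX1, hX1X, hX1n⟩
  · exfalso
    obtain ⟨b, w, hbX, hAb, hbE, hw, hEw, hall⟩ := h1 _ _ _ hC'
    refine hQ0 w hw ⟨b, hAb, hbX, fun x hx => ?_⟩ hEw.2
    exact ⟨(hbE x hx).1, (hall x hx).2.1, (hall x hx).1, (hall x hx).2.2⟩
  have hhas : ∀ w ∈ X1, E w → ∃ a, Cand f E X k c A w a := by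
    intro w hw hEw
    by_contra h2
    exact hX1n w hw ⟨hEw, (hQ' w (hX1X hw)).1 h2⟩
  have hC1 := hC.mono hX1 hX1X
  have hLow := glowt_low hAne h1 hX1X hC1 hQ hQ2
  have hC2 : Cnd act E X1 (fun x => Pre.cp (k x, Q x)) := by
    refine ⟨hX1, hC.lcE, ?_, hC1.dense, fun x hx y hy hxy => hC1.fin x hx y hy
      (glowt_cp hxy).1, fun F w hF hw hFX => ?_⟩
    · have := hC.lck
      fun_prop
    obtain ⟨J, hJ, hJm, hJ'⟩ := hA M f hbad E X1 (fun w => mx (Q w)) hLow F w hF hw hFX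
    obtain ⟨K, hK, hK'⟩ := hC1.nc (fun j => F (J j)) (fun j => w (J j))
      ⟨comp_comp F J hF.comp hJ, fun j => hF.ne _, fun i j hij x y hx hy =>
        hF.lt _ _ (hJm i j hij) x y hx hy⟩ (comp_comp w J hw hJ) (fun j => hFX (J j))
    refine ⟨J '' K, is_image hK hJ hJm, ?_⟩
    rintro _ ⟨j, hj, rfl⟩ hEw x hx
    have hw0 : w (J j) ∈ X1 := (hFX (J j)).1 _ (hFX (J j)).2
    have hx0 : x ∈ X1 := (hFX (J j)).1 _ hx
    have hkx : k x = k (w (J j)) := hK' j hj hEw x hx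
    obtain ⟨hmxx, hag⟩ := hJ' j hEw x hx
    obtain ⟨hcw, hcwm⟩ := hQ2 _ (hX1X hw0) (hhas _ hw0 hEw)
    -- the least candidate of `w` is a candidate of `x`
    have hcx : Cand f E X k c A x (Q (w (J j))) := by
      refine ⟨hcw.1, hcw.2.1, fun y hy => ?_⟩
      obtain ⟨h2, h3, h4, h5⟩ := hcw.2.2 y hy
      refine ⟨h2, h3.trans hkx.symm, lt_of_le_of_lt (le_mx hy) hmxx, ?_⟩
      exact (hag y (le_mx hy)).trans h5
    obtain ⟨hcx', hcxm⟩ := hQ2 _ (hX1X hx0) ⟨_, hcx⟩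
    have hle := hcxm _ hcx
    have hle' : mx (Q x) ≤ mx (Q (w (J j))) := by
      rcases hle with h2 | h2
      · exact h2.le
      · exact h2.1.le
    obtain ⟨z0, hz0⟩ := hAne _ hcw.1
    have hcw' : Cand f E X k c A (w (J j)) (Q x) := by
      refine ⟨hcx'.1, hcx'.2.1, fun y hy => ?_⟩
      obtain ⟨h2, h3, h4, h5⟩ := hcx'.2.2 y hy
      have h6 : y ≤ mx (Q (w (J j))) := le_trans (le_mx hy) hle'
      refine ⟨h2, h3.trans hkx, lt_of_le_of_lt h6 (hcw.2.2 _ (el_mx hz0)).2.2.1, ?_⟩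
      exact (hag y h6).symm.trans h5
    have hQe : Q x = Q (w (J j)) := by
      rcases hle with h2 | h2 <;> rcases hcwm _ hcw' with h3 | h3
      · exact absurd (lt_trans h2 h3) (lt_irrefl _)
      · rw [h3.1] at h2
        exact absurd h2 (lt_irrefl _)
      · rw [h2.1] at h3
        exact absurd h3 (lt_irrefl _)
      · exact le_antisymm h2.2 h3.2
    show (Pre.cp (k x, Q x) : M) = Pre.cp (k (w (J j)), Q (w (J j)))
    rw [hkx, hQe]
  obtain ⟨d, hdX, hGd, hdE, hdk⟩ := hG E X1 _ hC2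
  obtain ⟨w0, hw0⟩ := hGne d hGd
  have hw0X := hdX w0 hw0
  have hcw := (hQ2 _ (hX1X hw0X) (hhas _ hw0X (hdE w0 hw0))).1
  refine ⟨un (Q w0) d, ?_, ⟨Q w0, fun x hx => el_un.2 (Or.inl hx), d,
    fun x hx => el_un.2 (Or.inr hx), rfl, hcw.1, hGd, fun x hx z hz => ?_⟩, ?_, ?_⟩
  · intro x hx
    rcases el_un.1 hx with h2 | h2
    · exact hcw.2.1 x h2
    · exact hX1X (hdX x h2)
  · have h2 := (hQ2 _ (hX1X (hdX z hz)) (hhas _ (hdX z hz) (hdE z hz))).1
    have h3 : Q z = Q w0 := (glowt_cp (hdk z hz w0 hw0)).2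
    rw [h3] at h2
    exact (h2.2.2 x hx).2.2
  · intro x hx
    rcases el_un.1 hx with h2 | h2
    · exact (hcw.2.2 x h2).1
    · exact hdE x h2
  · have hkk : ∀ x, el x (un (Q w0) d) → k x = k w0 := by
      intro x hx
      rcases el_un.1 hx with h2 | h2
      · exact (hcw.2.2 x h2).2.1
      · exact (glowt_cp (hdk x h2 w0 hw0)).1
    intro x hx y hy
    rw [hkk x hx, hkk y hy]

end RT22P
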