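import Pool.Agent.RTP.GDefs

/-!
# Theorem G: blocks inside one class (G2)
-/

set_option autoImplicit false

namespace RT22P

open Env

theorem nc_base (hMi : StMi) : StNC := by
  intro M _ act a hA F hF
  have hm := hMi M act a hA
  have hFc := hF.comp
  have hac := hA.comp
  have hdc := hm.dl_comp
  have hmem1 : ∀ k, el (mn (F k)) (F k) := fun k => by
    obtain ⟨x, hx⟩ := hF.ne k
    exact el_mn hx
  have hmem2 : ∀ k, el (mx (F k)) (F k) := fun k => by
    obtain ⟨x, hx⟩ := hF.ne k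
    exact el_mx hx
  have hle : ∀ k, mn (F k) ≤ mx (F k) := fun k => mn_le (hmem2 k)
  have hdl : Comp M (fun k => dl act (mn (F k)) (mx (F k))) :=
    comp_comp (fun q : M × M => dl act q.1 q.2) (fun k : M => (mn (F k), mx (F k))) hdc
      (by fun_prop)
  have hP : Sig M (fun k => mi act (mn (F k)) = mi act (mx (F k))) := by
    have h1 : Sig M (fun k : M => ∃ v : M, mn (F k) = mx (F k) ∨
        (mn (F k) < mx (F k) ∧ (mx (F k) < v ∧ act v ≤ dl act (mn (F k)) (mx (F k))))) := by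
      refine sig_ex (P := fun (k v : M) => mn (F k) = mx (F k) ∨
        (mn (F k) < mx (F k) ∧ (mx (F k) < v ∧ act v ≤ dl act (mn (F k)) (mx (F k)))))
        (sig_of_comp ?_)
      refine comp_or _ _ (by fun_prop) (comp_and _ _ (by fun_prop) (comp_and _ _ (by fun_prop)
        (comp_le _ _ (by fun_prop) ?_)))
      exact comp_comp (fun k : M => dl act (mn (F k)) (mx (F k))) (fun q : M × M => q.1) hdl
        (by fun_prop)
    refine sig_congr h1 fun k => ?_
    constructor
    · rintro ⟨v, h2 | ⟨h2, h3, h4⟩⟩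
      · rw [h2]
      · exact (hm.eqv _ _ h2).2 ⟨v, h3, h4⟩
    · intro h2
      rcases lt_or_eq_of_le (hle k) with h3 | h3
      · obtain ⟨v, hv1, hv2⟩ := (hm.eqv _ _ h3).1 h2
        exact ⟨v, Or.inr ⟨h3, hv1, hv2⟩⟩
      · exact ⟨0, Or.inl h3⟩
  by_cases h : ∀ b, ∃ k, b < k ∧ mi act (mn (F k)) = mi act (mx (F k))
  · obtain ⟨K, hK, hKP⟩ := inf_of_sig hP h
    refine ⟨K, hK, fun k hk x hx y hy => ?_⟩
    have key : ∀ z, el z (F k) → mi act z = mi act (mn (F k)) := fun z hz => by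
      refine le_antisymm ?_ (hm.mono _ _ (mn_le hz))
      rw [hKP k hk]
      exact hm.mono _ _ (le_mx hz)
    rw [key x hx, key y hy]
  · exfalso
    push Not at h
    obtain ⟨k0, hk0⟩ := h
    have hlt : ∀ k, k0 < k → mn (F k) < mx (F k) := fun k hk =>
      lt_of_le_of_ne (hle k) fun h1 => hk0 k hk (by rw [h1])
    have hd : ∀ k, k0 < k → dl act (mn (F k)) (mx (F k)) < dl act (mn (F (k + 1))) (mx (F (k + 1))) := by
      intro k hk
      have hk' : k0 < k + 1 := hk.trans (lt_self_succ k)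
      obtain ⟨h1, h2⟩ := hm.sep _ _ (hlt k hk) (hk0 k hk)
      obtain ⟨h3, _⟩ := hm.sep _ _ (hlt (k + 1) hk') (hk0 (k + 1) hk')
      rw [h1, h3]
      refine lt_of_lt_of_le h2 (hm.mono _ _ ?_)
      exact (hF.lt _ _ (lt_self_succ k) _ _ (hmem2 k) (hmem1 (k + 1))).le
    have hge : ∀ i, i ≤ dl act (mn (F (k0 + 1 + i))) (mx (F (k0 + 1 + i))) := by
      refine cind (P := fun i => i ≤ dl act (mn (F (k0 + 1 + i))) (mx (F (k0 + 1 + i)))) ?_
        (zero_le' _) ?_
      · exact comp_le _ _ (by fun_prop) (comp_comp (fun k : M => dl act (mn (F k)) (mx (F k)))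
          (fun i : M => k0 + 1 + i) hdl (by fun_prop))
      · intro i hi
        have h1 : k0 < k0 + 1 + i := lt_of_lt_of_le (lt_self_succ k0) le_self_add
        have h2 := hd _ h1
        rw [add_assoc (k0 + 1) i 1] at h2
        exact succ_le_iff.2 (lt_of_le_of_lt hi h2)
    have h1 : k0 < k0 + 1 + a := lt_of_lt_of_le (lt_self_succ k0) le_self_add
    obtain ⟨v, _, _, hv⟩ := hm.dl_att _ _ (hlt _ h1)
    have h2 := hA.lt v
    rw [hv] at h2
    exact absurd (hge a) (not_le.2 h2)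

end RT22P
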