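import Pool.Agent.RTP.GDefs

/-!
# Theorem G: the normal form (G4, (5))
-/

set_option autoImplicit false

namespace RT22P

open Env

section
variable {M : Type} [Env M]

private def gEv (z : M) : Prop := ∃ t, t ≤ z ∧ z = t + t

private theorem gEv_comp : Comp M (fun z : M => gEv z) := by
  unfold gEv
  fun_prop

private theorem gpar (z : M) : ∃ t, t ≤ z ∧ (z = t + t ∨ z = t + t + 1) := by
  refine cind (P := fun z : M => ∃ t, t ≤ z ∧ (z = t + t ∨ z = t + t + 1)) (by fun_prop) ?_ ?_ z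
  · exact ⟨0, le_refl 0, Or.inl (by rw [add_zero])⟩
  · rintro x ⟨t, ht, h | h⟩
    · exact ⟨t, le_trans ht le_self_add, Or.inr (by rw [← h])⟩
    · refine ⟨t + 1, add_le_add_left ht 1, Or.inl ?_⟩
      rw [h]
      abel

private theorem gev_lt {z z' t s : M} (hz : z = t + t) (hz' : z' = s + s) (h : z < z') :
    z + 1 < z' := by
  have hts : t < s := by
    by_contra hcon
    have h1 : s ≤ t := not_lt.1 hcon
    have h2 : z' ≤ z := by
      rw [hz, hz']
      exact add_le_add h1 h1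
    exact absurd (lt_of_lt_of_le h h2) (lt_irrefl _)
  have h1 : t + 1 ≤ s := succ_le_iff.2 hts
  have h2 : z + 1 + 1 ≤ z' := by
    have h3 : (t + 1) + (t + 1) ≤ s + s := add_le_add h1 h1
    have h4 : z + 1 + 1 = (t + 1) + (t + 1) := by
      rw [hz]
      abel
    rw [h4, hz']
    exact h3
  exact succ_le_iff.1 h2

end

theorem norm (hCut : StCut) (hMi : StMi) (hAct : StAct) (hThin : StThin) (hA : StPullA)
    (hB : StPullB) : StNorm := by
  intro M _ q hq hI f X hf
  obtain ⟨e1, he1, hm1, _, he1X, _⟩ := enum hf.is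
  obtain ⟨hg, _⟩ := hB M f X hf e1 he1 hm1 he1X
  obtain ⟨act, a, hact⟩ := hCut M hI
  obtain ⟨act', hact', htru⟩ := hAct M _ hg act a hact
  have hm := hMi M act' a hact'
  have hW : LC M (fun x => gEv (mi act' x)) := lc_c1 (h := fun z : M => gEv z) gEv_comp hm.lc
  obtain ⟨Y, hY, _, hYW⟩ := hThin M q hq act' a hact' Set.univ hg.is _ hW
    (fun x _ y _ hxy => by rw [hxy])
  obtain ⟨e2, he2, hm2, _, he2Y, _⟩ := enum hY
  obtain ⟨hg2, hL2⟩ := hB M _ Set.univ hg e2 he2 hm2 (fun _ => Set.mem_univ _)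
  obtain ⟨act'', hact'', hmi''⟩ := hA M act' a hact' e2 he2 hm2
  refine ⟨fun x => e1 (e2 x), comp_comp e1 e2 he1 he2, fun i j hij => hm1 _ _ (hm2 _ _ hij),
    fun i => he1X _, act'', a, ⟨hg2, hact'', ?_⟩⟩
  intro x y hxy hne
  have h1 : mi act' (e2 x) < mi act' (e2 y) := by
    refine lt_of_le_of_ne (hm.mono _ _ (hm2 _ _ hxy).le) ?_
    rw [← hmi'', ← hmi'']
    exact hne
  have h2 : mi act' (e2 x) + 1 < mi act' (e2 y) := by
    rcases hYW with h | h
    · obtain ⟨t, _, ht⟩ := h _ (he2Y x)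
      obtain ⟨s, _, hs⟩ := h _ (he2Y y)
      exact gev_lt ht hs h1
    · obtain ⟨t, htle, ht | ht⟩ := gpar (mi act' (e2 x))
      · exact absurd ⟨t, htle, ht⟩ (h _ (he2Y x))
      · obtain ⟨s, hsle, hs | hs⟩ := gpar (mi act' (e2 y))
        · exact absurd ⟨s, hsle, hs⟩ (h _ (he2Y y))
        · have h3 : t + t < s + s := by
            rw [ht, hs] at h1
            exact lt_of_add_lt_add_right h1
          have h4 := gev_lt rfl rfl h3
          rw [ht, hs]
          exact add_lt_add_left h4 1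
  have h3 := htru _ _ (hm2 _ _ hxy) h2
  have h4 := hL2 x true
  exact h3.trans h4.symm

end RT22P
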