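import Pool.Agent.RTP.GDefs

/-!
# The theorem PSI
-/

set_option autoImplicit false

namespace RT22P

open Env

/-- `z` sees the set `T` as the `true` points of class `i`, with parity `c` and coherence -/
private def gpsi_vis {M : Type} [Env M] (f : M → M → Prop) (act : M → M) (X : Set M)
    (par : M → M → Prop) (c : Bool) (z i T : M) : Prop :=
  (∀ x, x < z → (el x T ↔ (x ∈ X ∧ (dl act x z = i ∧ f x z)))) ∧ ((∀ x, el x T → x < z) ∧
    ((par z i ↔ c = true) ∧
      ∀ x, x < z → (x ∈ X → (i < dl act x z → ∀ t, el t T → f t x))))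

theorem psi (hMi : StMi) (hB : StB) (hS : StStrong) (hPF : StPsiF) (hV1 : StV1) : StPsi := by
  intro M _ q hq f act a hN n r hW R hR E X k hC
  by_contra hno
  have hf := hN.bad.comp
  have hMF := hMi M act a hN.cut
  have hdlc := hMF.dl_comp
  have hTr : Comp M (fun q : M × M => Tr f n false q.1 q.2) := comp_Tr hf n false
  have hA : Comp M (fun b : M => Tr f n false R b) :=
    comp_comp (fun q : M × M => Tr f n false q.1 q.2) (fun b : M => (R, b)) hTr (by fun_prop)
  obtain ⟨ψ, hψ, hψ'⟩ := hPF M f hf act a hN.cut E X k hC true (Tr f n false R) hA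
  obtain ⟨par, hpar, hV⟩ := hV1 M q hq f act a hN n r hW X hC.is
  -- monotonicity of `dl`
  have hdlm : ∀ x y z, x ≤ y → y < z → dl act x z ≤ dl act y z := by
    intro x y z hxy hyz
    rcases lt_or_eq_of_le hxy with h1 | h1
    · rw [hMF.dl_min x y z h1 hyz]
      exact min_le_right _ _
    · rw [h1]
  have key : ∀ F : M → M, Blk F → (∀ l, FS (F l) X) → ∀ c : Bool, ∃ j, ∀ z, el z (F j) →
      (par z (dl act (ψ z) z) ↔ c = true) := by
    intro F hF hFX c
    have hFc := hF.comp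
    have hXc := hC.is.comp
    have hmem : ∀ {Γ : Type} [Enc M Γ] (g : Γ → M), Comp M g → Comp M (fun v => g v ∈ X) :=
      fun g hg => comp_comp (fun x : M => x ∈ X) g hXc hg
    have hdl : ∀ {Γ : Type} [Enc M Γ] (g h : Γ → M), Comp M g → Comp M h →
        Comp M (fun v => dl act (g v) (h v)) := fun g h hg hh =>
      comp_comp (fun q : M × M => dl act q.1 q.2) (fun v => (g v, h v)) hdlc (comp_prod _ _ hg hh)
    have hparc : ∀ {Γ : Type} [Enc M Γ] (g h : Γ → M), Comp M g → Comp M h →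
        Comp M (fun v => par (g v) (h v)) := fun g h hg hh =>
      comp_comp (fun q : M × M => par q.1 q.2) (fun v => (g v, h v)) hpar (comp_prod _ _ hg hh)
    have hff : ∀ {Γ : Type} [Enc M Γ] (g h : Γ → M), Comp M g → Comp M h →
        Comp M (fun v => f (g v) (h v)) := fun g h hg hh =>
      comp_comp (fun q : M × M => f q.1 q.2) (fun v => (g v, h v)) hf (comp_prod _ _ hg hh)
    have hvis : Comp M (fun q : M × M × M => gpsi_vis f act X par c q.1 q.2.1 q.2.2) := by
      unfold gpsi_vis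
      refine comp_and _ _ ?_ (comp_and _ _ ?_ (comp_and _ _ ?_ ?_))
      · refine comp_ball (fun q : M × M × M => q.1)
          (fun q x => el x q.2.2 ↔ (x ∈ X ∧ (dl act x q.1 = q.2.1 ∧ f x q.1))) (by fun_prop) ?_
        refine comp_iff _ _ (by fun_prop) (comp_and _ _ (hmem _ (by fun_prop)) (comp_and _ _
          (comp_eq _ _ (hdl _ _ (by fun_prop) (by fun_prop)) (by fun_prop))
          (hff _ _ (by fun_prop) (by fun_prop))))
      · fun_prop
      · exact comp_iff _ _ (hparc _ _ (by fun_prop) (by fun_prop)) (comp_constP _)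
      · refine comp_ball (fun q : M × M × M => q.1)
          (fun q x => x ∈ X → (q.2.1 < dl act x q.1 → ∀ t, el t q.2.2 → f t x)) (by fun_prop) ?_
        refine comp_imp _ _ (hmem _ (by fun_prop)) (comp_imp _ _ (comp_lt _ _ (by fun_prop)
          (hdl _ _ (by fun_prop) (by fun_prop))) ?_)
        refine comp_allel (fun q : (M × M × M) × M => q.1.2.2) (fun q t => f t q.2)
          (by fun_prop) (hff _ _ (by fun_prop) (by fun_prop))
    have hQc : Comp M (fun p : M × M × (M × M × M × M) =>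
        p.2.1 = un p.2.2.2.1 (F p.2.2.2.2.1) ∧ (Sub p.2.2.2.2.2 p.2.2.2.1 ∧
          (Tr f n false (p.1 + 1) p.2.2.2.2.2 ∧ ∀ z, el z (F p.2.2.2.2.1) →
            gpsi_vis f act X par c z p.2.2.1 p.2.2.2.1))) := by
      have hFp : Comp M (fun p : M × M × (M × M × M × M) => F p.2.2.2.2.1) :=
        comp_comp F (fun p : M × M × (M × M × M × M) => p.2.2.2.2.1) hFc (by fun_prop)
      refine comp_and _ _ (comp_eq _ _ (by fun_prop) (comp_un _ _ (by fun_prop) hFp))
        (comp_and _ _ (by fun_prop) (comp_and _ _ ?_ ?_))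
      · exact comp_comp (fun q : M × M => Tr f n false q.1 q.2)
          (fun p : M × M × (M × M × M × M) => (p.1 + 1, p.2.2.2.2.2)) hTr (by fun_prop)
      · refine comp_allel (fun p : M × M × (M × M × M × M) => F p.2.2.2.2.1)
          (fun p z => gpsi_vis f act X par c z p.2.2.1 p.2.2.2.1) hFp ?_
        exact comp_comp (fun q : M × M × M => gpsi_vis f act X par c q.1 q.2.1 q.2.2)
          (fun p : (M × M × (M × M × M × M)) × M => (p.2, p.1.2.2.1, p.1.2.2.2.1)) hvis
          (by fun_prop)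
    obtain ⟨B, hBB, hPB⟩ := exists_blk (P := fun l b => ∃ v : M × M × M × M,
        b = un v.2.1 (F v.2.2.1) ∧ (Sub v.2.2.2 v.2.1 ∧ (Tr f n false (l + 1) v.2.2.2 ∧
          ∀ z, el z (F v.2.2.1) → gpsi_vis f act X par c z v.1 v.2.1)))
      (sig_ex (P := fun (q : M × M) (v : M × M × M × M) =>
        q.2 = un v.2.1 (F v.2.2.1) ∧ (Sub v.2.2.2 v.2.1 ∧ (Tr f n false (q.1 + 1) v.2.2.2 ∧
          ∀ z, el z (F v.2.2.1) → gpsi_vis f act X par c z v.1 v.2.1)))
        (sig_of_comp (comp_comp _ (fun p : (M × M) × (M × M × M × M) => (p.1.1, p.1.2, p.2))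
          hQc (by fun_prop))))
      (fun l b => by
        obtain ⟨i, T, j, hTb, ⟨T', hT'T, hT'⟩, hz⟩ := hV F hF hFX (l + 1) b
          le_add_self c
        have hvz : ∀ z, el z (F j) → gpsi_vis f act X par c z i T := by
          intro z hzF
          obtain ⟨h1, h2, h3⟩ := hz z hzF
          refine ⟨fun x hxz => ?_, fun x hx => ((h1 x).1 hx).2.1, h2, fun x hxz hxX hi t ht =>
            h3 x hxX hxz hi t ht⟩
          rw [h1 x]
          exact ⟨fun h => ⟨h.1, h.2.2⟩, fun h => ⟨h.1, hxz, h.2⟩⟩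
        refine ⟨un T (F j), ⟨(i, T, j, T'), rfl, hT'T, hT', hvz⟩, ?_, fun x hx => ?_⟩
        · obtain ⟨z, hz⟩ := hF.ne j
          exact ⟨z, el_un.2 (Or.inr hz)⟩
        · rcases el_un.1 hx with h1 | h1
          · exact hTb x h1
          · obtain ⟨t, ht⟩ := Tr.ne (le_add_self : (1 : M) ≤ l + 1) hT'
            exact lt_trans (hTb t (hT'T t ht)) ((hvz x h1).2.1 t (hT'T t ht)))
    obtain ⟨v, hv, hv'⟩ := search (M := M) (Γ := M) (Δ := M × M × M × M)
      (P := fun l v => B l = un v.2.1 (F v.2.2.1) ∧ (Sub v.2.2.2 v.2.1 ∧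
        (Tr f n false (l + 1) v.2.2.2 ∧
          ∀ z, el z (F v.2.2.1) → gpsi_vis f act X par c z v.1 v.2.1)))
      (sig_of_comp (comp_comp _ (fun p : M × (M × M × M × M) => (p.1, B p.1, p.2)) hQc (by
        have := hBB.comp
        fun_prop))) hPB
    have hT'B : ∀ l, Sub (v l).2.2.2 (B l) := by
      intro l x hx
      rw [(hv' l).1]
      exact el_un.2 (Or.inl ((hv' l).2.1 x hx))
    have hBX : ∀ l, FS (B l) X := by
      intro l x hx
      rw [(hv' l).1] at hx
      rcases el_un.1 hx with h1 | h1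
      · obtain ⟨z, hz⟩ := hF.ne (v l).2.2.1
        have h2 := (hv' l).2.2.2 z hz
        exact ((h2.1 x (h2.2.1 x h1)).1 h1).1
      · exact hFX _ x h1
    have hT'blk : Blk (fun l => (v l).2.2.2) :=
      ⟨by fun_prop, fun l => Tr.ne (le_add_self : (1 : M) ≤ l + 1) (hv' l).2.2.1,
        fun k l hkl x y hx hy => hBB.lt k l hkl x y (hT'B k x hx) (hT'B l y hy)⟩
    obtain ⟨nn, w, hnn, hw, hnnm, hwel⟩ := hS M q hq (bad_ncs hN.bad) f hf n false E hC.lcE
      (fun l => (v l).2.2.2) (fun l => l + 1) hT'blk (by fun_prop)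
      (fun l => (lt_self_succ l).le) (fun l => (hv' l).2.2.1) R hR
    have hwB : ∀ l, el (w l) (B (nn l)) := fun l => hT'B _ _ (hwel l).1
    have hwm : ∀ i j, i < j → w i < w j := fun i j hij =>
      hBB.lt _ _ (hnnm i j hij) _ _ (hwB i) (hwB j)
    obtain ⟨K, hK, hKn⟩ := hC.nc (fun l => B (nn l)) w
      ⟨comp_comp B nn hBB.comp hnn, fun l => hBB.ne _, fun i j hij x y hx hy =>
        hBB.lt _ _ (hnnm i j hij) x y hx hy⟩ hw (fun l => ⟨hBX _, hwB l⟩)
    obtain ⟨_, ⟨l, hl, rfl⟩, hEw⟩ := hC.dense (w '' K) (is_image hK hw hwm) (by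
      rintro _ ⟨l, _, rfl⟩
      exact hBX _ _ (hwB l))
    obtain ⟨Q0, hQ0, hQ0A, hQ0E⟩ := (hwel l).2 hEw
    have hQ0A' : Tr f n false R Q0 := hQ0A
    have hk := hKn l hl hEw
    refine ⟨(v (nn l)).2.2.1, fun z hz => ?_⟩
    have hzB : el z (B (nn l)) := by
      rw [(hv' (nn l)).1]
      exact el_un.2 (Or.inr hz)
    have hzX := hBX _ z hzB
    obtain ⟨hT1, hT2, hT3, hT4⟩ := (hv' (nn l)).2.2.2 z hz
    have hQT : ∀ x, el x Q0 → el x (v (nn l)).2.1 := fun x hx => (hv' (nn l)).2.1 x (hQ0 x hx)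
    have hQk : ∀ x, el x Q0 → k x = k z := fun x hx => by
      rw [hk x (hT'B _ x (hQ0 x hx)), hk z hzB]
    have hcand : Cand f E X k true (Tr f n false R) z Q0 := by
      refine ⟨hQ0A, fun x hx => hBX _ x (hT'B _ x (hQ0 x hx)), fun x hx => ?_⟩
      have hxz := hT2 x (hQT x hx)
      exact ⟨hQ0E x hx, hQk x hx, hxz, iff_of_true ((hT1 x hxz).1 (hQT x hx)).2.2 rfl⟩
    obtain ⟨x0, hx0⟩ := Tr.ne hR hQ0A'
    have hmn := el_mn hx0
    obtain ⟨b, hb, hbψ⟩ := (hψ' z hzX).2 ⟨Q0, hcand⟩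
    have hle : mn Q0 ≤ ψ z := (hψ' z hzX).1 Q0 hcand
    obtain ⟨y0, hy0⟩ := Tr.ne hR hb.1
    have hψb : el (ψ z) b := by
      rw [← hbψ]
      exact el_mn hy0
    obtain ⟨hψE, hψk, hψz, hψf⟩ := hb.2.2 _ hψb
    have hdi : dl act (mn Q0) z = (v (nn l)).1 :=
      ((hT1 _ (hT2 _ (hQT _ hmn))).1 (hQT _ hmn)).2.1
    have hge : (v (nn l)).1 ≤ dl act (ψ z) z := by
      rw [← hdi]
      exact hdlm _ _ _ hle hψz
    rcases lt_or_eq_of_le hge with h1 | h1
    · exfalso
      have hcoh := hT4 (ψ z) hψz (hb.2.1 _ hψb) h1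
      refine hno ⟨Q0, ψ z, hcand.2.1, hQ0A, hQ0E, hb.2.1 _ hψb, hψE, fun x hx => ⟨?_, ?_, ?_⟩⟩
      · by_contra h2
        have h3 := hdlm _ _ _ (not_lt.1 h2) (hT2 x (hQT x hx))
        rw [((hT1 _ (hT2 _ (hQT _ hx))).1 (hQT _ hx)).2.1] at h3
        exact absurd (lt_of_lt_of_le h1 h3) (lt_irrefl _)
      · rw [hQk x hx, hψk]
      · exact iff_of_true (hcoh x (hQT x hx)) rfl
    · rw [← h1]
      exact hT3
  have hWlc : LC M (fun z => par z (dl act (ψ z) z)) := by
    refine lc_c2 (h := par) hpar (by fun_prop) ?_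
    exact lc_c2 (h := fun x z => dl act x z) hdlc hψ (by fun_prop)
  obtain ⟨F, hF, hFX, hFW⟩ := hB M q hq X hC.is (fun z => par z (dl act (ψ z) z)) hWlc
  rcases hFW with h1 | h1
  · obtain ⟨j, hj⟩ := key F hF hFX false
    obtain ⟨x, hx, hxW⟩ := h1 j
    exact absurd ((hj x hx).1 hxW) (by simp)
  · obtain ⟨j, hj⟩ := key F hF hFX true
    obtain ⟨x, hx, hxW⟩ := h1 j
    exact hxW ((hj x hx).2 rfl)

end RT22P
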