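import Pool.Agent.RTP.GDefs

/-!
# Theorem G: the cut and bad colourings along strictly increasing functions
-/

set_option autoImplicit false

namespace RT22P

open Env

private theorem gpull_act {M : Type} [EnvB M] {act e : M → M} (hd : Comp M (fun q : M × M =>
    dl act q.1 q.2)) (hc : Comp M act) (he : Comp M e) :
    ∃ act' : M → M, Comp M act' ∧ act' 0 = act 0 ∧ ∀ j, act' (j + 1) = dl act (e j) (e (j + 1)) := by
  classical
  have h1 : Comp M (fun q : M × M => (q.1 = 0 ∧ q.2 = act 0) ∨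
      ∃ j, j < q.1 ∧ (j + 1 = q.1 ∧ q.2 = dl act (e j) (e (j + 1)))) := by
    refine comp_or _ _ (by fun_prop) (comp_bex (fun q : M × M => q.1)
      (fun q j => j + 1 = q.1 ∧ q.2 = dl act (e j) (e (j + 1))) (by fun_prop)
      (comp_and _ _ (by fun_prop) (comp_eq _ _ (by fun_prop) ?_)))
    exact comp_comp (fun q : M × M => dl act q.1 q.2)
      (fun q : (M × M) × M => (e q.2, e (q.2 + 1))) hd (by fun_prop)
  have hex : ∀ v, ∃ z, (v = 0 ∧ z = act 0) ∨
      ∃ j, j < v ∧ (j + 1 = v ∧ z = dl act (e j) (e (j + 1))) := by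
    intro v
    rcases zero_or_succ v with h | ⟨j, h⟩
    · exact ⟨act 0, Or.inl ⟨h, rfl⟩⟩
    · refine ⟨_, Or.inr ⟨j, ?_, h.symm, rfl⟩⟩
      rw [h]
      exact lt_self_succ j
  obtain ⟨F, hF, hF'⟩ := search_min (M := M) (Γ := M) (P := fun v z => (v = 0 ∧ z = act 0) ∨
      ∃ j, j < v ∧ (j + 1 = v ∧ z = dl act (e j) (e (j + 1)))) h1 hex
  refine ⟨F, hF, ?_, fun j => ?_⟩
  · rcases (hF' 0).1 with ⟨_, h⟩ | ⟨j, hj, _⟩
    · exact h
    · exact absurd hj (not_lt_zero' j)
  · rcases (hF' (j + 1)).1 with ⟨h, _⟩ | ⟨i, _, hi, h⟩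
    · exact absurd h (by
        intro h0
        have := lt_of_le_of_lt (zero_le' j) (lt_self_succ j)
        rw [h0] at this
        exact lt_irrefl _ this)
    · rw [add_right_cancel hi] at h
      exact h

theorem pull_cut (hMi : StMi) : StPullA := by
  intro M _ act a hA e he hem
  have hm := hMi M act a hA
  obtain ⟨act', hc', h0, hs⟩ := gpull_act hm.dl_comp hA.comp he
  have hlt : ∀ j, e j < e (j + 1) := fun j => hem _ _ (lt_self_succ j)
  have hid : ∀ i, i ≤ e i := id_le he hem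
  -- every point above `e 0` lies in an interval
  have hcov : ∀ x v, e x < v → ∃ j, x ≤ j ∧ e j < v ∧ v ≤ e (j + 1) := by
    intro x v hv
    obtain ⟨j, hj, hmin⟩ := leastC (P := fun j => v ≤ e (j + 1)) (by fun_prop)
      ⟨v, le_trans (lt_self_succ v).le (hid _)⟩
    have hj' : e j < v := by
      rcases zero_or_succ j with h | ⟨i, h⟩
      · refine lt_of_le_of_lt ?_ hv
        rw [h]
        rcases lt_or_eq_of_le (zero_le' x) with h1 | h1
        · exact (hem _ _ h1).le
        · rw [← h1]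
      · rw [h]
        exact not_le.1 (hmin i (by rw [h]; exact lt_self_succ i))
    refine ⟨j, ?_, hj', hj⟩
    by_contra hcon
    have h1 : j + 1 ≤ x := succ_le_iff.2 (not_le.1 hcon)
    have h2 : e (j + 1) ≤ e x := by
      rcases lt_or_eq_of_le h1 with h3 | h3
      · exact (hem _ _ h3).le
      · rw [h3]
    exact absurd (lt_of_le_of_lt (le_trans hj h2) hv) (lt_irrefl _)
  have hge : ∀ j, ∃ v, e j < v ∧ v ≤ e (j + 1) ∧ act v = act' (j + 1) := fun j => by
    rw [hs]
    exact hm.dl_att _ _ (hlt j)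
  have hle : ∀ j v, e j < v → v ≤ e (j + 1) → act' (j + 1) ≤ act v := fun j v h1 h2 => by
    rw [hs]
    exact hm.dl_le _ _ v h1 h2
  have hin : ∀ i, InA act' i ↔ InA act i := by
    intro i
    constructor
    · rintro ⟨b, hb⟩
      refine ⟨e b + 1, fun v hv => ?_⟩
      obtain ⟨j, hj1, hj2, hj3⟩ := hcov b v (succ_le_iff.1 hv)
      exact lt_of_lt_of_le (hb (j + 1) (le_trans hj1 (lt_self_succ j).le)) (hle j v hj2 hj3)
    · rintro ⟨b, hb⟩
      refine ⟨b + 1, fun v hv => ?_⟩
      rcases zero_or_succ v with h | ⟨j, h⟩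
      · rw [h] at hv
        exact absurd (lt_of_lt_of_le (lt_self_succ b) hv) (not_lt_zero' b)
      · rw [h] at hv ⊢
        obtain ⟨u, hu1, _, hu3⟩ := hge j
        rw [← hu3]
        have hbj : b ≤ j := by
          by_contra hcon
          exact absurd (lt_of_lt_of_le (add_lt_add_left (not_le.1 hcon) 1) hv) (lt_irrefl _)
        exact hb u (le_trans hbj (le_trans (hid j) hu1.le))
  have hA' : Act act' a := by
    refine ⟨hc', fun v => ?_, (hin 0).2 hA.zero, fun i hi => (hin _).2 (hA.succ i ((hin i).1 hi))⟩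
    rcases zero_or_succ v with h | ⟨j, h⟩
    · rw [h, h0]
      exact hA.lt 0
    · rw [h]
      obtain ⟨u, _, _, hu3⟩ := hge j
      rw [← hu3]
      exact hA.lt u
  refine ⟨act', hA', fun x => ?_⟩
  have hm' := hMi M act' a hA'
  refine le_antisymm ?_ ?_
  · obtain ⟨v, hv1, hv2⟩ := hm.att (e x)
    obtain ⟨j, hj1, hj2, hj3⟩ := hcov x v hv1
    rw [← hv2]
    exact le_trans (hm'.le x (j + 1) (lt_of_le_of_lt hj1 (lt_self_succ j))) (hle j v hj2 hj3)
  · obtain ⟨v, hv1, hv2⟩ := hm'.att x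
    rcases zero_or_succ v with h | ⟨j, h⟩
    · rw [h] at hv1
      exact absurd hv1 (not_lt_zero' x)
    · rw [h] at hv1 hv2
      obtain ⟨u, hu1, _, hu3⟩ := hge j
      rw [← hv2, ← hu3]
      refine hm.le _ u (lt_of_le_of_lt ?_ hu1)
      rcases lt_or_eq_of_le (lt_succ.1 hv1) with h3 | h3
      · exact (hem _ _ h3).le
      · rw [h3]

private theorem gpull_lim {M : Type} [EnvB M] {f : M → M → Prop} {X : Set M} (hf : Bad f X)
    {e : M → M} (he : Comp M e) (hem : ∀ i j, i < j → e i < e j) (heX : ∀ i, e i ∈ X) (x : M)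
    (c : Bool) : Lim (fun x y => f (e x) (e y)) (Set.univ : Set M) c x ↔ Lim f X c (e x) := by
  have hid : ∀ i, i ≤ e i := id_le he hem
  have hone : ∀ c, Lim f X c (e x) →
      Lim (fun x y => f (e x) (e y)) (Set.univ : Set M) c x := by
    rintro c ⟨b, hb⟩
    exact ⟨b, fun y _ hby => hb (e y) (heX y) (le_trans hby (hid y))⟩
  refine ⟨fun h => ?_, hone c⟩
  obtain ⟨d, hd⟩ := hf.stab (e x) (heX x)
  rw [Lim.unique is_univ h (hone d hd)]
  exact hd

theorem pull_bad : StPullB := by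
  intro M _ f X hf e he hem heX
  have hfc := hf.comp
  have hcomp : Comp M (fun q : M × M => f (e q.1) (e q.2)) :=
    comp_comp (fun q : M × M => f q.1 q.2) (fun q : M × M => (e q.1, e q.2)) hfc (by fun_prop)
  refine ⟨⟨hcomp, is_univ, fun x _ => ?_, fun Y hY _ c hYc => ?_⟩,
    fun x c => gpull_lim hf he hem heX x c⟩
  · obtain ⟨c, hc⟩ := hf.stab (e x) (heX x)
    exact ⟨c, (gpull_lim hf he hem heX x c).2 hc⟩
  · refine hf.bad (e '' Y) (is_image hY he hem) ?_ c ?_
    · rintro _ ⟨i, _, rfl⟩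
      exact heX i
    · rintro _ ⟨i, hi, rfl⟩
      exact (gpull_lim hf he hem heX i c).1 (hYc i hi)

end RT22P
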