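import Pool.Agent.RTP.GDefs

/-!
# Theorem G: the families are robust (G10, (F1), (F2))
-/

set_option autoImplicit false

namespace RT22P

open Env

variable {M : Type} [Env M]

private theorem gRob_comp_two {Γ : Type} [Enc M Γ] {f : M → M → Prop}
    (hf : Comp M (fun q : M × M => f q.1 q.2)) (c : Bool) {P Q : Γ → M → Prop}
    (hP : Comp M (fun q : Γ × M => P q.1 q.2)) (hQ : Comp M (fun q : Γ × M => Q q.1 q.2))
    {a : Γ → M} (ha : Comp M a) : Comp M (fun v => Two f c (P v) (Q v) (a v)) := by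
  unfold Two
  fun_prop

private theorem gRob_two {f : M → M → Prop} (hf : Comp M (fun q : M × M => f q.1 q.2))
    (c : Bool) {V F G : M → M → Prop} (hF : Rob V F) (hG : Rob V G) :
    Rob V (fun R a => Two f c (F R) (G R) a) := by
  refine ⟨?_, ?_, ?_, ?_, ?_⟩
  · refine gRob_comp_two hf c (P := fun (q : M × M) b => F q.1 b)
      (Q := fun (q : M × M) b => G q.1 b) ?_ ?_ (by fun_prop)
    · exact comp_comp (fun q : M × M => F q.1 q.2)
        (fun q : (M × M) × M => (q.1.1, q.2)) hF.comp (by fun_prop)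
    · exact comp_comp (fun q : M × M => G q.1 q.2)
        (fun q : (M × M) × M => (q.1.1, q.2)) hG.comp (by fun_prop)
  · rintro R a hR ⟨b, hb, d, _, _, hFb, _, _⟩
    obtain ⟨x, hx⟩ := hF.ne R b hR hFb
    exact ⟨x, hb x hx⟩
  · obtain ⟨s, hs, hs'⟩ := hF.size
    obtain ⟨t, ht, ht'⟩ := hG.size
    refine ⟨fun R => s R + t R, by fun_prop, ?_⟩
    rintro R a ⟨b, _, d, _, rfl, hFb, hGd, _⟩
    exact le_trans (card_un_le _ _) (add_le_add (hs' R b hFb) (ht' R d hGd))
  · rintro R R' a hR hRR ⟨b, hb, d, hd, _, hFb, hGd, hcol⟩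
    obtain ⟨b', hb', hFb'⟩ := hF.mono R R' b hR hRR hFb
    obtain ⟨d', hd', hGd'⟩ := hG.mono R R' d hR hRR hGd
    refine ⟨un b' d', fun x hx => ?_, b', fun x hx => el_un.2 (Or.inl hx), d',
      fun x hx => el_un.2 (Or.inr hx), rfl, hFb', hGd', fun x hx y hy =>
        hcol x (hb' x hx) y (hd' y hy)⟩
    rcases el_un.1 hx with h | h
    · exact hb x (hb' x h)
    · exact hd x (hd' x h)
  · rintro R r a b0 hR hr ⟨b, hb, d, hd, _, hFb, hGd, hcol⟩
    rcases hF.split R r b b0 hR hr hFb with ⟨b', hb', hbb, hFb'⟩ | ⟨b', hb', hbb, hV⟩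
    · rcases hG.split R r d b0 hR hr hGd with ⟨d', hd', hdd, hGd'⟩ | ⟨d', hd', hdd, hV⟩
      · refine Or.inl ⟨un b' d', fun x hx => ?_, fun x hx => ?_, b',
          fun x hx => el_un.2 (Or.inl hx), d', fun x hx => el_un.2 (Or.inr hx), rfl, hFb', hGd',
          fun x hx y hy => hcol x (hb' x hx) y (hd' y hy)⟩
        · rcases el_un.1 hx with h | h
          · exact hb x (hb' x h)
          · exact hd x (hd' x h)
        · rcases el_un.1 hx with h | h
          · exact hbb x h
          · exact hdd x h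
      · exact Or.inr ⟨d', fun x hx => hd x (hd' x hx), hdd, hV⟩
    · exact Or.inr ⟨b', fun x hx => hb x (hb' x hx), hbb, hV⟩

private theorem gRob_base {f : M → M → Prop} (hf : Comp M (fun q : M × M => f q.1 q.2)) (n : ℕ) :
    Rob (Tr f n false) (Tr f n false) := by
  refine ⟨comp_Tr hf n false, fun R a hR h => Tr.ne hR h, ?_, ?_, ?_⟩
  · obtain ⟨s, hs, hs'⟩ := exists_trsize M n
    exact ⟨s, hs, fun R a h => hs' f hf false R a h⟩
  · intro R R' a hR hRR h
    exact Tr.mono hf hR hRR h
  · intro R r a b hR hr h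
    exact Tr.split hf hR hr h

theorem robQ : StRobQ := by
  intro M _ f hf n F
  induction F with
  | base => exact gRob_base hf n
  | sum F G ihF ihG => exact gRob_two hf false ihF ihG
  | zed F ih => exact gRob_two hf true (gRob_base hf n) ih

theorem robH : StRobH := by
  intro M _ f hf n F
  induction F with
  | base => exact gRob_base hf n
  | sum F G ihF ihG => exact gRob_two hf false ihF ihG
  | left F G ih => exact gRob_two hf true (robQ M f hf n F) ih

end RT22P
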