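import Pool.Agent.RTP.GDefs

/-!
# Section G6: trees of all widths are strong

Induction on the depth as in `desc_aux`: `S (k, i)`, `i < ρ k`, are the summands of `T k`; a summand is
good if it contains a member of `Tr f j (!c) R` inside `E`.  The trace of `k` consists of the first `R`
good indices; `choice` gives `n`, `i` with `i l` outside of the trace of `n l`.  If the summand
`S (n l, i l)` is good then there are at least `R` good summands, so `T (n l)` contains a member of
`Tr f (j + 1) c R` inside `E`.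
-/

set_option autoImplicit false

namespace RT22P

open Env

/-- the first `r` elements of a finite set -/
private theorem gstrong_first (M : Type) [Env M] (r : M) : ∃ F : M → M, Comp M F ∧
    (∀ u x, el x (F u) ↔ el x u ∧ card (blw u x) < r) ∧ (∀ u, card (F u) ≤ r) ∧
      ∀ u, card u < r → F u = u := by
  have hc : Comp M (fun q : M × M => el q.2 q.1 ∧ card (blw q.1 q.2) < r) := by
    fun_prop
  obtain ⟨F, hF, hF2⟩ := c_code (M := M) (Γ := M) (b := fun u => u)
    (P := fun q : M × M => el q.2 q.1 ∧ card (blw q.1 q.2) < r) (by fun_prop) hc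
  have hF3 : ∀ u x, el x (F u) ↔ el x u ∧ card (blw u x) < r := by
    intro u x
    rw [hF2]
    exact ⟨fun h => h.2, fun h => ⟨el_lt h.1, h⟩⟩
  refine ⟨F, hF, hF3, fun u => ?_, fun u hu => ?_⟩
  · by_cases hne : ∃ x, el x (F u)
    · obtain ⟨x, hx⟩ := hne
      have h1 := (hF3 u _).1 (el_mx hx)
      have h2 : Sub (F u) (un (blw u (mx (F u))) (sg (mx (F u)))) := by
        intro y hy
        rw [el_un, el_blw, el_sg]
        rcases lt_or_eq_of_le (le_mx hy) with h3 | h3
        · exact Or.inl ⟨((hF3 u y).1 hy).1, h3⟩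
        · exact Or.inr h3
      have h3 := le_trans (card_mono h2) (card_un_le _ _)
      rw [card_sg] at h3
      exact le_trans h3 (succ_le_iff.2 h1.2)
    · have h1 : card (F u) = 0 := card_eq_zero.2 fun x hx => hne ⟨x, hx⟩
      rw [h1]
      exact zero_le' r
  · refine fext fun x => ?_
    rw [hF3]
    refine ⟨fun h => h.1, fun h => ⟨h, lt_of_le_of_lt (card_mono fun y hy => ?_) hu⟩⟩
    exact (el_blw.1 hy).1

theorem strong : StStrong := by
  intro M _ q h hK f hf j
  induction j with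
  | zero =>
    intro c E _ T ρ hT _ _ _ R _
    have hTc : Comp M T := hT.comp
    refine ⟨fun l => l, fun l => mn (T l), by fun_prop, by fun_prop, fun i j hij => hij,
      fun l => ?_⟩
    obtain ⟨x, hx⟩ := hT.ne l
    have hm : el (mn (T l)) (T l) := el_mn hx
    refine ⟨hm, fun hEw => ⟨sg (mn (T l)), fun y hy => ?_, tr_zero, fun y hy => ?_⟩⟩
    · rw [el_sg.1 hy]; exact hm
    · rw [el_sg.1 hy]; exact hEw
  | succ j ih =>
    intro c E hE T ρ hT hρ hρk hTr R hR
    have hTc : Comp M T := hT.comp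
    obtain ⟨g, hg, hgs⟩ := isum_elimf (c := c) hf (P := fun R a => Tr f j (!c) R a)
      (comp_Tr hf j (!c))
    have hgk := fun k => hgs (ρ k) (T k) (hTr k)
    -- the summands
    have hS : Comp M (fun v : M × M => g (ρ v.1) (T v.1) v.2) :=
      comp_comp (fun q : M × M × M => g q.1 q.2.1 q.2.2) (fun v : M × M => (ρ v.1, T v.1, v.2)) hg
        (by fun_prop)
    have hTrr : Comp M (fun b : M => Tr f j (!c) R b) :=
      comp_comp (fun q : M × M => Tr f j (!c) q.1 q.2) (fun b : M => (R, b))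
        (comp_Tr hf j (!c)) (by fun_prop)
    -- the `i`-th summand of `T k` contains a tree inside `E`
    have hG : LC M (fun v : M × M => ∃ b, Sub b (g (ρ v.1) (T v.1) v.2) ∧
        (Tr f j (!c) R b ∧ ∀ x, el x b → E x)) := by
      refine lc_exsub (fun v : M × M => g (ρ v.1) (T v.1) v.2)
        (fun v b => Tr f j (!c) R b ∧ ∀ x, el x b → E x) hS.lc ?_
      refine lc_and _ _ (lc_c1 (h := fun b : M => Tr f j (!c) R b) hTrr (by fun_prop)) ?_
      exact lc_allel (fun v : (M × M) × M => v.2) (fun _ x => E x) (by fun_prop)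
        (lc_comp E (fun w : ((M × M) × M) × M => w.2) hE (by fun_prop))
    obtain ⟨U, hU, hU2⟩ := lc_code (M := M) (Γ := M) (b := fun k => ρ k)
      (P := fun k i => ∃ b, Sub b (g (ρ k) (T k) i) ∧ (Tr f j (!c) R b ∧ ∀ x, el x b → E x))
      hρ.lc hG
    obtain ⟨F, hF, hF2, hF3, hF4⟩ := gstrong_first M R
    obtain ⟨G, hGc, hGU⟩ := hU
    have hFG : Comp M (fun q : M × M => F (G (q.1, q.2))) :=
      comp_comp F (fun q : M × M => G (q.1, q.2)) hF (comp_comp G (fun q : M × M => (q.1, q.2))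
        hGc (by fun_prop))
    obtain ⟨n, i, hn, hi', hn1, hn2, hin, hav⟩ := choice h EnvB.bpi hK hρ
      (fun b => ⟨b + 1, lt_of_lt_of_le (lt_self_succ b) (hρk (b + 1))⟩)
      (T := fun k s => F (G (k, s))) hFG R (fun k s => hF3 _) (by
        intro k
        obtain ⟨b, hb⟩ := hGU k
        refine ⟨b, fun s hs => ?_⟩
        show F (G (k, s)) = F (G (k, b))
        rw [hb s hs, hb b le_rfl])
    -- the summands which are not in the trace
    have hgood : ∀ l, (∃ b, Sub b (g (ρ (n l)) (T (n l)) (i l)) ∧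
        (Tr f j (!c) R b ∧ ∀ x, el x b → E x)) → R ≤ card (U (n l)) := by
      intro l hgl
      by_contra hcon
      have hlt : card (U (n l)) < R := not_le.1 hcon
      obtain ⟨b1, hb1⟩ := hGU (n l)
      obtain ⟨b2, hb2⟩ := hav l
      refine hb2 (b1 + b2) le_add_self ?_
      show el (i l) (F (G (n l, b1 + b2)))
      rw [hb1 _ le_self_add, hF4 _ hlt, hU2]
      exact ⟨hin l, hgl⟩
    obtain ⟨nn, w, hnn, hw, hnn1, hnn2⟩ := ih (!c) E hE
      (fun l => g (ρ (n l)) (T (n l)) (i l)) (fun l => ρ (n l))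
      ⟨comp_comp (fun v : M × M => g (ρ v.1) (T v.1) v.2) (fun k : M => (n k, i k)) hS
          (by fun_prop), fun l => (hgk (n l)).2.1 (i l) (hin l), fun k l hkl x y hx hy =>
        hT.lt (n k) (n l) (hn2 k l hkl) x y (((hgk (n k)).1 (i k) (hin k)).2 x hx)
          (((hgk (n l)).1 (i l) (hin l)).2 y hy)⟩
      (comp_comp ρ n hρ hn) (fun k => le_trans (hn1 k) (hρk (n k)))
      (fun k => ((hgk (n k)).1 (i k) (hin k)).1) R hR
    refine ⟨fun l => n (nn l), w, comp_comp n nn hn hnn, hw,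
      fun k l hkl => hn2 _ _ (hnn1 k l hkl), fun l => ?_⟩
    obtain ⟨h1, h2⟩ := hnn2 l
    refine ⟨((hgk (n (nn l))).1 (i (nn l)) (hin (nn l))).2 _ h1, fun hEw => ?_⟩
    have hcard := hgood (nn l) (h2 hEw)
    obtain ⟨E', hE', hEE⟩ := hE.fixP (T (n (nn l)))
    have hQ : Comp M (fun b : M => Tr f j (!c) R b ∧ ∀ x, el x b → E' x) := by
      refine comp_and _ _ hTrr ?_
      exact comp_allel (fun b : M => b) (fun _ x => E' x) (by fun_prop)
        (comp_comp E' (fun w : M × M => w.2) hE' (by fun_prop))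
    have hSc : Comp M (fun i : M => g (ρ (n (nn l))) (T (n (nn l))) i) :=
      comp_comp (fun v : M × M => g (ρ v.1) (T v.1) v.2) (fun i : M => (n (nn l), i)) hS
        (by fun_prop)
    obtain ⟨D, hD1, C, hC1, hC2, hC3, hC4, hC5⟩ := isum_sub (c := c) hf hQ hSc
      (hgk (n (nn l))).2.2.1 (fun i hik => ((hgk (n (nn l))).1 i hik).2) (I := U (n (nn l))) (by
        intro i hi'
        obtain ⟨h1, b', h2, h3, h4⟩ := (hU2 (n (nn l)) i).1 hi'
        refine ⟨h1, b', h2, ⟨h3, fun x hx => ?_⟩, Tr.ne hR h3⟩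
        exact (hEE x (el_lt (((hgk (n (nn l))).1 i h1).2 x (h2 x hx)))).2 (h4 x hx)) hcard
    refine ⟨D, hD1, ⟨C, hC1, hC2, hC3, fun y hy => (hC4 y hy).1, hC5⟩, fun x hx => ?_⟩
    obtain ⟨y, hy, hxy⟩ := pc_cover hC3 hx
    exact (hEE x (el_lt (hD1 x hx))).1 ((hC4 y hy).2 x hxy)

end RT22P
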