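import Pool.Agent.RTP.GDefs

/-!
# Theorem G: sums of blocks
-/

set_option autoImplicit false

namespace RT22P

open Env

private theorem gsum_sum {M : Type} [Env M] {f : M → M → Prop} (hfc : Comp M (fun q : M × M => f q.1 q.2))
    {Q : M → Prop} (hQ : Comp M Q) (hne : ∀ a, Q a → ∃ x, el x a) {E : M → M} (hE : Blk E)
    {N : M} (hN : ∀ k, card (E k) ≤ N) (c : Bool) (r : M) :
    ∃ N', ∀ a, N' ≤ card a → (∀ k, el k a → ∀ m, el m a → k < m →
      ∃ b, Sub b (E k) ∧ (Q b ∧ ∀ x, el x b → ∀ y, el y (E m) → cl f c x y)) →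
      ∃ d, (∀ x, el x d → ∃ k, el k a ∧ el x (E k)) ∧ Isum f c Q r d := by
  have hEc := hE.comp
  obtain ⟨N', hN'⟩ := ramsey (M := M) (r + 1) (pw N)
  refine ⟨N', fun a ha hcl => ?_⟩
  obtain ⟨bb, hbb, hbb'⟩ := search (M := M) (Γ := M × M) (Δ := M)
    (P := fun v b => (∃ b, Sub b (E v.1) ∧
      (Q b ∧ ∀ x, el x b → ∀ y, el y (E v.2) → cl f c x y)) →
      (Sub b (E v.1) ∧ (Q b ∧ ∀ x, el x b → ∀ y, el y (E v.2) → cl f c x y)))
    (sig_of_comp (by fun_prop)) (fun v => by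
      by_cases h1 : ∃ b, Sub b (E v.1) ∧ (Q b ∧ ∀ x, el x b → ∀ y, el y (E v.2) → cl f c x y)
      · obtain ⟨b, hb⟩ := h1
        exact ⟨b, fun _ => hb⟩
      · exact ⟨0, fun h2 => absurd h2 h1⟩)
  obtain ⟨col, hcol, hcol'⟩ := c_code (M := M) (Γ := M × M) (b := fun _ => N)
    (P := fun q : (M × M) × M => q.2 < card (E q.1.1) ∧ el (nth (E q.1.1) q.2) (bb q.1))
    (by fun_prop) (by fun_prop)
  obtain ⟨a', ha', hcard, i, hi⟩ := hN' a (fun k m => col (k, m)) ha (by fun_prop)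
    (fun k m _ _ _ => el_pw fun p hp => ((hcol' (k, m) p).1 hp).1)
  have hsame : ∀ k m m', el k a' → el m a' → el m' a' → k < m → k < m' → ∀ x,
      el x (bb (k, m)) → el x (bb (k, m')) := by
    intro k m m' hk hm hm' hkm hkm' x hx
    have h1 := (hbb' (k, m) (hcl k (ha' k hk) m (ha' m hm) hkm)).1 x hx
    obtain ⟨p, hp, hpx⟩ := exists_nth_eq h1
    have h2 : el p (col (k, m)) := by
      rw [hcol' (k, m) p]
      refine ⟨lt_of_lt_of_le hp (hN k), hp, ?_⟩
      show el (nth (E k) p) (bb (k, m))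
      rw [hpx]
      exact hx
    have h3 : col (k, m) = i := hi k m hk hm hkm
    have h4 : col (k, m') = i := hi k m' hk hm' hkm'
    rw [h3, ← h4, hcol' (k, m') p] at h2
    have h5 : el (nth (E k) p) (bb (k, m')) := h2.2.2
    rw [hpx] at h5
    exact h5
  have hel : ∀ s, s < r + 1 → el (nth a' s) a' := fun s hs => el_nth (by rw [hcard]; exact hs)
  have hD : Comp M (fun s => bb (nth a' s, nth a' (s + 1))) := by fun_prop
  have hspec : ∀ s, s < r → Sub (bb (nth a' s, nth a' (s + 1))) (E (nth a' s)) ∧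
      Q (bb (nth a' s, nth a' (s + 1))) := by
    intro s hs
    have h1 : s + 1 < r + 1 := by
      rw [lt_succ]
      exact succ_le_iff.2 hs
    have h2 : s < r + 1 := lt_trans hs (lt_self_succ r)
    have h3 := hbb' (nth a' s, nth a' (s + 1)) (hcl _ (ha' _ (hel s h2)) _
      (ha' _ (hel (s + 1) h1)) (nth_lt (lt_self_succ s) (by rw [hcard]; exact h1)))
    exact ⟨h3.1, h3.2.1⟩
  obtain ⟨U, hU, hU'⟩ := exists_bigun (M := M) (Γ := M)
    (E := fun _ s => bb (nth a' s, nth a' (s + 1))) (by fun_prop)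
  refine ⟨U 0 r, fun x hx => ?_, ?_⟩
  · obtain ⟨s, hs, hxs⟩ := (hU' 0 r x).1 hx
    exact ⟨nth a' s, ha' _ (hel s (lt_trans hs (lt_self_succ r))), (hspec s hs).1 x hxs⟩
  · refine isum_seq hQ hfc hD (fun s hs => (hspec s hs).2)
      (fun s hs => hne _ (hspec s hs).2) ?_ (hU' 0 r)
    intro s t hst ht x hx y hy
    have hs : s < r := lt_trans hst ht
    have hs1 : s < r + 1 := lt_trans hs (lt_self_succ r)
    have ht1 : t < r + 1 := lt_trans ht (lt_self_succ r)
    have hlt : nth a' s < nth a' t := nth_lt hst (by rw [hcard]; exact ht1)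
    have hxE := (hspec s hs).1 x hx
    have hyE := (hspec t ht).1 y hy
    refine ⟨hE.lt _ _ hlt x y hxE hyE, ?_⟩
    have h1 : s + 1 < r + 1 := by
      rw [lt_succ]
      exact succ_le_iff.2 hs
    have h2 := hsame (nth a' s) (nth a' (s + 1)) (nth a' t) (hel s hs1) (hel _ h1) (hel t ht1)
      (nth_lt (lt_self_succ s) (by rw [hcard]; exact h1)) hlt x hx
    exact (hbb' (nth a' s, nth a' t) (hcl _ (ha' _ (hel s hs1)) _ (ha' _ (hel t ht1))
      hlt)).2.2 x h2 y hyE

theorem sum_blocks : StSum := by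
  intro M _ f hf Q hQ hne E hE N hN c r
  exact gsum_sum hf hQ hne hE hN c r

end RT22P
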