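import Pool.Agent.RTP.GDefs

/-!
# Theorem G: thinning (corollary of Lemma B)
-/

set_option autoImplicit false

namespace RT22P

open Env

theorem thin (hB : StB) (hNC : StNC) : StThin := by
  intro M _ q h act a hA X hX W hW hinv
  obtain ⟨F, hF, hFX, hFW⟩ := hB M q h X hX W hW
  obtain ⟨K, hK, hKm⟩ := hNC M act a hA F hF
  obtain ⟨e, he, hem, heK, hFe⟩ := hF.sub hK
  have hFc := hF.comp
  have hmn : Comp M (fun k => mn (F (e k))) := by fun_prop
  have hlt : ∀ k, mn (F (e k)) < mn (F (e (k + 1))) := fun k => by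
    obtain ⟨x, hx⟩ := hF.ne (e k)
    obtain ⟨y, hy⟩ := hF.ne (e (k + 1))
    exact hF.lt _ _ (hem _ _ (lt_self_succ k)) _ _ (el_mn hx) (el_mn hy)
  have hY := (is_range hmn hlt).1
  have hmem : ∀ k, el (mn (F k)) (F k) := fun k => by
    obtain ⟨x, hx⟩ := hF.ne k
    exact el_mn hx
  refine ⟨_, hY, ?_, ?_⟩
  · rintro _ ⟨k, rfl⟩
    exact hFX _ _ (hmem _)
  · rcases hFW with h1 | h1
    · left
      rintro _ ⟨k, rfl⟩
      obtain ⟨x, hx, hxW⟩ := h1 (e k)
      exact (hinv x (hFX _ _ hx) _ (hFX _ _ (hmem _))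
        (hKm (e k) (heK k) x hx _ (hmem _))).1 hxW
    · right
      rintro _ ⟨k, rfl⟩ h2
      obtain ⟨x, hx, hxW⟩ := h1 (e k)
      exact hxW ((hinv x (hFX _ _ hx) _ (hFX _ _ (hmem _))
        (hKm (e k) (heK k) x hx _ (hmem _))).2 h2)

end RT22P
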