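import Pool.Agent.RTP.GDefs

/-!
# Theorem G: trees under strictly increasing maps
-/

set_option autoImplicit false

namespace RT22P

open Env

/-- the image of finite sets under a computable function, as a function -/
private theorem gtrmap_img {M : Type} [Env M] {e : M → M} (he : Comp M e) {E : M → M}
    (hE : Comp M E) : ∃ B : M → M, Comp M B ∧ ∀ i y, el y (B i) ↔ ∃ x, el x (E i) ∧ e x = y := by
  have hP : Comp M (fun q : M × M => ∀ x, el x (E q.1) → el (e x) q.2) := by
    refine comp_allel (fun q : M × M => E q.1) (fun q x => el (e x) q.2) (by fun_prop)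
      (by fun_prop)
  obtain ⟨B, hB, hB'⟩ := search_min (M := M) (Γ := M) (P := fun i b => ∀ x, el x (E i) → el (e x) b)
    hP (fun i => by
      obtain ⟨b, hb, _⟩ := exists_image he (E i)
      exact ⟨b, fun x hx => (hb _).2 ⟨x, hx, rfl⟩⟩)
  refine ⟨B, hB, fun i y => ⟨fun hy => ?_, fun ⟨x, hx, hxy⟩ => ?_⟩⟩
  · obtain ⟨b, hb, _⟩ := exists_image he (E i)
    have h1 : Sub b (B i) := fun z hz => by
      obtain ⟨x, hx, rfl⟩ := (hb z).1 hz
      exact (hB' i).1 x hx
    have h2 : B i ≤ b := by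
      by_contra hcon
      exact (hB' i).2 b (not_le.1 hcon) fun x hx => (hb _).2 ⟨x, hx, rfl⟩
    have h3 : b = B i := le_antisymm h1.le h2
    rw [← h3] at hy
    exact (hb y).1 hy
  · rw [← hxy]
    exact (hB' i).1 x hx

theorem tr_map : StTrMap := by
  intro M _ f e hf he hem j
  have hfe : Comp M (fun q : M × M => f (e q.1) (e q.2)) :=
    comp_comp (fun q : M × M => f q.1 q.2) (fun q : M × M => (e q.1, e q.2)) hf (by fun_prop)
  -- with the exact image
  have key : ∀ (c : Bool) (R a b : M), Tr (fun x y => f (e x) (e y)) j c R a →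
      (∀ y, el y b ↔ ∃ x, el x a ∧ e x = y) → Tr f j c R b := by
    induction j with
    | zero =>
      rintro c R a b ⟨x, _, rfl⟩ hb
      have h1 : b = sg (e x) := fext fun y => by
        rw [hb y, el_sg]
        constructor
        · rintro ⟨z, hz, rfl⟩
          rw [el_sg.1 hz]
        · rintro rfl
          exact ⟨x, el_sg.2 rfl, rfl⟩
      rw [h1]
      exact tr_zero
    | succ j ih =>
      intro c R a b ha hb
      obtain ⟨E, hE, hPE, hne, hord, hcov⟩ := isum_elim hfe ha
      obtain ⟨B, hB, hB'⟩ := gtrmap_img he hE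
      refine isum_seq (P := Tr f j (!c) R) ?_ hf hB (fun i hi => ?_) (fun i hi => ?_)
        (fun i i' hii hi' y hy y' hy' => ?_) (fun y => ?_)
      · exact comp_comp (fun q : M × M => Tr f j (!c) q.1 q.2) (fun x : M => (R, x))
          (comp_Tr hf j (!c)) (by fun_prop)
      · exact ih (!c) R (E i) (B i) (hPE i hi).1 (hB' i)
      · obtain ⟨x, hx⟩ := hne i hi
        exact ⟨e x, (hB' i _).2 ⟨x, hx, rfl⟩⟩
      · obtain ⟨x, hx, rfl⟩ := (hB' i y).1 hy
        obtain ⟨x', hx', rfl⟩ := (hB' i' y').1 hy'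
        obtain ⟨h1, h2⟩ := hord i i' hii hi' x hx x' hx'
        exact ⟨hem _ _ h1, h2⟩
      · rw [hb y]
        constructor
        · rintro ⟨x, hx, rfl⟩
          obtain ⟨i, hi, hxi⟩ := (hcov x).1 hx
          exact ⟨i, hi, (hB' i _).2 ⟨x, hxi, rfl⟩⟩
        · rintro ⟨i, hi, hy⟩
          obtain ⟨x, hx, rfl⟩ := (hB' i y).1 hy
          exact ⟨x, (hcov x).2 ⟨i, hi, hx⟩, rfl⟩
  intro c R a ha
  obtain ⟨b, hb, _⟩ := exists_image he a
  exact ⟨b, key c R a b ha hb, fun y hy => (hb y).1 hy⟩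

end RT22P
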