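import Pool.Agent.RTP.GDefs

/-!
# Theorem G: trees for the classes of lists
-/

set_option autoImplicit false

namespace RT22P

open Env

/-- the finite set `a` contains the pattern `p` -/
private def gtreePat {M : Type} [Env M] (f : M → M → Prop) (p : List ℕ) (a : M) : Prop :=
  ∃ g : Fin p.length → M, (∀ i j, i < j → g i < g j) ∧
      (∀ i, el (g i) a) ∧ ∀ i j, i < j → (f (g i) (g j) ↔ p.get i < p.get j)

private theorem gtree_map {M : Type} [Env M] {f : M → M → Prop} {p : List ℕ} {a : M} (k : ℕ)
    (h : gtreePat f p a) : gtreePat f (p.map (fun x => x + k)) a := by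
  obtain ⟨g, h1, h2, h3⟩ := h
  refine ⟨fun i => g (Fin.cast (List.length_map _) i), fun i j hij => h1 _ _ ?_, fun i => h2 _,
    fun i j hij => ?_⟩
  · simpa using hij
  · rw [h3 _ _ (by simpa using hij)]
    simp

private theorem gtree_append {M : Type} [Env M] {f : M → M → Prop} {A B : List ℕ} {a b d : M}
    {c : Prop} (hA : gtreePat f A b) (hB : gtreePat f B d) (hb : Sub b a) (hd : Sub d a)
    (h : ∀ x, el x b → ∀ y, el y d → x < y ∧ (f x y ↔ c))
    (hc : ∀ x ∈ A, ∀ y ∈ B, (x < y ↔ c)) : gtreePat f (A ++ B) a := by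
  obtain ⟨g, h1, h2, h3⟩ := hA
  obtain ⟨g', h1', h2', h3'⟩ := hB
  refine ⟨fun i => if hi : i.1 < A.length then g ⟨i.1, hi⟩ else g' ⟨i.1 - A.length, by
    have h4 : i.1 < A.length + B.length := lt_of_lt_of_eq i.2 List.length_append
    omega⟩, ?_, ?_, ?_⟩
  · intro i j hij
    have hij' : i.1 < j.1 := hij
    by_cases hj : j.1 < A.length
    · have hi : i.1 < A.length := lt_trans hij' hj
      simp only [hi, hj, dif_pos]
      exact h1 _ _ hij'
    · by_cases hi : i.1 < A.length
      · simp only [hi, hj, dif_pos, dif_neg, not_false_eq_true]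
        exact (h _ (h2 _) _ (h2' _)).1
      · simp only [hi, hj, dif_neg, not_false_eq_true]
        refine h1' _ _ ?_
        show i.1 - A.length < j.1 - A.length
        omega
  · intro i
    by_cases hi : i.1 < A.length
    · simp only [hi, dif_pos]
      exact hb _ (h2 _)
    · simp only [hi, dif_neg, not_false_eq_true]
      exact hd _ (h2' _)
  · intro i j hij
    have hij' : i.1 < j.1 := hij
    by_cases hj : j.1 < A.length
    · have hi : i.1 < A.length := lt_trans hij' hj
      simp only [hi, hj, dif_pos]
      rw [h3 ⟨i.1, hi⟩ ⟨j.1, hj⟩ hij']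
      simp only [List.get_eq_getElem, List.getElem_append_left hi, List.getElem_append_left hj]
    · by_cases hi : i.1 < A.length
      · simp only [hi, hj, dif_pos, dif_neg, not_false_eq_true]
        rw [(h _ (h2 _) _ (h2' _)).2]
        simp only [List.get_eq_getElem, List.getElem_append_left hi,
          List.getElem_append_right (not_lt.1 hj)]
        exact (hc _ (List.getElem_mem _) _ (List.getElem_mem _)).symm
      · simp only [hi, hj, dif_neg, not_false_eq_true]
        have hlt : i.1 - A.length < j.1 - A.length := by omega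
        rw [h3' _ _ hlt]
        simp only [List.get_eq_getElem, List.getElem_append_right (not_lt.1 hi),
          List.getElem_append_right (not_lt.1 hj)]

/-- the tree `q` describes the list `p` -/
private def gtreeT (p : List ℕ) (q : Sp) : Prop :=
  ∀ (M : Type) [Env M] (f : M → M → Prop) (a : M), Cpy f q a → gtreePat f p a

private theorem gtree_pt : gtreeT [0] .pt := by
  intro M _ f a h
  obtain ⟨x, _, rfl⟩ := h
  refine ⟨fun _ => x, fun i j hij => ?_, fun _ => el_sg.2 rfl, fun i j hij => ?_⟩
  · have h1 := i.2
    have h2 := j.2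
    have h3 : i.1 < j.1 := hij
    simp only [List.length_cons, List.length_nil] at h1 h2
    omega
  · have h1 := i.2
    have h2 := j.2
    have h3 : i.1 < j.1 := hij
    simp only [List.length_cons, List.length_nil] at h1 h2
    omega

private theorem gtree_osum {a b : List ℕ} {p q : Sp} (ha : gtreeT a p) (hb : gtreeT b q)
    (hs : Separable a) : gtreeT (osum a b) (.op true p q) := by
  intro M _ f e h
  obtain ⟨u, hu, v, hv, rfl, hp, hq, hx⟩ := h
  refine gtree_append (c := True) (ha M f u hp) (gtree_map a.length (hb M f v hq)) hu hv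
    (fun x hxu y hyv => ⟨(hx x hxu y hyv).1, ?_⟩) ?_
  · have h1 := (hx x hxu y hyv).2
    unfold cl at h1
    simpa using h1
  · intro x hxa y hy
    obtain ⟨z, _, rfl⟩ := List.mem_map.1 hy
    have := hs.lt_length x hxa
    exact ⟨fun _ => trivial, fun _ => by omega⟩

private theorem gtree_skew {a b : List ℕ} {p q : Sp} (ha : gtreeT a p) (hb : gtreeT b q)
    (hs : Separable b) : gtreeT (skew a b) (.op false p q) := by
  intro M _ f e h
  obtain ⟨u, hu, v, hv, rfl, hp, hq, hx⟩ := h
  refine gtree_append (c := False) (gtree_map b.length (ha M f u hp)) (hb M f v hq) hu hv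
    (fun x hxu y hyv => ⟨(hx x hxu y hyv).1, ?_⟩) ?_
  · have h1 := (hx x hxu y hyv).2
    unfold cl at h1
    simpa using h1
  · intro x hxa y hy
    obtain ⟨z, _, rfl⟩ := List.mem_map.1 hxa
    have := hs.lt_length y hy
    exact ⟨fun h1 => by omega, fun h1 => h1.elim⟩

theorem InG1.separable {p : List ℕ} (hp : InG1 p) : Separable p := by
  induction hp with
  | one => exact Separable.one
  | skew _ _ iha ihb => exact Separable.skew iha ihb
  | osum ha _ ihb => exact Separable.osum ha.separable ihb

theorem InG0.separable {p : List ℕ} (hp : InG0 p) : Separable p := by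
  induction hp with
  | one => exact Separable.one
  | osum _ _ iha ihb => exact Separable.osum iha ihb
  | skew ha _ ihb => exact Separable.skew ha.separable ihb

theorem tree1 : StTree1 := by
  intro p hp
  have key : ∃ q : Sp, GG q ∧ gtreeT p q := by
    induction hp with
    | one => exact ⟨.pt, GG.pt, gtree_pt⟩
    | skew ha hb iha ihb =>
      obtain ⟨q, hq, hq'⟩ := iha
      obtain ⟨r, hr, hr'⟩ := ihb
      exact ⟨.op false q r, GG.ss hq hr, gtree_skew hq' hr' hb.separable⟩
    | osum ha hb ihb =>
      obtain ⟨q, hq, hq'⟩ := exists_tree1 ha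
      obtain ⟨r, hr, hr'⟩ := ihb
      exact ⟨.op true q r, GG.st hq hr, gtree_osum hq' hr' ha.separable⟩
  exact key

theorem tree0 : StTree0 := by
  intro p hp
  have key : ∃ q : Sp, GG q.compl ∧ gtreeT p q := by
    induction hp with
    | one => exact ⟨.pt, GG.pt, gtree_pt⟩
    | osum ha hb iha ihb =>
      obtain ⟨q, hq, hq'⟩ := iha
      obtain ⟨r, hr, hr'⟩ := ihb
      exact ⟨.op true q r, GG.ss hq hr, gtree_osum hq' hr' ha.separable⟩
    | skew ha hb ihb =>
      obtain ⟨q, hq, hq'⟩ := exists_tree0 ha
      obtain ⟨r, hr, hr'⟩ := ihb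
      exact ⟨.op false q r, GG.st hq hr, gtree_skew hq' hr' hb.separable⟩
  exact key

end RT22P
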