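import Pool.Agent.RTP.GDefs

/-!
# Theorem G: all families of the first kind are typed (G10, (F3))
-/

set_option autoImplicit false

namespace RT22P

open Env

theorem typQ (hV : StTypV) (hER : StER) (hPsi : StPsi) (hL : StLowT) (hRob : StRobQ) :
    StTypQ := by
  intro M _ q hq f act a hN n r hW F
  have hK : NCS M := bad_ncs hN.bad
  have hc := hN.bad.comp
  have hcI : ∀ (F : FQ) (R : M), Comp M (F.int f n R) := fun F R =>
    comp_comp (fun q : M × M => F.int f n q.1 q.2) (fun x : M => (R, x)) (hRob M f hc n F).comp
      (by fun_prop)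
  have hcT : ∀ R : M, Comp M (Tr f n false R) := fun R =>
    comp_comp (fun q : M × M => Tr f n false q.1 q.2) (fun x : M => (R, x)) (comp_Tr hc n false)
      (by fun_prop)
  induction F with
  | base => exact fun R hR => hV M q hq hK f hc act n hW.av R hR
  | sum F G ihF ihG =>
    intro R hR
    exact hL M f hN.bad act a hN.cut false (F.int f n R) (G.int f n R) (hcI F R)
      (fun a ha => (hRob M f hc n F).ne R a hR ha) (fun a ha => (hRob M f hc n G).ne R a hR ha)
      (hER M q hq f act a hN n r hW (F.int f n) (hRob M f hc n F) ihF R hR) (ihG R hR)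
  | zed F ih =>
    intro R hR
    exact hL M f hN.bad act a hN.cut true (Tr f n false R) (F.int f n R) (hcT R)
      (fun a ha => Tr.ne hR ha) (fun a ha => (hRob M f hc n F).ne R a hR ha)
      (hPsi M q hq f act a hN n r hW R hR) (ih R hR)

end RT22P
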