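import Pool.Agent.RTP.GDefs

/-!
# Theorem G: the trees are typed (G6, (S1))
-/

set_option autoImplicit false

namespace RT22P

open Env

theorem typV (hS : StStrong) : StTypV := by
  intro M _ q hq hK f hf act n hav R hR E X k hC
  have hT : Comp M (fun q : M × M => Tr f n false q.1 q.2) := comp_Tr hf n false
  have hXc := hC.is.comp
  -- the array
  obtain ⟨T, hTB, hTP⟩ := exists_blk (P := fun j a : M => FS a X ∧ Tr f n false (j + 1) a)
    (sig_of_comp (comp_and _ _ (comp_FS hXc _ (by fun_prop))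
      (comp_comp (fun q : M × M => Tr f n false q.1 q.2) (fun q : M × M => (q.1 + 1, q.2)) hT
        (by fun_prop)))) (fun j b => by
      obtain ⟨a, haY, haT⟩ := hav _ (is_above hC.is b) (j + 1) le_add_self
      exact ⟨a, ⟨fun x hx => (haY x hx).1, haT⟩, Tr.ne le_add_self haT, fun x hx => (haY x hx).2⟩)
  obtain ⟨nn, w, hnn, hw, hnm, hl⟩ := hS M q hq hK f hf n false E hC.lcE T (fun j => j + 1) hTB
    (by fun_prop) (fun j => (lt_self_succ j).le) (fun j => (hTP j).2) R hR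
  have hTc := hTB.comp
  have hB : Blk (fun l => T (nn l)) := ⟨comp_comp T nn hTc hnn, fun l => hTB.ne _,
    fun k l hkl x y hx hy => hTB.lt _ _ (hnm _ _ hkl) x y hx hy⟩
  obtain ⟨K, hKi, hK'⟩ := hC.nc (fun l => T (nn l)) w hB hw
    (fun j => ⟨(hTP (nn j)).1, (hl j).1⟩)
  obtain ⟨e, he, hem, heK, _⟩ := hB.sub hKi
  have hlt : ∀ i, w (e i) < w (e (i + 1)) := fun i =>
    hB.lt _ _ (hem _ _ (lt_self_succ i)) _ _ (hl _).1 (hl _).1
  obtain ⟨x, ⟨i, rfl⟩, hEx⟩ := hC.dense _ (is_range (comp_comp w e hw he) hlt).1 (by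
    rintro _ ⟨i, rfl⟩
    exact (hTP _).1 _ (hl _).1)
  obtain ⟨b, hb, hbT, hbE⟩ := (hl (e i)).2 hEx
  have key := hK' (e i) (heK i) hEx
  refine ⟨b, fun x hx => (hTP _).1 x (hb x hx), hbT, hbE, fun x hx y hy => ?_⟩
  rw [key x (hb x hx), key y (hb y hy)]

end RT22P
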