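import Pool.Agent.RTP.GDefs

/-!
# Theorem G: visible classes with prescribed parity (G9, (V1))
-/

set_option autoImplicit false

namespace RT22P

open Env

/-- the width of a tree is at most every bound of its elements -/
private theorem gv1_width {M : Type} [Env M] {f : M → M → Prop} {n : ℕ} (hn : 1 ≤ n) {c : Bool}
    {R a N : M} (h : Tr f n c R a) (hN : ∀ x, el x a → x < N) : R ≤ N := by
  cases n with
  | zero => exact absurd hn (by norm_num)
  | succ j =>
    obtain ⟨C, hC, hcard, _⟩ := h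
    have h1 := card_mono (a := C) (b := ivl 0 N) fun x hx =>
      el_ivl.2 ⟨zero_le' x, hN x (hC x hx)⟩
    have h2 := card_ivl (zero_le' N)
    rw [add_zero] at h2
    rwa [h2, hcard] at h1

private theorem gv1_even {M : Type} [Env M] (x : M) : (∃ t, x = t + t) ∨ ∃ t, x = t + t + 1 := by
  have h : ∀ x : M, (∃ t, t ≤ x ∧ x = t + t) ∨ ∃ t, t ≤ x ∧ x = t + t + 1 := by
    refine cind (by fun_prop) (Or.inl ⟨0, le_rfl, by ring⟩) ?_
    rintro x (⟨t, ht, hx⟩ | ⟨t, ht, hx⟩)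
    · exact Or.inr ⟨t, ht.trans (lt_self_succ x).le, by rw [← hx]⟩
    · refine Or.inl ⟨t + 1, add_le_add_left ht 1, ?_⟩
      rw [hx]
      ring
  rcases h x with ⟨t, _, hx⟩ | ⟨t, _, hx⟩
  · exact Or.inl ⟨t, hx⟩
  · exact Or.inr ⟨t, hx⟩

private theorem gv1_odd {M : Type} [Env M] {s t : M} (h : t + t = s + s + 1) : False := by
  rcases le_or_gt t s with h1 | h1
  · have h2 : t + t ≤ s + s := add_le_add h1 h1
    rw [h] at h2
    exact absurd h2 (not_le.2 (lt_self_succ _))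
  · have h2 : (s + 1) + (s + 1) ≤ t + t := add_le_add (succ_le_iff.2 h1) (succ_le_iff.2 h1)
    have h3 : (s + 1) + (s + 1) = s + s + 1 + 1 := by ring
    rw [h, h3] at h2
    exact absurd h2 (not_le.2 (lt_self_succ _))

/-- the parity of `x + 1` -/
private theorem gv1_par {M : Type} [Env M] (x : M) :
    (∃ t, t ≤ x + 1 ∧ x + 1 = t + t) ↔ ¬ ∃ t, t ≤ x ∧ x = t + t := by
  constructor
  · rintro ⟨t, _, h1⟩ ⟨s, _, h2⟩
    rw [h2] at h1
    exact gv1_odd h1.symm
  · intro h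
    rcases gv1_even x with ⟨t, ht⟩ | ⟨t, ht⟩
    · exact absurd ⟨t, by rw [ht]; exact le_self_add, ht⟩ h
    · refine ⟨t + 1, ?_, by rw [ht]; ring⟩
      rw [ht]
      exact add_le_add_left (le_trans le_self_add (lt_self_succ _).le) 1

theorem v1 (hMi : StMi) (hC0 : StC0) (hTV : StTypV) : StV1 := by
  intro M _ q hq f act a hN n r hW X hX
  have hf := hN.bad.comp
  have hMF := hMi M act a hN.cut
  have hdlc := hMF.dl_comp
  have hXc := hX.comp
  have hTr : Comp M (fun q : M × M => Tr f n false q.1 q.2) := comp_Tr hf n false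
  -- the part seen by `z` in class `i`
  obtain ⟨G, hG, hG'⟩ := c_code (M := M) (Γ := M × M) (b := fun q => q.1)
    (P := fun q : (M × M) × M => q.2 ∈ X ∧ (dl act q.2 q.1.1 = q.1.2 ∧ f q.2 q.1.1)) (by fun_prop)
    (comp_and _ _ (comp_comp (fun x : M => x ∈ X) (fun q : (M × M) × M => q.2) hXc (by fun_prop))
      (comp_and _ _ (comp_eq _ _ (comp_comp (fun q : M × M => dl act q.1 q.2)
        (fun q : (M × M) × M => (q.2, q.1.1)) hdlc (by fun_prop)) (by fun_prop))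
        (comp_comp (fun q : M × M => f q.1 q.2) (fun q : (M × M) × M => (q.2, q.1.1)) hf
          (by fun_prop))))
  have hD : Comp M (fun q : (M × M) × M => ∃ b, Sub b (G q.1) ∧ Tr f n false q.2 b) := by
    refine comp_exsub (fun q : (M × M) × M => G q.1) (fun q b => Tr f n false q.2 b)
      (comp_comp G (fun q : (M × M) × M => q.1) hG (by fun_prop)) ?_
    exact comp_comp (fun q : M × M => Tr f n false q.1 q.2)
      (fun q : ((M × M) × M) × M => (q.1.2, q.2)) hTr (by fun_prop)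
  -- the records of `z`
  have hrec : Comp M (fun q : M × M => ∃ kk, kk ≤ q.1 ∧ (1 ≤ kk ∧
      ((∃ b, Sub b (G q) ∧ Tr f n false kk b) ∧
        ∀ i', i' < q.2 → ¬ ∃ b, Sub b (G (q.1, i')) ∧ Tr f n false kk b))) := by
    refine comp_bexle (fun q : M × M => q.1) (fun q kk => 1 ≤ kk ∧
      ((∃ b, Sub b (G q) ∧ Tr f n false kk b) ∧
        ∀ i', i' < q.2 → ¬ ∃ b, Sub b (G (q.1, i')) ∧ Tr f n false kk b)) (by fun_prop) ?_
    refine comp_and _ _ (by fun_prop) (comp_and _ _ hD ?_)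
    refine comp_ball (fun q : (M × M) × M => q.1.2)
      (fun q i' => ¬ ∃ b, Sub b (G (q.1.1, i')) ∧ Tr f n false q.2 b) (by fun_prop) ?_
    refine comp_not _ ?_
    exact comp_comp (fun q : (M × M) × M => ∃ b, Sub b (G q.1) ∧ Tr f n false q.2 b)
      (fun q : ((M × M) × M) × M => ((q.1.1.1, q.2), q.1.2)) hD (by fun_prop)
  obtain ⟨Rc, hRc, hRc'⟩ := c_code (M := M) (Γ := M × M) (b := fun q => q.2)
    (P := fun q : (M × M) × M => ∃ kk, kk ≤ q.1.1 ∧ (1 ≤ kk ∧
      ((∃ b, Sub b (G (q.1.1, q.2)) ∧ Tr f n false kk b) ∧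
        ∀ i', i' < q.2 → ¬ ∃ b, Sub b (G (q.1.1, i')) ∧ Tr f n false kk b))) (by fun_prop)
    (comp_comp _ (fun q : (M × M) × M => (q.1.1, q.2)) hrec (by fun_prop))
  refine ⟨fun z i => ∃ t, t ≤ card (Rc (z, i)) ∧ card (Rc (z, i)) = t + t, ?_, ?_⟩
  · have h1 : Comp M (fun q : M × M => card (Rc (q.1, q.2))) := comp_card _ hRc
    refine comp_bexle (fun q : M × M => card (Rc (q.1, q.2)))
      (fun q t => card (Rc (q.1, q.2)) = t + t) h1 ?_
    refine comp_eq _ _ ?_ (by fun_prop)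
    exact comp_comp (fun q : M × M => card (Rc (q.1, q.2))) (fun q : (M × M) × M => q.1) h1
      (by fun_prop)
  intro F hF hFX kk b hkk c
  -- the classes
  obtain ⟨bd, hbd, hbd'⟩ := hMF.bd
  obtain ⟨e, he, he'⟩ := lc_code (M := M) (Γ := M) (b := bd)
    (P := fun z x => x ∈ X ∧ (tr f x ∧ mi act x = mi act z)) hbd (by
      refine lc_and _ _ ?_ (lc_and _ _ ?_ ?_)
      · exact (comp_comp (fun x : M => x ∈ X) (fun q : M × M => q.2) hXc (by fun_prop)).lc
      · exact lc_comp (tr f) (fun q : M × M => q.2) (lc_tr hN.bad) (by fun_prop)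
      · exact lc_eq _ _ (lc_comp (mi act) (fun q : M × M => q.2) hMF.lc (by fun_prop))
          (lc_comp (mi act) (fun q : M × M => q.1) hMF.lc (by fun_prop)))
  have hel : ∀ z x, el x (e z) ↔ x ∈ X ∧ (tr f x ∧ mi act x = mi act z) := fun z x =>
    (he' z x).trans ⟨fun h => h.2, fun h => ⟨(hbd' x z h.2.2).1, h⟩⟩
  set DB : M → M → Prop := fun i k => ∃ d, (∀ x, el x d → x ∈ X ∧ (tr f x ∧ mi act x = i)) ∧
    Tr f n false k d with hDB
  have hDBe : ∀ z k, (∃ d, Sub d (e z) ∧ Tr f n false k d) ↔ DB (mi act z) k := by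
    intro z k
    constructor
    · rintro ⟨d, hd, hdT⟩
      exact ⟨d, fun x hx => (hel z x).1 (hd x hx), hdT⟩
    · rintro ⟨d, hd, hdT⟩
      exact ⟨d, fun x hx => (hel z x).2 (hd x hx), hdT⟩
  have hDBm : ∀ i k k', 1 ≤ k → k ≤ k' → DB i k' → DB i k := by
    rintro i k k' hk hkk' ⟨d, hd, hdT⟩
    obtain ⟨d', hd', hdT'⟩ := Tr.mono hf hk hkk' hdT
    exact ⟨d', fun x hx => hd x (hd' x hx), hdT'⟩
  have hDBx : ∀ i k, 1 ≤ k → DB i k → ∃ x, mi act x = i := by
    rintro i k hk ⟨d, hd, hdT⟩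
    obtain ⟨x, hx⟩ := Tr.ne hk hdT
    exact ⟨x, (hd x hx).2.2⟩
  have hlt : ∀ x y, mi act x < mi act y → x < y := by
    intro x y hxy
    by_contra hcon
    exact absurd (hMF.mono y x (not_lt.1 hcon)) (not_le.2 hxy)
  -- what `z` sees below its class
  have hGB : ∀ z i x, i < mi act z → (el x (G (z, i)) ↔ x ∈ X ∧ (tr f x ∧ mi act x = i)) := by
    intro z i x hi
    have h0 := hG' (z, i) x
    constructor
    · intro h
      obtain ⟨hxz, hxX, hdl, hfx⟩ := h0.1 h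
      have hdl' : dl act x z = i := hdl
      have h1 : mi act x = i := by
        rw [hMF.mi_min x z hxz, hdl', min_eq_left hi.le]
      exact ⟨hxX, (hN.tru x z hxz (by rw [h1]; exact ne_of_lt hi)).1 hfx, h1⟩
    · rintro ⟨hxX, htr, h1⟩
      have hxz := hlt x z (by rw [h1]; exact hi)
      have hne : mi act x ≠ mi act z := by rw [h1]; exact ne_of_lt hi
      refine h0.2 ⟨hxz, hxX, ?_, (hN.tru x z hxz hne).2 htr⟩
      show dl act x z = i
      rw [(hMF.sep x z hxz hne).1, h1]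
  have hGD : ∀ z i k, i < mi act z → ((∃ d, Sub d (G (z, i)) ∧ Tr f n false k d) ↔ DB i k) := by
    intro z i k hi
    constructor
    · rintro ⟨d, hd, hdT⟩
      exact ⟨d, fun x hx => (hGB z i x hi).1 (hd x hx), hdT⟩
    · rintro ⟨d, hd, hdT⟩
      exact ⟨d, fun x hx => (hGB z i x hi).2 (hd x hx), hdT⟩
  -- the records
  set RR : M → Prop := fun i => ∃ k, 1 ≤ k ∧ (DB i k ∧ ∀ i', i' < i → ¬ DB i' k) with hRR
  have hRcR : ∀ z i, i ≤ mi act z → ∀ i', el i' (Rc (z, i)) ↔ i' < i ∧ RR i' := by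
    intro z i hi i'
    refine (hRc' (z, i) i').trans ?_
    constructor
    · rintro ⟨h1, k, _, h3, h4, h5⟩
      have hi' : i' < mi act z := lt_of_lt_of_le h1 hi
      exact ⟨h1, k, h3, (hGD z i' k hi').1 h4, fun i'' h6 h7 =>
        h5 i'' h6 ((hGD z i'' k (h6.trans hi')).2 h7)⟩
    · rintro ⟨h1, k, h3, h4, h5⟩
      have hi' : i' < mi act z := lt_of_lt_of_le h1 hi
      have h6 := (hGD z i' k hi').2 h4
      refine ⟨h1, k, ?_, h3, h6, fun i'' h7 h8 =>
        h5 i'' h7 ((hGD z i'' k (h7.trans hi')).1 h8)⟩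
      obtain ⟨d, hd, hdT⟩ := h6
      exact gv1_width hW.n1 hdT fun x hx => ((hG' (z, i') x).1 (hd x hx)).1
  have hRce : ∀ z z' i, i ≤ mi act z → i ≤ mi act z' → Rc (z, i) = Rc (z', i) :=
    fun z z' i h1 h2 => fext fun x => (hRcR z i h1 x).trans (hRcR z' i h2 x).symm
  -- large classes
  have hbb : ∀ y, mi act y ≤ mi act b → y < bd b := by
    intro y hy
    rcases le_or_gt y b with h1 | h1
    · exact lt_of_le_of_lt h1 (hbd' b b rfl).1
    · exact (hbd' y b (le_antisymm hy (hMF.mono b y h1.le))).1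
  obtain ⟨K0, hK0, hK0k, hK0b⟩ : ∃ K0, 1 ≤ K0 ∧ kk ≤ K0 ∧ bd b < K0 :=
    ⟨kk + bd b + 1, le_add_self, le_trans le_self_add (lt_self_succ _).le,
      lt_of_le_of_lt le_add_self (lt_self_succ _)⟩
  have hnoK : ∀ i, i ≤ mi act b → ¬ DB i K0 := by
    rintro i hi ⟨d, hd, hdT⟩
    refine absurd (gv1_width hW.n1 hdT fun x hx => hbb x ?_) (not_le.2 hK0b)
    rw [(hd x hx).2.2]
    exact hi
  have hex : ∀ K, 1 ≤ K → ∃ z, ∃ d, Sub d (e z) ∧ Tr f n false K d := by
    intro K hK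
    obtain ⟨d, hdX, hdT, hdE, hdk⟩ := hTV M q hq (bad_ncs hN.bad) f hf act n hW.av K hK (tr f) X
      (mi act) (hC0 M act a hN.cut (tr f) X hX (lc_tr hN.bad) (fun Y hY _ => by
        obtain ⟨x, hxY, hx⟩ := hN.bad.ex hY (Set.subset_univ Y) true
        exact ⟨x, hxY, hx⟩))
    obtain ⟨z, hz⟩ := Tr.ne hK hdT
    exact ⟨z, d, fun x hx => (hel z x).2 ⟨hdX x hx, hdE x hx, hdk x hx z hz⟩, hdT⟩
  have hlc : ∀ K, LC M (fun z : M => ∃ d, Sub d (e z) ∧ Tr f n false K d) := by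
    intro K
    refine lc_exsub e (fun z d => Tr f n false K d) he ?_
    exact (comp_comp (fun q : M × M => Tr f n false q.1 q.2) (fun q : M × M => (K, q.2)) hTr
      (by fun_prop)).lc
  obtain ⟨z1, hz1, hz1m⟩ := leastL (hlc K0) (hex K0 hK0)
  have hz1' := (hDBe z1 K0).1 hz1
  -- the rank of the class of `z1`
  obtain ⟨ρ, hρ, hρm⟩ := greatestC (P := fun K => ∃ d, Sub d (e z1) ∧ Tr f n false K d) (by
      refine comp_exsub (fun _ : M => e z1) (fun K d => Tr f n false K d) (by fun_prop) ?_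
      exact hTr) ⟨K0, hz1⟩ (e z1 + 1) (by
      rintro K ⟨d, hd, hdT⟩
      exact lt_succ.2 (gv1_width hW.n1 hdT fun x hx => el_lt (hd x hx)))
  have hρ' := (hDBe z1 ρ).1 hρ
  have hK0ρ : K0 ≤ ρ := hρm K0 hz1
  obtain ⟨z2, hz2, hz2m⟩ := leastL (hlc (ρ + 1)) (hex (ρ + 1) le_add_self)
  have hz2' := (hDBe z2 (ρ + 1)).1 hz2
  have hno1 : ¬ DB (mi act z1) (ρ + 1) := fun h =>
    absurd (hρm _ ((hDBe z1 (ρ + 1)).2 h)) (not_le.2 (lt_self_succ ρ))
  have hz2K : DB (mi act z2) K0 :=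
    hDBm _ _ _ hK0 (hK0ρ.trans (lt_self_succ ρ).le) hz2'
  have hne12 : mi act z1 ≠ mi act z2 := fun h => hno1 (by rw [h]; exact hz2')
  have h12 : mi act z1 < mi act z2 := by
    refine lt_of_le_of_ne (hMF.mono z1 z2 ?_) hne12
    by_contra hcon
    exact hz1m z2 (not_le.1 hcon) ((hDBe z2 K0).2 hz2K)
  have hR1 : RR (mi act z1) := by
    refine ⟨K0, hK0, hz1', fun i' hi' h => ?_⟩
    obtain ⟨x, hx⟩ := hDBx i' K0 hK0 h
    refine hz1m x (hlt x z1 (by rw [hx]; exact hi')) ((hDBe x K0).2 ?_)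
    rw [hx]
    exact h
  have hR2 : ∀ i', mi act z1 < i' → i' < mi act z2 → ¬ RR i' := by
    rintro i' h1 h2 ⟨k, hk, h3, h4⟩
    rcases le_or_gt k ρ with h5 | h5
    · exact h4 _ h1 (hDBm _ _ _ hk h5 hρ')
    · have h6 : DB i' (ρ + 1) := hDBm _ _ _ le_add_self (succ_le_iff.2 h5) h3
      obtain ⟨x, hx⟩ := hDBx i' _ le_add_self h6
      refine hz2m x (hlt x z2 (by rw [hx]; exact h2)) ((hDBe x (ρ + 1)).2 ?_)
      rw [hx]
      exact h6
  -- far points
  obtain ⟨b', hb'⟩ := hMF.unb (mi act z2) (hMF.inA z2)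
  have hRc2 : ∀ z, mi act z2 < mi act z →
      Rc (z, mi act z2) = un (Rc (z, mi act z1)) (sg (mi act z1)) := by
    intro z hz
    refine fext fun x => ?_
    rw [hRcR z _ hz.le, el_un, hRcR z _ (h12.trans hz).le, el_sg]
    constructor
    · rintro ⟨h1, h2⟩
      rcases lt_trichotomy x (mi act z1) with h3 | h3 | h3
      · exact Or.inl ⟨h3, h2⟩
      · exact Or.inr h3
      · exact absurd h2 (hR2 x h3 h1)
    · rintro (⟨h1, h2⟩ | h1)
      · exact ⟨h1.trans h12, h2⟩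
      · rw [h1]
        exact ⟨h12, hR1⟩
  have hcard : ∀ z, mi act z2 < mi act z →
      card (Rc (z, mi act z2)) = card (Rc (z, mi act z1)) + 1 := by
    intro z hz
    rw [hRc2 z hz]
    refine card_ins fun h => ?_
    exact lt_irrefl _ ((hRcR z _ (h12.trans hz).le _).1 h).1
  have fin : ∀ w, mi act w ≤ mi act z2 → DB (mi act w) K0 →
      ((∃ t, t ≤ card (Rc (b', mi act w)) ∧ card (Rc (b', mi act w)) = t + t) ↔ c = true) →
      ∃ i T j, (∀ x, el x T → b < x) ∧ (∃ T', Sub T' T ∧ Tr f n false kk T') ∧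
          ∀ z, el z (F j) →
            (∀ x, el x T ↔ (x ∈ X ∧ x < z ∧ dl act x z = i ∧ f x z)) ∧
            ((∃ t, t ≤ card (Rc (z, i)) ∧ card (Rc (z, i)) = t + t) ↔ c = true) ∧
            ∀ x ∈ X, x < z → i < dl act x z → ∀ t, el t T → f t x := by
    intro w hw hwK hwc
    refine ⟨mi act w, e w, b', fun x hx => ?_, ?_, fun z hz => ?_⟩
    · by_contra hcon
      have h1 := hMF.mono x b (not_lt.1 hcon)
      rw [((hel w x).1 hx).2.2] at h1
      exact hnoK _ h1 hwK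
    · exact (hDBe w kk).2 (hDBm _ _ _ hkk hK0k hwK)
    · have hz2 : mi act z2 < mi act z := hb' z (hF.le hz)
      have hwz : mi act w < mi act z := lt_of_le_of_lt hw hz2
      refine ⟨fun x => ?_, ?_, fun x hxX hxz hi t ht => ?_⟩
      · rw [hel w x, ← hGB z (mi act w) x hwz, hG' (z, mi act w) x]
        exact ⟨fun h => ⟨h.2.1, h.1, h.2.2.1, h.2.2.2⟩, fun h => ⟨h.2.1, h.1, h.2.2.1, h.2.2.2⟩⟩
      · rw [hRce z b' (mi act w) hwz.le (le_trans hw (hb' b' le_rfl).le)]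
        exact hwc
      · have h1 : mi act w < mi act x := by
          rw [hMF.mi_min x z hxz]
          exact lt_min hi hwz
        have h2 := (hel w t).1 ht
        have h3 : mi act t < mi act x := by
          rw [h2.2.2]
          exact h1
        exact (hN.tru t x (hlt t x h3) (ne_of_lt h3)).2 h2.2.1
  by_cases hpar : ((∃ t, t ≤ card (Rc (b', mi act z1)) ∧
      card (Rc (b', mi act z1)) = t + t) ↔ c = true)
  · exact fin z1 h12.le hz1' hpar
  · refine fin z2 le_rfl hz2K ?_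
    rw [hcard b' (hb' b' le_rfl), gv1_par]
    by_cases hc : c = true
    · refine iff_of_true (fun h => hpar (iff_of_true h hc)) hc
    · refine iff_of_false (fun h => hpar (iff_of_false h hc)) hc

end RT22P
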