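import Pool.Agent.RTP.GDefs

/-!
# The views as labels
-/

set_option autoImplicit false

namespace RT22P

open Env

theorem view (hA : StAgree) : StView := by
  intro M _ f hbad act E X k hC u hu huk hLow
  have hf := hbad.comp
  have hcp : ∀ {x y u v : M}, (Pre.cp (x, y) : M) = Pre.cp (u, v) → x = u ∧ y = v := by
    intro x y u v he
    have h1 := (Pre.cp (M := M)).injective he
    exact ⟨congrArg Prod.fst h1, congrArg Prod.snd h1⟩
  obtain ⟨g, hg, hg'⟩ := lc_code (M := M) (Γ := M) (b := fun x => u x + 1)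
    (P := fun x v => f v x) (by fun_prop)
    (Comp.lc (comp_comp (fun q : M × M => f q.1 q.2) (fun q : M × M => (q.2, q.1)) hf
      (by fun_prop)))
  have hgel : ∀ x v, el v (g x) ↔ v ≤ u x ∧ f v x := fun x v => by
    rw [hg' x v, lt_succ]
  refine ⟨g, hg, hgel, hC.is, hC.lcE, ?_, hC.dense, fun x hx y hy hxy =>
    hC.fin x hx y hy (hcp hxy).1, fun F w hF hw hFX => ?_⟩
  · have := hC.lck
    fun_prop
  obtain ⟨J, hJ, hJm, hJ'⟩ := hA M f hbad E X u hLow F w hF hw hFX
  obtain ⟨K, hK, hK'⟩ := hC.nc (fun j => F (J j)) (fun j => w (J j))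
    ⟨comp_comp F J hF.comp hJ, fun j => hF.ne _, fun i j hij x y hx hy =>
      hF.lt _ _ (hJm i j hij) x y hx hy⟩ (comp_comp w J hw hJ) (fun j => hFX (J j))
  refine ⟨J '' K, is_image hK hJ hJm, ?_⟩
  rintro _ ⟨j, hj, rfl⟩ hEw x hx
  have hkx : k x = k (w (J j)) := hK' j hj hEw x hx
  have hux : u x = u (w (J j)) :=
    huk x ((hFX (J j)).1 x hx) _ ((hFX (J j)).1 _ (hFX (J j)).2) hkx
  have hgx : g x = g (w (J j)) := by
    refine fext fun v => ?_
    rw [hgel x v, hgel (w (J j)) v, hux]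
    exact and_congr_right fun hv => (hJ' j hEw x hx).2 v hv
  show (Pre.cp (k x, g x) : M) = Pre.cp (k (w (J j)), g (w (J j)))
  rw [hkx, hgx]

end RT22P
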