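import Pool.Agent.RTP.GDefs

/-!
# From the failure for `n + 1` to a world in normal form
-/

set_option autoImplicit false

namespace RT22P

open Env

/-- without `true`-cliques of size `r` there are `false`-cliques of all sizes -/
private theorem gwld_av {M : Type} [EnvB M] {g : M → M → Prop}
    (hg : Comp M (fun q : M × M => g q.1 q.2)) {r : M}
    (hno : ∀ a, ¬ Tr g (0 + 1) true r a) {Y : Set M} (hY : IS Y) (R : M) :
    ∃ a, FS a Y ∧ Tr g 1 false R a := by
  classical
  obtain ⟨N, hN⟩ := ramsey (M := M) (r + R) (1 + 1)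
  obtain ⟨a, haY, hac, _⟩ := exists_fin hY 0 N
  have hc : Comp M (fun q : M × M => if g q.1 q.2 then (1 : M) else 0) :=
    comp_ite hg (by fun_prop) (by fun_prop)
  obtain ⟨b, hba, hbc, i, hi⟩ := hN a (fun x y => if g x y then (1 : M) else 0) (by rw [hac]) hc
    (fun x y _ _ _ => by
      show (if g x y then (1 : M) else 0) < 1 + 1
      split_ifs
      · exact lt_self_succ 1
      · exact lt_of_le_of_lt (zero_le' 1) (lt_self_succ 1))
  by_cases h1 : i = 1
  · exfalso
    obtain ⟨d, hd, hdc⟩ := exists_sub_card (a := b) (k := r) (by rw [hbc]; exact le_self_add)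
    refine hno d (isum_clq.2 ⟨fun x hx y hy hxy => ?_, hdc⟩)
    have h2 := hi x y (hd x hx) (hd y hy) hxy
    rw [h1] at h2
    refine iff_of_true ?_ rfl
    by_contra h3
    have h4 : (if g x y then (1 : M) else 0) = 1 := h2
    rw [if_neg h3] at h4
    exact zero_ne_one h4
  · obtain ⟨d, hd, hdc⟩ := exists_sub_card (a := b) (k := R) (by rw [hbc]; exact le_add_self)
    refine ⟨d, fun x hx => haY x (hba x (hd x hx)), isum_clq.2 ⟨fun x hx y hy hxy => ?_, hdc⟩⟩
    refine iff_of_false ?_ (by simp)
    intro h3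
    have h2 : (if g x y then (1 : M) else 0) = i := hi x y (hd x hx) (hd y hy) hxy
    rw [if_pos h3] at h2
    exact h1 h2.symm

theorem wld (hN : StNorm) (hT : StTrMap) : StWld := by
  intro M _ q hq hI n hav f X hbad r hr hno
  obtain ⟨e, he, hem, heX, act, a, hNice⟩ := hN M q hq hI f X hbad
  have hg := hNice.bad.comp
  have hno' : ∀ b, ¬ Tr (fun x y => f (e x) (e y)) (n + 1) true r b := by
    intro b hb
    obtain ⟨d, hd, hdb⟩ := hT M f e hbad.comp he hem (n + 1) true r b hb
    refine hno ⟨d, fun y hy => ?_, hd⟩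
    obtain ⟨x, _, rfl⟩ := hdb y hy
    exact heX x
  rcases Nat.eq_zero_or_pos n with h0 | hpos
  · subst h0
    refine ⟨_, act, a, 1, hNice, le_rfl, hr, fun Y hY R _ => gwld_av hg hno' hY R, fun b hb => ?_⟩
    obtain ⟨E, hE, hE1, hE2, hE3, _⟩ := isum_elim hg (show Isum (fun x y => f (e x) (e y)) true
      (Tr (fun x y => f (e x) (e y)) 1 false r) r b from hb)
    have hQ : Comp M (fun d : M => Tr (fun x y => f (e x) (e y)) 0 false r d) :=
      comp_comp (fun q : M × M => Tr (fun x y => f (e x) (e y)) 0 false q.1 q.2)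
        (fun d : M => (r, d)) (comp_Tr hg 0 false) (by fun_prop)
    obtain ⟨d, _, hd⟩ := isum_sub (c := true) hg hQ hE (r := r) (a := b) (I := ivl 0 r) hE3
      (fun i hi => (hE1 i hi).2) (fun i hi => by
        have hi' := (el_ivl.1 hi).2
        obtain ⟨x, hx⟩ := hE2 i hi'
        refine ⟨hi', sg x, fun y hy => ?_, tr_zero, x, el_sg.2 rfl⟩
        rw [el_sg.1 hy]
        exact hx) (by
        have h1 := card_ivl (zero_le' r)
        rw [add_zero] at h1
        rw [h1])
    exact hno' d hd
  · refine ⟨_, act, a, n, hNice, hpos, hr, fun Y hY R hR => ?_, hno'⟩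
    exact hav false _ Y (hNice.bad.mono hY (Set.subset_univ Y)) R hR

end RT22P
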