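import Pool.Agent.RTP.GMi
import Pool.Agent.RTP.GCut
import Pool.Agent.RTP.GNC
import Pool.Agent.RTP.GDec
import Pool.Agent.RTP.GAct
import Pool.Agent.RTP.GThin
import Pool.Agent.RTP.GPull
import Pool.Agent.RTP.GNorm
import Pool.Agent.RTP.GCls
import Pool.Agent.RTP.GCuts
import Pool.Agent.RTP.GCutX
import Pool.Agent.RTP.GAgree
import Pool.Agent.RTP.GView
import Pool.Agent.RTP.GStrong
import Pool.Agent.RTP.GTypV
import Pool.Agent.RTP.GCand
import Pool.Agent.RTP.GLowT
import Pool.Agent.RTP.GERfin
import Pool.Agent.RTP.GER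
import Pool.Agent.RTP.GV1
import Pool.Agent.RTP.GPsi
import Pool.Agent.RTP.GRob
import Pool.Agent.RTP.GCpy
import Pool.Agent.RTP.GTypQ
import Pool.Agent.RTP.GSum
import Pool.Agent.RTP.GGlob
import Pool.Agent.RTP.GTrMap
import Pool.Agent.RTP.GWld
import Pool.Agent.RTP.GFin
import Pool.Agent.RTP.GTree
import Pool.Agent.RTP.GBri

/-!
# Theorem G: assembly
-/

set_option autoImplicit false

namespace RT22P

theorem thm_nc : StNC := nc_base mi_facts
theorem thm_cls : StCls := cls mi_facts
theorem thm_c0 : StC0 := c0 mi_facts thm_nc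
theorem thm_norm : StNorm :=
  norm cut mi_facts (act_star mi_facts) (thin lemma_B thm_nc) (pull_cut mi_facts) pull_bad
theorem thm_typV : StTypV := typV strong
theorem thm_lowT : StLowT := lowT mi_facts (cand thm_cls) agree
theorem thm_er : StER := er mi_facts thm_cls cuts cutx lowu (view agree) er_fin
theorem thm_psi : StPsi :=
  psi mi_facts lemma_B strong (psiF thm_cls) (v1 mi_facts thm_c0 thm_typV)
theorem thm_typQ : StTypQ := typQ thm_typV thm_er thm_psi thm_lowT robQ
theorem thm_glob : StGlob := glob mi_facts thm_c0 thm_typQ robH robQ sum_blocks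
theorem thm_G : StFin := thm_fin (wld thm_norm tr_map) thm_glob cpyH

/-- Theorem G -/
theorem final_G {M : Type} [Zero M] [One M] [Add M] [Mul M] [LT M] {S : Set (Set M)}
    (hS : IsRCA0 S) {p : List ℕ} (hp : InG1 p ∨ InG0 p) (h : RT22p S p) : RT22 S :=
  final_bri thm_G tree1 tree0 hS hp h

end RT22P
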