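import Pool.Agent.RTP.GDefs

/-!
# Theorem G: the basic facts on `dl` and `mi`
-/

set_option autoImplicit false

namespace RT22P

open Env

variable {M : Type} [EnvB M]

private theorem gmi_dl {act : M → M} (hc : Comp M act) {x y : M} (hxy : x < y) :
    (∃ v, x < v ∧ v ≤ y ∧ act v = dl act x y) ∧ ∀ v, x < v → v ≤ y → dl act x y ≤ act v := by
  have h : ∃ z, (∃ v, x < v ∧ v ≤ y ∧ act v = z) ∧ ∀ v, x < v → v ≤ y → z ≤ act v := by
    obtain ⟨z, ⟨v, h1, h2, h3⟩, hmin⟩ := leastC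
      (P := fun z => ∃ v, v ≤ y ∧ (x < v ∧ act v = z)) (by fun_prop) ⟨act y, y, le_rfl, hxy, rfl⟩
    refine ⟨z, ⟨v, h2, h1, h3⟩, fun w hw hwy => ?_⟩
    by_contra hcon
    exact hmin _ (not_le.1 hcon) ⟨w, hwy, hw, rfl⟩
  unfold dl
  rw [dif_pos h]
  exact h.choose_spec

private theorem gmi_dl0 {act : M → M} {x y : M} (hxy : ¬ x < y) : dl act x y = 0 := by
  unfold dl
  refine dif_neg ?_
  rintro ⟨z, ⟨v, h1, h2, _⟩, _⟩
  exact hxy (lt_of_lt_of_le h1 h2)

private theorem gmi_dl_uniq {act : M → M} (hc : Comp M act) {x y z : M} (hxy : x < y)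
    (h1 : ∃ v, x < v ∧ v ≤ y ∧ act v = z) (h2 : ∀ v, x < v → v ≤ y → z ≤ act v) :
    z = dl act x y := by
  obtain ⟨⟨w, hw1, hw2, hw3⟩, h4⟩ := gmi_dl hc hxy
  obtain ⟨v, hv1, hv2, hv3⟩ := h1
  refine le_antisymm ?_ ?_
  · rw [← hw3]
    exact h2 w hw1 hw2
  · rw [← hv3]
    exact h4 v hv1 hv2

private theorem gmi_dl_comp {act : M → M} (hc : Comp M act) :
    Comp M (fun q : M × M => dl act q.1 q.2) := by
  apply comp_of_graph
  have h1 : Comp M (fun q : (M × M) × M => (q.1.1 < q.1.2 ∧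
      ((∃ v, v ≤ q.1.2 ∧ (q.1.1 < v ∧ act v = q.2)) ∧
        ∀ v, v ≤ q.1.2 → (q.1.1 < v → q.2 ≤ act v))) ∨ (¬ q.1.1 < q.1.2 ∧ q.2 = 0)) := by
    fun_prop
  refine sig_congr (sig_of_comp h1) fun q => ?_
  constructor
  · rintro (⟨h, ⟨v, hv1, hv2, hv3⟩, h2⟩ | ⟨h, h2⟩)
    · exact gmi_dl_uniq hc h ⟨v, hv2, hv1, hv3⟩ fun v h3 h4 => h2 v h4 h3
    · rw [h2, gmi_dl0 h]
  · intro h
    by_cases hq : q.1.1 < q.1.2
    · obtain ⟨⟨w, hw1, hw2, hw3⟩, h4⟩ := gmi_dl hc hq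
      refine Or.inl ⟨hq, ⟨w, hw2, hw1, ?_⟩, fun v h5 h6 => ?_⟩
      · rw [hw3, h]
      · rw [h]
        exact h4 v h6 h5
    · exact Or.inr ⟨hq, by rw [h, gmi_dl0 hq]⟩

private theorem gmi_mi {act : M → M} (hc : Comp M act) (x : M) :
    (∃ v, x < v ∧ act v = mi act x) ∧ ∀ v, x < v → mi act x ≤ act v := by
  have h : ∃ z, (∃ v, x < v ∧ act v = z) ∧ ∀ v, x < v → z ≤ act v := by
    have hs : Sig M (fun z : M => ∃ v : M, x < v ∧ act v = z) := by
      refine sig_ex (P := fun z v : M => x < v ∧ act v = z) (sig_of_comp (by fun_prop))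
    obtain ⟨z, hz, hmin⟩ := least hs ⟨act (x + 1), x + 1, lt_self_succ x, rfl⟩
    refine ⟨z, hz, fun w hw => ?_⟩
    by_contra hcon
    exact hmin _ (not_le.1 hcon) ⟨w, hw, rfl⟩
  unfold mi
  rw [dif_pos h]
  exact h.choose_spec

private theorem gmi_mi_uniq {act : M → M} (hc : Comp M act) {x z : M}
    (h1 : ∃ v, x < v ∧ act v = z) (h2 : ∀ v, x < v → z ≤ act v) : z = mi act x := by
  obtain ⟨⟨w, hw1, hw3⟩, h4⟩ := gmi_mi hc x
  obtain ⟨v, hv1, hv3⟩ := h1
  refine le_antisymm ?_ ?_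
  · rw [← hw3]
    exact h2 w hw1
  · rw [← hv3]
    exact h4 v hv1

private theorem gmi_min {act : M → M} (hc : Comp M act) {x y : M} (hxy : x < y) :
    mi act x = min (dl act x y) (mi act y) := by
  obtain ⟨⟨u, hu1, hu2, hu3⟩, hd⟩ := gmi_dl hc hxy
  obtain ⟨⟨w, hw1, hw3⟩, hm⟩ := gmi_mi hc y
  refine (gmi_mi_uniq hc ?_ fun v hv => ?_).symm
  · rcases le_total (dl act x y) (mi act y) with h | h
    · rw [min_eq_left h]
      exact ⟨u, hu1, hu3⟩
    · rw [min_eq_right h]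
      exact ⟨w, hxy.trans hw1, hw3⟩
  · rcases le_or_gt v y with h | h
    · exact le_trans (min_le_left _ _) (hd v hv h)
    · exact le_trans (min_le_right _ _) (hm v h)

private theorem gmi_inA {act : M → M} {a : M} (hA : Act act a) (x : M) :
    InA act (mi act x) := by
  rcases zero_or_succ (mi act x) with h | ⟨j, h⟩
  · rw [h]
    exact hA.zero
  · rw [h]
    refine hA.succ j ⟨x + 1, fun v hv => ?_⟩
    have h1 := (gmi_mi hA.comp x).2 v (succ_le_iff.1 hv)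
    rw [h] at h1
    exact succ_le_iff.1 h1

private theorem gmi_lc {act : M → M} (hc : Comp M act) : LC M (mi act) := by
  have hs : Sig M (fun q : M × M => ∃ v : M, q.1 < v ∧ act v = q.2) :=
    sig_ex (P := fun (q : M × M) (v : M) => q.1 < v ∧ act v = q.2) (sig_of_comp (by fun_prop))
  obtain ⟨F, hF, hF'⟩ := lc_search (M := M) (Γ := M) (P := fun x z => ∃ v, x < v ∧ act v = z)
    hs.lc (fun x => ⟨act (x + 1), x + 1, lt_self_succ x, rfl⟩)
  refine lc_congr hF fun x => gmi_mi_uniq hc (hF' x).1 fun v hv => ?_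
  by_contra hcon
  exact (hF' x).2 _ (not_le.1 hcon) ⟨v, hv, rfl⟩

private theorem gmi_bd {act : M → M} {a : M} (hA : Act act a) :
    ∃ bd : M → M, LC M bd ∧ ∀ x z, mi act x = mi act z → x < bd z ∧ bd x = bd z := by
  have hc := hA.comp
  have hs : LC M (fun q : M × M => ∀ v : M, q.2 ≤ v → q.1 < act v) := by
    refine Sig.lcn ?_
    have h1 : Sig M (fun q : M × M => ∃ v : M, q.2 ≤ v ∧ act v ≤ q.1) :=
      sig_ex (P := fun (q : M × M) (v : M) => q.2 ≤ v ∧ act v ≤ q.1) (sig_of_comp (by fun_prop))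
    refine sig_congr h1 fun q => ?_
    push Not
    rfl
  have hs' : LC M (fun q : M × M => ∀ v : M, q.2 ≤ v → mi act q.1 < act v) :=
    lc_l2 (h := fun i b : M => ∀ v : M, b ≤ v → i < act v) hs
      (lc_comp (mi act) (fun q : M × M => q.1) (gmi_lc hc) (by fun_prop)) (by fun_prop)
  obtain ⟨F, hF, hF'⟩ := lc_search (M := M) (Γ := M)
    (P := fun x b => ∀ v, b ≤ v → mi act x < act v) hs' (fun x => gmi_inA hA x)
  refine ⟨F, hF, fun x z hxz => ⟨?_, ?_⟩⟩
  · obtain ⟨v, hv1, hv2⟩ := (gmi_mi hc x).1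
    by_contra hcon
    have h1 := (hF' z).1 v (le_trans (not_lt.1 hcon) hv1.le)
    rw [hv2, hxz] at h1
    exact lt_irrefl _ h1
  · refine le_antisymm ?_ ?_
    · by_contra hcon
      refine (hF' x).2 _ (not_le.1 hcon) ?_
      rw [hxz]
      exact (hF' z).1
    · by_contra hcon
      refine (hF' z).2 _ (not_le.1 hcon) ?_
      rw [← hxz]
      exact (hF' x).1

theorem mi_facts : StMi := by
  intro M _ act a hA
  have hc := hA.comp
  have hmono : ∀ x y, x ≤ y → mi act x ≤ mi act y := by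
    intro x y hxy
    rcases lt_or_eq_of_le hxy with h | h
    · rw [gmi_min hc h]
      exact min_le_right _ _
    · rw [h]
  have hsep : ∀ x y, x < y → mi act x ≠ mi act y →
      dl act x y = mi act x ∧ mi act x < mi act y := by
    intro x y hxy hne
    have h1 := gmi_min hc hxy
    have h2 : mi act x < mi act y := lt_of_le_of_ne (hmono x y hxy.le) hne
    refine ⟨?_, h2⟩
    rcases le_total (dl act x y) (mi act y) with h | h
    · rw [min_eq_left h] at h1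
      exact h1.symm
    · rw [min_eq_right h] at h1
      exact absurd h1 hne
  refine ⟨fun x y h => (gmi_dl hc h).1, fun x y v h1 h2 =>
    (gmi_dl hc (lt_of_lt_of_le h1 h2)).2 v h1 h2, gmi_dl_comp hc, fun x => (gmi_mi hc x).1,
    fun x => (gmi_mi hc x).2, hmono, fun x y h => gmi_min hc h, ?_, gmi_inA hA, ?_, hsep, ?_,
    gmi_lc hc, gmi_bd hA⟩
  · intro x y z hxy hyz
    obtain ⟨⟨u, hu1, hu2, hu3⟩, hd⟩ := gmi_dl hc hxy
    obtain ⟨⟨w, hw1, hw2, hw3⟩, hd'⟩ := gmi_dl hc hyz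
    refine (gmi_dl_uniq hc (hxy.trans hyz) ?_ fun v hv hvz => ?_).symm
    · rcases le_total (dl act x y) (dl act y z) with h | h
      · rw [min_eq_left h]
        exact ⟨u, hu1, hu2.trans hyz.le, hu3⟩
      · rw [min_eq_right h]
        exact ⟨w, hxy.trans hw1, hw2, hw3⟩
    · rcases le_or_gt v y with h | h
      · exact le_trans (min_le_left _ _) (hd v hv h)
      · exact le_trans (min_le_right _ _) (hd' v h hvz)
  · rintro i ⟨b, hb⟩
    refine ⟨b, fun x hx => ?_⟩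
    obtain ⟨v, hv1, hv2⟩ := (gmi_mi hc x).1
    rw [← hv2]
    exact hb v (le_trans hx hv1.le)
  · intro x y hxy
    have h1 := gmi_min hc hxy
    obtain ⟨⟨w, hw1, hw3⟩, hm⟩ := gmi_mi hc y
    constructor
    · intro h
      refine ⟨w, hw1, ?_⟩
      rw [hw3, ← h, h1]
      exact min_le_left _ _
    · rintro ⟨v, hv1, hv2⟩
      rw [h1]
      exact min_eq_right (le_trans (hm v hv1) hv2)

end RT22P
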