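import Pool.Agent.RTP.St

/-!
# RTP: generators

The fundamental group is generated by finitely many elements.
-/

set_option autoImplicit false

namespace Pool.Agent.RTP

open Pool.Agent.LGP (F)

theorem exists_gens (g n : ℕ) :
    ∃ (m : ℕ) (c : Fin m → F g n), Subgroup.closure (Set.range c) = ⊤ := by
  refine ⟨_, fun i => FreeGroup.of ((Fintype.equivFin ((Fin g × Bool) ⊕ Fin n)).symm i), ?_⟩
  rw [← FreeGroup.closure_range_of]
  congr 1
  ext x
  constructor
  · rintro ⟨i, rfl⟩
    exact ⟨_, rfl⟩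
  · rintro ⟨s, rfl⟩
    refine ⟨Fintype.equivFin _ s, ?_⟩
    beta_reduce
    rw [Equiv.symm_apply_apply]

end Pool.Agent.RTP
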