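import Pool.Agent.RTP.HEdge

/-!
# Cross pairs (Lemma 2)

Paper proof: RT22P_CAC_helper69.md (team-store).
-/

set_option autoImplicit false

namespace RT22P

open Env

variable {M : Type}

/-- arrays of sets with `l` elements which always have a point with limit `0` -/
def Arr [Env M] (f : M → M → Prop) (l : ℕ) : Prop :=
  ∃ E : M → M, Blk E ∧ ∀ k, card (E k) = ((l : ℕ) : M) ∧
    ∃ x, el x (E k) ∧ Lim f Set.univ false x

private theorem hcross_arr [Env M] {q : Sp} (hq : RTp M q) {f : M → M → Prop}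
    (hf : Bad f (Set.univ : Set M))
    (hT : ∀ x y, x < y → f x y → Lim f Set.univ true y → Lim f Set.univ true x) :
    ∃ l, Arr f l := by
  by_contra hna
  have H1 : ∀ (p : Sp) (Y : Set M), IS Y → Freq f Set.univ p →
      ∃ a, FS a Y ∧ Cpy f p a ∧ ∀ x, el x a → Lim f Set.univ true x := by
    intro p Y hY hp
    by_contra hcon
    obtain ⟨E, hE, hE'⟩ := Freq.blk hf.comp (hp.mono (Set.subset_univ Y)) hY
    refine hna ⟨p.size, E, hE, fun k => ⟨(hE' k).2.card, ?_⟩⟩
    by_contra h1
    refine hcon ⟨E k, (hE' k).1, (hE' k).2, fun x hx => ?_⟩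
    obtain ⟨c, hc⟩ := hf.stab x (Set.mem_univ x)
    cases c with
    | true => exact hc
    | false => exact absurd ⟨x, hx, hc⟩ h1
  have Hsum : ∀ (c : Bool) (p p' : Sp), (∀ Y : Set M, IS Y → ∃ a, FS a Y ∧ Cpy f p a ∧
      ∀ x, el x a → Lim f Set.univ c x) → Freq f Set.univ p' →
        Freq f Set.univ (.op c p p') := by
    intro c p p' h h' Y hY hYX
    obtain ⟨b, hb, hpb, hlim⟩ := h Y hY
    obtain ⟨B, hB⟩ := hpb.settle hlim
    obtain ⟨d, hd, hqd, hgt⟩ := (h'.mono hYX).above hY (B + b)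
    refine ⟨un b d, fun x hx => ?_, cpy_op hpb hqd fun x hx y hy => ?_⟩
    · rcases el_un.1 hx with h1 | h1
      · exact hb x h1
      · exact hd x h1
    · have h1 := hgt y hy
      exact ⟨lt_trans (el_lt hx) (lt_of_le_of_lt le_add_self h1),
        hB x hx y (Set.mem_univ y) (le_of_lt (lt_of_le_of_lt le_self_add h1))⟩
  have Hpt : Freq f Set.univ .pt := by
    intro Y hY _
    obtain ⟨x, hx, _⟩ := hY.unb 0
    refine ⟨sg x, fun y hy => ?_, cpy_pt x⟩
    rw [el_sg.1 hy]
    exact hx
  have H0 : ∀ (p : Sp) (Y : Set M), IS Y → Freq f Set.univ p →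
      ∃ a, FS a Y ∧ Cpy f p a ∧ ∀ x, el x a → Lim f Set.univ false x := by
    intro p Y hY hp
    have h1 : Freq f Set.univ (.op true .pt p) :=
      Hsum true .pt p (fun Z hZ => H1 .pt Z hZ Hpt) hp
    obtain ⟨E, hE, hE'⟩ := Freq.blk hf.comp (h1.mono (Set.subset_univ Y)) hY
    have hEc := hE.comp
    have hmn : Comp M (fun k => mn (E k)) := by fun_prop
    have hm : ∀ k, mn (E k) < mn (E (k + 1)) := by
      intro k
      obtain ⟨x, hx⟩ := hE.ne k
      obtain ⟨y, hy⟩ := hE.ne (k + 1)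
      exact hE.lt k (k + 1) (lt_self_succ k) _ _ (el_mn hx) (el_mn hy)
    obtain ⟨hZ, _⟩ := is_range hmn hm
    obtain ⟨x, ⟨k, hk⟩, hx⟩ := hf.ex hZ (Set.subset_univ _) false
    obtain ⟨b, _, d, hd, hbd, ⟨z, _, hbz⟩, hpd, hlt⟩ := (hE' k).2
    have hzb : el z b := by
      rw [hbz]
      exact el_sg.2 rfl
    have hzE : el z (E k) := by
      rw [hbd]
      exact el_un.2 (Or.inl hzb)
    have hxz : x = z := by
      have h2 : el (mn (E k)) (E k) := el_mn hzE
      have h3 : mn (E k) ≤ z := mn_le hzE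
      have hk' : mn (E k) = x := hk
      rw [hk'] at h2 h3
      rw [hbd] at h2
      rcases el_un.1 h2 with h4 | h4
      · rw [hbz] at h4
        exact el_sg.1 h4
      · exact absurd (hlt z hzb x h4).1 (not_lt.2 h3)
    rw [hxz] at hx
    refine ⟨d, fun y hy => (hE' k).1 y (hd y hy), hpd, fun y hy => ?_⟩
    obtain ⟨c, hc⟩ := hf.stab y (Set.mem_univ y)
    cases c with
    | false => exact hc
    | true =>
      exfalso
      obtain ⟨h2, h3⟩ := hlt z hzb y hy
      have h4 := Lim.unique hf.is hx (hT z y h2 (h3.2 rfl) hc)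
      exact absurd h4 (by simp)
  have Hall : ∀ p : Sp, Freq f Set.univ p := by
    intro p
    induction p with
    | pt => exact Hpt
    | op c a b iha ihb =>
      cases c with
      | true => exact Hsum true a b (fun Y hY => H1 a Y hY iha) ihb
      | false => exact Hsum false a b (fun Y hY => H0 a Y hY iha) ihb
  exact RTp.not_freq hq hf.comp hf.is (Hall q)

/-- Lemma 2: there is a pair of colour `1` with limits `0` and `1` -/
theorem cross [EnvB M] {q : Sp} (hq : RTp M q) (hI : ¬ I2 M) {f : M → M → Prop}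
    (hf : Bad f (Set.univ : Set M)) :
    ∃ x y, x < y ∧ Lim f Set.univ false x ∧ Lim f Set.univ true y ∧ f x y := by
  classical
  by_contra hcon
  have hT : ∀ x y, x < y → f x y → Lim f Set.univ true y → Lim f Set.univ true x := by
    intro x y hxy h1 h2
    obtain ⟨c, hc⟩ := hf.stab x (Set.mem_univ x)
    cases c with
    | true => exact hc
    | false => exact absurd ⟨x, y, hxy, hc, h2, h1⟩ hcon
  have hex := hcross_arr hq hf hT
  obtain ⟨E, hE, hE'⟩ := Nat.find_spec hex
  have hmin : ∀ m, m < Nat.find hex → ¬ Arr f m := fun m hm => Nat.find_min hex hm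
  have hEc := hE.comp
  have hmn : Comp M (fun k => mn (E k)) := by fun_prop
  have hmE : ∀ k, el (mn (E k)) (E k) := fun k => by
    obtain ⟨x, hx⟩ := hE.ne k
    exact el_mn hx
  have hmono : ∀ i j, i < j → mn (E i) < mn (E j) := fun i j hij =>
    hE.lt i j hij _ _ (hmE i) (hmE j)
  -- the size is at least two
  obtain ⟨m, hlm, hm1⟩ : ∃ m, Nat.find hex = m + 1 ∧ 1 ≤ m := by
    rcases Nat.lt_or_ge (Nat.find hex) 2 with h | h
    · exfalso
      have hle : card (E 0) ≤ 1 := by
        rw [(hE' 0).1]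
        have : Nat.find hex ≤ 1 := by omega
        exact_mod_cast this
      have hle' : ∀ k, card (E k) ≤ 1 := fun k => by
        rw [(hE' k).1, ← (hE' 0).1]
        exact hle
      obtain ⟨x, ⟨k, hk⟩, hx⟩ := hf.ex (is_range hmn fun k => hmono _ _ (lt_self_succ k)).1
        (Set.subset_univ _) true
      have hk' : mn (E k) = x := hk
      obtain ⟨y, hy, hyl⟩ := (hE' k).2
      have hsub : Sub (sg (mn (E k))) (E k) := fun z hz => by
        rw [el_sg.1 hz]
        exact hmE k
      have heq : sg (mn (E k)) = E k := by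
        refine card_eq_of_sub hsub ?_
        rw [card_sg]
        exact hle' k
      rw [← heq, el_sg, hk'] at hy
      rw [hy] at hyl
      exact absurd (Lim.unique hf.is hyl hx) (by simp)
    · exact ⟨Nat.find hex - 1, by omega, by omega⟩
  -- the sets without their least elements
  have hC : Comp M (fun k => sdf (E k) (sg (mn (E k)))) := by fun_prop
  have hcardC : ∀ k, card (sdf (E k) (sg (mn (E k)))) = ((m : ℕ) : M) := by
    intro k
    have h1 := card_sdf (a := E k) (b := sg (mn (E k))) (fun z hz => by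
      rw [el_sg.1 hz]
      exact hmE k)
    rw [card_sg, (hE' k).1, hlm, Nat.cast_add, Nat.cast_one] at h1
    exact add_right_cancel h1
  have hneC : ∀ k, ∃ x, el x (sdf (E k) (sg (mn (E k)))) := by
    intro k
    rw [← card_pos, hcardC k]
    exact_mod_cast hm1
  have hltr := lc_tr hf
  have hlc : LC M (fun k => ∀ x, el x (sdf (E k) (sg (mn (E k)))) → tr f x) := by
    refine lc_allel (fun k => sdf (E k) (sg (mn (E k)))) (fun _ x => tr f x) hC.lc ?_
    exact lc_comp (fun x => tr f x) (fun q : M × M => q.2) hltr (by fun_prop)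
  have hdn : ∀ Y : Set M, IS Y → ∃ k ∈ Y, ∀ x, el x (sdf (E k) (sg (mn (E k)))) → tr f x := by
    intro Y hY
    by_contra hno
    obtain ⟨e, he, hem, heY, _⟩ := hE.sub hY
    refine hmin m (by omega) ⟨fun k => sdf (E (e k)) (sg (mn (E (e k)))),
      ⟨comp_comp (fun k => sdf (E k) (sg (mn (E k)))) e hC he, fun k => hneC (e k),
        fun k l hkl x y hx hy => hE.lt _ _ (hem _ _ hkl) x y (el_sdf.1 hx).1 (el_sdf.1 hy).1⟩,
      fun k => ⟨hcardC (e k), ?_⟩⟩
    by_contra h1
    refine hno ⟨e k, heY k, fun x hx => ?_⟩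
    obtain ⟨c, hc⟩ := hf.stab x (Set.mem_univ x)
    cases c with
    | true => exact hc
    | false => exact absurd ⟨x, hx, hc⟩ h1
  -- the colouring
  have hgc : Comp M (fun q : M × M => ∀ y, el y (E q.2) → f (mn (E q.1)) y) := by
    have hfc := hf.comp
    refine comp_allel (fun q : M × M => E q.2) (fun q y => f (mn (E q.1)) y) (by fun_prop) ?_
    exact comp_comp (fun q : M × M => f q.1 q.2) (fun q : (M × M) × M => (mn (E q.1.1), q.2)) hfc
      (by fun_prop)
  have hlim : ∀ k c, Lim f Set.univ c (mn (E k)) →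
      Lim (fun k l => ∀ y, el y (E l) → f (mn (E k)) y) Set.univ c k := by
    rintro k c ⟨b, hb⟩
    refine ⟨b, fun l _ hl => ?_⟩
    obtain ⟨z, hz⟩ := hE.ne l
    have h1 : ∀ y, el y (E l) → (f (mn (E k)) y ↔ c = true) := fun y hy =>
      hb y (Set.mem_univ y) (le_trans hl (hE.le hy))
    exact ⟨fun h => (h1 z hz).1 (h z hz), fun h y hy => (h1 y hy).2 h⟩
  have hg : Bad (fun k l => ∀ y, el y (E l) → f (mn (E k)) y) (Set.univ : Set M) := by
    refine ⟨hgc, is_univ, fun k _ => ?_, fun Y hY _ c hc => ?_⟩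
    · obtain ⟨c, h⟩ := hf.stab (mn (E k)) (Set.mem_univ _)
      exact ⟨c, hlim k c h⟩
    · obtain ⟨x, ⟨k, hk, hkx⟩, hx⟩ := hf.ex (is_image hY hmn hmono) (Set.subset_univ _) (!c)
      have hkx' : mn (E k) = x := hkx
      rw [← hkx'] at hx
      have h1 := Lim.unique is_univ (hlim k _ hx) (hc k hk)
      cases c <;> simp at h1
  obtain ⟨k, l, hkl, hk, hl, h⟩ := edges hq hI hg hlc hdn true
  have h' : ∀ y, el y (E l) → f (mn (E k)) y := h.2 rfl
  obtain ⟨y, hy⟩ := hneC l
  have hyE : el y (E l) := (el_sdf.1 hy).1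
  have h1 : Lim f Set.univ true (mn (E k)) :=
    hT _ y (hE.lt k l hkl _ _ (hmE k) hyE) (h' y hyE) (hl y hy)
  obtain ⟨z, hz, hzl⟩ := (hE' k).2
  have h2 : Lim f Set.univ true z := by
    by_cases hzm : z = mn (E k)
    · rw [hzm]
      exact h1
    · exact hk z (el_sdf.2 ⟨hz, fun h3 => hzm (el_sg.1 h3)⟩)
  exact absurd (Lim.unique hf.is hzl h2) (by simp)

end RT22P
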