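import Pool.Agent.RTP.GMain

/-!
# Pairs of both colours in dense limit computable sets (Lemma 1)

Paper proof: RT22P_CAC_helper69.md (team-store).
-/

set_option autoImplicit false

namespace RT22P

open Env

variable {M : Type}

/-- without `true`-cliques of size `r` there are `false`-cliques of all sizes -/
private theorem hedge_av [EnvB M] {g : M → M → Prop}
    (hg : Comp M (fun q : M × M => g q.1 q.2)) {r : M}
    (hno : ∀ a, ¬ Tr g (0 + 1) true r a) {Y : Set M} (hY : IS Y) (R : M) :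
    ∃ a, FS a Y ∧ Tr g 1 false R a := by
  classical
  obtain ⟨N, hN⟩ := ramsey (M := M) (r + R) (1 + 1)
  obtain ⟨a, haY, hac, _⟩ := exists_fin hY 0 N
  have hc : Comp M (fun q : M × M => if g q.1 q.2 then (1 : M) else 0) :=
    comp_ite hg (by fun_prop) (by fun_prop)
  obtain ⟨b, hba, hbc, i, hi⟩ := hN a (fun x y => if g x y then (1 : M) else 0) (by rw [hac]) hc
    (fun x y _ _ _ => by
      show (if g x y then (1 : M) else 0) < 1 + 1
      split_ifs
      · exact lt_self_succ 1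
      · exact lt_of_le_of_lt (zero_le' 1) (lt_self_succ 1))
  by_cases h1 : i = 1
  · exfalso
    obtain ⟨d, hd, hdc⟩ := exists_sub_card (a := b) (k := r) (by rw [hbc]; exact le_self_add)
    refine hno d (isum_clq.2 ⟨fun x hx y hy hxy => ?_, hdc⟩)
    have h2 := hi x y (hd x hx) (hd y hy) hxy
    rw [h1] at h2
    refine iff_of_true ?_ rfl
    by_contra h3
    have h4 : (if g x y then (1 : M) else 0) = 1 := h2
    rw [if_neg h3] at h4
    exact zero_ne_one h4
  · obtain ⟨d, hd, hdc⟩ := exists_sub_card (a := b) (k := R) (by rw [hbc]; exact le_add_self)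
    refine ⟨d, fun x hx => haY x (hba x (hd x hx)), isum_clq.2 ⟨fun x hx y hy hxy => ?_, hdc⟩⟩
    refine iff_of_false ?_ (by simp)
    intro h3
    have h2 : (if g x y then (1 : M) else 0) = i := hi x y (hd x hx) (hd y hy) hxy
    rw [if_pos h3] at h2
    exact h1 h2.symm

/-- the trees of depth `n` are available along all increasing sequences -/
def Avl [Env M] (f : M → M → Prop) (n : ℕ) : Prop :=
  ∀ e : M → M, Comp M e → (∀ i j, i < j → e i < e j) → ∀ (c : Bool) (R : M), 1 ≤ R →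
    ∃ a, Tr (fun x y => f (e x) (e y)) n c R a

private theorem hedge_world [EnvB M] {q : Sp} (hq : RTp M q) (hI : ¬ I2 M) {f : M → M → Prop}
    (hf : Bad f (Set.univ : Set M)) {n : ℕ} (hav : Avl f n) {e : M → M} (he : Comp M e)
    (hem : ∀ i j, i < j → e i < e j) {r : M} (hr : 1 ≤ r)
    (hno : ∀ a, ¬ Tr (fun x y => f (e x) (e y)) (n + 1) true r a) {E : M → Prop} (hE : LC M E)
    (hd : ∀ Y : Set M, IS Y → ∃ x ∈ Y, E x) (c : Bool) :
    ∃ x y, x < y ∧ E x ∧ E y ∧ cl f c x y := by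
  obtain ⟨hg0, _⟩ := pull_bad M f Set.univ hf e he hem (fun i => Set.mem_univ _)
  obtain ⟨e1, he1, hem1, _, act, a, hN⟩ := thm_norm M q hq hI _ _ hg0
  have hmm : ∀ i j, i < j → e (e1 i) < e (e1 j) := fun i j h => hem _ _ (hem1 _ _ h)
  have hcomp : Comp M (fun x => e (e1 x)) := comp_comp e e1 he he1
  have hg : Comp M (fun q : M × M => f (e (e1 q.1)) (e (e1 q.2))) := hN.bad.comp
  have hno1 : ∀ b, ¬ Tr (fun x y => f (e (e1 x)) (e (e1 y))) (n + 1) true r b := by
    intro b hb
    obtain ⟨d, hd, _⟩ := tr_map M (fun x y => f (e x) (e y)) e1 hg0.comp he1 hem1 (n + 1) true r b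
      hb
    exact hno d hd
  have hav1 : ∀ Y : Set M, IS Y → ∀ R, 1 ≤ R →
      ∃ a, FS a Y ∧ Tr (fun x y => f (e (e1 x)) (e (e1 y))) n false R a := by
    intro Y hY R hR
    obtain ⟨e2, he2, hem2, _, heY, _⟩ := enum hY
    obtain ⟨a, ha⟩ := hav (fun x => e (e1 (e2 x)))
      (comp_comp (fun x => e (e1 x)) e2 hcomp he2) (fun i j h => hmm _ _ (hem2 _ _ h)) false R hR
    obtain ⟨b, hb, hb'⟩ := tr_map M (fun x y => f (e (e1 x)) (e (e1 y))) e2 hg he2 hem2 n false R a
      ha
    refine ⟨b, fun y hy => ?_, hb⟩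
    obtain ⟨x, _, rfl⟩ := hb' y hy
    exact heY x
  obtain ⟨m, hW⟩ : ∃ m, Wld (fun x y => f (e (e1 x)) (e (e1 y))) m r := by
    rcases Nat.eq_zero_or_pos n with h0 | hpos
    · subst h0
      refine ⟨1, le_rfl, hr, fun Y hY R _ => hedge_av hg hno1 hY R, fun b hb => ?_⟩
      obtain ⟨E, hE, hE1, hE2, hE3, _⟩ := isum_elim hg
        (show Isum (fun x y => f (e (e1 x)) (e (e1 y))) true
        (Tr (fun x y => f (e (e1 x)) (e (e1 y))) 1 false r) r b from hb)
      have hQ : Comp M (fun d : M => Tr (fun x y => f (e (e1 x)) (e (e1 y))) 0 false r d) :=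
        comp_comp (fun q : M × M => Tr (fun x y => f (e (e1 x)) (e (e1 y))) 0 false q.1 q.2)
          (fun d : M => (r, d)) (comp_Tr hg 0 false) (by fun_prop)
      obtain ⟨d, _, hd⟩ := isum_sub (c := true) hg hQ hE (r := r) (a := b) (I := ivl 0 r) hE3
        (fun i hi => (hE1 i hi).2) (fun i hi => by
          have hi' := (el_ivl.1 hi).2
          obtain ⟨x, hx⟩ := hE2 i hi'
          refine ⟨hi', sg x, fun y hy => ?_, tr_zero, x, el_sg.2 rfl⟩
          rw [el_sg.1 hy]
          exact hx) (by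
          have h1 := card_ivl (zero_le' r)
          rw [add_zero] at h1
          rw [h1])
      exact hno1 d hd
    · exact ⟨n, hpos, hr, hav1, hno1⟩
  have hlc : LC M (fun x => E (e (e1 x))) := lc_comp E (fun x => e (e1 x)) hE hcomp.lc
  have hdn : ∀ Y : Set M, IS Y → Y ⊆ Set.univ → ∃ x ∈ Y, E (e (e1 x)) := by
    intro Y hY _
    obtain ⟨y, hy, hEy⟩ := hd _ (is_image hY hcomp hmm)
    obtain ⟨x, hx, rfl⟩ := hy
    exact ⟨x, hx, hEy⟩
  have hC : Cnd act (fun x => E (e (e1 x))) Set.univ (mi act) :=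
    thm_c0 M act a hN.cut _ _ is_univ hlc hdn
  have key : Typ1 (fun x y => f (e (e1 x)) (e (e1 y))) act c
      (Tr (fun x y => f (e (e1 x)) (e (e1 y))) m false 1) := by
    cases c with
    | true => exact thm_psi M q hq _ act a hN m r hW 1 le_rfl
    | false =>
      exact thm_er M q hq _ act a hN m r hW _ (robQ M _ hg m FQ.base)
        (fun R hR => thm_typV M q hq (bad_ncs hN.bad) _ hg act m hW.av R hR) 1 le_rfl
  obtain ⟨b, w, _, hb, hbE, _, hwE, hbw⟩ := key _ _ _ hC
  obtain ⟨x, hx⟩ := Tr.ne le_rfl hb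
  obtain ⟨h1, _, h2⟩ := hbw x hx
  exact ⟨_, _, hmm _ _ h1, hbE x hx, hwE, h2⟩

/-- Lemma 1: a dense limit computable set contains pairs of both colours -/
theorem edges [EnvB M] {q : Sp} (hq : RTp M q) (hI : ¬ I2 M) {f : M → M → Prop}
    (hf : Bad f (Set.univ : Set M)) {E : M → Prop} (hE : LC M E)
    (hd : ∀ Y : Set M, IS Y → ∃ x ∈ Y, E x) (c : Bool) :
    ∃ x y, x < y ∧ E x ∧ E y ∧ cl f c x y := by
  by_contra hcon
  have key : ∀ n, Avl f n := by
    intro n
    induction n with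
    | zero => exact fun e he hem c' R _ => ⟨sg 0, tr_zero⟩
    | succ n ih =>
      intro e he hem c' R hR
      by_contra hno
      have hno' : ∀ a, ¬ Tr (fun x y => f (e x) (e y)) (n + 1) c' R a :=
        fun a ha => hno ⟨a, ha⟩
      cases c' with
      | true => exact hcon (hedge_world hq hI hf ih he hem hR hno' hE hd c)
      | false =>
        have ih' : Avl (fun x y => ¬ f x y) n := fun e he hem c R hR => by
          obtain ⟨a, ha⟩ := ih e he hem (!c) R hR
          exact ⟨a, (tr_not (f := fun x y => f (e x) (e y)) n c R a).2 ha⟩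
        obtain ⟨x, y, hxy, hx, hy, h⟩ := hedge_world hq hI hf.not ih' he hem hR
          (fun a ha => hno' a ((tr_not (f := fun x y => f (e x) (e y)) (n + 1) true R a).1 ha))
          hE hd (!c)
        refine hcon ⟨x, y, hxy, hx, hy, ?_⟩
        unfold cl at h ⊢
        cases c <;> simp_all
  obtain ⟨n, R, hR, hcpy⟩ := Tr.cpy q
  refine RTp.not_freq hq hf.comp hf.is fun Y hY _ => ?_
  obtain ⟨e, he, hem, _, heY, _⟩ := enum hY
  obtain ⟨a, ha⟩ := key n e he hem true ((R : ℕ) : M) (by exact_mod_cast hR)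
  obtain ⟨b, hb, hb'⟩ := tr_map M f e hf.comp he hem n true _ a ha
  obtain ⟨d, hd', hdq⟩ := hcpy n le_rfl M f hf.comp true _ b le_rfl hb
  refine ⟨d, fun x hx => ?_, hdq⟩
  obtain ⟨x', _, rfl⟩ := hb' x (hd' x hx)
  exact heY x'

end RT22P
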