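import Pool.Agent.RTP.HCross

/-!
# All patterns of size 3 occur in bad colourings
-/

set_option autoImplicit false

namespace RT22P

open Env

variable {M : Type}

theorem lim_not {f : M → M → Prop} [Env M] {X : Set M} {c : Bool} {x : M} :
    Lim (fun x y => ¬ f x y) X c x ↔ Lim f X (!c) x := by
  have h : ∀ y, cl (fun x y => ¬ f x y) c x y ↔ cl f (!c) x y := by
    intro y
    unfold cl
    cases c <;> simp
  unfold Lim
  exact exists_congr fun b => forall_congr' fun y => imp_congr_right fun _ =>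
    imp_congr_right fun _ => h y

/-- all typed pairs -/
theorem pairs [EnvB M] {q : Sp} (hq : RTp M q) (hI : ¬ I2 M) {f : M → M → Prop}
    (hf : Bad f (Set.univ : Set M)) (s t c : Bool) :
    ∃ x y, x < y ∧ Lim f Set.univ s x ∧ Lim f Set.univ t y ∧ cl f c x y := by
  by_cases hcs : c = s
  · subst hcs
    obtain ⟨x, _, hx⟩ := hf.ex is_univ (Set.subset_univ _) c
    have hx' := hx
    obtain ⟨b, hb⟩ := hx'
    obtain ⟨y, hy, hyt⟩ := hf.ex (is_above is_univ (b + x)) (Set.subset_univ _) t
    have h1 : b + x < y := hy.2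
    exact ⟨x, y, lt_of_le_of_lt le_add_self h1, hx, hyt,
      hb y (Set.mem_univ y) (le_trans le_self_add h1.le)⟩
  · by_cases hst : s = t
    · subst hst
      have hlc : LC M (fun x => Lim f Set.univ s x) := by
        cases s with
        | true => exact lc_tr hf
        | false =>
          refine lc_congr (lc_not _ (lc_tr hf)) fun x => propext ⟨fun h => ?_, fun h h' => ?_⟩
          · obtain ⟨d, hd⟩ := hf.stab x (Set.mem_univ x)
            cases d with
            | true => exact absurd hd h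
            | false => exact hd
          · exact absurd (Lim.unique hf.is h h') (by simp)
      obtain ⟨x, y, hxy, hx, hy, h⟩ := edges hq hI hf hlc
        (fun Y hY => hf.ex hY (Set.subset_univ _) s) c
      exact ⟨x, y, hxy, hx, hy, h⟩
    · cases s with
      | false =>
        have ht : t = true := by cases t <;> simp_all
        have hc : c = true := by cases c <;> simp_all
        subst ht hc
        obtain ⟨x, y, hxy, hx, hy, h⟩ := cross hq hI hf
        exact ⟨x, y, hxy, hx, hy, fun _ => rfl, fun _ => h⟩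
      | true =>
        have ht : t = false := by cases t <;> simp_all
        have hc : c = false := by cases c <;> simp_all
        subst ht hc
        obtain ⟨x, y, hxy, hx, hy, h⟩ := cross hq hI hf.not
        exact ⟨x, y, hxy, lim_not.1 hx, lim_not.1 hy, fun h' => absurd h' h,
          fun h' => absurd h' (by simp)⟩

/-- all patterns of size 3 occur in a bad colouring -/
theorem pat3 [EnvB M] {q : Sp} (hq : RTp M q) (hI : ¬ I2 M) {f : M → M → Prop}
    (hf : Bad f (Set.univ : Set M)) (a b c : Bool) :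
    ∃ x y z, x < y ∧ y < z ∧ cl f a x y ∧ cl f b x z ∧ cl f c y z := by
  obtain ⟨x, y, hxy, ⟨u, hu⟩, ⟨v, hv⟩, h⟩ := pairs hq hI hf b c a
  have h1 : y < u + v + y + 1 := lt_of_le_of_lt le_add_self (lt_self_succ _)
  have h2 : u ≤ u + v + y + 1 :=
    le_trans le_self_add (le_trans le_self_add (lt_self_succ (u + v + y)).le)
  have h3 : v ≤ u + v + y + 1 :=
    le_trans le_add_self (le_trans le_self_add (lt_self_succ (u + v + y)).le)
  exact ⟨x, y, _, hxy, h1, h, hu _ (Set.mem_univ _) h2, hv _ (Set.mem_univ _) h3⟩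

/-- colourings which omit a pattern of size 3 on an infinite set -/
theorem omit3 [E : Env M] {q : Sp} (h : RTp M q) {f : M → M → Prop}
    (hf : Comp M (fun q : M × M => f q.1 q.2)) {X : Set M} (hX : IS X) (a b c : Bool)
    (hno : ∀ x ∈ X, ∀ y ∈ X, ∀ z ∈ X, x < y → y < z → ¬ (cl f a x y ∧ cl f b x z ∧ cl f c y z)) :
    ∃ H : Set M, IS H ∧ H ⊆ X ∧ ∃ d : Bool, ∀ x ∈ H, ∀ y ∈ H, x < y → cl f d x y := by
  have hB : BPi M := bpi_of_rt1 (rt1_of_rtp h)
  obtain ⟨e, he, hem, _, heX, _⟩ := enum hX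
  have hg : Comp M (fun q : M × M => f (e q.1) (e q.2)) :=
    comp_comp (fun q : M × M => f q.1 q.2) (fun q : M × M => (e q.1, e q.2)) hf (by fun_prop)
  -- a homogeneous set of the pulled back colouring is enough
  have key : ∀ Z : Set M, IS Z → ∀ d : Bool,
      (∀ x ∈ Z, ∀ y ∈ Z, x < y → cl (fun x y => f (e x) (e y)) d x y) →
      ∃ H : Set M, IS H ∧ H ⊆ X ∧ ∃ d : Bool, ∀ x ∈ H, ∀ y ∈ H, x < y → cl f d x y := by
    intro Z hZ d hd
    refine ⟨e '' Z, is_image hZ he hem, ?_, d, ?_⟩
    · rintro y ⟨x, _, rfl⟩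
      exact heX x
    · rintro x ⟨x', hx', rfl⟩ y ⟨y', hy', rfl⟩ hxy
      refine hd x' hx' y' hy' ?_
      rcases lt_trichotomy x' y' with h1 | h1 | h1
      · exact h1
      · rw [h1] at hxy
        exact absurd hxy (lt_irrefl _)
      · exact absurd (hem _ _ h1) (not_lt.2 hxy.le)
  by_cases hI : I2 M
  · obtain ⟨Z, hZ, d, hd⟩ := rtt_of_I2 h hI (fun x y => f (e x) (e y)) hg
    exact key Z hZ d hd
  · obtain ⟨Y, hY, hs⟩ := stable_red (f := fun x y => f (e x) (e y)) h hB hg
    have h1 : ∃ (Y' : Set M) (d : Bool), IS Y' ∧ Y' ⊆ Y ∧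
        ∀ x ∈ Y', Lim (fun x y => f (e x) (e y)) Y d x := by
      by_contra hcon
      have hbad : Bad (fun x y => f (e x) (e y)) Y :=
        ⟨hg, hY, hs, fun Y' hY' hYY c hc => hcon ⟨Y', c, hY', hYY, hc⟩⟩
      let _ : EnvB M := { E with bpi := hB }
      obtain ⟨e', he', hem', _, heY, _⟩ := enum hY
      obtain ⟨hb, _⟩ := pull_bad M (fun x y => f (e x) (e y)) Y hbad e' he' hem' heY
      obtain ⟨x, y, z, hxy, hyz, k1, k2, k3⟩ := pat3 h hI hb a b c
      exact hno _ (heX (e' x)) _ (heX (e' y)) _ (heX (e' z)) (hem _ _ (hem' _ _ hxy))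
        (hem _ _ (hem' _ _ hyz)) ⟨k1, k2, k3⟩
    obtain ⟨Y', d, hY', hYY, hd⟩ := h1
    obtain ⟨Z, hZ, _, hZ'⟩ := BPi.homog hB hY' (R := fun x y => cl (fun x y => f (e x) (e y)) d x y)
      (comp_cl hg d) fun x hx => by
        obtain ⟨b, hb⟩ := hd x hx
        exact ⟨b, fun y hy hby => hb y (hYY hy) hby⟩
    exact key Z hZ d hZ'

end RT22P
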