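import Pool.Agent.RTP.HPat

/-!
# `RT²₂(p)` implies `CAC` over `RCA₀`, for every separable permutation `p`
-/

set_option autoImplicit false

namespace RT22P

section

variable {M : Type} [Zero M] [One M] [Add M] [Mul M] [LT M]

/-- The colouring coded by `F` omits on `X` the pattern of size 3 with the colours `a` on the pair
(0,1), `b` on the pair (0,2) and `c` on the pair (1,2). -/
def Omits3 (F X : Set M) (a b c : Bool) : Prop :=
  ∀ x ∈ X, ∀ y ∈ X, ∀ z ∈ X, x < y → y < z →
    ¬ ((pr x y ∈ F ↔ a = true) ∧ (pr x z ∈ F ↔ b = true) ∧ (pr y z ∈ F ↔ c = true))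

/-- Ramsey's theorem for pairs and two colours for all colourings which omit at least one pattern
of size 3 on an infinite set. -/
def RT22Omit3 (S : Set (Set M)) : Prop :=
  ∀ F ∈ S, ∀ X ∈ S, Unb X → (∃ a b c : Bool, Omits3 F X a b c) →
    ∃ H ∈ S, H ⊆ X ∧ Unb H ∧
      ((∀ x ∈ H, ∀ y ∈ H, x < y → pr x y ∈ F) ∨ (∀ x ∈ H, ∀ y ∈ H, x < y → pr x y ∉ F))

/-- `P` codes a partial order of `M`: `x` is below `y` iff `pr x y ∈ P`. -/
structure IsPO (P : Set M) : Prop where
  refl : ∀ x : M, pr x x ∈ P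
  antisymm : ∀ x y : M, pr x y ∈ P → pr y x ∈ P → x = y
  trans : ∀ x y z : M, pr x y ∈ P → pr y z ∈ P → pr x z ∈ P

/-- The chain-antichain principle: every infinite partial order has an infinite chain or an
infinite antichain. -/
def CAC (S : Set (Set M)) : Prop :=
  ∀ P ∈ S, IsPO P → ∃ H ∈ S, Unb H ∧
    ((∀ x ∈ H, ∀ y ∈ H, pr x y ∈ P ∨ pr y x ∈ P) ∨
      (∀ x ∈ H, ∀ y ∈ H, x ≠ y → pr x y ∉ P))

end

open Env

private theorem hraw_comp {M : Type} [Env M] {F : Set M} (hF : F ∈ Arith.S (M := M)) :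
    Comp M (fun q : M × M => pr q.1 q.2 ∈ F) :=
  comp_comp (fun x : M => x ∈ F) (fun q : M × M => pr q.1 q.2) (Env0.c_mem hF) comp_pr

theorem raw_omit3 {M : Type} [Env M] {q : Sp} (h : RTp M q) :
    RT22Omit3 (Arith.S (M := M)) := by
  rintro F hF X hX hU ⟨a, b, c, hO⟩
  obtain ⟨H, hH, hHX, d, hd⟩ := omit3 (f := fun x y => pr x y ∈ F) h (hraw_comp hF)
    (X := X) ⟨mem_S_iff.1 hX, hU⟩ a b c (fun x hx y hy z hz hxy hyz hk =>
      hO x hx y hy z hz hxy hyz hk)
  refine ⟨H, mem_S_iff.2 hH.comp, hHX, hH.unb, ?_⟩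
  cases d with
  | true => exact Or.inl fun x hx y hy hxy => (hd x hx y hy hxy).2 rfl
  | false =>
    exact Or.inr fun x hx y hy hxy h1 => Bool.false_ne_true ((hd x hx y hy hxy).1 h1)

theorem raw_cac {M : Type} [Env M] {q : Sp} (h : RTp M q) : CAC (Arith.S (M := M)) := by
  intro P hP hO
  -- first the pairs `x < y` with `x` below `y`
  obtain ⟨X, hX, _, d, hd⟩ := omit3 (f := fun x y => pr x y ∈ P) h (hraw_comp hP)
    (X := Set.univ) is_univ true false true (fun x _ y _ z _ _ _ hk =>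
      absurd (hk.2.1.1 (hO.trans x y z (hk.1.2 rfl) (hk.2.2.2 rfl))) (by simp))
  cases d with
  | true =>
    refine ⟨X, mem_S_iff.2 hX.comp, hX.unb, Or.inl fun x hx y hy => ?_⟩
    rcases lt_trichotomy x y with h1 | h1 | h1
    · exact Or.inl ((hd x hx y hy h1).2 rfl)
    · rw [h1]
      exact Or.inl (hO.refl y)
    · exact Or.inr ((hd y hy x hx h1).2 rfl)
  | false =>
    -- then the pairs `x < y` with `y` below `x`
    have hc : Comp M (fun q : M × M => pr q.2 q.1 ∈ P) :=
      comp_comp (fun q : M × M => pr q.1 q.2 ∈ P) (fun q : M × M => (q.2, q.1)) (hraw_comp hP)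
        (by fun_prop)
    obtain ⟨Y, hY, hYX, e, he⟩ := omit3 (f := fun x y => pr y x ∈ P) h hc hX true false true
      (fun x _ y _ z _ _ _ hk =>
        absurd (hk.2.1.1 (hO.trans z y x (hk.2.2.2 rfl) (hk.1.2 rfl))) (by simp))
    refine ⟨Y, mem_S_iff.2 hY.comp, hY.unb, ?_⟩
    cases e with
    | true =>
      refine Or.inl fun x hx y hy => ?_
      rcases lt_trichotomy x y with h1 | h1 | h1
      · exact Or.inr ((he x hx y hy h1).2 rfl)
      · rw [h1]
        exact Or.inl (hO.refl y)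
      · exact Or.inl ((he y hy x hx h1).2 rfl)
    | false =>
      refine Or.inr fun x hx y hy hne h1 => ?_
      rcases lt_trichotomy x y with h2 | h2 | h2
      · exact Bool.false_ne_true ((hd x (hYX hx) y (hYX hy) h2).1 h1)
      · exact hne h2
      · exact Bool.false_ne_true ((he y hy x hx h2).1 h1)

theorem final_omit3 {M : Type} [Zero M] [One M] [Add M] [Mul M] [LT M] {S : Set (Set M)}
    (hS : IsRCA0 S) {p : List ℕ} (hp : Separable p) (h : RT22p S p) : RT22Omit3 S := by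
  obtain ⟨q, hq⟩ := exists_tree hp
  exact bridge hS (fun _ _ _ _ _ S => RT22p S p → RT22Omit3 S)
    (fun E h => raw_omit3 (rtp_of_raw hq h)) h

theorem final_cac {M : Type} [Zero M] [One M] [Add M] [Mul M] [LT M] {S : Set (Set M)}
    (hS : IsRCA0 S) {p : List ℕ} (hp : Separable p) (h : RT22p S p) : CAC S := by
  obtain ⟨q, hq⟩ := exists_tree hp
  exact bridge hS (fun _ _ _ _ _ S => RT22p S p → CAC S)
    (fun E h => raw_cac (rtp_of_raw hq h)) h

end RT22P
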