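import Mathlib

/-!
Models of second order arithmetic (M, S): the base theory RCA_0, the statements RT22 and RT22(p),
separable permutations.  Only definitions.
-/

namespace RT22P

/-- Terms of the language 0, 1, +, * with number variables `Fin n` and number parameters from `M`. -/
inductive Tm (M : Type) (n : ℕ) : Type
  | var (i : Fin n) : Tm M n
  | par (a : M) : Tm M n
  | zero : Tm M n
  | one : Tm M n
  | add (s t : Tm M n) : Tm M n
  | mul (s t : Tm M n) : Tm M n

section

variable {M : Type} [Zero M] [One M] [Add M] [Mul M] [LT M]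

/-- Value of a term. -/
def Tm.val {n : ℕ} : Tm M n → (Fin n → M) → M
  | .var i, v => v i
  | .par a, _ => a
  | .zero, _ => 0
  | .one, _ => 1
  | .add s t, v => s.val v + t.val v
  | .mul s t, v => s.val v * t.val v

/-- `D0 S n P`: the relation `P` of `n` number variables is defined by a bounded (Delta^0_0) formula
with number parameters from `M` and set parameters from `S`.  In `bex` the bounded variable is
variable 0 of the inner formula. -/
inductive D0 (S : Set (Set M)) : (n : ℕ) → ((Fin n → M) → Prop) → Prop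
  | eq {n : ℕ} (s t : Tm M n) : D0 S n (fun v => s.val v = t.val v)
  | lt {n : ℕ} (s t : Tm M n) : D0 S n (fun v => s.val v < t.val v)
  | mem {n : ℕ} (t : Tm M n) (X : Set M) (hX : X ∈ S) : D0 S n (fun v => t.val v ∈ X)
  | not {n : ℕ} {P : (Fin n → M) → Prop} (h : D0 S n P) : D0 S n (fun v => ¬ P v)
  | and {n : ℕ} {P Q : (Fin n → M) → Prop} (hP : D0 S n P) (hQ : D0 S n Q) :
      D0 S n (fun v => P v ∧ Q v)
  | bex {n : ℕ} (t : Tm M n) {P : (Fin (n + 1) → M) → Prop} (h : D0 S (n + 1) P) :
      D0 S n (fun v => ∃ x, x < t.val v ∧ P (Fin.cons x v))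

/-- `P` is defined by a Sigma^0_1 formula (with number and set parameters). -/
def Sigma1 (S : Set (Set M)) (P : M → Prop) : Prop :=
  ∃ Q : (Fin 2 → M) → Prop, D0 S 2 Q ∧ ∀ x, P x ↔ ∃ y, Q ![x, y]

/-- `P` is defined by a Sigma^0_2 formula (with number and set parameters). -/
def Sigma2 (S : Set (Set M)) (P : M → Prop) : Prop :=
  ∃ Q : (Fin 3 → M) → Prop, D0 S 3 Q ∧ ∀ x, P x ↔ ∃ y, ∀ z, Q ![x, y, z]

/-- The structure (M, S) is a model of RCA_0: Robinson arithmetic, induction for Sigma^0_1
formulas, comprehension for Delta^0_1 formulas (both with parameters). -/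
structure IsRCA0 (S : Set (Set M)) : Prop where
  succ_ne_zero : ∀ x : M, x + 1 ≠ 0
  succ_inj : ∀ x y : M, x + 1 = y + 1 → x = y
  zero_or_succ : ∀ x : M, x = 0 ∨ ∃ y, x = y + 1
  add_zero : ∀ x : M, x + 0 = x
  add_succ : ∀ x y : M, x + (y + 1) = x + y + 1
  mul_zero : ∀ x : M, x * 0 = 0
  mul_succ : ∀ x y : M, x * (y + 1) = x * y + x
  lt_iff : ∀ x y : M, x < y ↔ ∃ z, (z + 1) + x = y
  ind : ∀ P : M → Prop, Sigma1 S P → P 0 → (∀ x, P x → P (x + 1)) → ∀ x, P x
  ca : ∀ P : M → Prop, Sigma1 S P → Sigma1 S (fun x => ¬ P x) → {x | P x} ∈ S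

/-- Induction for Sigma^0_2 formulas. -/
def ISigma2 (S : Set (Set M)) : Prop :=
  ∀ P : M → Prop, Sigma2 S P → P 0 → (∀ x, P x → P (x + 1)) → ∀ x, P x

/-- The usual code of the pair (x, y). -/
def pr (x y : M) : M := (x + y) * (x + y) + x

/-- Infinite (unbounded) sets. -/
def Unb (X : Set M) : Prop := ∀ a, ∃ x ∈ X, a < x

/-- RT^2_2 in (M, S): the set F codes the colouring f(x,y) = 1 iff (x,y) in F, x < y. -/
def RT22 (S : Set (Set M)) : Prop :=
  ∀ F ∈ S, ∃ H ∈ S, Unb H ∧
    ((∀ x ∈ H, ∀ y ∈ H, x < y → pr x y ∈ F) ∨ (∀ x ∈ H, ∀ y ∈ H, x < y → pr x y ∉ F))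

/-- Some subset of `H` realizes the pattern of the permutation `p` (one-line notation):
f(x_i,x_j) = 1 iff p(i) < p(j). -/
def Realizes (F H : Set M) (p : List ℕ) : Prop :=
  ∃ g : Fin p.length → M, (∀ i j, i < j → g i < g j) ∧ (∀ i, g i ∈ H) ∧
    ∀ i j, i < j → (pr (g i) (g j) ∈ F ↔ p.get i < p.get j)

/-- RT^2_2(p) in (M, S). -/
def RT22p (S : Set (Set M)) (p : List ℕ) : Prop :=
  ∀ F ∈ S, ∃ H ∈ S, Unb H ∧ ¬ Realizes F H p

end

/-- Direct sum of two permutations in one-line notation. -/
def osum (a b : List ℕ) : List ℕ := a ++ b.map (fun x => x + a.length)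

/-- Skew sum of two permutations in one-line notation. -/
def skew (a b : List ℕ) : List ℕ := a.map (fun x => x + b.length) ++ b

/-- Separable permutations. -/
inductive Separable : List ℕ → Prop
  | one : Separable [0]
  | osum {a b : List ℕ} (ha : Separable a) (hb : Separable b) : Separable (osum a b)
  | skew {a b : List ℕ} (ha : Separable a) (hb : Separable b) : Separable (skew a b)

/-- `p` contains the pattern `q`. -/
def Contains (p q : List ℕ) : Prop :=
  ∃ g : Fin q.length → Fin p.length, StrictMono g ∧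
    ∀ i j, i < j → (q.get i < q.get j ↔ p.get (g i) < p.get (g j))

end RT22P
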