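import Pool.Agent.LGP.Psh
import Pool.Agent.LGP.Aut
import Pool.Agent.R3S.Pad

/-!
# Rank three on punctured surfaces of positive genus: definitions and statements

Helper20, for MP_0707f5_ag.  `F g n` is the fundamental group of a surface of genus `g` minus the
points `x_0, ..., x_n` (Pool/Agent/LGP/Defs.lean), `NS` are the non-separating simple loops.  Let `ρ`
be a representation of rank three over a field `K` with a discrete valuation ring `O` such that the
characteristic polynomials of the `ρ y`, `y` in `NS`, are integral with unit determinants.  We show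
that the image of `ρ` stabilises a lattice, if `g > 0`.  The tools are the theorems `R3S.arc`,
`R3S.gg`, `R3S.hel`, `R3S.thm_BAS` (Pool/Agent/R3S/Final.lean, statements in R3S/St.lean).

Conventions.  File of the module XYZ: `Pool/Agent/RTP/XYZ.lean`, `import Pool.Agent.RTP.St`,
`namespace Pool.Agent.RTP`, `theorem thm_XYZ ... : St_XYZ`; other statements may be hypotheses.
Own lemmas: private, or with names starting with `XYZ_`.
-/

set_option autoImplicit false

namespace Pool.Agent.RTP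

open Matrix
open Pool.Agent.LGP (F ga gb gx stdL stdM MC NS Mv MR)
open Helper12.Sc (Step Reach)
open _root_.R3S (Unif CP Bd)

variable {g n : ℕ}

/-- `S` is bounded in every representation of rank three which is integral on finitely many
non-separating simple loops (the list depends on `S` only). -/
def Dt (S : Set (F g n)) : Prop :=
  ∃ L : Set (F g n), L.Finite ∧ (∀ x ∈ L, NS x) ∧
    ∀ (K : Type) [Field K] (O : ValuationSubring K) (t : K), Unif O t →
      ∀ ρ : F g n →* GL (Fin 3) K, (∀ x ∈ L, CP O (ρ x)) → Bd O (ρ '' S)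

/-- non-separating simple loops and their inverses, up to conjugation -/
def NSc (x : F g n) : Prop := ∃ z c : F g n, NS z ∧ (x = c * z * c⁻¹ ∨ x = c * z⁻¹ * c⁻¹)

/-- `(A, B)` is a handle of a system of generators which is reachable from the standard one, and
`l` is a list of holes to the right of it: first components of handles, then punctures (in the
order of the system, but not all of them) -/
def Hol (A B : F g n) (l : List (F g n)) : Prop :=
  ∃ (P H : List (F g n × F g n)) (M l₁ l₂ : List (F g n)),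
    MR (stdL g n, stdM g n) (P ++ (A, B) :: H, M) ∧ l = l₁ ++ l₂ ∧
      l₁.Sublist (H.map Prod.fst) ∧ l₂.Sublist M

/-! ### Detected sets -/

/-- **DTM**.  PROOF.  The same `L`.  By `BAS` (first part) a lattice which is stable under `ρ '' S'` is
stable under the closure of `ρ '' S'`, which is the image of the closure of `S'`
(`MonoidHom.map_closure`); `Bd` is monotone. -/
def St_Dtm : Prop := ∀ (g n : ℕ) (S S' : Set (F g n)),
    S ⊆ (Subgroup.closure S' : Set (F g n)) → Dt S' → Dt S

/-- **DTA**.  PROOF.  `R3S.arc` for `ρ ∘ y`.  `L` = the finite set of the `z` of `NSc` for the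
elements `(y i)⁻¹ * y j`, `i < j`, and `(y i)⁻¹ * y j * (y k)⁻¹ * y j`, `i < j < k` (`choose`; finite because
`Fin m × Fin m × Fin m` is finite, e.g. `Set.finite_range` or a union over the triples).  `CP` for
`c z c⁻¹` and `c z⁻¹ c⁻¹` by `BAS` (third part: for `γ` with `CP` also `γ⁻¹` and its conjugates; apply it
twice).  The set of the products `(ρ (y i))⁻¹ * ρ (y j)` is `ρ ''` of the set. -/
def St_Dta : Prop := ∀ (g n m : ℕ) (y : Fin m → F g n),
    (∀ i j, i < j → NSc ((y i)⁻¹ * y j)) →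
    (∀ i j k, i < j → j < k → NSc ((y i)⁻¹ * y j * (y k)⁻¹ * y j)) →
    Dt {x | ∃ i j, x = (y i)⁻¹ * y j}

/-- **TET**.  PROOF.  `L` = union of the four sets.  For `ρ` let `a, b, c` be the images of
`α, β, γ`; let `z 0 = 1`, `z 1 = a`, `z 2 = b`, `z 3 = c` and for a set `I` of indices let `Γ I` be the
group generated by the `z i * (z j)⁻¹`, `i, j` in `I`.  `R3S.gg` for `H m = Γ` of the complement of `m`, and
`E m m' = Γ` of the complement of `{m, m'}` (a cyclic group).  `H 3 = ⟨a, b⟩`, `H 2 = ⟨a, c⟩`, `H 1 = ⟨b, c⟩`,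
`H 0 = ⟨a b⁻¹, a c⁻¹⟩` are bounded (`BAS`), `E` is symmetric, `E m m' ≤ H m`, and any two of the three
differences of three `z`'s generate the group of all three.  You may define `H` and `E` by hand, e.g.
`H = ![closure {a b⁻¹, a c⁻¹}, closure {b, c}, closure {a, c}, closure {a, b}]` and `E m m'` by
closures of one element: `E 0 1 = {b c⁻¹}`, `E 0 2 = {a c⁻¹}`, `E 0 3 = {a b⁻¹}`, `E 1 2 = {c}`, `E 1 3 = {b}`,
`E 2 3 = {a}`; compare `ARC_quad` in R3S/ARC.lean.  Conclusion of `gg`: all `H i` are in the stabiliser of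
one lattice, in particular `a, b, c`. -/
def St_Tet : Prop := ∀ (g n : ℕ) (α β γ : F g n), Dt {α, β} → Dt {α, γ} → Dt {β, γ} →
    Dt {α * β⁻¹, α * γ⁻¹} → Dt {α, β, γ}

/-- **HLY**.  PROOF.  `L` = union of the finite sets for the (finitely many) triples; `R3S.hel` for
`ρ ∘ y`. -/
def St_Hly : Prop := ∀ (g n m : ℕ) (y : Fin m → F g n), (∀ i j k, Dt {y i, y j, y k}) →
    Dt (Set.range y)

/-! ### Handles with holes -/

/-- **HNS**.  PROOF.  `LGP.thm_Aut`: a reachable system is the image of the standard one under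
some `φ` in `MC`, so `A = φ (ga i)` for some `i` and `A` is `NS`.  `B` is the inverse of the first
component after `Step.rot`: `B⁻¹` is `NS`; or `Step.rot'`, whose first component is `A * B * A⁻¹`: it is
`NS`, so is `B` (`LGP.Psh_NS_conj`).  `Mv.st`, `Step.context`. -/
def St_Hns : Prop := ∀ (g n : ℕ) (A B : F g n) (l : List (F g n)), Hol A B l → NS A ∧ NS B

/-- **HMV**.  PROOF.  `Step.tw`, `Step.tw'`, `Step.rot`, `Step.rot'` at the handle `(A, B)`; nothing
else changes.  `Hol` for a sublist: a sublist of `l₁ ++ l₂` is a sublist of `l₁` followed by a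
sublist of `l₂` (`List.sublist_append_iff`). -/
def St_Hmv : Prop := ∀ (g n : ℕ) (A B : F g n) (l : List (F g n)), Hol A B l →
    Hol A (B * A) l ∧ Hol A (B * A⁻¹) l ∧ Hol B⁻¹ (B * A * B⁻¹) l ∧ Hol (A * B * A⁻¹) A⁻¹ l ∧
      ∀ l' : List (F g n), l'.Sublist l → Hol A B l'

/-- **HPU**.  The handle is pushed over the first hole.
PROOF.  Case 1: `l₁ = y :: l₁'`.  `H = G ++ (y, e) :: H'` with `l₁'` a sublist of `H'.map fst`.  By
`Step.br'` (induction on `G`, as `LGP.Psh_front`) `(y, e)` moves to the left of `G`, unchanged: `G` becomes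
`G'`.  Now the handles `(A, B), (y, e)` are adjacent.  `Step.rot` on the second: `(e⁻¹, e * y * e⁻¹) =: (c, d)`,
`c * d * c⁻¹ = y`.  `Step.sl'`: `(A, c * d⁻¹ * c⁻¹ * B * A) = (A, y⁻¹ * B * A)`, and some second handle.
`Step.tw'`: `(A, y⁻¹ * B)`.  The new list of handles to the right is (second handle) `:: G' ++ H'`.
Case 2: `l₁ = []`, `l₂ = y :: l₂'`.  `M = G ++ y :: M'`, `l₂'` a sublist of `M'`.  First all handles of `H`
move to the left of `(A, B)` (`Step.br`, as `Helper12.Sc.move_one`): the handles are `P' ++ [(A, B)]`.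
Then `y` moves to the left of `G` unchanged (`Mv.sw`, induction on `G`): `y :: G' ++ M'`.  `Mv.ab` with
`a = A`, `b = B`: the last handle is `(A, y⁻¹ * B)`, the punctures are `(..) :: G' ++ M'`. -/
def St_Hpu : Prop := ∀ (g n : ℕ) (A B y : F g n) (l : List (F g n)), Hol A B (y :: l) →
    Hol A (y⁻¹ * B) l

/-- **HUN**.  One block of holes.
PROOF.  Let `y = Y.prod`.  (i) `Hol A' B' (Y ++ l)` implies `NS (y⁻¹ * B')`: `HPU` for the members of `Y`
one after the other gives `Hol A' (y⁻¹ * B') l` (induction on `Y`), then `HNS`.  By `HMV` this holds for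
all handles `(A', B')` obtained from `(A, B)` by the four moves.  (ii) `DTA` with `m = 4` and
`z = ![1, B⁻¹, B⁻¹ * A⁻¹, B⁻¹ * A⁻¹ * y⁻¹ * B]`.  The ten elements:
`01`: `B⁻¹`.  `12`: `A⁻¹`.  `23`: `y⁻¹ * B`: `NS` by (i).
`02`: `B⁻¹ * A⁻¹`, inverse of `A * B`, conjugate of `B * A` (`Hol A (B * A) l`, `HNS`).
`03`: `B⁻¹ * A⁻¹ * y⁻¹ * B` is conjugate to `A⁻¹ * y⁻¹`, and so to `y⁻¹ * A⁻¹`, which is (i) for the handle
`(A * B * A⁻¹, A⁻¹)`.
`13`: `A⁻¹ * y⁻¹ * B` is conjugate to `y⁻¹ * B * A⁻¹`: second component of the handle obtained from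
`Hol A (y⁻¹ * B) l` by the second move of `HMV`.
`012`: `(z 0)⁻¹ * z 1 * (z 2)⁻¹ * z 1 = B⁻¹ * A`, conjugate to the inverse of `B * A⁻¹ `: move 2 of `HMV`
(`A⁻¹ * B` is conjugate to `B * A⁻¹`; the `NS` element is `B * A⁻¹`, second component).
`123`: `(z 1)⁻¹ * z 2 * (z 3)⁻¹ * z 2 = A⁻¹ * B⁻¹ * y`, the inverse of `y⁻¹ * (B * A)`: (i) for `(A, B * A)`.
`023`: `(z 0)⁻¹ * z 2 * (z 3)⁻¹ * z 2 = B⁻¹ * A⁻¹ * B⁻¹ * y`, the inverse of `y⁻¹ * (B * A * B)`: (i) for the
handle `(B⁻¹, B * A * B)`: from `(A, B)` by the third move `(B⁻¹, B * A * B⁻¹)`, then twice the second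
move: second component `B * A * B⁻¹ * B * B`.
`013`: `(z 0)⁻¹ * z 1 * (z 3)⁻¹ * z 1 = B⁻¹ * B⁻¹ * y * A` is conjugate to the inverse of
`y⁻¹ * (B * B * A⁻¹)`: (i) for a handle with second component `B * B * A⁻¹`.  This handle: from `(A, B)` by
the third move `(B⁻¹, B * A * B⁻¹)`, twice the first move `(B⁻¹, B * A * B⁻¹ * B⁻¹ * B⁻¹)`, the fourth
move `(X, Z) ↦ (X * Z * X⁻¹, X⁻¹)`: `(A * B⁻¹ * B⁻¹, B)`, the fourth move again: the second component is
`(A * B⁻¹ * B⁻¹)⁻¹ = B * B * A⁻¹`.
The set of `DTA` contains `B⁻¹`, `A⁻¹`, `y⁻¹ * B`; `DTM`. -/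
def St_Hun : Prop := ∀ (g n : ℕ) (A B : F g n) (Y l : List (F g n)), Hol A B (Y ++ l) →
    Dt {A, B, Y.prod}

/-- **HTW**.  Two blocks of holes.
PROOF.  `u = Y.prod`, `v = Z.prod`.  `HUN`: (1) `Dt {A, B, u}` (block `Y`), (2) `Dt {A, B, u * v}` (block
`Y ++ Z`), (3) `Hol A (u⁻¹ * B) (Z ++ l)` (`HPU` for the members of `Y`), so `Dt {A, u⁻¹ * B, v}`; (4) the same
for the handle `(B⁻¹, B * A * B⁻¹)` (`HMV`): `Dt {B⁻¹, u⁻¹ * B * A * B⁻¹, v}`.  Let `α = B`, `β = u⁻¹ * B * A`,
`γ = v⁻¹ * u⁻¹ * B * A`.  `TET`: `{α, β}` is in the closure of (1), `{α, γ}` in that of (2), `{β, γ}` in that of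
(3) (`β = (u⁻¹ * B) * A`, `γ = v⁻¹ * β`), and `α * β⁻¹ = B * A⁻¹ * B⁻¹ * u`, `α * γ⁻¹ = B * A⁻¹ * B⁻¹ * u * v` are
the inverses of `u⁻¹ * B * A * B⁻¹` and `v⁻¹ * (u⁻¹ * B * A * B⁻¹)`, in the closure of (4).  So
`Dt {α, β, γ}`.  `HLY` for `![A, α, β, γ]`: every triple (with repetitions) is contained in `{α, β, γ}`, or
in the closure of (1) (`A, α, β`), (2) (`A, α, γ`) or (3) (`A, β, γ`).  `A, B, u, v` are in the closure of
`A, α, β, γ`; `DTM`. -/
def St_Htw : Prop := ∀ (g n : ℕ) (A B : F g n) (Y Z l : List (F g n)), Hol A B (Y ++ Z ++ l) →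
    Dt {A, B, Y.prod, Z.prod}

/-- **HAL**.  All holes.
PROOF.  Let `d k = ((l.take k).prod)⁻¹ * B` for `k ≤ l.length` (`d 0 = B`).  For `i ≤ l.length`:
`Hol A (d i) (l.drop i)` (`HPU` repeatedly).  For `i ≤ j ≤ k`: `HTW` for this handle and the blocks
`l.drop i = (l.drop i).take (j - i) ++ (l.drop j).take (k - j) ++ l.drop k` gives
`Dt {A, d i, d j, d k}` (`d j = u⁻¹ * d i`, `d k = v⁻¹ * d j`; `DTM`).  `HLY` for the family `A, d 0, .., d (l.length)`
(`Fin.cons A ..` or an index type `Fin (l.length + 2)`): every triple is contained in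
`{A, d i, d j, d k}` for some `i ≤ j ≤ k` (sort).  The member number `k` of `l` is `d k * (d (k + 1))⁻¹`
up to conjugation: `d k * (d (k+1))⁻¹ = (l.take k).prod⁻¹ * (l.take (k+1)).prod = l[k]` exactly.  `DTM`. -/
def St_Hal : Prop := ∀ (g n : ℕ) (A B : F g n) (l : List (F g n)), Hol A B l →
    Dt ({A, B} ∪ {y | y ∈ l})

/-- **GEN**.  Everything is detected.
PROOF.  (1) Let `i : Fin g` and `c : Fin g → Bool`.  Apply `Step.rot` to the standard handles `k` with
`c k = true` (`Reach.context`, induction on the list): the handle is `p k = (a_k, b_k)` or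
`(b_k⁻¹, b_k a_k b_k⁻¹)`.  Move `p i` to the front unchanged (`Step.br'`, as `LGP.Psh_front`, but we need the
exact form of the others): a handle `q` to the left of it becomes `(δ⁻¹ q.1 δ, δ⁻¹ q.2 δ)`, `δ = [p i]`
the commutator of the two components of `p i`.  So `Hol (p i).1 (p i).2 l` where `l` contains for every
`k ≠ i` the element `(p k).1` or `δ⁻¹ * (p k).1 * δ`, and all punctures `gx j`.  `HAL`, `DTM`
(`δ` is in the closure): `Dt ({ga i, gb i} ∪ {(p k).1 | k} ∪ range gx)`.  (2) `HLY` for the family of all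
generators `ga k, gb k, gx j` (indexed by `Fin m`, `m = 2 g + n`, via an equivalence): let three of them be
given.  If two of them are `ga i`, `gb i` for some `i` take this `i`, otherwise take any `i` which
occurs in one of them as `ga i` or `gb i`, or `i = 0` (`0 < g`) if all three are punctures; for `k ≠ i`
at most one of `ga k`, `gb k` occurs: let `c k = true` if `gb k` occurs.  All three are in the closure
of the set of (1).  (3) `DTM`: the generators generate `F g n`. -/
def St_Gen : Prop := ∀ (g n : ℕ), 0 < g → Dt (Set.univ : Set (F g n))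

/-- **ORB**.  The theorem in rank three.
PROOF.  `GEN`: `L` finite, `NS`, and for `K, O, t, ρ` with `CP` on `L` the set `ρ '' univ` is bounded, so
`trace (ρ w) ∈ O` (`R3S.thm_BAS`, second part, `Bd O {ρ w}`): `R3S.Int3 L`.  `R3S.fin` with the generators
of `F g n` (`Fin m →`, closure `⊤`) and the finite set of polynomials: for `φ ∈ MC` and `x ∈ L` the
element `φ x` is `NS` (`LGP.Psh_NS_map`), so the polynomial of `ρ (φ x)` is in the set; the character
of `ρ.comp φ` is in the finite set of `R3S.fin`. -/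
def St_Orb : Prop := ∀ (g n : ℕ), 0 < g → ∀ ρ : F g n →* GL (Fin 3) ℂ,
    {P : Polynomial ℂ | ∃ y : F g n, NS y ∧ P = (ρ y : Matrix (Fin 3) (Fin 3) ℂ).charpoly}.Finite →
    {χ : F g n → ℂ | ∃ φ ∈ MC g n,
      χ = fun y => (ρ (φ y) : Matrix (Fin 3) (Fin 3) ℂ).trace}.Finite

end Pool.Agent.RTP
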